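import Pool.Agent.helper132_hp.Stmts

/-! The bilinear sum in two variables. -/

set_option autoImplicit false

namespace Pool.Agent.helper132_hp

open Finset

namespace BSx

lemma norm_e (x : ℝ) : ‖e x‖ = 1 := by
  unfold e
  exact Complex.norm_exp_ofReal_mul_I _

lemma e_add (x y : ℝ) : e (x + y) = e x * e y := by
  unfold e
  rw [← Complex.exp_add]
  congr 1
  push_cast
  ring

lemma e_zero : e 0 = 1 := by
  unfold e
  simp

lemma conj_e (x : ℝ) : (starRingEnd ℂ) (e x) = e (-x) := by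
  unfold e
  rw [← Complex.exp_conj]
  congr 1
  simp only [map_mul, Complex.conj_ofReal, Complex.conj_I]
  push_cast
  ring

lemma e_sum {ι : Type} (s : Finset ι) (f : ι → ℝ) : ∏ i ∈ s, e (f i) = e (∑ i ∈ s, f i) := by
  classical
  induction s using Finset.induction_on with
  | empty => simp [e_zero]
  | insert a s ha ih => rw [Finset.prod_insert ha, Finset.sum_insert ha, e_add, ih]

/-- pairs of tuples -/
noncomputable def WW (b : ℕ) (V : Finset ℤ) : Finset ((Fin b → ℤ) × (Fin b → ℤ)) :=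
  (Fintype.piFinset fun _ => V) ×ˢ (Fintype.piFinset fun _ => V)

lemma card_WW (b : ℕ) (V : Finset ℤ) : (WW b V).card = V.card ^ (2 * b) := by
  unfold WW
  rw [Finset.card_product, Fintype.card_piFinset]
  simp only [Finset.prod_const, Finset.card_univ, Fintype.card_fin]
  rw [two_mul, pow_add]

/-- difference of power sums -/
def nn {b : ℕ} (m : ℕ) (w : (Fin b → ℤ) × (Fin b → ℤ)) : ℤ := ∑ i, w.1 i ^ m - ∑ i, w.2 i ^ m

lemma norm_pow_eq (V : Finset ℤ) (f : ℤ → ℝ) (b : ℕ) :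
    ((‖∑ v ∈ V, e (f v)‖ ^ (2 * b) : ℝ) : ℂ) =
      ∑ w ∈ WW b V, e (∑ i, f (w.1 i) - ∑ i, f (w.2 i)) := by
  set z := ∑ v ∈ V, e (f v) with hz
  have h1 : ((‖z‖ ^ (2 * b) : ℝ) : ℂ) = z ^ b * ((starRingEnd ℂ) z) ^ b := by
    rw [← mul_pow, Complex.mul_conj, Complex.normSq_eq_norm_sq, pow_mul]
    push_cast
    rfl
  have h2 : z ^ b = ∑ x ∈ Fintype.piFinset (fun _ : Fin b => V), e (∑ i, f (x i)) := by
    have h := Finset.prod_univ_sum (fun _ : Fin b => V) (fun _ v => e (f v))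
    rw [Finset.prod_const, Finset.card_univ, Fintype.card_fin] at h
    rw [hz, h]
    exact Finset.sum_congr rfl fun x _ => e_sum _ _
  have h3 : ((starRingEnd ℂ) z) ^ b =
      ∑ x ∈ Fintype.piFinset (fun _ : Fin b => V), e (-∑ i, f (x i)) := by
    rw [← map_pow, h2, map_sum]
    exact Finset.sum_congr rfl fun x _ => conj_e _
  rw [h1, h2, h3, Finset.sum_mul_sum]
  unfold WW
  rw [Finset.sum_product]
  refine Finset.sum_congr rfl fun x _ => Finset.sum_congr rfl fun y _ => ?_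
  rw [← e_add, sub_eq_add_neg]

/-- the one-variable sum -/
noncomputable def EE (k : ℕ) (V : Finset ℤ) (x y : ℝ) : ℂ :=
  ∑ v ∈ V, e (x * (v : ℝ) ^ (2 * k) + y * (v : ℝ) ^ k)

lemma EE_pow (k b : ℕ) (V : Finset ℤ) (x y : ℝ) :
    ((‖EE k V x y‖ ^ (2 * b) : ℝ) : ℂ) =
      ∑ w ∈ WW b V, e (x * (nn (2 * k) w : ℝ) + y * (nn k w : ℝ)) := by
  unfold EE
  rw [norm_pow_eq]
  refine Finset.sum_congr rfl fun w _ => ?_
  congr 1
  unfold nn
  push_cast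
  rw [Finset.sum_add_distrib, Finset.sum_add_distrib, ← Finset.mul_sum, ← Finset.mul_sum,
    ← Finset.mul_sum, ← Finset.mul_sum]
  ring

/-- sums over fibres -/
lemma fib {W : Type} (S : Finset W) (φ : W → ℤ × ℤ) (X : Finset (ℤ × ℤ)) (hφ : ∀ w ∈ S, φ w ∈ X)
    (J : ℝ) (hJ : ∀ m, ((S.filter fun w => φ w = m).card : ℝ) ≤ J) (g : ℤ × ℤ → ℝ)
    (hg : ∀ m, 0 ≤ g m) : ∑ w ∈ S, g (φ w) ≤ J * ∑ m ∈ X, g m := by
  classical
  rw [← Finset.sum_fiberwise_of_maps_to hφ, Finset.mul_sum]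
  refine Finset.sum_le_sum fun m _ => ?_
  have h : ∑ w ∈ S.filter (fun w => φ w = m), g (φ w) =
      ((S.filter fun w => φ w = m).card : ℝ) * g m := by
    rw [← nsmul_eq_mul, ← Finset.sum_const]
    refine Finset.sum_congr rfl fun w hw => ?_
    rw [(Finset.mem_filter.1 hw).2]
  rw [h]
  exact mul_le_mul_of_nonneg_right (hJ m) (hg m)

/-- the box of the values -/
noncomputable def BX (X1 X2 : ℕ) : Finset (ℤ × ℤ) := Icc (-(X1 : ℤ)) X1 ×ˢ Icc (-(X2 : ℤ)) X2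

lemma card_Icc' (X : ℕ) : (Icc (-(X : ℤ)) X).card = 2 * X + 1 := by
  rw [Int.card_Icc]
  omega

/-- the mean value over the box -/
lemma box_mean (k b : ℕ) (U : Finset ℤ) (A θ : ℝ) (X1 X2 : ℕ) (J V : ℝ) (hJ0 : 0 ≤ J)
    (hb : ∀ w ∈ WW b U, (nn k w, nn (2 * k) w) ∈ BX X1 X2)
    (hJ : ∀ m : ℤ × ℤ, (((WW b U).filter fun w => (nn k w, nn (2 * k) w) = m).card : ℝ) ≤ J)
    (hV : ∑ m ∈ Icc (-(X2 : ℤ)) X2, ‖∑ n ∈ Icc (-(X2 : ℤ)) X2, e (A * n * m)‖ ≤ V) :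
    ∑ n ∈ BX X1 X2, ‖EE k U (A * (n.2 : ℝ)) (θ * (n.1 : ℝ))‖ ^ (2 * b) ≤
      (2 * (X1 : ℝ) + 1) ^ 2 * J * V := by
  classical
  have key : ((∑ n ∈ BX X1 X2, ‖EE k U (A * (n.2 : ℝ)) (θ * (n.1 : ℝ))‖ ^ (2 * b) : ℝ) : ℂ) =
      ∑ w ∈ WW b U, (∑ n1 ∈ Icc (-(X1 : ℤ)) X1, e (θ * n1 * (nn k w : ℝ))) *
        ∑ n2 ∈ Icc (-(X2 : ℤ)) X2, e (A * n2 * (nn (2 * k) w : ℝ)) := by
    rw [Complex.ofReal_sum]
    simp_rw [EE_pow]
    rw [Finset.sum_comm]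
    refine Finset.sum_congr rfl fun w _ => ?_
    unfold BX
    rw [Finset.sum_product, Finset.sum_mul_sum]
    refine Finset.sum_congr rfl fun n1 _ => Finset.sum_congr rfl fun n2 _ => ?_
    rw [add_comm, e_add]
  have hnn : 0 ≤ ∑ n ∈ BX X1 X2, ‖EE k U (A * (n.2 : ℝ)) (θ * (n.1 : ℝ))‖ ^ (2 * b) :=
    Finset.sum_nonneg fun _ _ => pow_nonneg (norm_nonneg _) _
  have h1 : ∑ n ∈ BX X1 X2, ‖EE k U (A * (n.2 : ℝ)) (θ * (n.1 : ℝ))‖ ^ (2 * b) =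
      ‖((∑ n ∈ BX X1 X2, ‖EE k U (A * (n.2 : ℝ)) (θ * (n.1 : ℝ))‖ ^ (2 * b) : ℝ) : ℂ)‖ := by
    rw [Complex.norm_real, Real.norm_of_nonneg hnn]
  rw [h1, key]
  calc ‖∑ w ∈ WW b U, (∑ n1 ∈ Icc (-(X1 : ℤ)) X1, e (θ * n1 * (nn k w : ℝ))) *
        ∑ n2 ∈ Icc (-(X2 : ℤ)) X2, e (A * n2 * (nn (2 * k) w : ℝ))‖
      ≤ ∑ w ∈ WW b U, (2 * (X1 : ℝ) + 1) *
          ‖∑ n2 ∈ Icc (-(X2 : ℤ)) X2, e (A * n2 * (nn (2 * k) w : ℝ))‖ := by
        refine (norm_sum_le _ _).trans (Finset.sum_le_sum fun w _ => ?_)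
        rw [norm_mul]
        refine mul_le_mul_of_nonneg_right ?_ (norm_nonneg _)
        refine (norm_sum_le _ _).trans ?_
        rw [Finset.sum_congr rfl fun n1 _ => norm_e _, Finset.sum_const, card_Icc', nsmul_eq_mul,
          mul_one]
        push_cast
        exact le_refl _
    _ = ∑ w ∈ WW b U, (fun m : ℤ × ℤ => (2 * (X1 : ℝ) + 1) *
          ‖∑ n2 ∈ Icc (-(X2 : ℤ)) X2, e (A * n2 * (m.2 : ℝ))‖) (nn k w, nn (2 * k) w) := rfl
    _ ≤ J * ∑ m ∈ BX X1 X2, (2 * (X1 : ℝ) + 1) *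
          ‖∑ n2 ∈ Icc (-(X2 : ℤ)) X2, e (A * n2 * (m.2 : ℝ))‖ :=
        fib (WW b U) (fun w => (nn k w, nn (2 * k) w)) (BX X1 X2) hb J hJ
          (fun m : ℤ × ℤ => (2 * (X1 : ℝ) + 1) *
          ‖∑ n2 ∈ Icc (-(X2 : ℤ)) X2, e (A * n2 * (m.2 : ℝ))‖)
          (fun m => mul_nonneg (by positivity) (norm_nonneg _))
    _ = J * ((2 * (X1 : ℝ) + 1) * ((2 * (X1 : ℝ) + 1) *
          ∑ m ∈ Icc (-(X2 : ℤ)) X2, ‖∑ n ∈ Icc (-(X2 : ℤ)) X2, e (A * n * m)‖)) := by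
        rw [← Finset.mul_sum]
        unfold BX
        rw [Finset.sum_product]
        dsimp only
        rw [Finset.sum_const, card_Icc', nsmul_eq_mul]
        push_cast
        ring
    _ ≤ J * ((2 * (X1 : ℝ) + 1) * ((2 * (X1 : ℝ) + 1) * V)) := by
        gcongr
    _ = _ := by ring

/-- the main inequality -/
lemma main_ineq (k b n : ℕ) (hn : 2 * b = n + 1) (U V : Finset ℤ) (A θ : ℝ) (X1 X2 : ℕ)
    (JU JV L : ℝ) (hJU0 : 0 ≤ JU) (hJV0 : 0 ≤ JV)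
    (hbU : ∀ w ∈ WW b U, (nn k w, nn (2 * k) w) ∈ BX X1 X2)
    (hbV : ∀ w ∈ WW b V, (nn k w, nn (2 * k) w) ∈ BX X1 X2)
    (hJU : ∀ m : ℤ × ℤ, (((WW b U).filter fun w => (nn k w, nn (2 * k) w) = m).card : ℝ) ≤ JU)
    (hJV : ∀ m : ℤ × ℤ, (((WW b V).filter fun w => (nn k w, nn (2 * k) w) = m).card : ℝ) ≤ JV)
    (hL : ∑ m ∈ Icc (-(X2 : ℤ)) X2, ‖∑ n ∈ Icc (-(X2 : ℤ)) X2, e (A * n * m)‖ ≤ L) :
    (‖∑ u ∈ U, ∑ v ∈ V, e (A * ((u : ℝ) * v) ^ (2 * k) + θ * ((u : ℝ) * v) ^ k)‖ ^ (2 * b)) ^ (2 * b)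
      ≤ ((U.card : ℝ) ^ n) ^ (2 * b) * ((V.card : ℝ) ^ (2 * b)) ^ n *
        (JV * ((2 * (X1 : ℝ) + 1) ^ 2 * JU * L)) := by
  classical
  -- first step
  have s1 : ‖∑ u ∈ U, ∑ v ∈ V, e (A * ((u : ℝ) * v) ^ (2 * k) + θ * ((u : ℝ) * v) ^ k)‖ ^ (2 * b) ≤
      (U.card : ℝ) ^ n * ∑ u ∈ U, ‖EE k V (A * (u : ℝ) ^ (2 * k)) (θ * (u : ℝ) ^ k)‖ ^ (2 * b) := by
    have h0 : ∀ u ∈ U, ∑ v ∈ V, e (A * ((u : ℝ) * v) ^ (2 * k) + θ * ((u : ℝ) * v) ^ k) =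
        EE k V (A * (u : ℝ) ^ (2 * k)) (θ * (u : ℝ) ^ k) := by
      intro u _
      unfold EE
      refine Finset.sum_congr rfl fun v _ => ?_
      congr 1
      rw [mul_pow, mul_pow]
      ring
    rw [Finset.sum_congr rfl h0]
    calc ‖∑ u ∈ U, EE k V (A * (u : ℝ) ^ (2 * k)) (θ * (u : ℝ) ^ k)‖ ^ (2 * b)
        ≤ (∑ u ∈ U, ‖EE k V (A * (u : ℝ) ^ (2 * k)) (θ * (u : ℝ) ^ k)‖) ^ (2 * b) :=
          pow_le_pow_left₀ (norm_nonneg _) (norm_sum_le _ _) _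
      _ ≤ _ := by
          rw [hn]
          exact pow_sum_le_card_mul_sum_pow (fun _ _ => norm_nonneg _) n
  -- second step
  have s2 : ∑ u ∈ U, ‖EE k V (A * (u : ℝ) ^ (2 * k)) (θ * (u : ℝ) ^ k)‖ ^ (2 * b) ≤
      ∑ w ∈ WW b V, ‖EE k U (A * (nn (2 * k) w : ℝ)) (θ * (nn k w : ℝ))‖ := by
    have key : ((∑ u ∈ U, ‖EE k V (A * (u : ℝ) ^ (2 * k)) (θ * (u : ℝ) ^ k)‖ ^ (2 * b) : ℝ) : ℂ) =
        ∑ w ∈ WW b V, EE k U (A * (nn (2 * k) w : ℝ)) (θ * (nn k w : ℝ)) := by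
      rw [Complex.ofReal_sum]
      simp_rw [EE_pow]
      rw [Finset.sum_comm]
      refine Finset.sum_congr rfl fun w _ => ?_
      unfold EE
      refine Finset.sum_congr rfl fun u _ => ?_
      congr 1
      ring
    have hnn : 0 ≤ ∑ u ∈ U, ‖EE k V (A * (u : ℝ) ^ (2 * k)) (θ * (u : ℝ) ^ k)‖ ^ (2 * b) :=
      Finset.sum_nonneg fun _ _ => pow_nonneg (norm_nonneg _) _
    have h1 : ∑ u ∈ U, ‖EE k V (A * (u : ℝ) ^ (2 * k)) (θ * (u : ℝ) ^ k)‖ ^ (2 * b) =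
        ‖((∑ u ∈ U, ‖EE k V (A * (u : ℝ) ^ (2 * k)) (θ * (u : ℝ) ^ k)‖ ^ (2 * b) : ℝ) : ℂ)‖ := by
      rw [Complex.norm_real, Real.norm_of_nonneg hnn]
    rw [h1, key]
    exact norm_sum_le _ _
  -- third step
  have s3 : (∑ w ∈ WW b V, ‖EE k U (A * (nn (2 * k) w : ℝ)) (θ * (nn k w : ℝ))‖) ^ (2 * b) ≤
      ((V.card : ℝ) ^ (2 * b)) ^ n *
        ∑ w ∈ WW b V, ‖EE k U (A * (nn (2 * k) w : ℝ)) (θ * (nn k w : ℝ))‖ ^ (2 * b) := by
    have h := pow_sum_le_card_mul_sum_pow (s := WW b V)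
      (f := fun w => ‖EE k U (A * (nn (2 * k) w : ℝ)) (θ * (nn k w : ℝ))‖)
      (fun _ _ => norm_nonneg _) n
    rw [card_WW] at h
    rw [hn] at h ⊢
    push_cast at h
    exact h
  -- fourth step
  have s4 : ∑ w ∈ WW b V, ‖EE k U (A * (nn (2 * k) w : ℝ)) (θ * (nn k w : ℝ))‖ ^ (2 * b) ≤
      JV * ∑ m ∈ BX X1 X2, ‖EE k U (A * (m.2 : ℝ)) (θ * (m.1 : ℝ))‖ ^ (2 * b) :=
    fib (WW b V) (fun w => (nn k w, nn (2 * k) w)) (BX X1 X2) hbV JV hJV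
      (fun m : ℤ × ℤ => ‖EE k U (A * (m.2 : ℝ)) (θ * (m.1 : ℝ))‖ ^ (2 * b))
      (fun m => pow_nonneg (norm_nonneg _) _)
  have s5 := box_mean k b U A θ X1 X2 JU L hJU0 hbU hJU hL
  have hs : 0 ≤ ∑ w ∈ WW b V, ‖EE k U (A * (nn (2 * k) w : ℝ)) (θ * (nn k w : ℝ))‖ :=
    Finset.sum_nonneg fun _ _ => norm_nonneg _
  calc (‖∑ u ∈ U, ∑ v ∈ V, e (A * ((u : ℝ) * v) ^ (2 * k) + θ * ((u : ℝ) * v) ^ k)‖ ^ (2 * b)) ^
          (2 * b)
      ≤ ((U.card : ℝ) ^ n *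
          ∑ w ∈ WW b V, ‖EE k U (A * (nn (2 * k) w : ℝ)) (θ * (nn k w : ℝ))‖) ^ (2 * b) := by
        refine pow_le_pow_left₀ (by positivity) (s1.trans ?_) _
        gcongr
    _ = ((U.card : ℝ) ^ n) ^ (2 * b) *
          (∑ w ∈ WW b V, ‖EE k U (A * (nn (2 * k) w : ℝ)) (θ * (nn k w : ℝ))‖) ^ (2 * b) := by
        rw [mul_pow]
    _ ≤ ((U.card : ℝ) ^ n) ^ (2 * b) * (((V.card : ℝ) ^ (2 * b)) ^ n *
          (JV * ((2 * (X1 : ℝ) + 1) ^ 2 * JU * L))) := by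
        refine mul_le_mul_of_nonneg_left (s3.trans ?_) (by positivity)
        refine mul_le_mul_of_nonneg_left (s4.trans ?_) (by positivity)
        exact mul_le_mul_of_nonneg_left s5 hJV0
    _ = _ := by ring

/-! ### the constants -/

lemma nn_bound {b m M : ℕ} (V : Finset ℤ) (hV : ∀ v ∈ V, |v| ≤ (M : ℤ))
    (w : (Fin b → ℤ) × (Fin b → ℤ)) (hw : w ∈ WW b V) : |nn m w| ≤ ((2 * b * M ^ m : ℕ) : ℤ) := by
  unfold WW at hw
  rw [Finset.mem_product, Fintype.mem_piFinset, Fintype.mem_piFinset] at hw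
  have h : ∀ x : Fin b → ℤ, (∀ i, x i ∈ V) → |∑ i, x i ^ m| ≤ (b : ℤ) * (M : ℤ) ^ m := by
    intro x hx
    calc |∑ i, x i ^ m| ≤ ∑ i, |x i ^ m| := Finset.abs_sum_le_sum_abs _ _
      _ ≤ ∑ _i : Fin b, (M : ℤ) ^ m := by
          refine Finset.sum_le_sum fun i _ => ?_
          rw [abs_pow]
          exact pow_le_pow_left₀ (abs_nonneg _) (hV _ (hx i)) m
      _ = (b : ℤ) * (M : ℤ) ^ m := by
          rw [Finset.sum_const, Finset.card_univ, Fintype.card_fin, nsmul_eq_mul]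
  unfold nn
  have h1 := h w.1 hw.1
  have h2 := h w.2 hw.2
  have h3 := abs_sub (∑ i, w.1 i ^ m) (∑ i, w.2 i ^ m)
  push_cast
  calc |∑ i, w.1 i ^ m - ∑ i, w.2 i ^ m| ≤ |∑ i, w.1 i ^ m| + |∑ i, w.2 i ^ m| := abs_sub _ _
    _ ≤ (b : ℤ) * (M : ℤ) ^ m + (b : ℤ) * (M : ℤ) ^ m := add_le_add h1 h2
    _ = 2 * (b : ℤ) * (M : ℤ) ^ m := by ring

lemma mem_BX_of {b k A0 j : ℕ} (V : Finset ℤ) (hV : ∀ v ∈ V, |v| ≤ ((A0 * 2 ^ j : ℕ) : ℤ))
    (w : (Fin b → ℤ) × (Fin b → ℤ)) (hw : w ∈ WW b V) :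
    (nn k w, nn (2 * k) w) ∈ BX (2 * b * (A0 + 1) ^ (2 * k) * 2 ^ (k * j))
      (2 * b * (A0 + 1) ^ (2 * k) * 2 ^ (2 * k * j)) := by
  have h1 := nn_bound (m := k) V hV w hw
  have h2 := nn_bound (m := 2 * k) V hV w hw
  have e1 : 2 * b * (A0 * 2 ^ j) ^ k ≤ 2 * b * (A0 + 1) ^ (2 * k) * 2 ^ (k * j) := by
    rw [mul_pow, ← pow_mul, mul_comm j k, ← mul_assoc]
    refine Nat.mul_le_mul_right _ (Nat.mul_le_mul_left _ ?_)
    calc A0 ^ k ≤ (A0 + 1) ^ k := Nat.pow_le_pow_left (by omega) _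
      _ ≤ (A0 + 1) ^ (2 * k) := Nat.pow_le_pow_right (by omega) (by omega)
  have e2 : 2 * b * (A0 * 2 ^ j) ^ (2 * k) ≤ 2 * b * (A0 + 1) ^ (2 * k) * 2 ^ (2 * k * j) := by
    rw [mul_pow, ← pow_mul, mul_comm j (2 * k), ← mul_assoc]
    refine Nat.mul_le_mul_right _ (Nat.mul_le_mul_left _ ?_)
    exact Nat.pow_le_pow_left (by omega) _
  unfold BX
  rw [Finset.mem_product, Finset.mem_Icc, Finset.mem_Icc, ← abs_le, ← abs_le]
  refine ⟨h1.trans ?_, h2.trans ?_⟩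
  · exact_mod_cast e1
  · exact_mod_cast e2

lemma recip (h2 : S_VL) (α : ℝ) (c : ℤ) (q : ℕ) (hq : 0 < q) (hc : IsCoprime c (q : ℤ))
    (ha : |α - (c : ℝ) / q| ≤ 1 / (q : ℝ) ^ 2) (d : ℤ) (hd : d ≠ 0) (X : ℕ) :
    ∑ m ∈ Icc (-(X : ℤ)) X, ‖∑ n ∈ Icc (-(X : ℤ)) X, e (α * d * n * m)‖ ≤
      50 * (((d.natAbs * X : ℕ) : ℝ) / q + 1) *
        (((2 * X + 1 : ℕ) : ℝ) + q * (1 + Real.log q)) := by
  classical
  have h := h2 α c q hq hc ha (d.natAbs * X) (2 * X + 1) (-(X : ℤ)) (X + 1) (by omega)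
    (by push_cast; omega)
  refine le_trans ?_ h
  have e1 : (Ico (-(X : ℤ)) (X + 1)) = Icc (-(X : ℤ)) X := by
    ext x
    rw [Finset.mem_Ico, Finset.mem_Icc]
    omega
  rw [e1]
  have inj : Set.InjOn (fun m : ℤ => d * m) (Icc (-(X : ℤ)) X : Set ℤ) := by
    intro x _ y _ hxy
    exact mul_left_cancel₀ hd hxy
  calc ∑ m ∈ Icc (-(X : ℤ)) X, ‖∑ n ∈ Icc (-(X : ℤ)) X, e (α * d * n * m)‖
      = ∑ m ∈ Icc (-(X : ℤ)) X, ‖∑ n ∈ Icc (-(X : ℤ)) X, e (α * ((d * m : ℤ) : ℝ) * n)‖ := by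
        refine Finset.sum_congr rfl fun m _ => ?_
        congr 1
        refine Finset.sum_congr rfl fun n _ => ?_
        congr 1
        push_cast
        ring
    _ = ∑ h ∈ (Icc (-(X : ℤ)) X).image (fun m => d * m),
          ‖∑ n ∈ Icc (-(X : ℤ)) X, e (α * (h : ℝ) * n)‖ := by
        rw [Finset.sum_image]
        intro x hx y hy hxy
        exact inj (by simpa using hx) (by simpa using hy) hxy
    _ ≤ _ := by
        refine Finset.sum_le_sum_of_subset_of_nonneg ?_ fun _ _ _ => norm_nonneg _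
        intro h hh
        rw [Finset.mem_image] at hh
        obtain ⟨m, hm, rfl⟩ := hh
        rw [Finset.mem_Icc, ← abs_le] at hm ⊢
        rw [abs_mul]
        push_cast
        exact mul_le_mul_of_nonneg_left hm (abs_nonneg _)

/-- `t = 2^{j/80}`. -/
noncomputable def tt (j : ℕ) : ℝ := (2 : ℝ) ^ ((j : ℝ) / 80)

lemma tt_pos (j : ℕ) : 0 < tt j := Real.rpow_pos_of_pos (by norm_num) _

lemma tt_one (j : ℕ) : 1 ≤ tt j := by
  unfold tt
  exact Real.one_le_rpow (by norm_num) (by positivity)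

lemma tt_pow (j : ℕ) : (tt j) ^ 80 = (2 : ℝ) ^ j := by
  unfold tt
  rw [← Real.rpow_natCast, ← Real.rpow_mul (by norm_num), ← Real.rpow_natCast]
  congr 1
  push_cast
  ring

lemma tt_log (j : ℕ) : (1 + j : ℝ) ≤ 60 * (tt j) ^ 2 := by
  have h : (tt j) ^ 2 = Real.exp (Real.log 2 * ((j : ℝ) / 40)) := by
    unfold tt
    rw [← Real.rpow_natCast, ← Real.rpow_mul (by norm_num), Real.rpow_def_of_pos (by norm_num)]
    congr 1
    push_cast
    ring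
  rw [h]
  have h1 := Real.add_one_le_exp (Real.log 2 * ((j : ℝ) / 40))
  have h2 := Real.log_two_gt_d9
  have h3 : (0 : ℝ) ≤ j := Nat.cast_nonneg j
  have h4 : (2 / 3 : ℝ) * ((j : ℝ) / 40) ≤ Real.log 2 * ((j : ℝ) / 40) := by
    apply mul_le_mul_of_nonneg_right _ (by positivity)
    linarith
  linarith

lemma tt_J (j k b : ℕ) : (2 : ℝ) ^ (((2 * (b : ℝ)) - 3 * k + 1 / 80) * j) * (tt j) ^ (240 * k) =
    (tt j) ^ (160 * b + 1) := by
  unfold tt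
  rw [← Real.rpow_natCast, ← Real.rpow_natCast, ← Real.rpow_mul (by norm_num),
    ← Real.rpow_mul (by norm_num), ← Real.rpow_add (by norm_num)]
  congr 1
  push_cast
  ring

/-- the bound for the reciprocal sum. -/
lemma L_bound (k j q B dn : ℕ) (hk : 1 ≤ k) (hB : 1 ≤ B) (hq : 0 < q) (h1 : 2 ^ j ≤ q ^ 10)
    (h2 : q ^ 10 * 2 ^ j ≤ 2 ^ (10 * (4 * k) * j)) :
    50 * (((dn * (B * 2 ^ (2 * k * j)) : ℕ) : ℝ) / q + 1) *
        (((2 * (B * 2 ^ (2 * k * j)) + 1 : ℕ) : ℝ) + q * (1 + Real.log q)) * (tt j) ^ 8 ≤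
      50 * (3 * dn * B ^ 2 + dn * B + 3 * B + 1) * (4 * k) * (1 + j) * (tt j) ^ (320 * k) := by
  set t := tt j with ht
  have t0 : 0 < t := tt_pos j
  have t1 : 1 ≤ t := tt_one j
  have t80 : t ^ 80 = (2 : ℝ) ^ j := tt_pow j
  have q0 : (0 : ℝ) < q := by exact_mod_cast hq
  have a1 : t ^ 8 ≤ q := by
    have h : (t ^ 8) ^ 10 ≤ (q : ℝ) ^ 10 := by
      rw [← pow_mul]
      norm_num
      rw [t80]
      exact_mod_cast h1
    exact le_of_pow_le_pow_left₀ (by norm_num) q0.le h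
  have e40 : (2 : ℝ) ^ (10 * (4 * k) * j) = (t ^ (320 * k)) ^ 10 := by
    rw [← pow_mul, show 320 * k * 10 = 80 * (40 * k) by ring, pow_mul t, t80, ← pow_mul]
    congr 1
    ring
  have a2 : (q : ℝ) * t ^ 8 ≤ t ^ (320 * k) := by
    have h : ((q : ℝ) * t ^ 8) ^ 10 ≤ (t ^ (320 * k)) ^ 10 := by
      rw [mul_pow, ← pow_mul t 8 10, ← e40]
      norm_num
      rw [t80]
      exact_mod_cast h2
    exact le_of_pow_le_pow_left₀ (by norm_num) (by positivity) h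
  have e2k : (2 : ℝ) ^ (2 * k * j) = t ^ (160 * k) := by
    rw [show 160 * k = 80 * (2 * k) by ring, pow_mul t, t80, ← pow_mul]
    congr 1
    ring
  have a3 : Real.log q ≤ 4 * k * j := by
    have hq2 : (q : ℝ) ≤ (2 : ℝ) ^ (4 * k * j) := by
      have e4 : (2 : ℝ) ^ (4 * k * j) = t ^ (320 * k) := by
        rw [show 320 * k = 80 * (4 * k) by ring, pow_mul t, t80, ← pow_mul]
        congr 1
        ring
      rw [e4]
      refine le_trans ?_ a2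
      have : (1 : ℝ) ≤ t ^ 8 := one_le_pow₀ t1
      nlinarith
    calc Real.log q ≤ Real.log ((2 : ℝ) ^ (4 * k * j)) := Real.log_le_log q0 hq2
      _ = (4 * k * j : ℕ) * Real.log 2 := by rw [Real.log_pow]
      _ ≤ (4 * k * j : ℕ) * 1 := by
          refine mul_le_mul_of_nonneg_left ?_ (Nat.cast_nonneg _)
          have := Real.log_two_lt_d9
          linarith
      _ = 4 * k * j := by push_cast; ring
  have k1 : (1 : ℝ) ≤ k := by exact_mod_cast hk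
  have j0 : (0 : ℝ) ≤ j := Nat.cast_nonneg j
  set l : ℝ := 4 * k * (1 + j) with hl
  have l1 : 1 ≤ l := by
    rw [hl]
    nlinarith
  have a4 : 1 + Real.log q ≤ l := by
    rw [hl]
    nlinarith
  have lq0 : 0 ≤ 1 + Real.log q := by
    have : 0 ≤ Real.log q := Real.log_nonneg (by exact_mod_cast hq)
    linarith
  have B1 : (1 : ℝ) ≤ B := by exact_mod_cast hB
  have d0 : (0 : ℝ) ≤ dn := Nat.cast_nonneg dn
  have T160 : (1 : ℝ) ≤ t ^ (160 * k) := one_le_pow₀ t1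
  have a5 : t ^ (160 * k) * t ^ 8 ≤ t ^ (320 * k) := by
    rw [← pow_add]
    exact pow_le_pow_right₀ t1 (by omega)
  have a6 : t ^ (160 * k) * t ^ (160 * k) = t ^ (320 * k) := by
    rw [← pow_add]
    congr 1
    ring
  push_cast
  rw [e2k]
  set T := t ^ (160 * k) with hT
  set R := t ^ (320 * k) with hR
  have R0 : 0 < R := by positivity
  have M3 : 2 * (B * T) + 1 ≤ 3 * (B * T) := by nlinarith
  have b1 : (dn * (B * T)) / q * (3 * (B * T)) * t ^ 8 ≤ 3 * dn * B ^ 2 * R := by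
    have : (dn * (B * T)) / q * (3 * (B * T)) * t ^ 8 = (3 * dn * B ^ 2 * R) * (t ^ 8 / q) := by
      rw [← a6]
      field_simp
    rw [this]
    have h8 : t ^ 8 / q ≤ 1 := (div_le_one q0).2 a1
    calc (3 * dn * B ^ 2 * R) * (t ^ 8 / q) ≤ (3 * dn * B ^ 2 * R) * 1 :=
          mul_le_mul_of_nonneg_left h8 (by positivity)
      _ = _ := mul_one _
  have b2 : (dn * (B * T)) / q * (q * (1 + Real.log q)) * t ^ 8 ≤ dn * B * l * R := by
    have : (dn * (B * T)) / q * (q * (1 + Real.log q)) * t ^ 8 =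
        dn * B * (1 + Real.log q) * (T * t ^ 8) := by
      field_simp
    rw [this]
    gcongr
  have b3 : 3 * (B * T) * t ^ 8 ≤ 3 * B * R := by
    calc 3 * (B * T) * t ^ 8 = 3 * B * (T * t ^ 8) := by ring
      _ ≤ 3 * B * R := by gcongr
  have b4 : (q * (1 + Real.log q)) * t ^ 8 ≤ l * R := by
    calc (q * (1 + Real.log q)) * t ^ 8 = (1 + Real.log q) * (q * t ^ 8) := by ring
      _ ≤ l * R := by gcongr
  calc 50 * ((dn * (B * T)) / q + 1) * (2 * (B * T) + 1 + q * (1 + Real.log q)) * t ^ 8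
      ≤ 50 * ((dn * (B * T)) / q + 1) * (3 * (B * T) + q * (1 + Real.log q)) * t ^ 8 := by
        gcongr
    _ = 50 * ((dn * (B * T)) / q * (3 * (B * T)) * t ^ 8 +
          (dn * (B * T)) / q * (q * (1 + Real.log q)) * t ^ 8 + 3 * (B * T) * t ^ 8 +
          (q * (1 + Real.log q)) * t ^ 8) := by ring
    _ ≤ 50 * (3 * dn * B ^ 2 * R + dn * B * l * R + 3 * B * R + l * R) := by
        gcongr
    _ ≤ 50 * (3 * dn * B ^ 2 * l * R + dn * B * l * R + 3 * B * l * R + l * R) := by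
        have c1 : 3 * dn * B ^ 2 * R ≤ 3 * dn * B ^ 2 * l * R := by
          have : 0 ≤ 3 * dn * B ^ 2 * R := by positivity
          nlinarith
        have c2 : 3 * B * R ≤ 3 * B * l * R := by
          have : 0 ≤ 3 * B * R := by positivity
          nlinarith
        linarith
    _ = _ := by
        rw [hl]
        ring

lemma card_ico (a b : ℤ) (hab : a < b) (j : ℕ) :
    ((Finset.Ico (a * 2 ^ j) (b * 2 ^ j)).card : ℝ) = ((b - a : ℤ) : ℝ) * (tt j) ^ 80 := by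
  rw [Int.card_Ico, tt_pow]
  have h : (0 : ℤ) ≤ b * 2 ^ j - a * 2 ^ j := by
    rw [← sub_mul]
    have : (0 : ℤ) < b - a := by omega
    positivity
  have h2 : (((b * 2 ^ j - a * 2 ^ j).toNat : ℤ) : ℝ) = ((b * 2 ^ j - a * 2 ^ j : ℤ) : ℝ) := by
    rw [Int.toNat_of_nonneg h]
  rw [← Int.cast_natCast, h2]
  push_cast
  ring

lemma abs_ico {a b : ℤ} {A0 : ℕ} (ha : a.natAbs ≤ A0) (hb : b.natAbs ≤ A0) (j : ℕ) (v : ℤ)
    (hv : v ∈ Finset.Ico (a * 2 ^ j) (b * 2 ^ j)) : |v| ≤ ((A0 * 2 ^ j : ℕ) : ℤ) := by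
  rw [Finset.mem_Ico] at hv
  have h1 : -(A0 : ℤ) ≤ a := by omega
  have h2 : b ≤ (A0 : ℤ) := by omega
  have h3 : (0 : ℤ) < 2 ^ j := by positivity
  rw [abs_le]
  push_cast
  constructor
  · nlinarith
  · nlinarith

end BSx

open BSx

/-- the bilinear sum. -/
theorem t_BS (h1 : S_MV) (h2 : S_VL) : S_BS := by
  classical
  intro k hk d hd a b a' b' hab hab'
  have hbb : 1 ≤ bb k := by
    unfold bb
    exact Nat.mul_pos hk (by omega)
  obtain ⟨n, hn⟩ : ∃ n, 2 * bb k = n + 1 := ⟨2 * bb k - 1, by omega⟩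
  obtain ⟨CU, CU0, hCU⟩ := h1 k hk a b hab (1 / 80) (by norm_num)
  obtain ⟨CV, CV0, hCV⟩ := h1 k hk a' b' hab' (1 / 80) (by norm_num)
  set A0 : ℕ := a.natAbs + b.natAbs + a'.natAbs + b'.natAbs with hA0
  set B : ℕ := 2 * bb k * (A0 + 1) ^ (2 * k) with hB
  have B1 : 1 ≤ B := by
    rw [hB]
    have : 1 ≤ (A0 + 1) ^ (2 * k) := Nat.one_le_pow _ _ (by omega)
    nlinarith
  set cU : ℝ := ((b - a : ℤ) : ℝ) with hcU
  set cV : ℝ := ((b' - a' : ℤ) : ℝ) with hcV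
  have cU0 : 0 < cU := by
    rw [hcU]
    exact_mod_cast sub_pos.2 hab
  have cV0 : 0 < cV := by
    rw [hcV]
    exact_mod_cast sub_pos.2 hab'
  set CL : ℝ := 50 * (3 * d.natAbs * B ^ 2 + d.natAbs * B + 3 * B + 1) * (4 * k) with hCL
  have CL0 : 0 < CL := by
    rw [hCL]
    have : (1 : ℝ) ≤ k := by exact_mod_cast hk
    positivity
  have B1r : (1 : ℝ) ≤ B := by exact_mod_cast B1
  set K : ℝ := (cU ^ n) ^ (2 * bb k) * (cV ^ (2 * bb k)) ^ n * (CV * ((3 * B) ^ 2 * CU * (CL * 60)))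
    with hK
  have K0 : 0 < K := by
    rw [hK]
    positivity
  clear_value K
  refine ⟨K ^ 20, by positivity, ?_⟩
  intro j α c q hq hc hα hq1 hq2 θ
  set t := tt j with ht
  have t0 : 0 < t := tt_pos j
  have t1 : 1 ≤ t := tt_one j
  have t80 : t ^ 80 = (2 : ℝ) ^ j := tt_pow j
  set U := Finset.Ico (a * 2 ^ j) (b * 2 ^ j) with hU
  set V := Finset.Ico (a' * 2 ^ j) (b' * 2 ^ j) with hV
  set E : ℝ := (((2 * bb k : ℝ) - 3 * k + 1 / 80) * j) with hE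
  set L : ℝ := 50 * (((d.natAbs * (B * 2 ^ (2 * k * j)) : ℕ) : ℝ) / q + 1) *
        (((2 * (B * 2 ^ (2 * k * j)) + 1 : ℕ) : ℝ) + q * (1 + Real.log q)) with hLdef
  have hL := recip h2 α c q hq hc hα d hd (B * 2 ^ (2 * k * j))
  have L0 : 0 ≤ L := le_trans (Finset.sum_nonneg fun _ _ => norm_nonneg _) hL
  have hLb : L * t ^ 8 ≤ CL * (1 + j) * t ^ (320 * k) :=
    L_bound k j q B d.natAbs hk B1 hq hq1 hq2
  have hmain := main_ineq k (bb k) n hn U V (α * d) θ (B * 2 ^ (k * j)) (B * 2 ^ (2 * k * j))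
    (CU * (2 : ℝ) ^ E) (CV * (2 : ℝ) ^ E) L (by positivity) (by positivity)
    (fun w hw => mem_BX_of U (fun v hv => abs_ico (by omega) (by omega) j v hv) w hw)
    (fun w hw => mem_BX_of V (fun v hv => abs_ico (by omega) (by omega) j v hv) w hw)
    (fun m => by
      have h := hCU j m.1 m.2
      refine le_trans (le_of_eq ?_) h
      congr 2
      unfold WW
      refine Finset.filter_congr fun w _ => ?_
      unfold nn
      exact Prod.ext_iff)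
    (fun m => by
      have h := hCV j m.1 m.2
      refine le_trans (le_of_eq ?_) h
      congr 2
      unfold WW
      refine Finset.filter_congr fun w _ => ?_
      unfold nn
      exact Prod.ext_iff)
    hL
  rw [card_ico a b hab j, card_ico a' b' hab' j] at hmain
  set τ := ‖∑ u ∈ U, ∑ v ∈ V, e (α * d * ((u : ℝ) * v) ^ (2 * k) + θ * ((u : ℝ) * v) ^ k)‖ with hτ
  have τ0 : 0 ≤ τ := norm_nonneg _
  have hX1 : 2 * (((B * 2 ^ (k * j) : ℕ)) : ℝ) + 1 ≤ 3 * B * t ^ (80 * k) := by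
    have e1 : (2 : ℝ) ^ (k * j) = t ^ (80 * k) := by
      rw [pow_mul t, t80, ← pow_mul]
      congr 1
      ring
    push_cast
    rw [e1]
    have : (1 : ℝ) ≤ t ^ (80 * k) := one_le_pow₀ t1
    nlinarith
  have hJ : (2 : ℝ) ^ E * t ^ (240 * k) = t ^ (160 * bb k + 1) := tt_J j k (bb k)
  have E0 : (0 : ℝ) < (2 : ℝ) ^ E := Real.rpow_pos_of_pos (by norm_num) _
  have hlog := tt_log j
  have j0 : (0 : ℝ) ≤ j := Nat.cast_nonneg j
  -- the estimate with all powers of t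
  have key : (τ ^ (2 * bb k)) ^ (2 * bb k) * t ^ 4 ≤ K * t ^ (640 * bb k ^ 2) := by
    have hpos : 0 < t ^ (480 * k + 4) := by positivity
    refine le_of_mul_le_mul_right ?_ hpos
    calc (τ ^ (2 * bb k)) ^ (2 * bb k) * t ^ 4 * t ^ (480 * k + 4)
        = (τ ^ (2 * bb k)) ^ (2 * bb k) * t ^ (480 * k + 8) := by
          rw [mul_assoc, ← pow_add]
          congr 2
          ring
      _ ≤ (((cU * t ^ 80) ^ n) ^ (2 * bb k) * ((cV * t ^ 80) ^ (2 * bb k)) ^ n *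
            (CV * (2 : ℝ) ^ E * ((2 * (((B * 2 ^ (k * j) : ℕ)) : ℝ) + 1) ^ 2 * (CU * (2 : ℝ) ^ E) * L))) *
            t ^ (480 * k + 8) := mul_le_mul_of_nonneg_right hmain (by positivity)
      _ ≤ (((cU * t ^ 80) ^ n) ^ (2 * bb k) * ((cV * t ^ 80) ^ (2 * bb k)) ^ n *
            (CV * (2 : ℝ) ^ E * ((3 * B * t ^ (80 * k)) ^ 2 * (CU * (2 : ℝ) ^ E) * L))) *
            t ^ (480 * k + 8) := by
          gcongr
      _ = ((cU ^ n) ^ (2 * bb k) * (cV ^ (2 * bb k)) ^ n * (CV * ((3 * B) ^ 2 * CU))) *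
            (t ^ (80 * n * (2 * bb k) + 80 * (2 * bb k) * n + 160 * k)) *
            ((2 : ℝ) ^ E * t ^ (240 * k)) * ((2 : ℝ) ^ E * t ^ (240 * k)) * (L * t ^ 8) := by
          ring
      _ ≤ ((cU ^ n) ^ (2 * bb k) * (cV ^ (2 * bb k)) ^ n * (CV * ((3 * B) ^ 2 * CU))) *
            (t ^ (80 * n * (2 * bb k) + 80 * (2 * bb k) * n + 160 * k)) *
            (t ^ (160 * bb k + 1)) * (t ^ (160 * bb k + 1)) *
            (CL * (60 * t ^ 2) * t ^ (320 * k)) := by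
          rw [hJ]
          refine mul_le_mul_of_nonneg_left (hLb.trans ?_) (by positivity)
          gcongr
      _ = K * t ^ (80 * n * (2 * bb k) + 80 * (2 * bb k) * n + 160 * k + (160 * bb k + 1) +
            (160 * bb k + 1) + 2 + 320 * k) := by
          rw [hK]
          ring
      _ = K * t ^ (640 * bb k ^ 2) * t ^ (480 * k + 4) := by
          rw [mul_assoc K, ← pow_add]
          congr 2
          have : 80 * n * (2 * bb k) + 80 * (2 * bb k) * n + 320 * bb k = 640 * bb k ^ 2 := by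
            have h5 : 80 * n * (2 * bb k) + 80 * (2 * bb k) * n + 320 * bb k =
              160 * (n + 1) * (2 * bb k) := by ring
            rw [h5, ← hn]
            ring
          omega
  have e1 : τ ^ (80 * bb k ^ 2) = ((τ ^ (2 * bb k)) ^ (2 * bb k)) ^ 20 := by
    rw [← pow_mul, ← pow_mul]
    congr 1
    ring
  have e2 : (2 : ℝ) ^ (160 * bb k ^ 2 * j) = (t ^ (640 * bb k ^ 2)) ^ 20 := by
    rw [← pow_mul, show 640 * bb k ^ 2 * 20 = 80 * (160 * bb k ^ 2) by ring, pow_mul t, t80,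
      ← pow_mul]
    congr 1
    ring
  have e3 : (2 : ℝ) ^ j = (t ^ 4) ^ 20 := by
    rw [← t80, ← pow_mul]
  rw [e1, e2, e3, ← mul_pow, ← mul_pow]
  exact pow_le_pow_left₀ (by positivity) key 20

end Pool.Agent.helper132_hp
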