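import Pool.Agent.helper132_hp.T_C1a

/-! Minor arcs when there is a large off-diagonal minor. -/

namespace Pool.Agent.helper132_hp

open Finset

namespace C1x

open C1ax

/-- Hölder's inequality and the change of the order of summation. -/
theorem holder {r b : ℕ} (hb : 0 < b) (k : ℕ) (α : ℝ) (U V : Fin r → Finset ℤ)
    (M : Matrix (Fin r) (Fin r) ℤ) (g h : (Fin r → ℤ) → ℝ) :
    ‖∑ u ∈ Fintype.piFinset U, ∑ v ∈ Fintype.piFinset V,
      e (g u + h v + 2 * α * ((∑ i, ∑ l, M i l * u i ^ k * v l ^ k : ℤ) : ℝ))‖ ^ (2 * b) ≤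
    ((Fintype.piFinset U).card : ℝ) ^ (2 * b - 1) *
      ∑ w ∈ (Fintype.piFinset (fun _ : Fin b => Fintype.piFinset V)) ×ˢ
        (Fintype.piFinset (fun _ : Fin b => Fintype.piFinset V)),
        ∏ i, ‖∑ u ∈ U i, e (2 * α *
          ((∑ l, M i l * (∑ t, w.1 t l ^ k - ∑ t, w.2 t l ^ k) : ℤ) : ℝ) * (u : ℝ) ^ k)‖ := by
  classical
  obtain ⟨n, hn⟩ : ∃ n, 2 * b = n + 1 := ⟨2 * b - 1, by omega⟩
  obtain ⟨W, hW⟩ : ∃ W, W = (Fintype.piFinset (fun _ : Fin b => Fintype.piFinset V)) ×ˢ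
        (Fintype.piFinset (fun _ : Fin b => Fintype.piFinset V)) := ⟨_, rfl⟩
  obtain ⟨T, hT⟩ : ∃ T : (Fin r → ℤ) → ℂ, T = fun u => ∑ v ∈ Fintype.piFinset V,
      e (h v + 2 * α * ((∑ i, ∑ l, M i l * u i ^ k * v l ^ k : ℤ) : ℝ)) := ⟨_, rfl⟩
  -- the powers of `T`
  have hpow : ∀ u, (T u) ^ b = ∑ w ∈ Fintype.piFinset (fun _ : Fin b => Fintype.piFinset V),
      e (∑ t, h (w t) + 2 * α * ((∑ i, ∑ l, M i l * u i ^ k * (∑ t, w t l ^ k) : ℤ) : ℝ)) := by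
    intro u
    have h1 : (T u) ^ b = ∏ _t : Fin b, ∑ v ∈ Fintype.piFinset V,
      e (h v + 2 * α * ((∑ i, ∑ l, M i l * u i ^ k * v l ^ k : ℤ) : ℝ)) := by
      rw [Finset.prod_const, Finset.card_univ, Fintype.card_fin, hT]
    rw [h1, Finset.prod_univ_sum]
    refine Finset.sum_congr rfl fun w _ => ?_
    rw [← e_sum, Finset.sum_add_distrib, ← Finset.mul_sum]
    congr 3
    rw [← Int.cast_sum]
    congr 1
    rw [Finset.sum_comm]
    refine Finset.sum_congr rfl fun i _ => ?_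
    rw [Finset.sum_comm]
    refine Finset.sum_congr rfl fun l _ => ?_
    rw [Finset.mul_sum]
  have hmom : ∀ u, ((‖T u‖ ^ (2 * b) : ℝ) : ℂ) = ∑ w ∈ W,
      e (∑ t, h (w.1 t) - ∑ t, h (w.2 t)) * ∏ i, e (2 * α *
          ((∑ l, M i l * (∑ t, w.1 t l ^ k - ∑ t, w.2 t l ^ k) : ℤ) : ℝ) * (u i : ℝ) ^ k) := by
    intro u
    have h1 : ((‖T u‖ ^ (2 * b) : ℝ) : ℂ) = (T u) ^ b * (starRingEnd ℂ) ((T u) ^ b) := by
      rw [map_pow, ← mul_pow, Complex.mul_conj, Complex.normSq_eq_norm_sq, pow_mul]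
      push_cast
      rfl
    rw [h1, hpow, map_sum, Finset.sum_mul_sum, ← Finset.sum_product', hW]
    refine Finset.sum_congr rfl fun w _ => ?_
    rw [e_conj, ← e_add, ← e_sum, ← e_add]
    congr 1
    have h2 : ∑ i, 2 * α * ((∑ l, M i l * (∑ t, w.1 t l ^ k - ∑ t, w.2 t l ^ k) : ℤ) : ℝ) *
        (u i : ℝ) ^ k = 2 * α * ((∑ i, ∑ l, M i l * u i ^ k * (∑ t, w.1 t l ^ k) : ℤ) : ℝ) -
          2 * α * ((∑ i, ∑ l, M i l * u i ^ k * (∑ t, w.2 t l ^ k) : ℤ) : ℝ) := by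
      rw [← mul_sub, ← Int.cast_sub, ← Finset.sum_sub_distrib]
      rw [Int.cast_sum, Finset.mul_sum]
      refine Finset.sum_congr rfl fun i _ => ?_
      rw [← Finset.sum_sub_distrib]
      rw [mul_assoc]
      congr 1
      push_cast
      rw [Finset.sum_mul]
      refine Finset.sum_congr rfl fun l _ => ?_
      ring
    rw [h2]
    ring
  -- the product over the coordinates
  have hprod : ∀ f : Fin r → ℤ → ℂ, ∑ u ∈ Fintype.piFinset U, ∏ i, f i (u i) =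
      ∏ i, ∑ x ∈ U i, f i x := fun f => (Finset.prod_univ_sum U f).symm
  have h3 : ‖∑ u ∈ Fintype.piFinset U, ∑ v ∈ Fintype.piFinset V,
      e (g u + h v + 2 * α * ((∑ i, ∑ l, M i l * u i ^ k * v l ^ k : ℤ) : ℝ))‖ ≤
      ∑ u ∈ Fintype.piFinset U, ‖T u‖ := by
    refine (norm_sum_le _ _).trans (Finset.sum_le_sum fun u _ => ?_)
    have : ∑ v ∈ Fintype.piFinset V,
      e (g u + h v + 2 * α * ((∑ i, ∑ l, M i l * u i ^ k * v l ^ k : ℤ) : ℝ)) = e (g u) * T u := by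
      rw [hT, Finset.mul_sum]
      refine Finset.sum_congr rfl fun v _ => ?_
      rw [← e_add]
      congr 1
      ring
    rw [this, norm_mul, e_norm, one_mul]
  have h4 : (∑ u ∈ Fintype.piFinset U, ‖T u‖) ^ (2 * b) ≤
      ((Fintype.piFinset U).card : ℝ) ^ (2 * b - 1) * ∑ u ∈ Fintype.piFinset U, ‖T u‖ ^ (2 * b) := by
    have h5 := pow_sum_div_card_le_sum_pow (s := Fintype.piFinset U) (f := fun u => ‖T u‖)
      (fun u _ => norm_nonneg _) n
    rw [hn, Nat.add_sub_cancel]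
    by_cases hc : (Fintype.piFinset U).card = 0
    · rw [Finset.card_eq_zero] at hc
      rw [hc]
      simp
    · have hc' : (0 : ℝ) < ((Fintype.piFinset U).card : ℝ) ^ n := by
        have : 0 < (Fintype.piFinset U).card := Nat.pos_of_ne_zero hc
        positivity
      rw [div_le_iff₀ hc'] at h5
      linarith
  refine (pow_le_pow_left₀ (norm_nonneg _) h3 _).trans (h4.trans ?_)
  refine mul_le_mul_of_nonneg_left ?_ (by positivity)
  have h6 : ∑ u ∈ Fintype.piFinset U, ‖T u‖ ^ (2 * b) =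
      ‖((∑ u ∈ Fintype.piFinset U, ‖T u‖ ^ (2 * b) : ℝ) : ℂ)‖ := by
    rw [Complex.norm_real, Real.norm_eq_abs, abs_of_nonneg]
    positivity
  rw [h6, Complex.ofReal_sum]
  simp_rw [hmom]
  rw [Finset.sum_comm, ← hW]
  refine (norm_sum_le _ _).trans (Finset.sum_le_sum fun w _ => ?_)
  rw [← Finset.mul_sum, norm_mul, e_norm, one_mul]
  rw [hprod (fun i x => e (2 * α *
          ((∑ l, M i l * (∑ t, w.1 t l ^ k - ∑ t, w.2 t l ^ k) : ℤ) : ℝ) * (x : ℝ) ^ k)), norm_prod]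

/-- counting the values of the power sums -/
theorem count {r b : ℕ} (k : ℕ) (V : Fin r → Finset ℤ) (M : Matrix (Fin r) (Fin r) ℤ)
    (hM : M.det ≠ 0) (F : Fin r → ℤ → ℝ) (hF : ∀ i n, 0 ≤ F i n) (N : Fin r → ℝ)
    (hN : ∀ l m, ((((Fintype.piFinset fun _ : Fin b => V l) ×ˢ
      (Fintype.piFinset fun _ : Fin b => V l)).filter
        fun w => ∑ t, w.1 t ^ k - ∑ t, w.2 t ^ k = m).card : ℝ) ≤ N l) (H : ℤ)
    (hH : ∀ w ∈ (Fintype.piFinset (fun _ : Fin b => Fintype.piFinset V)) ×ˢ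
        (Fintype.piFinset (fun _ : Fin b => Fintype.piFinset V)), ∀ i,
        ∑ l, M i l * (∑ t, w.1 t l ^ k - ∑ t, w.2 t l ^ k) ∈ Finset.Icc (-H) H) :
    ∑ w ∈ (Fintype.piFinset (fun _ : Fin b => Fintype.piFinset V)) ×ˢ
        (Fintype.piFinset (fun _ : Fin b => Fintype.piFinset V)),
        ∏ i, F i (∑ l, M i l * (∑ t, w.1 t l ^ k - ∑ t, w.2 t l ^ k)) ≤
      (∏ l, N l) * ∏ i, ∑ n ∈ Finset.Icc (-H) H, F i n := by
  classical
  have hN0 : ∀ l, 0 ≤ N l := fun l => le_trans (Nat.cast_nonneg _) (hN l 0)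
  obtain ⟨W, hW⟩ : ∃ W, W = (Fintype.piFinset (fun _ : Fin b => Fintype.piFinset V)) ×ˢ
        (Fintype.piFinset (fun _ : Fin b => Fintype.piFinset V)) := ⟨_, rfl⟩
  rw [← hW] at hH ⊢
  obtain ⟨m, hm⟩ : ∃ m : (Fin b → Fin r → ℤ) × (Fin b → Fin r → ℤ) → Fin r → ℤ,
      m = fun w l => ∑ t, w.1 t l ^ k - ∑ t, w.2 t l ^ k := ⟨_, rfl⟩
  have hm' : ∀ w l, m w l = ∑ t, w.1 t l ^ k - ∑ t, w.2 t l ^ k := fun w l => by rw [hm]
  have hfib1 : ∀ m0 : Fin r → ℤ, ((W.filter fun w => m w = m0).card : ℝ) ≤ ∏ l, N l := by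
    intro m0
    have h1 : (W.filter fun w => m w = m0).card ≤
        (Fintype.piFinset fun l => ((Fintype.piFinset fun _ : Fin b => V l) ×ˢ
      (Fintype.piFinset fun _ : Fin b => V l)).filter
        fun w => ∑ t, w.1 t ^ k - ∑ t, w.2 t ^ k = m0 l).card := by
      refine Finset.card_le_card_of_injOn (fun w l => (fun t => w.1 t l, fun t => w.2 t l)) ?_ ?_
      · intro w hw
        have hw := Finset.mem_filter.1 (Finset.mem_coe.1 hw)
        rw [hW, Finset.mem_product, Fintype.mem_piFinset, Fintype.mem_piFinset] at hw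
        rw [Finset.mem_coe, Fintype.mem_piFinset]
        intro l
        rw [Finset.mem_filter, Finset.mem_product, Fintype.mem_piFinset, Fintype.mem_piFinset]
        refine ⟨⟨fun t => ?_, fun t => ?_⟩, ?_⟩
        · exact Fintype.mem_piFinset.1 (hw.1.1 t) l
        · exact Fintype.mem_piFinset.1 (hw.1.2 t) l
        · have := congrFun hw.2 l
          rw [hm'] at this
          exact this
      · intro w _ w' _ hww
        have h2 : ∀ l, (fun t => w.1 t l, fun t => w.2 t l) =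
            ((fun t => w'.1 t l, fun t => w'.2 t l) : (Fin b → ℤ) × (Fin b → ℤ)) :=
          fun l => congrFun hww l
        refine Prod.ext ?_ ?_
        · funext t l
          exact congrFun (congrArg Prod.fst (h2 l)) t
        · funext t l
          exact congrFun (congrArg Prod.snd (h2 l)) t
    rw [Fintype.card_piFinset] at h1
    calc ((W.filter fun w => m w = m0).card : ℝ) ≤ ((∏ l, (((Fintype.piFinset fun _ : Fin b => V l) ×ˢ
      (Fintype.piFinset fun _ : Fin b => V l)).filter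
        fun w => ∑ t, w.1 t ^ k - ∑ t, w.2 t ^ k = m0 l).card : ℕ) : ℝ) := by exact_mod_cast h1
      _ = ∏ l, ((((Fintype.piFinset fun _ : Fin b => V l) ×ˢ
      (Fintype.piFinset fun _ : Fin b => V l)).filter
        fun w => ∑ t, w.1 t ^ k - ∑ t, w.2 t ^ k = m0 l).card : ℝ) := by push_cast; rfl
      _ ≤ ∏ l, N l := Finset.prod_le_prod (fun _ _ => Nat.cast_nonneg _) fun l _ => hN l _
  have hfib2 : ∀ n0 : Fin r → ℤ, ((W.filter fun w => M.mulVec (m w) = n0).card : ℝ) ≤ ∏ l, N l := by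
    intro n0
    by_cases hne : (W.filter fun w => M.mulVec (m w) = n0).Nonempty
    · obtain ⟨w0, hw0⟩ := hne
      refine le_trans ?_ (hfib1 (m w0))
      have hw0 := Finset.mem_filter.1 hw0
      exact_mod_cast Finset.card_le_card (fun w hw => by
        have hw := Finset.mem_filter.1 hw
        rw [Finset.mem_filter]
        refine ⟨hw.1, ?_⟩
        have h1 : M.mulVec (m w - m w0) = 0 := by
          rw [Matrix.mulVec_sub, hw.2, hw0.2, sub_self]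
        exact sub_eq_zero.1 (Matrix.eq_zero_of_mulVec_eq_zero hM h1))
    · rw [Finset.not_nonempty_iff_eq_empty] at hne
      rw [hne]
      simp only [Finset.card_empty, Nat.cast_zero]
      exact Finset.prod_nonneg fun l _ => hN0 l
  have hmv : ∀ w i, M.mulVec (m w) i = ∑ l, M i l * (∑ t, w.1 t l ^ k - ∑ t, w.2 t l ^ k) := by
    intro w i
    rw [Matrix.mulVec, dotProduct]
    exact Finset.sum_congr rfl fun l _ => by rw [hm']
  simp_rw [← hmv] at hH ⊢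
  rw [← Finset.sum_fiberwise_of_maps_to (s := W)
    (t := Fintype.piFinset fun _ : Fin r => Finset.Icc (-H) H) (g := fun w => M.mulVec (m w))
    (fun w hw => Fintype.mem_piFinset.2 (hH w hw)), Finset.prod_univ_sum, Finset.mul_sum]
  refine Finset.sum_le_sum fun n _ => ?_
  have h2 : ∑ w ∈ W.filter (fun w => M.mulVec (m w) = n), ∏ i, F i (M.mulVec (m w) i) =
      ((W.filter fun w => M.mulVec (m w) = n).card : ℝ) * ∏ i, F i (n i) := by
    rw [← nsmul_eq_mul, ← Finset.sum_const]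
    refine Finset.sum_congr rfl fun w hw => ?_
    rw [(Finset.mem_filter.1 hw).2]
  rw [h2]
  exact mul_le_mul_of_nonneg_right (hfib2 n) (Finset.prod_nonneg fun i _ => hF i _)


theorem pow_eta (k j : ℕ) (hk : 1 ≤ k) :
    ((2 : ℝ) ^ (((2 * bb k : ℝ) - k + 1 / (400 * bb k)) * j)) ^ (40 * bb k * r1 k) =
      (2 ^ j) ^ (40 * bb k * (4 * k ^ 2 + k) * r1 k + 300 * k ^ 5) := by
  rw [← Real.rpow_natCast, ← Real.rpow_mul (by norm_num), ← pow_mul, ← Real.rpow_natCast]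
  congr 1
  have hk0 : (k : ℝ) ≠ 0 := by exact_mod_cast (by omega : k ≠ 0)
  unfold bb r1
  push_cast
  have h2 : (2 * (k : ℝ) + 1) ≠ 0 := by positivity
  field_simp
  ring

theorem card_ico (a b : ℤ) (hab : a < b) (j : ℕ) :
    ((Finset.Ico (a * 2 ^ j) (b * 2 ^ j)).card : ℝ) = ((b - a : ℤ) : ℝ) * 2 ^ j := by
  rw [Int.card_Ico]
  have h1 : (0 : ℤ) ≤ b * 2 ^ j - a * 2 ^ j := by
    rw [← sub_mul]
    exact mul_nonneg (by omega) (by positivity)
  have h2 : (((b * 2 ^ j - a * 2 ^ j).toNat : ℤ) : ℝ) = ((b * 2 ^ j - a * 2 ^ j : ℤ) : ℝ) := by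
    rw [Int.toNat_of_nonneg h1]
  rw [Int.cast_natCast] at h2
  rw [h2]
  push_cast
  ring

theorem card_pi {ι : Type} [Fintype ι] [DecidableEq ι] (a b : ι → ℤ) (hab : ∀ l, a l < b l)
    (j : ℕ) : ((Fintype.piFinset fun l => Finset.Ico (a l * 2 ^ j) (b l * 2 ^ j)).card : ℝ) =
      (∏ l, ((b l - a l : ℤ) : ℝ)) * (2 ^ j) ^ Fintype.card ι := by
  rw [Fintype.card_piFinset]
  push_cast
  rw [Finset.prod_congr rfl fun l _ => card_ico (a l) (b l) (hab l) j, Finset.prod_mul_distrib,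
    Finset.prod_const, Finset.card_univ]
  push_cast
  rfl

theorem numer (X CU CN CE T ρ PF PN : ℝ) (k b n r : ℕ) (hb : b = k * (2 * k + 1))
    (hn : 2 * b = n + 1) (_hr : r = 3000 * k ^ 5) (hX : 0 ≤ X) (hT : 0 < T) (hCU : 0 ≤ CU)
    (hCN : 0 ≤ CN)
    (h1 : X ^ (2 * b) ≤ (CU * T ^ r) ^ n * (PN * PF))
    (h2 : PN = CN * ρ ^ r) (h3 : PF ^ (40 * b) * T ^ r ≤ CE * (T ^ ((k + 1) * (40 * b))) ^ r)
    (h4 : ρ ^ (40 * b * r) = T ^ (40 * b * (4 * k ^ 2 + k) * r + 300 * k ^ 5)) :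
    X ^ (80 * b ^ 2) * T ^ (2700 * k ^ 5) ≤ CU ^ (n * (40 * b)) * CN ^ (40 * b) * CE *
      T ^ (2 * r * (80 * b ^ 2)) := by
  have hexp : r * (n * (40 * b)) + (40 * b * (4 * k ^ 2 + k) * r + 300 * k ^ 5) +
      (k + 1) * (40 * b) * r = 2 * r * (80 * b ^ 2) + 300 * k ^ 5 := by
    have h5 : n + (4 * k ^ 2 + k) + (k + 1) = 4 * b := by
      have : 4 * k ^ 2 + 2 * k = 2 * b := by rw [hb]; ring
      omega
    calc r * (n * (40 * b)) + (40 * b * (4 * k ^ 2 + k) * r + 300 * k ^ 5) + (k + 1) * (40 * b) * r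
        = 40 * b * r * (n + (4 * k ^ 2 + k) + (k + 1)) + 300 * k ^ 5 := by ring
      _ = _ := by rw [h5]; ring
  have hT3 : 0 < T ^ (300 * k ^ 5) := by positivity
  refine le_of_mul_le_mul_right ?_ hT3
  have h6 : X ^ (80 * b ^ 2) * T ^ (2700 * k ^ 5) * T ^ (300 * k ^ 5) =
      (X ^ (2 * b)) ^ (40 * b) * T ^ r := by
    rw [_hr]
    ring
  have h7 : (X ^ (2 * b)) ^ (40 * b) * T ^ r ≤ ((CU * T ^ r) ^ n * (PN * PF)) ^ (40 * b) * T ^ r := by
    gcongr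
  have h8 : ((CU * T ^ r) ^ n * (PN * PF)) ^ (40 * b) * T ^ r =
      (CU ^ (n * (40 * b)) * T ^ (r * (n * (40 * b)))) * PN ^ (40 * b) * (PF ^ (40 * b) * T ^ r) := by
    ring
  have h9 : PN ^ (40 * b) = CN ^ (40 * b) * T ^ (40 * b * (4 * k ^ 2 + k) * r + 300 * k ^ 5) := by
    rw [h2, mul_pow, ← h4]
    ring
  rw [h6]
  refine h7.trans ?_
  rw [h8, h9]
  calc (CU ^ (n * (40 * b)) * T ^ (r * (n * (40 * b)))) *
        (CN ^ (40 * b) * T ^ (40 * b * (4 * k ^ 2 + k) * r + 300 * k ^ 5)) *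
        (PF ^ (40 * b) * T ^ r)
      ≤ (CU ^ (n * (40 * b)) * T ^ (r * (n * (40 * b)))) *
        (CN ^ (40 * b) * T ^ (40 * b * (4 * k ^ 2 + k) * r + 300 * k ^ 5)) *
        (CE * (T ^ ((k + 1) * (40 * b))) ^ r) := by
        refine mul_le_mul_of_nonneg_left h3 (by positivity)
    _ = CU ^ (n * (40 * b)) * CN ^ (40 * b) * CE * T ^ (r * (n * (40 * b)) +
          (40 * b * (4 * k ^ 2 + k) * r + 300 * k ^ 5) + (k + 1) * (40 * b) * r) := by
        rw [pow_add, pow_add, ← pow_mul T ((k + 1) * (40 * b)) r]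
        ring
    _ = _ := by
        rw [hexp, pow_add]
        ring

theorem core (h1 : S_MV1) (h2 : S_C1a) (k : ℕ) (hk : 1 ≤ k)
    (M : Matrix (Fin (r1 k)) (Fin (r1 k)) ℤ) (hM : M.det ≠ 0) (a b a' b' : Fin (r1 k) → ℤ)
    (hab : ∀ l, a l < b l) (hab' : ∀ l, a' l < b' l) :
    ∃ C : ℝ, 0 < C ∧ ∀ (j : ℕ) (α : ℝ) (c : ℤ) (q : ℕ), 0 < q → IsCoprime c (q : ℤ) →
      |α - (c : ℝ) / q| ≤ 1 / (q : ℝ) ^ 2 → 2 ^ j ≤ q ^ 10 →
      q ^ 10 * 2 ^ j ≤ 2 ^ (10 * (2 * k) * j) → ∀ g h : (Fin (r1 k) → ℤ) → ℝ,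
      ‖∑ u ∈ Fintype.piFinset (fun l => Finset.Ico (a l * 2 ^ j) (b l * 2 ^ j)),
        ∑ v ∈ Fintype.piFinset (fun l => Finset.Ico (a' l * 2 ^ j) (b' l * 2 ^ j)),
        e (g u + h v + 2 * α * ((∑ i, ∑ l, M i l * u i ^ k * v l ^ k : ℤ) : ℝ))‖ ^
          (80 * bb k ^ 2) * (2 ^ j) ^ (2700 * k ^ 5) ≤
        C * (2 ^ j) ^ (2 * r1 k * (80 * bb k ^ 2)) := by
  classical
  have hbb : 0 < bb k := by unfold bb; positivity
  have hη : (0 : ℝ) < 1 / (400 * bb k) := by positivity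
  have hex1 : ∀ l, ∃ C : ℝ, 0 < C ∧ _ := fun l => h1 k hk (a' l) (b' l) (hab' l) _ hη
  choose Cn hCn0 hCn using hex1
  obtain ⟨K0, hK0⟩ : ∃ K0 : ℕ, K0 = 1 + ∑ i, ∑ l, (M i l).natAbs *
      (2 * bb k * ((a' l).natAbs + (b' l).natAbs) ^ k) := ⟨_, rfl⟩
  have hex2 : ∀ i, ∃ C : ℝ, 0 < C ∧ _ := fun i => h2 k hk (a i) (b i) (hab i) K0 (by omega)
  choose Ce hCe0 hCe using hex2
  obtain ⟨CU, hCU⟩ : ∃ CU : ℝ, CU = ∏ l, ((b l - a l : ℤ) : ℝ) := ⟨_, rfl⟩
  obtain ⟨CN, hCN⟩ : ∃ CN : ℝ, CN = ∏ l, Cn l := ⟨_, rfl⟩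
  obtain ⟨CE, hCE⟩ : ∃ CE : ℝ, CE = ∏ i, Ce i := ⟨_, rfl⟩
  obtain ⟨n, hn⟩ : ∃ n, 2 * bb k = n + 1 := ⟨2 * bb k - 1, by omega⟩
  have hCU0 : 0 < CU := by
    rw [hCU]
    refine Finset.prod_pos fun l _ => ?_
    have := hab l
    exact_mod_cast (by omega : 0 < b l - a l)
  have hCN0 : 0 < CN := by rw [hCN]; exact Finset.prod_pos fun l _ => hCn0 l
  have hCE0 : 0 < CE := by rw [hCE]; exact Finset.prod_pos fun l _ => hCe0 l
  refine ⟨CU ^ (n * (40 * bb k)) * CN ^ (40 * bb k) * CE, by positivity, ?_⟩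
  intro j α c q hq hc hα hq1 hq2 g h
  obtain ⟨ρ, hρ⟩ : ∃ ρ : ℝ, ρ = (2 : ℝ) ^ (((2 * bb k : ℝ) - k + 1 / (400 * bb k)) * j) := ⟨_, rfl⟩
  have hρ0 : 0 < ρ := by rw [hρ]; positivity
  have hH : ∀ w ∈ (Fintype.piFinset (fun _ : Fin (bb k) => Fintype.piFinset
        (fun l => Finset.Ico (a' l * 2 ^ j) (b' l * 2 ^ j)))) ×ˢ
        (Fintype.piFinset (fun _ : Fin (bb k) => Fintype.piFinset
          (fun l => Finset.Ico (a' l * 2 ^ j) (b' l * 2 ^ j)))), ∀ i,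
        ∑ l, M i l * (∑ t, w.1 t l ^ k - ∑ t, w.2 t l ^ k) ∈
          Finset.Icc (-((K0 : ℤ) * 2 ^ (k * j))) ((K0 : ℤ) * 2 ^ (k * j)) := by
    intro w hw i
    rw [Finset.mem_product, Fintype.mem_piFinset, Fintype.mem_piFinset] at hw
    have h5 : ∀ l, |M i l * (∑ t, w.1 t l ^ k - ∑ t, w.2 t l ^ k)| ≤
        (((M i l).natAbs * (2 * bb k * ((a' l).natAbs + (b' l).natAbs) ^ k) : ℕ) : ℤ) *
          2 ^ (k * j) := by
      intro l
      have h6 := diff_abs (a := a' l) (b := b' l) (C1 := (a' l).natAbs + (b' l).natAbs) rfl j k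
        (s := bb k) (w := (fun t => w.1 t l, fun t => w.2 t l)) (by
          rw [Finset.mem_product, Fintype.mem_piFinset, Fintype.mem_piFinset]
          exact ⟨fun t => Fintype.mem_piFinset.1 (hw.1 t) l,
            fun t => Fintype.mem_piFinset.1 (hw.2 t) l⟩)
      rw [Finset.mem_Icc] at h6
      have h7 := abs_le.2 h6
      rw [abs_mul]
      push_cast at h7 ⊢
      rw [mul_assoc]
      exact mul_le_mul_of_nonneg_left h7 (abs_nonneg _)
    have h8 : |∑ l, M i l * (∑ t, w.1 t l ^ k - ∑ t, w.2 t l ^ k)| ≤ (K0 : ℤ) * 2 ^ (k * j) := by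
      refine (Finset.abs_sum_le_sum_abs _ _).trans ((Finset.sum_le_sum fun l _ => h5 l).trans ?_)
      rw [← Finset.sum_mul, ← Nat.cast_sum]
      refine mul_le_mul_of_nonneg_right ?_ (by positivity)
      have h9 : ∑ l, (M i l).natAbs * (2 * bb k * ((a' l).natAbs + (b' l).natAbs) ^ k) ≤
          ∑ i, ∑ l, (M i l).natAbs * (2 * bb k * ((a' l).natAbs + (b' l).natAbs) ^ k) :=
        Finset.single_le_sum (f := fun i => ∑ l, (M i l).natAbs *
          (2 * bb k * ((a' l).natAbs + (b' l).natAbs) ^ k)) (fun _ _ => Nat.zero_le _)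
          (Finset.mem_univ i)
      exact_mod_cast (by omega)
    rw [Finset.mem_Icc]
    exact abs_le.1 h8
  have hA := holder hbb k α (fun l => Finset.Ico (a l * 2 ^ j) (b l * 2 ^ j))
    (fun l => Finset.Ico (a' l * 2 ^ j) (b' l * 2 ^ j)) M g h
  have hB := count (b := bb k) k (fun l => Finset.Ico (a' l * 2 ^ j) (b' l * 2 ^ j)) M hM
    (fun i n => ‖∑ u ∈ Finset.Ico (a i * 2 ^ j) (b i * 2 ^ j), e (2 * α * (n : ℝ) * (u : ℝ) ^ k)‖)
    (fun _ _ => norm_nonneg _) (fun l => Cn l * ρ) (fun l m => by rw [hρ]; exact hCn l j m) _ hH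
  rw [card_pi a b hab, ← hCU, Fintype.card_fin, (by omega : 2 * bb k - 1 = n)] at hA
  refine numer _ CU CN CE (2 ^ j) ρ _ (∏ l, Cn l * ρ) k (bb k) n (r1 k) rfl hn rfl
    (norm_nonneg _) (by positivity) hCU0.le hCN0.le
    (hA.trans (mul_le_mul_of_nonneg_left hB (by positivity))) ?_ ?_ ?_
  · rw [Finset.prod_mul_distrib, Finset.prod_const, Finset.card_univ, Fintype.card_fin, ← hCN]
  · have h5 : ∀ i, (∑ m ∈ Finset.Icc (-((K0 : ℤ) * 2 ^ (k * j))) ((K0 : ℤ) * 2 ^ (k * j)),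
        ‖∑ y ∈ Finset.Ico (a i * 2 ^ j) (b i * 2 ^ j), e (2 * α * m * (y : ℝ) ^ k)‖) ^ (40 * bb k) *
        2 ^ j ≤ Ce i * (2 ^ j) ^ ((k + 1) * (40 * bb k)) := by
      intro i
      have := hCe i j α c q hq hc hα hq1 hq2
      refine this.trans_eq ?_
      rw [← pow_mul]
      congr 2
      ring
    have h6 := Finset.prod_le_prod (s := Finset.univ) (fun i _ => mul_nonneg (pow_nonneg
      (Finset.sum_nonneg fun _ _ => norm_nonneg _) _) (by positivity)) fun i _ => h5 i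
    rw [Finset.prod_mul_distrib, Finset.prod_mul_distrib, Finset.prod_const, Finset.prod_const,
      Finset.card_univ, Fintype.card_fin, ← hCE, Finset.prod_pow] at h6
    exact h6
  · rw [hρ]
    exact pow_eta k j hk

/-- splitting the variables into three groups -/
theorem decomp {β γ δ ι : Type} [Fintype β] [DecidableEq β] [Fintype γ] [DecidableEq γ]
    [Fintype δ] [DecidableEq δ] [Fintype ι] [DecidableEq ι] (E : (β ⊕ γ) ⊕ δ ≃ ι)
    (T : ι → Finset ℤ) (f : (ι → ℤ) → ℂ) :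
    ∑ z ∈ Fintype.piFinset T, f z = ∑ t ∈ Fintype.piFinset (fun c => T (E (Sum.inr c))),
      ∑ u ∈ Fintype.piFinset (fun x => T (E (Sum.inl (Sum.inl x)))),
      ∑ v ∈ Fintype.piFinset (fun x => T (E (Sum.inl (Sum.inr x)))),
        f (fun l => Sum.elim (Sum.elim u v) t (E.symm l)) := by
  classical
  have h1 : ∀ t : δ → ℤ, ∑ u ∈ Fintype.piFinset (fun x => T (E (Sum.inl (Sum.inl x)))),
      ∑ v ∈ Fintype.piFinset (fun x => T (E (Sum.inl (Sum.inr x)))),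
        f (fun l => Sum.elim (Sum.elim u v) t (E.symm l)) =
      ∑ p ∈ Fintype.piFinset (fun x => T (E (Sum.inl (Sum.inl x)))) ×ˢ
        Fintype.piFinset (fun x => T (E (Sum.inl (Sum.inr x)))),
        f (fun l => Sum.elim (Sum.elim p.1 p.2) t (E.symm l)) := fun t =>
    (Finset.sum_product' _ _ _).symm
  simp_rw [h1]
  rw [← Finset.sum_product' (f := fun (t : δ → ℤ) (p : (β → ℤ) × (γ → ℤ)) =>
    f (fun l => Sum.elim (Sum.elim p.1 p.2) t (E.symm l)))]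
  refine Finset.sum_nbij' (fun z => ((fun c => z (E (Sum.inr c))),
      ((fun x => z (E (Sum.inl (Sum.inl x)))), fun x => z (E (Sum.inl (Sum.inr x))))))
    (fun p => fun l => Sum.elim (Sum.elim p.2.1 p.2.2) p.1 (E.symm l)) ?_ ?_ ?_ ?_ ?_
  · intro z hz
    rw [Fintype.mem_piFinset] at hz
    rw [Finset.mem_product, Finset.mem_product, Fintype.mem_piFinset, Fintype.mem_piFinset,
      Fintype.mem_piFinset]
    exact ⟨fun _ => hz _, fun _ => hz _, fun _ => hz _⟩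
  · intro p hp
    rw [Finset.mem_product, Finset.mem_product, Fintype.mem_piFinset, Fintype.mem_piFinset,
      Fintype.mem_piFinset] at hp
    rw [Fintype.mem_piFinset]
    intro l
    obtain ⟨x, rfl⟩ := E.surjective l
    rw [E.symm_apply_apply]
    rcases x with (x | x) | x
    · exact hp.2.1 x
    · exact hp.2.2 x
    · exact hp.1 x
  · intro z _
    funext l
    obtain ⟨x, rfl⟩ := E.surjective l
    simp only [E.symm_apply_apply]
    rcases x with (x | x) | x <;> rfl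
  · rintro ⟨t, u, v⟩ _
    simp only [E.symm_apply_apply, Sum.elim_inl, Sum.elim_inr]
  · intro z _
    congr 1
    funext l
    obtain ⟨x, rfl⟩ := E.surjective l
    simp only [E.symm_apply_apply]
    rcases x with (x | x) | x <;> rfl

theorem eval_G1 {s : ℕ} (A : Matrix (Fin s) (Fin s) ℤ) (k : ℕ) (z : Fin s → ℤ) :
    MvPolynomial.eval z (G1 A k) = ∑ l, ∑ m, A l m * z l ^ k * z m ^ k := by
  simp [G1]

theorem form {r s : ℕ} {δ : Type} [Fintype δ] (A : Matrix (Fin s) (Fin s) ℤ) (hA : A.IsSymm)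
    (E : (Fin r ⊕ Fin r) ⊕ δ ≃ Fin s) (k : ℕ) (t : δ → ℤ) :
    ∃ g h : (Fin r → ℤ) → ℤ, ∀ u v,
      MvPolynomial.eval (fun l => Sum.elim (Sum.elim u v) t (E.symm l)) (G1 A k) =
        g u + h v + 2 * ∑ i, ∑ l, A (E (Sum.inl (Sum.inl i))) (E (Sum.inl (Sum.inr l))) *
          u i ^ k * v l ^ k := by
  classical
  refine ⟨fun u =>
    (∑ i, ∑ i', A (E (Sum.inl (Sum.inl i))) (E (Sum.inl (Sum.inl i'))) * u i ^ k * u i' ^ k) +
    (∑ i, ∑ c, A (E (Sum.inl (Sum.inl i))) (E (Sum.inr c)) * u i ^ k * t c ^ k) +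
    (∑ c, ∑ i, A (E (Sum.inr c)) (E (Sum.inl (Sum.inl i))) * t c ^ k * u i ^ k) +
    (∑ c, ∑ c', A (E (Sum.inr c)) (E (Sum.inr c')) * t c ^ k * t c' ^ k), fun v =>
    (∑ i, ∑ i', A (E (Sum.inl (Sum.inr i))) (E (Sum.inl (Sum.inr i'))) * v i ^ k * v i' ^ k) +
    (∑ i, ∑ c, A (E (Sum.inl (Sum.inr i))) (E (Sum.inr c)) * v i ^ k * t c ^ k) +
    (∑ c, ∑ i, A (E (Sum.inr c)) (E (Sum.inl (Sum.inr i))) * t c ^ k * v i ^ k), ?_⟩
  intro u v
  have h1 : ∑ l, ∑ i, A (E (Sum.inl (Sum.inr l))) (E (Sum.inl (Sum.inl i))) * v l ^ k * u i ^ k =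
      ∑ i, ∑ l, A (E (Sum.inl (Sum.inl i))) (E (Sum.inl (Sum.inr l))) * u i ^ k * v l ^ k := by
    rw [Finset.sum_comm]
    refine Finset.sum_congr rfl fun i _ => Finset.sum_congr rfl fun l _ => ?_
    rw [hA.apply]
    ring
  rw [eval_G1, ← E.sum_comp]
  simp_rw [← E.sum_comp (fun m => A _ m * _ * _)]
  simp only [Fintype.sum_sum_type, E.symm_apply_apply, Sum.elim_inl, Sum.elim_inr,
    Finset.sum_add_distrib]
  rw [h1]
  ring

theorem final (CW C T Sn : ℝ) (s κ k r N : ℕ) (hN : 0 < N) (hT : 1 ≤ T) (hs : r + r + κ = s) (hW : (2 * k + 1) * N + 1 ≤ 2700 * k ^ 5) (hSn : 0 ≤ Sn)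
    (hCT : CW ^ N * C ≤ T)
    (h : Sn ^ N * T ^ (2700 * k ^ 5) ≤ (CW * T ^ κ) ^ N * (C * T ^ (2 * r * N))) :
    Sn * T ^ (2 * k + 1) ≤ T ^ s := by
  have hT0 : 0 < T := by linarith
  refine (pow_le_pow_iff_left₀ (by positivity) (by positivity) hN.ne').1 ?_
  have h1 : 0 < T ^ (2700 * k ^ 5) := by positivity
  refine le_of_mul_le_mul_right ?_ h1
  have h2 : (Sn * T ^ (2 * k + 1)) ^ N * T ^ (2700 * k ^ 5) =
      (Sn ^ N * T ^ (2700 * k ^ 5)) * T ^ ((2 * k + 1) * N) := by ring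
  rw [h2]
  calc (Sn ^ N * T ^ (2700 * k ^ 5)) * T ^ ((2 * k + 1) * N)
      ≤ ((CW * T ^ κ) ^ N * (C * T ^ (2 * r * N))) * T ^ ((2 * k + 1) * N) := by gcongr
    _ = (CW ^ N * C) * (T ^ s) ^ N * T ^ ((2 * k + 1) * N) := by rw [← hs]; ring
    _ ≤ T * (T ^ s) ^ N * T ^ ((2 * k + 1) * N) := by gcongr
    _ = (T ^ s) ^ N * T ^ ((2 * k + 1) * N + 1) := by ring
    _ ≤ (T ^ s) ^ N * T ^ (2700 * k ^ 5) := by
        gcongr

theorem numerics (k : ℕ) (hk : 1 ≤ k) : (2 * k + 1) * (80 * bb k ^ 2) + 1 ≤ 2700 * k ^ 5 := by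
  have h1 : bb k ≤ 3 * k ^ 2 := by
    unfold bb
    nlinarith
  have h2 : bb k ^ 2 ≤ 9 * k ^ 4 := by
    calc bb k ^ 2 ≤ (3 * k ^ 2) ^ 2 := Nat.pow_le_pow_left h1 2
      _ = 9 * k ^ 4 := by ring
  have h3 : 1 ≤ k ^ 5 := Nat.one_le_pow _ _ hk
  calc (2 * k + 1) * (80 * bb k ^ 2) + 1 ≤ (3 * k) * (80 * (9 * k ^ 4)) + 1 := by
        gcongr
        omega
    _ = 2160 * k ^ 5 + 1 := by ring
    _ ≤ 2700 * k ^ 5 := by omega

end C1x

open C1x C1ax in
theorem t_C1' (h1 : S_MV1) (h2 : S_C1a) : S_C1 := by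
  classical
  intro k hk s A hA I J hI hJ hIJ hdet a b hab
  have hb0 : 0 < bb k := by unfold bb; positivity
  obtain ⟨N, hN⟩ : ∃ N, N = 80 * bb k ^ 2 := ⟨_, rfl⟩
  have hN0 : 0 < N := by rw [hN]; positivity
  -- the equivalence
  have hinj : Function.Injective (Sum.elim I J) := hI.sumElim hJ fun i j => hIJ i j
  obtain ⟨E, hE1, hE2⟩ : ∃ E : (Fin (r1 k) ⊕ Fin (r1 k)) ⊕
      ((Set.range (Sum.elim I J))ᶜ : Set (Fin s)) ≃ Fin s,
      (∀ i, E (Sum.inl (Sum.inl i)) = I i) ∧ (∀ i, E (Sum.inl (Sum.inr i)) = J i) :=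
    ⟨(Equiv.sumCongr (Equiv.ofInjective _ hinj) (Equiv.refl _)).trans
      (Equiv.Set.sumCompl (Set.range (Sum.elim I J))), fun i => rfl, fun i => rfl⟩
  obtain ⟨C, hC0, hC⟩ := core h1 h2 k hk (A.submatrix I J) hdet (fun i => a (I i))
    (fun i => b (I i)) (fun i => a (J i)) (fun i => b (J i)) (fun i => hab _) (fun i => hab _)
  rw [← hN] at hC
  obtain ⟨CW, hCW⟩ : ∃ CW : ℝ, CW = ∏ c : ((Set.range (Sum.elim I J))ᶜ : Set (Fin s)),
    ((b (E (Sum.inr c)) - a (E (Sum.inr c)) : ℤ) : ℝ) := ⟨_, rfl⟩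
  have hCW0 : 0 < CW := by
    rw [hCW]
    refine Finset.prod_pos fun l _ => ?_
    have := hab (E (Sum.inr l))
    exact_mod_cast (by omega : 0 < b (E (Sum.inr l)) - a (E (Sum.inr l)))
  obtain ⟨j0, hj0⟩ := pow_unbounded_of_one_lt (CW ^ N * C) (by norm_num : (1 : ℝ) < 2)
  refine ⟨j0, fun j hj α c q hq hc hα hq1 hq2 => ?_⟩
  obtain ⟨T, hT⟩ : ∃ T : ℝ, T = 2 ^ j := ⟨_, rfl⟩
  have hT1 : 1 ≤ T := by rw [hT]; exact one_le_pow₀ (by norm_num)
  have hT0 : 0 < T := by linarith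
  have hcard : r1 k + r1 k + Fintype.card ((Set.range (Sum.elim I J))ᶜ : Set (Fin s)) = s := by
    have := Fintype.card_congr E
    simpa only [Fintype.card_sum, Fintype.card_fin] using this
  rw [Fintype.card_fin, mul_comm _ j, mul_comm s j, pow_mul, pow_mul, ← hT]
  obtain ⟨B, hB⟩ : ∃ B : ℝ, B = (C * T ^ (2 * r1 k * N) / T ^ (2700 * k ^ 5)) ^ ((N : ℝ)⁻¹) :=
    ⟨_, rfl⟩
  have hB0 : 0 ≤ B := by rw [hB]; positivity
  have hBN : B ^ N = C * T ^ (2 * r1 k * N) / T ^ (2700 * k ^ 5) := by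
    rw [hB, Real.rpow_inv_natCast_pow (by positivity) hN0.ne']
  have hin : ∀ t : ((Set.range (Sum.elim I J))ᶜ : Set (Fin s)) → ℤ,
      ‖∑ u ∈ Fintype.piFinset (fun x => Finset.Ico (a (E (Sum.inl (Sum.inl x))) * 2 ^ j)
          (b (E (Sum.inl (Sum.inl x))) * 2 ^ j)),
        ∑ v ∈ Fintype.piFinset (fun x => Finset.Ico (a (E (Sum.inl (Sum.inr x))) * 2 ^ j)
          (b (E (Sum.inl (Sum.inr x))) * 2 ^ j)),
        e (α * ((MvPolynomial.eval (fun l => Sum.elim (Sum.elim u v) t (E.symm l))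
          (G1 A k) : ℤ) : ℝ))‖ ≤ B := by
    intro t
    obtain ⟨g, h, hgh⟩ := form A hA E k t
    have h5 := hC j α c q hq hc hα hq1 hq2 (fun u => α * g u) (fun v => α * h v)
    rw [← hT] at h5
    have h6 : ∀ u v, α * ((MvPolynomial.eval (fun l => Sum.elim (Sum.elim u v) t (E.symm l))
          (G1 A k) : ℤ) : ℝ) = α * g u + α * h v + 2 * α *
          ((∑ i, ∑ l, (A.submatrix I J) i l * u i ^ k * v l ^ k : ℤ) : ℝ) := by
      intro u v
      rw [hgh]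
      simp only [hE1, hE2, Matrix.submatrix_apply]
      push_cast
      ring
    simp_rw [h6, hE1, hE2]
    refine (pow_le_pow_iff_left₀ (norm_nonneg _) hB0 hN0.ne').1 ?_
    rw [hBN, le_div_iff₀ (by positivity)]
    exact h5
  have hS : ‖Sj (G1 A k) a b j α‖ ≤
      (CW * T ^ Fintype.card ((Set.range (Sum.elim I J))ᶜ : Set (Fin s))) * B := by
    rw [Sj, box, decomp E]
    refine (norm_sum_le _ _).trans ((Finset.sum_le_sum fun t _ => hin t).trans ?_)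
    rw [Finset.sum_const, nsmul_eq_mul]
    refine mul_le_mul_of_nonneg_right ?_ hB0
    have h5 := card_pi (fun c : ((Set.range (Sum.elim I J))ᶜ : Set (Fin s)) => a (E (Sum.inr c)))
      (fun c => b (E (Sum.inr c))) (fun c => hab _) j
    rw [← hCW, ← hT] at h5
    exact h5.le
  refine final CW C T _ s _ k (r1 k) N hN0 hT1 hcard ?_ (norm_nonneg _) ?_ ?_
  · rw [hN]
    exact numerics k hk
  · rw [hT]
    exact hj0.le.trans (pow_le_pow_right₀ (by norm_num) hj)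
  · have h5 := pow_le_pow_left₀ (norm_nonneg _) hS N
    rw [mul_pow _ B, hBN] at h5
    calc _ ≤ ((CW * T ^ Fintype.card ((Set.range (Sum.elim I J))ᶜ : Set (Fin s))) ^ N *
          (C * T ^ (2 * r1 k * N) / T ^ (2700 * k ^ 5))) * T ^ (2700 * k ^ 5) := by gcongr
      _ = _ := by
        rw [mul_assoc, div_mul_cancel₀ _ (by positivity)]

/-- Minor arcs when there is a large off-diagonal minor. -/
theorem t_C1 (h1 : S_MV) (h2 : S_VL) : S_C1 := t_C1' (t_C1mv h1) (t_C1a h1 h2)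

end Pool.Agent.helper132_hp
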