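import Pool.Agent.helper132_hp.Stmts

/-! Minor arcs, diagonal plus low rank. -/

namespace Pool.Agent.helper132_hp

open Finset

namespace C2x

theorem e_add (x y : ℝ) : e (x + y) = e x * e y := by
  unfold e
  rw [← Complex.exp_add]
  congr 1
  push_cast
  ring

theorem norm_e (x : ℝ) : ‖e x‖ = 1 := by
  unfold e
  exact Complex.norm_exp_ofReal_mul_I _

theorem e_zero : e 0 = 1 := by simp [e]

theorem e_sum {β : Type} (s : Finset β) (f : β → ℝ) : e (∑ i ∈ s, f i) = ∏ i ∈ s, e (f i) := by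
  classical
  induction s using Finset.induction_on with
  | empty => simp [e_zero]
  | insert a s ha ih => rw [sum_insert ha, prod_insert ha, e_add, ih]

/-- the `k`-th power of the product of the two coordinates -/
def X (k : ℕ) {s : ℕ} (p : Fin s → ℤ × ℤ) (i : Fin s) : ℤ := ((p i).1 * (p i).2) ^ k

theorem eval_G2 {s : ℕ} (A : Matrix (Fin s) (Fin s) ℤ) (k : ℕ) (p : Fin s → ℤ × ℤ) :
    MvPolynomial.eval (Sum.elim (fun i => (p i).1) (fun i => (p i).2)) (G2 A k) =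
      ∑ i, ∑ j, A i j * X k p i * X k p j := by
  simp [G2, X]

/-- the boxes of the pairs -/
noncomputable def T {s : ℕ} (a b : Fin s ⊕ Fin s → ℤ) (j : ℕ) (i : Fin s) : Finset (ℤ × ℤ) :=
  Finset.Ico (a (Sum.inl i) * 2 ^ j) (b (Sum.inl i) * 2 ^ j) ×ˢ
    Finset.Ico (a (Sum.inr i) * 2 ^ j) (b (Sum.inr i) * 2 ^ j)

theorem sum_box {s : ℕ} (a b : Fin s ⊕ Fin s → ℤ) (j : ℕ) (f : (Fin s ⊕ Fin s → ℤ) → ℂ) :
    ∑ z ∈ box a b j, f z = ∑ p ∈ Fintype.piFinset (T a b j),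
      f (Sum.elim (fun i => (p i).1) (fun i => (p i).2)) := by
  refine Finset.sum_nbij' (fun z i => (z (Sum.inl i), z (Sum.inr i)))
    (fun p => Sum.elim (fun i => (p i).1) (fun i => (p i).2)) ?_ ?_ ?_ ?_ ?_
  · intro z hz
    rw [box, Fintype.mem_piFinset] at hz
    rw [Fintype.mem_piFinset]
    intro i
    rw [T, Finset.mem_product]
    exact ⟨hz _, hz _⟩
  · intro p hp
    rw [Fintype.mem_piFinset] at hp
    rw [box, Fintype.mem_piFinset]
    rintro (i | i)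
    · have := hp i
      rw [T, Finset.mem_product] at this
      exact this.1
    · have := hp i
      rw [T, Finset.mem_product] at this
      exact this.2
  · intro z _
    funext l
    rcases l with i | i <;> rfl
  · intro p _
    rfl
  · intro z _
    congr 1
    funext l
    rcases l with i | i <;> rfl

/-- fixing the coordinates outside `K` -/
theorem sum_fib {s : ℕ} (T : Fin s → Finset (ℤ × ℤ)) (base : Fin s → ℤ × ℤ)
    (K : Finset (Fin s)) (f : (Fin s → ℤ × ℤ) → ℂ) :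
    ∑ p ∈ Fintype.piFinset T, f p =
      ∑ y ∈ Fintype.piFinset (fun i => if i ∈ K then {base i} else T i),
        ∑ p ∈ Fintype.piFinset (fun i => if i ∈ K then T i else {y i}), f p := by
  classical
  rw [← Finset.sum_fiberwise_of_maps_to (s := Fintype.piFinset T)
    (t := Fintype.piFinset (fun i => if i ∈ K then {base i} else T i))
    (g := fun p i => if i ∈ K then base i else p i)]
  · refine Finset.sum_congr rfl fun y hy => ?_
    rw [Fintype.mem_piFinset] at hy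
    refine Finset.sum_congr ?_ fun _ _ => rfl
    ext p
    rw [Finset.mem_filter, Fintype.mem_piFinset, Fintype.mem_piFinset]
    constructor
    · rintro ⟨h1, h2⟩ i
      have h3 := congrFun h2 i
      by_cases hi : i ∈ K
      · simp only [hi, if_true]; exact h1 i
      · simp only [hi, if_false] at h3 ⊢
        rw [h3]; exact Finset.mem_singleton_self _
    · intro h1
      constructor
      · intro i
        have h2 := h1 i
        have h3 := hy i
        by_cases hi : i ∈ K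
        · simp only [hi, if_true] at h2; exact h2
        · simp only [hi, if_false, Finset.mem_singleton] at h2 h3
          rw [h2]; exact h3
      · funext i
        have h2 := h1 i
        have h3 := hy i
        by_cases hi : i ∈ K
        · simp only [hi, if_true, Finset.mem_singleton] at h3 ⊢
          exact h3.symm
        · simp only [hi, if_false, Finset.mem_singleton] at h2 ⊢
          exact h2
  · intro p hp
    rw [Fintype.mem_piFinset] at hp ⊢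
    intro i
    by_cases hi : i ∈ K
    · simp only [hi, if_true]; exact Finset.mem_singleton_self _
    · simp only [hi, if_false]; exact hp i

/-- the product over the coordinates of `K` -/
theorem sum_prod {s : ℕ} (T : Fin s → Finset (ℤ × ℤ)) (y : Fin s → ℤ × ℤ)
    (K : Finset (Fin s)) (g : Fin s → ℤ × ℤ → ℂ) :
    ∑ p ∈ Fintype.piFinset (fun i => if i ∈ K then T i else {y i}), ∏ i ∈ K, g i (p i) =
      ∏ i ∈ K, ∑ x ∈ T i, g i x := by
  classical
  have h1 : ∀ p : Fin s → ℤ × ℤ, ∏ i ∈ K, g i (p i) =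
      ∏ i, (if i ∈ K then g i (p i) else 1) := by
    intro p
    rw [Finset.prod_ite_mem, Finset.univ_inter]
  simp_rw [h1]
  rw [← Finset.prod_univ_sum (fun i => if i ∈ K then T i else {y i})
    (fun i x => if i ∈ K then g i x else 1)]
  rw [← Finset.univ_inter K, ← Finset.prod_ite_mem]
  refine Finset.prod_congr rfl fun i _ => ?_
  by_cases hi : i ∈ K
  · simp [hi]
  · simp [hi]

/-- the shape of the form -/
theorem shape {s r : ℕ} (A : Matrix (Fin s) (Fin s) ℤ) (P Q : Fin s → Fin r → ℤ)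
    (K : Finset (Fin s)) (hA : ∀ i ∈ K, ∀ j ∈ K, i ≠ j → A i j = ∑ m, P i m * Q j m)
    (x ξ : Fin s → ℤ) (hx : ∀ i ∉ K, x i = ξ i) :
    ∑ i, ∑ j, A i j * x i * x j =
      (∑ i ∈ K, ((A i i - ∑ m, P i m * Q i m) * x i ^ 2 +
        (∑ j ∈ Kᶜ, (A i j + A j i) * ξ j) * x i) + ∑ i ∈ Kᶜ, ∑ j ∈ Kᶜ, A i j * ξ i * ξ j) +
      ∑ m, (∑ i ∈ K, P i m * x i) * (∑ i ∈ K, Q i m * x i) := by
  classical
  have hsplit : ∀ f : Fin s → ℤ, ∑ i, f i = ∑ i ∈ K, f i + ∑ i ∈ Kᶜ, f i := fun f =>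
    (Finset.sum_add_sum_compl K f).symm
  have hx' : ∀ i ∈ Kᶜ, x i = ξ i := fun i hi => hx i (Finset.mem_compl.1 hi)
  have h1 : ∑ i, ∑ j, A i j * x i * x j =
      ∑ i ∈ K, ∑ j ∈ K, A i j * x i * x j + ∑ i ∈ K, ∑ j ∈ Kᶜ, A i j * x i * x j +
      (∑ i ∈ Kᶜ, ∑ j ∈ K, A i j * x i * x j + ∑ i ∈ Kᶜ, ∑ j ∈ Kᶜ, A i j * x i * x j) := by
    rw [hsplit]
    congr 1
    · rw [← Finset.sum_add_distrib]
      exact Finset.sum_congr rfl fun i _ => hsplit _
    · rw [← Finset.sum_add_distrib]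
      exact Finset.sum_congr rfl fun i _ => hsplit _
  have h2 : ∑ i ∈ K, ∑ j ∈ K, A i j * x i * x j =
      ∑ i ∈ K, (A i i - ∑ m, P i m * Q i m) * x i ^ 2 +
        ∑ m, (∑ i ∈ K, P i m * x i) * (∑ i ∈ K, Q i m * x i) := by
    have h3 : ∀ i ∈ K, ∑ j ∈ K, A i j * x i * x j =
        (A i i - ∑ m, P i m * Q i m) * x i ^ 2 +
          ∑ j ∈ K, (∑ m, P i m * Q j m) * x i * x j := by
      intro i hi
      have h4 : ∀ j ∈ K, A i j * x i * x j =
          (if i = j then (A i i - ∑ m, P i m * Q i m) * x i ^ 2 else 0) +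
            (∑ m, P i m * Q j m) * x i * x j := by
        intro j hj
        by_cases hij : i = j
        · subst hij
          simp only [if_true]
          ring
        · rw [if_neg hij, hA i hi j hj hij, zero_add]
      rw [Finset.sum_congr rfl h4, Finset.sum_add_distrib, Finset.sum_ite_eq, if_pos hi]
    rw [Finset.sum_congr rfl h3, Finset.sum_add_distrib]
    congr 1
    have h5 : ∀ m, (∑ i ∈ K, P i m * x i) * (∑ i ∈ K, Q i m * x i) =
        ∑ i ∈ K, ∑ j ∈ K, P i m * Q j m * x i * x j := by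
      intro m
      rw [Finset.sum_mul_sum]
      refine Finset.sum_congr rfl fun i _ => Finset.sum_congr rfl fun j _ => ?_
      ring
    have h9 : ∑ m, ∑ i ∈ K, ∑ j ∈ K, P i m * Q j m * x i * x j =
        ∑ i ∈ K, ∑ j ∈ K, ∑ m, P i m * Q j m * x i * x j := by
      rw [Finset.sum_comm]
      exact Finset.sum_congr rfl fun i _ => Finset.sum_comm
    simp_rw [h5]
    rw [h9]
    refine Finset.sum_congr rfl fun i _ => Finset.sum_congr rfl fun j _ => ?_
    rw [Finset.sum_mul, Finset.sum_mul]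
  have h6 : ∑ i ∈ K, ∑ j ∈ Kᶜ, A i j * x i * x j + ∑ i ∈ Kᶜ, ∑ j ∈ K, A i j * x i * x j =
      ∑ i ∈ K, (∑ j ∈ Kᶜ, (A i j + A j i) * ξ j) * x i := by
    have h8 : ∑ i ∈ Kᶜ, ∑ j ∈ K, A i j * x i * x j = ∑ j ∈ K, ∑ i ∈ Kᶜ, A i j * x i * x j :=
      Finset.sum_comm
    rw [h8, ← Finset.sum_add_distrib]
    refine Finset.sum_congr rfl fun i _ => ?_
    rw [← Finset.sum_add_distrib, Finset.sum_mul]
    refine Finset.sum_congr rfl fun j hj => ?_
    rw [hx' j hj]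
    ring
  have h7 : ∑ i ∈ Kᶜ, ∑ j ∈ Kᶜ, A i j * x i * x j = ∑ i ∈ Kᶜ, ∑ j ∈ Kᶜ, A i j * ξ i * ξ j := by
    refine Finset.sum_congr rfl fun i hi => Finset.sum_congr rfl fun j hj => ?_
    rw [hx' i hi, hx' j hj]
  rw [h1, h2, h7, Finset.sum_add_distrib]
  linarith [h6]

/-- the inner sum -/
theorem inner (h2 : S_FL) {s r : ℕ} (k : ℕ) (A : Matrix (Fin s) (Fin s) ℤ)
    (P Q : Fin s → Fin r → ℤ) (K : Finset (Fin s))
    (hA : ∀ i ∈ K, ∀ j ∈ K, i ≠ j → A i j = ∑ m, P i m * Q j m)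
    (T : Fin s → Finset (ℤ × ℤ)) (y : Fin s → ℤ × ℤ) (α : ℝ) (H : ℕ) (Bd : Fin s → ℝ)
    (hBd : ∀ i ∈ K, ∀ θ : ℝ, ‖∑ x ∈ T i, e (α * ((A i i - ∑ m, P i m * Q i m : ℤ) : ℝ) *
      ((x.1 : ℝ) * x.2) ^ (2 * k) + θ * ((x.1 : ℝ) * x.2) ^ k)‖ ≤ Bd i)
    (hB0 : ∀ i ∈ K, 0 ≤ Bd i)
    (hP : ∀ p ∈ Fintype.piFinset (fun i => if i ∈ K then T i else {y i}), ∀ m,
      |∑ i ∈ K, P i m * X k p i| ≤ (H : ℤ))
    (hQ : ∀ p ∈ Fintype.piFinset (fun i => if i ∈ K then T i else {y i}), ∀ m,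
      |∑ i ∈ K, Q i m * X k p i| ≤ (H : ℤ)) :
    ‖∑ p ∈ Fintype.piFinset (fun i => if i ∈ K then T i else {y i}),
      e (α * ((∑ i, ∑ j, A i j * X k p i * X k p j : ℤ) : ℝ))‖ ≤
      (2 * (H : ℝ) + 1) ^ r * ∏ i ∈ K, Bd i := by
  classical
  set F := Fintype.piFinset (fun i => if i ∈ K then T i else {y i}) with hF
  set dd : Fin s → ℤ := fun i => A i i - ∑ m, P i m * Q i m with hdd
  set be : Fin s → ℤ := fun i => ∑ j ∈ Kᶜ, (A i j + A j i) * X k y j with hbe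
  set ga : ℤ := ∑ i ∈ Kᶜ, ∑ j ∈ Kᶜ, A i j * X k y i * X k y j with hga
  set w : (Fin s → ℤ × ℤ) → ℂ := fun p =>
    e (α * ((∑ i ∈ K, (dd i * X k p i ^ 2 + be i * X k p i) + ga : ℤ) : ℝ)) with hw
  set L : (Fin s → ℤ × ℤ) → Fin (r + r) → ℤ := fun p =>
    Fin.append (fun m => ∑ i ∈ K, P i m * X k p i) (fun m => ∑ i ∈ K, Q i m * X k p i) with hL
  set Γ : (Fin (r + r) → ℤ) → ℂ := fun h =>
    e (α * ((∑ m : Fin r, h (Fin.castAdd r m) * h (Fin.natAdd r m) : ℤ) : ℝ)) with hΓ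
  have hmain := h2 (r + r) H (Fin s → ℤ × ℤ) F w L Γ (∏ i ∈ K, Bd i) ?_ ?_ ?_
  · have h3 : ∑ p ∈ F, e (α * ((∑ i, ∑ j, A i j * X k p i * X k p j : ℤ) : ℝ)) =
        ∑ p ∈ F, w p * Γ (L p) := by
      refine Finset.sum_congr rfl fun p hp => ?_
      have hx : ∀ i ∉ K, X k p i = X k y i := by
        intro i hi
        rw [hF, Fintype.mem_piFinset] at hp
        have := hp i
        simp only [hi, if_false, Finset.mem_singleton] at this
        unfold X
        rw [this]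
      rw [shape A P Q K hA (X k p) (X k y) hx]
      simp only [hw, hΓ, hL, Fin.append_left, Fin.append_right, hdd, hbe, hga]
      rw [← e_add, ← mul_add, ← Int.cast_add]
    rw [h3]
    have h4 : ((2 * (H : ℝ) + 1) ^ r * ∏ i ∈ K, Bd i) ^ 2 =
        (2 * (H : ℝ) + 1) ^ (r + r) * (∏ i ∈ K, Bd i) ^ 2 := by
      rw [mul_pow, pow_add]
      ring
    rw [← h4] at hmain
    exact (pow_le_pow_iff_left₀ (norm_nonneg _)
      (mul_nonneg (by positivity) (Finset.prod_nonneg hB0)) two_ne_zero).1 hmain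
  · intro p hp i
    simp only [hL]
    refine Fin.addCases (fun m => ?_) (fun m => ?_) i
    · rw [Fin.append_left]; exact hP p hp m
    · rw [Fin.append_right]; exact hQ p hp m
  · intro h
    exact (norm_e _).le
  · intro θ
    have h5 : ∀ p, w p * e (∑ i, θ i * (L p i : ℝ)) = e (α * (ga : ℝ)) *
        ∏ i ∈ K, e (α * (dd i : ℝ) * (((p i).1 : ℝ) * (p i).2) ^ (2 * k) +
          (α * be i + ∑ m, (θ (Fin.castAdd r m) * P i m + θ (Fin.natAdd r m) * Q i m)) *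
            (((p i).1 : ℝ) * (p i).2) ^ k) := by
      intro p
      simp only [hw]
      rw [← e_sum, ← e_add, ← e_add]
      congr 1
      have h6 : ∑ i, θ i * (L p i : ℝ) = ∑ i ∈ K,
          (∑ m, (θ (Fin.castAdd r m) * P i m + θ (Fin.natAdd r m) * Q i m)) *
            (((p i).1 : ℝ) * (p i).2) ^ k := by
        rw [Fin.sum_univ_add]
        simp only [hL, Fin.append_left, Fin.append_right, Int.cast_sum, Int.cast_mul, X,
          Int.cast_pow, Finset.mul_sum, Finset.sum_mul]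
        rw [Finset.sum_comm, Finset.sum_comm (s := Finset.univ) (t := K), ← Finset.sum_add_distrib]
        refine Finset.sum_congr rfl fun i _ => ?_
        rw [← Finset.sum_add_distrib]
        refine Finset.sum_congr rfl fun m _ => ?_
        ring
      rw [h6]
      push_cast
      simp only [X, Int.cast_pow, Int.cast_mul]
      rw [mul_add, Finset.mul_sum, add_right_comm, ← Finset.sum_add_distrib, add_comm]
      congr 1
      refine Finset.sum_congr rfl fun i _ => ?_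
      ring
    rw [Finset.sum_congr rfl fun p _ => h5 p, ← Finset.mul_sum, norm_mul, norm_e, one_mul, hF,
      sum_prod T y K (fun i x => e (α * (dd i : ℝ) * ((x.1 : ℝ) * x.2) ^ (2 * k) +
          (α * be i + ∑ m, (θ (Fin.castAdd r m) * P i m + θ (Fin.natAdd r m) * Q i m)) *
            ((x.1 : ℝ) * x.2) ^ k)), norm_prod]
    exact Finset.prod_le_prod (fun i _ => norm_nonneg _) fun i hi => hBd i hi _

theorem numerics (k : ℕ) (hk : 1 ≤ k) :
    (2 * k * r1 k + (4 * k + 1)) * (80 * bb k ^ 2) + 1 ≤ t1 k := by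
  have h1 : bb k ≤ 3 * k ^ 2 := by
    unfold bb
    nlinarith
  have h2 : bb k ^ 2 ≤ 9 * k ^ 4 := by
    calc bb k ^ 2 ≤ (3 * k ^ 2) ^ 2 := Nat.pow_le_pow_left h1 2
      _ = 9 * k ^ 4 := by ring
  have h3 : k ≤ k ^ 6 := Nat.le_self_pow (by norm_num) k
  have h4 : 1 ≤ k ^ 6 := Nat.one_le_pow _ _ hk
  have h5 : 2 * k * r1 k + (4 * k + 1) ≤ 6005 * k ^ 6 := by
    unfold r1
    have : 2 * k * (3000 * k ^ 5) = 6000 * k ^ 6 := by ring
    rw [this]
    omega
  have h6 : 1 ≤ k ^ 10 := Nat.one_le_pow _ _ hk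
  calc (2 * k * r1 k + (4 * k + 1)) * (80 * bb k ^ 2) + 1
      ≤ (6005 * k ^ 6) * (80 * (9 * k ^ 4)) + 1 := by gcongr
    _ = 4323600 * k ^ 10 + 1 := by ring
    _ ≤ t1 k := by unfold t1; norm_num; omega

/-- bounds for the coordinates -/
theorem coord {a b c t : ℤ} (ha : |a| ≤ c) (hb : |b| ≤ c) (ht : 0 ≤ t) {u : ℤ}
    (hu : u ∈ Finset.Ico (a * t) (b * t)) : |u| ≤ c * t := by
  rw [Finset.mem_Ico] at hu
  have h1 := abs_le.1 ha
  have h2 := abs_le.1 hb
  rw [abs_le]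
  constructor
  · nlinarith
  · nlinarith

theorem final (C0 C1 CP t Sn : ℝ) (s κ κ' k r N W : ℕ) (hN : 0 < N) (_hC0 : 0 ≤ C0)
    (_hC1 : 0 ≤ C1) (_hCP : 0 ≤ CP) (ht : 1 ≤ t) (hs : κ + κ' = s)
    (hW : (2 * k * r + W) * N + 1 ≤ κ) (hSn : 0 ≤ Sn)
    (hC : (C0 ^ κ' * C1 ^ r) ^ N * CP ≤ t)
    (h : Sn ^ N ≤ ((C0 * t ^ 2) ^ κ' * (C1 * t ^ (2 * k)) ^ r) ^ N * (CP * (t ^ (2 * N) / t) ^ κ)) :
    Sn * t ^ W ≤ t ^ (s + s) := by
  have ht0 : 0 < t := by linarith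
  refine (pow_le_pow_iff_left₀ (by positivity) (by positivity) hN.ne').1 ?_
  have h1 : (Sn * t ^ W) ^ N ≤ ((C0 * t ^ 2) ^ κ' * (C1 * t ^ (2 * k)) ^ r) ^ N *
      (CP * (t ^ (2 * N) / t) ^ κ) * (t ^ W) ^ N := by
    rw [mul_pow]
    gcongr
  refine h1.trans ?_
  have h2 : 0 < t ^ κ := by positivity
  refine le_of_mul_le_mul_right ?_ h2
  have h3 : ((C0 * t ^ 2) ^ κ' * (C1 * t ^ (2 * k)) ^ r) ^ N *
      (CP * (t ^ (2 * N) / t) ^ κ) * (t ^ W) ^ N * t ^ κ =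
      ((C0 ^ κ' * C1 ^ r) ^ N * CP) * (t ^ (s + s)) ^ N * t ^ ((2 * k * r + W) * N) := by
    have h4 : (t ^ (2 * N) / t) ^ κ * t ^ κ = t ^ (2 * N * κ) := by
      rw [← mul_pow, div_mul_cancel₀ _ ht0.ne', ← pow_mul]
    have h5 : ((C0 * t ^ 2) ^ κ' * (C1 * t ^ (2 * k)) ^ r) ^ N *
      (CP * (t ^ (2 * N) / t) ^ κ) * (t ^ W) ^ N * t ^ κ =
      ((C0 * t ^ 2) ^ κ' * (C1 * t ^ (2 * k)) ^ r) ^ N *
      (CP * ((t ^ (2 * N) / t) ^ κ * t ^ κ)) * (t ^ W) ^ N := by ring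
    rw [h5, h4, ← hs]
    ring
  rw [h3]
  have h6 : t ^ ((2 * k * r + W) * N + 1) ≤ t ^ κ := pow_le_pow_right₀ ht hW
  calc ((C0 ^ κ' * C1 ^ r) ^ N * CP) * (t ^ (s + s)) ^ N * t ^ ((2 * k * r + W) * N)
      ≤ t * (t ^ (s + s)) ^ N * t ^ ((2 * k * r + W) * N) := by gcongr
    _ = (t ^ (s + s)) ^ N * t ^ ((2 * k * r + W) * N + 1) := by ring
    _ ≤ (t ^ (s + s)) ^ N * t ^ κ := by gcongr

end C2x

open C2x in
/-- Minor arcs when the form is diagonal plus low rank on many variables. -/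
theorem t_C2 (h1 : S_BS) (h2 : S_FL) : S_C2 := by
  classical
  intro k hk s A P Q K hK hA hd a b hab
  have hb0 : 0 < bb k := by unfold bb; positivity
  set N := 80 * bb k ^ 2 with hN
  have hN0 : 0 < N := by positivity
  -- the constants of the two-variable sums
  have hex : ∀ i : Fin s, ∃ C : ℝ, 0 < C ∧ (i ∈ K → ∀ (j : ℕ) (α : ℝ) (c : ℤ) (q : ℕ), 0 < q →
      IsCoprime c (q : ℤ) → |α - (c : ℝ) / q| ≤ 1 / (q : ℝ) ^ 2 → 2 ^ j ≤ q ^ 10 →
      q ^ 10 * 2 ^ j ≤ 2 ^ (10 * (4 * k) * j) → ∀ θ : ℝ,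
      ‖∑ x ∈ C2x.T a b j i, e (α * ((A i i - ∑ m, P i m * Q i m : ℤ) : ℝ) *
        ((x.1 : ℝ) * x.2) ^ (2 * k) + θ * ((x.1 : ℝ) * x.2) ^ k)‖ ^ N * 2 ^ j ≤
        C * 2 ^ (160 * bb k ^ 2 * j)) := by
    intro i
    by_cases hi : i ∈ K
    · obtain ⟨C, hC, hC2⟩ := h1 k hk (A i i - ∑ m, P i m * Q i m) (sub_ne_zero.2 (hd i hi))
        (a (Sum.inl i)) (b (Sum.inl i)) (a (Sum.inr i)) (b (Sum.inr i)) (hab _) (hab _)
      refine ⟨C, hC, fun _ j α c q hq hc hα h3 h4 θ => ?_⟩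
      have h5 := hC2 j α c q hq hc hα h3 h4 θ
      rw [C2x.T, Finset.sum_product]
      exact h5
    · exact ⟨1, one_pos, fun h => absurd h hi⟩
  choose Cf hCf0 hCf using hex
  -- bounds for the coordinates
  set c0 : ℕ := ∑ l, ((a l).natAbs + (b l).natAbs) with hc0
  have ha0 : ∀ l, |a l| ≤ (c0 : ℤ) := by
    intro l
    have h3 : (a l).natAbs + (b l).natAbs ≤ c0 :=
      Finset.single_le_sum (f := fun l => (a l).natAbs + (b l).natAbs) (fun _ _ => Nat.zero_le _)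
        (Finset.mem_univ l)
    rw [Int.abs_eq_natAbs]
    exact_mod_cast (by omega)
  have hb1 : ∀ l, |b l| ≤ (c0 : ℤ) := by
    intro l
    have h3 : (a l).natAbs + (b l).natAbs ≤ c0 :=
      Finset.single_le_sum (f := fun l => (a l).natAbs + (b l).natAbs) (fun _ _ => Nat.zero_le _)
        (Finset.mem_univ l)
    rw [Int.abs_eq_natAbs]
    exact_mod_cast (by omega)
  set c2 : ℕ := ∑ i, ∑ m, ((P i m).natAbs + (Q i m).natAbs) with hc2
  set c1 : ℕ := c2 * c0 ^ (2 * k) with hc1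
  set CP : ℝ := ∏ i ∈ K, Cf i with hCP
  have hCP0 : 0 ≤ CP := Finset.prod_nonneg fun i _ => (hCf0 i).le
  obtain ⟨j0, hj0⟩ := pow_unbounded_of_one_lt
    (((4 * (c0 : ℝ) ^ 2) ^ (Kᶜ.card) * (2 * (c1 : ℝ) + 1) ^ r1 k) ^ N * CP)
    (one_lt_two (α := ℝ))
  refine ⟨j0, fun j hj α c q hq hc hα hq1 hq2 => ?_⟩
  set t : ℝ := 2 ^ j with ht
  have ht1 : 1 ≤ t := one_le_pow₀ one_le_two
  have ht0 : 0 < t := by linarith
  have htj : ((4 * (c0 : ℝ) ^ 2) ^ (Kᶜ.card) * (2 * (c1 : ℝ) + 1) ^ r1 k) ^ N * CP ≤ t :=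
    hj0.le.trans (pow_le_pow_right₀ one_le_two hj)
  -- the bound for the sum over one pair
  set Bd : Fin s → ℝ := fun i => (Cf i * (t ^ (2 * N) / t)) ^ ((N : ℝ)⁻¹) with hBd
  have hpos : ∀ i, 0 ≤ Cf i * (t ^ (2 * N) / t) := fun i =>
    mul_nonneg (hCf0 i).le (by positivity)
  have hBd0 : ∀ i, 0 ≤ Bd i := fun i => Real.rpow_nonneg (hpos i) _
  have hBdN : ∀ i, Bd i ^ N = Cf i * (t ^ (2 * N) / t) := fun i =>
    Real.rpow_inv_natCast_pow (hpos i) hN0.ne'
  have hone : ∀ i ∈ K, ∀ θ : ℝ, ‖∑ x ∈ C2x.T a b j i,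
      e (α * ((A i i - ∑ m, P i m * Q i m : ℤ) : ℝ) *
      ((x.1 : ℝ) * x.2) ^ (2 * k) + θ * ((x.1 : ℝ) * x.2) ^ k)‖ ≤ Bd i := by
    intro i hi θ
    have h3 := hCf i hi j α c q hq hc hα hq1 hq2 θ
    refine (pow_le_pow_iff_left₀ (norm_nonneg _) (hBd0 i) hN0.ne').1 ?_
    rw [hBdN]
    have h4 : (2 : ℝ) ^ (160 * bb k ^ 2 * j) = t ^ (2 * N) := by
      rw [ht, ← pow_mul, hN]
      congr 1
      ring
    rw [h4, ← ht] at h3
    rw [← mul_div_assoc, le_div_iff₀ ht0]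
    exact h3
  -- the bound for the forms
  have hX : ∀ y : Fin s → ℤ × ℤ, ∀ p ∈ Fintype.piFinset
      (fun i => if i ∈ K then C2x.T a b j i else {y i}), ∀ i ∈ K,
      |X k p i| ≤ ((c0 ^ (2 * k) * 2 ^ (2 * k * j) : ℕ) : ℤ) := by
    intro y p hp i hi
    rw [Fintype.mem_piFinset] at hp
    have h3 := hp i
    rw [if_pos hi, C2x.T, Finset.mem_product] at h3
    have h4 : |(p i).1| ≤ (c0 : ℤ) * 2 ^ j := coord (ha0 _) (hb1 _) (by positivity) h3.1
    have h5 : |(p i).2| ≤ (c0 : ℤ) * 2 ^ j := coord (ha0 _) (hb1 _) (by positivity) h3.2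
    have h6 : |(p i).1 * (p i).2| ≤ ((c0 : ℤ) * 2 ^ j) * ((c0 : ℤ) * 2 ^ j) := by
      rw [abs_mul]
      exact mul_le_mul h4 h5 (abs_nonneg _) (by positivity)
    unfold X
    rw [abs_pow]
    refine (pow_le_pow_left₀ (abs_nonneg _) h6 k).trans (le_of_eq ?_)
    push_cast
    ring
  have hform : ∀ (R : Fin s → Fin (r1 k) → ℤ),
      (∀ m, ∑ i ∈ K, |R i m| ≤ (c2 : ℤ)) → ∀ y : Fin s → ℤ × ℤ,
      ∀ p ∈ Fintype.piFinset (fun i => if i ∈ K then C2x.T a b j i else {y i}), ∀ m,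
      |∑ i ∈ K, R i m * X k p i| ≤ ((c1 * 2 ^ (2 * k * j) : ℕ) : ℤ) := by
    intro R hR y p hp m
    calc |∑ i ∈ K, R i m * X k p i| ≤ ∑ i ∈ K, |R i m * X k p i| := Finset.abs_sum_le_sum_abs _ _
      _ ≤ ∑ i ∈ K, |R i m| * ((c0 ^ (2 * k) * 2 ^ (2 * k * j) : ℕ) : ℤ) := by
          refine Finset.sum_le_sum fun i hi => ?_
          rw [abs_mul]
          exact mul_le_mul_of_nonneg_left (hX y p hp i hi) (abs_nonneg _)
      _ = (∑ i ∈ K, |R i m|) * ((c0 ^ (2 * k) * 2 ^ (2 * k * j) : ℕ) : ℤ) := by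
          rw [Finset.sum_mul]
      _ ≤ (c2 : ℤ) * ((c0 ^ (2 * k) * 2 ^ (2 * k * j) : ℕ) : ℤ) :=
          mul_le_mul_of_nonneg_right (hR m) (Int.natCast_nonneg _)
      _ = ((c1 * 2 ^ (2 * k * j) : ℕ) : ℤ) := by
          rw [hc1]; push_cast; ring
  have hPm : ∀ m, ∑ i ∈ K, |P i m| ≤ (c2 : ℤ) := by
    intro m
    rw [hc2]
    push_cast
    calc ∑ i ∈ K, |P i m| ≤ ∑ i, |P i m| :=
          Finset.sum_le_sum_of_subset_of_nonneg (Finset.subset_univ _) fun _ _ _ => abs_nonneg _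
      _ ≤ ∑ i, ∑ m, (|P i m| + |Q i m|) := by
          refine Finset.sum_le_sum fun i _ => ?_
          refine le_trans ?_ (Finset.single_le_sum (f := fun m => |P i m| + |Q i m|)
            (fun _ _ => by positivity) (Finset.mem_univ m))
          have := abs_nonneg (Q i m)
          linarith
  have hQm : ∀ m, ∑ i ∈ K, |Q i m| ≤ (c2 : ℤ) := by
    intro m
    rw [hc2]
    push_cast
    calc ∑ i ∈ K, |Q i m| ≤ ∑ i, |Q i m| :=
          Finset.sum_le_sum_of_subset_of_nonneg (Finset.subset_univ _) fun _ _ _ => abs_nonneg _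
      _ ≤ ∑ i, ∑ m, (|P i m| + |Q i m|) := by
          refine Finset.sum_le_sum fun i _ => ?_
          refine le_trans ?_ (Finset.single_le_sum (f := fun m => |P i m| + |Q i m|)
            (fun _ _ => by positivity) (Finset.mem_univ m))
          have := abs_nonneg (P i m)
          linarith
  -- the whole sum
  have hsum : ‖Sj (G2 A k) a b j α‖ ≤ ((4 * (c0 : ℝ) ^ 2) * t ^ 2) ^ Kᶜ.card *
      (((2 * (c1 : ℝ) + 1) * t ^ (2 * k)) ^ r1 k * ∏ i ∈ K, Bd i) := by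
    have h3 : Sj (G2 A k) a b j α = ∑ p ∈ Fintype.piFinset (C2x.T a b j),
        e (α * ((∑ i, ∑ l, A i l * X k p i * X k p l : ℤ) : ℝ)) := by
      rw [Sj, sum_box]
      refine Finset.sum_congr rfl fun p _ => ?_
      rw [eval_G2]
    rw [h3, sum_fib (C2x.T a b j)
      (fun i => (a (Sum.inl i) * 2 ^ j, a (Sum.inr i) * 2 ^ j)) K]
    refine (norm_sum_le _ _).trans ?_
    have h4 : ∀ y ∈ Fintype.piFinset (fun i => if i ∈ K then
        {((a (Sum.inl i) * 2 ^ j, a (Sum.inr i) * 2 ^ j) : ℤ × ℤ)} else C2x.T a b j i),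
        ‖∑ p ∈ Fintype.piFinset (fun i => if i ∈ K then C2x.T a b j i else {y i}),
          e (α * ((∑ i, ∑ l, A i l * X k p i * X k p l : ℤ) : ℝ))‖ ≤
        ((2 * (c1 : ℝ) + 1) * t ^ (2 * k)) ^ r1 k * ∏ i ∈ K, Bd i := by
      intro y _
      have h5 := inner h2 k A P Q K hA (C2x.T a b j) y α (c1 * 2 ^ (2 * k * j)) Bd hone
        (fun i _ => hBd0 i) (hform P hPm y) (hform Q hQm y)
      refine h5.trans ?_
      have h6 : (2 * ((c1 * 2 ^ (2 * k * j) : ℕ) : ℝ) + 1) ≤ (2 * (c1 : ℝ) + 1) * t ^ (2 * k) := by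
        have h7 : (1 : ℝ) ≤ t ^ (2 * k) := one_le_pow₀ ht1
        have h8 : ((c1 * 2 ^ (2 * k * j) : ℕ) : ℝ) = c1 * t ^ (2 * k) := by
          push_cast
          rw [ht, ← pow_mul]
          congr 2
          ring
        rw [h8]
        nlinarith [Nat.cast_nonneg (α := ℝ) c1]
      have h9 : 0 ≤ ∏ i ∈ K, Bd i := Finset.prod_nonneg fun i _ => hBd0 i
      gcongr
    refine (Finset.sum_le_card_nsmul _ _ _ h4).trans ?_
    rw [nsmul_eq_mul]
    have h9 : 0 ≤ ∏ i ∈ K, Bd i := Finset.prod_nonneg fun i _ => hBd0 i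
    refine mul_le_mul_of_nonneg_right ?_ (by positivity)
    rw [Fintype.card_piFinset]
    have h10 : ∀ i, ((if i ∈ K then
        {((a (Sum.inl i) * 2 ^ j, a (Sum.inr i) * 2 ^ j) : ℤ × ℤ)} else C2x.T a b j i).card : ℝ) ≤
        if i ∈ K then 1 else (4 * (c0 : ℝ) ^ 2) * t ^ 2 := by
      intro i
      by_cases hi : i ∈ K
      · rw [if_pos hi, if_pos hi, Finset.card_singleton]
        norm_num
      · rw [if_neg hi, if_neg hi, C2x.T, Finset.card_product, Int.card_Ico, Int.card_Ico]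
        have h11 : ∀ l : Fin s ⊕ Fin s, ((b l * 2 ^ j - a l * 2 ^ j).toNat : ℝ) ≤ 2 * c0 * t := by
          intro l
          have h12 : ((b l * 2 ^ j - a l * 2 ^ j).toNat : ℤ) ≤ 2 * c0 * 2 ^ j := by
            have h13 := abs_le.1 (ha0 l)
            have h14 := abs_le.1 (hb1 l)
            have h15 : (0 : ℤ) < 2 ^ j := by positivity
            have h16 := hab l
            rw [Int.toNat_of_nonneg (by nlinarith)]
            nlinarith
          have h17 : (((b l * 2 ^ j - a l * 2 ^ j).toNat : ℤ) : ℝ) ≤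
              ((2 * c0 * 2 ^ j : ℤ) : ℝ) := Int.cast_le.2 h12
          push_cast at h17
          exact h17
        push_cast
        have h18 := h11 (Sum.inl i)
        have h19 := h11 (Sum.inr i)
        calc ((b (Sum.inl i) * 2 ^ j - a (Sum.inl i) * 2 ^ j).toNat : ℝ) *
            ((b (Sum.inr i) * 2 ^ j - a (Sum.inr i) * 2 ^ j).toNat : ℝ)
            ≤ (2 * c0 * t) * (2 * c0 * t) := mul_le_mul h18 h19 (Nat.cast_nonneg _) (by positivity)
          _ = (4 * (c0 : ℝ) ^ 2) * t ^ 2 := by ring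
    push_cast
    refine (Finset.prod_le_prod (fun i _ => Nat.cast_nonneg _) fun i _ => h10 i).trans
      (le_of_eq ?_)
    rw [Finset.prod_ite, Finset.prod_const_one, one_mul, Finset.prod_const]
    congr 2
    ext i
    simp
  have hfin := final (4 * (c0 : ℝ) ^ 2) (2 * (c1 : ℝ) + 1) CP t ‖Sj (G2 A k) a b j α‖ s K.card
    Kᶜ.card k (r1 k) N (4 * k + 1) hN0 (by positivity) (by positivity) hCP0 ht1
    (by rw [Finset.card_add_card_compl, Fintype.card_fin]) ((numerics k hk).trans hK)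
    (norm_nonneg _) htj ?_
  · rw [Fintype.card_sum, Fintype.card_fin, mul_comm (4 * k + 1) j, mul_comm (s + s) j, pow_mul,
      pow_mul, ← ht]
    exact hfin
  · have h20 := pow_le_pow_left₀ (norm_nonneg _) hsum N
    refine h20.trans (le_of_eq ?_)
    have h21 : (∏ i ∈ K, Bd i) ^ N = CP * (t ^ (2 * N) / t) ^ K.card := by
      rw [← Finset.prod_pow, Finset.prod_congr rfl fun i _ => hBdN i, Finset.prod_mul_distrib,
        Finset.prod_const]
    rw [← h21]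
    ring

end Pool.Agent.helper132_hp
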