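import Pool.Agent.helper132_hp.Stmts

/-! Part CNT: solving the additive system modulo `p^γ` by characters, and Hensel. -/

namespace Pool.Agent.helper132_hp

namespace CNTx

open Finset

theorem chmap_sum {G J : Type} [AddCommGroup G] (ψ : AddChar G ℂ) (s : Finset J) (f : J → G) :
    ψ (∑ i ∈ s, f i) = ∏ i ∈ s, ψ (f i) := by
  classical
  induction s using Finset.induction_on with
  | empty => simp
  | insert a s ha ih => rw [Finset.sum_insert ha, Finset.prod_insert ha, AddChar.map_add_eq_mul, ih]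

theorem fourier {G I Y : Type} [AddCommGroup G] [Fintype G] [DecidableEq G] [Fintype I]
    [DecidableEq I] [Fintype Y] [Nonempty Y] (v : I → Y → G) (ρ : ℝ)
    (hψ : ∀ ψ : AddChar G ℂ, ψ ≠ 1 →
      ∏ i, ‖∑ y, ψ (v i y)‖ ≤ ρ * (Fintype.card Y : ℝ) ^ Fintype.card I)
    (hρ0 : 0 ≤ ρ) (hρ : (Fintype.card G : ℝ) * ρ < 1) (target : G) :
    ∃ y : I → Y, ∑ i, v i (y i) = target := by
  classical
  by_contra hno
  have hno : ∀ y : I → Y, ∑ i, v i (y i) ≠ target := fun y hy => hno ⟨y, hy⟩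
  have h1 : ∑ y : I → Y, ∑ ψ : AddChar G ℂ, ψ (∑ i, v i (y i) - target) = 0 := by
    apply Finset.sum_eq_zero
    intro y _
    rw [AddChar.sum_apply_eq_ite, if_neg (sub_ne_zero.mpr (hno y))]
  rw [Finset.sum_comm] at h1
  have h2 : ∀ ψ : AddChar G ℂ, ∑ y : I → Y, ψ (∑ i, v i (y i) - target)
      = ψ (-target) * ∏ i, ∑ y, ψ (v i y) := by
    intro ψ
    rw [Finset.prod_univ_sum, Fintype.piFinset_univ, Finset.mul_sum]
    apply Finset.sum_congr rfl
    intro y _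
    rw [sub_eq_add_neg, AddChar.map_add_eq_mul, chmap_sum, mul_comm]
  simp_rw [h2] at h1
  rw [← Finset.add_sum_erase _ _ (Finset.mem_univ (1 : AddChar G ℂ))] at h1
  have hYpos : (0 : ℝ) < (Fintype.card Y : ℝ) ^ Fintype.card I := by
    have : 0 < Fintype.card Y := Fintype.card_pos
    positivity
  have h3 : ((1 : AddChar G ℂ) (-target) * ∏ i : I, ∑ y, (1 : AddChar G ℂ) (v i y))
      = ((Fintype.card Y : ℝ) ^ Fintype.card I : ℝ) := by
    simp
  rw [h3] at h1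
  have h4 : ‖∑ ψ ∈ (Finset.univ : Finset (AddChar G ℂ)).erase 1,
      ψ (-target) * ∏ i, ∑ y, ψ (v i y)‖ ≤
      (Fintype.card G : ℝ) * (ρ * (Fintype.card Y : ℝ) ^ Fintype.card I) := by
    have h40 : ∀ ψ ∈ (Finset.univ : Finset (AddChar G ℂ)).erase 1,
        ‖ψ (-target) * ∏ i, ∑ y, ψ (v i y)‖ ≤
          ρ * (Fintype.card Y : ℝ) ^ Fintype.card I := by
      intro ψ hψm
      rw [norm_mul, AddChar.norm_apply, one_mul, norm_prod]
      exact hψ ψ (Finset.ne_of_mem_erase hψm)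
    calc _ ≤ ∑ ψ ∈ (Finset.univ : Finset (AddChar G ℂ)).erase 1,
          (ρ * (Fintype.card Y : ℝ) ^ Fintype.card I) := norm_sum_le_of_le _ h40
      _ = (((Finset.univ : Finset (AddChar G ℂ)).erase 1).card : ℝ) *
          (ρ * (Fintype.card Y : ℝ) ^ Fintype.card I) := by rw [Finset.sum_const, nsmul_eq_mul]
      _ ≤ _ := by
          apply mul_le_mul_of_nonneg_right _ (by positivity)
          have : ((Finset.univ : Finset (AddChar G ℂ)).erase 1).card ≤ Fintype.card G := by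
            calc _ ≤ (Finset.univ : Finset (AddChar G ℂ)).card := Finset.card_erase_le
              _ = Fintype.card (AddChar G ℂ) := rfl
              _ = _ := AddChar.card_eq
          exact_mod_cast this
  have h5 : ∑ ψ ∈ (Finset.univ : Finset (AddChar G ℂ)).erase 1,
      ψ (-target) * ∏ i, ∑ y, ψ (v i y) = -((Fintype.card Y : ℝ) ^ Fintype.card I : ℝ) := by
    linear_combination h1
  rw [h5, norm_neg, Complex.norm_real, Real.norm_of_nonneg hYpos.le] at h4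
  nlinarith

theorem blocks {G Y : Type} [AddCommGroup G] [Fintype G] [DecidableEq G] [Fintype Y] [Nonempty Y]
    (N R : ℕ) (v : Fin N × Fin R → Y → G) (σ : ℝ) (hσ0 : 0 ≤ σ)
    (hψ : ∀ ψ : AddChar G ℂ, ψ ≠ 1 → ∀ t, ∃ i, ‖∑ y, ψ (v (t, i) y)‖ ≤ σ * Fintype.card Y)
    (hρ : (Fintype.card G : ℝ) * σ ^ N < 1) (target : G) :
    ∃ y : Fin N × Fin R → Y, ∑ i, v i (y i) = target := by
  classical
  apply fourier v (σ ^ N) _ (by positivity) hρ target
  intro ψ hψ1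
  have hY : (0 : ℝ) ≤ Fintype.card Y := Nat.cast_nonneg _
  have htriv : ∀ i, ‖∑ y, ψ (v i y)‖ ≤ Fintype.card Y := by
    intro i
    calc ‖∑ y, ψ (v i y)‖ ≤ ∑ _y : Y, (1 : ℝ) := norm_sum_le_of_le _ (fun y _ => by
          rw [AddChar.norm_apply])
      _ = _ := by simp
  have h1 : ∀ t, ∏ i, ‖∑ y, ψ (v (t, i) y)‖ ≤ σ * (Fintype.card Y : ℝ) ^ R := by
    intro t
    obtain ⟨i, hi⟩ := hψ ψ hψ1 t
    rw [← Finset.mul_prod_erase _ _ (Finset.mem_univ i)]
    have hR : R = 1 + (R - 1) := by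
      have := i.2
      omega
    have h2 : ∏ x ∈ (Finset.univ : Finset (Fin R)).erase i, ‖∑ y, ψ (v (t, x) y)‖ ≤
        (Fintype.card Y : ℝ) ^ (R - 1) := by
      calc _ ≤ ∏ _x ∈ (Finset.univ : Finset (Fin R)).erase i, (Fintype.card Y : ℝ) :=
            Finset.prod_le_prod (fun _ _ => norm_nonneg _) (fun x _ => htriv _)
        _ = _ := by
            rw [Finset.prod_const, Finset.card_erase_of_mem (Finset.mem_univ _), Finset.card_univ,
              Fintype.card_fin]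
    calc _ ≤ (σ * Fintype.card Y) * (Fintype.card Y : ℝ) ^ (R - 1) :=
          mul_le_mul hi h2 (Finset.prod_nonneg fun _ _ => norm_nonneg _) (by positivity)
      _ = σ * (Fintype.card Y : ℝ) ^ (1 + (R - 1)) := by rw [pow_add, pow_one]; ring
      _ = _ := by rw [← hR]
  rw [Fintype.prod_prod_type]
  calc ∏ t, ∏ i, ‖∑ y, ψ (v (t, i) y)‖ ≤ ∏ _t : Fin N, σ * (Fintype.card Y : ℝ) ^ R :=
        Finset.prod_le_prod (fun _ _ => Finset.prod_nonneg fun _ _ => norm_nonneg _)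
          (fun t _ => h1 t)
    _ = _ := by
        rw [Finset.prod_const, Finset.card_univ, Fintype.card_fin, Fintype.card_prod,
          Fintype.card_fin, Fintype.card_fin, mul_pow, ← pow_mul, mul_comm R N]

/-- Hensel: `1 + p^γ x` is a `k`-th power. -/
theorem root {p : ℕ} [Fact p.Prime] (k γ : ℕ)
    (hγ : ‖((p : ℤ_[p]) ^ γ)‖ < ‖(k : ℤ_[p])‖ ^ 2) (x : ℤ_[p]) :
    ∃ η : ℤ_[p], η ^ k = 1 + (p : ℤ_[p]) ^ γ * x := by
  set F : Polynomial ℤ_[p] := Polynomial.X ^ k - Polynomial.C (1 + (p : ℤ_[p]) ^ γ * x) with hF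
  have h1 : F.aeval (1 : ℤ_[p]) = -((p : ℤ_[p]) ^ γ * x) := by
    simp [hF]
  have h2 : F.derivative.aeval (1 : ℤ_[p]) = k := by
    have h20 : F.derivative = Polynomial.C (k : ℤ_[p]) * Polynomial.X ^ (k - 1) := by
      rw [hF, Polynomial.derivative_sub, Polynomial.derivative_X_pow, Polynomial.derivative_C,
        sub_zero]
    rw [h20]
    simp
  have h3 : ‖F.aeval (1 : ℤ_[p])‖ < ‖F.derivative.aeval (1 : ℤ_[p])‖ ^ 2 := by
    rw [h1, h2, norm_neg, norm_mul]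
    calc ‖(p : ℤ_[p]) ^ γ‖ * ‖x‖ ≤ ‖(p : ℤ_[p]) ^ γ‖ * 1 := by
          gcongr
          exact PadicInt.norm_le_one x
      _ < _ := by rw [mul_one]; exact hγ
  obtain ⟨z, hz, _⟩ := hensels_lemma h3
  refine ⟨z, ?_⟩
  have h4 : F.aeval z = z ^ k - (1 + (p : ℤ_[p]) ^ γ * x) := by
    simp [hF]
  rw [h4] at hz
  exact sub_eq_zero.mp hz

theorem main {p : ℕ} [Fact p.Prime] (k R N γ q : ℕ) (hk : 1 ≤ k) (hR : 1 ≤ R) [NeZero q]
    {ι : Type} [Fintype ι] [DecidableEq ι] (c : Fin R → ι → ℤ_[p])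
    (T : Fin (N + 1) × Fin R → ι) (hT : Function.Injective T)
    (hu : ∀ t, IsUnit (Matrix.of fun m i => c m (T (t, i))).det)
    (hγ : ‖((p : ℤ_[p]) ^ γ)‖ < ‖(k : ℤ_[p])‖ ^ 2)
    (φ : ℤ_[p] →+* ZMod q) (hφ : ∀ x, φ x = 0 → (p : ℤ_[p]) ^ γ ∣ x)
    {Y : Type} [Fintype Y] [Nonempty Y] (yv : Y → ℤ_[p]) (σ : ℝ) (hσ0 : 0 ≤ σ)
    (hχ : ∀ χ : AddChar (ZMod q) ℂ, χ ≠ 1 → ‖∑ y, χ (φ (yv y) ^ k)‖ ≤ σ * Fintype.card Y)
    (hρ : (q : ℝ) ^ R * σ ^ N < 1) :
    ∃ y : ι → ℤ_[p], (∃ i, IsUnit (y i)) ∧ ∀ m, ∑ i, c m i * y i ^ k = 0 := by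
  classical
  set col : Fin (N + 1) × Fin R → Fin R → ZMod q := fun i m => φ (c m (T i)) with hcol
  -- spanning
  have hspan : ∀ (t : Fin (N + 1)) (ψ : AddChar (Fin R → ZMod q) ℂ), ψ ≠ 1 →
      ∃ i, ∃ x : ZMod q, ψ (fun m => col (t, i) m * x) ≠ 1 := by
    intro t ψ hψ
    by_contra hno
    have hno : ∀ i, ∀ x : ZMod q, ψ (fun m => col (t, i) m * x) = 1 := by
      intro i x
      by_contra h
      exact hno ⟨i, x, h⟩
    apply hψ
    ext gg
    set M : Matrix (Fin R) (Fin R) (ZMod q) := (Matrix.of fun m i => c m (T (t, i))).map φ with hM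
    have hMu : IsUnit M.det := by
      have := (hu t).map φ
      rwa [RingHom.map_det, RingHom.mapMatrix_apply] at this
    have h1 : M.mulVec (M⁻¹.mulVec gg) = gg := by
      rw [Matrix.mulVec_mulVec, Matrix.mul_nonsing_inv _ hMu, Matrix.one_mulVec]
    have h2 : gg = ∑ i, fun m => col (t, i) m * (M⁻¹.mulVec gg) i := by
      conv_lhs => rw [← h1]
      ext m
      simp [Matrix.mulVec, dotProduct, hM, hcol, Finset.sum_apply]
    rw [h2, chmap_sum]
    simp [hno]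
  obtain ⟨Yc, hYc⟩ := blocks (G := Fin R → ZMod q) N R
    (fun i (y : Y) m => col (i.1.succ, i.2) m * φ (yv y) ^ k) σ hσ0 (by
      intro ψ hψ t
      obtain ⟨i, x, hx⟩ := hspan t.succ ψ hψ
      refine ⟨i, ?_⟩
      let f : ZMod q →+ (Fin R → ZMod q) :=
        { toFun := fun x m => col (t.succ, i) m * x
          map_zero' := by ext m; simp
          map_add' := by intro a b; ext m; simp [mul_add] }
      have hne : ψ.compAddMonoidHom f ≠ 1 := by
        intro h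
        apply hx
        have : (ψ.compAddMonoidHom f) x = 1 := by rw [h]; rfl
        exact this
      exact hχ _ hne) (by
      rw [Fintype.card_fun, ZMod.card, Fintype.card_fin]
      exact_mod_cast hρ) (-(∑ l, col (0, l)))
  -- the error
  set E : Fin R → ℤ_[p] := fun m => ∑ l, c m (T (0, l)) +
    ∑ i : Fin N × Fin R, c m (T (i.1.succ, i.2)) * yv (Yc i) ^ k with hE
  have hE0 : ∀ m, φ (E m) = 0 := by
    intro m
    have := congrFun hYc m
    simp only [Finset.sum_apply, Pi.neg_apply] at this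
    simp only [hE, map_add, map_sum, map_mul, map_pow]
    simp only [hcol] at this
    rw [this]
    ring
  choose E' hE' using fun m => hφ _ (hE0 m)
  set C0 : Matrix (Fin R) (Fin R) ℤ_[p] := Matrix.of fun m i => c m (T (0, i)) with hC0
  set δ : Fin R → ℤ_[p] := C0⁻¹.mulVec (-E') with hδ
  have hC0u : IsUnit C0.det := hu 0
  have hδ1 : C0.mulVec δ = -E' := by
    rw [hδ, Matrix.mulVec_mulVec, Matrix.mul_nonsing_inv _ hC0u, Matrix.one_mulVec]
  choose η hη using fun l => root k γ hγ (δ l)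
  -- the solution
  let z : Fin (N + 1) × Fin R → ℤ_[p] := fun i =>
    Fin.cases (motive := fun _ => ℤ_[p]) (η i.2) (fun t => yv (Yc (t, i.2))) i.1
  let y : ι → ℤ_[p] := fun i => if h : ∃ j, T j = i then z h.choose else 0
  have hyT : ∀ j, y (T j) = z j := by
    intro j
    have h : ∃ j', T j' = T j := ⟨j, rfl⟩
    simp only [y]
    rw [dif_pos h]
    congr 1
    exact hT h.choose_spec
  have hy0 : ∀ i, (¬ ∃ j, T j = i) → y i = 0 := by
    intro i h
    simp only [y]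
    rw [dif_neg h]
  refine ⟨y, ⟨T (0, ⟨0, hR⟩), ?_⟩, ?_⟩
  · rw [hyT]
    have hz : z (0, ⟨0, hR⟩) = η ⟨0, hR⟩ := rfl
    rw [hz]
    have h1 := hη ⟨0, hR⟩
    have hγ1 : γ ≠ 0 := by
      rintro rfl
      have h2 : ‖(k : ℤ_[p])‖ ≤ 1 := PadicInt.norm_le_one _
      have h3 : ‖(k : ℤ_[p])‖ ^ 2 ≤ 1 := pow_le_one₀ (norm_nonneg _) h2
      simp at hγ
      nlinarith [norm_nonneg (k : ℤ_[p])]
    have hu1 : IsUnit (η ⟨0, hR⟩ ^ k) := by
      rw [h1]
      by_contra hnu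
      have h2 : (1 : ℤ_[p]) + (p : ℤ_[p]) ^ γ * δ ⟨0, hR⟩ ∈ nonunits ℤ_[p] := hnu
      have h3 : (p : ℤ_[p]) ^ γ * δ ⟨0, hR⟩ ∈ nonunits ℤ_[p] := by
        rw [PadicInt.mem_nonunits]
        rw [norm_mul, norm_pow]
        have h4 : ‖(p : ℤ_[p])‖ < 1 := by
          rw [PadicInt.norm_p]
          exact inv_lt_one_of_one_lt₀ (by exact_mod_cast (Fact.out : p.Prime).one_lt)
        have h5 : ‖(p : ℤ_[p])‖ ^ γ < 1 := pow_lt_one₀ (norm_nonneg _) h4 hγ1
        have h6 := PadicInt.norm_le_one (δ ⟨0, hR⟩)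
        nlinarith [norm_nonneg (δ ⟨0, hR⟩), norm_nonneg (p : ℤ_[p]),
          pow_nonneg (norm_nonneg (p : ℤ_[p])) γ]
      have h7 : (1 : ℤ_[p]) ∈ nonunits ℤ_[p] := by
        have := IsLocalRing.nonunits_add h2 (by
          rw [PadicInt.mem_nonunits] at h3 ⊢
          rwa [norm_neg] : -((p : ℤ_[p]) ^ γ * δ ⟨0, hR⟩) ∈ nonunits ℤ_[p])
        simp at this
      exact h7 isUnit_one
    exact (isUnit_pow_iff (by omega)).mp hu1
  · intro m
    have h1 : ∑ i, c m i * y i ^ k = ∑ j, c m (T j) * z j ^ k := by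
      have : ∑ j, c m (T j) * z j ^ k = ∑ i ∈ Finset.univ.map ⟨T, hT⟩, c m i * y i ^ k := by
        rw [Finset.sum_map]
        apply Finset.sum_congr rfl
        intro j _
        simp [hyT]
      rw [this]
      symm
      apply Finset.sum_subset (Finset.subset_univ _)
      intro i _ hi
      rw [hy0 i (by
        rintro ⟨j, rfl⟩
        apply hi
        simp), zero_pow (by omega), mul_zero]
    rw [h1, Fintype.sum_prod_type, Fin.sum_univ_succ]
    have h2 : ∀ l, z (0, l) = η l := fun l => rfl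
    have h3 : ∀ (t : Fin N) l, z (t.succ, l) = yv (Yc (t, l)) := fun t l => rfl
    simp only [h2, h3, hη]
    have h4 : ∑ l, c m (T (0, l)) * (1 + (p : ℤ_[p]) ^ γ * δ l) =
        ∑ l, c m (T (0, l)) + (p : ℤ_[p]) ^ γ * (C0.mulVec δ) m := by
      simp only [Matrix.mulVec, dotProduct, hC0, Matrix.of_apply, Finset.mul_sum]
      rw [← Finset.sum_add_distrib]
      apply Finset.sum_congr rfl
      intro l _
      ring
    rw [h4, hδ1]
    have h5 := hE' m
    simp only [hE, Fintype.sum_prod_type] at h5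
    simp only [Pi.neg_apply]
    linear_combination h5

theorem small {q : ℕ} [NeZero q] (hq : 2 ≤ q) (χ : AddChar (ZMod q) ℂ) (hχ : χ ≠ 1) :
    ‖1 + χ 1‖ ≤ (1 - 1 / (2 * (q : ℝ) ^ 2)) * 2 := by
  set z := χ 1 with hz
  have hz1 : ‖z‖ = 1 := AddChar.norm_apply _ _
  have hzne : z ≠ 1 := by
    intro h
    apply hχ
    ext x
    have : x = (ZMod.val x) • (1 : ZMod q) := by simp
    rw [this, AddChar.map_nsmul_eq_pow, ← hz, h, one_pow]
    simp
  have hzq : z ^ q = 1 := by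
    rw [hz, ← AddChar.map_nsmul_eq_pow]
    simp
  have hq0 : (0 : ℝ) < q := by
    have : 0 < q := by omega
    exact_mod_cast this
  set d := ‖1 - z‖ with hd
  have hd0 : 0 ≤ d := norm_nonneg _
  have hpow : ∀ j : ℕ, ‖1 - z ^ j‖ ≤ j * d := by
    intro j
    induction j with
    | zero => simp
    | succ j ih =>
      have : 1 - z ^ (j + 1) = (1 - z) + z * (1 - z ^ j) := by ring
      rw [this]
      calc ‖(1 - z) + z * (1 - z ^ j)‖ ≤ ‖1 - z‖ + ‖z * (1 - z ^ j)‖ := norm_add_le _ _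
        _ ≤ d + j * d := by rw [norm_mul, hz1, one_mul, ← hd]; gcongr
        _ = _ := by push_cast; ring
  have hgeom : ∑ j ∈ range q, z ^ j = 0 := by
    have := mul_geom_sum z q
    rw [hzq, sub_self] at this
    exact (mul_eq_zero.mp this).resolve_left (sub_ne_zero.mpr hzne)
  have hsum : ∀ n : ℕ, ∑ j ∈ range n, (j : ℝ) ≤ (n : ℝ) ^ 2 / 2 := by
    intro n
    induction n with
    | zero => simp
    | succ n ih =>
      rw [Finset.sum_range_succ]
      push_cast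
      nlinarith
  have h1 : (q : ℝ) ≤ (q : ℝ) ^ 2 / 2 * d := by
    have e1 : ∑ j ∈ range q, (1 - z ^ j) = (q : ℂ) := by
      rw [Finset.sum_sub_distrib, hgeom]
      simp
    have e2 : ‖∑ j ∈ range q, (1 - z ^ j)‖ = q := by rw [e1]; simp
    calc (q : ℝ) = ‖∑ j ∈ range q, (1 - z ^ j)‖ := e2.symm
      _ ≤ ∑ j ∈ range q, (j : ℝ) * d := norm_sum_le_of_le _ (fun j _ => hpow j)
      _ = (∑ j ∈ range q, (j : ℝ)) * d := by rw [Finset.sum_mul]
      _ ≤ _ := by gcongr; exact hsum q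
  have h2 : 2 / (q : ℝ) ≤ d := by
    rw [div_le_iff₀ hq0]
    have : (q : ℝ) * 1 ≤ q * (q / 2 * d) := by nlinarith
    have := le_of_mul_le_mul_left this hq0
    linarith
  have h3 : 4 / (q : ℝ) ^ 2 ≤ d ^ 2 := by
    calc 4 / (q : ℝ) ^ 2 = (2 / q) ^ 2 := by ring
      _ ≤ d ^ 2 := by gcongr
  have h4 := parallelogram_law_with_norm ℝ (1 : ℂ) z
  rw [hz1, ← hd, norm_one] at h4
  set x : ℝ := 1 / (q : ℝ) ^ 2 with hx
  have hx0 : 0 < x := by positivity
  have hx1 : x ≤ 1 / 4 := by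
    rw [hx]
    have : (2 : ℝ) ≤ q := by exact_mod_cast hq
    apply one_div_le_one_div_of_le (by norm_num)
    nlinarith
  have h5 : 4 / (q : ℝ) ^ 2 = 4 * x := by rw [hx]; ring
  have h6 : (1 - 1 / (2 * (q : ℝ) ^ 2)) * 2 = 2 - x := by rw [hx]; field_simp
  rw [h6]
  rw [h5] at h3
  by_contra hcon
  have hcon := not_le.mp hcon
  have hm : 0 < (‖1 + z‖ - (2 - x)) * (‖1 + z‖ + (2 - x)) := by
    apply mul_pos
    · linarith
    · linarith [norm_nonneg (1 + z)]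
  nlinarith

theorem rootcount {p : ℕ} [Fact p.Prime] (k : ℕ) (hk : 1 ≤ k) (a : ZMod p) :
    (Finset.univ.filter fun y : ZMod p => y ^ k = a).card ≤ k := by
  classical
  calc (Finset.univ.filter fun y : ZMod p => y ^ k = a).card
      ≤ (Polynomial.nthRoots k a).toFinset.card := by
        apply Finset.card_le_card
        intro y hy
        rw [Finset.mem_filter] at hy
        rw [Multiset.mem_toFinset, Polynomial.mem_nthRoots (by omega)]
        exact hy.2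
    _ ≤ Multiset.card (Polynomial.nthRoots k a) := Multiset.toFinset_card_le _
    _ ≤ k := Polynomial.card_nthRoots k a

theorem large {p : ℕ} [Fact p.Prime] (k : ℕ) (hk : 1 ≤ k) (χ : AddChar (ZMod p) ℂ) (hχ : χ ≠ 1) :
    ((p : ℝ) - 1) * ‖∑ y : ZMod p, χ (y ^ k)‖ ^ 2 ≤ (k : ℝ) ^ 2 * (p : ℝ) ^ 2 := by
  classical
  have hprim : χ.IsPrimitive := AddChar.IsPrimitive.of_ne_one hχ
  set F : ZMod p → ℂ := fun u => ∑ y : ZMod p, χ (u * y ^ k) with hF
  -- second moment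
  have h1 : ((∑ u, ‖F u‖ ^ 2 : ℝ) : ℂ) =
      ∑ y : ZMod p, ∑ y' : ZMod p, if y ^ k = y' ^ k then (p : ℂ) else 0 := by
    push_cast
    have : ∀ u, ((‖F u‖ : ℂ)) ^ 2 = ∑ y : ZMod p, ∑ y' : ZMod p, χ (u * (y ^ k - y' ^ k)) := by
      intro u
      rw [← Complex.mul_conj', hF]
      simp only [map_sum]
      rw [Finset.sum_mul_sum]
      apply Finset.sum_congr rfl; intro y _
      apply Finset.sum_congr rfl; intro y' _
      rw [← AddChar.map_neg_eq_conj, ← AddChar.map_add_eq_mul]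
      congr 1; ring
    simp_rw [this]
    rw [Finset.sum_comm]
    apply Finset.sum_congr rfl; intro y _
    rw [Finset.sum_comm]
    apply Finset.sum_congr rfl; intro y' _
    rw [AddChar.sum_mulShift _ hprim]
    simp [sub_eq_zero]
  have h2 : ∑ u, ‖F u‖ ^ 2 ≤ (k : ℝ) * (p : ℝ) ^ 2 := by
    have h3 : (∑ u, ‖F u‖ ^ 2 : ℝ) =
        ∑ y : ZMod p, ∑ y' : ZMod p, if y ^ k = y' ^ k then (p : ℝ) else 0 := by
      have : ((∑ u, ‖F u‖ ^ 2 : ℝ) : ℂ) =
        ((∑ y : ZMod p, ∑ y' : ZMod p, if y ^ k = y' ^ k then (p : ℝ) else 0 : ℝ) : ℂ) := by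
        rw [h1]
        push_cast
        apply Finset.sum_congr rfl; intro y _
        apply Finset.sum_congr rfl; intro y' _
        split_ifs <;> simp
      exact_mod_cast this
    rw [h3, Finset.sum_comm]
    calc ∑ y' : ZMod p, ∑ y : ZMod p, (if y ^ k = y' ^ k then (p : ℝ) else 0)
        ≤ ∑ _y' : ZMod p, (k : ℝ) * p := by
          apply Finset.sum_le_sum
          intro y' _
          rw [← Finset.sum_filter, Finset.sum_const, nsmul_eq_mul]
          have := rootcount k hk (y' ^ k)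
          gcongr
      _ = (k : ℝ) * (p : ℝ) ^ 2 := by
          rw [Finset.sum_const, Finset.card_univ, ZMod.card, nsmul_eq_mul]; ring
  -- orbit
  have h4 : ∀ s : ZMod p, s ≠ 0 → F (s ^ k) = F 1 := by
    intro s hs
    simp only [hF, one_mul]
    rw [← Equiv.sum_comp (Equiv.mulLeft₀ s hs) (fun y => χ (y ^ k))]
    apply Finset.sum_congr rfl; intro y _
    simp [mul_pow]
  have h5 : ∑ s : ZMod p, ‖F (s ^ k)‖ ^ 2 ≤ (k : ℝ) * ∑ u, ‖F u‖ ^ 2 := by
    rw [← Finset.sum_fiberwise (s := Finset.univ) (g := fun s : ZMod p => s ^ k), Finset.mul_sum]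
    apply Finset.sum_le_sum
    intro u _
    calc ∑ s ∈ Finset.univ.filter (fun s : ZMod p => s ^ k = u), ‖F (s ^ k)‖ ^ 2
        = ∑ s ∈ Finset.univ.filter (fun s : ZMod p => s ^ k = u), ‖F u‖ ^ 2 := by
          apply Finset.sum_congr rfl
          intro s hs
          rw [(Finset.mem_filter.mp hs).2]
      _ = ((Finset.univ.filter (fun s : ZMod p => s ^ k = u)).card : ℝ) * ‖F u‖ ^ 2 := by
          rw [Finset.sum_const, nsmul_eq_mul]
      _ ≤ _ := by
          have := rootcount k hk u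
          gcongr
  have h6 : ((p : ℝ) - 1) * ‖F 1‖ ^ 2 ≤ ∑ s : ZMod p, ‖F (s ^ k)‖ ^ 2 := by
    calc ((p : ℝ) - 1) * ‖F 1‖ ^ 2
        = ∑ s ∈ (Finset.univ : Finset (ZMod p)).erase 0, ‖F (s ^ k)‖ ^ 2 := by
          rw [Finset.sum_congr rfl (g := fun _ => ‖F 1‖ ^ 2) (fun s hs => by
            rw [h4 s (Finset.ne_of_mem_erase hs)]), Finset.sum_const, nsmul_eq_mul,
            Finset.card_erase_of_mem (Finset.mem_univ _), Finset.card_univ, ZMod.card,
            Nat.cast_sub (Fact.out : p.Prime).one_lt.le]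
          norm_num
      _ ≤ _ := Finset.sum_le_sum_of_subset_of_nonneg (Finset.erase_subset _ _)
          (fun _ _ _ => by positivity)
  have h7 : F 1 = ∑ y : ZMod p, χ (y ^ k) := by simp [hF]
  rw [← h7]
  calc _ ≤ _ := h6
    _ ≤ _ := h5
    _ ≤ (k : ℝ) * ((k : ℝ) * (p : ℝ) ^ 2) := by gcongr
    _ = _ := by ring

theorem numA (k R N q : ℕ) (hk : 1 ≤ k) (hR : 1 ≤ R) (hq2 : 2 ≤ q) (hq : q ≤ 16 * k ^ 4)
    (hN : N + 1 = 5000 * R * k ^ 12) :
    (q : ℝ) ^ R * (1 - 1 / (2 * (q : ℝ) ^ 2)) ^ N < 1 := by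
  have hq0 : (0 : ℝ) < q := by
    have : 0 < q := by omega
    exact_mod_cast this
  have hkR : (1 : ℝ) ≤ k := by exact_mod_cast hk
  have hRR : (1 : ℝ) ≤ R := by exact_mod_cast hR
  have hqR : (q : ℝ) ≤ 16 * (k : ℝ) ^ 4 := by exact_mod_cast hq
  have hlog : Real.log q ≤ 6 * k := by
    have h1 : q ≤ 2 ^ (4 * k + 4) := by
      calc q ≤ 16 * k ^ 4 := hq
        _ ≤ 16 * (2 ^ k) ^ 4 := by
            have := (Nat.lt_two_pow_self (n := k)).le
            gcongr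
        _ = 2 ^ (4 * k + 4) := by rw [← pow_mul, pow_add]; ring
    have h2 : (q : ℝ) ≤ (2 : ℝ) ^ (4 * k + 4) := by exact_mod_cast h1
    have h3 := Real.log_le_log hq0 h2
    rw [Real.log_pow] at h3
    have h4 := Real.log_two_lt_d9
    push_cast at h3
    nlinarith
  have hN' : (4999 : ℝ) * R * (k : ℝ) ^ 12 ≤ N := by
    have h1 : (N : ℝ) + 1 = 5000 * R * (k : ℝ) ^ 12 := by exact_mod_cast hN
    have h2 : (1 : ℝ) ≤ R * (k : ℝ) ^ 12 := one_le_mul_of_one_le_of_one_le hRR (one_le_pow₀ hkR)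
    linarith
  have hx0 : 0 ≤ 1 - 1 / (2 * (q : ℝ) ^ 2) := by
    have h2 : (2 : ℝ) ≤ q := by exact_mod_cast hq2
    have h1 : 1 / (2 * (q : ℝ) ^ 2) ≤ 1 := by
      rw [div_le_one (by positivity)]
      nlinarith
    linarith
  have h1 : (1 - 1 / (2 * (q : ℝ) ^ 2)) ^ N ≤ Real.exp (-(N / (2 * (q : ℝ) ^ 2))) := by
    calc (1 - 1 / (2 * (q : ℝ) ^ 2)) ^ N ≤ (Real.exp (-(1 / (2 * (q : ℝ) ^ 2)))) ^ N := by
          gcongr
          exact Real.one_sub_le_exp_neg _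
      _ = _ := by rw [← Real.exp_nat_mul]; congr 1; ring
  have h2 : (q : ℝ) ^ R = Real.exp (R * Real.log q) := by
    rw [Real.exp_nat_mul, Real.exp_log hq0]
  calc (q : ℝ) ^ R * (1 - 1 / (2 * (q : ℝ) ^ 2)) ^ N
      ≤ Real.exp (R * Real.log q) * Real.exp (-(N / (2 * (q : ℝ) ^ 2))) := by
        rw [h2]; gcongr
    _ = Real.exp (R * Real.log q - N / (2 * (q : ℝ) ^ 2)) := by rw [← Real.exp_add]; congr 1
    _ < 1 := by
        rw [Real.exp_lt_one_iff]
        have h3 : (9 : ℝ) * R * (k : ℝ) ^ 4 ≤ N / (2 * (q : ℝ) ^ 2) := by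
          rw [le_div_iff₀ (by positivity)]
          have h4 : (q : ℝ) ^ 2 ≤ 256 * (k : ℝ) ^ 8 := by
            calc (q : ℝ) ^ 2 ≤ (16 * (k : ℝ) ^ 4) ^ 2 := by gcongr
              _ = _ := by ring
          calc 9 * (R : ℝ) * (k : ℝ) ^ 4 * (2 * (q : ℝ) ^ 2)
              ≤ 9 * (R : ℝ) * (k : ℝ) ^ 4 * (2 * (256 * (k : ℝ) ^ 8)) := by gcongr
            _ = 4608 * (R * (k : ℝ) ^ 12) := by ring
            _ ≤ 4999 * (R * (k : ℝ) ^ 12) := by
                have : (0 : ℝ) ≤ R * (k : ℝ) ^ 12 := by positivity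
                linarith
            _ ≤ N := by linarith
        have h5 : (R : ℝ) * Real.log q ≤ R * (6 * k) := by gcongr
        have h6 : (k : ℝ) ≤ (k : ℝ) ^ 4 := by
          calc (k : ℝ) = (k : ℝ) ^ 1 := (pow_one _).symm
            _ ≤ _ := pow_le_pow_right₀ hkR (by norm_num)
        have h7 : (R : ℝ) * (k : ℝ) ≤ R * (k : ℝ) ^ 4 := by gcongr
        have h8 : (1 : ℝ) ≤ R * k := one_le_mul_of_one_le_of_one_le hRR hkR
        nlinarith

theorem numB (k R N p : ℕ) (hk : 1 ≤ k) (hR : 1 ≤ R) (hp : 16 * k ^ 4 < p)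
    (hN : N + 1 = 5000 * R * k ^ 12) (σ : ℝ) (hσ0 : 0 ≤ σ) (hσ : σ ^ 2 * ((p : ℝ) - 1) = (k : ℝ) ^ 2) :
    (p : ℝ) ^ R * σ ^ N < 1 := by
  have hkR : (1 : ℝ) ≤ k := by exact_mod_cast hk
  have hpR : 16 * (k : ℝ) ^ 4 < p := by exact_mod_cast hp
  have hk4 : (1 : ℝ) ≤ (k : ℝ) ^ 4 := one_le_pow₀ hkR
  have hp16 : (16 : ℝ) < p := by linarith
  have hp0 : (0 : ℝ) < p := by linarith
  have h1 : σ ^ 4 * p ≤ 1 := by
    have h2 : σ ^ 4 * ((p : ℝ) - 1) ^ 2 = (k : ℝ) ^ 4 := by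
      calc σ ^ 4 * ((p : ℝ) - 1) ^ 2 = (σ ^ 2 * ((p : ℝ) - 1)) ^ 2 := by ring
        _ = _ := by rw [hσ]; ring
    have h3 : (k : ℝ) ^ 4 * p ≤ ((p : ℝ) - 1) ^ 2 := by nlinarith
    have h4 : 0 < ((p : ℝ) - 1) ^ 2 := by
      have : 0 < (p : ℝ) - 1 := by linarith
      positivity
    have h5 : σ ^ 4 * p * ((p : ℝ) - 1) ^ 2 ≤ 1 * ((p : ℝ) - 1) ^ 2 := by
      calc σ ^ 4 * p * ((p : ℝ) - 1) ^ 2 = (σ ^ 4 * ((p : ℝ) - 1) ^ 2) * p := by ring
        _ = (k : ℝ) ^ 4 * p := by rw [h2]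
        _ ≤ _ := by linarith
    exact le_of_mul_le_mul_right h5 h4
  have hσ4 : σ ^ 4 ≤ 1 / p := by
    rw [le_div_iff₀ hp0]; exact h1
  have hσ1 : σ ≤ 1 := by
    by_contra hcon
    have hcon := not_le.mp hcon
    have : 1 < σ ^ 4 := one_lt_pow₀ hcon (by norm_num)
    have : σ ^ 4 * 16 ≤ σ ^ 4 * p := by gcongr
    linarith
  have hN' : 4 * (R + 1) ≤ N := by
    have : 1 ≤ k ^ 12 := Nat.one_le_pow _ _ hk
    have : 5000 * R * 1 ≤ 5000 * R * k ^ 12 := by gcongr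
    omega
  calc (p : ℝ) ^ R * σ ^ N ≤ (p : ℝ) ^ R * σ ^ (4 * (R + 1)) := by
        gcongr ?_ * ?_
        exact pow_le_pow_of_le_one hσ0 hσ1 hN'
    _ = (p : ℝ) ^ R * (σ ^ 4) ^ (R + 1) := by rw [pow_mul]
    _ ≤ (p : ℝ) ^ R * (1 / p) ^ (R + 1) := by gcongr
    _ = 1 / p := by
        rw [pow_succ, ← mul_assoc, ← mul_pow, mul_one_div_cancel hp0.ne', one_pow, one_mul]
    _ < 1 := by
        rw [div_lt_one hp0]; linarith

end CNTx

open CNTx in
theorem t_CNT : S_CNT := by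
  intro p _ k R hk hR ι _ _ c T hT hu
  have hp : p.Prime := Fact.out
  have hnb : nb R k = 5000 * R * k ^ 12 := rfl
  generalize nb R k = n at T hT hu hnb
  obtain ⟨N, rfl⟩ : ∃ N, n = N + 1 := by
    refine ⟨n - 1, ?_⟩
    have : 1 ≤ k ^ 12 := Nat.one_le_pow _ _ hk
    have : 5000 * R * 1 ≤ 5000 * R * k ^ 12 := by gcongr
    omega
  -- the valuation
  obtain ⟨v, k', hk', hkk⟩ := Nat.exists_eq_pow_mul_and_not_dvd (n := k) (by omega) p hp.ne_one
  have hnorm' : ‖(k' : ℤ_[p])‖ = 1 := by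
    rcases lt_or_eq_of_le (PadicInt.norm_le_one (k' : ℤ_[p])) with h | h
    · exfalso
      have h1 : (p : ℤ) ∣ (k' : ℤ) := (PadicInt.norm_int_lt_one_iff_dvd (p := p) (k' : ℤ)).mp
        (by rw [Int.cast_natCast]; exact h)
      exact hk' (by exact_mod_cast h1)
    · exact h
  have hnormk : ‖(k : ℤ_[p])‖ = ‖(p : ℤ_[p])‖ ^ v := by
    have : (k : ℤ_[p]) = (p : ℤ_[p]) ^ v * (k' : ℤ_[p]) := by
      rw [hkk]; push_cast; ring
    rw [this, norm_mul, norm_pow, hnorm', mul_one]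
  have hp1 : ‖(p : ℤ_[p])‖ < 1 := by
    rw [PadicInt.norm_p]
    exact inv_lt_one_of_one_lt₀ (by exact_mod_cast hp.one_lt)
  have hp0 : 0 < ‖(p : ℤ_[p])‖ := by
    rw [PadicInt.norm_p]
    have : (0 : ℝ) < p := by exact_mod_cast hp.pos
    positivity
  have hγ : ‖((p : ℤ_[p]) ^ (2 * v + 1))‖ < ‖(k : ℤ_[p])‖ ^ 2 := by
    rw [hnormk, norm_pow, ← pow_mul, pow_succ, mul_comm v 2]
    calc ‖(p : ℤ_[p])‖ ^ (2 * v) * ‖(p : ℤ_[p])‖ < ‖(p : ℤ_[p])‖ ^ (2 * v) * 1 := by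
          gcongr
      _ = _ := mul_one _
  by_cases hA : p ^ (2 * v + 1) ≤ 16 * k ^ 4
  · have : NeZero (p ^ (2 * v + 1)) := ⟨pow_ne_zero _ hp.ne_zero⟩
    have hq2 : 2 ≤ p ^ (2 * v + 1) := by
      calc 2 ≤ p := hp.two_le
        _ = p ^ 1 := (pow_one _).symm
        _ ≤ _ := Nat.pow_le_pow_right hp.pos (by omega)
    refine main k R N (2 * v + 1) (p ^ (2 * v + 1)) hk hR c T hT hu hγ
      (PadicInt.toZModPow (2 * v + 1)) ?_ (Y := Fin 2) (fun i => ((i : ℕ) : ℤ_[p]))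
      (1 - 1 / (2 * ((p ^ (2 * v + 1) : ℕ) : ℝ) ^ 2)) ?_ ?_ ?_
    · intro x hx
      have : x ∈ RingHom.ker (PadicInt.toZModPow (2 * v + 1) : ℤ_[p] →+* ZMod (p ^ (2 * v + 1))) :=
        hx
      rw [PadicInt.ker_toZModPow, Ideal.mem_span_singleton] at this
      exact this
    · have h2 : (2 : ℝ) ≤ ((p ^ (2 * v + 1) : ℕ) : ℝ) := by exact_mod_cast hq2
      have h1 : 1 / (2 * ((p ^ (2 * v + 1) : ℕ) : ℝ) ^ 2) ≤ 1 := by
        rw [div_le_one (by positivity)]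
        nlinarith
      linarith
    · intro χ hχ
      have := small hq2 χ hχ
      rw [Fin.sum_univ_two]
      have e0 : χ (PadicInt.toZModPow (2 * v + 1) (((0 : Fin 2) : ℕ) : ℤ_[p]) ^ k) = 1 := by
        simp [zero_pow (show k ≠ 0 by omega)]
      have e1 : χ (PadicInt.toZModPow (2 * v + 1) (((1 : Fin 2) : ℕ) : ℤ_[p]) ^ k) = χ 1 := by
        simp
      rw [e0, e1]
      simpa using this
    · exact numA k R N _ hk hR hq2 hA hnb
  · have hv : v = 0 := by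
      by_contra hv
      apply hA
      have h1 : p ^ v ≤ k := Nat.le_of_dvd (by omega) ⟨k', hkk⟩
      have h2 : p ≤ k := by
        calc p = p ^ 1 := (pow_one _).symm
          _ ≤ p ^ v := Nat.pow_le_pow_right hp.pos (by omega)
          _ ≤ k := h1
      calc p ^ (2 * v + 1) = (p ^ v) ^ 2 * p := by rw [pow_succ, ← pow_mul, mul_comm v 2]
        _ ≤ k ^ 2 * k := by gcongr
        _ = 1 * k ^ 3 := by ring
        _ ≤ 16 * k ^ 4 := by
            apply Nat.mul_le_mul (by norm_num)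
            exact Nat.pow_le_pow_right (by omega) (by norm_num)
    subst hv
    have hB : 16 * k ^ 4 < p := by simpa using hA
    have hBR : 16 * (k : ℝ) ^ 4 < p := by exact_mod_cast hB
    have hkR : (1 : ℝ) ≤ k := by exact_mod_cast hk
    have hk4 : (1 : ℝ) ≤ (k : ℝ) ^ 4 := one_le_pow₀ hkR
    have hp1' : (0 : ℝ) < (p : ℝ) - 1 := by linarith
    set σ : ℝ := k / Real.sqrt ((p : ℝ) - 1) with hσ
    have hsq : Real.sqrt ((p : ℝ) - 1) ^ 2 = (p : ℝ) - 1 := Real.sq_sqrt hp1'.le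
    have hs0 : 0 < Real.sqrt ((p : ℝ) - 1) := Real.sqrt_pos.mpr hp1'
    have hσ0 : 0 ≤ σ := by positivity
    have hσ2 : σ ^ 2 * ((p : ℝ) - 1) = (k : ℝ) ^ 2 := by
      rw [hσ, div_pow, hsq]
      field_simp
    refine main k R N 1 p hk hR c T hT hu (by simpa using hγ)
      PadicInt.toZMod ?_ (Y := ZMod p) (fun y => ((ZMod.val y : ℕ) : ℤ_[p])) σ hσ0 ?_ ?_
    · intro x hx
      have : x ∈ RingHom.ker (PadicInt.toZMod : ℤ_[p] →+* ZMod p) := hx
      rw [PadicInt.ker_toZMod, PadicInt.maximalIdeal_eq_span_p, Ideal.mem_span_singleton] at this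
      simpa using this
    · intro χ hχ
      have h1 := large k hk χ hχ
      have e1 : ∀ y : ZMod p, PadicInt.toZMod (((ZMod.val y : ℕ) : ℤ_[p])) = y := by
        intro y
        rw [map_natCast]
        simp
      simp_rw [e1]
      rw [ZMod.card]
      have hpR : (0 : ℝ) < p := by linarith
      have h2 : ((p : ℝ) - 1) * (σ * p) ^ 2 = (k : ℝ) ^ 2 * (p : ℝ) ^ 2 := by
        rw [← hσ2]; ring
      rw [← h2] at h1
      have h3 := le_of_mul_le_mul_left h1 hp1'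
      exact (pow_le_pow_iff_left₀ (norm_nonneg _) (by positivity) (by norm_num)).mp h3
    · exact numB k R N p hk hR hB hnb σ hσ0 hσ2

end Pool.Agent.helper132_hp
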