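import Pool.Agent.helper132_hp.Stmts

/-! Decay of complete sums and the major arc bound. -/

namespace Pool.Agent.helper132_hp

open Finset

namespace DECx

variable {ι : Type} [Fintype ι] [DecidableEq ι]

lemma norm_e (x : ℝ) : ‖e x‖ = 1 := by
  unfold e
  exact Complex.norm_exp_ofReal_mul_I _

lemma e_zero : e 0 = 1 := by
  simp [e]

/-- the volume of the box. -/
noncomputable def vol (a b : ι → ℤ) : ℝ := ∏ l, ((b l : ℝ) - a l)

omit [DecidableEq ι] in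
lemma one_le_vol (a b : ι → ℤ) (hab : ∀ l, a l < b l) : 1 ≤ vol a b := by
  unfold vol
  have h : ∀ l ∈ (Finset.univ : Finset ι), (1 : ℝ) ≤ (b l : ℝ) - a l := by
    intro l _
    have : a l + 1 ≤ b l := hab l
    have h2 : (a l : ℝ) + 1 ≤ b l := by exact_mod_cast this
    linarith
  calc (1 : ℝ) = ∏ l : ι, (1 : ℝ) := by simp
    _ ≤ _ := Finset.prod_le_prod (fun _ _ => zero_le_one) h

lemma card_box (a b : ι → ℤ) (hab : ∀ l, a l < b l) (j : ℕ) :
    ((box a b j).card : ℝ) = vol a b * 2 ^ (Fintype.card ι * j) := by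
  unfold box vol
  rw [Fintype.card_piFinset]
  push_cast
  have h : ∀ l : ι, ((Finset.Ico (a l * 2 ^ j) (b l * 2 ^ j)).card : ℝ) =
      ((b l : ℝ) - a l) * 2 ^ j := by
    intro l
    rw [Int.card_Ico]
    have h1 : 0 ≤ b l * 2 ^ j - a l * 2 ^ j := by
      have h3 : a l * 2 ^ j ≤ b l * 2 ^ j :=
        mul_le_mul_of_nonneg_right (hab l).le (by positivity)
      linarith
    have h2 : (((b l * 2 ^ j - a l * 2 ^ j).toNat : ℤ) : ℝ) =
        ((b l * 2 ^ j - a l * 2 ^ j : ℤ) : ℝ) := by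
      rw [Int.toNat_of_nonneg h1]
    have h4 : (((b l * 2 ^ j - a l * 2 ^ j).toNat : ℕ) : ℝ) =
        (((b l * 2 ^ j - a l * 2 ^ j).toNat : ℤ) : ℝ) := by
      exact (Int.cast_natCast _).symm
    rw [h4, h2]
    push_cast
    ring
  rw [Finset.prod_congr rfl (fun l _ => h l), Finset.prod_mul_distrib, Finset.prod_const,
    Finset.card_univ, ← pow_mul, mul_comm j]

lemma norm_Sj_le (G : MvPolynomial ι ℤ) (a b : ι → ℤ) (hab : ∀ l, a l < b l) (j : ℕ) (α : ℝ) :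
    ‖Sj G a b j α‖ ≤ vol a b * 2 ^ (Fintype.card ι * j) := by
  rw [← card_box a b hab j]
  unfold Sj
  refine (norm_sum_le _ _).trans ?_
  simp [norm_e]

lemma Sj_zero (G : MvPolynomial ι ℤ) (a b : ι → ℤ) (hab : ∀ l, a l < b l) (j : ℕ) :
    ‖Sj G a b j 0‖ = vol a b * 2 ^ (Fintype.card ι * j) := by
  rw [← card_box a b hab j]
  unfold Sj
  simp [e_zero]

lemma norm_Cq_le (G : MvPolynomial ι ℤ) (q : ℕ) (c : ℤ) :
    ‖Cq G q c‖ ≤ (q : ℝ) ^ Fintype.card ι := by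
  unfold Cq
  refine (norm_sum_le _ _).trans ?_
  simp only [norm_e, Finset.sum_const, nsmul_eq_mul, mul_one]
  unfold res
  rw [Fintype.card_piFinset]
  simp

/-- first part. -/
lemma cdec (h1 : S_RL) (G : MvPolynomial ι ℤ) (D : ℕ) (hD : 2 ≤ D) (hG : G.IsHomogeneous D)
    (a b : ι → ℤ) (hab : ∀ l, a l < b l) (hcr : Crude G D a b) : CDec G := by
  obtain ⟨j0, hj0⟩ := hcr
  obtain ⟨C0, hC0⟩ := h1 ι G D (by omega) hG a b hab
  set C : ℝ := max C0 0 with hC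
  have hCnn : 0 ≤ C := le_max_right _ _
  have hCle : C0 ≤ C := le_max_left _ _
  set J : ℕ := max j0 1 with hJ
  refine ⟨2 ^ J + (2 + 2 * C), ?_⟩
  intro q c hq hcop
  have hq1 : (1 : ℝ) ≤ q := by exact_mod_cast hq
  have hqn : (0 : ℝ) ≤ (q : ℝ) ^ Fintype.card ι := by positivity
  by_cases hcase : q ^ 10 < 2 ^ J
  · have hq9 : (q : ℝ) ^ 9 ≤ 2 ^ J := by
      have h2 : (q : ℝ) ^ 10 ≤ 2 ^ J := by exact_mod_cast hcase.le
      have h3 : (q : ℝ) ^ 9 ≤ (q : ℝ) ^ 10 := pow_le_pow_right₀ hq1 (by norm_num)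
      linarith
    have h4 : ‖Cq G q c‖ * (q : ℝ) ^ 9 ≤ (q : ℝ) ^ Fintype.card ι * 2 ^ J :=
      mul_le_mul (norm_Cq_le G q c) hq9 (by positivity) hqn
    have h5 : 0 ≤ (2 + 2 * C) * (q : ℝ) ^ Fintype.card ι := by positivity
    nlinarith
  · push Not at hcase
    set j : ℕ := Nat.log 2 (q ^ 10) with hj
    have hq10 : q ^ 10 ≠ 0 := by positivity
    have hj1 : 2 ^ j ≤ q ^ 10 := Nat.pow_log_le_self 2 hq10
    have hj2 : q ^ 10 < 2 ^ (j + 1) := Nat.lt_pow_succ_log_self (by norm_num) _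
    have hJj : J ≤ j := by
      have : 2 ^ J < 2 ^ (j + 1) := lt_of_le_of_lt hcase hj2
      have := (Nat.pow_lt_pow_iff_right (by norm_num : 1 < 2)).1 this
      omega
    have hjj0 : j0 ≤ j := le_trans (le_max_left _ _) hJj
    have hj1' : 1 ≤ j := le_trans (le_max_right _ _) hJj
    have hup : q ^ 10 * 2 ^ j ≤ 2 ^ (10 * D * j) := by
      calc q ^ 10 * 2 ^ j ≤ 2 ^ (j + 1) * 2 ^ j := Nat.mul_le_mul_right _ hj2.le
        _ = 2 ^ (2 * j + 1) := by rw [← pow_add]; congr 1; ring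
        _ ≤ 2 ^ (10 * D * j) := Nat.pow_le_pow_right (by norm_num) (by nlinarith)
    have hcrj := hj0 j hjj0 ((c : ℝ) / q) c q hq hcop (by simp) hj1 hup
    have hrl := hC0 j q c 0 hq
    simp only [add_zero, abs_zero, zero_mul, mul_one] at hrl
    -- lower bound for the main term
    have hQ : (0 : ℝ) < (q : ℝ) ^ Fintype.card ι := by positivity
    have hN : (0 : ℝ) < (2 : ℝ) ^ (Fintype.card ι * j) := by positivity
    have hmain : ‖Cq G q c / (q : ℂ) ^ Fintype.card ι * Sj G a b j 0‖ =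
        ‖Cq G q c‖ / (q : ℝ) ^ Fintype.card ι * (vol a b * 2 ^ (Fintype.card ι * j)) := by
      rw [norm_mul, norm_div, norm_pow, Sj_zero G a b hab j]
      simp
    have htri : ‖Cq G q c / (q : ℂ) ^ Fintype.card ι * Sj G a b j 0‖ ≤
        ‖Sj G a b j ((c : ℝ) / q)‖ + C * 2 ^ (Fintype.card ι * j) * (q / 2 ^ j) := by
      have h2 : ‖Cq G q c / (q : ℂ) ^ Fintype.card ι * Sj G a b j 0‖ ≤
          ‖Sj G a b j ((c : ℝ) / q)‖ + ‖Sj G a b j ((c : ℝ) / q) -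
            Cq G q c / (q : ℂ) ^ Fintype.card ι * Sj G a b j 0‖ := by
        have := norm_sub_le (Sj G a b j ((c : ℝ) / q)) (Sj G a b j ((c : ℝ) / q) -
            Cq G q c / (q : ℂ) ^ Fintype.card ι * Sj G a b j 0)
        simpa using this
      have h3 : C0 * 2 ^ (Fintype.card ι * j) * ((q : ℝ) / 2 ^ j) ≤
          C * 2 ^ (Fintype.card ι * j) * (q / 2 ^ j) := by
        apply mul_le_mul_of_nonneg_right _ (by positivity)
        exact mul_le_mul_of_nonneg_right hCle hN.le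
      linarith
    -- sizes
    have hpow2 : (q : ℝ) ^ 10 ≤ 2 * 2 ^ j := by
      have h3 : (q : ℝ) ^ 10 ≤ 2 ^ (j + 1) := by exact_mod_cast hj2.le
      have h4 : (2 : ℝ) ^ (j + 1) = 2 ^ j * 2 := pow_succ 2 j
      linarith
    have h2j : (0 : ℝ) < 2 ^ j := by positivity
    have hS : ‖Sj G a b j ((c : ℝ) / q)‖ * 2 ^ j ≤ 2 ^ (Fintype.card ι * j) := by
      have h3 : (2 : ℝ) ^ j ≤ 2 ^ ((D + 1) * j) := by
        apply pow_le_pow_right₀ (by norm_num)
        nlinarith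
      calc ‖Sj G a b j ((c : ℝ) / q)‖ * 2 ^ j ≤
          ‖Sj G a b j ((c : ℝ) / q)‖ * 2 ^ ((D + 1) * j) :=
            mul_le_mul_of_nonneg_left h3 (norm_nonneg _)
        _ ≤ _ := hcrj
    set X : ℝ := ‖Cq G q c‖ / (q : ℝ) ^ Fintype.card ι with hX
    have hXnn : 0 ≤ X := by positivity
    have hkey : X * 2 ^ j ≤ 1 + C * q := by
      have h4 : X * 2 ^ (Fintype.card ι * j) ≤
          X * (vol a b * 2 ^ (Fintype.card ι * j)) := by
        apply mul_le_mul_of_nonneg_left _ hXnn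
        have := one_le_vol a b hab
        nlinarith
      have h5 : X * 2 ^ (Fintype.card ι * j) ≤
          ‖Sj G a b j ((c : ℝ) / q)‖ + C * 2 ^ (Fintype.card ι * j) * (q / 2 ^ j) := by
        rw [hmain] at htri
        linarith
      have h6 : X * 2 ^ (Fintype.card ι * j) * 2 ^ j ≤
          2 ^ (Fintype.card ι * j) + C * 2 ^ (Fintype.card ι * j) * q := by
        have h7 : C * 2 ^ (Fintype.card ι * j) * ((q : ℝ) / 2 ^ j) * 2 ^ j =
            C * 2 ^ (Fintype.card ι * j) * q := by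
          field_simp
        have h8 := mul_le_mul_of_nonneg_right h5 h2j.le
        rw [add_mul, h7] at h8
        linarith
      have h9 : (X * 2 ^ j) * 2 ^ (Fintype.card ι * j) ≤
          (1 + C * q) * 2 ^ (Fintype.card ι * j) := by
        nlinarith
      exact le_of_mul_le_mul_right h9 hN
    have hfin : X * (q : ℝ) ^ 9 ≤ 2 + 2 * C := by
      have h10 : X * (q : ℝ) ^ 10 ≤ 2 * (1 + C * q) := by
        calc X * (q : ℝ) ^ 10 ≤ X * (2 * 2 ^ j) := mul_le_mul_of_nonneg_left hpow2 hXnn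
          _ = 2 * (X * 2 ^ j) := by ring
          _ ≤ _ := by linarith
      have h11 : (X * (q : ℝ) ^ 9) * q ≤ (2 + 2 * C) * q := by
        have : X * (q : ℝ) ^ 10 = (X * (q : ℝ) ^ 9) * q := by ring
        nlinarith
      exact le_of_mul_le_mul_right h11 (by linarith)
    have hXQ : ‖Cq G q c‖ = X * (q : ℝ) ^ Fintype.card ι := by
      rw [hX]; field_simp
    rw [hXQ]
    have h12 : X * (q : ℝ) ^ Fintype.card ι * (q : ℝ) ^ 9 =
        (X * (q : ℝ) ^ 9) * (q : ℝ) ^ Fintype.card ι := by ring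
    rw [h12]
    apply mul_le_mul_of_nonneg_right _ hqn
    have : (0 : ℝ) ≤ 2 ^ J := by positivity
    linarith

/-- decay of `S_j(β)`. -/
lemma sdec (h2 : S_SC) (G : MvPolynomial ι ℤ) (D : ℕ) (hD : 2 ≤ D) (hG : G.IsHomogeneous D)
    (a b : ι → ℤ) (hab : ∀ l, a l < b l) (hcr : Crude G D a b) :
    ∃ C : ℝ, 0 ≤ C ∧ ∀ (j : ℕ) (β : ℝ), (|β| * 2 ^ (D * j)) ^ 10 ≤ 2 ^ j →
      ‖Sj G a b j β‖ * (1 + |β| * 2 ^ (D * j)) ^ 9 ≤ C * 2 ^ (Fintype.card ι * j) := by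
  obtain ⟨j0, hj0⟩ := hcr
  obtain ⟨C0, hC0⟩ := h2 ι G D (by omega) hG a b hab
  set C : ℝ := max C0 0 with hC
  have hCnn : 0 ≤ C := le_max_right _ _
  have hCle : C0 ≤ C := le_max_left _ _
  set J : ℕ := max j0 1 with hJ
  have hvol := one_le_vol a b hab
  refine ⟨vol a b * (1 + 2 ^ J) ^ 9 + (2 + 2 * C) * 2 ^ 9, by positivity, ?_⟩
  intro j β hY
  set Y : ℝ := |β| * 2 ^ (D * j) with hYdef
  have hYnn : 0 ≤ Y := by positivity
  have hN : (0 : ℝ) < (2 : ℝ) ^ (Fintype.card ι * j) := by positivity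
  by_cases hcase : Y ^ 10 < 2 ^ J
  · have hY2 : Y ≤ 2 ^ J := by
      by_contra hcon
      push Not at hcon
      have h1J : (1 : ℝ) ≤ 2 ^ J := one_le_pow₀ (by norm_num)
      have hY1 : 1 ≤ Y := by linarith
      have : Y ^ 1 ≤ Y ^ 10 := pow_le_pow_right₀ hY1 (by norm_num)
      rw [pow_one] at this
      linarith
    have h3 : (1 + Y) ^ 9 ≤ (1 + 2 ^ J) ^ 9 := by
      apply pow_le_pow_left₀ (by positivity)
      linarith
    have h4 : ‖Sj G a b j β‖ * (1 + Y) ^ 9 ≤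
        (vol a b * 2 ^ (Fintype.card ι * j)) * (1 + 2 ^ J) ^ 9 :=
      mul_le_mul (norm_Sj_le G a b hab j β) h3 (by positivity) (by positivity)
    have h5 : 0 ≤ (2 + 2 * C) * 2 ^ 9 * (2 : ℝ) ^ (Fintype.card ι * j) := by positivity
    calc ‖Sj G a b j β‖ * (1 + Y) ^ 9 ≤
        (vol a b * 2 ^ (Fintype.card ι * j)) * (1 + 2 ^ J) ^ 9 := h4
      _ = vol a b * (1 + 2 ^ J) ^ 9 * 2 ^ (Fintype.card ι * j) := by ring
      _ ≤ _ := by rw [add_mul]; linarith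
  · push Not at hcase
    -- `Y ≥ 1`
    have h1J : (1 : ℝ) ≤ 2 ^ J := one_le_pow₀ (by norm_num)
    have hY1 : 1 ≤ Y := by
      by_contra hcon
      push Not at hcon
      have h2J : (2 : ℝ) ≤ 2 ^ J := by
        calc (2 : ℝ) = 2 ^ 1 := by norm_num
          _ ≤ 2 ^ J := pow_le_pow_right₀ (by norm_num) (le_max_right _ _)
      have : Y ^ 10 ≤ 1 := pow_le_one₀ hYnn hcon.le
      linarith
    have hY0 : 0 < Y := by linarith
    -- the level `i`
    obtain ⟨i, hi1, hi2⟩ : ∃ i : ℕ, (2 : ℝ) ^ i ≤ Y ^ 10 ∧ Y ^ 10 < 2 ^ (i + 1) := by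
      have h1 : (1 : ℝ) ≤ Y ^ 10 := one_le_pow₀ hY1
      have hfl : ⌊Y ^ 10⌋₊ ≠ 0 := by
        have : 1 ≤ ⌊Y ^ 10⌋₊ := Nat.le_floor (by simpa using h1)
        omega
      refine ⟨Nat.log 2 ⌊Y ^ 10⌋₊, ?_, ?_⟩
      · have h3 : 2 ^ Nat.log 2 ⌊Y ^ 10⌋₊ ≤ ⌊Y ^ 10⌋₊ := Nat.pow_log_le_self 2 hfl
        have h4 : ((2 ^ Nat.log 2 ⌊Y ^ 10⌋₊ : ℕ) : ℝ) ≤ (⌊Y ^ 10⌋₊ : ℝ) := by exact_mod_cast h3
        have h5 : (⌊Y ^ 10⌋₊ : ℝ) ≤ Y ^ 10 := Nat.floor_le (by positivity)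
        push_cast at h4
        linarith
      · have h3 : ⌊Y ^ 10⌋₊ < 2 ^ (Nat.log 2 ⌊Y ^ 10⌋₊ + 1) :=
          Nat.lt_pow_succ_log_self (by norm_num) _
        have h4 : Y ^ 10 < ⌊Y ^ 10⌋₊ + 1 := Nat.lt_floor_add_one _
        have h5 : ((⌊Y ^ 10⌋₊ + 1 : ℕ) : ℝ) ≤ ((2 ^ (Nat.log 2 ⌊Y ^ 10⌋₊ + 1) : ℕ) : ℝ) := by
          exact_mod_cast h3
        push_cast at h5
        linarith
    have hij : i ≤ j := by
      have h3 : (2 : ℝ) ^ i ≤ 2 ^ j := hi1.trans hY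
      by_contra hcon
      push Not at hcon
      have : (2 : ℝ) ^ j < 2 ^ i := pow_lt_pow_right₀ (by norm_num) hcon
      linarith
    have hJi : J ≤ i := by
      have h3 : (2 : ℝ) ^ J < 2 ^ (i + 1) := lt_of_le_of_lt hcase hi2
      by_contra hcon
      push Not at hcon
      have : (2 : ℝ) ^ (i + 1) ≤ 2 ^ J := pow_le_pow_right₀ (by norm_num) hcon
      linarith
    have hij0 : j0 ≤ i := le_trans (le_max_left _ _) hJi
    have hi1' : 1 ≤ i := le_trans (le_max_right _ _) hJi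
    obtain ⟨t, rfl⟩ := Nat.exists_eq_add_of_le hij
    -- the scaled frequency
    set β' : ℝ := β * 2 ^ (D * t) with hβ'
    have habs : |β'| * 2 ^ (D * i) = Y := by
      rw [hβ', abs_mul, abs_of_pos (by positivity : (0 : ℝ) < 2 ^ (D * t)), hYdef, mul_assoc,
        ← pow_add]
      congr 2
      ring
    have h2Di : (0 : ℝ) < 2 ^ (D * i) := by positivity
    have hβ'pos : 0 < |β'| := by
      by_contra hcon
      push Not at hcon
      have : |β'| * 2 ^ (D * i) ≤ 0 := mul_nonpos_of_nonpos_of_nonneg hcon h2Di.le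
      linarith
    set x : ℝ := 2 ^ (D * i) / Y with hx
    have hxβ : |β'| = 1 / x := by
      rw [hx, one_div_div, ← habs]
      field_simp
    have hxpos : 0 < x := by positivity
    -- bounds for `Y` in terms of `i`
    have hYle : Y ≤ 2 ^ i := by
      have h3 : Y ^ 10 ≤ (2 ^ i) ^ 10 := by
        calc Y ^ 10 ≤ 2 ^ (i + 1) := hi2.le
          _ ≤ 2 ^ (i * 10) := pow_le_pow_right₀ (by norm_num) (by omega)
          _ = (2 ^ i) ^ 10 := by rw [pow_mul]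
      exact le_of_pow_le_pow_left₀ (by norm_num) (by positivity) h3
    have hx2 : (2 : ℝ) ^ i ≤ x := by
      rw [hx, le_div_iff₀ hY0]
      calc (2 : ℝ) ^ i * Y ≤ 2 ^ i * 2 ^ i := mul_le_mul_of_nonneg_left hYle (by positivity)
        _ = 2 ^ (2 * i) := by rw [← pow_add]; congr 1; ring
        _ ≤ 2 ^ (D * i) := pow_le_pow_right₀ (by norm_num) (Nat.mul_le_mul_right _ hD)
    have hxge2 : (2 : ℝ) ≤ x := by
      have : (2 : ℝ) ^ 1 ≤ 2 ^ i := pow_le_pow_right₀ (by norm_num) hi1'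
      linarith
    set q1 : ℕ := ⌊x⌋₊ with hq1
    have hq1le : (q1 : ℝ) ≤ x := Nat.floor_le hxpos.le
    have hq1lt : x < q1 + 1 := Nat.lt_floor_add_one x
    have hq1ge : 2 ^ i ≤ q1 := Nat.le_floor (by push_cast; exact hx2)
    have hq1pos : 0 < q1 := lt_of_lt_of_le (by positivity) hq1ge
    have hq1r : (0 : ℝ) < q1 := by exact_mod_cast hq1pos
    have hc1 : 2 ^ i ≤ q1 ^ 10 := hq1ge.trans (Nat.le_self_pow (by norm_num) _)
    have hc2 : q1 ^ 10 * 2 ^ i ≤ 2 ^ (10 * D * i) := by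
      have h3 : (q1 : ℝ) ^ 10 * 2 ^ i ≤ 2 ^ (10 * D * i) := by
        have h4 : (q1 : ℝ) ^ 10 ≤ x ^ 10 := pow_le_pow_left₀ hq1r.le hq1le 10
        have h5 : x ^ 10 * Y ^ 10 = 2 ^ (10 * D * i) := by
          rw [← mul_pow, hx, div_mul_cancel₀ _ hY0.ne', ← pow_mul]
          congr 1
          ring
        calc (q1 : ℝ) ^ 10 * 2 ^ i ≤ x ^ 10 * Y ^ 10 :=
              mul_le_mul h4 hi1 (by positivity) (by positivity)
          _ = _ := h5
      exact_mod_cast h3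
    have hdist : |1 / x - 1 / (q1 : ℝ)| ≤ 1 / (q1 : ℝ) ^ 2 := by
      have h3 : 1 / x ≤ 1 / (q1 : ℝ) := one_div_le_one_div_of_le hq1r hq1le
      rw [abs_sub_comm, abs_of_nonneg (by linarith)]
      have h4 : 1 / (q1 : ℝ) - 1 / x = (x - q1) / (q1 * x) := by
        field_simp
      rw [h4, div_le_div_iff₀ (by positivity) (by positivity)]
      have h5 : (x - q1) * (q1 : ℝ) ^ 2 ≤ 1 * (q1 : ℝ) ^ 2 := by
        apply mul_le_mul_of_nonneg_right _ (by positivity)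
        linarith
      nlinarith
    have hcrude : ‖Sj G a b i β'‖ * 2 ^ ((D + 1) * i) ≤ 2 ^ (Fintype.card ι * i) := by
      rcases le_total 0 β' with hs | hs
      · have h3 : β' = 1 / x := by rw [← hxβ, abs_of_nonneg hs]
        refine hj0 i hij0 β' 1 q1 hq1pos isCoprime_one_left ?_ hc1 hc2
        rw [h3]
        push_cast
        exact hdist
      · have h3 : β' = -(1 / x) := by rw [← hxβ, abs_of_nonpos hs]; ring
        refine hj0 i hij0 β' (-1) q1 hq1pos isCoprime_one_left.neg_left ?_ hc1 hc2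
        rw [h3]
        push_cast
        have h4 : -(1 / x) - -1 / (q1 : ℝ) = -(1 / x - 1 / (q1 : ℝ)) := by ring
        rw [h4, abs_neg]
        exact hdist
    have hsc := hC0 i t β
    rw [← hβ', ← hYdef] at hsc
    have h2i : (0 : ℝ) < 2 ^ i := by positivity
    have hNi : (0 : ℝ) < (2 : ℝ) ^ (Fintype.card ι * i) := by positivity
    have hNt : (0 : ℝ) < (2 : ℝ) ^ (Fintype.card ι * t) := by positivity
    have hNN : (2 : ℝ) ^ (Fintype.card ι * (i + t)) =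
        2 ^ (Fintype.card ι * t) * 2 ^ (Fintype.card ι * i) := by
      rw [← pow_add]; congr 1; ring
    have hA : ‖Sj G a b i β'‖ * 2 ^ i ≤ 2 ^ (Fintype.card ι * i) := by
      have h3 : (2 : ℝ) ^ i ≤ 2 ^ ((D + 1) * i) := by
        apply pow_le_pow_right₀ (by norm_num)
        nlinarith
      calc ‖Sj G a b i β'‖ * 2 ^ i ≤ ‖Sj G a b i β'‖ * 2 ^ ((D + 1) * i) :=
            mul_le_mul_of_nonneg_left h3 (norm_nonneg _)
        _ ≤ _ := hcrude
    have hB : ‖Sj G a b (i + t) β‖ ≤ 2 ^ (Fintype.card ι * t) * ‖Sj G a b i β'‖ +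
        C * 2 ^ (Fintype.card ι * (i + t)) * (Y / 2 ^ i) := by
      have h3 : ‖Sj G a b (i + t) β‖ ≤ ‖(2 : ℂ) ^ (Fintype.card ι * t) * Sj G a b i β'‖ +
          ‖Sj G a b (i + t) β - (2 : ℂ) ^ (Fintype.card ι * t) * Sj G a b i β'‖ := by
        have := norm_add_le ((2 : ℂ) ^ (Fintype.card ι * t) * Sj G a b i β')
          (Sj G a b (i + t) β - (2 : ℂ) ^ (Fintype.card ι * t) * Sj G a b i β')
        simpa using this
      have h4 : ‖(2 : ℂ) ^ (Fintype.card ι * t) * Sj G a b i β'‖ =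
          2 ^ (Fintype.card ι * t) * ‖Sj G a b i β'‖ := by
        rw [norm_mul, norm_pow]
        simp
      have h5 : C0 * 2 ^ (Fintype.card ι * (i + t)) * (Y / 2 ^ i) ≤
          C * 2 ^ (Fintype.card ι * (i + t)) * (Y / 2 ^ i) := by
        apply mul_le_mul_of_nonneg_right _ (by positivity)
        exact mul_le_mul_of_nonneg_right hCle (by positivity)
      rw [h4] at h3
      linarith
    have hCC : ‖Sj G a b (i + t) β‖ * 2 ^ i ≤
        2 ^ (Fintype.card ι * (i + t)) * (1 + C * Y) := by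
      have h3 := mul_le_mul_of_nonneg_right hB h2i.le
      rw [add_mul] at h3
      have h4 : C * 2 ^ (Fintype.card ι * (i + t)) * (Y / 2 ^ i) * 2 ^ i =
          C * 2 ^ (Fintype.card ι * (i + t)) * Y := by
        field_simp
      have h5 : 2 ^ (Fintype.card ι * t) * ‖Sj G a b i β'‖ * 2 ^ i ≤
          2 ^ (Fintype.card ι * (i + t)) := by
        rw [hNN, mul_assoc]
        exact mul_le_mul_of_nonneg_left hA hNt.le
      rw [h4] at h3
      calc ‖Sj G a b (i + t) β‖ * 2 ^ i ≤ 2 ^ (Fintype.card ι * t) * ‖Sj G a b i β'‖ * 2 ^ i +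
            C * 2 ^ (Fintype.card ι * (i + t)) * Y := h3
        _ ≤ 2 ^ (Fintype.card ι * (i + t)) + C * 2 ^ (Fintype.card ι * (i + t)) * Y := by
            linarith
        _ = _ := by ring
    -- conclusion
    have hfin : ‖Sj G a b (i + t) β‖ * Y ^ 9 ≤
        (2 + 2 * C) * 2 ^ (Fintype.card ι * (i + t)) := by
      have h3 : ‖Sj G a b (i + t) β‖ * Y ^ 10 ≤ ‖Sj G a b (i + t) β‖ * (2 * 2 ^ i) := by
        apply mul_le_mul_of_nonneg_left _ (norm_nonneg _)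
        have h8 : (2 : ℝ) ^ (i + 1) = 2 ^ i * 2 := pow_succ 2 i
        linarith
      have h6 : (2 : ℝ) ^ (Fintype.card ι * (i + t)) ≤ 2 ^ (Fintype.card ι * (i + t)) * Y :=
        le_mul_of_one_le_right hN.le hY1
      have h4 : (‖Sj G a b (i + t) β‖ * Y ^ 9) * Y ≤
          ((2 + 2 * C) * 2 ^ (Fintype.card ι * (i + t))) * Y := by
        calc (‖Sj G a b (i + t) β‖ * Y ^ 9) * Y = ‖Sj G a b (i + t) β‖ * Y ^ 10 := by ring
          _ ≤ 2 * (‖Sj G a b (i + t) β‖ * 2 ^ i) := by linarith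
          _ ≤ 2 * (2 ^ (Fintype.card ι * (i + t)) * (1 + C * Y)) := by linarith
          _ = 2 * 2 ^ (Fintype.card ι * (i + t)) +
              2 * C * 2 ^ (Fintype.card ι * (i + t)) * Y := by ring
          _ ≤ 2 * (2 ^ (Fintype.card ι * (i + t)) * Y) +
              2 * C * 2 ^ (Fintype.card ι * (i + t)) * Y := by linarith
          _ = _ := by ring
      exact le_of_mul_le_mul_right h4 hY0
    have h1Y : (1 + Y) ^ 9 ≤ 2 ^ 9 * Y ^ 9 := by
      rw [← mul_pow]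
      apply pow_le_pow_left₀ (by positivity)
      linarith
    have hlast : ‖Sj G a b (i + t) β‖ * (1 + Y) ^ 9 ≤
        (2 + 2 * C) * 2 ^ 9 * 2 ^ (Fintype.card ι * (i + t)) := by
      calc ‖Sj G a b (i + t) β‖ * (1 + Y) ^ 9 ≤ ‖Sj G a b (i + t) β‖ * (2 ^ 9 * Y ^ 9) :=
            mul_le_mul_of_nonneg_left h1Y (norm_nonneg _)
        _ = 2 ^ 9 * (‖Sj G a b (i + t) β‖ * Y ^ 9) := by ring
        _ ≤ 2 ^ 9 * ((2 + 2 * C) * 2 ^ (Fintype.card ι * (i + t))) :=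
            mul_le_mul_of_nonneg_left hfin (by positivity)
        _ = _ := by ring
    have h7 : 0 ≤ vol a b * (1 + 2 ^ J) ^ 9 * (2 : ℝ) ^ (Fintype.card ι * (i + t)) := by
      positivity
    rw [add_mul]
    linarith

end DECx

theorem t_DEC (h1 : S_RL) (h2 : S_SC) : S_DEC := by
  intro ι _ _ G D hD hG a b hab hcr
  have hcd : CDec G := DECx.cdec h1 G D hD hG a b hab hcr
  refine ⟨hcd, ?_⟩
  obtain ⟨C1, hC1⟩ := hcd
  obtain ⟨C2, hC2nn, hC2⟩ := DECx.sdec h2 G D hD hG a b hab hcr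
  obtain ⟨C0, hC0⟩ := h1 ι G D (by omega) hG a b hab
  set K1 : ℝ := max C1 0 with hK1
  have hK1nn : 0 ≤ K1 := le_max_right _ _
  have hK1le : C1 ≤ K1 := le_max_left _ _
  set K0 : ℝ := max C0 0 with hK0
  have hK0nn : 0 ≤ K0 := le_max_right _ _
  have hK0le : C0 ≤ K0 := le_max_left _ _
  refine ⟨K1 * C2 + K0, ?_⟩
  intro j q c β hq hcop hqj hYj
  set Y : ℝ := |β| * 2 ^ (D * j) with hY
  have hYnn : 0 ≤ Y := by positivity
  set N : ℝ := (2 : ℝ) ^ (Fintype.card ι * j) with hN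
  have hNpos : 0 < N := by positivity
  have hqr : (0 : ℝ) < q := by exact_mod_cast hq
  have h2j : (0 : ℝ) < 2 ^ j := by positivity
  have hrl := hC0 j q c β hq
  rw [← hY, ← hN] at hrl
  have hCq : ‖Cq G q c‖ / (q : ℝ) ^ Fintype.card ι ≤ K1 / (q : ℝ) ^ 9 := by
    rw [div_le_div_iff₀ (by positivity) (by positivity)]
    have h3 := hC1 q c hq hcop
    have h4 : C1 * (q : ℝ) ^ Fintype.card ι ≤ K1 * (q : ℝ) ^ Fintype.card ι :=
      mul_le_mul_of_nonneg_right hK1le (by positivity)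
    linarith
  have hS : ‖Sj G a b j β‖ ≤ C2 * N / (1 + Y) ^ 9 := by
    rw [le_div_iff₀ (by positivity)]
    exact hC2 j β hYj
  have hmain : ‖Cq G q c / (q : ℂ) ^ Fintype.card ι * Sj G a b j β‖ ≤
      K1 * C2 * N * (1 / ((q : ℝ) ^ 9 * (1 + Y) ^ 9)) := by
    rw [norm_mul, norm_div, norm_pow]
    have h3 : ‖Cq G q c‖ / ‖(q : ℂ)‖ ^ Fintype.card ι * ‖Sj G a b j β‖ ≤
        K1 / (q : ℝ) ^ 9 * (C2 * N / (1 + Y) ^ 9) := by
      have h4 : ‖(q : ℂ)‖ = (q : ℝ) := by simp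
      rw [h4]
      exact mul_le_mul hCq hS (norm_nonneg _) (by positivity)
    have h5 : K1 / (q : ℝ) ^ 9 * (C2 * N / (1 + Y) ^ 9) =
        K1 * C2 * N * (1 / ((q : ℝ) ^ 9 * (1 + Y) ^ 9)) := by
      field_simp
    linarith
  have htri : ‖Sj G a b j ((c : ℝ) / q + β)‖ ≤
      ‖Cq G q c / (q : ℂ) ^ Fintype.card ι * Sj G a b j β‖ +
      ‖Sj G a b j ((c : ℝ) / q + β) - Cq G q c / (q : ℂ) ^ Fintype.card ι * Sj G a b j β‖ := by
    have := norm_add_le (Cq G q c / (q : ℂ) ^ Fintype.card ι * Sj G a b j β)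
      (Sj G a b j ((c : ℝ) / q + β) - Cq G q c / (q : ℂ) ^ Fintype.card ι * Sj G a b j β)
    simpa using this
  have hE : 0 ≤ (q : ℝ) * (1 + Y) / 2 ^ j := by positivity
  have hE2 : C0 * N * ((q : ℝ) * (1 + Y) / 2 ^ j) ≤ K0 * N * ((q : ℝ) * (1 + Y) / 2 ^ j) := by
    apply mul_le_mul_of_nonneg_right _ hE
    exact mul_le_mul_of_nonneg_right hK0le hNpos.le
  have hA : 0 ≤ 1 / ((q : ℝ) ^ 9 * (1 + Y) ^ 9) := by positivity
  have hx1 : 0 ≤ K1 * C2 * N * ((q : ℝ) * (1 + Y) / 2 ^ j) := by positivity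
  have hx2 : 0 ≤ K0 * N * (1 / ((q : ℝ) ^ 9 * (1 + Y) ^ 9)) := by positivity
  calc ‖Sj G a b j ((c : ℝ) / q + β)‖ ≤
      K1 * C2 * N * (1 / ((q : ℝ) ^ 9 * (1 + Y) ^ 9)) +
        K0 * N * ((q : ℝ) * (1 + Y) / 2 ^ j) := by linarith
    _ ≤ (K1 * C2 + K0) * N * (1 / ((q : ℝ) ^ 9 * (1 + Y) ^ 9) + (q : ℝ) * (1 + Y) / 2 ^ j) := by
        nlinarith

end Pool.Agent.helper132_hp
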