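import Pool.Agent.helper132_hp.Stmts

/-! Project HPK, task DENS: product of the p-adic densities. -/

set_option autoImplicit false

namespace Pool.Agent.helper132_hp

open Finset

namespace DENSx

theorem e_add (x y : ℝ) : e (x + y) = e x * e y := by
  unfold e
  rw [← Complex.exp_add]
  congr 1
  push_cast
  ring

theorem e_int (n : ℤ) : e (n : ℝ) = 1 := by
  unfold e
  rw [Complex.exp_eq_one_iff]
  refine ⟨n, ?_⟩
  push_cast
  ring

theorem e_zero : e 0 = 1 := by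
  have := e_int 0
  simpa using this

theorem e_nat_mul (n : ℕ) (x : ℝ) : e ((n : ℝ) * x) = e x ^ n := by
  unfold e
  rw [← Complex.exp_nat_mul]
  congr 1
  push_cast
  ring

theorem e_eq_one {x : ℝ} (h : e x = 1) : ∃ n : ℤ, x = n := by
  unfold e at h
  rw [Complex.exp_eq_one_iff] at h
  obtain ⟨n, hn⟩ := h
  refine ⟨n, ?_⟩
  have h2 : ((2 * Real.pi * x : ℝ) : ℂ) = ((n * (2 * Real.pi) : ℝ) : ℂ) := by
    have : ((2 * Real.pi * x : ℝ) : ℂ) * Complex.I = ((n * (2 * Real.pi) : ℝ) : ℂ) * Complex.I := by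
      rw [hn]; push_cast; ring
    exact mul_right_cancel₀ Complex.I_ne_zero this
  have h3 : 2 * Real.pi * x = n * (2 * Real.pi) := by exact_mod_cast h2
  have hpi : (2 * Real.pi) ≠ 0 := by positivity
  have : 2 * Real.pi * x = 2 * Real.pi * n := by rw [h3]; ring
  exact mul_left_cancel₀ hpi this

theorem geom (W : ℕ) (hW : 0 < W) (g : ℤ) :
    ∑ a ∈ range W, e (((a : ℤ) : ℝ) / W * (g : ℝ)) = if (W : ℤ) ∣ g then (W : ℂ) else 0 := by
  have hW' : (W : ℝ) ≠ 0 := by positivity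
  have h1 : ∀ a : ℕ, e (((a : ℤ) : ℝ) / W * (g : ℝ)) = e ((g : ℝ) / W) ^ a := by
    intro a
    rw [← e_nat_mul]
    congr 1
    push_cast
    ring
  simp_rw [h1]
  split_ifs with h
  · obtain ⟨t, ht⟩ := h
    have : e ((g : ℝ) / W) = 1 := by
      have h2 : (g : ℝ) / W = (t : ℝ) := by
        rw [ht]; push_cast; field_simp
      rw [h2]; exact e_int t
    rw [this]; simp
  · have hne : e ((g : ℝ) / W) ≠ 1 := by
      intro h2
      obtain ⟨t, ht⟩ := e_eq_one h2
      apply h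
      refine ⟨t, ?_⟩
      have : (g : ℝ) = W * t := by
        field_simp at ht
        linarith
      exact_mod_cast this
    have hp : e ((g : ℝ) / W) ^ W = 1 := by
      rw [← e_nat_mul]
      have : (W : ℝ) * ((g : ℝ) / W) = (g : ℝ) := by field_simp
      rw [this]; exact e_int g
    rw [geom_sum_eq hne, hp]; simp

section
variable {ι : Type} [Fintype ι] [DecidableEq ι]

theorem orth (G : MvPolynomial ι ℤ) (W : ℕ) (hW : 0 < W) :
    (Mq G W : ℂ) * W = ∑ a ∈ range W, Cq G W (a : ℤ) := by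
  unfold Cq Mq
  rw [sum_comm]
  simp_rw [geom W hW]
  rw [← sum_filter, sum_const, nsmul_eq_mul]

omit [Fintype ι] [DecidableEq ι] in
theorem eval_congr (G : MvPolynomial ι ℤ) (M : ℕ) (w v : ι → ℤ) (h : ∀ l, (M : ℤ) ∣ w l - v l) :
    (M : ℤ) ∣ MvPolynomial.eval w G - MvPolynomial.eval v G := by
  have key : ∀ u : ι → ℤ, ((MvPolynomial.eval u G : ℤ) : ZMod M) =
      MvPolynomial.eval₂ (Int.castRingHom (ZMod M)) (fun l => ((u l : ℤ) : ZMod M)) G := by
    intro u
    have := MvPolynomial.eval₂_comp_left (Int.castRingHom (ZMod M)) (RingHom.id ℤ) u G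
    rw [RingHom.comp_id] at this
    exact this
  have h2 : ((MvPolynomial.eval v G : ℤ) : ZMod M) = ((MvPolynomial.eval w G : ℤ) : ZMod M) := by
    rw [key, key]
    congr 1
    funext l
    exact (ZMod.intCast_eq_intCast_iff_dvd_sub _ _ _).2 (h l)
  exact (ZMod.intCast_eq_intCast_iff_dvd_sub _ _ _).1 h2

theorem mem_res {q : ℕ} {w : ι → ℤ} : w ∈ res ι q ↔ ∀ l, 0 ≤ w l ∧ w l < q := by
  unfold res
  simp [Fintype.mem_piFinset]

theorem card_res (q : ℕ) : (res ι q).card = q ^ Fintype.card ι := by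
  unfold res
  simp [Fintype.card_piFinset]

/-- sums of periodic functions. -/
theorem sum_per (M k : ℕ) (hM : 0 < M) (f : (ι → ℤ) → ℂ)
    (hf : ∀ w v : ι → ℤ, (∀ l, (M : ℤ) ∣ w l - v l) → f w = f v) :
    ∑ w ∈ res ι (k * M), f w = (k : ℂ) ^ Fintype.card ι * ∑ w ∈ res ι M, f w := by
  have hM' : (0 : ℤ) < M := by exact_mod_cast hM
  have h1 : ∑ w ∈ res ι (k * M), f w = ∑ x ∈ res ι k ×ˢ res ι M, f x.2 := by
    refine sum_nbij' (fun w => (fun l => w l / (M : ℤ), fun l => w l % (M : ℤ)))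
      (fun x => fun l => (M : ℤ) * x.1 l + x.2 l) ?_ ?_ ?_ ?_ ?_
    · intro w hw
      rw [mem_res] at hw
      rw [mem_product, mem_res, mem_res]
      refine ⟨fun l => ⟨Int.ediv_nonneg (hw l).1 hM'.le, ?_⟩, fun l => ⟨Int.emod_nonneg _ hM'.ne', Int.emod_lt_of_pos _ hM'⟩⟩
      apply Int.ediv_lt_of_lt_mul hM'
      have := (hw l).2
      push_cast at this
      exact this
    · intro x hx
      rw [mem_product, mem_res, mem_res] at hx
      rw [mem_res]
      intro l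
      obtain ⟨a1, a2⟩ := hx.1 l
      obtain ⟨b1, b2⟩ := hx.2 l
      constructor
      · positivity
      · push_cast
        nlinarith
    · intro w _
      funext l
      exact Int.mul_ediv_add_emod (w l) M
    · intro x hx
      rw [mem_product, mem_res, mem_res] at hx
      ext l
      · obtain ⟨b1, b2⟩ := hx.2 l
        show ((M : ℤ) * x.1 l + x.2 l) / (M : ℤ) = x.1 l
        rw [Int.mul_add_ediv_left _ _ hM'.ne', Int.ediv_eq_zero_of_lt b1 b2, add_zero]
      · obtain ⟨b1, b2⟩ := hx.2 l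
        show ((M : ℤ) * x.1 l + x.2 l) % (M : ℤ) = x.2 l
        rw [Int.mul_add_emod_self_left, Int.emod_eq_of_lt b1 b2]
    · intro w _
      apply hf
      intro l
      exact Int.dvd_self_sub_emod
  rw [h1, sum_product]
  simp only
  rw [sum_const, card_res, nsmul_eq_mul]
  push_cast
  ring

theorem Cq_mul (G : MvPolynomial ι ℤ) (M k : ℕ) (hM : 0 < M) (hk : 0 < k) (c : ℤ) :
    Cq G (k * M) (k * c) = (k : ℂ) ^ Fintype.card ι * Cq G M c := by
  unfold Cq
  have hM' : (M : ℝ) ≠ 0 := by positivity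
  have hk' : (k : ℝ) ≠ 0 := by positivity
  rw [← sum_per M k hM]
  · refine sum_congr rfl fun w _ => ?_
    congr 2
    push_cast
    field_simp
  · intro w v h
    obtain ⟨t, ht⟩ := eval_congr G M w v h
    have h2 : (c : ℝ) / M * ((MvPolynomial.eval w G : ℤ) : ℝ) =
        (c : ℝ) / M * ((MvPolynomial.eval v G : ℤ) : ℝ) + ((c * t : ℤ) : ℝ) := by
      have h3 : ((MvPolynomial.eval w G : ℤ) : ℝ) - ((MvPolynomial.eval v G : ℤ) : ℝ) = M * t := by
        exact_mod_cast ht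
      have h4 : ((MvPolynomial.eval w G : ℤ) : ℝ) = ((MvPolynomial.eval v G : ℤ) : ℝ) + M * t := by
        linarith
      rw [h4]
      push_cast
      field_simp
    rw [h2, e_add, e_int, mul_one]

/-- recursion for prime powers. -/
theorem rec_step (G : MvPolynomial ι ℤ) (p m : ℕ) (hp : p.Prime) :
    (Mq G (p ^ (m + 1)) : ℂ) * (p ^ (m + 1) : ℕ) = (p : ℂ) ^ Fintype.card ι *
      ((Mq G (p ^ m) : ℂ) * (p ^ m : ℕ)) +
      ∑ a ∈ (range (p ^ (m + 1))).filter (fun a => ¬ p ∣ a), Cq G (p ^ (m + 1)) (a : ℤ) := by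
  rw [orth G _ (pow_pos hp.pos _), orth G _ (pow_pos hp.pos _),
    ← sum_filter_add_sum_filter_not (range (p ^ (m + 1))) (fun a => p ∣ a)]
  congr 1
  rw [mul_sum]
  symm
  refine sum_nbij' (fun a => p * a) (fun a => a / p) ?_ ?_ ?_ ?_ ?_
  · intro a ha
    rw [mem_range] at ha
    rw [mem_filter, mem_range, pow_succ']
    exact ⟨Nat.mul_lt_mul_of_pos_left ha hp.pos, dvd_mul_right _ _⟩
  · intro a ha
    rw [mem_filter, mem_range, pow_succ'] at ha
    rw [mem_range]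
    exact Nat.div_lt_of_lt_mul ha.1
  · intro a _
    exact Nat.mul_div_cancel_left a hp.pos
  · intro a ha
    rw [mem_filter] at ha
    exact Nat.mul_div_cancel' ha.2
  · intro a _
    have := Cq_mul G (p ^ m) p (pow_pos hp.pos _) hp.pos (a : ℤ)
    rw [pow_succ' p m]
    push_cast at this ⊢
    rw [this]

theorem Mq_one (G : MvPolynomial ι ℤ) : Mq G 1 = 1 := by
  unfold Mq
  rw [filter_true_of_mem, card_res, one_pow]
  intro w _
  simp

/-- the normalised density. -/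
noncomputable def xx (G : MvPolynomial ι ℤ) (p m : ℕ) : ℝ :=
  (Mq G (p ^ m) : ℝ) * (p : ℝ) ^ m / ((p : ℝ) ^ m) ^ Fintype.card ι

theorem xx_zero (G : MvPolynomial ι ℤ) (p : ℕ) : xx G p 0 = 1 := by
  unfold xx
  simp [Mq_one]

theorem xx_step (G : MvPolynomial ι ℤ) (C : ℝ) (hC0 : 0 ≤ C)
    (hC : ∀ (q : ℕ) (c : ℤ), 0 < q → IsCoprime c (q : ℤ) →
      ‖Cq G q c‖ * (q : ℝ) ^ 9 ≤ C * (q : ℝ) ^ Fintype.card ι) (p m : ℕ) (hp : p.Prime) :
    |xx G p (m + 1) - xx G p m| ≤ C / ((p : ℝ) ^ (m + 1)) ^ 8 := by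
  have hp0 : (0 : ℝ) < p := by exact_mod_cast hp.pos
  set n := Fintype.card ι with hn
  set q : ℝ := (p : ℝ) ^ (m + 1) with hq
  have hq0 : 0 < q := pow_pos hp0 _
  -- the complex identity
  have h1 := rec_step G p m hp
  have h2 : (((xx G p (m + 1) - xx G p m) * q ^ n : ℝ) : ℂ) =
      ∑ a ∈ (range (p ^ (m + 1))).filter (fun a => ¬ p ∣ a), Cq G (p ^ (m + 1)) (a : ℤ) := by
    have h3 : (xx G p (m + 1) - xx G p m) * q ^ n =
        (Mq G (p ^ (m + 1)) : ℝ) * (p : ℝ) ^ (m + 1) - (p : ℝ) ^ n * ((Mq G (p ^ m) : ℝ) * (p : ℝ) ^ m) := by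
      unfold xx
      rw [← hn, hq, sub_mul, div_mul_cancel₀ _ (by positivity)]
      congr 1
      rw [pow_succ (p : ℝ) m, mul_pow]
      field_simp
    rw [h3]
    push_cast at h1 ⊢
    rw [h1]
    ring
  have h4 : ‖∑ a ∈ (range (p ^ (m + 1))).filter (fun a => ¬ p ∣ a), Cq G (p ^ (m + 1)) (a : ℤ)‖ ≤
      q * (C * q ^ n / q ^ 9) := by
    refine (norm_sum_le _ _).trans ?_
    have h5 : ∀ a ∈ (range (p ^ (m + 1))).filter (fun a => ¬ p ∣ a),
        ‖Cq G (p ^ (m + 1)) (a : ℤ)‖ ≤ C * q ^ n / q ^ 9 := by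
      intro a ha
      rw [mem_filter] at ha
      have hcop : IsCoprime (a : ℤ) ((p ^ (m + 1) : ℕ) : ℤ) := by
        rw [Nat.isCoprime_iff_coprime]
        exact ((Nat.Prime.coprime_iff_not_dvd hp).2 ha.2).symm.pow_right _
      have := hC (p ^ (m + 1)) a (pow_pos hp.pos _) hcop
      rw [le_div_iff₀ (by positivity)]
      push_cast at this
      exact this
    refine (sum_le_card_nsmul _ _ _ h5).trans ?_
    rw [nsmul_eq_mul]
    refine mul_le_mul_of_nonneg_right ?_ (by positivity)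
    have : ((range (p ^ (m + 1))).filter (fun a => ¬ p ∣ a)).card ≤ p ^ (m + 1) := by
      refine (card_filter_le _ _).trans ?_
      rw [card_range]
    have h6 : (((range (p ^ (m + 1))).filter (fun a => ¬ p ∣ a)).card : ℝ) ≤ ((p ^ (m + 1) : ℕ) : ℝ) := by
      exact_mod_cast this
    push_cast at h6
    exact h6
  rw [← h2, Complex.norm_real, Real.norm_eq_abs, abs_mul, abs_of_pos (pow_pos hq0 n)] at h4
  rw [le_div_iff₀ (by positivity)]
  have h7 : q * (C * q ^ n / q ^ 9) = C * q ^ n / q ^ 8 := by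
    field_simp
  rw [h7, le_div_iff₀ (by positivity)] at h4
  have h8 : |xx G p (m + 1) - xx G p m| * q ^ 8 * q ^ n ≤ C * q ^ n := by
    calc _ = |xx G p (m + 1) - xx G p m| * q ^ n * q ^ 8 := by ring
      _ ≤ _ := h4
  exact le_of_mul_le_mul_right h8 (pow_pos hq0 n)

theorem xx_lower (G : MvPolynomial ι ℤ) (C : ℝ) (hC0 : 0 ≤ C)
    (hC : ∀ (q : ℕ) (c : ℤ), 0 < q → IsCoprime c (q : ℤ) →
      ‖Cq G q c‖ * (q : ℝ) ^ 9 ≤ C * (q : ℝ) ^ Fintype.card ι) (p : ℕ) (hp : p.Prime)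
    (hpC : 2 * C ≤ p) (m : ℕ) : 1 - 1 / (p : ℝ) ^ 2 * (1 - 1 / 2 ^ m) ≤ xx G p m := by
  have hp2 : (2 : ℝ) ≤ p := by exact_mod_cast hp.two_le
  have hp0 : (0 : ℝ) < p := by linarith
  induction m with
  | zero => rw [xx_zero]; simp
  | succ m ih =>
    have h1 := xx_step G C hC0 hC p m hp
    have h2 : C / ((p : ℝ) ^ (m + 1)) ^ 8 ≤ 1 / (p : ℝ) ^ 2 * (1 / 2 ^ (m + 1)) := by
      rw [div_mul_div_comm, one_mul, div_le_div_iff₀ (by positivity) (by positivity)]
      have h3 : (2 : ℝ) ^ m ≤ (p : ℝ) ^ m := pow_le_pow_left₀ (by norm_num) hp2 m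
      have h4 : (1 : ℝ) ≤ (p : ℝ) ^ m := one_le_pow₀ (by linarith)
      have h5 : (p : ℝ) ^ m ≤ ((p : ℝ) ^ m) ^ 8 := le_self_pow₀ h4 (by norm_num)
      have h6 : (p : ℝ) * p ^ 2 ≤ (p : ℝ) ^ 8 := by
        rw [← pow_succ']
        exact pow_le_pow_right₀ (by linarith) (by norm_num)
      calc C * ((p : ℝ) ^ 2 * 2 ^ (m + 1)) = (2 * C) * (p : ℝ) ^ 2 * 2 ^ m := by ring
        _ ≤ p * (p : ℝ) ^ 2 * 2 ^ m := by gcongr
        _ ≤ (p : ℝ) ^ 8 * ((p : ℝ) ^ m) ^ 8 := by
          apply mul_le_mul h6 (h3.trans h5) (by positivity) (by positivity)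
        _ = 1 * ((p : ℝ) ^ (m + 1)) ^ 8 := by ring
    have h7 := (abs_le.1 (h1.trans h2)).1
    have h8 : (1 : ℝ) / 2 ^ m = 2 * (1 / 2 ^ (m + 1)) := by
      rw [pow_succ]; field_simp
    rw [h8] at ih
    nlinarith

theorem Mq_mul (G : MvPolynomial ι ℤ) (a b : ℕ) (ha : 0 < a) (hb : 0 < b) (hab : a.Coprime b) :
    Mq G a * Mq G b ≤ Mq G (a * b) := by
  obtain ⟨u, v, huv⟩ := (Nat.isCoprime_iff_coprime.2 hab : IsCoprime (a : ℤ) (b : ℤ))
  have hab0 : (0 : ℤ) < (a : ℤ) * b := by positivity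
  set crt : ℤ → ℤ → ℤ := fun x y => (x * (v * b) + y * (u * a)) % ((a : ℤ) * b) with hcrt
  have c1 : ∀ x y, (a : ℤ) ∣ crt x y - x := by
    intro x y
    have h := Int.mul_ediv_add_emod (x * (v * b) + y * (u * a)) ((a : ℤ) * b)
    refine ⟨(y - x) * u - b * ((x * (v * b) + y * (u * a)) / ((a : ℤ) * b)), ?_⟩
    have h2 : crt x y = x * (v * b) + y * (u * a) - (a : ℤ) * b * ((x * (v * b) + y * (u * a)) / ((a : ℤ) * b)) := by
      rw [hcrt]; linarith
    rw [h2]
    have h3 : v * b = 1 - u * a := by linarith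
    rw [h3]; ring
  have c2 : ∀ x y, (b : ℤ) ∣ crt x y - y := by
    intro x y
    have h := Int.mul_ediv_add_emod (x * (v * b) + y * (u * a)) ((a : ℤ) * b)
    refine ⟨(x - y) * v - a * ((x * (v * b) + y * (u * a)) / ((a : ℤ) * b)), ?_⟩
    have h2 : crt x y = x * (v * b) + y * (u * a) - (a : ℤ) * b * ((x * (v * b) + y * (u * a)) / ((a : ℤ) * b)) := by
      rw [hcrt]; linarith
    rw [h2]
    have h3 : u * a = 1 - v * b := by linarith
    rw [h3]; ring
  unfold Mq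
  rw [← card_product]
  refine card_le_card_of_injOn (fun x => fun l => crt (x.1 l) (x.2 l)) ?_ ?_
  · intro x hx
    rw [mem_coe, mem_product, mem_filter, mem_filter] at hx
    obtain ⟨⟨_, hx1⟩, ⟨_, hx2⟩⟩ := hx
    rw [mem_coe, mem_filter, mem_res]
    refine ⟨fun l => ⟨Int.emod_nonneg _ hab0.ne', ?_⟩, ?_⟩
    · push_cast
      exact Int.emod_lt_of_pos _ hab0
    · have d1 : (a : ℤ) ∣ MvPolynomial.eval (fun l => crt (x.1 l) (x.2 l)) G := by
        have := eval_congr G a _ _ (fun l => c1 (x.1 l) (x.2 l))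
        exact (dvd_sub_left hx1).1 this |> fun h => h
      have d2 : (b : ℤ) ∣ MvPolynomial.eval (fun l => crt (x.1 l) (x.2 l)) G := by
        have := eval_congr G b _ _ (fun l => c2 (x.1 l) (x.2 l))
        exact (dvd_sub_left hx2).1 this |> fun h => h
      push_cast
      exact (Nat.isCoprime_iff_coprime.2 hab).mul_dvd d1 d2
  · intro x hx y hy hxy
    rw [mem_coe, mem_product, mem_filter, mem_filter, mem_res, mem_res] at hx hy
    have hxy' : ∀ l, crt (x.1 l) (x.2 l) = crt (y.1 l) (y.2 l) := fun l => congrFun hxy l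
    ext l
    · have e1 := c1 (x.1 l) (x.2 l)
      have e2 := c1 (y.1 l) (y.2 l)
      rw [hxy' l] at e1
      have e3 := dvd_sub e1 e2
      have e4 : (a : ℤ) ∣ y.1 l - x.1 l := by
        have : crt (y.1 l) (y.2 l) - x.1 l - (crt (y.1 l) (y.2 l) - y.1 l) = y.1 l - x.1 l := by ring
        rwa [this] at e3
      have := Int.eq_zero_of_abs_lt_dvd e4 (by
        rw [abs_lt]
        have := hx.1.1 l; have := hy.1.1 l
        constructor <;> omega)
      linarith
    · have e1 := c2 (x.1 l) (x.2 l)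
      have e2 := c2 (y.1 l) (y.2 l)
      rw [hxy' l] at e1
      have e3 := dvd_sub e1 e2
      have e4 : (b : ℤ) ∣ y.2 l - x.2 l := by
        have : crt (y.1 l) (y.2 l) - x.2 l - (crt (y.1 l) (y.2 l) - y.2 l) = y.2 l - x.2 l := by ring
        rwa [this] at e3
      have := Int.eq_zero_of_abs_lt_dvd e4 (by
        rw [abs_lt]
        have := hx.2.1 l; have := hy.2.1 l
        constructor <;> omega)
      linarith

theorem prod_lower (G : MvPolynomial ι ℤ) (κ : ℕ → ℝ) (h0 : ∀ p, 0 < κ p)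
    (hκ : ∀ p m : ℕ, p.Prime → κ p * ((p : ℝ) ^ m) ^ Fintype.card ι ≤ Mq G (p ^ m) * (p : ℝ) ^ m)
    (W : ℕ) (hW : 1 ≤ W) :
    (∏ p ∈ W.primeFactors, κ p) * (W : ℝ) ^ Fintype.card ι ≤ Mq G W * W := by
  induction W using Nat.recOnPosPrimePosCoprime with
  | prime_pow p m hp hm =>
    rw [Nat.primeFactors_prime_pow hm.ne' hp, prod_singleton]
    push_cast
    exact hκ p m hp
  | zero => omega
  | one => simp [Mq_one]
  | coprime a b ha hb hab iha ihb =>
    have ha' := iha ha.le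
    have hb' := ihb hb.le
    rw [Nat.Coprime.primeFactors_mul hab, prod_union (Nat.Coprime.disjoint_primeFactors hab)]
    have h1 : ((Mq G a * Mq G b : ℕ) : ℝ) ≤ (Mq G (a * b) : ℝ) := by
      exact_mod_cast Mq_mul G a b (by omega) (by omega) hab
    push_cast at h1 ⊢
    calc (∏ p ∈ a.primeFactors, κ p) * (∏ p ∈ b.primeFactors, κ p) * ((a : ℝ) * b) ^ Fintype.card ι
        = ((∏ p ∈ a.primeFactors, κ p) * (a : ℝ) ^ Fintype.card ι) *
          ((∏ p ∈ b.primeFactors, κ p) * (b : ℝ) ^ Fintype.card ι) := by rw [mul_pow]; ring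
      _ ≤ (Mq G a * a) * (Mq G b * b) := by
          apply mul_le_mul ha' hb' _ (by positivity)
          exact mul_nonneg (prod_nonneg fun p _ => (h0 p).le) (by positivity)
      _ = (Mq G a * Mq G b : ℝ) * (a * b) := by ring
      _ ≤ _ := by gcongr

end

theorem tail (κ : ℕ → ℝ) (h0 : ∀ p, 0 < κ p) (h1 : ∀ p, κ p ≤ 1) (P : ℕ) (hP : 1 ≤ P)
    (h2 : ∀ p, P < p → κ p = 1 - 1 / (p : ℝ) ^ 2) :
    ∃ c : ℝ, 0 < c ∧ ∀ T : Finset ℕ, c ≤ ∏ p ∈ T, κ p := by
  have hP' : (1 : ℝ) ≤ P := by exact_mod_cast hP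
  set L : ℕ → ℝ := fun N => ∏ p ∈ range N, κ p with hL
  have hLpos : ∀ N, 0 < L N := fun N => prod_pos fun p _ => h0 p
  have key : ∀ N : ℕ, L (P + 1) * P * (P + 1 + N : ℝ) ≤ L (P + 1 + N) * (P + 1) * (P + N : ℝ) := by
    intro N
    induction N with
    | zero => simp; linarith
    | succ N ih =>
      have hs : L (P + 1 + (N + 1)) = L (P + 1 + N) * (1 - 1 / ((P : ℝ) + 1 + N) ^ 2) := by
        rw [hL]
        simp only
        rw [← add_assoc, prod_range_succ, h2 (P + 1 + N) (by omega)]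
        push_cast
        ring
      rw [hs]
      push_cast
      have hx : (0 : ℝ) < (P : ℝ) + 1 + N := by positivity
      have e1 : L (P + 1 + N) * (1 - 1 / ((P : ℝ) + 1 + N) ^ 2) * (P + 1) * (P + (N + 1)) =
          (L (P + 1 + N) * (P + 1) * (P + N)) * ((P + 1 + (N + 1)) / (P + 1 + N)) := by
        field_simp
        ring
      rw [e1]
      calc L (P + 1) * P * (P + 1 + (N + 1)) = (L (P + 1) * P * (P + 1 + N)) * ((P + 1 + (N + 1)) / (P + 1 + N)) := by
            field_simp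
        _ ≤ _ := by
            apply mul_le_mul_of_nonneg_right ih
            positivity
  refine ⟨L (P + 1) / 2, by have := hLpos (P + 1); positivity, ?_⟩
  intro T
  obtain ⟨N, hN⟩ : ∃ N, T ⊆ range (P + 1 + N) := by
    refine ⟨T.sup id + 1, fun x hx => ?_⟩
    rw [mem_range]
    have : x ≤ T.sup id := le_sup (f := id) hx
    omega
  have h3 : L (P + 1 + N) ≤ ∏ p ∈ T, κ p := by
    have e1 : (∏ p ∈ range (P + 1 + N) \ T, κ p) * ∏ p ∈ T, κ p = L (P + 1 + N) := prod_sdiff hN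
    have e2 : ∏ p ∈ range (P + 1 + N) \ T, κ p ≤ 1 := prod_le_one (fun p _ => (h0 p).le) (fun p _ => h1 p)
    have e3 : 0 ≤ ∏ p ∈ T, κ p := prod_nonneg fun p _ => (h0 p).le
    rw [← e1]
    exact mul_le_of_le_one_left e3 e2
  refine le_trans ?_ h3
  have h4 := key N
  have h5 := hLpos (P + 1)
  have h6 := hLpos (P + 1 + N)
  have hN0 : (0 : ℝ) ≤ N := by positivity
  -- L(P+1) P (P+1+N) <= L' (P+1)(P+N)
  have h7 : L (P + 1) * P ≤ L (P + 1 + N) * (P + 1) := by
    have : L (P + 1) * P * (P + 1 + N : ℝ) ≤ L (P + 1 + N) * (P + 1) * (P + 1 + N : ℝ) := by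
      refine h4.trans ?_
      have : (0 : ℝ) ≤ L (P + 1 + N) * (P + 1) := by positivity
      nlinarith
    exact le_of_mul_le_mul_right this (by positivity)
  have h8 : L (P + 1) * (P + 1) ≤ L (P + 1) * (2 * P) := by
    apply mul_le_mul_of_nonneg_left _ h5.le
    linarith
  have h9 : L (P + 1) / 2 * (P + 1) ≤ L (P + 1 + N) * (P + 1) := by linarith
  exact le_of_mul_le_mul_right h9 (by positivity)

end DENSx

open DENSx in
theorem t_DENS : S_DENS := by
  intro ι _ _ G hC hP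
  obtain ⟨C, hC⟩ := hC
  have hC0 : (0 : ℝ) ≤ |C| := abs_nonneg C
  have hC' : ∀ (q : ℕ) (c : ℤ), 0 < q → IsCoprime c (q : ℤ) →
      ‖Cq G q c‖ * (q : ℝ) ^ 9 ≤ |C| * (q : ℝ) ^ Fintype.card ι := fun q c hq hc =>
    (hC q c hq hc).trans (mul_le_mul_of_nonneg_right (le_abs_self C) (by positivity))
  choose! f hf0 hf using hP
  set P : ℕ := ⌈2 * |C|⌉₊ + 1 with hPdef
  set κ : ℕ → ℝ := fun p => if P < p then 1 - 1 / (p : ℝ) ^ 2 else
    if p.Prime then min 1 (f p) else 1 with hκ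
  have hP1 : 1 ≤ P := by omega
  have h0 : ∀ p, 0 < κ p := by
    intro p
    rw [hκ]
    simp only
    split_ifs with h1 h2
    · have hp : (1 : ℝ) < p := by exact_mod_cast (by omega : 1 < p)
      have : 1 / (p : ℝ) ^ 2 < 1 := by
        rw [div_lt_one (by positivity)]
        nlinarith
      linarith
    · exact lt_min one_pos (hf0 p h2)
    · exact one_pos
  have h1 : ∀ p, κ p ≤ 1 := by
    intro p
    rw [hκ]
    simp only
    split_ifs with h1 h2
    · have : (0 : ℝ) ≤ 1 / (p : ℝ) ^ 2 := by positivity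
      linarith
    · exact min_le_left _ _
    · exact le_rfl
  have h2 : ∀ p, P < p → κ p = 1 - 1 / (p : ℝ) ^ 2 := by
    intro p hp
    rw [hκ]
    simp only
    rw [if_pos hp]
  obtain ⟨c, hc, hcT⟩ := tail κ h0 h1 P hP1 h2
  refine ⟨c, hc, fun W hW => ?_⟩
  have h3 := prod_lower G κ h0 (by
    intro p m hp
    by_cases hpP : P < p
    · rw [h2 p hpP]
      have hp0 : (0 : ℝ) < p := by exact_mod_cast hp.pos
      have hpC : 2 * |C| ≤ p := by
        have h4 : 2 * |C| ≤ (⌈2 * |C|⌉₊ : ℝ) := Nat.le_ceil _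
        have h5 : ((⌈2 * |C|⌉₊ : ℕ) : ℝ) ≤ (p : ℝ) := by exact_mod_cast (by omega : ⌈2 * |C|⌉₊ ≤ p)
        linarith
      have h6 := xx_lower G |C| hC0 hC' p hp hpC m
      have h7 : 1 - 1 / (p : ℝ) ^ 2 ≤ xx G p m := by
        refine le_trans ?_ h6
        have a1 : (0 : ℝ) ≤ 1 / (p : ℝ) ^ 2 := by positivity
        have a2 : (0 : ℝ) ≤ 1 / 2 ^ m := by positivity
        nlinarith
      unfold xx at h7
      rwa [le_div_iff₀ (by positivity)] at h7
    · have : κ p ≤ f p := by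
        rw [hκ]
        simp only
        rw [if_neg hpP, if_pos hp]
        exact min_le_right _ _
      refine le_trans ?_ (hf p hp m)
      gcongr) W hW
  refine le_trans ?_ h3
  gcongr
  exact hcT _

end Pool.Agent.helper132_hp
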