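import Pool.Agent.helper132_hp.Stmts

/-! The rank dichotomy. -/

set_option autoImplicit false

namespace Pool.Agent.helper132_hp

open Finset

namespace DICHx

/-- there is a nonzero off-diagonal minor of size `n` -/
def Pr {s : ℕ} (A : Matrix (Fin s) (Fin s) ℤ) (n : ℕ) : Prop :=
  ∃ I J : Fin n → Fin s, Function.Injective I ∧ Function.Injective J ∧ (∀ i j, I i ≠ J j) ∧
    (A.submatrix I J).det ≠ 0

theorem pr_zero {s : ℕ} (A : Matrix (Fin s) (Fin s) ℤ) : Pr A 0 := by
  refine ⟨Fin.elim0, Fin.elim0, fun i => i.elim0, fun i => i.elim0, fun i => i.elim0, ?_⟩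
  rw [Matrix.det_fin_zero]
  exact one_ne_zero

theorem exists_max {s : ℕ} (A : Matrix (Fin s) (Fin s) ℤ) {r : ℕ} (h : ¬ Pr A r) :
    ∃ n, n < r ∧ Pr A n ∧ ¬ Pr A (n + 1) := by
  induction r with
  | zero => exact absurd (pr_zero A) h
  | succ r ih =>
    by_cases h1 : Pr A r
    · exact ⟨r, Nat.lt_succ_self r, h1, h⟩
    · obtain ⟨n, hn, h2⟩ := ih h1
      exact ⟨n, hn.trans (Nat.lt_succ_self r), h2⟩

/-- the bordered minor -/
theorem bordered {s n : ℕ} (A : Matrix (Fin s) (Fin s) ℤ) (I J : Fin n → Fin s)
    (hI : Function.Injective I) (hJ : Function.Injective J) (hIJ : ∀ i j, I i ≠ J j)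
    (hn : ¬ Pr A (n + 1)) (hd : (A.submatrix I J).det ≠ 0) (i j : Fin s) (hij : i ≠ j)
    (hiI : ∀ m, I m ≠ i) (hiJ : ∀ m, J m ≠ i) (hjI : ∀ m, I m ≠ j) (hjJ : ∀ m, J m ≠ j) :
    (A.submatrix I J).det * A i j =
      ∑ m, (∑ l, A i (J l) * (A.submatrix I J).adjugate l m) * A (I m) j := by
  set M := A.submatrix I J with hM
  set f : ℤ →+* ℚ := Int.castRingHom ℚ with hf
  -- the bordered matrix
  let I' : Fin n ⊕ Fin 1 → Fin s := Sum.elim I (fun _ => i)
  let J' : Fin n ⊕ Fin 1 → Fin s := Sum.elim J (fun _ => j)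
  have hdet : (A.submatrix I' J').det = 0 := by
    by_contra hne
    apply hn
    refine ⟨I' ∘ finSumFinEquiv.symm, J' ∘ finSumFinEquiv.symm, ?_, ?_, ?_, ?_⟩
    · refine Function.Injective.comp ?_ finSumFinEquiv.symm.injective
      rintro (a | a) (b | b) hab
      · exact congrArg _ (hI hab)
      · exact absurd hab (hiI a)
      · exact absurd hab.symm (hiI b)
      · exact congrArg _ (Subsingleton.elim _ _)
    · refine Function.Injective.comp ?_ finSumFinEquiv.symm.injective
      rintro (a | a) (b | b) hab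
      · exact congrArg _ (hJ hab)
      · exact absurd hab (hjJ a)
      · exact absurd hab.symm (hjJ b)
      · exact congrArg _ (Subsingleton.elim _ _)
    · intro a b
      show I' (finSumFinEquiv.symm a) ≠ J' (finSumFinEquiv.symm b)
      rcases finSumFinEquiv.symm a with a | a <;> rcases finSumFinEquiv.symm b with b | b
      · exact hIJ a b
      · exact hjI a
      · exact fun h => hiJ b h.symm
      · exact hij
    · have e : A.submatrix (I' ∘ finSumFinEquiv.symm) (J' ∘ finSumFinEquiv.symm) =
          (A.submatrix I' J').submatrix finSumFinEquiv.symm finSumFinEquiv.symm := rfl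
      rw [e, Matrix.det_submatrix_equiv_self]
      exact hne
  -- over the rational numbers
  have hblock : (A.submatrix I' J').map f = Matrix.fromBlocks (M.map f)
      (Matrix.of fun (a : Fin n) (_ : Fin 1) => f (A (I a) j))
      (Matrix.of fun (_ : Fin 1) (b : Fin n) => f (A i (J b)))
      (Matrix.of fun (_ : Fin 1) (_ : Fin 1) => f (A i j)) := by
    ext a b
    rcases a with a | a <;> rcases b with b | b <;> rfl
  have hMd : (M.map f).det ≠ 0 := by
    have := RingHom.map_det f M
    rw [RingHom.mapMatrix_apply] at this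
    rw [← this]
    intro h0
    apply hd
    exact (Int.cast_eq_zero (α := ℚ)).1 h0
  have h1 : ((A.submatrix I' J').map f).det = 0 := by
    have := RingHom.map_det f (A.submatrix I' J')
    rw [RingHom.mapMatrix_apply] at this
    rw [← this, hdet, map_zero]
  let inst : Invertible (M.map f) := Matrix.invertibleOfIsUnitDet _ (isUnit_iff_ne_zero.2 hMd)
  rw [hblock, Matrix.det_fromBlocks₁₁] at h1
  have h2 := (mul_eq_zero.1 h1).resolve_left hMd
  rw [Matrix.det_fin_one] at h2
  have h3 : (M.map f).det • (⅟(M.map f)) = (M.map f).adjugate := by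
    rw [Matrix.invOf_eq_nonsing_inv, Matrix.inv_def, smul_smul, Ring.mul_inverse_cancel _
      (isUnit_iff_ne_zero.2 hMd), one_smul]
  have h4 : (M.map f).det * f (A i j) =
      ∑ m, (∑ l, f (A i (J l)) * (M.map f).adjugate l m) * f (A (I m) j) := by
    rw [← h3]
    simp only [Matrix.sub_apply, Matrix.mul_apply, Matrix.of_apply] at h2
    rw [sub_eq_zero] at h2
    rw [h2, Finset.mul_sum]
    refine Finset.sum_congr rfl fun m _ => ?_
    rw [← mul_assoc, Finset.mul_sum]
    congr 1
    refine Finset.sum_congr rfl fun l _ => ?_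
    rw [Matrix.smul_apply, smul_eq_mul]
    ring
  have h5 : (M.map f).adjugate = M.adjugate.map f := by
    have := RingHom.map_adjugate f M
    rw [RingHom.mapMatrix_apply, RingHom.mapMatrix_apply] at this
    exact this.symm
  have h6 : (M.map f).det = f M.det := by
    have := RingHom.map_det f M
    rw [RingHom.mapMatrix_apply] at this
    exact this.symm
  rw [h5, h6] at h4
  have h7 : f (M.det * A i j) = f (∑ m, (∑ l, A i (J l) * M.adjugate l m) * A (I m) j) := by
    rw [map_mul, h4, map_sum]
    refine Finset.sum_congr rfl fun m _ => ?_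
    rw [map_mul, map_sum]
    congr 1
    refine Finset.sum_congr rfl fun l _ => ?_
    rw [map_mul, Matrix.map_apply]
  exact (Int.cast_injective (α := ℚ)) h7

theorem sum_pad {n r : ℕ} (h : n ≤ r) (u v : Fin n → ℤ) :
    ∑ m : Fin r, (if hm : (m : ℕ) < n then u ⟨m, hm⟩ else 0) *
      (if hm : (m : ℕ) < n then v ⟨m, hm⟩ else 0) = ∑ m, u m * v m := by
  symm
  refine Finset.sum_of_injOn (Fin.castLE h) ((Fin.castLE_injective h).injOn)
    (fun _ _ => Finset.mem_coe.2 (Finset.mem_univ _)) ?_ ?_
  · intro m _ hm
    have h1 : ¬ (m : ℕ) < n := by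
      intro h2
      apply hm
      exact ⟨⟨m, h2⟩, by simp, Fin.ext rfl⟩
    rw [dif_neg h1, zero_mul]
  · intro m _
    have h1 : ((Fin.castLE h m : Fin r) : ℕ) < n := m.2
    rw [dif_pos h1, dif_pos h1]
    rfl

end DICHx

open DICHx in
theorem t_DICH : S_DICH := by
  intro s r A hA
  by_cases hr : Pr A r
  · exact Or.inl hr
  right
  obtain ⟨n, hn, ⟨I, J, hI, hJ, hIJ, hd⟩, hn1⟩ := exists_max A hr
  set L := (A.submatrix I J).det with hL
  let u : Fin s → Fin n → ℤ := fun i m => ∑ l, A i (J l) * (A.submatrix I J).adjugate l m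
  let v : Fin s → Fin n → ℤ := fun j m => A (I m) j
  let P : Fin s → Fin r → ℤ := fun i m => if hm : (m : ℕ) < n then u i ⟨m, hm⟩ else 0
  let Q : Fin s → Fin r → ℤ := fun i m => if hm : (m : ℕ) < n then v i ⟨m, hm⟩ else 0
  have hPQ : ∀ i j, ∑ m, P i m * Q j m = ∑ m, u i m * v j m := fun i j =>
    sum_pad hn.le (u i) (v j)
  let K0 : Finset (Fin s) := Finset.univ.filter fun i => (∀ m, I m ≠ i) ∧ ∀ m, J m ≠ i
  let K : Finset (Fin s) := K0.filter fun i => L * A i i ≠ ∑ m, P i m * Q i m
  have hoff : ∀ i ∈ K0, ∀ j ∈ K0, i ≠ j → L * A i j = ∑ m, P i m * Q j m := by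
    intro i hi j hj hij
    rw [hPQ]
    obtain ⟨-, h1, h2⟩ := Finset.mem_filter.1 hi
    obtain ⟨-, h3, h4⟩ := Finset.mem_filter.1 hj
    exact bordered A I J hI hJ hIJ hn1 hd i j hij h1 h2 h3 h4
  refine ⟨L, P, Q, K, hd, ?_, ?_, ?_⟩
  · by_contra hcon
    push Not at hcon
    -- the set `Z`
    let Z : Finset (Fin s) := K0.filter fun i => L * A i i = ∑ m, P i m * Q i m
    have hZK : Z.card + K.card = K0.card := Finset.card_filter_add_card_filter_not _
    have hK0 : s ≤ K0.card + 2 * n := by
      have h1 : (Finset.univ : Finset (Fin s)) ⊆ K0 ∪ (Finset.univ.image I ∪ Finset.univ.image J) := by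
        intro i _
        by_cases hi : i ∈ K0
        · exact Finset.mem_union_left _ hi
        · apply Finset.mem_union_right
          simp only [K0, Finset.mem_filter, Finset.mem_univ, true_and, not_and_or] at hi
          push Not at hi
          rcases hi with ⟨m, hm⟩ | ⟨m, hm⟩
          · exact Finset.mem_union_left _ (Finset.mem_image.2 ⟨m, Finset.mem_univ _, hm⟩)
          · exact Finset.mem_union_right _ (Finset.mem_image.2 ⟨m, Finset.mem_univ _, hm⟩)
      have h2 := Finset.card_le_card h1
      have h3 := Finset.card_union_le K0 (Finset.univ.image I ∪ Finset.univ.image J)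
      have h4 := Finset.card_union_le (Finset.univ.image I) (Finset.univ.image J)
      have h5 : (Finset.univ.image I).card ≤ n := by
        simpa using Finset.card_image_le (s := (Finset.univ : Finset (Fin n))) (f := I)
      have h6 : (Finset.univ.image J).card ≤ n := by
        simpa using Finset.card_image_le (s := (Finset.univ : Finset (Fin n))) (f := J)
      rw [Finset.card_univ, Fintype.card_fin] at h2
      omega
    have hZ : 2 * n < Z.card := by omega
    -- a vector in the kernel
    let Mx : Matrix (Fin n ⊕ Fin n) Z ℚ := Matrix.of fun a j => (A (Sum.elim I J a) j : ℚ)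
    have hker : LinearMap.ker Mx.mulVecLin ≠ ⊥ := by
      apply LinearMap.ker_ne_bot_of_finrank_lt
      rw [Module.finrank_fintype_fun_eq_card, Module.finrank_fintype_fun_eq_card]
      simp only [Fintype.card_sum, Fintype.card_fin, Fintype.card_coe]
      omega
    obtain ⟨x, hx, hx0⟩ := (Submodule.ne_bot_iff _).1 hker
    rw [LinearMap.mem_ker, Matrix.mulVecLin_apply] at hx
    let y : Fin s → ℚ := fun j => if hj : j ∈ Z then x ⟨j, hj⟩ else 0
    have hsum : ∀ g : Fin s → ℚ, ∑ j, g j * y j = ∑ j : Z, g j * x j := by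
      intro g
      have h1 : ∑ j ∈ Z, g j * y j = ∑ j, g j * y j := by
        refine Finset.sum_subset (Finset.subset_univ Z) fun j _ hj => ?_
        show g j * (if hj : j ∈ Z then x ⟨j, hj⟩ else 0) = 0
        rw [dif_neg hj, mul_zero]
      rw [← h1, ← Finset.sum_coe_sort Z (fun j => g j * y j)]
      refine Finset.sum_congr rfl fun j _ => ?_
      show g j * (if hj : (j : Fin s) ∈ Z then x ⟨j, hj⟩ else 0) = g j * x j
      rw [dif_pos j.2]
    have hIJx : ∀ a : Fin n ⊕ Fin n, ∑ j, (A (Sum.elim I J a) j : ℚ) * y j = 0 := by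
      intro a
      rw [hsum (fun j => (A (Sum.elim I J a) j : ℚ))]
      have := congrFun hx a
      simpa [Matrix.mulVec, dotProduct, Mx] using this
    have hall : ∀ i, ∑ j, (A i j : ℚ) * y j = 0 := by
      intro i
      by_cases hi : i ∈ K0
      · have h1 : ∀ j : Z, (L : ℚ) * (A i j : ℚ) = ∑ m, (u i m : ℚ) * (v j m : ℚ) := by
          intro j
          have hj := Finset.mem_filter.1 j.2
          have h2 : L * A i j = ∑ m, u i m * v j m := by
            by_cases hij : i = j
            · rw [hij, hj.2, hPQ]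
            · rw [hoff i hi j hj.1 hij, hPQ]
          exact_mod_cast h2
        have h3 : (L : ℚ) * ∑ j, (A i j : ℚ) * y j = 0 := by
          rw [hsum (fun j => (A i j : ℚ)), Finset.mul_sum]
          have h4 : ∀ j : Z, (L : ℚ) * ((A i j : ℚ) * x j) =
              ∑ m, (u i m : ℚ) * ((A (I m) j : ℚ) * x j) := by
            intro j
            rw [← mul_assoc, h1 j, Finset.sum_mul]
            refine Finset.sum_congr rfl fun m _ => ?_
            show (u i m : ℚ) * (A (I m) j : ℚ) * x j = _
            ring
          rw [Finset.sum_congr rfl (fun j _ => h4 j), Finset.sum_comm]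
          refine Finset.sum_eq_zero fun m _ => ?_
          rw [← Finset.mul_sum, ← hsum (fun j => (A (I m) j : ℚ))]
          have h5 := hIJx (Sum.inl m)
          simp only [Sum.elim_inl] at h5
          rw [h5, mul_zero]
        exact (mul_eq_zero.1 h3).resolve_left (by exact_mod_cast hd)
      · simp only [K0, Finset.mem_filter, Finset.mem_univ, true_and, not_and_or] at hi
        push Not at hi
        rcases hi with ⟨m, hm⟩ | ⟨m, hm⟩
        · have := hIJx (Sum.inl m)
          simpa [hm] using this
        · have := hIJx (Sum.inr m)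
          simpa [hm] using this
    have hy : y = 0 := by
      have hdet : (A.map (Int.castRingHom ℚ)).det ≠ 0 := by
        have := RingHom.map_det (Int.castRingHom ℚ) A
        rw [RingHom.mapMatrix_apply] at this
        rw [← this]
        intro h0
        exact hA ((Int.cast_eq_zero (α := ℚ)).1 h0)
      refine Matrix.eq_zero_of_mulVec_eq_zero hdet ?_
      funext i
      simpa [Matrix.mulVec, dotProduct] using hall i
    apply hx0
    funext j
    have h1 := congrFun hy j
    have h2 : y j = x j := by
      show (if hj : (j : Fin s) ∈ Z then x ⟨j, hj⟩ else 0) = x j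
      rw [dif_pos j.2]
    rw [← h2, h1]
    rfl
  · intro i hi j hj hij
    exact hoff i (Finset.mem_filter.1 hi).1 j (Finset.mem_filter.1 hj).1 hij
  · intro i hi
    exact (Finset.mem_filter.1 hi).2

end Pool.Agent.helper132_hp
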