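import Pool.Agent.helper132_hp.Stmts

set_option autoImplicit false

/-! Even `k`: the Hasse principle fails for singular real zeros. -/

namespace Pool.Agent.helper132_hp

open Finset

namespace EVENx

section padic
variable {p : ℕ} [hp : Fact p.Prime]

lemma toZMod_eq_zero_iff (a : ℤ_[p]) : PadicInt.toZMod a = 0 ↔ ‖a‖ < 1 := by
  rw [← RingHom.mem_ker, PadicInt.ker_toZMod, IsLocalRing.mem_maximalIdeal, PadicInt.mem_nonunits]

lemma norm_eq_one_of (a : ℤ_[p]) (h : PadicInt.toZMod a ≠ 0) : ‖a‖ = 1 := by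
  rw [Ne, toZMod_eq_zero_iff, not_lt] at h
  exact le_antisymm (PadicInt.norm_le_one a) h

/-- a nontrivial zero modulo `p` -/
lemma modp (d : ℕ) (hd : 1 ≤ d) : ∃ x : Fin (d + 1) → ZMod p, x ≠ 0 ∧ ∑ i, x i ^ d = 0 := by
  classical
  let f : MvPolynomial (Fin (d + 1)) (ZMod p) := ∑ i, MvPolynomial.X i ^ d
  have hdeg : f.totalDegree < Fintype.card (Fin (d + 1)) := by
    rw [Fintype.card_fin]
    refine Nat.lt_succ_of_le ?_
    refine MvPolynomial.totalDegree_finsetSum_le ?_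
    intro i _
    rw [MvPolynomial.totalDegree_X_pow]
  have hdvd := char_dvd_card_solutions (K := ZMod p) p hdeg
  have h0 : MvPolynomial.eval (0 : Fin (d + 1) → ZMod p) f = 0 := by
    have hd0 : d ≠ 0 := by omega
    simp only [f, map_sum, map_pow, MvPolynomial.eval_X, Pi.zero_apply, zero_pow hd0,
      sum_const_zero]
  have hpos : 0 < Fintype.card {x : Fin (d + 1) → ZMod p // MvPolynomial.eval x f = 0} :=
    Fintype.card_pos_iff.mpr ⟨⟨0, h0⟩⟩
  have hlt : 1 < Fintype.card {x : Fin (d + 1) → ZMod p // MvPolynomial.eval x f = 0} :=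
    lt_of_lt_of_le hp.out.one_lt (Nat.le_of_dvd hpos hdvd)
  obtain ⟨⟨x, hx⟩, hne⟩ := Fintype.exists_ne_of_one_lt_card hlt ⟨0, h0⟩
  refine ⟨x, fun h => hne (by subst h; rfl), ?_⟩
  simpa [f] using hx

lemma case1 (d : ℕ) (hd : 1 ≤ d) (hpd : ¬ p ∣ d) :
    ∃ z : Fin (d + 1) → ℤ_[p], z ≠ 0 ∧ ∑ i, z i ^ d = 0 := by
  classical
  obtain ⟨x, hx0, hx⟩ := modp (p := p) d hd
  obtain ⟨l, hl⟩ : ∃ l, x l ≠ 0 := by
    by_contra hcon
    push Not at hcon
    exact hx0 (funext hcon)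
  let a : Fin (d + 1) → ℤ_[p] := fun i => ((x i).val : ℤ_[p])
  have ha : ∀ i, PadicInt.toZMod (a i) = x i := by
    intro i
    simp only [a, map_natCast, ZMod.natCast_zmod_val]
  let c : ℤ_[p] := ∑ i ∈ univ.erase l, a i ^ d
  let F : Polynomial ℤ_[p] := Polynomial.X ^ d + Polynomial.C c
  have hF : ∀ y : ℤ_[p], F.aeval y = y ^ d + c := by
    intro y; simp [F]
  have hF' : F.derivative.aeval (a l) = d * a l ^ (d - 1) := by
    simp [F, Polynomial.derivative_X_pow]
  have hsum : ∑ i, a i ^ d = a l ^ d + c := by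
    rw [← Finset.add_sum_erase univ _ (mem_univ l)]
  have h1 : ‖F.aeval (a l)‖ < 1 := by
    rw [← toZMod_eq_zero_iff, hF, ← hsum, map_sum]
    simp only [map_pow, ha]
    exact hx
  have h2 : ‖F.derivative.aeval (a l)‖ = 1 := by
    apply norm_eq_one_of
    rw [hF', map_mul, map_pow, ha, map_natCast]
    refine mul_ne_zero ?_ (pow_ne_zero _ hl)
    rwa [Ne, ZMod.natCast_eq_zero_iff]
  obtain ⟨z, hz1, hz2, -⟩ := hensels_lemma (F := F) (a := a l) (by rw [h2, one_pow]; exact h1)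
  rw [h2] at hz2
  have hal : ‖a l‖ = 1 := norm_eq_one_of _ (by rw [ha]; exact hl)
  refine ⟨Function.update a l z, ?_, ?_⟩
  · intro h
    have h3 := congrFun h l
    rw [Function.update_self] at h3
    rw [h3] at hz2
    simp [hal] at hz2
  · rw [← Finset.add_sum_erase univ _ (mem_univ l), Function.update_self]
    have h4 : ∑ i ∈ univ.erase l, Function.update a l z i ^ d = c := by
      refine Finset.sum_congr rfl fun i hi => ?_
      rw [Function.update_of_ne (Finset.ne_of_mem_erase hi)]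
    rw [h4, ← hF]
    exact hz1

lemma case2 (d : ℕ) (hd : 1 ≤ d) (hpd : p ∣ d) :
    ∃ N : ℕ, N ≤ d ^ 3 ∧ ∃ z : Fin N → ℤ_[p], z ≠ 0 ∧ ∑ i, z i ^ d = 0 := by
  obtain ⟨v, u, hu, hdu⟩ := Nat.exists_eq_pow_mul_and_not_dvd (n := d) (by omega) p hp.out.ne_one
  set m := p ^ (2 * v + 1) with hm
  have hp1 : 1 < p := hp.out.one_lt
  have hu0 : 0 < u := by
    rcases Nat.eq_zero_or_pos u with h | h
    · rw [h] at hu; exact absurd (dvd_zero p) hu
    · exact h
  have hmd : m ≤ d ^ 3 := by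
    have h1 : p ^ v ≤ d := by
      rw [hdu]; exact Nat.le_mul_of_pos_right _ hu0
    have h2 : p ≤ d := Nat.le_of_dvd (by omega) hpd
    calc m = p ^ v * p ^ v * p := by rw [hm]; ring
      _ ≤ d * d * d := Nat.mul_le_mul (Nat.mul_le_mul h1 h1) h2
      _ = d ^ 3 := by ring
  have hm1 : 1 < m := Nat.one_lt_pow (by omega) hp1
  let F : Polynomial ℤ_[p] := Polynomial.X ^ d - Polynomial.C (1 - (m : ℤ_[p]))
  have hF : ∀ y : ℤ_[p], F.aeval y = y ^ d - (1 - (m : ℤ_[p])) := by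
    intro y; simp [F]
  have hF' : F.derivative.aeval (1 : ℤ_[p]) = (d : ℤ_[p]) := by
    simp [F, Polynomial.derivative_X_pow]
  have hpn : ‖(p : ℤ_[p])‖ = (p : ℝ)⁻¹ := PadicInt.norm_p
  have hun : ‖(u : ℤ_[p])‖ = 1 := by
    apply norm_eq_one_of
    rw [map_natCast]
    rwa [Ne, ZMod.natCast_eq_zero_iff]
  have hnorm : ‖F.aeval (1 : ℤ_[p])‖ < ‖F.derivative.aeval (1 : ℤ_[p])‖ ^ 2 := by
    rw [hF, hF']
    have e1 : (1 : ℤ_[p]) ^ d - (1 - (m : ℤ_[p])) = (p : ℤ_[p]) ^ (2 * v + 1) := by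
      rw [hm]; push_cast; ring
    have e2 : (d : ℤ_[p]) = (p : ℤ_[p]) ^ v * (u : ℤ_[p]) := by
      conv_lhs => rw [hdu]
      push_cast; ring
    rw [e1, e2, norm_mul, norm_pow, norm_pow, hun, hpn, mul_one, ← pow_mul, mul_comm v 2]
    have hpr : (1:ℝ) < p := by exact_mod_cast hp1
    have h3 : (p : ℝ)⁻¹ < 1 := inv_lt_one_of_one_lt₀ hpr
    have h4 : 0 < (p : ℝ)⁻¹ := by positivity
    exact pow_lt_pow_right_of_lt_one₀ h4 h3 (by omega)
  obtain ⟨z, hz1, -⟩ := hensels_lemma (F := F) (a := 1) hnorm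
  rw [hF] at hz1
  refine ⟨(m - 1) + 1, by omega, Fin.cons z (fun _ => 1), ?_, ?_⟩
  · intro h
    have h5 := congrFun h 0
    rw [Fin.cons_zero, Pi.zero_apply] at h5
    rw [h5, zero_pow (by omega), zero_sub, neg_eq_zero, sub_eq_zero] at hz1
    have h6 : ((1 : ℕ) : ℤ_[p]) = (m : ℤ_[p]) := by rw [Nat.cast_one]; exact hz1
    have h7 : (1:ℕ) = m := Nat.cast_injective h6
    omega
  · rw [Fin.sum_univ_succ, Fin.cons_zero]
    simp only [Fin.cons_succ, one_pow, sum_const, card_univ, Fintype.card_fin, nsmul_eq_mul,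
      mul_one]
    rw [Nat.cast_sub hm1.le, Nat.cast_one]
    linear_combination hz1

lemma padic_zero (d : ℕ) (hd : 1 ≤ d) :
    ∃ N : ℕ, N ≤ d ^ 3 + 1 ∧ ∃ z : Fin N → ℤ_[p], z ≠ 0 ∧ ∑ i, z i ^ d = 0 := by
  by_cases h : p ∣ d
  · obtain ⟨N, h1, h2⟩ := case2 d hd h
    exact ⟨N, by omega, h2⟩
  · refine ⟨d + 1, ?_, case1 d hd h⟩
    have : d ≤ d ^ 3 := Nat.le_self_pow (by norm_num) d
    omega

end padic

section matrix
variable {R : Type} [CommRing R]

/-- the vector `x_0 - 2 x_1` -/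
def U (R : Type) [CommRing R] (i : ℕ) : R := (if i = 0 then 1 else 0) - 2 * (if i = 1 then 1 else 0)

/-- unit vectors -/
def E (R : Type) [CommRing R] (c i : ℕ) : R := if i = c then 1 else 0

/-- the matrix of `(x_0 - 2 x_1)^2 + 2 x_0 x_2 + ∑_{i ≥ 2} x_i^2` -/
def AA (R : Type) [CommRing R] (s : ℕ) : Matrix (Fin s) (Fin s) R :=
  fun i j => U R i * U R j + E R 0 i * E R 2 j + E R 2 i * E R 0 j +
    (if i = j then (if 2 ≤ (i : ℕ) then 1 else 0) else 0)

lemma AA_map {S : Type} [CommRing S] (f : R →+* S) (s : ℕ) : (AA R s).map f = AA S s := by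
  ext i j
  simp only [Matrix.map_apply, AA, U, E, map_add, map_mul, map_sub, apply_ite f, map_one, map_zero,
    map_ofNat]

lemma AA_symm (s : ℕ) : (AA R s).IsSymm := by
  ext i j
  simp only [Matrix.transpose_apply, AA]
  by_cases h : i = j
  · subst h; ring
  · rw [if_neg h, if_neg (Ne.symm h)]; ring

lemma Fm_AA (k t : ℕ) (y : Fin (t + 3) → R) :
    Fm (AA R (t + 3)) k y = (y 0 ^ k - 2 * y 1 ^ k) ^ 2 + 2 * y 0 ^ k * y 2 ^ k +
      ∑ i : Fin (t + 1), (y i.succ.succ ^ k) ^ 2 := by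
  have e1 : Fm (AA R (t + 3)) k y =
      (∑ i : Fin (t + 3), U R i * y i ^ k) * (∑ j : Fin (t + 3), U R j * y j ^ k) +
      (∑ i : Fin (t + 3), E R 0 i * y i ^ k) * (∑ j : Fin (t + 3), E R 2 j * y j ^ k) +
      (∑ i : Fin (t + 3), E R 2 i * y i ^ k) * (∑ j : Fin (t + 3), E R 0 j * y j ^ k) +
      ∑ i : Fin (t + 3), (if 2 ≤ (i : ℕ) then 1 else 0) * (y i ^ k) ^ 2 := by
    rw [Finset.sum_mul_sum, Finset.sum_mul_sum, Finset.sum_mul_sum, ← Finset.sum_add_distrib,
      ← Finset.sum_add_distrib, ← Finset.sum_add_distrib]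
    unfold Fm
    refine Finset.sum_congr rfl fun i _ => ?_
    rw [← Finset.sum_add_distrib, ← Finset.sum_add_distrib]
    have e2 : (if 2 ≤ (i : ℕ) then (1:R) else 0) * (y i ^ k) ^ 2 =
        ∑ j : Fin (t + 3), (if i = j then (if 2 ≤ (i : ℕ) then 1 else 0) else 0) *
          y i ^ k * y j ^ k := by
      rw [Finset.sum_eq_single i]
      · rw [if_pos rfl]; ring
      · intro j _ hj
        rw [if_neg (Ne.symm hj)]; ring
      · intro h; exact absurd (mem_univ i) h
    rw [e2, ← Finset.sum_add_distrib]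
    refine Finset.sum_congr rfl fun j _ => ?_
    simp only [AA]
    ring
  have hU : ∑ i : Fin (t + 3), U R i * y i ^ k = y 0 ^ k - 2 * y 1 ^ k := by
    rw [Fin.sum_univ_succ, Fin.sum_univ_succ, Finset.sum_eq_zero]
    · simp [U]
      ring
    · intro i _
      simp [U]
  have hE0 : ∑ i : Fin (t + 3), E R 0 i * y i ^ k = y 0 ^ k := by
    rw [Finset.sum_eq_single 0]
    · simp [E]
    · intro j _ hj
      have : (j : ℕ) ≠ 0 := fun h => hj (Fin.ext h)
      simp [E, this]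
    · intro h; exact absurd (mem_univ _) h
  have hE2 : ∑ i : Fin (t + 3), E R 2 i * y i ^ k = y 2 ^ k := by
    rw [Finset.sum_eq_single 2]
    · simp [E]
    · intro j _ hj
      have : (j : ℕ) ≠ 2 := fun h => hj (Fin.ext h)
      simp [E, this]
    · intro h; exact absurd (mem_univ _) h
  have hD : ∑ i : Fin (t + 3), (if 2 ≤ (i : ℕ) then (1:R) else 0) * (y i ^ k) ^ 2 =
      ∑ i : Fin (t + 1), (y i.succ.succ ^ k) ^ 2 := by
    rw [Fin.sum_univ_succ, Fin.sum_univ_succ]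
    simp
  rw [e1, hU, hE0, hE2, hD]
  ring

lemma AA_det (t : ℕ) : (AA ℚ (t + 3)).det ≠ 0 := by
  intro h
  obtain ⟨x, hx0, hx⟩ := Matrix.exists_mulVec_eq_zero_iff.mpr h
  apply hx0
  have hrow : ∀ i : Fin (t + 3), U ℚ i * (x 0 - 2 * x 1) + E ℚ 0 i * x 2 + E ℚ 2 i * x 0 +
      (if 2 ≤ (i : ℕ) then 1 else 0) * x i = 0 := by
    intro i
    have h1 := congrFun hx i
    rw [Matrix.mulVec, dotProduct, Pi.zero_apply] at h1
    have hU : ∑ j : Fin (t + 3), U ℚ j * x j = x 0 - 2 * x 1 := by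
      rw [Fin.sum_univ_succ, Fin.sum_univ_succ, Finset.sum_eq_zero]
      · simp [U]
        ring
      · intro i _
        simp [U]
    have hE0 : ∑ j : Fin (t + 3), E ℚ 0 j * x j = x 0 := by
      rw [Finset.sum_eq_single 0]
      · simp [E]
      · intro j _ hj
        have : (j : ℕ) ≠ 0 := fun h => hj (Fin.ext h)
        simp [E, this]
      · intro h; exact absurd (mem_univ _) h
    have hE2 : ∑ j : Fin (t + 3), E ℚ 2 j * x j = x 2 := by
      rw [Finset.sum_eq_single 2]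
      · simp [E]
      · intro j _ hj
        have : (j : ℕ) ≠ 2 := fun h => hj (Fin.ext h)
        simp [E, this]
      · intro h; exact absurd (mem_univ _) h
    have hD : ∑ j : Fin (t + 3), (if i = j then (if 2 ≤ (i : ℕ) then (1:ℚ) else 0) else 0) * x j =
        (if 2 ≤ (i : ℕ) then 1 else 0) * x i := by
      rw [Finset.sum_eq_single i]
      · rw [if_pos rfl]
      · intro j _ hj
        rw [if_neg (Ne.symm hj), zero_mul]
      · intro h; exact absurd (mem_univ i) h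
    rw [← hU, ← hE0, ← hE2, ← hD, Finset.mul_sum, Finset.mul_sum, Finset.mul_sum,
      ← Finset.sum_add_distrib, ← Finset.sum_add_distrib, ← Finset.sum_add_distrib]
    refine Eq.trans ?_ h1
    refine Finset.sum_congr rfl fun j _ => ?_
    simp only [AA]
    ring
  have r0 := hrow 0
  have r1 := hrow 1
  have r2 := hrow 2
  have hmod : 2 % (t + 3) = 2 := Nat.mod_eq_of_lt (by omega)
  simp [U, E, hmod] at r0 r1 r2
  have x1 : x 1 = x 0 / 2 := by linarith
  have x2 : x 2 = 0 := by linarith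
  have x0 : x 0 = 0 := by linarith
  have x1' : x 1 = 0 := by rw [x1, x0]; norm_num
  funext i
  rw [Pi.zero_apply]
  by_cases h0 : (i : ℕ) = 0
  · have : i = 0 := Fin.ext h0
    rw [this]; exact x0
  by_cases h1 : (i : ℕ) = 1
  · have : i = 1 := Fin.ext h1
    rw [this]; exact x1'
  by_cases h2 : (i : ℕ) = 2
  · have : i = 2 := Fin.ext h2
    rw [this]; exact x2
  have h3 := hrow i
  have h4 : 2 ≤ (i : ℕ) := by omega
  simp only [U, E, h0, h1, h2, if_false, if_pos h4] at h3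
  linarith

end matrix

end EVENx

open EVENx in
theorem t_EVEN : S_EVEN := by
  intro k hk hk2 s hs
  obtain ⟨t, rfl⟩ : ∃ t, s = t + 3 := ⟨s - 3, by omega⟩
  have hk0 : k ≠ 0 := by omega
  refine ⟨AA ℚ (t + 3), AA_symm _, AA_det t, ?_, ?_, ?_⟩
  · have hmap : (AA ℚ (t + 3)).map ((↑) : ℚ → ℝ) = AA ℝ (t + 3) := AA_map (Rat.castHom ℝ) _
    rw [hmap]
    refine ⟨fun i => if i = 0 then (2:ℝ) ^ ((1:ℝ) / k) else if i = 1 then 1 else 0, ?_, ?_⟩
    · intro h
      have h1 := congrFun h 1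
      simp at h1
    · rw [Fm_AA]
      have e0 : ((2:ℝ) ^ ((1:ℝ) / k)) ^ k = 2 := by
        rw [← Real.rpow_natCast, ← Real.rpow_mul (by norm_num), one_div,
          inv_mul_cancel₀ (by exact_mod_cast hk0), Real.rpow_one]
      have hmod : 2 % (t + 3) = 2 := Nat.mod_eq_of_lt (by omega)
      have h20 : (2 : Fin (t + 3)) ≠ 0 := by
        intro h; have := congrArg Fin.val h; simp [hmod] at this
      have h21 : (2 : Fin (t + 3)) ≠ 1 := by
        intro h; have := congrArg Fin.val h; simp [hmod] at this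
      have h10 : (1 : Fin (t + 3)) ≠ 0 := by
        intro h; have := congrArg Fin.val h; simp at this
      rw [Finset.sum_eq_zero]
      · simp only [if_true, h10, if_false, h20, h21, e0, one_pow, zero_pow hk0]
        norm_num
      · intro i _
        have h3 : (i.succ.succ : Fin (t + 3)) ≠ 0 := Fin.succ_ne_zero _
        have h4 : (i.succ.succ : Fin (t + 3)) ≠ 1 := by
          intro h; have := congrArg Fin.val h; simp at this
        simp only [h3, h4, if_false, zero_pow hk0]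
        norm_num
  · intro p hp
    have hmap : (AA ℚ (t + 3)).map ((↑) : ℚ → ℚ_[p]) = AA ℚ_[p] (t + 3) :=
      AA_map (Rat.castHom ℚ_[p]) _
    rw [hmap]
    obtain ⟨N, hN, z, hz0, hz⟩ := padic_zero (p := p) (2 * k) (by omega)
    have hNt : N ≤ t + 1 := by
      have : (2 * k) ^ 3 = 8 * k ^ 3 := by ring
      omega
    let y : Fin (t + 3) → ℚ_[p] := fun i =>
      if h : 2 ≤ (i : ℕ) ∧ (i : ℕ) - 2 < N then ((z ⟨(i : ℕ) - 2, h.2⟩ : ℤ_[p]) : ℚ_[p]) else 0
    have y0 : y 0 = 0 := by simp [y]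
    have y1 : y 1 = 0 := by simp [y]
    have yss : ∀ i : Fin (t + 1), y i.succ.succ =
        if h : (i : ℕ) < N then ((z ⟨(i : ℕ), h⟩ : ℤ_[p]) : ℚ_[p]) else 0 := by
      intro i
      simp [y]
    refine ⟨y, ?_, ?_⟩
    · intro h
      obtain ⟨l, hl⟩ : ∃ l, z l ≠ 0 := by
        by_contra hcon
        push Not at hcon
        exact hz0 (funext hcon)
      have h1 := congrFun h (Fin.succ (Fin.succ ⟨l, by omega⟩))
      rw [yss, dif_pos l.2, Pi.zero_apply] at h1
      have h2 : ((z l : ℤ_[p]) : ℚ_[p]) = 0 := h1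
      exact hl (Subtype.ext h2)
    · rw [Fm_AA, y0, y1, zero_pow hk0]
      have hsum : ∑ i : Fin (t + 1), (y i.succ.succ ^ k) ^ 2 =
          ∑ i : Fin N, ((z i : ℤ_[p]) : ℚ_[p]) ^ (2 * k) := by
        symm
        refine Finset.sum_of_injOn (fun i : Fin N => (⟨(i : ℕ), by omega⟩ : Fin (t + 1))) ?_ ?_ ?_ ?_
        · intro i _ j _ hij
          have := congrArg Fin.val hij
          exact Fin.ext this
        · intro i _; exact mem_coe.mpr (mem_univ _)
        · intro i _ hi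
          have hiN : ¬ (i : ℕ) < N := by
            intro h
            apply hi
            exact ⟨⟨i, h⟩, mem_coe.mpr (mem_univ _), Fin.ext rfl⟩
          rw [yss, dif_neg hiN, zero_pow hk0, zero_pow (by norm_num)]
        · intro i _
          rw [yss, dif_pos i.2, ← pow_mul, mul_comm k 2]
      have hz' : ∑ i : Fin N, ((z i : ℤ_[p]) : ℚ_[p]) ^ (2 * k) = 0 := by
        have := congrArg (PadicInt.Coe.ringHom (p := p)) hz
        rw [map_sum, map_zero] at this
        simp only [map_pow] at this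
        exact this
      rw [hsum, hz']
      ring
  · rintro ⟨y, hy0, hy⟩
    rw [Fm_AA] at hy
    have hpos : ∀ i, 0 ≤ y i ^ k := fun i => hk.pow_nonneg _
    have h1 : 0 ≤ (y 0 ^ k - 2 * y 1 ^ k) ^ 2 := sq_nonneg _
    have h2 : 0 ≤ 2 * y 0 ^ k * y 2 ^ k := mul_nonneg (mul_nonneg (by norm_num) (hpos 0)) (hpos 2)
    have h3 : ∀ i ∈ (univ : Finset (Fin (t + 1))), 0 ≤ (y i.succ.succ ^ k) ^ 2 :=
      fun i _ => sq_nonneg _
    have h4 := Finset.sum_nonneg h3
    have h5 : ∑ i : Fin (t + 1), (y i.succ.succ ^ k) ^ 2 = 0 := by linarith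
    have h6 : (y 0 ^ k - 2 * y 1 ^ k) ^ 2 = 0 := by linarith
    have h7 : y 0 ^ k = 2 * y 1 ^ k := by
      have := pow_eq_zero_iff (two_ne_zero) |>.mp h6
      linarith
    have h8 : ∀ i : Fin (t + 1), y i.succ.succ = 0 := by
      intro i
      have := (Finset.sum_eq_zero_iff_of_nonneg h3).mp h5 i (mem_univ i)
      exact pow_eq_zero_iff hk0 |>.mp (pow_eq_zero_iff two_ne_zero |>.mp this)
    by_cases hy1 : y 1 = 0
    · have hy00 : y 0 = 0 := by
        rw [hy1, zero_pow hk0, mul_zero] at h7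
        exact pow_eq_zero_iff hk0 |>.mp h7
      apply hy0
      funext i
      refine Fin.cases ?_ (fun i => ?_) i
      · exact hy00
      · refine Fin.cases ?_ (fun i => ?_) i
        · exact hy1
        · exact h8 i
    · obtain ⟨m, hm⟩ := hk
      have h9 : ((y 0 / y 1) ^ m) ^ 2 = 2 := by
        rw [← pow_mul, mul_two, ← hm, div_pow, h7]
        field_simp
      have h10 : ((((y 0 / y 1) ^ m : ℚ) : ℝ)) ^ 2 = 2 := by exact_mod_cast h9
      have h11 : Real.sqrt 2 = |(((y 0 / y 1) ^ m : ℚ) : ℝ)| := by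
        rw [← h10, Real.sqrt_sq_eq_abs]
      apply irrational_sqrt_two
      exact ⟨|(y 0 / y 1) ^ m|, by rw [h11]; push_cast; rfl⟩

end Pool.Agent.helper132_hp
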