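import Pool.Agent.helper132_hp.Stmts

/-! Removing a function of `m` bounded integer forms costs a square root (paper II FL). -/

set_option autoImplicit false

namespace Pool.Agent.helper132_hp

open Finset

namespace FLx

lemma e_zero : e 0 = 1 := by simp [e]

lemma e_add (x y : ℝ) : e (x + y) = e x * e y := by
  unfold e
  rw [← Complex.exp_add]
  congr 1
  push_cast
  ring

lemma norm_e (x : ℝ) : ‖e x‖ = 1 := by
  unfold e
  exact Complex.norm_exp_ofReal_mul_I _

lemma conj_e (x : ℝ) : (starRingEnd ℂ) (e x) = e (-x) := by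
  unfold e
  rw [← Complex.exp_conj, map_mul, Complex.conj_ofReal, Complex.conj_I]
  congr 1
  push_cast
  ring

lemma e_sum {ι : Type} (s : Finset ι) (f : ι → ℝ) : e (∑ i ∈ s, f i) = ∏ i ∈ s, e (f i) := by
  classical
  induction s using Finset.induction_on with
  | empty => simp [e_zero]
  | insert a s ha ih => rw [sum_insert ha, prod_insert ha, e_add, ih]

lemma e_nat_mul (n : ℕ) (x : ℝ) : e (n * x) = e x ^ n := by
  unfold e
  rw [← Complex.exp_nat_mul]
  congr 1
  push_cast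
  ring

lemma e_eq_one {x : ℝ} (h : e x = 1) : ∃ k : ℤ, x = k := by
  unfold e at h
  rw [Complex.exp_eq_one_iff] at h
  obtain ⟨k, hk⟩ := h
  refine ⟨k, ?_⟩
  have h1 : (((2 * Real.pi * x : ℝ) : ℂ)) = ((2 * Real.pi * k : ℝ) : ℂ) := by
    have h2 : ((2 * Real.pi * x : ℝ) : ℂ) * Complex.I = ((2 * Real.pi * k : ℝ) : ℂ) * Complex.I := by
      rw [hk]
      push_cast
      ring
    exact mul_right_cancel₀ Complex.I_ne_zero h2
  have h3 : 2 * Real.pi * x = 2 * Real.pi * k := by exact_mod_cast h1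
  have h4 : 2 * Real.pi ≠ 0 := by positivity
  exact mul_left_cancel₀ h4 h3

lemma e_int (k : ℤ) : e (k : ℝ) = 1 := by
  unfold e
  rw [Complex.exp_eq_one_iff]
  exact ⟨k, by push_cast; ring⟩

lemma orth1 (N : ℕ) (hN : 0 < N) (n : ℤ) (hn : |n| < N) :
    ∑ t : Fin N, e (((t : ℕ) : ℝ) / N * n) = if n = 0 then (N : ℂ) else 0 := by
  have hN0 : (N : ℝ) ≠ 0 := by
    have : (0 : ℝ) < N := by exact_mod_cast hN
    exact this.ne'
  split_ifs with h
  · subst h
    simp [e_zero]
  · set ζ : ℂ := e ((n : ℝ) / N) with hζ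
    have h1 : ∀ t : Fin N, e (((t : ℕ) : ℝ) / N * n) = ζ ^ (t : ℕ) := by
      intro t
      rw [hζ, ← e_nat_mul]
      congr 1
      ring
    rw [Fintype.sum_congr _ _ h1, Fin.sum_univ_eq_sum_range (fun t => ζ ^ t) N]
    have h2 : ζ ^ N = 1 := by
      rw [hζ, ← e_nat_mul]
      have : (N : ℝ) * ((n : ℝ) / N) = (n : ℤ) := by
        field_simp
      rw [this]
      exact e_int n
    have h3 : ζ ≠ 1 := by
      intro h4
      obtain ⟨k, hk⟩ := e_eq_one h4
      rw [div_eq_iff hN0] at hk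
      have h5 : n = k * N := by exact_mod_cast hk
      rcases eq_or_ne k 0 with h6 | h6
      · rw [h6] at h5
        exact h (by simpa using h5)
      · have h7 : (1 : ℤ) ≤ |k| := Int.one_le_abs h6
        rw [h5, abs_mul, Nat.abs_cast] at hn
        have h8 : (1 : ℤ) * N ≤ |k| * N := mul_le_mul_of_nonneg_right h7 (by positivity)
        omega
    have h4 := mul_geom_sum ζ N
    rw [h2, sub_self] at h4
    rcases mul_eq_zero.1 h4 with h5 | h5
    · exact absurd (sub_eq_zero.1 h5) h3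
    · exact h5

lemma orthm (m N : ℕ) (hN : 0 < N) (n : Fin m → ℤ) (hn : ∀ i, |n i| < N) :
    ∑ t : Fin m → Fin N, e (∑ i, ((t i : ℕ) : ℝ) / N * n i) =
      if n = 0 then (N : ℂ) ^ m else 0 := by
  have h1 : ∀ t : Fin m → Fin N, e (∑ i, ((t i : ℕ) : ℝ) / N * n i) =
      ∏ i, e (((t i : ℕ) : ℝ) / N * n i) := fun t => e_sum _ _
  rw [Fintype.sum_congr _ _ h1]
  have h2 := Finset.prod_univ_sum (fun _ : Fin m => (Finset.univ : Finset (Fin N)))
    (fun i t => e (((t : ℕ) : ℝ) / N * n i))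
  rw [Fintype.piFinset_univ] at h2
  rw [← h2]
  have h3 : ∀ i : Fin m, ∑ t : Fin N, e (((t : ℕ) : ℝ) / N * n i) =
      if n i = 0 then (N : ℂ) else 0 := fun i => orth1 N hN (n i) (hn i)
  rw [Finset.prod_congr rfl (fun i _ => h3 i)]
  split_ifs with h
  · subst h
    simp
  · have h4 : ∃ i, n i ≠ 0 := by
      by_contra h5
      push Not at h5
      exact h (funext h5)
    obtain ⟨i, hi⟩ := h4
    exact Finset.prod_eq_zero (Finset.mem_univ i) (if_neg hi)

end FLx

open FLx in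
theorem t_FL : S_FL := by
  classical
  intro m H Z F w L Γ B hL hΓ hB
  set N : ℕ := 2 * H + 1 with hN
  have hN0 : 0 < N := by omega
  set S : Finset (Fin m → ℤ) := F.image L with hS
  set W : (Fin m → ℤ) → ℂ := fun h => ∑ z ∈ F.filter (fun z => L z = h), w z with hW
  have hSb : ∀ h ∈ S, ∀ i, |h i| ≤ (H : ℤ) := by
    intro h hh i
    rw [hS, mem_image] at hh
    obtain ⟨z, hz, rfl⟩ := hh
    exact hL z hz i
  have hgroup : ∀ Φ : (Fin m → ℤ) → ℂ, ∑ z ∈ F, w z * Φ (L z) = ∑ h ∈ S, W h * Φ h := by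
    intro Φ
    rw [← Finset.sum_fiberwise_of_maps_to (s := F) (t := S) (g := L)
      (fun z hz => Finset.mem_image_of_mem L hz)]
    refine Finset.sum_congr rfl fun h _ => ?_
    rw [hW, Finset.sum_mul]
    refine Finset.sum_congr rfl fun z hz => ?_
    rw [(Finset.mem_filter.1 hz).2]
  -- Parseval
  set θ : (Fin m → Fin N) → Fin m → ℝ := fun t i => ((t i : ℕ) : ℝ) / N with hθ
  have hpars : ∑ t : Fin m → Fin N, ‖∑ z ∈ F, w z * e (∑ i, θ t i * (L z i : ℝ))‖ ^ 2 =
      (N : ℝ) ^ m * ∑ h ∈ S, ‖W h‖ ^ 2 := by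
    have h1 : ∀ t : Fin m → Fin N, ∑ z ∈ F, w z * e (∑ i, θ t i * (L z i : ℝ)) =
        ∑ h ∈ S, W h * e (∑ i, θ t i * (h i : ℝ)) := by
      intro t
      exact hgroup (fun h => e (∑ i, θ t i * (h i : ℝ)))
    have h2 : ((∑ t : Fin m → Fin N, ‖∑ z ∈ F, w z * e (∑ i, θ t i * (L z i : ℝ))‖ ^ 2 : ℝ) : ℂ) =
        (((N : ℝ) ^ m * ∑ h ∈ S, ‖W h‖ ^ 2 : ℝ) : ℂ) := by
      push_cast
      have h3 : ∀ t : Fin m → Fin N,
          ((‖∑ z ∈ F, w z * e (∑ i, θ t i * (L z i : ℝ))‖ : ℝ) : ℂ) ^ 2 =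
          ∑ h ∈ S, ∑ h' ∈ S, (W h * (starRingEnd ℂ) (W h')) *
            e (∑ i, ((t i : ℕ) : ℝ) / N * ((h i - h' i : ℤ) : ℝ)) := by
        intro t
        rw [h1 t, ← Complex.mul_conj', map_sum, Finset.sum_mul_sum]
        refine Finset.sum_congr rfl fun h _ => Finset.sum_congr rfl fun h' _ => ?_
        rw [map_mul, conj_e]
        have h4 : e (∑ i, ((t i : ℕ) : ℝ) / N * ((h i - h' i : ℤ) : ℝ)) =
            e (∑ i, θ t i * (h i : ℝ)) * e (-∑ i, θ t i * (h' i : ℝ)) := by
          rw [← e_add, ← Finset.sum_neg_distrib, ← Finset.sum_add_distrib]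
          congr 1
          refine Finset.sum_congr rfl fun i _ => ?_
          simp only [hθ]
          push_cast
          ring
        rw [h4]
        ring
      rw [Fintype.sum_congr _ _ h3, Finset.sum_comm, Finset.mul_sum]
      refine Finset.sum_congr rfl fun h hh => ?_
      rw [Finset.sum_comm]
      have h5 : ∀ h' ∈ S, ∑ t : Fin m → Fin N, (W h * (starRingEnd ℂ) (W h')) *
            e (∑ i, ((t i : ℕ) : ℝ) / N * ((h i - h' i : ℤ) : ℝ)) =
          if h = h' then (N : ℂ) ^ m * (W h * (starRingEnd ℂ) (W h)) else 0 := by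
        intro h' hh'
        rw [← Finset.mul_sum]
        have h6 := orthm m N hN0 (fun i => h i - h' i) (by
          intro i
          have h7 := abs_le.1 (hSb h hh i)
          have h8 := abs_le.1 (hSb h' hh' i)
          rw [abs_lt]
          constructor <;> omega)
        rw [h6]
        by_cases h9 : h = h'
        · subst h9
          have : (fun i => h i - h i) = (0 : Fin m → ℤ) := by
            ext i
            simp
          rw [if_pos this, if_pos rfl]
          ring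
        · have : ¬ ((fun i => h i - h' i) = (0 : Fin m → ℤ)) := by
            intro h10
            apply h9
            ext i
            have := congrFun h10 i
            simp only [Pi.zero_apply] at this
            omega
          rw [if_neg this, if_neg h9, mul_zero]
      rw [Finset.sum_congr rfl h5, Finset.sum_ite_eq, if_pos hh, Complex.mul_conj']
    exact_mod_cast h2
  have hB0 : 0 ≤ B := (norm_nonneg _).trans (hB 0)
  have hNm : (0 : ℝ) < (N : ℝ) ^ m := by
    have : (0 : ℝ) < N := by exact_mod_cast hN0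
    positivity
  have hWs : ∑ h ∈ S, ‖W h‖ ^ 2 ≤ B ^ 2 := by
    have h1 : (N : ℝ) ^ m * ∑ h ∈ S, ‖W h‖ ^ 2 ≤ (N : ℝ) ^ m * B ^ 2 := by
      rw [← hpars]
      calc ∑ t : Fin m → Fin N, ‖∑ z ∈ F, w z * e (∑ i, θ t i * (L z i : ℝ))‖ ^ 2 ≤
          ∑ _t : Fin m → Fin N, B ^ 2 := by
            refine Finset.sum_le_sum fun t _ => ?_
            exact pow_le_pow_left₀ (norm_nonneg _) (hB (θ t)) 2
        _ = (N : ℝ) ^ m * B ^ 2 := by
            rw [Finset.sum_const, Finset.card_univ, Fintype.card_fun, Fintype.card_fin,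
              Fintype.card_fin, nsmul_eq_mul]
            push_cast
            ring
    exact le_of_mul_le_mul_left h1 hNm
  have hcard : (S.card : ℝ) ≤ (2 * (H : ℝ) + 1) ^ m := by
    have h1 : S ⊆ Fintype.piFinset (fun _ : Fin m => Finset.Icc (-(H : ℤ)) H) := by
      intro h hh
      rw [Fintype.mem_piFinset]
      intro i
      rw [Finset.mem_Icc]
      exact abs_le.1 (hSb h hh i)
    have h2 := Finset.card_le_card h1
    rw [Fintype.card_piFinset] at h2
    simp only [Int.card_Icc, Finset.prod_const, Finset.card_univ, Fintype.card_fin] at h2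
    have h3 : ((H : ℤ) + 1 - -(H : ℤ)).toNat = 2 * H + 1 := by omega
    rw [h3] at h2
    exact_mod_cast h2
  rw [hgroup Γ]
  calc ‖∑ h ∈ S, W h * Γ h‖ ^ 2 ≤ (∑ h ∈ S, ‖W h‖ * 1) ^ 2 := by
        refine pow_le_pow_left₀ (norm_nonneg _) ?_ 2
        refine (norm_sum_le _ _).trans (Finset.sum_le_sum fun h _ => ?_)
        rw [norm_mul]
        exact mul_le_mul_of_nonneg_left (hΓ h) (norm_nonneg _)
    _ ≤ (∑ h ∈ S, ‖W h‖ ^ 2) * (∑ h ∈ S, (1 : ℝ) ^ 2) := Finset.sum_mul_sq_le_sq_mul_sq _ _ _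
    _ = (∑ h ∈ S, ‖W h‖ ^ 2) * S.card := by simp
    _ ≤ B ^ 2 * (2 * (H : ℝ) + 1) ^ m :=
        mul_le_mul hWs hcard (by positivity) (by positivity)
    _ = (2 * (H : ℝ) + 1) ^ m * B ^ 2 := by ring

end Pool.Agent.helper132_hp
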