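import Pool.Agent.helper132_hp.Stmts

/-! Greedy choice of disjoint bases. -/

namespace Pool.Agent.helper132_hp

open Finset

namespace GREEDYx

variable {p : ℕ} [Fact p.Prime]

/-- The residue field of `ℤ_p`. -/
abbrev RF (p : ℕ) [Fact p.Prime] : Type := IsLocalRing.ResidueField ℤ_[p]

theorem res_ne_zero_iff (x : ℤ_[p]) : IsLocalRing.residue ℤ_[p] x ≠ 0 ↔ ¬ ‖x‖ < 1 := by
  rw [IsLocalRing.residue_ne_zero_iff_isUnit, PadicInt.isUnit_iff]
  constructor
  · intro h; rw [h]; exact lt_irrefl _
  · intro h; exact le_antisymm (PadicInt.norm_le_one x) (not_lt.mp h)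

theorem step (k R : ℕ) (ι : Type) [Fintype ι] [DecidableEq ι]
    (c : Fin R → ι → ℤ_[p]) (U : Finset ι) (hU : R * k * U.card < Fintype.card ι)
    (h : ∀ lam : Fin R → ℤ_[p], (∃ m, IsUnit (lam m)) →
      Fintype.card ι ≤ R * k * (Finset.univ.filter fun i => ¬ ‖∑ m, lam m * c m i‖ < 1).card) :
    ∃ T : Fin R → ι, Function.Injective T ∧ (∀ i, T i ∉ U) ∧
      IsUnit (Matrix.of fun m i => c m (T i)).det := by
  classical
  let v : {i // i ∉ U} → (Fin R → RF p) := fun i m => IsLocalRing.residue ℤ_[p] (c m i.1)
  have hspan : Submodule.span (RF p) (Set.range v) = ⊤ := by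
    by_contra hne
    obtain ⟨f, hf0, hf⟩ := Submodule.exists_le_ker_of_lt_top _ (lt_top_iff_ne_top.mpr hne)
    have hex : ∀ m : Fin R, ∃ l : ℤ_[p], IsLocalRing.residue ℤ_[p] l = f (Pi.single m 1) :=
      fun m => IsLocalRing.residue_surjective _
    choose lam hlam using hex
    have hexp : ∀ x : Fin R → RF p, f x = ∑ m, f (Pi.single m 1) * x m := by
      intro x
      conv_lhs => rw [pi_eq_sum_univ' x]
      rw [map_sum]
      refine Finset.sum_congr rfl fun m _ => ?_
      rw [map_smul, smul_eq_mul, mul_comm]
    have hprim : ∃ m, IsUnit (lam m) := by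
      by_contra hno
      push Not at hno
      apply hf0
      ext m
      simp only [LinearMap.coe_comp, LinearMap.coe_single, Function.comp_apply,
        LinearMap.zero_apply]
      rw [← hlam m]
      by_contra h0
      exact hno m ((IsLocalRing.residue_ne_zero_iff_isUnit _).mp h0)
    have h1 := h lam hprim
    have hsub : (Finset.univ.filter fun i => ¬ ‖∑ m, lam m * c m i‖ < 1) ⊆ U := by
      intro i hi
      rw [Finset.mem_filter] at hi
      by_contra hiU
      have h2 := (res_ne_zero_iff _).mpr hi.2
      apply h2
      have h3 : v ⟨i, hiU⟩ ∈ LinearMap.ker f :=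
        hf (Submodule.subset_span ⟨⟨i, hiU⟩, rfl⟩)
      rw [LinearMap.mem_ker, hexp] at h3
      rw [map_sum, ← h3]
      refine Finset.sum_congr rfl fun m _ => ?_
      rw [map_mul, hlam m]
    have h4 := Finset.card_le_card hsub
    have h5 := Nat.mul_le_mul_left (R * k) h4
    omega
  obtain ⟨κ, a, ha, hsp, hli⟩ := exists_linearIndependent' (RF p) v
  have hsp' : ⊤ ≤ Submodule.span (RF p) (Set.range (v ∘ a)) := by
    rw [hsp, hspan]
  let b := Module.Basis.mk hli hsp'
  have : Fintype κ := Fintype.ofInjective a ha
  have hcard : Fintype.card κ = Fintype.card (Fin R) := by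
    have h1 := Module.finrank_eq_card_basis b
    rw [Module.finrank_pi] at h1
    exact h1.symm
  let eqv : Fin R ≃ κ := (Fintype.equivOfCardEq hcard).symm
  refine ⟨fun i => (a (eqv i)).1, ?_, fun i => (a (eqv i)).2, ?_⟩
  · intro i j hij
    exact eqv.injective (ha (Subtype.ext hij))
  · have hli2 : LinearIndependent (RF p) ((v ∘ a) ∘ eqv) :=
      hli.comp eqv eqv.injective
    rw [← IsLocalRing.residue_ne_zero_iff_isUnit, RingHom.map_det]
    have hM : ((IsLocalRing.residue ℤ_[p]).mapMatrix
        (Matrix.of fun m i => c m (a (eqv i)).1)).col = (v ∘ a) ∘ eqv := by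
      funext i m
      simp [v, Matrix.col]
    have hU2 : IsUnit ((IsLocalRing.residue ℤ_[p]).mapMatrix
        (Matrix.of fun m i => c m (a (eqv i)).1)) := by
      rw [← Matrix.linearIndependent_cols_iff_isUnit, hM]
      exact hli2
    exact ((Matrix.isUnit_iff_isUnit_det _).mp hU2).ne_zero

end GREEDYx

open GREEDYx in
theorem t_GREEDY : S_GREEDY := by
  intro p _ k R n hk hR ι _ _ c hcard h
  have main : ∀ n' : ℕ, n' ≤ n → ∃ T : Fin n' × Fin R → ι, Function.Injective T ∧
      ∀ t, IsUnit (Matrix.of fun m i => c m (T (t, i))).det := by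
    intro n'
    induction n' with
    | zero =>
      intro _
      exact ⟨fun x => x.1.elim0, fun x => x.1.elim0, fun t => t.elim0⟩
    | succ n' ih =>
      intro hn'
      obtain ⟨T, hT, hdet⟩ := ih (by omega)
      have hUc : (Finset.univ.image T).card = n' * R := by
        rw [Finset.card_image_of_injective _ hT, Finset.card_univ, Fintype.card_prod,
          Fintype.card_fin, Fintype.card_fin]
      have hlt : R * k * (Finset.univ.image T).card < Fintype.card ι := by
        rw [hUc]
        refine lt_of_lt_of_le ?_ hcard
        have h1 : R * k * (n' * R) = R * R * k * n' := by ring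
        rw [h1]
        exact Nat.mul_lt_mul_of_pos_left (by omega) (by positivity)
      obtain ⟨T', hT', hTU, hT'det⟩ := step k R ι c _ hlt h
      refine ⟨fun x => Fin.lastCases (motive := fun _ => ι) (T' x.2) (fun t => T (t, x.2)) x.1,
        ?_, ?_⟩
      · rintro ⟨t, i⟩ ⟨t2, i2⟩ hij
        induction t using Fin.lastCases with
        | last =>
          induction t2 using Fin.lastCases with
          | last =>
            simp only [Fin.lastCases_last] at hij
            rw [hT' hij]
          | cast t2 =>
            simp only [Fin.lastCases_last, Fin.lastCases_castSucc] at hij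
            exact absurd (Finset.mem_image.mpr ⟨(t2, i2), Finset.mem_univ _, hij.symm⟩) (hTU i)
        | cast t =>
          induction t2 using Fin.lastCases with
          | last =>
            simp only [Fin.lastCases_last, Fin.lastCases_castSucc] at hij
            exact absurd (Finset.mem_image.mpr ⟨(t, i), Finset.mem_univ _, hij⟩) (hTU i2)
          | cast t2 =>
            simp only [Fin.lastCases_castSucc] at hij
            have h2 := hT hij
            simp only [Prod.mk.injEq] at h2
            rw [h2.1, h2.2]
      · intro t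
        induction t using Fin.lastCases with
        | last => simpa only [Fin.lastCases_last] using hT'det
        | cast t => simpa only [Fin.lastCases_castSucc] using hdet t
  exact main n le_rfl

end Pool.Agent.helper132_hp
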