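import Pool.Agent.helper132_hp.Stmts

/-! Hensel lifting: a nonsingular `p`-adic zero gives a positive `p`-adic density. -/

namespace Pool.Agent.helper132_hp

open Finset

namespace HENx

variable {ι : Type}

/-- congruent points give congruent values. -/
theorem aeval_dvd {R : Type} [CommRing R] (G : MvPolynomial ι ℤ) (d : R) (x y : ι → R)
    (h : ∀ i, d ∣ x i - y i) : d ∣ MvPolynomial.aeval x G - MvPolynomial.aeval y G := by
  have key : ∀ z : ι → R, (Ideal.Quotient.mk (Ideal.span {d})) (MvPolynomial.aeval z G) =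
      MvPolynomial.aeval (fun i => (Ideal.Quotient.mk (Ideal.span {d})) (z i)) G := by
    intro z
    exact MvPolynomial.comp_aeval_apply z (Ideal.Quotient.mkₐ ℤ (Ideal.span {d})) G
  rw [← Ideal.mem_span_singleton, ← Ideal.Quotient.eq, key, key]
  have : (fun i => (Ideal.Quotient.mk (Ideal.span {d})) (x i)) =
      fun i => (Ideal.Quotient.mk (Ideal.span {d})) (y i) := by
    funext i
    rw [Ideal.Quotient.eq, Ideal.mem_span_singleton]
    exact h i
  rw [this]

variable [DecidableEq ι]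

/-- the polynomial in the variable `l`, the others being fixed. -/
noncomputable def onev {R : Type} [CommRing R] (G : MvPolynomial ι ℤ) (l : ι) (w : ι → R) :
    Polynomial R :=
  MvPolynomial.aeval (fun i => if i = l then Polynomial.X else Polynomial.C (w i)) G

theorem eval_onev {R : Type} [CommRing R] (G : MvPolynomial ι ℤ) (l : ι) (w : ι → R) (t : R) :
    (onev G l w).eval t = MvPolynomial.aeval (Function.update w l t) G := by
  unfold onev
  induction G using MvPolynomial.induction_on with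
  | C a => simp
  | add p q hp hq => simp only [map_add, Polynomial.eval_add, hp, hq]
  | mul_X p i hp =>
    simp only [map_mul, Polynomial.eval_mul, hp, MvPolynomial.aeval_X]
    congr 1
    by_cases h : i = l
    · subst h; simp
    · simp [h]

theorem derivative_onev {R : Type} [CommRing R] (G : MvPolynomial ι ℤ) (l : ι) (w : ι → R) :
    (onev G l w).derivative = onev (MvPolynomial.pderiv l G) l w := by
  unfold onev
  induction G using MvPolynomial.induction_on with
  | C a => simp
  | add p q hp hq => simp only [map_add, hp, hq]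
  | mul_X p i hp =>
    simp only [map_mul, Polynomial.derivative_mul, hp, MvPolynomial.aeval_X,
      MvPolynomial.pderiv_mul, map_add]
    congr 1
    congr 1
    by_cases h : i = l
    · subst h; simp
    · simp [h, MvPolynomial.pderiv_X_of_ne (R := ℤ) (i := l) (j := i) h]

variable {p : ℕ} [Fact p.Prime]

/-- lifting along the coordinate `l`. -/
theorem lift (G : MvPolynomial ι ℤ) (z : ι → ℤ_[p]) (h0 : MvPolynomial.aeval z G = 0) (l : ι)
    (hl : MvPolynomial.aeval z (MvPolynomial.pderiv l G) ≠ 0) :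
    ∃ n : ℕ, ∀ w : ι → ℤ_[p], (∀ i, (p : ℤ_[p]) ^ n ∣ w i - z i) →
      ∃ t : ℤ_[p], MvPolynomial.aeval (Function.update w l t) G = 0 := by
  set D := MvPolynomial.aeval z (MvPolynomial.pderiv l G) with hD
  set v := D.valuation with hv
  have hDn : ‖D‖ = (p : ℝ) ^ (-(v : ℤ)) := PadicInt.norm_eq_zpow_neg_valuation hl
  have hp1 : (1 : ℝ) < p := by exact_mod_cast (Fact.out : p.Prime).one_lt
  refine ⟨2 * v + 1, fun w hw => ?_⟩
  have hw' : ∀ i, (p : ℤ_[p]) ^ (2 * v + 1) ∣ Function.update w l (z l) i - z i := by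
    intro i
    by_cases h : i = l
    · subst h; simp
    · simp [h, hw i]
  have e1 : (p : ℤ_[p]) ^ (2 * v + 1) ∣ (onev G l w).eval (z l) := by
    have := aeval_dvd G ((p : ℤ_[p]) ^ (2 * v + 1)) _ _ hw'
    rwa [h0, sub_zero, ← eval_onev] at this
  have e2 : (p : ℤ_[p]) ^ (2 * v + 1) ∣ (onev G l w).derivative.eval (z l) - D := by
    have := aeval_dvd (MvPolynomial.pderiv l G) ((p : ℤ_[p]) ^ (2 * v + 1)) _ _ hw'
    rwa [← hD, ← eval_onev, ← derivative_onev] at this
  have n1 : ‖(onev G l w).eval (z l)‖ ≤ (p : ℝ) ^ (-((2 * v + 1 : ℕ) : ℤ)) :=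
    (PadicInt.norm_le_pow_iff_mem_span_pow _ _).2 (Ideal.mem_span_singleton.2 e1)
  have n2 : ‖(onev G l w).derivative.eval (z l) - D‖ ≤ (p : ℝ) ^ (-((2 * v + 1 : ℕ) : ℤ)) :=
    (PadicInt.norm_le_pow_iff_mem_span_pow _ _).2 (Ideal.mem_span_singleton.2 e2)
  have lt1 : (p : ℝ) ^ (-((2 * v + 1 : ℕ) : ℤ)) < ‖D‖ := by
    rw [hDn]
    apply zpow_lt_zpow_right₀ hp1
    push_cast
    omega
  have n3 : ‖(onev G l w).derivative.eval (z l)‖ = ‖D‖ := by
    have hx : (onev G l w).derivative.eval (z l) =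
        ((onev G l w).derivative.eval (z l) - D) + D := by ring
    rw [hx, PadicInt.norm_add_eq_max_of_ne]
    · exact max_eq_right (le_trans n2 lt1.le)
    · exact ne_of_lt (lt_of_le_of_lt n2 lt1)
  have lt2 : (p : ℝ) ^ (-((2 * v + 1 : ℕ) : ℤ)) < ‖D‖ ^ 2 := by
    rw [hDn, ← zpow_natCast, ← zpow_mul]
    apply zpow_lt_zpow_right₀ hp1
    push_cast
    omega
  have hh : ‖(Polynomial.aeval (z l)) (onev G l w)‖ <
      ‖(Polynomial.aeval (z l)) (Polynomial.derivative (onev G l w))‖ ^ 2 := by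
    rw [Polynomial.coe_aeval_eq_eval, n3]
    exact lt_of_le_of_lt n1 lt2
  obtain ⟨t, ht, -⟩ := hensels_lemma hh
  refine ⟨t, ?_⟩
  rw [← eval_onev]
  rwa [Polynomial.coe_aeval_eq_eval] at ht

/-- integer residues of a `p`-adic zero are a zero modulo `p^m`. -/
theorem red (G : MvPolynomial ι ℤ) (m : ℕ) (x : ι → ℤ_[p]) (h0 : MvPolynomial.aeval x G = 0)
    (w : ι → ℤ) (hw : ∀ i, (p : ℤ_[p]) ^ m ∣ (w i : ℤ_[p]) - x i) :
    ((p ^ m : ℕ) : ℤ) ∣ MvPolynomial.eval w G := by
  have h1 := aeval_dvd G ((p : ℤ_[p]) ^ m) (fun i => (w i : ℤ_[p])) x hw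
  rw [h0, sub_zero] at h1
  have h2 : MvPolynomial.aeval (fun i => (w i : ℤ_[p])) G =
      ((MvPolynomial.eval w G : ℤ) : ℤ_[p]) := by
    clear h1 h0
    induction G using MvPolynomial.induction_on with
    | C a => simp
    | add p q hp hq => simp only [map_add, hp, hq, Int.cast_add]
    | mul_X p i hp => simp only [map_mul, hp, MvPolynomial.aeval_X, MvPolynomial.eval_X,
        Int.cast_mul]
  rw [h2, PadicInt.pow_p_dvd_int_iff] at h1
  exact_mod_cast h1

end HENx

open HENx in
theorem t_HEN : S_HEN := by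
  intro ι _ _ G p _ z h0 ⟨l, hl⟩
  obtain ⟨n, hn⟩ := HENx.lift G z h0 l hl
  have hp : 0 < p := (Fact.out : p.Prime).pos
  have hpR : (0 : ℝ) < p := by exact_mod_cast hp
  have hcard : 0 < Fintype.card ι := Fintype.card_pos_iff.2 ⟨l⟩
  refine ⟨1 / ((p : ℝ) ^ n) ^ Fintype.card ι, by positivity, fun m => ?_⟩
  rw [div_mul_eq_mul_div, div_le_iff₀ (by positivity), one_mul]
  have happr : ∀ (x : ℤ_[p]) (m : ℕ), (p : ℤ_[p]) ^ m ∣ ((x.appr m : ℤ) : ℤ_[p]) - x := by
    intro x m
    have := Ideal.mem_span_singleton.1 (PadicInt.appr_spec m x)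
    rw [← dvd_neg]
    simpa using this
  rcases le_or_gt n m with hnm | hnm
  · -- many lifts
    obtain ⟨d, rfl⟩ := Nat.exists_eq_add_of_le hnm
    -- the base points
    let w : ({i // i ≠ l} → Fin (p ^ d)) → ι → ℤ := fun u i =>
      if h : i ≠ l then ((z i).appr n : ℤ) + p ^ n * ((u ⟨i, h⟩ : ℕ) : ℤ) else 0
    let w' : ({i // i ≠ l} → Fin (p ^ d)) → ι → ℤ_[p] := fun u i =>
      if i ≠ l then ((w u i : ℤ) : ℤ_[p]) else z i
    have hw' : ∀ u i, (p : ℤ_[p]) ^ n ∣ w' u i - z i := by
      intro u i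
      by_cases h : i ≠ l
      · simp only [w', w, h, if_true, ne_eq, not_false_eq_true, dif_pos]
        have := happr (z i) n
        push_cast at this ⊢
        have h2 : ((z i).appr n : ℤ_[p]) + (p : ℤ_[p]) ^ n * ((u ⟨i, h⟩ : ℕ) : ℤ_[p]) - z i =
            (((z i).appr n : ℤ_[p]) - z i) + (p : ℤ_[p]) ^ n * ((u ⟨i, h⟩ : ℕ) : ℤ_[p]) := by ring
        rw [h2]
        exact dvd_add this (dvd_mul_right _ _)
      · have h' : i = l := not_not.1 h
        simp [w', h']
    choose t ht using fun u => hn (w' u) (hw' u)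
    let f : ({i // i ≠ l} → Fin (p ^ d)) → ι → ℤ := fun u i =>
      if i ≠ l then w u i else ((t u).appr (n + d) : ℤ)
    have hfmem : ∀ u, f u ∈ (res ι (p ^ (n + d))).filter
        fun w => ((p ^ (n + d) : ℕ) : ℤ) ∣ MvPolynomial.eval w G := by
      intro u
      rw [Finset.mem_filter]
      constructor
      · unfold res
        rw [Fintype.mem_piFinset]
        intro i
        rw [Finset.mem_Ico]
        by_cases h : i ≠ l
        · simp only [f, w, h, if_true, ne_eq, not_false_eq_true, dif_pos]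
          constructor
          · positivity
          · have h1 : (z i).appr n < p ^ n := PadicInt.appr_lt _ _
            have h2 : ((u ⟨i, h⟩ : Fin (p ^ d)) : ℕ) < p ^ d := (u ⟨i, h⟩).2
            have h3 : (z i).appr n + p ^ n * ((u ⟨i, h⟩ : Fin (p ^ d)) : ℕ) < p ^ (n + d) := by
              calc (z i).appr n + p ^ n * ((u ⟨i, h⟩ : Fin (p ^ d)) : ℕ)
                  < p ^ n + p ^ n * ((u ⟨i, h⟩ : Fin (p ^ d)) : ℕ) := by omega
                _ = p ^ n * (((u ⟨i, h⟩ : Fin (p ^ d)) : ℕ) + 1) := by ring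
                _ ≤ p ^ n * p ^ d := Nat.mul_le_mul_left _ h2
                _ = p ^ (n + d) := by rw [pow_add]
            exact_mod_cast h3
        · simp only [f, h, if_false]
          constructor
          · positivity
          · exact_mod_cast PadicInt.appr_lt (t u) (n + d)
      · apply red G (n + d) _ (ht u) (f u)
        intro i
        by_cases h : i = l
        · subst h
          simp only [f, ne_eq, not_true_eq_false, if_false, Function.update_self]
          exact happr _ _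
        · simp [f, w', h]
    have hfinj : Set.InjOn f (↑(Finset.univ : Finset ({i // i ≠ l} → Fin (p ^ d)))) := by
      intro u _ u' _ huu
      funext ⟨i, hi⟩
      have h1 := congrFun huu i
      simp only [f, w, hi, if_true, ne_eq, not_false_eq_true, dif_pos] at h1
      have h2 : (p : ℤ) ^ n * ((u ⟨i, hi⟩ : ℕ) : ℤ) = (p : ℤ) ^ n * ((u' ⟨i, hi⟩ : ℕ) : ℤ) :=
        add_left_cancel h1
      have h3 : ((u ⟨i, hi⟩ : ℕ) : ℤ) = ((u' ⟨i, hi⟩ : ℕ) : ℤ) :=
        mul_left_cancel₀ (by positivity) h2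
      apply Fin.ext
      exact_mod_cast h3
    have hcount : (p ^ d) ^ (Fintype.card ι - 1) ≤ Mq G (p ^ (n + d)) := by
      have := Finset.card_le_card_of_injOn f (fun u _ => hfmem u) hfinj
      have hc : (Finset.univ : Finset ({i // i ≠ l} → Fin (p ^ d))).card =
          (p ^ d) ^ (Fintype.card ι - 1) := by
        rw [Finset.card_univ, Fintype.card_fun, Fintype.card_fin, Fintype.card_subtype_compl,
          Fintype.card_subtype_eq]
      rw [hc] at this
      exact this
    have hcR : ((p : ℝ) ^ d) ^ (Fintype.card ι - 1) ≤ Mq G (p ^ (n + d)) := by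
      exact_mod_cast hcount
    have hsplit : ((p : ℝ) ^ d) ^ Fintype.card ι =
        ((p : ℝ) ^ d) ^ (Fintype.card ι - 1) * (p : ℝ) ^ d := by
      rw [← pow_succ, Nat.sub_add_cancel hcard]
    have hone : (1 : ℝ) ≤ (p : ℝ) ^ n := one_le_pow₀ (by exact_mod_cast hp)
    calc ((p : ℝ) ^ (n + d)) ^ Fintype.card ι
        = (((p : ℝ) ^ d) ^ (Fintype.card ι - 1) * (p : ℝ) ^ d) *
          ((p : ℝ) ^ n) ^ Fintype.card ι := by
          rw [← hsplit, pow_add, mul_pow, mul_comm]
      _ ≤ (Mq G (p ^ (n + d)) * (p : ℝ) ^ d) * ((p : ℝ) ^ n) ^ Fintype.card ι := by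
          gcongr
      _ ≤ (Mq G (p ^ (n + d)) * (p : ℝ) ^ (n + d)) * ((p : ℝ) ^ n) ^ Fintype.card ι := by
          have : (p : ℝ) ^ d ≤ (p : ℝ) ^ (n + d) := by
            rw [pow_add]
            exact le_mul_of_one_le_left (by positivity) hone
          exact mul_le_mul_of_nonneg_right (mul_le_mul_of_nonneg_left this (by positivity))
            (by positivity)
  · -- at least one zero
    have h1 : 1 ≤ Mq G (p ^ m) := by
      unfold Mq
      apply Finset.card_pos.2
      refine ⟨fun i => ((z i).appr m : ℤ), ?_⟩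
      rw [Finset.mem_filter]
      constructor
      · unfold res
        rw [Fintype.mem_piFinset]
        intro i
        rw [Finset.mem_Ico]
        exact ⟨by positivity, by exact_mod_cast PadicInt.appr_lt (z i) m⟩
      · exact red G m z h0 _ (fun i => happr _ _)
    have h2 : (1 : ℝ) ≤ Mq G (p ^ m) := by exact_mod_cast h1
    have h3 : (1 : ℝ) ≤ (p : ℝ) ^ m := one_le_pow₀ (by exact_mod_cast hp)
    have h4 : ((p : ℝ) ^ m) ^ Fintype.card ι ≤ ((p : ℝ) ^ n) ^ Fintype.card ι := by
      gcongr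
      · exact_mod_cast hp
    calc ((p : ℝ) ^ m) ^ Fintype.card ι ≤ ((p : ℝ) ^ n) ^ Fintype.card ι := h4
      _ = 1 * 1 * ((p : ℝ) ^ n) ^ Fintype.card ι := by ring
      _ ≤ Mq G (p ^ m) * (p : ℝ) ^ m * ((p : ℝ) ^ n) ^ Fintype.card ι := by
          gcongr

end Pool.Agent.helper132_hp
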