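import Pool.Agent.helper132_hp.Stmts

/-! Comparison of the number of zeros with the smoothed count. -/

namespace Pool.Agent.helper132_hp
namespace INTx

open Finset

/-! ### the function `e` -/

lemma e_add (x y : ℝ) : e (x + y) = e x * e y := by
  unfold e
  rw [← Complex.exp_add]
  congr 1
  push_cast
  ring

lemma norm_e (x : ℝ) : ‖e x‖ = 1 := by
  unfold e
  exact Complex.norm_exp_ofReal_mul_I _

lemma e_int (m : ℤ) : e (m : ℝ) = 1 := by
  unfold e
  rw [Complex.exp_eq_one_iff]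
  exact ⟨m, by push_cast; ring⟩

lemma e_zero : e 0 = 1 := by
  have := e_int 0
  simpa using this

lemma norm_e_sub_one (x : ℝ) : ‖e x - 1‖ ≤ 2 * Real.pi * |x| := by
  have h := @Real.norm_exp_I_mul_ofReal_sub_one_le (2 * Real.pi * x)
  unfold e
  rw [mul_comm Complex.I] at h
  refine h.trans ?_
  rw [Real.norm_eq_abs, abs_mul, abs_of_pos (by positivity : (0:ℝ) < 2 * Real.pi)]

lemma continuous_e : Continuous e := by
  unfold e
  fun_prop

lemma continuous_e_mul (x : ℝ) : Continuous fun α : ℝ => e (α * x) :=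
  continuous_e.comp (by fun_prop)

/-- orthogonality. -/
lemma integral_e (m : ℤ) : ∫ α in (0:ℝ)..1, e (α * (m : ℝ)) = if m = 0 then 1 else 0 := by
  split_ifs with h
  · subst h
    simp [e_zero]
  · have hc : ((2 * Real.pi * m : ℝ) : ℂ) * Complex.I ≠ 0 := by
      have : (2 * Real.pi * m : ℝ) ≠ 0 := by
        have h1 : (m : ℝ) ≠ 0 := by exact_mod_cast h
        have h2 := Real.pi_pos
        positivity
      exact mul_ne_zero (by exact_mod_cast this) Complex.I_ne_zero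
    have h1 : (fun α : ℝ => e (α * (m : ℝ))) =
        fun α : ℝ => Complex.exp ((((2 * Real.pi * m : ℝ) : ℂ) * Complex.I) * α) := by
      funext α
      unfold e
      congr 1
      push_cast
      ring
    rw [h1, integral_exp_mul_complex hc]
    have h2 : Complex.exp ((((2 * Real.pi * m : ℝ) : ℂ) * Complex.I) * ((1:ℝ) : ℂ)) = 1 := by
      have := e_int m
      unfold e at this
      simpa using this
    rw [h2]
    simp

/-! ### the kernel -/

/-- the smoothing kernel. -/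
noncomputable def Phi (W H : ℕ) (α : ℝ) : ℂ :=
  (∑ h ∈ Finset.Icc (-(H : ℤ)) H, e (-(α * (W * h)))) / (2 * H + 1)

lemma card_Icc (H : ℕ) : (Finset.Icc (-(H : ℤ)) H).card = 2 * H + 1 := by
  rw [Int.card_Icc]
  omega

lemma ne_zero' (H : ℕ) : (2 * (H : ℂ) + 1) ≠ 0 := by
  have : (2 * (H : ℝ) + 1) ≠ 0 := by positivity
  exact_mod_cast this

lemma one_sub_Phi (W H : ℕ) (α : ℝ) :
    1 - Phi W H α = (∑ h ∈ Finset.Icc (-(H : ℤ)) H, (1 - e (-(α * (W * h))))) / (2 * H + 1) := by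
  unfold Phi
  rw [Finset.sum_sub_distrib, Finset.sum_const, card_Icc]
  have := ne_zero' H
  field_simp
  simp

lemma norm_two_mul_add_one (H : ℕ) : ‖(2 * (H : ℂ) + 1)‖ = 2 * H + 1 := by
  have : (2 * (H : ℂ) + 1) = ((2 * H + 1 : ℝ) : ℂ) := by push_cast; ring
  rw [this, Complex.norm_real, Real.norm_eq_abs, abs_of_pos (by positivity)]

lemma norm_one_sub_Phi_of (W H : ℕ) (α B : ℝ)
    (hB : ∀ h ∈ Finset.Icc (-(H : ℤ)) H, ‖1 - e (-(α * (W * h)))‖ ≤ B) : ‖1 - Phi W H α‖ ≤ B := by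
  rw [one_sub_Phi, norm_div, norm_two_mul_add_one, div_le_iff₀ (by positivity)]
  refine (norm_sum_le _ _).trans ((Finset.sum_le_sum hB).trans ?_)
  rw [Finset.sum_const, card_Icc]
  simp only [nsmul_eq_mul]
  push_cast
  linarith [mul_comm B (2 * (H:ℝ) + 1)]

lemma norm_one_sub_Phi_le_two (W H : ℕ) (α : ℝ) : ‖1 - Phi W H α‖ ≤ 2 := by
  refine norm_one_sub_Phi_of W H α 2 fun h _ => ?_
  refine (norm_sub_le _ _).trans ?_
  rw [norm_e]
  norm_num

lemma norm_one_sub_Phi_le (W H q : ℕ) (c : ℤ) (β : ℝ) (hq : 0 < q) (hqW : q ∣ W) :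
    ‖1 - Phi W H ((c : ℝ) / q + β)‖ ≤ 2 * Real.pi * (W * H * |β|) := by
  refine norm_one_sub_Phi_of W H _ _ fun h hh => ?_
  obtain ⟨t, ht⟩ := hqW
  have hq' : (q : ℝ) ≠ 0 := by positivity
  have h1 : -(((c : ℝ) / q + β) * (W * h)) = ((-(c * t * h) : ℤ) : ℝ) + (-(β * (W * h))) := by
    have : (W : ℝ) = q * t := by rw [ht]; push_cast; ring
    have h2 : (c : ℝ) / q * (W * h) = c * t * h := by
      rw [this]; field_simp
    rw [add_mul, h2]
    push_cast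
    ring
  rw [h1, e_add, e_int, one_mul, norm_sub_rev]
  refine (norm_e_sub_one _).trans ?_
  refine mul_le_mul_of_nonneg_left ?_ (by positivity)
  rw [abs_neg, abs_mul, abs_mul, Nat.abs_cast]
  have hh' : |(h : ℝ)| ≤ H := by
    rw [Finset.mem_Icc] at hh
    rw [abs_le]
    exact ⟨by exact_mod_cast hh.1, by exact_mod_cast hh.2⟩
  calc |β| * (W * |(h : ℝ)|) ≤ |β| * (W * H) := by gcongr
    _ = W * H * |β| := by ring

lemma continuous_Phi (W H : ℕ) : Continuous (Phi W H) := by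
  unfold Phi
  refine Continuous.div_const ?_ _
  refine continuous_finsetSum _ fun h _ => ?_
  exact continuous_e.comp (by fun_prop)

/-- the number of `h` with `g = W h`. -/
lemma card_filter_eq (W H : ℕ) (hW : 0 < W) (g : ℤ) :
    ((Finset.Icc (-(H : ℤ)) H).filter fun h => g = W * h).card =
      if ((W : ℤ) ∣ g ∧ |g| ≤ (W : ℤ) * H) then 1 else 0 := by
  have hW' : (0 : ℤ) < W := by exact_mod_cast hW
  split_ifs with h
  · obtain ⟨⟨t, ht⟩, h2⟩ := h
    rw [Finset.card_eq_one]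
    refine ⟨t, ?_⟩
    ext x
    simp only [Finset.mem_filter, Finset.mem_Icc, Finset.mem_singleton]
    constructor
    · rintro ⟨_, h3⟩
      rw [ht] at h3
      exact (mul_left_cancel₀ hW'.ne' h3).symm
    · rintro rfl
      refine ⟨?_, ht⟩
      rw [ht, abs_mul, abs_of_pos hW'] at h2
      have := le_of_mul_le_mul_left h2 hW'
      rw [abs_le] at this
      exact this
  · rw [Finset.card_eq_zero, Finset.filter_eq_empty_iff]
    intro x hx hgx
    apply h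
    refine ⟨⟨x, hgx⟩, ?_⟩
    rw [hgx, abs_mul, abs_of_pos hW']
    refine mul_le_mul_of_nonneg_left ?_ hW'.le
    rw [Finset.mem_Icc] at hx
    rw [abs_le]
    exact hx

section
variable {ι : Type} [Fintype ι] [DecidableEq ι]

lemma continuous_Sj (G : MvPolynomial ι ℤ) (a b : ι → ℤ) (j : ℕ) : Continuous (Sj G a b j) := by
  unfold Sj
  exact continuous_finsetSum _ fun z _ => continuous_e_mul _

lemma integral_term (W H : ℕ) (hW : 0 < W) (g : ℤ) :
    ∫ α in (0:ℝ)..1, e (α * (g : ℝ)) * (1 - Phi W H α) =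
      (if g = 0 then 1 else 0) -
        (if ((W : ℤ) ∣ g ∧ |g| ≤ (W : ℤ) * H) then 1 else 0) / (2 * (H : ℂ) + 1) := by
  have h1 : ∀ α : ℝ, e (α * (g : ℝ)) * (1 - Phi W H α) = e (α * (g : ℝ)) -
      (∑ h ∈ Finset.Icc (-(H : ℤ)) H, e (α * ((g - W * h : ℤ) : ℝ))) / (2 * (H : ℂ) + 1) := by
    intro α
    unfold Phi
    rw [mul_sub, mul_one, mul_div_assoc', Finset.mul_sum]
    congr 2
    refine Finset.sum_congr rfl fun h _ => ?_
    rw [← e_add]
    congr 1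
    push_cast
    ring
  simp_rw [h1]
  have hint : ∀ m : ℤ, IntervalIntegrable (fun α : ℝ => e (α * (m : ℝ))) MeasureTheory.volume 0 1 :=
    fun m => (continuous_e_mul _).intervalIntegrable _ _
  rw [intervalIntegral.integral_sub (hint g)]
  · rw [intervalIntegral.integral_div, intervalIntegral.integral_finsetSum (fun h _ => hint _)]
    simp_rw [integral_e]
    congr 2
    have := card_filter_eq W H hW g
    rw [Finset.card_filter] at this
    have h3 : (∑ h ∈ Finset.Icc (-(H : ℤ)) H, if g - W * h = 0 then (1 : ℂ) else 0) =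
        ((∑ h ∈ Finset.Icc (-(H : ℤ)) H, if g = W * h then 1 else 0 : ℕ) : ℂ) := by
      push_cast
      refine Finset.sum_congr rfl fun h _ => ?_
      simp only [sub_eq_zero]
    rw [h3, this]
    split_ifs <;> simp
  · refine Continuous.intervalIntegrable ?_ _ _
    exact (continuous_finsetSum _ fun h _ => continuous_e_mul _).div_const _

/-- the identity. -/
lemma identity (G : MvPolynomial ι ℤ) (a b : ι → ℤ) (j W H : ℕ) (hW : 0 < W) :
    (((N0 G a b j : ℝ) - N1 G a b j W H / (2 * H + 1) : ℝ) : ℂ) =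
      ∫ α in (0:ℝ)..1, Sj G a b j α * (1 - Phi W H α) := by
  have h1 : ∀ α : ℝ, Sj G a b j α * (1 - Phi W H α) =
      ∑ z ∈ box a b j, e (α * ((MvPolynomial.eval z G : ℤ) : ℝ)) * (1 - Phi W H α) := by
    intro α
    unfold Sj
    rw [Finset.sum_mul]
  simp_rw [h1]
  rw [intervalIntegral.integral_finsetSum]
  · simp_rw [integral_term W H hW]
    rw [Finset.sum_sub_distrib, ← Finset.sum_div]
    have h2 : (((N0 G a b j : ℝ) - N1 G a b j W H / (2 * H + 1) : ℝ) : ℂ) =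
        (N0 G a b j : ℂ) - (N1 G a b j W H : ℂ) / (2 * H + 1) := by
      push_cast
      ring
    rw [h2]
    unfold N0 N1
    rw [Finset.card_filter, Finset.card_filter]
    simp only [Nat.cast_sum, Nat.cast_ite, Nat.cast_one, Nat.cast_zero]
  · intro z _
    refine Continuous.intervalIntegrable ?_ _ _
    exact (continuous_e_mul _).mul (continuous_const.sub (continuous_Phi W H))


/-- the elementary inequality for the first term. -/
lemma claim1 (w Y A q N : ℝ) (hw2 : w ≤ 2) (hY : 0 ≤ Y) (hA : 0 ≤ A) (hq : 1 ≤ q) (hN : 1 ≤ N)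
    (hw : q ≤ N → w ≤ 2 * (A * Y)) :
    w * (1 / (q ^ 9 * (1 + Y) ^ 9)) ≤ 2 / q ^ 9 * (A + q / N) * (1 + Y ^ 2)⁻¹ := by
  have h0 : 0 < q ^ 9 := by positivity
  have h1 : 0 < (1 + Y) ^ 9 := by positivity
  have h2 : (1 + Y) ^ 3 ≤ (1 + Y) ^ 9 := pow_le_pow_right₀ (by linarith) (by norm_num)
  have key : w * (1 + Y ^ 2) ≤ 2 * (A + q / N) * (1 + Y) ^ 9 := by
    by_cases h : q ≤ N
    · have h3 : w * (1 + Y ^ 2) ≤ 2 * (A * Y) * (1 + Y ^ 2) :=
        mul_le_mul_of_nonneg_right (hw h) (by positivity)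
      have h4 : Y * (1 + Y ^ 2) ≤ (1 + Y) ^ 3 := by nlinarith
      have h5 : 2 * (A * Y) * (1 + Y ^ 2) ≤ 2 * A * (1 + Y) ^ 9 := by
        calc 2 * (A * Y) * (1 + Y ^ 2) = 2 * A * (Y * (1 + Y ^ 2)) := by ring
          _ ≤ 2 * A * (1 + Y) ^ 9 := mul_le_mul_of_nonneg_left (h4.trans h2) (by positivity)
      have h6 : 0 ≤ 2 * (q / N) * (1 + Y) ^ 9 := by positivity
      nlinarith
    · push Not at h
      have h3 : 1 ≤ q / N := by
        rw [le_div_iff₀ (by linarith)]; linarith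
      have h4 : w * (1 + Y ^ 2) ≤ 2 * (1 + Y) ^ 3 := by
        calc w * (1 + Y ^ 2) ≤ 2 * (1 + Y ^ 2) := mul_le_mul_of_nonneg_right hw2 (by positivity)
          _ ≤ 2 * (1 + Y) ^ 3 := by nlinarith [pow_nonneg hY 3, pow_nonneg hY 2]
      calc w * (1 + Y ^ 2) ≤ 2 * (1 + Y) ^ 3 := h4
        _ ≤ 2 * (1 + Y) ^ 9 := by linarith
        _ = 2 * 1 * (1 + Y) ^ 9 := by ring
        _ ≤ 2 * (A + q / N) * (1 + Y) ^ 9 := by gcongr; linarith
  rw [mul_one_div, div_le_iff₀ (by positivity)]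
  have h7 : 2 / q ^ 9 * (A + q / N) * (1 + Y ^ 2)⁻¹ * (q ^ 9 * (1 + Y) ^ 9) =
      (2 * (A + q / N) * (1 + Y) ^ 9) / (1 + Y ^ 2) := by
    field_simp
  rw [h7, le_div_iff₀ (by positivity)]
  exact key

/-- the elementary inequality for the second term. -/
lemma claim2 (w Y T q : ℝ) (hw2 : w ≤ 2) (hY : 0 ≤ Y) (hT : 1 ≤ T) (hYT : Y ≤ T)
    (hq : 1 ≤ q) (hqT : q ≤ T) :
    w * (q * (1 + Y) / T ^ 10) ≤ 8 / T ^ 6 * (1 + Y ^ 2)⁻¹ := by
  have h0 : w * (q * (1 + Y) / T ^ 10) ≤ 2 * (q * (1 + Y) / T ^ 10) :=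
    mul_le_mul_of_nonneg_right hw2 (by positivity)
  refine h0.trans ?_
  rw [← div_eq_mul_inv, le_div_iff₀ (by positivity), ← mul_div_assoc, div_mul_eq_mul_div,
    div_le_div_iff₀ (by positivity) (by positivity)]
  have h1 : 1 + Y ≤ 2 * T := by linarith
  have h2 : 1 + Y ^ 2 ≤ 2 * T ^ 2 := by nlinarith
  have h3 : q * (1 + Y) * (1 + Y ^ 2) ≤ T * (2 * T) * (2 * T ^ 2) := by gcongr
  calc 2 * (q * (1 + Y)) * (1 + Y ^ 2) * T ^ 6 = 2 * (q * (1 + Y) * (1 + Y ^ 2)) * T ^ 6 := by ring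
    _ ≤ 2 * (T * (2 * T) * (2 * T ^ 2)) * T ^ 6 := by gcongr
    _ = 8 * T ^ 10 := by ring

/-- the integral of the majorant. -/
lemma integral_majorant (x X : ℝ) (hX : 0 < X) :
    ∫ α in (0:ℝ)..1, (1 + ((α - x) * X) ^ 2)⁻¹ ≤ Real.pi / X := by
  have h1 : ∀ α : ℝ, (1 + ((α - x) * X) ^ 2)⁻¹ = (fun y : ℝ => (1 + y ^ 2)⁻¹) (X * α - X * x) := by
    intro α
    simp only
    ring_nf
  simp_rw [h1]
  rw [intervalIntegral.integral_comp_mul_sub (fun y : ℝ => (1 + y ^ 2)⁻¹) hX.ne' (X * x)]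
  rw [integral_inv_one_add_sq, smul_eq_mul, div_eq_inv_mul]
  refine mul_le_mul_of_nonneg_left ?_ (by positivity)
  have h2 := Real.arctan_lt_pi_div_two (X * 1 - X * x)
  have h3 := Real.neg_pi_div_two_lt_arctan (X * 0 - X * x)
  linarith

/-- sum of `1/q^2`. -/
lemma sum_inv_sq_le (S : Finset ℕ) (hS : ∀ q ∈ S, 1 ≤ q) : ∑ q ∈ S, ((q : ℝ) ^ 2)⁻¹ ≤ 2 := by
  have h1 : S ⊆ Finset.Ioo 0 (S.sup id + 1) := by
    intro q hq
    rw [Finset.mem_Ioo]
    have := Finset.le_sup (f := id) hq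
    simp only [id] at this
    exact ⟨hS q hq, by omega⟩
  refine (Finset.sum_le_sum_of_subset_of_nonneg h1 fun _ _ _ => by positivity).trans ?_
  have := sum_Ioo_inv_sq_le (α := ℝ) 0 (S.sup id + 1)
  simpa using this


/-- the denominators of the major arcs. -/
noncomputable def Qs (j : ℕ) : Finset ℕ := (Finset.Icc 1 (2 ^ j)).filter fun q => q ^ 10 ≤ 2 ^ j

/-- the pointwise bound. -/
lemma pointwise (G : MvPolynomial ι ℤ) (D : ℕ) (hD : 1 ≤ D) (a b : ι → ℤ) (CM : ℝ) (hCM : 0 ≤ CM)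
    (hMaj : ∀ (j q : ℕ) (c : ℤ) (β : ℝ), 0 < q → IsCoprime c (q : ℤ) → q ^ 10 ≤ 2 ^ j →
      (|β| * 2 ^ (D * j)) ^ 10 ≤ 2 ^ j →
      ‖Sj G a b j ((c : ℝ) / q + β)‖ ≤ CM * 2 ^ (Fintype.card ι * j) *
        (1 / ((q : ℝ) ^ 9 * (1 + |β| * 2 ^ (D * j)) ^ 9) + q * (1 + |β| * 2 ^ (D * j)) / 2 ^ j))
    (j : ℕ)
    (hCr : ∀ (α : ℝ) (c : ℤ) (q : ℕ), 0 < q → IsCoprime c (q : ℤ) →
      |α - (c : ℝ) / q| ≤ 1 / (q : ℝ) ^ 2 → 2 ^ j ≤ q ^ 10 → q ^ 10 * 2 ^ j ≤ 2 ^ (10 * D * j) →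
      ‖Sj G a b j α‖ * 2 ^ ((D + 1) * j) ≤ 2 ^ (Fintype.card ι * j))
    (T : ℝ) (hT : 1 ≤ T) (hT10 : T ^ 10 = 2 ^ j) (N H : ℕ) (hN : 1 ≤ N)
    (α : ℝ) (hα0 : 0 ≤ α) (hα1 : α ≤ 1) :
    ‖Sj G a b j α * (1 - Phi N.factorial H α)‖ ≤
      2 * (2 ^ (Fintype.card ι * j) / 2 ^ ((D + 1) * j)) +
      ∑ q ∈ Qs j, ∑ c ∈ Finset.range (q + 1), CM * 2 ^ (Fintype.card ι * j) *
        (2 / (q : ℝ) ^ 9 * (Real.pi * (N.factorial * H) / 2 ^ (D * j) + q / N) + 8 / T ^ 6) *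
        (1 + ((α - (c : ℝ) / q) * 2 ^ (D * j)) ^ 2)⁻¹ := by
  set W : ℕ := N.factorial with hW
  have hterm : ∀ q c : ℕ, 0 ≤ CM * 2 ^ (Fintype.card ι * j) *
        (2 / (q : ℝ) ^ 9 * (Real.pi * (W * H) / 2 ^ (D * j) + q / N) + 8 / T ^ 6) *
        (1 + ((α - (c : ℝ) / q) * 2 ^ (D * j)) ^ 2)⁻¹ := by
    intro q c
    have := Real.pi_pos
    positivity
  have hsum : 0 ≤ ∑ q ∈ Qs j, ∑ c ∈ Finset.range (q + 1), CM * 2 ^ (Fintype.card ι * j) *
        (2 / (q : ℝ) ^ 9 * (Real.pi * (W * H) / 2 ^ (D * j) + q / N) + 8 / T ^ 6) *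
        (1 + ((α - (c : ℝ) / q) * 2 ^ (D * j)) ^ 2)⁻¹ :=
    Finset.sum_nonneg fun q _ => Finset.sum_nonneg fun c _ => hterm q c
  have hPhi2 := norm_one_sub_Phi_le_two W H α
  -- Dirichlet
  have hT1 : 1 ≤ T ^ (10 * D - 1) := one_le_pow₀ hT
  set n0 : ℕ := ⌊T ^ (10 * D - 1)⌋₊ with hn0
  have hn0pos : 0 < n0 := Nat.floor_pos.mpr hT1
  have hn0le : (n0 : ℝ) ≤ T ^ (10 * D - 1) := Nat.floor_le (by positivity)
  have hn0lt : T ^ (10 * D - 1) < n0 + 1 := Nat.lt_floor_add_one _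
  have hTD : T ^ (10 * D - 1) * T = 2 ^ (D * j) := by
    rw [← pow_succ, show 10 * D - 1 + 1 = 10 * D by omega, pow_mul, hT10, ← pow_mul, mul_comm j D]
  obtain ⟨r, hr, hrd⟩ := Real.exists_rat_abs_sub_le_and_den_le α hn0pos
  set q : ℕ := r.den with hq
  have hqpos : 0 < q := r.den_pos
  have hq1 : (1 : ℝ) ≤ q := by exact_mod_cast hqpos
  have hqn : (q : ℝ) ≤ n0 := by exact_mod_cast hrd
  have hrc : (r : ℝ) = (r.num : ℝ) / q := Rat.cast_def r
  rw [hrc] at hr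
  have hcop : IsCoprime r.num (q : ℤ) := Rat.isCoprime_num_den r
  by_cases hcase : 2 ^ j ≤ q ^ 10
  · -- minor arcs
    have h1 : |α - (r.num : ℝ) / q| ≤ 1 / (q : ℝ) ^ 2 := by
      refine hr.trans ?_
      apply one_div_le_one_div_of_le (by positivity)
      rw [pow_two]
      gcongr
      linarith
    have h2 : q ^ 10 * 2 ^ j ≤ 2 ^ (10 * D * j) := by
      have h3 : (q : ℝ) ^ 10 * 2 ^ j ≤ 2 ^ (10 * D * j) := by
        calc (q : ℝ) ^ 10 * 2 ^ j ≤ (T ^ (10 * D - 1)) ^ 10 * T ^ 10 := by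
              rw [hT10]; gcongr; exact hqn.trans hn0le
          _ = (2 ^ (D * j)) ^ 10 := by rw [← mul_pow, hTD]
          _ = 2 ^ (10 * D * j) := by rw [← pow_mul]; congr 1; ring
      exact_mod_cast h3
    have h3 := hCr α r.num q hqpos hcop h1 hcase h2
    rw [← le_div_iff₀ (by positivity)] at h3
    rw [norm_mul]
    have h4 : ‖Sj G a b j α‖ * ‖1 - Phi W H α‖ ≤
        (2 ^ (Fintype.card ι * j) / 2 ^ ((D + 1) * j)) * 2 := by gcongr
    linarith
  · push Not at hcase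
    have hqT : (q : ℝ) ≤ T := by
      have h1 : (q : ℝ) ^ 10 ≤ T ^ 10 := by
        rw [hT10]; exact_mod_cast hcase.le
      exact le_of_pow_le_pow_left₀ (by norm_num) (by positivity) h1
    have hqQ : q ∈ Qs j := by
      unfold Qs
      rw [Finset.mem_filter, Finset.mem_Icc]
      refine ⟨⟨hqpos, ?_⟩, hcase.le⟩
      calc q = q ^ 1 := (pow_one q).symm
        _ ≤ q ^ 10 := Nat.pow_le_pow_right hqpos (by norm_num)
        _ ≤ 2 ^ j := hcase.le
    set β : ℝ := α - (r.num : ℝ) / q with hβ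
    have hαβ : α = (r.num : ℝ) / q + β := by rw [hβ]; ring
    -- the range of the numerator
    have hn0' : (1 : ℝ) ≤ n0 := by exact_mod_cast hn0pos
    have hβq : |β| * q ≤ 1 / (n0 + 1) := by
      have : |β| * q ≤ 1 / ((n0 + 1) * q) * q := by gcongr
      refine this.trans (le_of_eq ?_)
      field_simp
    have hn01 : (1 : ℝ) / (n0 + 1) < 1 := by
      rw [div_lt_one (by positivity)]; linarith
    have hcq : (r.num : ℝ) = α * q - β * q := by
      rw [hβ]; field_simp; ring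
    have hβq' := abs_le.mp (show |β * q| ≤ 1 / ((n0 : ℝ) + 1) by
      rw [abs_mul, Nat.abs_cast]; exact hβq)
    have hc0 : 0 ≤ r.num := by
      have h1 : (-1 : ℝ) < r.num := by
        rw [hcq]
        have : 0 ≤ α * q := by positivity
        linarith [hβq'.2]
      have h2 : (-1 : ℤ) < r.num := by exact_mod_cast h1
      omega
    have hcq1 : r.num ≤ q := by
      have h1 : (r.num : ℝ) < q + 1 := by
        rw [hcq]
        have : α * q ≤ 1 * q := by gcongr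
        linarith [hβq'.1]
      have h2 : r.num < q + 1 := by exact_mod_cast h1
      omega
    obtain ⟨c, hc⟩ := Int.eq_ofNat_of_zero_le hc0
    have hcr : c ∈ Finset.range (q + 1) := by
      rw [Finset.mem_range]
      omega
    have hβT : |β| * 2 ^ (D * j) ≤ T := by
      have h1 : |β| ≤ 1 / (n0 + 1) := by
        have : |β| * 1 ≤ |β| * q := by gcongr
        linarith
      calc |β| * 2 ^ (D * j) ≤ 1 / (n0 + 1) * 2 ^ (D * j) := by gcongr
        _ ≤ 1 / T ^ (10 * D - 1) * 2 ^ (D * j) := by gcongr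
        _ = T := by rw [← hTD]; field_simp
    have hβ10 : (|β| * 2 ^ (D * j)) ^ 10 ≤ 2 ^ j := by
      rw [← hT10]; gcongr
    have hS := hMaj j q r.num β hqpos hcop hcase.le hβ10
    rw [← hαβ] at hS
    -- the single term
    set Y : ℝ := |β| * 2 ^ (D * j) with hY
    have hY0 : 0 ≤ Y := by positivity
    have hPi := Real.pi_pos
    have hw : (q : ℝ) ≤ N → ‖1 - Phi W H α‖ ≤ 2 * ((Real.pi * (W * H) / 2 ^ (D * j)) * Y) := by
      intro hqN
      have hqW : q ∣ W := Nat.dvd_factorial hqpos (by exact_mod_cast hqN)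
      have h1 := norm_one_sub_Phi_le W H q r.num β hqpos hqW
      rw [← hαβ] at h1
      refine h1.trans (le_of_eq ?_)
      rw [hY]
      field_simp
    have hc1 := claim1 ‖1 - Phi W H α‖ Y (Real.pi * (W * H) / 2 ^ (D * j)) q N hPhi2 hY0
      (by positivity) hq1 (by exact_mod_cast hN) hw
    have hc2 := claim2 ‖1 - Phi W H α‖ Y T q hPhi2 hY0 hT hβT hq1 hqT
    rw [hT10] at hc2
    have hsingle : ‖Sj G a b j α * (1 - Phi W H α)‖ ≤ CM * 2 ^ (Fintype.card ι * j) *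
        (2 / (q : ℝ) ^ 9 * (Real.pi * (W * H) / 2 ^ (D * j) + q / N) + 8 / T ^ 6) *
        (1 + ((α - (c : ℝ) / q) * 2 ^ (D * j)) ^ 2)⁻¹ := by
      have h1 : ((α - (c : ℝ) / q) * 2 ^ (D * j)) ^ 2 = Y ^ 2 := by
        rw [hY, mul_pow, mul_pow, sq_abs, hβ, hc]
        simp
      rw [h1, norm_mul]
      calc ‖Sj G a b j α‖ * ‖1 - Phi W H α‖ ≤
          (CM * 2 ^ (Fintype.card ι * j) * (1 / ((q : ℝ) ^ 9 * (1 + Y) ^ 9) +
            q * (1 + Y) / 2 ^ j)) * ‖1 - Phi W H α‖ := by gcongr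
        _ = CM * 2 ^ (Fintype.card ι * j) * (‖1 - Phi W H α‖ * (1 / ((q : ℝ) ^ 9 * (1 + Y) ^ 9)) +
            ‖1 - Phi W H α‖ * (q * (1 + Y) / 2 ^ j)) := by ring
        _ ≤ CM * 2 ^ (Fintype.card ι * j) * (2 / (q : ℝ) ^ 9 * (Real.pi * (W * H) / 2 ^ (D * j) +
            q / N) * (1 + Y ^ 2)⁻¹ + 8 / T ^ 6 * (1 + Y ^ 2)⁻¹) := by gcongr
        _ = _ := by ring
    refine hsingle.trans ?_
    have h2 : CM * 2 ^ (Fintype.card ι * j) *
        (2 / (q : ℝ) ^ 9 * (Real.pi * (W * H) / 2 ^ (D * j) + q / N) + 8 / T ^ 6) *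
        (1 + ((α - (c : ℝ) / q) * 2 ^ (D * j)) ^ 2)⁻¹ ≤
        ∑ c ∈ Finset.range (q + 1), CM * 2 ^ (Fintype.card ι * j) *
        (2 / (q : ℝ) ^ 9 * (Real.pi * (W * H) / 2 ^ (D * j) + q / N) + 8 / T ^ 6) *
        (1 + ((α - (c : ℝ) / q) * 2 ^ (D * j)) ^ 2)⁻¹ :=
      Finset.single_le_sum (f := fun c : ℕ => CM * 2 ^ (Fintype.card ι * j) *
        (2 / (q : ℝ) ^ 9 * (Real.pi * (W * H) / 2 ^ (D * j) + q / N) + 8 / T ^ 6) *
        (1 + ((α - (c : ℝ) / q) * 2 ^ (D * j)) ^ 2)⁻¹) (fun c _ => hterm q c) hcr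
    have h3 := Finset.single_le_sum (f := fun q : ℕ => ∑ c ∈ Finset.range (q + 1),
        CM * 2 ^ (Fintype.card ι * j) *
        (2 / (q : ℝ) ^ 9 * (Real.pi * (W * H) / 2 ^ (D * j) + q / N) + 8 / T ^ 6) *
        (1 + ((α - (c : ℝ) / q) * 2 ^ (D * j)) ^ 2)⁻¹)
        (fun q _ => Finset.sum_nonneg fun c _ => hterm q c) hqQ
    have h4 : (0:ℝ) ≤ 2 * (2 ^ (Fintype.card ι * j) / 2 ^ ((D + 1) * j)) := by positivity
    linarith


/-- the sum over the major arcs. -/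
lemma sum_bound (j : ℕ) (A T : ℝ) (hA : 0 ≤ A) (hT : 1 ≤ T) (hT10 : T ^ 10 = 2 ^ j) (N : ℕ)
    (hN : 1 ≤ N) :
    ∑ q ∈ Qs j, ((q : ℝ) + 1) * (2 / (q : ℝ) ^ 9 * (A + q / N) + 8 / T ^ 6) ≤
      8 * (A + 1 / N) + 16 / T := by
  have hqT : ∀ q ∈ Qs j, 1 ≤ q ∧ (q : ℝ) ≤ T := by
    intro q hq
    unfold Qs at hq
    rw [Finset.mem_filter, Finset.mem_Icc] at hq
    refine ⟨hq.1.1, ?_⟩
    have h1 : (q : ℝ) ^ 10 ≤ T ^ 10 := by
      rw [hT10]; exact_mod_cast hq.2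
    exact le_of_pow_le_pow_left₀ (by norm_num) (by positivity) h1
  have hcard : ((Qs j).card : ℝ) ≤ T := by
    have h1 : Qs j ⊆ Finset.Icc 1 ⌊T⌋₊ := by
      intro q hq
      rw [Finset.mem_Icc]
      exact ⟨(hqT q hq).1, Nat.le_floor (hqT q hq).2⟩
    have h2 := Finset.card_le_card h1
    rw [Nat.card_Icc, Nat.add_sub_cancel] at h2
    exact (Nat.cast_le.mpr h2).trans (Nat.floor_le (by positivity))
  have hN' : (1 : ℝ) ≤ N := by exact_mod_cast hN
  have h1 : ∀ q ∈ Qs j, ((q : ℝ) + 1) * (2 / (q : ℝ) ^ 9 * (A + q / N) + 8 / T ^ 6) ≤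
      4 * (A + 1 / N) * ((q : ℝ) ^ 2)⁻¹ + 16 / T ^ 5 := by
    intro q hq
    obtain ⟨hq1, hq2⟩ := hqT q hq
    have hq1' : (1 : ℝ) ≤ q := by exact_mod_cast hq1
    have h2 : ((q : ℝ) + 1) * (2 / (q : ℝ) ^ 9 * (A + q / N)) ≤ 4 * (A + 1 / N) * ((q : ℝ) ^ 2)⁻¹ := by
      have h3 : ((q : ℝ) + 1) ≤ 2 * q := by linarith
      have h4 : (A + (q : ℝ) / N) ≤ q * (A + 1 / N) := by
        have : A ≤ q * A := by nlinarith
        calc (A + (q : ℝ) / N) ≤ q * A + q / N := by linarith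
          _ = q * (A + 1 / N) := by ring
      calc ((q : ℝ) + 1) * (2 / (q : ℝ) ^ 9 * (A + q / N)) ≤
            (2 * q) * (2 / (q : ℝ) ^ 9 * (q * (A + 1 / N))) := by gcongr
        _ = 4 * (A + 1 / N) * ((q : ℝ) ^ 7)⁻¹ := by field_simp; ring
        _ ≤ 4 * (A + 1 / N) * ((q : ℝ) ^ 2)⁻¹ := by
            gcongr
            norm_num
    have h5 : ((q : ℝ) + 1) * (8 / T ^ 6) ≤ 16 / T ^ 5 := by
      calc ((q : ℝ) + 1) * (8 / T ^ 6) ≤ (2 * T) * (8 / T ^ 6) := by gcongr; linarith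
        _ = 16 / T ^ 5 := by field_simp; ring
    rw [mul_add]
    linarith
  refine (Finset.sum_le_sum h1).trans ?_
  rw [Finset.sum_add_distrib, ← Finset.mul_sum, Finset.sum_const, nsmul_eq_mul]
  have h2 := sum_inv_sq_le (Qs j) fun q hq => (hqT q hq).1
  have h3 : ((Qs j).card : ℝ) * (16 / T ^ 5) ≤ 16 / T := by
    calc ((Qs j).card : ℝ) * (16 / T ^ 5) ≤ T * (16 / T ^ 5) := by gcongr
      _ = 16 / T ^ 4 := by field_simp
      _ ≤ 16 / T ^ 1 := by
          gcongr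
          norm_num
      _ = 16 / T := by rw [pow_one]
  have h4 : 4 * (A + 1 / (N : ℝ)) * ∑ q ∈ Qs j, ((q : ℝ) ^ 2)⁻¹ ≤ 4 * (A + 1 / N) * 2 := by gcongr
  linarith

/-- the tenth root of `2^j`. -/
lemma exists_T (j : ℕ) : ∃ T : ℝ, 1 ≤ T ∧ T ^ 10 = 2 ^ j ∧ ((j : ℝ) + 1) ≤ 20 * T := by
  refine ⟨(2 : ℝ) ^ ((j : ℝ) / 10), ?_, ?_, ?_⟩
  · exact Real.one_le_rpow (by norm_num) (by positivity)
  · rw [← Real.rpow_natCast, ← Real.rpow_mul (by norm_num), ← Real.rpow_natCast]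
    congr 1
    push_cast
    ring
  · have h1 : (2 : ℝ) ^ ((j : ℝ) / 10) = Real.exp (Real.log 2 * ((j : ℝ) / 10)) :=
      Real.rpow_def_of_pos (by norm_num) _
    rw [h1]
    have h2 := Real.add_one_le_exp (Real.log 2 * ((j : ℝ) / 10))
    have h3 := Real.log_two_gt_d9
    have h4 : (0 : ℝ) ≤ j := by positivity
    nlinarith

end

end INTx

open INTx in
/-- Comparison with the smoothed count. -/
theorem t_INT : S_INT := by
  intro ι _ _ G D hD _ a b _ hCr hMaj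
  obtain ⟨j0, hj0⟩ := hCr
  obtain ⟨CM', hCM'⟩ := hMaj
  set CM : ℝ := max CM' 0 with hCMdef
  have hCM0 : 0 ≤ CM := le_max_right _ _
  have hCM : ∀ (j q : ℕ) (c : ℤ) (β : ℝ), 0 < q → IsCoprime c (q : ℤ) → q ^ 10 ≤ 2 ^ j →
      (|β| * 2 ^ (D * j)) ^ 10 ≤ 2 ^ j →
      ‖Sj G a b j ((c : ℝ) / q + β)‖ ≤ CM * 2 ^ (Fintype.card ι * j) *
        (1 / ((q : ℝ) ^ 9 * (1 + |β| * 2 ^ (D * j)) ^ 9) +
          q * (1 + |β| * 2 ^ (D * j)) / 2 ^ j) := by
    intro j q c β h1 h2 h3 h4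
    refine (hCM' j q c β h1 h2 h3 h4).trans ?_
    gcongr
    exact le_max_left _ _
  have hPi := Real.pi_pos
  refine ⟨2 + CM * Real.pi * (8 * Real.pi + 8 + 320), by positivity, j0, ?_⟩
  intro j hj N H hN
  obtain ⟨T, hT1, hT10, hTj⟩ := exists_T j
  set X : ℝ := 2 ^ (D * j) with hX
  have hXpos : 0 < X := by positivity
  set n : ℕ := Fintype.card ι with hn
  have hW : 0 < N.factorial := Nat.factorial_pos N
  -- the identity
  have hid := identity G a b j N.factorial H hW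
  have habs : |(N0 G a b j : ℝ) - N1 G a b j (N.factorial) H / (2 * H + 1)| =
      ‖∫ α in (0:ℝ)..1, Sj G a b j α * (1 - Phi N.factorial H α)‖ := by
    rw [← hid, Complex.norm_real, Real.norm_eq_abs]
  rw [habs]
  -- the majorant
  set M : ℝ → ℝ := fun α => 2 * (2 ^ (n * j) / 2 ^ ((D + 1) * j)) +
      ∑ q ∈ Qs j, ∑ c ∈ Finset.range (q + 1), CM * 2 ^ (n * j) *
        (2 / (q : ℝ) ^ 9 * (Real.pi * (N.factorial * H) / X + q / N) + 8 / T ^ 6) *
        (1 + ((α - (c : ℝ) / q) * X) ^ 2)⁻¹ with hM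
  have hcont1 : ∀ x : ℝ, Continuous fun α : ℝ => (1 + ((α - x) * X) ^ 2)⁻¹ := by
    intro x
    refine Continuous.inv₀ (by fun_prop) ?_
    intro α
    positivity
  have hMcont : Continuous M := by
    rw [hM]
    refine continuous_const.add ?_
    refine continuous_finsetSum _ fun q _ => continuous_finsetSum _ fun c _ => ?_
    exact continuous_const.mul (hcont1 _)
  have hint : ‖∫ α in (0:ℝ)..1, Sj G a b j α * (1 - Phi N.factorial H α)‖ ≤
      ∫ α in (0:ℝ)..1, M α := by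
    refine intervalIntegral.norm_integral_le_of_norm_le (by norm_num) ?_
      (hMcont.intervalIntegrable _ _)
    refine Filter.Eventually.of_forall fun α hα => ?_
    exact pointwise G D (by omega) a b CM hCM0 hCM j (hj0 j hj) T hT1 hT10 N H hN α hα.1.le hα.2
  refine hint.trans ?_
  -- the integral of the majorant
  have hIM : ∫ α in (0:ℝ)..1, M α ≤ 2 * (2 ^ (n * j) / 2 ^ ((D + 1) * j)) +
      ∑ q ∈ Qs j, ∑ c ∈ Finset.range (q + 1), CM * 2 ^ (n * j) *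
        (2 / (q : ℝ) ^ 9 * (Real.pi * (N.factorial * H) / X + q / N) + 8 / T ^ 6) *
        (Real.pi / X) := by
    rw [hM, intervalIntegral.integral_add]
    · refine add_le_add (by simp) ?_
      rw [intervalIntegral.integral_finsetSum]
      · refine Finset.sum_le_sum fun q _ => ?_
        rw [intervalIntegral.integral_finsetSum]
        · refine Finset.sum_le_sum fun c _ => ?_
          rw [intervalIntegral.integral_const_mul]
          refine mul_le_mul_of_nonneg_left (integral_majorant _ _ hXpos) (by positivity)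
        · intro c _
          exact (continuous_const.mul (hcont1 _)).intervalIntegrable _ _
      · intro q _
        refine Continuous.intervalIntegrable ?_ _ _
        exact continuous_finsetSum _ fun c _ => continuous_const.mul (hcont1 _)
    · exact continuous_const.intervalIntegrable _ _
    · refine Continuous.intervalIntegrable ?_ _ _
      exact continuous_finsetSum _ fun q _ => continuous_finsetSum _ fun c _ =>
        continuous_const.mul (hcont1 _)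
  refine hIM.trans ?_
  have hsum : ∑ q ∈ Qs j, ∑ c ∈ Finset.range (q + 1), CM * 2 ^ (n * j) *
        (2 / (q : ℝ) ^ 9 * (Real.pi * (N.factorial * H) / X + q / N) + 8 / T ^ 6) *
        (Real.pi / X) =
      CM * 2 ^ (n * j) * (Real.pi / X) * ∑ q ∈ Qs j, ((q : ℝ) + 1) *
        (2 / (q : ℝ) ^ 9 * (Real.pi * (N.factorial * H) / X + q / N) + 8 / T ^ 6) := by
    rw [Finset.mul_sum]
    refine Finset.sum_congr rfl fun q _ => ?_
    rw [Finset.sum_const, Finset.card_range, nsmul_eq_mul]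
    push_cast
    ring
  rw [hsum]
  have hsb := sum_bound j (Real.pi * (N.factorial * H) / X) T (by positivity) hT1 hT10 N hN
  have hj1 : (0 : ℝ) < (j : ℝ) + 1 := by positivity
  have hN' : (1 : ℝ) ≤ N := by exact_mod_cast hN
  have h16 : 16 / T ≤ 320 / ((j : ℝ) + 1) := by
    rw [div_le_div_iff₀ (by positivity) hj1]
    linarith
  have hP : (1 : ℝ) / 2 ^ j ≤ 1 / ((j : ℝ) + 1) := by
    apply one_div_le_one_div_of_le hj1
    have h1 : j + 1 ≤ 2 ^ j := Nat.lt_two_pow_self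
    exact_mod_cast h1
  have hfirst : (2 : ℝ) * (2 ^ (n * j) / 2 ^ ((D + 1) * j)) ≤
      2 * (1 / ((j : ℝ) + 1)) * (2 ^ (n * j) / X) := by
    have h1 : (2 : ℝ) ^ ((D + 1) * j) = X * 2 ^ j := by
      rw [hX, ← pow_add]; congr 1; ring
    calc (2 : ℝ) * (2 ^ (n * j) / 2 ^ ((D + 1) * j)) = 2 * (1 / 2 ^ j) * (2 ^ (n * j) / X) := by
          rw [h1]; field_simp
      _ ≤ 2 * (1 / ((j : ℝ) + 1)) * (2 ^ (n * j) / X) := by gcongr
  set E : ℝ := (N.factorial * H : ℝ) / X + 1 / N + 1 / (j + 1) with hE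
  have hE1 : (N.factorial * H : ℝ) / X ≤ E := by
    have : (0:ℝ) ≤ 1 / N := by positivity
    have : (0:ℝ) ≤ 1 / (j + 1) := by positivity
    rw [hE]; linarith
  have hE2 : (1 : ℝ) / N ≤ E := by
    have : (0:ℝ) ≤ (N.factorial * H : ℝ) / X := by positivity
    have : (0:ℝ) ≤ 1 / (j + 1) := by positivity
    rw [hE]; linarith
  have hE3 : (1 : ℝ) / ((j : ℝ) + 1) ≤ E := by
    have : (0:ℝ) ≤ (N.factorial * H : ℝ) / X := by positivity
    have : (0:ℝ) ≤ 1 / N := by positivity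
    rw [hE]; linarith
  have hR : (0 : ℝ) ≤ 2 ^ (n * j) / X := by positivity
  have hsecond : CM * 2 ^ (n * j) * (Real.pi / X) * ∑ q ∈ Qs j, ((q : ℝ) + 1) *
        (2 / (q : ℝ) ^ 9 * (Real.pi * (N.factorial * H) / X + q / N) + 8 / T ^ 6) ≤
      CM * Real.pi * ((8 * Real.pi + 8 + 320) * E) * (2 ^ (n * j) / X) := by
    have h1 : 8 * (Real.pi * (N.factorial * H) / X + 1 / N) + 16 / T ≤
        (8 * Real.pi + 8 + 320) * E := by
      have h2 : Real.pi * (N.factorial * H) / X ≤ Real.pi * E := by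
        rw [mul_div_assoc]; gcongr
      have h3 : 320 / ((j : ℝ) + 1) ≤ 320 * E := by
        calc 320 / ((j : ℝ) + 1) = 320 * (1 / ((j : ℝ) + 1)) := by ring
          _ ≤ 320 * E := by gcongr
      linarith
    calc CM * 2 ^ (n * j) * (Real.pi / X) * ∑ q ∈ Qs j, ((q : ℝ) + 1) *
        (2 / (q : ℝ) ^ 9 * (Real.pi * (N.factorial * H) / X + q / N) + 8 / T ^ 6) ≤
        CM * 2 ^ (n * j) * (Real.pi / X) * ((8 * Real.pi + 8 + 320) * E) := by
          refine mul_le_mul_of_nonneg_left (hsb.trans h1) (by positivity)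
      _ = _ := by ring
  have hfirst' : (2 : ℝ) * (1 / ((j : ℝ) + 1)) * (2 ^ (n * j) / X) ≤ 2 * E * (2 ^ (n * j) / X) := by
    gcongr
  calc _ ≤ 2 * E * (2 ^ (n * j) / X) +
        CM * Real.pi * ((8 * Real.pi + 8 + 320) * E) * (2 ^ (n * j) / X) :=
        add_le_add (hfirst.trans hfirst') hsecond
    _ = (2 + CM * Real.pi * (8 * Real.pi + 8 + 320)) * E * (2 ^ (n * j) / X) := by ring

end Pool.Agent.helper132_hp
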