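import Pool.Agent.helper132_hp.Stmts
import Pool.Agent.helper132_dc.D10
import Pool.Agent.helper132_ec.E2

/-! Mean value for the pair of exponents `k, 2k` (from Vinogradov's mean value theorem). -/

namespace Pool.Agent.helper132_hp

open Finset Pool.Agent.helper132_poly Pool.Agent.helper132_quad

namespace MVx

/-- the interval box -/
noncomputable def bi (s : ℕ) (x y : ℤ) : Finset (Fin s → ℤ) := Fintype.piFinset fun _ => Ico x y

lemma mem_bi {s : ℕ} {x y : ℤ} {u : Fin s → ℤ} : u ∈ bi s x y ↔ ∀ i, x ≤ u i ∧ u i < y := by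
  unfold bi
  rw [Fintype.mem_piFinset]
  simp only [Finset.mem_Ico]

lemma count_zero (κ s : ℕ) (x : ℤ) (L : ℕ) :
    ((bi s x (x + L) ×ˢ bi s x (x + L)).filter (fun w => psm κ w.1 = psm κ w.2)).card ≤ Jm κ s L := by
  unfold Jm
  refine Finset.card_le_card_of_injOn
    (fun w => ((fun i => w.1 i - x, fun i => w.2 i - x) : (Fin s → ℤ) × (Fin s → ℤ))) ?_ ?_
  · intro w hw
    rw [Finset.mem_coe, Finset.mem_filter, Finset.mem_product, mem_bi, mem_bi] at hw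
    obtain ⟨⟨h1, h2⟩, h3⟩ := hw
    rw [Finset.mem_coe, Finset.mem_filter, Finset.mem_product, mem_bx, mem_bx]
    refine ⟨⟨fun i => ?_, fun i => ?_⟩, ?_⟩
    · have := h1 i
      exact ⟨by simp only; omega, by simp only; omega⟩
    · have := h2 i
      exact ⟨by simp only; omega, by simp only; omega⟩
    · funext j
      have e1 := Pool.Agent.helper132_ec.tr_psm κ x w.1 j
      have e2 := Pool.Agent.helper132_ec.tr_psm κ x w.2 j
      rw [h3, e2] at e1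
      rw [psm_apply, psm_apply]
      linarith
  · intro w _ w' _ h
    simp only [Prod.mk.injEq] at h
    obtain ⟨h1, h2⟩ := h
    refine Prod.ext (funext fun i => ?_) (funext fun i => ?_)
    · have := congrFun h1 i; omega
    · have := congrFun h2 i; omega

lemma pow_abs_le (x M : ℤ) (n : ℕ) (h : |x| ≤ M) : |x ^ n| ≤ M ^ n := by
  rw [abs_pow]
  exact pow_le_pow_left₀ (abs_nonneg x) h n

lemma sum_fin (κ : ℕ) : 2 * ∑ j : Fin κ, ((j : ℕ) + 1) = κ * (κ + 1) := by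
  rw [Fin.sum_univ_eq_sum_range (fun j => j + 1) κ]
  have h := Finset.sum_range_succ' (fun j => j) κ
  simp only [add_zero] at h
  rw [← h, mul_comm, Finset.sum_range_id_mul_two]
  simp [mul_comm]

/-- the set of possible differences. -/
noncomputable def HS (k b : ℕ) (M m1 m2 : ℤ) : Finset (Fin (2 * k) → ℤ) :=
  Fintype.piFinset fun j => if (j : ℕ) + 1 = k then {m1} else if (j : ℕ) + 1 = 2 * k then {m2} else
    Icc (-(2 * b * M ^ ((j : ℕ) + 1))) (2 * b * M ^ ((j : ℕ) + 1))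

lemma card_HS (k b : ℕ) (hk : 1 ≤ k) (M : ℕ) (hM : 1 ≤ M) (m1 m2 : ℤ) :
    (HS k b M m1 m2).card * M ^ (3 * k) ≤ (4 * b + 1) ^ (2 * k) * M ^ (bb k) := by
  unfold HS
  rw [Fintype.card_piFinset]
  have h1 : ∀ j : Fin (2 * k), (if (j : ℕ) + 1 = k then ({m1} : Finset ℤ) else
      if (j : ℕ) + 1 = 2 * k then {m2} else
      Icc (-(2 * b * (M : ℤ) ^ ((j : ℕ) + 1))) (2 * b * (M : ℤ) ^ ((j : ℕ) + 1))).card ≤
      (4 * b + 1) * M ^ (if (j : ℕ) + 1 = k then 0 else if (j : ℕ) + 1 = 2 * k then 0 else (j : ℕ) + 1) := by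
    intro j
    have hMp : 1 ≤ M ^ ((j : ℕ) + 1) := Nat.one_le_pow _ _ hM
    split_ifs with h1 h2
    · simp
    · simp
    · rw [Int.card_Icc]
      have : (2 * b * (M : ℤ) ^ ((j : ℕ) + 1) + 1 - -(2 * b * (M : ℤ) ^ ((j : ℕ) + 1))).toNat =
          4 * b * M ^ ((j : ℕ) + 1) + 1 := by
        have h3 : 2 * b * (M : ℤ) ^ ((j : ℕ) + 1) + 1 - -(2 * b * (M : ℤ) ^ ((j : ℕ) + 1)) =
          ((4 * b * M ^ ((j : ℕ) + 1) + 1 : ℕ) : ℤ) := by push_cast; ring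
        rw [h3, Int.toNat_natCast]
      rw [this]
      nlinarith
  refine (Nat.mul_le_mul_right _ (Finset.prod_le_prod' fun j _ => h1 j)).trans ?_
  rw [Finset.prod_mul_distrib, Finset.prod_const, Finset.card_univ, Fintype.card_fin, mul_assoc]
  refine Nat.mul_le_mul_left _ ?_
  rw [Finset.prod_pow_eq_pow_sum, ← pow_add]
  refine Nat.pow_le_pow_right hM ?_
  have hs := sum_fin (2 * k)
  obtain ⟨j1, hj1⟩ : ∃ j1 : Fin (2 * k), j1 = ⟨k - 1, by omega⟩ := ⟨_, rfl⟩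
  obtain ⟨j2, hj2⟩ : ∃ j2 : Fin (2 * k), j2 = ⟨2 * k - 1, by omega⟩ := ⟨_, rfl⟩
  have hj1v : (j1 : ℕ) + 1 = k := by rw [hj1]; simp only; omega
  have hj2v : (j2 : ℕ) + 1 = 2 * k := by rw [hj2]; simp only; omega
  have e1 : ∑ j : Fin (2 * k), ((j : ℕ) + 1) =
      ∑ j : Fin (2 * k), ((if (j : ℕ) + 1 = k then 0 else if (j : ℕ) + 1 = 2 * k then 0 else (j : ℕ) + 1) +
      ((if j = j1 then k else 0) + (if j = j2 then 2 * k else 0))) := by
    refine Finset.sum_congr rfl fun j _ => ?_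
    have e3 : (j = j1) ↔ ((j : ℕ) + 1 = k) := by
      constructor
      · intro h; rw [h]; exact hj1v
      · intro h; apply Fin.ext; omega
    have e4 : (j = j2) ↔ ((j : ℕ) + 1 = 2 * k) := by
      constructor
      · intro h; rw [h]; exact hj2v
      · intro h; apply Fin.ext; omega
    simp only [e3, e4]
    split_ifs <;> omega
  have e5 : ∑ j : Fin (2 * k), ((if j = j1 then k else 0) + (if j = j2 then 2 * k else 0)) = k + 2 * k := by
    rw [Finset.sum_add_distrib, Finset.sum_ite_eq', Finset.sum_ite_eq']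
    simp
  rw [Finset.sum_add_distrib (f := fun j : Fin (2 * k) => if (j : ℕ) + 1 = k then 0 else
    if (j : ℕ) + 1 = 2 * k then 0 else (j : ℕ) + 1), e5] at e1
  unfold bb
  nlinarith

end MVx

open MVx in
theorem t_MV : S_MV := by
  intro k hk a b hab η hη
  obtain ⟨C, hC, hmv⟩ := Pool.Agent.helper132_dc.vmvt (2 * k) (by omega) η hη
  have hsk : Pool.Agent.helper132_dc.sk (2 * k) = bb k := by
    unfold Pool.Agent.helper132_dc.sk bb
    rw [show 2 * k * (2 * k + 1) = 2 * (k * (2 * k + 1)) by ring]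
    simp
  rw [hsk] at hmv
  obtain ⟨b0, hb0⟩ : ∃ b0, b0 = bb k := ⟨_, rfl⟩
  have hb3 : 3 * k ≤ bb k := by unfold bb; nlinarith
  obtain ⟨C1, hC1⟩ : ∃ C1 : ℕ, C1 = a.natAbs + b.natAbs := ⟨_, rfl⟩
  have hC11 : 1 ≤ C1 := by omega
  obtain ⟨L0, hL0⟩ : ∃ L0 : ℕ, (L0 : ℤ) = b - a := ⟨(b - a).toNat, by omega⟩
  have hL01 : 1 ≤ L0 := by omega
  have hL0C : L0 ≤ C1 := by omega
  refine ⟨(4 * bb k + 1 : ℝ) ^ (2 * k) * C * (C1 : ℝ) ^ ((2 * bb k : ℝ) + η), by positivity, ?_⟩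
  intro j m1 m2
  have h2j : 1 ≤ 2 ^ j := Nat.one_le_two_pow
  obtain ⟨M, hM⟩ : ∃ M : ℕ, M = C1 * 2 ^ j := ⟨_, rfl⟩
  obtain ⟨L, hL⟩ : ∃ L : ℕ, L = L0 * 2 ^ j := ⟨_, rfl⟩
  have hM1 : 1 ≤ M := by rw [hM]; exact Nat.mul_pos hC11 h2j
  have hL1 : 1 ≤ L := by rw [hL]; exact Nat.mul_pos hL01 h2j
  have hLz : b * 2 ^ j = a * 2 ^ j + L := by
    rw [hL]; push_cast; rw [hL0]; ring
  have hbox : (Fintype.piFinset fun _ : Fin (bb k) => Finset.Ico (a * 2 ^ j) (b * 2 ^ j)) =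
      bi (bb k) (a * 2 ^ j) (a * 2 ^ j + L) := by unfold bi; rw [hLz]
  rw [hbox]
  have hbd : ∀ u ∈ bi (bb k) (a * 2 ^ j) (a * 2 ^ j + L), ∀ i, |u i| ≤ (M : ℤ) := by
    intro u hu i
    have h1 := mem_bi.1 hu i
    rw [← hLz] at h1
    have h2 : (0 : ℤ) < 2 ^ j := by positivity
    have h3 : -(C1 : ℤ) ≤ a := by omega
    have h4 : b ≤ (C1 : ℤ) := by omega
    rw [hM]
    push_cast
    rw [abs_le]
    constructor <;> nlinarith
  have hcard : (((bi (bb k) (a * 2 ^ j) (a * 2 ^ j + L) ×ˢ bi (bb k) (a * 2 ^ j) (a * 2 ^ j + L)).filter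
        fun w => (∑ i, w.1 i ^ k - ∑ i, w.2 i ^ k = m1) ∧
          (∑ i, w.1 i ^ (2 * k) - ∑ i, w.2 i ^ (2 * k) = m2)).card) ≤
      (HS k (bb k) M m1 m2).card * Jm (2 * k) (bb k) L := by
    have hsub : ((bi (bb k) (a * 2 ^ j) (a * 2 ^ j + L) ×ˢ bi (bb k) (a * 2 ^ j) (a * 2 ^ j + L)).filter
        fun w => (∑ i, w.1 i ^ k - ∑ i, w.2 i ^ k = m1) ∧
          (∑ i, w.1 i ^ (2 * k) - ∑ i, w.2 i ^ (2 * k) = m2)) ⊆
        (HS k (bb k) M m1 m2).biUnion fun h =>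
          ((bi (bb k) (a * 2 ^ j) (a * 2 ^ j + L) ×ˢ bi (bb k) (a * 2 ^ j) (a * 2 ^ j + L)).filter
            (fun w => psm (2 * k) w.1 - psm (2 * k) w.2 = h)) := by
      intro w hw
      rw [Finset.mem_filter] at hw
      obtain ⟨hw1, hw2, hw3⟩ := hw
      rw [Finset.mem_biUnion]
      refine ⟨psm (2 * k) w.1 - psm (2 * k) w.2, ?_, by rw [Finset.mem_filter]; exact ⟨hw1, rfl⟩⟩
      unfold HS
      rw [Fintype.mem_piFinset]
      intro i
      rw [Pi.sub_apply, psm_apply, psm_apply]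
      split_ifs with h1 h2
      · rw [h1, Finset.mem_singleton]; exact hw2
      · rw [h2, Finset.mem_singleton]; exact hw3
      · rw [Finset.mem_product] at hw1
        have hh : ∀ u ∈ bi (bb k) (a * 2 ^ j) (a * 2 ^ j + L),
            |∑ l, (u l) ^ ((i : ℕ) + 1)| ≤ bb k * (M : ℤ) ^ ((i : ℕ) + 1) := by
          intro u hu
          refine (Finset.abs_sum_le_sum_abs _ _).trans ?_
          refine (Finset.sum_le_sum fun l _ => pow_abs_le (u l) M _ (hbd u hu l)).trans ?_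
          simp
        have h3 := abs_le.1 (hh w.1 hw1.1)
        have h4 := abs_le.1 (hh w.2 hw1.2)
        rw [Finset.mem_Icc]
        constructor <;> linarith [h3.1, h3.2, h4.1, h4.2]
    refine (Finset.card_le_card hsub).trans (Finset.card_biUnion_le.trans ?_)
    refine (Finset.sum_le_sum fun h _ => (shift_count _ (psm (2 * k)) h).trans (count_zero (2 * k) (bb k) (a * 2 ^ j) L)).trans ?_
    rw [Finset.sum_const, smul_eq_mul]
  have h1 := card_HS k (bb k) hk M hM1 m1 m2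
  have h2 := hmv L hL1
  have hMR : (0 : ℝ) < M := by exact_mod_cast hM1
  have hMR1 : (1 : ℝ) ≤ M := by exact_mod_cast hM1
  have hLM : (L : ℝ) ≤ M := by
    have : L ≤ M := by rw [hL, hM]; exact Nat.mul_le_mul_right _ hL0C
    exact_mod_cast this
  have hLR : (0 : ℝ) < L := by exact_mod_cast hL1
  have h3 : ((HS k (bb k) M m1 m2).card : ℝ) * (M : ℝ) ^ (3 * k) ≤
      (4 * bb k + 1 : ℝ) ^ (2 * k) * (M : ℝ) ^ (bb k) := by exact_mod_cast h1
  have hbbR : (2 * k : ℝ) * (2 * k + 1) / 2 = bb k := by unfold bb; push_cast; ring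
  have h4 : (Jm (2 * k) (bb k) L : ℝ) ≤ C * (M : ℝ) ^ ((bb k : ℝ) + η) := by
    refine h2.trans ?_
    have : 2 * (bb k : ℝ) - ((2 * k : ℕ) : ℝ) * (((2 * k : ℕ) : ℝ) + 1) / 2 + η = (bb k : ℝ) + η := by
      push_cast
      rw [hbbR]; ring
    rw [this]
    have hη0 : (0 : ℝ) ≤ (bb k : ℝ) + η := by positivity
    exact mul_le_mul_of_nonneg_left (Real.rpow_le_rpow hLR.le hLM hη0) (by linarith)
  have hMp : (0 : ℝ) < (M : ℝ) ^ (3 * k) := by positivity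
  have h5 : ((HS k (bb k) M m1 m2).card : ℝ) * Jm (2 * k) (bb k) L * (M : ℝ) ^ (3 * k) ≤
      ((4 * bb k + 1 : ℝ) ^ (2 * k) * C * (M : ℝ) ^ ((2 * bb k : ℝ) - 3 * k + η)) * (M : ℝ) ^ (3 * k) := by
    calc ((HS k (bb k) M m1 m2).card : ℝ) * Jm (2 * k) (bb k) L * (M : ℝ) ^ (3 * k)
        = (((HS k (bb k) M m1 m2).card : ℝ) * (M : ℝ) ^ (3 * k)) * Jm (2 * k) (bb k) L := by ring
      _ ≤ ((4 * bb k + 1 : ℝ) ^ (2 * k) * (M : ℝ) ^ (bb k)) * (C * (M : ℝ) ^ ((bb k : ℝ) + η)) := by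
          gcongr
      _ = ((4 * bb k + 1 : ℝ) ^ (2 * k) * C) * ((M : ℝ) ^ (bb k) * (M : ℝ) ^ ((bb k : ℝ) + η)) := by ring
      _ = ((4 * bb k + 1 : ℝ) ^ (2 * k) * C) * ((M : ℝ) ^ ((2 * bb k : ℝ) - 3 * k + η) * (M : ℝ) ^ (3 * k)) := by
          congr 1
          rw [← Real.rpow_natCast (M : ℝ) (bb k), ← Real.rpow_natCast (M : ℝ) (3 * k), ← Real.rpow_add hMR, ← Real.rpow_add hMR]
          congr 1
          push_cast
          ring
      _ = _ := by ring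
  have h6 := le_of_mul_le_mul_right h5 hMp
  have h7 : (M : ℝ) ^ ((2 * bb k : ℝ) - 3 * k + η) ≤
      (C1 : ℝ) ^ ((2 * bb k : ℝ) + η) * (2 : ℝ) ^ (((2 * bb k : ℝ) - 3 * k + η) * j) := by
    have hC1R : (1 : ℝ) ≤ C1 := by exact_mod_cast hC11
    have e1 : (M : ℝ) = C1 * 2 ^ j := by rw [hM]; push_cast; ring
    rw [e1, Real.mul_rpow (by positivity) (by positivity)]
    have e2 : ((2 : ℝ) ^ j) ^ ((2 * bb k : ℝ) - 3 * k + η) = (2 : ℝ) ^ (((2 * bb k : ℝ) - 3 * k + η) * j) := by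
      rw [← Real.rpow_natCast, ← Real.rpow_mul (by norm_num)]
      congr 1; ring
    rw [e2]
    refine mul_le_mul_of_nonneg_right ?_ (by positivity)
    refine Real.rpow_le_rpow_of_exponent_le hC1R ?_
    have : (0 : ℝ) ≤ k := Nat.cast_nonneg k
    linarith
  calc _ ≤ (((HS k (bb k) M m1 m2).card * Jm (2 * k) (bb k) L : ℕ) : ℝ) := by exact_mod_cast hcard
    _ = ((HS k (bb k) M m1 m2).card : ℝ) * Jm (2 * k) (bb k) L := by push_cast; ring
    _ ≤ (4 * bb k + 1 : ℝ) ^ (2 * k) * C * (M : ℝ) ^ ((2 * bb k : ℝ) - 3 * k + η) := h6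
    _ ≤ (4 * bb k + 1 : ℝ) ^ (2 * k) * C * ((C1 : ℝ) ^ ((2 * bb k : ℝ) + η) * (2 : ℝ) ^ (((2 * bb k : ℝ) - 3 * k + η) * j)) := by
        gcongr
    _ = _ := by ring

end Pool.Agent.helper132_hp
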