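import Pool.Agent.helper132_hp.Stmts

/-! Normalisation of additive systems over `ℚ_p`. -/

namespace Pool.Agent.helper132_hp

open Finset

namespace NORMx

section count

variable (R : ℕ) (ι : Type) [Fintype ι] [DecidableEq ι]

/-- the injective maps -/
noncomputable def inj : Finset (Fin R → ι) := by
  classical exact Finset.univ.filter (fun T => Function.Injective T)

variable {R ι}

lemma mem_inj {T : Fin R → ι} : T ∈ inj R ι ↔ Function.Injective T := by
  unfold inj
  simp

lemma fiber_le (i : Fin R) (x y : ι) :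
    ((inj R ι).filter fun T => T i = x).card ≤ ((inj R ι).filter fun T => T i = y).card := by
  refine Finset.card_le_card_of_injOn (fun T => fun j => Equiv.swap x y (T j)) ?_ ?_
  · intro T hT
    rw [Finset.mem_coe, Finset.mem_filter, mem_inj] at hT
    rw [Finset.mem_coe, Finset.mem_filter, mem_inj]
    refine ⟨(Equiv.swap x y).injective.comp hT.1, ?_⟩
    show Equiv.swap x y (T i) = y
    rw [hT.2, Equiv.swap_apply_left]
  · intro T _ T' _ h
    funext j
    exact (Equiv.swap x y).injective (congrFun h j)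

lemma fiber_mul (i : Fin R) (x : ι) :
    Fintype.card ι * ((inj R ι).filter fun T => T i = x).card = (inj R ι).card := by
  have h := Finset.card_eq_sum_card_fiberwise (s := inj R ι) (t := Finset.univ) (f := fun T => T i)
    (fun T _ => by simp)
  rw [h, Finset.sum_congr rfl (fun y _ => le_antisymm (fiber_le i y x) (fiber_le i x y))]
  rw [Finset.sum_const, smul_eq_mul, Finset.card_univ]

lemma sum_count (O : Finset ι) :
    Fintype.card ι * ∑ T ∈ inj R ι, (Finset.univ.filter fun i => T i ∈ O).card =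
      R * O.card * (inj R ι).card := by
  have h1 : ∑ T ∈ inj R ι, (Finset.univ.filter fun i => T i ∈ O).card =
      ∑ i : Fin R, ((inj R ι).filter fun T => T i ∈ O).card := by
    simp only [Finset.card_filter]
    exact Finset.sum_comm
  have h2 : ∀ i : Fin R, Fintype.card ι * ((inj R ι).filter fun T => T i ∈ O).card =
      O.card * (inj R ι).card := by
    intro i
    have h3 := Finset.card_eq_sum_card_fiberwise (s := (inj R ι).filter fun T => T i ∈ O) (t := O)
      (f := fun T => T i) (fun T hT => by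
        rw [Finset.mem_coe, Finset.mem_filter] at hT
        exact hT.2)
    rw [h3, Finset.mul_sum]
    have h4 : ∀ x ∈ O, Fintype.card ι *
        (((inj R ι).filter fun T => T i ∈ O).filter fun T => T i = x).card = (inj R ι).card := by
      intro x hx
      have : (((inj R ι).filter fun T => T i ∈ O).filter fun T => T i = x) =
          (inj R ι).filter fun T => T i = x := by
        ext T
        simp only [Finset.mem_filter]
        constructor
        · rintro ⟨⟨h, _⟩, h'⟩; exact ⟨h, h'⟩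
        · rintro ⟨h, h'⟩; exact ⟨⟨h, h' ▸ hx⟩, h'⟩
      rw [this, fiber_mul]
    rw [Finset.sum_congr rfl h4, Finset.sum_const, smul_eq_mul]
  rw [h1, Finset.mul_sum, Finset.sum_congr rfl (fun i _ => h2 i), Finset.sum_const, smul_eq_mul,
    Finset.card_univ, Fintype.card_fin]
  ring

lemma inj_pos (h : R ≤ Fintype.card ι) : 0 < (inj R ι).card := by
  obtain ⟨f⟩ : Nonempty (Fin R ↪ ι) := by
    apply Function.Embedding.nonempty_of_card_le
    simpa using h
  exact Finset.card_pos.2 ⟨f, mem_inj.2 f.injective⟩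

end count

variable {p : ℕ} [Fact p.Prime] {k R : ℕ} {ι : Type} [Fintype ι] [DecidableEq ι]

/-- the minor -/
noncomputable def mn (c : Fin R → ι → ℤ_[p]) (T : Fin R → ι) : ℤ_[p] :=
  (Matrix.of fun m i => c m (T i)).det

lemma mn_ne (c : Fin R → ι → ℚ_[p])
    (hc : ∀ T : Fin R → ι, Function.Injective T → (Matrix.of fun m i => c m (T i)).det ≠ 0)
    (g : Matrix (Fin R) (Fin R) ℚ_[p]) (ex : ι → ℤ) (c' : Fin R → ι → ℤ_[p]) (hg : g.det ≠ 0)
    (h : ∀ m i, ((c' m i : ℤ_[p]) : ℚ_[p]) = ∑ l, g m l * c l i * ((p : ℚ_[p]) ^ ex i) ^ k)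
    (T : Fin R → ι) (hT : Function.Injective T) : mn c' T ≠ 0 := by
  intro h0
  have h1 : PadicInt.Coe.ringHom (mn c' T) = 0 := by rw [h0, map_zero]
  unfold mn at h1
  rw [RingHom.map_det] at h1
  have h2 : (PadicInt.Coe.ringHom (p := p)).mapMatrix (Matrix.of fun m i => c' m (T i)) =
      Matrix.of fun m i => (((p : ℚ_[p]) ^ ex (T i)) ^ k) *
        (g * (Matrix.of fun m i => c m (T i))) m i := by
    ext m i
    show ((c' m (T i) : ℤ_[p]) : ℚ_[p]) = _
    rw [h, Matrix.of_apply, Matrix.mul_apply, Finset.mul_sum]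
    refine Finset.sum_congr rfl fun l _ => ?_
    rw [Matrix.of_apply]
    ring
  rw [h2, Matrix.det_mul_row (v := fun i => ((p : ℚ_[p]) ^ ex (T i)) ^ k), Matrix.det_mul] at h1
  have hp : (p : ℚ_[p]) ≠ 0 := by exact_mod_cast (Fact.out : p.Prime).ne_zero
  rcases mul_eq_zero.1 h1 with h3 | h3
  · rw [Finset.prod_eq_zero_iff] at h3
    obtain ⟨i, _, hi⟩ := h3
    exact (pow_ne_zero k (zpow_ne_zero _ hp)) hi
  · rcases mul_eq_zero.1 h3 with h4 | h4
    · exact hg h4
    · exact hc T hT h4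

/-- the change of a minor -/
lemma step (c' : Fin R → ι → ℤ_[p]) (lam : Fin R → ℤ_[p]) (m0 : Fin R) (hm0 : IsUnit (lam m0))
    (O : Finset ι) (w : ι → ℤ_[p])
    (hw : ∀ i, (p : ℤ_[p]) * w i = (∑ m, lam m * c' m i) * (p : ℤ_[p]) ^ (if i ∈ O then k else 0))
    (c2 : Fin R → ι → ℤ_[p])
    (h2 : ∀ m i, c2 m i = if m = m0 then w i else c' m i * (p : ℤ_[p]) ^ (if i ∈ O then k else 0))
    (T : Fin R → ι) (hT : mn c' T ≠ 0) (hT2 : mn c2 T ≠ 0) :
    1 + (mn c2 T).valuation = k * (Finset.univ.filter fun i => T i ∈ O).card + (mn c' T).valuation := by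
  have e1 : (p : ℤ_[p]) * mn c2 T =
      lam m0 * ((p : ℤ_[p]) ^ (k * (Finset.univ.filter fun i => T i ∈ O).card) * mn c' T) := by
    unfold mn
    set N : Matrix (Fin R) (Fin R) ℤ_[p] := Matrix.of fun m i =>
      (p : ℤ_[p]) ^ (if T i ∈ O then k else 0) * (Matrix.of fun m i => c' m (T i)) m i with hN
    have d1 : N.det = (p : ℤ_[p]) ^ (k * (Finset.univ.filter fun i => T i ∈ O).card) *
        (Matrix.of fun m i => c' m (T i)).det := by
      rw [hN, Matrix.det_mul_row (v := fun i => (p : ℤ_[p]) ^ (if T i ∈ O then k else 0))]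
      congr 1
      rw [Finset.prod_pow_eq_pow_sum]
      congr 1
      rw [Finset.sum_ite, Finset.sum_const_zero, add_zero, Finset.sum_const, smul_eq_mul, mul_comm]
    have d2 : (Matrix.of fun m i => c2 m (T i)) = N.updateRow m0 (fun i => w (T i)) := by
      ext m i
      rw [Matrix.of_apply, h2, Matrix.updateRow_apply]
      by_cases h : m = m0
      · rw [if_pos h, if_pos h]
      · rw [if_neg h, if_neg h, hN, Matrix.of_apply, Matrix.of_apply, mul_comm]
    rw [← d1, d2, ← Matrix.det_updateRow_smul]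
    have d3 : (p : ℤ_[p]) • (fun i => w (T i)) = ∑ m, lam m • N m := by
      funext i
      rw [Pi.smul_apply, smul_eq_mul, hw, Finset.sum_apply, Finset.sum_mul]
      refine Finset.sum_congr rfl fun m _ => ?_
      rw [Pi.smul_apply, smul_eq_mul, hN, Matrix.of_apply, Matrix.of_apply]
      ring
    rw [d3, Matrix.det_updateRow_sum, smul_eq_mul]
  have hp : (p : ℤ_[p]) ≠ 0 := by exact_mod_cast (Fact.out : p.Prime).ne_zero
  have hl : lam m0 ≠ 0 := hm0.ne_zero
  have hlv : (lam m0).valuation = 0 := by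
    obtain ⟨v, hv⟩ := hm0.exists_right_inv
    have hv0 : v ≠ 0 := by rintro rfl; simp at hv
    have := congrArg PadicInt.valuation hv
    rw [PadicInt.valuation_mul hl hv0, PadicInt.valuation_one] at this
    omega
  have e2 := congrArg PadicInt.valuation e1
  rw [PadicInt.valuation_mul hp hT2, PadicInt.valuation_p,
    PadicInt.valuation_mul hl (mul_ne_zero (pow_ne_zero _ hp) hT), hlv, zero_add,
    PadicInt.valuation_p_pow_mul _ _ hT] at e2
  exact e2

end NORMx

open NORMx in
theorem t_NORM : S_NORM := by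
  intro p _ k R hk hR ι _ _ c hRc hc
  classical
  have hp : (p : ℚ_[p]) ≠ 0 := by exact_mod_cast (Fact.out : p.Prime).ne_zero
  have hp' : (p : ℤ_[p]) ≠ 0 := by exact_mod_cast (Fact.out : p.Prime).ne_zero
  let P : ℕ → Prop := fun n => ∃ (g : Matrix (Fin R) (Fin R) ℚ_[p]) (ex : ι → ℤ)
    (c' : Fin R → ι → ℤ_[p]), g.det ≠ 0 ∧
    (∀ m i, ((c' m i : ℤ_[p]) : ℚ_[p]) = ∑ l, g m l * c l i * ((p : ℚ_[p]) ^ ex i) ^ k) ∧
    ∑ T ∈ inj R ι, (mn c' T).valuation = n
  have hex : ∃ n, P n := by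
    obtain ⟨M, hM⟩ := pow_unbounded_of_one_lt (∑ m, ∑ i, ‖c m i‖)
      (by exact_mod_cast (Fact.out : p.Prime).one_lt : (1 : ℝ) < p)
    have hle : ∀ m i, ‖(p : ℚ_[p]) ^ M * c m i‖ ≤ 1 := by
      intro m i
      have h1 : ‖c m i‖ ≤ ∑ m, ∑ i, ‖c m i‖ := by
        refine le_trans ?_ (Finset.single_le_sum (f := fun m => ∑ i, ‖c m i‖)
          (fun m _ => Finset.sum_nonneg fun i _ => norm_nonneg _) (Finset.mem_univ m))
        exact Finset.single_le_sum (f := fun i => ‖c m i‖) (fun i _ => norm_nonneg _)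
          (Finset.mem_univ i)
      rw [norm_mul, norm_pow, Padic.norm_p, inv_pow]
      have hpM : (0 : ℝ) < (p : ℝ) ^ M := pow_pos (by exact_mod_cast (Fact.out : p.Prime).pos) M
      rw [inv_mul_le_iff₀ hpM]
      linarith
    refine ⟨_, (p : ℚ_[p]) ^ M • (1 : Matrix (Fin R) (Fin R) ℚ_[p]), fun _ => 0,
      fun m i => ⟨(p : ℚ_[p]) ^ M * c m i, hle m i⟩, ?_, ?_, rfl⟩
    · rw [Matrix.det_smul, Matrix.det_one, mul_one]
      exact pow_ne_zero _ (pow_ne_zero _ hp)
    · intro m i
      show (p : ℚ_[p]) ^ M * c m i = _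
      simp only [zpow_zero, one_pow, mul_one, Matrix.smul_apply, Matrix.one_apply, smul_eq_mul,
        mul_ite, mul_zero, ite_mul, zero_mul]
      rw [Finset.sum_ite_eq]
      simp
  obtain ⟨g, ex, c', hg, hc', hv⟩ := Nat.find_spec hex
  refine ⟨g, ex, c', hg, hc', ?_⟩
  rintro lam ⟨m0, hm0⟩
  by_contra hcon
  rw [not_le] at hcon
  set O : Finset ι := Finset.univ.filter fun i => ¬ ‖∑ m, lam m * c' m i‖ < 1 with hO
  have hdiv : ∀ i, ∃ w : ℤ_[p],
      (p : ℤ_[p]) * w = (∑ m, lam m * c' m i) * (p : ℤ_[p]) ^ (if i ∈ O then k else 0) := by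
    intro i
    by_cases hi : i ∈ O
    · rw [if_pos hi]
      refine ⟨(∑ m, lam m * c' m i) * (p : ℤ_[p]) ^ (k - 1), ?_⟩
      have : (p : ℤ_[p]) ^ k = (p : ℤ_[p]) ^ (k - 1) * p := by
        rw [← pow_succ]; congr 1; omega
      rw [this]; ring
    · rw [if_neg hi, pow_zero, mul_one]
      have : ‖∑ m, lam m * c' m i‖ < 1 := by
        by_contra h
        exact hi (by rw [hO, Finset.mem_filter]; exact ⟨Finset.mem_univ _, h⟩)
      rw [PadicInt.norm_lt_one_iff_dvd] at this
      obtain ⟨w, hw⟩ := this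
      exact ⟨w, hw.symm⟩
  choose w hw using hdiv
  let c2 : Fin R → ι → ℤ_[p] := fun m i =>
    if m = m0 then w i else c' m i * (p : ℤ_[p]) ^ (if i ∈ O then k else 0)
  let g2 : Matrix (Fin R) (Fin R) ℚ_[p] :=
    g.updateRow m0 (∑ m, ((lam m : ℚ_[p]) / p) • g m)
  let ex2 : ι → ℤ := fun i => ex i + if i ∈ O then 1 else 0
  have hlam0 : (lam m0 : ℚ_[p]) ≠ 0 := by
    intro h
    have : lam m0 = 0 := Subtype.ext h
    exact hm0.ne_zero this
  have hg2 : g2.det ≠ 0 := by
    show (g.updateRow m0 (∑ m, ((lam m : ℚ_[p]) / p) • g m)).det ≠ 0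
    rw [Matrix.det_updateRow_sum, smul_eq_mul]
    exact mul_ne_zero (div_ne_zero hlam0 hp) hg
  have hpow : ∀ i, ((p : ℚ_[p]) ^ ex2 i) ^ k =
      ((p : ℚ_[p]) ^ ex i) ^ k * (p : ℚ_[p]) ^ (if i ∈ O then k else 0) := by
    intro i
    show ((p : ℚ_[p]) ^ (ex i + if i ∈ O then 1 else 0)) ^ k = _
    by_cases hi : i ∈ O
    · rw [if_pos hi, if_pos hi, zpow_add₀ hp, mul_pow, zpow_one]
    · rw [if_neg hi, if_neg hi, add_zero, pow_zero, mul_one]
  have hc2 : ∀ m i, ((c2 m i : ℤ_[p]) : ℚ_[p]) = ∑ l, g2 m l * c l i * ((p : ℚ_[p]) ^ ex2 i) ^ k := by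
    intro m i
    by_cases hm : m = m0
    · subst hm
      have e1 : c2 m i = w i := if_pos rfl
      have e2 : ∀ l, g2 m l = ∑ m', ((lam m' : ℚ_[p]) / p) * g m' l := by
        intro l
        show (g.updateRow m (∑ m, ((lam m : ℚ_[p]) / p) • g m)) m l = _
        rw [Matrix.updateRow_self, Finset.sum_apply]
        rfl
      have e3 : (p : ℚ_[p]) * (w i : ℚ_[p]) =
          (∑ m', (lam m' : ℚ_[p]) * (c' m' i : ℚ_[p])) * (p : ℚ_[p]) ^ (if i ∈ O then k else 0) := by
        have := congrArg (fun z : ℤ_[p] => (z : ℚ_[p])) (hw i)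
        push_cast [PadicInt.coe_sum] at this
        exact this
      rw [e1]
      apply mul_left_cancel₀ hp
      rw [e3, Finset.sum_mul, Finset.mul_sum]
      simp only [hc', e2, hpow, Finset.mul_sum, Finset.sum_mul]
      rw [Finset.sum_comm]
      refine Finset.sum_congr rfl fun l _ => Finset.sum_congr rfl fun m' _ => ?_
      field_simp
    · have e1 : c2 m i = c' m i * (p : ℤ_[p]) ^ (if i ∈ O then k else 0) := if_neg hm
      have e2 : ∀ l, g2 m l = g m l := by
        intro l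
        show (g.updateRow m0 (∑ m, ((lam m : ℚ_[p]) / p) • g m)) m l = _
        rw [Matrix.updateRow_ne hm]
      rw [e1]
      push_cast
      rw [hc', Finset.sum_mul]
      refine Finset.sum_congr rfl fun l _ => ?_
      rw [e2, hpow]
      ring
  have hT1 : ∀ T ∈ inj R ι, mn c' T ≠ 0 := fun T hT =>
    mn_ne c hc g ex c' hg hc' T (mem_inj.1 hT)
  have hT2 : ∀ T ∈ inj R ι, mn c2 T ≠ 0 := fun T hT =>
    mn_ne c hc g2 ex2 c2 hg2 hc2 T (mem_inj.1 hT)
  have hsum : (inj R ι).card + ∑ T ∈ inj R ι, (mn c2 T).valuation =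
      k * ∑ T ∈ inj R ι, (Finset.univ.filter fun i => T i ∈ O).card +
        ∑ T ∈ inj R ι, (mn c' T).valuation := by
    rw [Finset.card_eq_sum_ones, ← Finset.sum_add_distrib, Finset.mul_sum, ← Finset.sum_add_distrib]
    refine Finset.sum_congr rfl fun T hT => ?_
    exact step c' lam m0 hm0 O w hw c2 (fun m i => rfl) T (hT1 T hT) (hT2 T hT)
  have hcount := sum_count (R := R) O
  have hpos := inj_pos (R := R) (ι := ι) hRc
  have hmin : Nat.find hex ≤ ∑ T ∈ inj R ι, (mn c2 T).valuation :=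
    Nat.find_min' hex ⟨g2, ex2, c2, hg2, hc2, rfl⟩
  rw [← hv] at hmin
  have hle : (inj R ι).card ≤ k * ∑ T ∈ inj R ι, (Finset.univ.filter fun i => T i ∈ O).card := by
    omega
  have h5 : Fintype.card ι * (inj R ι).card ≤ k * (R * O.card * (inj R ι).card) := by
    rw [← hcount]
    calc Fintype.card ι * (inj R ι).card
        ≤ Fintype.card ι * (k * ∑ T ∈ inj R ι, (Finset.univ.filter fun i => T i ∈ O).card) :=
          Nat.mul_le_mul_left _ hle
      _ = _ := by ring
  have h6 : Fintype.card ι * (inj R ι).card ≤ (R * k * O.card) * (inj R ι).card := by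
    calc _ ≤ _ := h5
      _ = _ := by ring
  have := Nat.le_of_mul_le_mul_right h6 hpos
  omega

end Pool.Agent.helper132_hp
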