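import Pool.Agent.helper132_hp.Stmts

/-! Hasse principle for quadratic forms in k-th powers: odd `k`, a nontrivial real zero gives a
nonsingular one. -/

set_option autoImplicit false

namespace Pool.Agent.helper132_hp

namespace ODDx

open Finset Matrix

theorem root {k : ℕ} (hk : Odd k) (x : ℝ) : ∃ y : ℝ, y ^ k = x := by
  have hk0 : k ≠ 0 := by rintro rfl; exact absurd hk (by decide)
  rcases le_or_gt 0 x with h | h
  · exact ⟨x ^ ((k : ℝ)⁻¹), Real.rpow_inv_natCast_pow h hk0⟩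
  · refine ⟨-((-x) ^ ((k : ℝ)⁻¹)), ?_⟩
    rw [hk.neg_pow, Real.rpow_inv_natCast_pow (by linarith) hk0, neg_neg]

theorem aeval_G1 {s : ℕ} (A : Matrix (Fin s) (Fin s) ℤ) (k : ℕ) (y : Fin s → ℝ) :
    MvPolynomial.aeval y (G1 A k) = ∑ i, ∑ j, (A i j : ℝ) * y i ^ k * y j ^ k := by
  simp [G1, map_sum]

theorem aeval_pderiv {s : ℕ} (A : Matrix (Fin s) (Fin s) ℤ) (hA : A.IsSymm) (k : ℕ)
    (y : Fin s → ℝ) (l : Fin s) :
    MvPolynomial.aeval y (MvPolynomial.pderiv l (G1 A k)) =
      2 * k * y l ^ (k - 1) * ∑ j, (A l j : ℝ) * y j ^ k := by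
  have h1 : ∀ i j : Fin s, MvPolynomial.aeval y (MvPolynomial.pderiv l
      (MvPolynomial.C (A i j) * MvPolynomial.X i ^ k * MvPolynomial.X j ^ k :
        MvPolynomial (Fin s) ℤ)) =
      (if i = l then (A i j : ℝ) * (k * y l ^ (k - 1)) * y j ^ k else 0) +
        (if j = l then (A i j : ℝ) * y i ^ k * (k * y l ^ (k - 1)) else 0) := by
    intro i j
    rw [MvPolynomial.pderiv_mul, MvPolynomial.pderiv_mul, MvPolynomial.pderiv_C]
    rw [Derivation.leibniz_pow, Derivation.leibniz_pow, MvPolynomial.pderiv_X,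
      MvPolynomial.pderiv_X]
    by_cases hi : i = l <;> by_cases hj : j = l <;> simp [hi, hj]
  rw [G1, map_sum, map_sum]
  have h2 : ∀ i : Fin s, MvPolynomial.aeval y (MvPolynomial.pderiv l
      (∑ j, MvPolynomial.C (A i j) * MvPolynomial.X i ^ k * MvPolynomial.X j ^ k :
        MvPolynomial (Fin s) ℤ)) =
      ∑ j, ((if i = l then (A i j : ℝ) * (k * y l ^ (k - 1)) * y j ^ k else 0) +
        (if j = l then (A i j : ℝ) * y i ^ k * (k * y l ^ (k - 1)) else 0)) := by
    intro i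
    rw [map_sum, map_sum]
    exact Finset.sum_congr rfl fun j _ => h1 i j
  rw [Finset.sum_congr rfl fun i _ => h2 i]
  simp only [Finset.sum_add_distrib]
  have h3 : ∑ i : Fin s, ∑ j, (if i = l then (A i j : ℝ) * (k * y l ^ (k - 1)) * y j ^ k else 0) =
      k * y l ^ (k - 1) * ∑ j, (A l j : ℝ) * y j ^ k := by
    rw [Finset.sum_comm, Finset.mul_sum]
    refine Finset.sum_congr rfl fun j _ => ?_
    rw [Finset.sum_ite_eq' Finset.univ l, if_pos (Finset.mem_univ l)]
    ring
  have h4 : ∑ i : Fin s, ∑ j, (if j = l then (A i j : ℝ) * y i ^ k * (k * y l ^ (k - 1)) else 0) =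
      k * y l ^ (k - 1) * ∑ j, (A l j : ℝ) * y j ^ k := by
    rw [Finset.mul_sum]
    refine Finset.sum_congr rfl fun j _ => ?_
    rw [Finset.sum_ite_eq' Finset.univ l, if_pos (Finset.mem_univ l)]
    have : A j l = A l j := by
      have := congrFun (congrFun hA j) l
      rw [Matrix.transpose_apply] at this
      exact this.symm
    rw [this]
    ring
  rw [h3, h4]
  ring

theorem rep_lin {s : ℕ} (L : (Fin s → ℝ) →ₗ[ℝ] ℝ) :
    ∃ P : MvPolynomial (Fin s) ℝ, ∀ w, MvPolynomial.eval w P = L w := by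
  refine ⟨∑ i, MvPolynomial.C (L (fun j => if i = j then 1 else 0)) * MvPolynomial.X i,
    fun w => ?_⟩
  rw [LinearMap.pi_apply_eq_sum_univ L w]
  simp [map_sum, mul_comm]

theorem rep_quad {s : ℕ} (a : Matrix (Fin s) (Fin s) ℝ) :
    ∃ P : MvPolynomial (Fin s) ℝ, ∀ w, MvPolynomial.eval w P = Matrix.toBilin' a w w := by
  refine ⟨∑ i, ∑ j, MvPolynomial.X i * MvPolynomial.C (a i j) * MvPolynomial.X j, fun w => ?_⟩
  rw [Matrix.toBilin'_apply]
  simp [map_sum]

/-- two functions `c Q - L1 L2`: if the product vanishes, one of them vanishes. -/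
theorem dom {s : ℕ} (a : Matrix (Fin s) (Fin s) ℝ) (c d : ℝ)
    (L1 L2 L3 L4 : (Fin s → ℝ) →ₗ[ℝ] ℝ)
    (h : ∀ w, (Matrix.toBilin' a w w * c - L1 w * L2 w) *
      (Matrix.toBilin' a w w * d - L3 w * L4 w) = 0) :
    (∀ w, Matrix.toBilin' a w w * c - L1 w * L2 w = 0) ∨
      (∀ w, Matrix.toBilin' a w w * d - L3 w * L4 w = 0) := by
  obtain ⟨Q, hQ⟩ := rep_quad a
  obtain ⟨P1, h1⟩ := rep_lin L1
  obtain ⟨P2, h2⟩ := rep_lin L2
  obtain ⟨P3, h3⟩ := rep_lin L3
  obtain ⟨P4, h4⟩ := rep_lin L4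
  have e1 : ∀ w, MvPolynomial.eval w (Q * MvPolynomial.C c - P1 * P2) =
      Matrix.toBilin' a w w * c - L1 w * L2 w := by
    intro w; simp [hQ, h1, h2]
  have e2 : ∀ w, MvPolynomial.eval w (Q * MvPolynomial.C d - P3 * P4) =
      Matrix.toBilin' a w w * d - L3 w * L4 w := by
    intro w; simp [hQ, h3, h4]
  have h0 : (Q * MvPolynomial.C c - P1 * P2) * (Q * MvPolynomial.C d - P3 * P4) = 0 := by
    apply MvPolynomial.funext
    intro w
    rw [map_mul, e1, e2, h w, map_zero]
  rcases mul_eq_zero.1 h0 with h0 | h0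
  · left; intro w; rw [← e1, h0, map_zero]
  · right; intro w; rw [← e2, h0, map_zero]

/-- a nondegenerate form in at least three variables is not a product of two linear forms. -/
theorem no_prod {s : ℕ} (hs : 3 ≤ s) (a : Matrix (Fin s) (Fin s) ℝ) (hsym : a.IsSymm)
    (hdet : a.det ≠ 0) (c : ℝ) (L1 L2 : (Fin s → ℝ) →ₗ[ℝ] ℝ) (hL1 : L1 ≠ 0) (hL2 : L2 ≠ 0)
    (h : ∀ w, Matrix.toBilin' a w w * c - L1 w * L2 w = 0) : False := by
  have hsm : ∀ u v, Matrix.toBilin' a u v = Matrix.toBilin' a v u := by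
    intro u v
    rw [Matrix.toBilin'_apply', Matrix.toBilin'_apply', Matrix.dotProduct_mulVec,
      ← Matrix.mulVec_transpose]
    rw [hsym.eq, dotProduct_comm]
  by_cases hc : c = 0
  · subst hc
    have h' : ∀ w, L1 w * L2 w = 0 := by intro w; have := h w; linarith
    obtain ⟨v1, hv1⟩ : ∃ v, L1 v ≠ 0 := by
      by_contra hcon
      push Not at hcon
      exact hL1 (LinearMap.ext hcon)
    obtain ⟨v2, hv2⟩ : ∃ v, L2 v ≠ 0 := by
      by_contra hcon
      push Not at hcon
      exact hL2 (LinearMap.ext hcon)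
    have a1 : L2 v1 = 0 := (mul_eq_zero.1 (h' v1)).resolve_left hv1
    have a2 : L1 v2 = 0 := (mul_eq_zero.1 (h' v2)).resolve_right hv2
    have := h' (v1 + v2)
    rw [map_add, map_add, a1, a2, add_zero, zero_add] at this
    exact (mul_ne_zero hv1 hv2) this
  · have hker : LinearMap.ker (L1.prod L2) ≠ ⊥ := by
      apply LinearMap.ker_ne_bot_of_finrank_lt
      simp
      omega
    obtain ⟨w, hw, hw0⟩ := Submodule.exists_mem_ne_zero_of_ne_bot hker
    have hw' : (L1.prod L2) w = 0 := hw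
    have hw1 : L1 w = 0 := congrArg Prod.fst hw'
    have hw2 : L2 w = 0 := congrArg Prod.snd hw'
    have hB : ∀ v, Matrix.toBilin' a v w = 0 := by
      intro v
      have e1 := h (w + v)
      have e2 := h w
      have e3 := h v
      simp only [map_add, LinearMap.add_apply, hw1, hw2, zero_add] at e1 e2
      rw [hsm w v] at e1
      have e4 : Matrix.toBilin' a v w * (2 * c) = 0 := by linear_combination e1 - e2 - e3
      exact (mul_eq_zero.1 e4).resolve_right (mul_ne_zero two_ne_zero hc)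
    have hz : a *ᵥ w = 0 := by
      funext i
      have := hB (Pi.single i 1)
      rw [Matrix.toBilin'_apply'] at this
      simpa using this
    exact hw0 (Matrix.eq_zero_of_mulVec_eq_zero hdet hz)

/-- the main step. -/
theorem main {s : ℕ} (hs : 3 ≤ s) (a : Matrix (Fin s) (Fin s) ℝ) (hsym : a.IsSymm)
    (hdet : a.det ≠ 0) (x : Fin s → ℝ) (hx : x ≠ 0) (hQ : Matrix.toBilin' a x x = 0)
    (l : Fin s) : ∃ z : Fin s → ℝ, Matrix.toBilin' a z z = 0 ∧ z l * (a *ᵥ z) l ≠ 0 := by
  have hsm : ∀ u v, Matrix.toBilin' a u v = Matrix.toBilin' a v u := by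
    intro u v
    rw [Matrix.toBilin'_apply', Matrix.toBilin'_apply', Matrix.dotProduct_mulVec,
      ← Matrix.mulVec_transpose]
    rw [hsym.eq, dotProduct_comm]
  by_contra hcon
  push Not at hcon
  let Bx : (Fin s → ℝ) →ₗ[ℝ] ℝ := (2 : ℝ) • Matrix.toBilin' a x
  let El : (Fin s → ℝ) →ₗ[ℝ] ℝ := LinearMap.proj l
  let Al : (Fin s → ℝ) →ₗ[ℝ] ℝ := (LinearMap.proj l).comp (Matrix.mulVecLin a)
  have hz : ∀ w, Matrix.toBilin' a (Matrix.toBilin' a w w • x - Bx w • w)
      (Matrix.toBilin' a w w • x - Bx w • w) = 0 := by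
    intro w
    simp only [Bx, map_sub, map_smul, LinearMap.sub_apply, LinearMap.smul_apply, smul_eq_mul, hQ,
      hsm w x]
    ring
  have h0 : ∀ w, (Matrix.toBilin' a w w * x l - Bx w * El w) *
      (Matrix.toBilin' a w w * (a *ᵥ x) l - Bx w * Al w) = 0 := by
    intro w
    have := hcon _ (hz w)
    rw [Matrix.mulVec_sub, Matrix.mulVec_smul, Matrix.mulVec_smul] at this
    simpa [El, Al] using this
  have hBx : Bx ≠ 0 := by
    intro hb
    apply hx
    apply Matrix.eq_zero_of_mulVec_eq_zero hdet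
    funext i
    have h1 : Bx (Pi.single i 1) = 0 := by rw [hb]; rfl
    have h2 : Matrix.toBilin' a x (Pi.single i 1) = 0 := by
      simp only [Bx, LinearMap.smul_apply, smul_eq_mul] at h1
      linarith
    rw [hsm, Matrix.toBilin'_apply'] at h2
    simpa using h2
  have hEl : El ≠ 0 := by
    intro hb
    have h1 : El (Pi.single l 1) = 0 := by rw [hb]; rfl
    simp [El] at h1
  have hAl : Al ≠ 0 := by
    intro hb
    have hrow : ∀ j, a l j = 0 := by
      intro j
      have h1 : Al (Pi.single j 1) = 0 := by rw [hb]; rfl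
      simpa [Al] using h1
    exact hdet (Matrix.det_eq_zero_of_row_eq_zero l hrow)
  rcases dom a (x l) ((a *ᵥ x) l) Bx El Bx Al h0 with h | h
  · exact no_prod hs a hsym hdet _ Bx El hBx hEl h
  · exact no_prod hs a hsym hdet _ Bx Al hBx hAl h

end ODDx

open ODDx in
/-- Odd `k`. -/
theorem t_ODD : S_ODD := by
  intro k hk s hs A hA hdet ⟨y, hy0, hy⟩
  have hk0 : k ≠ 0 := by rintro rfl; exact absurd hk (by decide)
  let a : Matrix (Fin s) (Fin s) ℝ := A.map ((↑) : ℤ → ℝ)
  have hsym : a.IsSymm := by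
    ext i j
    have := congrFun (congrFun hA i) j
    simp only [a, Matrix.transpose_apply, Matrix.map_apply] at this ⊢
    rw [this]
  have hd : a.det ≠ 0 := by
    have : a.det = ((A.det : ℤ) : ℝ) := by
      have := (Int.castRingHom ℝ).map_det A
      simpa [a] using this.symm
    rw [this]
    exact_mod_cast hdet
  have hx0 : (fun i => y i ^ k) ≠ 0 := by
    intro h
    apply hy0
    funext i
    exact pow_eq_zero_iff hk0 |>.1 (congrFun h i)
  have hB : ∀ v : Fin s → ℝ, Matrix.toBilin' a (fun i => v i ^ k) (fun i => v i ^ k) =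
      MvPolynomial.aeval v (G1 A k) := by
    intro v
    rw [Matrix.toBilin'_apply, aeval_G1]
    refine Finset.sum_congr rfl fun i _ => Finset.sum_congr rfl fun j _ => ?_
    simp only [a, Matrix.map_apply]
    ring
  obtain ⟨z, hz, hzl⟩ := main hs a hsym hd (fun i => y i ^ k) hx0 (by rw [hB]; exact hy)
    ⟨0, by omega⟩
  choose v hv using fun i => root hk (z i)
  have hvz : (fun i => v i ^ k) = z := funext hv
  refine ⟨v, ?_, ⟨0, by omega⟩, ?_⟩
  · rw [← hB, hvz]; exact hz
  · rw [aeval_pderiv A hA]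
    have h1 : ∑ j, (A ⟨0, by omega⟩ j : ℝ) * v j ^ k = (a.mulVec z) ⟨0, by omega⟩ := by
      simp only [Matrix.mulVec, dotProduct, a, Matrix.map_apply]
      exact Finset.sum_congr rfl fun j _ => by rw [hv]
    rw [h1]
    have h2 : z ⟨0, by omega⟩ ≠ 0 := left_ne_zero_of_mul hzl
    have h3 : v ⟨0, by omega⟩ ≠ 0 := by
      intro h
      apply h2
      rw [← hv, h, zero_pow hk0]
    have h4 := right_ne_zero_of_mul hzl
    have h5 : (k : ℝ) ≠ 0 := by exact_mod_cast hk0
    exact mul_ne_zero (mul_ne_zero (mul_ne_zero two_ne_zero h5) (pow_ne_zero _ h3)) h4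

end Pool.Agent.helper132_hp
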