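import Pool.Agent.helper132_hp.Stmts

/-! Hasse principle for quadratic forms in k-th powers: nonsingular p-adic zeros (S_PAD). -/

namespace Pool.Agent.helper132_hp

open Finset

namespace PADx

/-! ### Evaluation of the form and of its derivatives -/

lemma aeval_G1 {R : Type} [CommRing R] {s : ℕ} (A : Matrix (Fin s) (Fin s) ℤ) (k : ℕ)
    (y : Fin s → R) :
    MvPolynomial.aeval y (G1 A k) = ∑ i, ∑ j, (A i j : R) * y i ^ k * y j ^ k := by
  simp [G1, map_sum]

lemma aeval_pderiv_G1 {R : Type} [CommRing R] {s : ℕ} (A : Matrix (Fin s) (Fin s) ℤ)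
    (hA : A.IsSymm) (k : ℕ) (y : Fin s → R) (l : Fin s) :
    MvPolynomial.aeval y (MvPolynomial.pderiv l (G1 A k)) =
      2 * k * y l ^ (k - 1) * ∑ j, (A l j : R) * y j ^ k := by
  have h1 : MvPolynomial.pderiv l (G1 A k) = ∑ i, ∑ j,
      MvPolynomial.C (A i j) * (MvPolynomial.pderiv l (MvPolynomial.X i ^ k) * MvPolynomial.X j ^ k
        + MvPolynomial.X i ^ k * MvPolynomial.pderiv l (MvPolynomial.X j ^ k)) := by
    rw [G1, map_sum]
    refine Finset.sum_congr rfl fun i _ => ?_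
    rw [map_sum]
    refine Finset.sum_congr rfl fun j _ => ?_
    rw [mul_assoc, MvPolynomial.pderiv_C_mul, MvPolynomial.pderiv_mul]
  have h2 : ∀ i, MvPolynomial.aeval y (MvPolynomial.pderiv l
      ((MvPolynomial.X i : MvPolynomial (Fin s) ℤ) ^ k)) =
      if i = l then (k : R) * y l ^ (k - 1) else 0 := by
    intro i
    rw [MvPolynomial.pderiv_pow]
    by_cases h : i = l
    · subst h
      simp
    · simp [MvPolynomial.pderiv_X_of_ne h, h]
  rw [h1, map_sum]
  have h3 : ∀ i, MvPolynomial.aeval y (∑ j,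
      MvPolynomial.C (A i j) * (MvPolynomial.pderiv l (MvPolynomial.X i ^ k) * MvPolynomial.X j ^ k
        + MvPolynomial.X i ^ k * MvPolynomial.pderiv l (MvPolynomial.X j ^ k))) =
      (if i = l then (k : R) * y l ^ (k - 1) * ∑ j, (A l j : R) * y j ^ k else 0) +
        (A i l : R) * y i ^ k * ((k : R) * y l ^ (k - 1)) := by
    intro i
    rw [map_sum]
    have : ∀ j, MvPolynomial.aeval y (MvPolynomial.C (A i j) *
        (MvPolynomial.pderiv l (MvPolynomial.X i ^ k) * MvPolynomial.X j ^ k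
        + MvPolynomial.X i ^ k * MvPolynomial.pderiv l (MvPolynomial.X j ^ k))) =
        (if i = l then (k : R) * y l ^ (k - 1) else 0) * ((A i j : R) * y j ^ k) +
        (if j = l then (A i j : R) * y i ^ k * ((k : R) * y l ^ (k - 1)) else 0) := by
      intro j
      rw [map_mul, map_add, map_mul, map_mul, h2, h2]
      simp only [map_pow, MvPolynomial.aeval_X, MvPolynomial.aeval_C]
      split_ifs <;> simp <;> ring
    rw [Finset.sum_congr rfl fun j _ => this j, Finset.sum_add_distrib, ← Finset.mul_sum]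
    congr 1
    · by_cases h : i = l
      · subst h; simp
      · simp [h]
    · simp
  rw [Finset.sum_congr rfl fun i _ => h3 i, Finset.sum_add_distrib]
  have h4 : ∑ i, (A i l : R) * y i ^ k * ((k : R) * y l ^ (k - 1)) =
      (k : R) * y l ^ (k - 1) * ∑ j, (A l j : R) * y j ^ k := by
    rw [Finset.mul_sum]
    refine Finset.sum_congr rfl fun i _ => ?_
    rw [hA.apply l i]
    ring
  rw [h4]
  simp
  ring

/-! ### k-th powers near 1 -/

lemma near_one (p : ℕ) [Fact p.Prime] (k : ℕ) (δ : ℚ_[p])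
    (hδ : ‖δ‖ < ‖(k : ℚ_[p])‖ ^ 2) : ∃ r : ℚ_[p], r ^ k = 1 + δ := by
  have hk1 : ‖(k : ℚ_[p])‖ ≤ 1 := by
    have := PadicInt.norm_le_one (p := p) (k : ℤ_[p])
    rwa [PadicInt.norm_def, PadicInt.coe_natCast] at this
  have hδ1 : ‖δ‖ ≤ 1 := by
    have h0 : (0 : ℝ) ≤ ‖(k : ℚ_[p])‖ := norm_nonneg _
    nlinarith
  let d : ℤ_[p] := ⟨δ, hδ1⟩
  have := hensels_lemma (p := p) (F := (Polynomial.X ^ k - Polynomial.C (1 + d) : Polynomial ℤ_[p]))
    (a := 1) ?_
  · obtain ⟨z, hz, -⟩ := this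
    refine ⟨(z : ℚ_[p]), ?_⟩
    have h1 : z ^ k = 1 + d := by
      have : z ^ k - (1 + d) = 0 := by simpa using hz
      exact sub_eq_zero.mp this
    have h2 := congrArg (fun x : ℤ_[p] => (x : ℚ_[p])) h1
    simp only [PadicInt.coe_pow, PadicInt.coe_add, PadicInt.coe_one] at h2
    exact h2
  · have e1 : ‖(Polynomial.aeval (1 : ℤ_[p]))
        (Polynomial.X ^ k - Polynomial.C (1 + d) : Polynomial ℤ_[p])‖ = ‖δ‖ := by
      have : (Polynomial.aeval (1 : ℤ_[p]))
        (Polynomial.X ^ k - Polynomial.C (1 + d) : Polynomial ℤ_[p]) = -d := by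
        rw [map_sub, Polynomial.aeval_C]
        simp
      rw [this, norm_neg]
      rfl
    have e2 : ‖(Polynomial.aeval (1 : ℤ_[p]))
        (Polynomial.derivative (Polynomial.X ^ k - Polynomial.C (1 + d) : Polynomial ℤ_[p]))‖ =
        ‖(k : ℚ_[p])‖ := by
      have : (Polynomial.aeval (1 : ℤ_[p]))
        (Polynomial.derivative (Polynomial.X ^ k - Polynomial.C (1 + d) : Polynomial ℤ_[p])) =
        (k : ℤ_[p]) := by
        simp [Polynomial.derivative_X_pow]
      rw [this, PadicInt.norm_def, PadicInt.coe_natCast]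
    rw [e1, e2]
    exact hδ

/-! ### Additive systems on a finite set of coordinates -/

lemma AS_finset (h : S_AS) (p : ℕ) [Fact p.Prime] (k R : ℕ) (hk : 1 ≤ k) (hR : 1 ≤ R)
    {ι : Type} [Fintype ι] [DecidableEq ι] (B : Finset ι) (hB : Nas R k ≤ B.card)
    (c : Fin R → ι → ℚ_[p]) : ∃ y : ι → ℚ_[p], y ≠ 0 ∧ (∀ l, y l ≠ 0 → l ∈ B) ∧
      ∀ m, ∑ l, c m l * y l ^ k = 0 := by
  obtain ⟨y, hy, hs⟩ := h p k R hk hR {l // l ∈ B} (by simpa using hB) (fun m l => c m l)
  refine ⟨fun l => if hl : l ∈ B then y ⟨l, hl⟩ else 0, ?_, ?_, ?_⟩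
  · intro h0
    apply hy
    funext l
    have := congrFun h0 l
    simpa using this
  · intro l hl
    by_contra hn
    exact hl (by simp [hn])
  · intro m
    refine Eq.trans ?_ (hs m)
    rw [Finset.univ_eq_attach]
    rw [← Finset.sum_subset (Finset.subset_univ B)]
    · rw [← Finset.sum_attach B]
      refine Finset.sum_congr rfl fun l _ => ?_
      simp
    · intro l _ hl
      simp [hl, Nat.one_le_iff_ne_zero.mp hk]

/-- a power of a sum with at most one nonzero term. -/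
lemma pow_sum_one {K ι : Type} [Field K] [Fintype ι] (a : ι → K)
    (h : ∀ i j, a i ≠ 0 → a j ≠ 0 → i = j) (k : ℕ) (hk : 1 ≤ k) :
    (∑ i, a i) ^ k = ∑ i, a i ^ k := by
  classical
  by_cases hx : ∃ i, a i ≠ 0
  · obtain ⟨i, hi⟩ := hx
    have h0 : ∀ j, j ≠ i → a j = 0 := by
      intro j hj
      by_contra hn
      exact hj (h j i hn hi)
    rw [Finset.sum_eq_single i (fun j _ hj => h0 j hj) (by simp),
      Finset.sum_eq_single i (fun j _ hj => by rw [h0 j hj]; simp; omega) (by simp)]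
  · push Not at hx
    simp [hx, Nat.one_le_iff_ne_zero.mp hk]

/-- componentwise power. -/
def pw {K : Type} [Field K] {s : ℕ} (k : ℕ) (y : Fin s → K) : Fin s → K := fun l => y l ^ k

open Matrix

lemma dot_symm {K : Type} [Field K] {s : ℕ} (A : Matrix (Fin s) (Fin s) K) (hA : A.IsSymm)
    (u v : Fin s → K) : u ⬝ᵥ A *ᵥ v = v ⬝ᵥ A *ᵥ u := by
  rw [Matrix.dotProduct_mulVec, dotProduct_comm, ← Matrix.mulVec_transpose, hA.eq]

/-- the family of vectors with disjoint supports and orthogonal powers. -/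
lemma family (h : S_AS) (p : ℕ) [Fact p.Prime] (k : ℕ) (hk : 1 ≤ k) (n0 : ℕ) (hn0 : 1 ≤ n0)
    (s : ℕ) (hs : n0 * Nas n0 k ≤ s) (A : Matrix (Fin s) (Fin s) ℚ_[p]) (hA : A.IsSymm) :
    ∃ z : Fin n0 → Fin s → ℚ_[p], (∀ j, z j ≠ 0) ∧ (∀ i j l, z i l ≠ 0 → z j l ≠ 0 → i = j) ∧
      (∀ i j, i ≠ j → pw k (z i) ⬝ᵥ A *ᵥ pw k (z j) = 0) := by
  have key : ∀ n ≤ n0, ∃ z : ℕ → Fin s → ℚ_[p], (∀ j < n, z j ≠ 0) ∧
      (∀ j l, z j l ≠ 0 → l.val / Nas n0 k = j) ∧
      (∀ i < n, ∀ j < i, pw k (z i) ⬝ᵥ A *ᵥ pw k (z j) = 0) := by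
    intro n
    induction n with
    | zero =>
      intro _
      exact ⟨fun _ _ => 0, by simp, by simp, by simp⟩
    | succ n ih =>
      intro hn
      obtain ⟨z, hz1, hz2, hz3⟩ := ih (by omega)
      have hN : 0 < Nas n0 k := by unfold Nas; positivity
      have hcard : Nas n0 k ≤ (Finset.univ.filter fun l : Fin s => l.val / Nas n0 k = n).card := by
        have hb : ∀ a < Nas n0 k, n * Nas n0 k + a < s := by
          intro a ha
          have : (n + 1) * Nas n0 k ≤ n0 * Nas n0 k := Nat.mul_le_mul_right _ hn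
          nlinarith
        have : (Finset.univ : Finset (Fin (Nas n0 k))).card ≤
            (Finset.univ.filter fun l : Fin s => l.val / Nas n0 k = n).card := by
          refine Finset.card_le_card_of_injOn (fun a => ⟨n * Nas n0 k + a.val, hb a.val a.isLt⟩)
            ?_ ?_
          · intro a _
            simp only [Finset.coe_filter, Finset.mem_univ, true_and, Set.mem_ofPred_eq]
            rw [Nat.mul_comm n, Nat.mul_add_div hN, Nat.div_eq_of_lt a.isLt, add_zero]
          · intro a _ b _ hab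
            have := congrArg Fin.val hab
            simp only at this
            exact Fin.ext (by omega)
        simpa using this
      obtain ⟨y, hy, hyB, hyc⟩ := AS_finset h p k n0 hk hn0
        (Finset.univ.filter fun l : Fin s => l.val / Nas n0 k = n) hcard
        (fun m l => if m.val < n then (A *ᵥ pw k (z m.val)) l else 0)
      refine ⟨Function.update z n y, ?_, ?_, ?_⟩
      · intro j hj
        by_cases hjn : j = n
        · subst hjn; simpa using hy
        · rw [Function.update_of_ne hjn]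
          exact hz1 j (by omega)
      · intro j l hl
        by_cases hjn : j = n
        · subst hjn
          rw [Function.update_self] at hl
          have := hyB l hl
          simpa using this
        · rw [Function.update_of_ne hjn] at hl
          exact hz2 j l hl
      · intro i hi j hj
        have hjn : j ≠ n := by omega
        rw [Function.update_of_ne hjn]
        by_cases hin : i = n
        · subst hin
          rw [Function.update_self]
          have := hyc ⟨j, by omega⟩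
          simp only [hj, if_true] at this
          rw [← this]
          unfold dotProduct
          refine Finset.sum_congr rfl fun l _ => ?_
          rw [mul_comm]
          rfl
        · rw [Function.update_of_ne hin]
          exact hz3 i (by omega) j hj
  obtain ⟨z, hz1, hz2, hz3⟩ := key n0 le_rfl
  refine ⟨fun j => z j.val, fun j => hz1 j.val j.isLt, ?_, ?_⟩
  · intro i j l hi hj
    exact Fin.ext ((hz2 i.val l hi).symm.trans (hz2 j.val l hj))
  · intro i j hij
    rcases Nat.lt_or_ge j.val i.val with hlt | hge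
    · exact hz3 i.val i.isLt j.val hlt
    · have hlt : i.val < j.val := lt_of_le_of_ne hge (fun hh => hij (Fin.ext hh))
      rw [dot_symm A hA]
      exact hz3 j.val j.isLt i.val hlt

lemma comb {K : Type} [Field K] {s n0 : ℕ} (k : ℕ) (hk : 1 ≤ k) (z : Fin n0 → Fin s → K)
    (hz : ∀ i j l, z i l ≠ 0 → z j l ≠ 0 → i = j) (t : Fin n0 → K) (w : Fin s → K)
    (hw : ∀ j l, t j ≠ 0 → z j l ≠ 0 → w l = 0) :
    pw k (fun l => ∑ j, t j * z j l + w l) = ∑ j, t j ^ k • pw k (z j) + pw k w := by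
  funext l
  have h1 : (∑ j, t j * z j l) ^ k = ∑ j, (t j * z j l) ^ k := by
    apply pow_sum_one _ _ k hk
    intro i j hi hj
    exact hz i j l (right_ne_zero_of_mul hi) (right_ne_zero_of_mul hj)
  have h2 : pw k (fun l => ∑ j, t j * z j l + w l) l = (∑ j, t j * z j l) ^ k + w l ^ k := by
    unfold pw
    by_cases hl : w l = 0
    · simp [hl, Nat.one_le_iff_ne_zero.mp hk]
    · have : ∑ j, t j * z j l = 0 := by
        refine Finset.sum_eq_zero fun j _ => ?_
        by_contra hn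
        exact hl (hw j l (left_ne_zero_of_mul hn) (right_ne_zero_of_mul hn))
      simp [this, Nat.one_le_iff_ne_zero.mp hk]
  rw [h2, h1]
  simp [Finset.sum_apply, pw, mul_pow]

lemma expand {K : Type} [Field K] {s n0 : ℕ} (A : Matrix (Fin s) (Fin s) K) (hA : A.IsSymm)
    (x : Fin n0 → Fin s → K) (hx : ∀ i j, i ≠ j → x i ⬝ᵥ A *ᵥ x j = 0) (a : Fin n0 → K)
    (ω : Fin s → K) :
    (∑ j, a j • x j + ω) ⬝ᵥ A *ᵥ (∑ j, a j • x j + ω) =
      ∑ j, a j ^ 2 * (x j ⬝ᵥ A *ᵥ x j) + 2 * ∑ j, a j * (ω ⬝ᵥ A *ᵥ x j) + ω ⬝ᵥ A *ᵥ ω := by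
  have h1 : ∀ u : Fin s → K, u ⬝ᵥ A *ᵥ (∑ j, a j • x j) = ∑ j, a j * (u ⬝ᵥ A *ᵥ x j) := by
    intro u
    rw [Matrix.mulVec_sum, dotProduct_sum]
    refine Finset.sum_congr rfl fun j _ => ?_
    rw [Matrix.mulVec_smul, dotProduct_smul, smul_eq_mul]
  have h2 : (∑ j, a j • x j) ⬝ᵥ A *ᵥ (∑ j, a j • x j) = ∑ j, a j ^ 2 * (x j ⬝ᵥ A *ᵥ x j) := by
    rw [h1]
    refine Finset.sum_congr rfl fun j _ => ?_
    rw [dot_symm A hA, h1, Finset.sum_eq_single j]
    · ring
    · intro i _ hij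
      rw [hx j i (Ne.symm hij), mul_zero]
    · simp
  rw [Matrix.mulVec_add, dotProduct_add, add_dotProduct, add_dotProduct, h2, h1,
    dot_symm A hA (∑ j, a j • x j) ω, h1]
  ring

/-- a product of nonzero polynomials has a nonzero value. -/
lemma choose_w {K : Type} [Field K] [Infinite K] {s : ℕ} (k : ℕ) (hk : 1 ≤ k) {J : Type}
    (Z : Finset J) (g : J → Fin s → K) (hg : ∀ j ∈ Z, ∃ l, g j l ≠ 0) :
    ∃ w : Fin s → K, ∀ j ∈ Z, ∑ l, g j l * w l ^ k ≠ 0 := by
  classical
  have h1 : ∏ j ∈ Z, (∑ l, MvPolynomial.C (g j l) * MvPolynomial.X l ^ k :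
      MvPolynomial (Fin s) K) ≠ 0 := by
    rw [Finset.prod_ne_zero_iff]
    intro j hj h0
    obtain ⟨l, hl⟩ := hg j hj
    have := congrArg (MvPolynomial.coeff (Finsupp.single l k)) h0
    rw [MvPolynomial.coeff_sum, Finset.sum_eq_single l] at this
    · rw [MvPolynomial.coeff_C_mul, MvPolynomial.coeff_X_pow] at this
      simp at this
      exact hl this
    · intro i _ hi
      rw [MvPolynomial.coeff_C_mul, MvPolynomial.coeff_X_pow, if_neg, mul_zero]
      intro he
      exact hi ((Finsupp.single_left_inj (by omega)).mp he)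
    · simp
  by_contra hcon
  push Not at hcon
  apply h1
  apply MvPolynomial.funext
  intro w
  obtain ⟨j, hj, hj0⟩ := hcon w
  rw [map_prod, map_zero]
  apply Finset.prod_eq_zero hj
  rw [map_sum, ← hj0]
  refine Finset.sum_congr rfl fun l _ => ?_
  simp

lemma nonsing {K : Type} [Field K] {s : ℕ} (A : Matrix (Fin s) (Fin s) K) (u v : Fin s → K)
    (h : u ⬝ᵥ A *ᵥ v ≠ 0) : ∃ l, u l ≠ 0 ∧ (A *ᵥ v) l ≠ 0 := by
  by_contra hcon
  push Not at hcon
  apply h
  unfold dotProduct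
  refine Finset.sum_eq_zero fun l _ => ?_
  by_cases hl : u l = 0
  · rw [hl, zero_mul]
  · rw [hcon l hl, mul_zero]

lemma pw_ne {K : Type} [Field K] {s : ℕ} (k : ℕ) (hk : 1 ≤ k) (y : Fin s → K) (l : Fin s) :
    pw k y l ≠ 0 ↔ y l ≠ 0 := by
  unfold pw
  rw [ne_eq, pow_eq_zero_iff (by omega)]

lemma dot_lin {K : Type} [Field K] {s n0 : ℕ} (A : Matrix (Fin s) (Fin s) K)
    (x : Fin n0 → Fin s → K) (hx : ∀ i j, i ≠ j → x i ⬝ᵥ A *ᵥ x j = 0) (a : Fin n0 → K)
    (ω : Fin s → K) (i : Fin n0) :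
    x i ⬝ᵥ A *ᵥ (∑ j, a j • x j + ω) = a i * (x i ⬝ᵥ A *ᵥ x i) + x i ⬝ᵥ A *ᵥ ω := by
  rw [Matrix.mulVec_add, dotProduct_add, Matrix.mulVec_sum, dotProduct_sum,
    Finset.sum_eq_single i]
  · rw [Matrix.mulVec_smul, dotProduct_smul, smul_eq_mul]
  · intro j _ hij
    rw [Matrix.mulVec_smul, dotProduct_smul, hx i j (Ne.symm hij), smul_zero]
  · simp

/-- the value of the combination on the support of one of the vectors. -/
lemma val_supp {K : Type} [Field K] {s n0 : ℕ} (z : Fin n0 → Fin s → K)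
    (hz : ∀ i j l, z i l ≠ 0 → z j l ≠ 0 → i = j) (t : Fin n0 → K) (w : Fin s → K)
    (hw : ∀ j l, t j ≠ 0 → z j l ≠ 0 → w l = 0) (i : Fin n0) (hi : t i ≠ 0) (l : Fin s)
    (hl : z i l ≠ 0) : ∑ j, t j * z j l + w l ≠ 0 := by
  rw [hw i l hi hl, add_zero, Finset.sum_eq_single i]
  · exact mul_ne_zero hi hl
  · intro j _ hj
    by_contra hn
    exact hj (hz j i l (right_ne_zero_of_mul hn) hl)
  · simp

/-- a small multiple. -/
lemma small (p : ℕ) [Fact p.Prime] (k : ℕ) (hk : 1 ≤ k) (g : ℚ_[p]) (ε : ℝ) (hε : 0 < ε) :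
    ∃ M : ℕ, ‖g * ((p : ℚ_[p]) ^ M) ^ k‖ < ε := by
  have hp1 : ‖(p : ℚ_[p])‖ < 1 := Padic.norm_p_lt_one
  have hp0 : 0 ≤ ‖(p : ℚ_[p])‖ := norm_nonneg _
  obtain ⟨M, hM⟩ := exists_pow_lt_of_lt_one (show 0 < ε / (‖g‖ + 1) by positivity) hp1
  refine ⟨M, ?_⟩
  rw [norm_mul, norm_pow, norm_pow]
  have h1 : (‖(p : ℚ_[p])‖ ^ M) ^ k ≤ ‖(p : ℚ_[p])‖ ^ M :=
    pow_le_of_le_one (by positivity) (pow_le_one₀ hp0 hp1.le) (by omega)
  have h2 : ‖(p : ℚ_[p])‖ ^ M * (‖g‖ + 1) < ε := by
    rwa [lt_div_iff₀ (by positivity)] at hM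
  have h3 : 0 ≤ ‖(p : ℚ_[p])‖ ^ M := by positivity
  have h4 : 0 ≤ ‖g‖ := norm_nonneg g
  nlinarith

lemma core (h : S_AS) (p : ℕ) [Fact p.Prime] (k : ℕ) (hk : 1 ≤ k) (s : ℕ) (hs : sp k ≤ s)
    (A : Matrix (Fin s) (Fin s) ℚ_[p]) (hA : A.IsSymm) (hdet : A.det ≠ 0) :
    ∃ y : Fin s → ℚ_[p], pw k y ⬝ᵥ A *ᵥ pw k y = 0 ∧ ∃ l, y l ≠ 0 ∧ (A *ᵥ pw k y) l ≠ 0 := by
  classical
  set n0 := Nas 1 (2 * k) + Nas 1 k + 2 with hn0
  obtain ⟨z, hz, hd, ho⟩ := family h p k hk n0 (by omega) s hs A hA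
  set x : Fin n0 → Fin s → ℚ_[p] := fun j => pw k (z j) with hx
  have ho' : ∀ i j, i ≠ j → x i ⬝ᵥ A *ᵥ x j = 0 := ho
  set c : Fin n0 → ℚ_[p] := fun j => x j ⬝ᵥ A *ᵥ x j with hc
  have hcard : (Finset.univ.filter fun j => c j = 0).card +
      (Finset.univ.filter fun j => ¬ c j = 0).card = n0 := by
    have := Finset.card_filter_add_card_filter_not (s := (Finset.univ : Finset (Fin n0)))
      (fun j => c j = 0)
    simpa using this
  by_cases hcase : Nas 1 (2 * k) ≤ (Finset.univ.filter fun j => ¬ c j = 0).card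
  · -- many nonzero diagonal values
    obtain ⟨t, ht, htB, htc⟩ := AS_finset h p (2 * k) 1 (by omega) le_rfl
      (Finset.univ.filter fun j => ¬ c j = 0) hcase (fun _ j => c j)
    obtain ⟨j, hj⟩ := Function.ne_iff.mp ht
    have hj' : t j ≠ 0 := hj
    have hcj : c j ≠ 0 := by simpa using htB j hj'
    have hw : ∀ (j : Fin n0) (l : Fin s), t j ≠ 0 → z j l ≠ 0 → (0 : Fin s → ℚ_[p]) l = 0 :=
      fun _ _ _ _ => rfl
    have hpw0 : pw k (0 : Fin s → ℚ_[p]) = 0 := by
      funext l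
      simp [pw, Nat.one_le_iff_ne_zero.mp hk]
    have hcomb := comb k hk z hd t 0 hw
    refine ⟨fun l => ∑ j, t j * z j l + (0 : Fin s → ℚ_[p]) l, ?_, ?_⟩
    · rw [hcomb, expand A hA x ho', hpw0]
      have := htc 0
      simp only [zero_dotProduct, mul_zero, Finset.sum_const_zero, add_zero]
      rw [← this]
      refine Finset.sum_congr rfl fun i _ => ?_
      rw [← pow_mul, mul_comm k 2]
      ring
    · have h1 : x j ⬝ᵥ A *ᵥ (pw k fun l => ∑ j, t j * z j l + (0 : Fin s → ℚ_[p]) l) ≠ 0 := by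
        rw [hcomb, dot_lin A x ho', hpw0]
        simp only [Matrix.mulVec_zero, dotProduct_zero, add_zero]
        exact mul_ne_zero (pow_ne_zero _ hj') hcj
      obtain ⟨l, hl1, hl2⟩ := nonsing A _ _ h1
      refine ⟨l, ?_, hl2⟩
      exact val_supp z hd t 0 hw j hj' l ((pw_ne k hk (z j) l).mp hl1)
  · have hZ : Nas 1 k ≤ (Finset.univ.filter fun j => c j = 0).card := by omega
    by_cases hb : ∃ i j : Fin n0, c i = 0 ∧ c j = 0 ∧ ∃ l, z i l ≠ 0 ∧ (A *ᵥ x j) l ≠ 0
    · obtain ⟨i, j, hi, hj, l, hl1, hl2⟩ := hb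
      by_cases hil : (A *ᵥ x i) l ≠ 0
      · exact ⟨z i, hi, l, hl1, hil⟩
      · push Not at hil
        have hij : i ≠ j := by
          rintro rfl
          exact hl2 hil
        have hzj : ∀ l, z i l ≠ 0 → z j l = 0 := by
          intro l hl
          by_contra hn
          exact hij (hd i j l hl hn)
        have hadd : pw k (z i + z j) = x i + x j := by
          funext m
          simp only [hx, pw, Pi.add_apply]
          by_cases hm : z i m = 0
          · simp [hm, Nat.one_le_iff_ne_zero.mp hk]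
          · simp [hzj m hm, Nat.one_le_iff_ne_zero.mp hk]
        refine ⟨z i + z j, ?_, l, ?_, ?_⟩
        · rw [hadd, Matrix.mulVec_add, dotProduct_add, add_dotProduct, add_dotProduct,
            ho' i j hij, ho' j i (Ne.symm hij)]
          have h1 : x i ⬝ᵥ A *ᵥ x i = 0 := hi
          have h2 : x j ⬝ᵥ A *ᵥ x j = 0 := hj
          rw [h1, h2]
          ring
        · rw [Pi.add_apply, hzj l hl1, add_zero]
          exact hl1
        · rw [hadd, Matrix.mulVec_add, Pi.add_apply, hil, zero_add]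
          exact hl2
    · push Not at hb
      have hg : ∀ j ∈ (Finset.univ.filter fun j => c j = 0), ∃ l, (A *ᵥ x j) l ≠ 0 := by
        intro j _
        by_contra hcon
        push Not at hcon
        have h1 : A *ᵥ x j = 0 := funext hcon
        have h2 : x j = 0 := Matrix.eq_zero_of_mulVec_eq_zero hdet h1
        obtain ⟨l, hl⟩ := Function.ne_iff.mp (hz j)
        exact (pw_ne k hk (z j) l).mpr hl (congrFun h2 l)
      obtain ⟨w0, hw0⟩ := choose_w k hk (Finset.univ.filter fun j => c j = 0)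
        (fun j => A *ᵥ x j) hg
      set w : Fin s → ℚ_[p] := fun l => if ∃ i, c i = 0 ∧ z i l ≠ 0 then 0 else w0 l with hwdef
      set lam : Fin n0 → ℚ_[p] := fun j => pw k w ⬝ᵥ A *ᵥ x j with hlam
      have hlam0 : ∀ j, c j = 0 → lam j ≠ 0 := by
        intro j hj
        have h1 := hw0 j (by simpa using hj)
        have h2 : lam j = ∑ l, (A *ᵥ x j) l * w0 l ^ k := by
          simp only [hlam, dotProduct]
          refine Finset.sum_congr rfl fun l _ => ?_
          by_cases hl : ∃ i, c i = 0 ∧ z i l ≠ 0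
          · obtain ⟨i, hi, hil⟩ := hl
            rw [hb i j hi hj l hil]
            ring
          · have : w l = w0 l := by simp only [hwdef, if_neg hl]
            unfold pw
            rw [this, mul_comm]
        rw [h2]
        exact h1
      obtain ⟨t, ht, htB, htc⟩ := AS_finset h p k 1 hk le_rfl
        (Finset.univ.filter fun j => c j = 0) hZ (fun _ j => lam j)
      obtain ⟨j0, hj0⟩ := Function.ne_iff.mp ht
      have hj0' : t j0 ≠ 0 := hj0
      have hcj0 : c j0 = 0 := by simpa using htB j0 hj0'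
      have hl0 := hlam0 j0 hcj0
      set f : ℚ_[p] := pw k w ⬝ᵥ A *ᵥ pw k w with hf
      have hk0 : (k : ℚ_[p]) ≠ 0 := Nat.cast_ne_zero.mpr (by omega)
      obtain ⟨M, hM⟩ := small p k hk (-f / (2 * lam j0 * t j0 ^ k)) (‖(k : ℚ_[p])‖ ^ 2)
        (by positivity)
      set δ : ℚ_[p] := -f / (2 * lam j0 * t j0 ^ k) * ((p : ℚ_[p]) ^ M) ^ k with hδ
      obtain ⟨r, hr⟩ := near_one p k δ hM
      have hp0 : (p : ℚ_[p]) ^ M ≠ 0 :=
        pow_ne_zero _ (Nat.cast_ne_zero.mpr (Fact.out : p.Prime).ne_zero)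
      have hr0 : r ≠ 0 := by
        rintro rfl
        rw [zero_pow (by omega)] at hr
        have h1 : δ = -1 := by linear_combination -hr
        rw [h1, norm_neg, norm_one] at hM
        have h2 : ‖(k : ℚ_[p])‖ ≤ 1 := by
          have := PadicInt.norm_le_one (p := p) (k : ℤ_[p])
          rwa [PadicInt.norm_def, PadicInt.coe_natCast] at this
        have h3 : 0 ≤ ‖(k : ℚ_[p])‖ := norm_nonneg _
        nlinarith
      set t' : Fin n0 → ℚ_[p] := fun j => ((p : ℚ_[p]) ^ M)⁻¹ * t j * (if j = j0 then r else 1)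
        with ht'
      have htj0 : t' j0 ≠ 0 := by
        simp only [ht', if_true]
        exact mul_ne_zero (mul_ne_zero (inv_ne_zero hp0) hj0') hr0
      have htz : ∀ j, t' j ≠ 0 → c j = 0 := by
        intro j hj
        have : t j ≠ 0 := right_ne_zero_of_mul (left_ne_zero_of_mul hj)
        simpa using htB j this
      have hw : ∀ (j : Fin n0) (l : Fin s), t' j ≠ 0 → z j l ≠ 0 → w l = 0 := by
        intro j l hj hl
        simp only [hwdef]
        rw [if_pos ⟨j, htz j hj, hl⟩]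
      have hcomb := comb k hk z hd t' w hw
      have hpk : ∀ j, t' j ^ k = (((p : ℚ_[p]) ^ M) ^ k)⁻¹ *
          (t j ^ k + if j = j0 then t j0 ^ k * δ else 0) := by
        intro j
        simp only [ht']
        by_cases hj : j = j0
        · subst hj
          simp only [if_true]
          rw [mul_pow, mul_pow, hr, inv_pow]
          ring
        · simp only [if_neg hj]
          rw [mul_one, mul_pow, inv_pow, add_zero]
      refine ⟨fun l => ∑ j, t' j * z j l + w l, ?_, ?_⟩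
      · rw [hcomb, expand A hA x ho']
        have h1 : ∑ j, (t' j ^ k) ^ 2 * (x j ⬝ᵥ A *ᵥ x j) = 0 := by
          refine Finset.sum_eq_zero fun j _ => ?_
          by_cases hj : t' j = 0
          · rw [hj, zero_pow (by omega)]
            ring
          · have : x j ⬝ᵥ A *ᵥ x j = 0 := htz j hj
            rw [this, mul_zero]
        have h2 : ∑ j, t' j ^ k * (pw k w ⬝ᵥ A *ᵥ x j) =
            (((p : ℚ_[p]) ^ M) ^ k)⁻¹ * (t j0 ^ k * δ * lam j0) := by
          have h3 : ∀ j, t' j ^ k * (pw k w ⬝ᵥ A *ᵥ x j) = (((p : ℚ_[p]) ^ M) ^ k)⁻¹ *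
            (lam j * t j ^ k) + (((p : ℚ_[p]) ^ M) ^ k)⁻¹ *
              (if j = j0 then t j0 ^ k * δ * lam j0 else 0) := by
            intro j
            rw [hpk j]
            by_cases hj : j = j0
            · subst hj
              simp only [if_true, hlam]
              ring
            · simp only [if_neg hj, hlam]
              ring
          rw [Finset.sum_congr rfl fun j _ => h3 j, Finset.sum_add_distrib, ← Finset.mul_sum,
            ← Finset.mul_sum, htc 0]
          simp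
        rw [h1, h2, ← hf, hδ]
        have hpMk : ((p : ℚ_[p]) ^ M) ^ k ≠ 0 := pow_ne_zero _ hp0
        have htk : t j0 ^ k ≠ 0 := pow_ne_zero _ hj0'
        field_simp
        ring
      · have h1 : x j0 ⬝ᵥ A *ᵥ (pw k fun l => ∑ j, t' j * z j l + w l) ≠ 0 := by
          rw [hcomb, dot_lin A x ho', dot_symm A hA (x j0) (pw k w)]
          have : x j0 ⬝ᵥ A *ᵥ x j0 = 0 := hcj0
          rw [this, mul_zero, zero_add]
          exact hl0
        obtain ⟨l, hl1, hl2⟩ := nonsing A _ _ h1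
        refine ⟨l, ?_, hl2⟩
        exact val_supp z hd t' w hw j0 htj0 l ((pw_ne k hk (z j0) l).mp hl1)

/-- a common denominator. -/
lemma bounded (p : ℕ) [Fact p.Prime] {s : ℕ} (y : Fin s → ℚ_[p]) :
    ∃ M : ℕ, ∀ l, ‖(p : ℚ_[p]) ^ M * y l‖ ≤ 1 := by
  have h1 : ∀ l, ∃ M : ℕ, ‖y l * ((p : ℚ_[p]) ^ M) ^ 1‖ < 1 := fun l =>
    small p 1 le_rfl (y l) 1 one_pos
  choose M hM using h1
  refine ⟨∑ l, M l, fun l => ?_⟩
  have h2 : M l ≤ ∑ l, M l := Finset.single_le_sum (fun _ _ => Nat.zero_le _) (Finset.mem_univ l)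
  obtain ⟨n, hn⟩ := Nat.exists_eq_add_of_le h2
  have h3 := hM l
  rw [pow_one] at h3
  rw [hn, pow_add, norm_mul, norm_mul]
  rw [norm_mul] at h3
  have h4 : ‖(p : ℚ_[p]) ^ n‖ ≤ 1 := by
    rw [norm_pow]
    exact pow_le_one₀ (norm_nonneg _) (Padic.norm_p_lt_one).le
  have h5 : 0 ≤ ‖(p : ℚ_[p]) ^ n‖ := norm_nonneg _
  have h6 : 0 ≤ ‖y l‖ * ‖(p : ℚ_[p]) ^ M l‖ := by positivity
  nlinarith

end PADx

open PADx Matrix in
theorem t_PAD (h : S_AS) : S_PAD := by
  intro p _ k hk s hs A hA hdet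
  set A' : Matrix (Fin s) (Fin s) ℚ_[p] := A.map (Int.cast) with hA'
  have hA's : A'.IsSymm := by
    ext i j
    simp only [hA', Matrix.transpose_apply, Matrix.map_apply]
    rw [hA.apply]
  have hdet' : A'.det ≠ 0 := by
    have : A'.det = ((A.det : ℤ) : ℚ_[p]) := by
      rw [hA']
      exact (Int.cast_det A).symm
    rw [this]
    exact_mod_cast hdet
  obtain ⟨y, hy, l, hl1, hl2⟩ := core h p k hk s hs A' hA's hdet'
  obtain ⟨M, hM⟩ := bounded p y
  have hp0 : (p : ℚ_[p]) ^ M ≠ 0 :=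
    pow_ne_zero _ (Nat.cast_ne_zero.mpr (Fact.out : p.Prime).ne_zero)
  set φ : ℤ_[p] →+* ℚ_[p] := PadicInt.Coe.ringHom with hφ
  obtain ⟨Y, hY⟩ : ∃ Y : Fin s → ℤ_[p], ∀ l, φ (Y l) = (p : ℚ_[p]) ^ M * y l :=
    ⟨fun l => ⟨(p : ℚ_[p]) ^ M * y l, hM l⟩, fun l => rfl⟩
  refine ⟨Y, ?_, l, ?_⟩
  · rw [aeval_G1]
    have hinj : ∀ x : ℤ_[p], φ x = 0 → x = 0 := fun x hx => PadicInt.ext hx
    apply hinj
    have h0 : φ (∑ i, ∑ j, (A i j : ℤ_[p]) * Y i ^ k * Y j ^ k) =
        ∑ i, ∑ j, (A i j : ℚ_[p]) * ((p : ℚ_[p]) ^ M * y i) ^ k *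
        ((p : ℚ_[p]) ^ M * y j) ^ k := by
      rw [map_sum]
      refine Finset.sum_congr rfl fun i _ => ?_
      rw [map_sum]
      refine Finset.sum_congr rfl fun j _ => ?_
      rw [map_mul, map_mul, map_pow, map_pow, map_intCast, hY, hY]
    rw [h0]
    have h1 : ∑ i, ∑ j, (A i j : ℚ_[p]) * ((p : ℚ_[p]) ^ M * y i) ^ k *
        ((p : ℚ_[p]) ^ M * y j) ^ k = ((p : ℚ_[p]) ^ M) ^ (2 * k) *
          (pw k y ⬝ᵥ A' *ᵥ pw k y) := by
      simp only [dotProduct, Matrix.mulVec, Finset.mul_sum, hA', Matrix.map_apply, pw]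
      refine Finset.sum_congr rfl fun i _ => Finset.sum_congr rfl fun j _ => ?_
      rw [mul_pow, mul_pow, mul_comm 2 k, pow_mul]
      ring
    rw [h1, hy, mul_zero]
  · rw [aeval_pderiv_G1 A hA]
    intro h0
    have h2 := congrArg φ h0
    rw [map_mul, map_mul, map_mul, map_pow, map_sum, map_zero, map_natCast, hY] at h2
    have h3 : ∀ j, φ ((A l j : ℤ_[p]) * Y j ^ k) =
        (A l j : ℚ_[p]) * ((p : ℚ_[p]) ^ M * y j) ^ k := by
      intro j
      rw [map_mul, map_pow, map_intCast, hY]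
    rw [Finset.sum_congr rfl fun j _ => h3 j, map_ofNat] at h2
    have h1 : ∑ j, (A l j : ℚ_[p]) * ((p : ℚ_[p]) ^ M * y j) ^ k = ((p : ℚ_[p]) ^ M) ^ k *
          (A' *ᵥ pw k y) l := by
      simp only [dotProduct, Matrix.mulVec, Finset.mul_sum, hA', Matrix.map_apply, pw]
      refine Finset.sum_congr rfl fun j _ => ?_
      rw [mul_pow]
      ring
    rw [h1] at h2
    have hk0 : (k : ℚ_[p]) ≠ 0 := Nat.cast_ne_zero.mpr (by omega)
    refine absurd h2 (mul_ne_zero (mul_ne_zero (mul_ne_zero two_ne_zero hk0)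
      (pow_ne_zero _ (mul_ne_zero hp0 hl1))) (mul_ne_zero (pow_ne_zero _ hp0) hl2))

end Pool.Agent.helper132_hp
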