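import Pool.Agent.helper132_hp.Stmts

/-! Perturbation and compactness. -/

namespace Pool.Agent.helper132_hp

open Finset Filter Topology

namespace PERTx

/-- a matrix all of whose maximal minors are nonzero. -/
lemma exists_E (p : ℕ) [Fact p.Prime] (R : ℕ) (ι : Type) [Fintype ι] [DecidableEq ι] :
    ∃ E : Fin R → ι → ℚ_[p], ∀ T : Fin R → ι, Function.Injective T →
      (Matrix.of fun m i => E m (T i)).det ≠ 0 := by
  classical
  let f : ι → ℚ_[p] := fun i => (((Fintype.equivFin ι i : Fin _) : ℕ) : ℚ_[p])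
  have hf : Function.Injective f := by
    intro i j h
    have h0 : (((Fintype.equivFin ι i : Fin _) : ℕ) : ℚ_[p]) =
        (((Fintype.equivFin ι j : Fin _) : ℕ) : ℚ_[p]) := h
    have h' : ((Fintype.equivFin ι i : Fin _) : ℕ) = ((Fintype.equivFin ι j : Fin _) : ℕ) := by
      exact_mod_cast h0
    exact (Fintype.equivFin ι).injective (Fin.ext h')
  refine ⟨fun m i => f i ^ (m : ℕ), fun T hT => ?_⟩
  have h1 : (Matrix.of fun (m i : Fin R) => f (T i) ^ (m : ℕ)) =
      (Matrix.vandermonde fun i => f (T i)).transpose := by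
    ext m i
    simp [Matrix.vandermonde]
  rw [h1, Matrix.det_transpose, Matrix.det_vandermonde_ne_zero_iff]
  exact hf.comp hT

/-- for all but finitely many `t` the minor of `c + tE` is nonzero. -/
lemma finite_bad (p : ℕ) [Fact p.Prime] (R : ℕ) (A B : Matrix (Fin R) (Fin R) ℚ_[p])
    (hA : A.det ≠ 0) : {t : ℚ_[p] | (t • A + B).det = 0}.Finite := by
  classical
  set P : Polynomial ℚ_[p] :=
    ((Polynomial.X : Polynomial ℚ_[p]) • A.map Polynomial.C + B.map Polynomial.C).det with hP
  have hne : P ≠ 0 := by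
    intro h0
    have h := Polynomial.coeff_det_X_add_C_card A B
    rw [← hP, h0, Polynomial.coeff_zero] at h
    exact hA h.symm
  refine (Polynomial.finite_setOfPred_isRoot hne).subset ?_
  intro t ht
  simp only [Set.mem_ofPred_eq] at ht ⊢
  have : Polynomial.eval t P = (t • A + B).det := by
    rw [hP, ← Polynomial.coe_evalRingHom, RingHom.map_det]
    congr 1
    ext i j
    simp
    ring
  rw [Polynomial.IsRoot.def, this, ht]

end PERTx

open PERTx in
theorem t_PERT : S_PERT := by
  intro p hp k R hk hR ι _ _ hcard H c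
  classical
  obtain ⟨E, hE⟩ := exists_E p R ι
  -- good exponents
  have hgood : ∀ n : ℕ, ∃ N ≥ n, ∀ T : Fin R → ι, Function.Injective T →
      (Matrix.of fun m i => c m (T i) + (p : ℚ_[p]) ^ N * E m (T i)).det ≠ 0 := by
    intro n
    set S : Set ℚ_[p] := ⋃ T : {T : Fin R → ι // Function.Injective T},
      {t : ℚ_[p] | (t • (Matrix.of fun m i => E m (T.1 i)) +
        (Matrix.of fun m i => c m (T.1 i))).det = 0} with hS
    have hSf : S.Finite := Set.finite_iUnion fun T => finite_bad p R _ _ (hE T.1 T.2)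
    have hinj : Function.Injective fun N : ℕ => (p : ℚ_[p]) ^ (n + N) := by
      intro a b hab
      have h1 : ((p ^ (n + a) : ℕ) : ℚ_[p]) = ((p ^ (n + b) : ℕ) : ℚ_[p]) := by
        push_cast
        exact hab
      have h2 : p ^ (n + a) = p ^ (n + b) := by exact_mod_cast h1
      have h3 := Nat.pow_right_injective hp.out.two_le h2
      omega
    have hex : ∃ N : ℕ, (p : ℚ_[p]) ^ (n + N) ∉ S := by
      by_contra hcon
      push Not at hcon
      exact (Set.infinite_range_of_injective hinj)
        (hSf.subset (by rintro _ ⟨N, rfl⟩; exact hcon N))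
    obtain ⟨N, hN⟩ := hex
    refine ⟨n + N, by omega, fun T hT h0 => hN ?_⟩
    rw [hS]
    refine Set.mem_iUnion.2 ⟨⟨T, hT⟩, ?_⟩
    simp only [Set.mem_ofPred_eq]
    rw [← h0]
    congr 1
    ext m i
    simp [add_comm]
  choose N hN hNdet using hgood
  -- solutions on the unit sphere
  have hsol : ∀ n : ℕ, ∃ y : ι → ℚ_[p], ‖y‖ = 1 ∧
      ∀ m, ∑ i, (c m i + (p : ℚ_[p]) ^ N n * E m i) * y i ^ k = 0 := by
    intro n
    obtain ⟨y, hy0, hy⟩ := H (fun m i => c m i + (p : ℚ_[p]) ^ N n * E m i) (hNdet n)
    have hne : Nonempty ι := by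
      by_contra hcon
      rw [not_nonempty_iff] at hcon
      exact hy0 (Subsingleton.elim _ _)
    obtain ⟨i0, -, hi0⟩ := Finset.exists_max_image Finset.univ (fun i => ‖y i‖) Finset.univ_nonempty
    have hyi0 : y i0 ≠ 0 := by
      intro h0
      apply hy0
      funext i
      have := hi0 i (Finset.mem_univ i)
      rw [h0, norm_zero] at this
      simpa using this
    refine ⟨fun i => y i / y i0, ?_, ?_⟩
    · apply le_antisymm
      · rw [pi_norm_le_iff_of_nonneg zero_le_one]
        intro i
        rw [norm_div, div_le_one (norm_pos_iff.2 hyi0)]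
        exact hi0 i (Finset.mem_univ i)
      · have := norm_le_pi_norm (fun i => y i / y i0) i0
        simpa [div_self hyi0] using this
    · intro m
      have h1 : ∑ i, (c m i + (p : ℚ_[p]) ^ N n * E m i) * (y i / y i0) ^ k =
          (∑ i, (c m i + (p : ℚ_[p]) ^ N n * E m i) * y i ^ k) / y i0 ^ k := by
        rw [Finset.sum_div]
        exact Finset.sum_congr rfl fun i _ => by rw [div_pow, mul_div_assoc]
      rw [h1, hy m, zero_div]
  choose y hy1 hy using hsol
  obtain ⟨z, hz, φ, hφ, hlim⟩ := (isCompact_sphere (0 : ι → ℚ_[p]) 1).tendsto_subseq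
    (x := y) (fun n => by simp [hy1 n])
  refine ⟨z, ?_, fun m => ?_⟩
  · intro h0
    rw [h0] at hz
    simp at hz
  · -- pass to the limit
    have hpow : Tendsto (fun n : ℕ => (p : ℚ_[p]) ^ N (φ n)) atTop (𝓝 0) := by
      have h1 : Tendsto (fun n : ℕ => (p : ℚ_[p]) ^ n) atTop (𝓝 0) := by
        apply tendsto_pow_atTop_nhds_zero_of_norm_lt_one
        exact Padic.norm_p_lt_one
      have h2 : Tendsto (fun n => N (φ n)) atTop atTop := by
        apply tendsto_atTop_mono (fun n => hN (φ n)) hφ.tendsto_atTop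
      exact h1.comp h2
    have hT : Tendsto (fun n : ℕ => ∑ i, (c m i + (p : ℚ_[p]) ^ N (φ n) * E m i) * y (φ n) i ^ k)
        atTop (𝓝 (∑ i, (c m i + 0 * E m i) * z i ^ k)) := by
      apply tendsto_finsetSum
      intro i _
      apply Tendsto.mul
      · exact tendsto_const_nhds.add (hpow.mul tendsto_const_nhds)
      · apply Tendsto.pow
        exact ((continuous_apply i).tendsto z).comp hlim
    have h0 : (fun n : ℕ => ∑ i, (c m i + (p : ℚ_[p]) ^ N (φ n) * E m i) * y (φ n) i ^ k) =
        fun _ => 0 := by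
      funext n
      exact hy (φ n) m
    rw [h0] at hT
    have := tendsto_nhds_unique hT tendsto_const_nhds
    simpa using this

end Pool.Agent.helper132_hp
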