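import Pool.Agent.helper132_hp.Stmts

set_option autoImplicit false
set_option linter.unusedSectionVars false

namespace Pool.Agent.helper132_hp

open Finset

namespace REALx

variable {ι : Type} [Fintype ι] [DecidableEq ι]

theorem aeval_smul' (G : MvPolynomial ι ℤ) (D : ℕ) (hG : G.IsHomogeneous D) (r : ℝ) (x : ι → ℝ) :
    MvPolynomial.aeval (fun l => r * x l) G = r ^ D * MvPolynomial.aeval x G := by
  rw [MvPolynomial.aeval_def, MvPolynomial.aeval_def, MvPolynomial.eval₂_eq', MvPolynomial.eval₂_eq',
    Finset.mul_sum]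
  refine Finset.sum_congr rfl fun d hd => ?_
  have h1 : ∑ i, d i = D := by
    have := hG (MvPolynomial.mem_support_iff.mp hd)
    rw [← this, Finsupp.weight_apply, Finsupp.sum_fintype _ _ (fun _ => by simp)]
    simp
  have h2 : ∏ i, (r * x i) ^ d i = r ^ D * ∏ i, x i ^ d i := by
    rw [← h1, ← Finset.prod_pow_eq_pow_sum, ← Finset.prod_mul_distrib]
    exact Finset.prod_congr rfl fun i _ => mul_pow _ _ _
  rw [h2]
  ring

theorem cast_eval (G : MvPolynomial ι ℤ) (z : ι → ℤ) :
    ((MvPolynomial.eval z G : ℤ) : ℝ) = MvPolynomial.aeval (fun l => (z l : ℝ)) G := by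
  induction G using MvPolynomial.induction_on with
  | C a => simp
  | add p q hp hq => rw [map_add, map_add, Int.cast_add, hp, hq]
  | mul_X p n hp => rw [map_mul, map_mul, Int.cast_mul, hp, MvPolynomial.eval_X, MvPolynomial.aeval_X]

theorem hasDeriv (G : MvPolynomial ι ℤ) (x : ι → ℝ) (l : ι) (t : ℝ) :
    HasDerivAt (fun t => MvPolynomial.aeval (Function.update x l t) G)
      (MvPolynomial.aeval (Function.update x l t) (MvPolynomial.pderiv l G)) t := by
  induction G using MvPolynomial.induction_on with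
  | C a => simpa using hasDerivAt_const t (a : ℝ)
  | add p q hp hq =>
    have h := hp.add hq
    rw [map_add, map_add]
    refine h.congr_of_eventuallyEq (Filter.Eventually.of_forall fun s => ?_)
    simp
  | mul_X p n hp =>
    have hX : HasDerivAt (fun t : ℝ => Function.update x l t n) (if n = l then 1 else 0) t := by
      by_cases h : n = l
      · subst h
        rw [if_pos rfl]
        have : (fun t : ℝ => Function.update x n t n) = fun t => t := by
          funext s; rw [Function.update_self]
        rw [this]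
        exact hasDerivAt_id t
      · rw [if_neg h]
        have : (fun t : ℝ => Function.update x l t n) = fun _ => x n := by
          funext s; rw [Function.update_of_ne h]
        rw [this]
        exact hasDerivAt_const t _
    have h := hp.mul hX
    have e1 : MvPolynomial.aeval (Function.update x l t) (MvPolynomial.pderiv l (p * MvPolynomial.X n))
        = MvPolynomial.aeval (Function.update x l t) (MvPolynomial.pderiv l p) *
          Function.update x l t n +
          MvPolynomial.aeval (Function.update x l t) p * (if n = l then 1 else 0) := by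
      rw [MvPolynomial.pderiv_mul, MvPolynomial.pderiv_X, map_add, map_mul, map_mul,
        MvPolynomial.aeval_X]
      congr 2
      by_cases h : n = l
      · subst h; simp
      · rw [if_neg h, Pi.single_apply, if_neg h]; simp
    rw [e1]
    refine h.congr_of_eventuallyEq (Filter.Eventually.of_forall fun s => ?_)
    simp

theorem cont_aeval (G : MvPolynomial ι ℤ) :
    Continuous fun x : ι → ℝ => MvPolynomial.aeval x G := by
  simp only [MvPolynomial.aeval_def, MvPolynomial.eval₂_eq']
  fun_prop

/-- local structure near a nonsingular zero -/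
theorem local_zero (G : MvPolynomial ι ℤ) (ζ : ι → ℝ) (h0 : MvPolynomial.aeval ζ G = 0) (l0 : ι)
    (hd : MvPolynomial.aeval ζ (MvPolynomial.pderiv l0 G) ≠ 0) (δ : ℝ) (hδ : 0 < δ) :
    ∃ ρ τ L : ℝ, 0 < ρ ∧ ρ < δ ∧ 0 < τ ∧ 2 * τ < δ ∧ 0 < L ∧ 1 / L ≤ τ ∧
      ∀ x : ι → ℝ, (∀ l, l ≠ l0 → |x l - ζ l| ≤ ρ) → ∃ t : ℝ, |t - ζ l0| ≤ τ ∧
        ∀ t' : ℝ, |t' - t| ≤ τ →
          |MvPolynomial.aeval (Function.update x l0 t') G| ≤ L * |t' - t| := by
  set d := MvPolynomial.aeval ζ (MvPolynomial.pderiv l0 G) with hdd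
  -- signs
  obtain ⟨τ, hτ0, hτδ, hτ1, hs1, hs2⟩ : ∃ τ : ℝ, 0 < τ ∧ 2 * τ < δ ∧ 2 * τ < 1 ∧
      0 < d * MvPolynomial.aeval (Function.update ζ l0 (ζ l0 + τ)) G ∧
      d * MvPolynomial.aeval (Function.update ζ l0 (ζ l0 - τ)) G < 0 := by
    have hD := hasDeriv G ζ l0 (ζ l0)
    rw [Function.update_eq_self, ← hdd] at hD
    have hD' := (hasDerivAt_iff_isLittleO_nhds_zero.mp hD).def
      (show (0 : ℝ) < |d| / 2 from half_pos (abs_pos.mpr hd))
    rw [Metric.eventually_nhds_iff] at hD'
    obtain ⟨r, hr, hD'⟩ := hD'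
    refine ⟨min (r / 2) (min (δ / 3) (1 / 3)), by positivity, ?_, ?_, ?_, ?_⟩
    · have := min_le_right (r / 2) (min (δ / 3) (1 / 3))
      have := min_le_left (δ / 3) (1 / 3 : ℝ)
      linarith
    · have := min_le_right (r / 2) (min (δ / 3) (1 / 3))
      have := min_le_right (δ / 3) (1 / 3 : ℝ)
      linarith
    all_goals
      set τ := min (r / 2) (min (δ / 3) (1 / 3 : ℝ)) with hτ
      have hτ0 : 0 < τ := by positivity
      have hτr : τ < r := by
        have := min_le_left (r / 2) (min (δ / 3) (1 / 3 : ℝ))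
        linarith
    · have h1 := @hD' τ (by rw [Real.dist_eq, sub_zero, abs_of_pos hτ0]; exact hτr)
      rw [Function.update_eq_self, h0, sub_zero, Real.norm_eq_abs, Real.norm_eq_abs, smul_eq_mul,
        abs_of_pos hτ0] at h1
      set y := MvPolynomial.aeval (Function.update ζ l0 (ζ l0 + τ)) G
      have h2 : |d * (y - τ * d)| ≤ |d| * (|d| / 2 * τ) := by
        rw [abs_mul]; exact mul_le_mul_of_nonneg_left h1 (abs_nonneg d)
      have h3 : |d| * |d| = d * d := abs_mul_abs_self d
      have h4 := (abs_le.mp h2).1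
      have h5 : 0 < d * d := mul_self_pos.mpr hd
      nlinarith [mul_pos h5 hτ0]
    · have h1 := @hD' (-τ) (by rw [Real.dist_eq, sub_zero, abs_neg, abs_of_pos hτ0]; exact hτr)
      rw [Function.update_eq_self, h0, sub_zero, Real.norm_eq_abs, Real.norm_eq_abs, smul_eq_mul,
        abs_neg, abs_of_pos hτ0, ← sub_eq_add_neg] at h1
      set y := MvPolynomial.aeval (Function.update ζ l0 (ζ l0 - τ)) G
      have h2 : |d * (y - -τ * d)| ≤ |d| * (|d| / 2 * τ) := by
        rw [abs_mul]; exact mul_le_mul_of_nonneg_left h1 (abs_nonneg d)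
      have h3 : |d| * |d| = d * d := abs_mul_abs_self d
      have h4 := (abs_le.mp h2).2
      have h5 : 0 < d * d := mul_self_pos.mpr hd
      nlinarith [mul_pos h5 hτ0]
  -- continuity
  have hc1 : ContinuousAt (fun x : ι → ℝ =>
      d * MvPolynomial.aeval (Function.update x l0 (ζ l0 + τ)) G) ζ :=
    (continuous_const.mul ((cont_aeval G).comp (by fun_prop))).continuousAt
  have hc2 : ContinuousAt (fun x : ι → ℝ =>
      d * MvPolynomial.aeval (Function.update x l0 (ζ l0 - τ)) G) ζ :=
    (continuous_const.mul ((cont_aeval G).comp (by fun_prop))).continuousAt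
  have he1 := hc1.eventually (lt_mem_nhds hs1)
  have he2 := hc2.eventually (gt_mem_nhds hs2)
  obtain ⟨r, hr, hr2⟩ := Metric.eventually_nhds_iff.mp (he1.and he2)
  -- derivative bound
  obtain ⟨B, hB⟩ := (isCompact_closedBall ζ (1 + δ)).exists_bound_of_continuousOn
    (cont_aeval (MvPolynomial.pderiv l0 G)).continuousOn
  refine ⟨min (r / 2) (min (δ / 2) 1), τ, max (max B 1) (1 / τ), by positivity, ?_, hτ0, hτδ,
    by positivity, ?_, ?_⟩
  · have := min_le_right (r / 2) (min (δ / 2) 1)
    have := min_le_left (δ / 2) (1 : ℝ)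
    linarith
  · rw [div_le_iff₀ (by positivity)]
    have h1 : 1 / τ ≤ max (max B 1) (1 / τ) := le_max_right _ _
    have h2 : τ * (1 / τ) = 1 := by field_simp
    calc (1 : ℝ) = τ * (1 / τ) := h2.symm
      _ ≤ τ * max (max B 1) (1 / τ) := mul_le_mul_of_nonneg_left h1 hτ0.le
  · intro x hx
    set ρ := min (r / 2) (min (δ / 2) (1 : ℝ)) with hρ
    have hρr : ρ < r := by
      have := min_le_left (r / 2) (min (δ / 2) (1 : ℝ))
      linarith
    have hρ1 : ρ ≤ 1 := (min_le_right (r / 2) (min (δ / 2) 1)).trans (min_le_right _ _)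
    have hρ0 : 0 < ρ := by positivity
    -- the point with l0 coordinate of ζ
    have hdist : dist (Function.update x l0 (ζ l0)) ζ < r := by
      rw [dist_pi_lt_iff hr]
      intro l
      by_cases h : l = l0
      · subst h; rw [Function.update_self, dist_self]; exact hr
      · rw [Function.update_of_ne h, Real.dist_eq]
        exact (hx l h).trans_lt hρr
    have hss := hr2 hdist
    simp only [Function.update_idem] at hss
    -- IVT
    have hcont : Continuous fun t : ℝ => d * MvPolynomial.aeval (Function.update x l0 t) G :=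
      continuous_const.mul ((cont_aeval G).comp (by fun_prop))
    have hivt := intermediate_value_Icc (show ζ l0 - τ ≤ ζ l0 + τ by linarith) hcont.continuousOn
    obtain ⟨t, ht, ht0⟩ := hivt (show (0 : ℝ) ∈ Set.Icc _ _ from ⟨hss.2.le, hss.1.le⟩)
    have ht0' : MvPolynomial.aeval (Function.update x l0 t) G = 0 := by
      have : d * MvPolynomial.aeval (Function.update x l0 t) G = 0 := ht0
      exact (mul_eq_zero.mp this).resolve_left hd
    have htζ : |t - ζ l0| ≤ τ := by
      rw [abs_le]; constructor <;> linarith [ht.1, ht.2]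
    refine ⟨t, htζ, ?_⟩
    intro t' ht'
    have hmvt := (convex_Icc (ζ l0 - 2 * τ) (ζ l0 + 2 * τ)).norm_image_sub_le_of_norm_hasDerivWithin_le
      (f := fun t => MvPolynomial.aeval (Function.update x l0 t) G)
      (f' := fun t => MvPolynomial.aeval (Function.update x l0 t) (MvPolynomial.pderiv l0 G))
      (C := max (max B 1) (1 / τ)) (x := t) (y := t')
      (fun s _ => (hasDeriv G x l0 s).hasDerivWithinAt)
      (by
        intro s hs
        refine (hB _ ?_).trans ((le_max_left B 1).trans (le_max_left _ _))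
        rw [Metric.mem_closedBall, dist_pi_le_iff (by positivity)]
        intro l
        by_cases h : l = l0
        · subst h
          rw [Function.update_self, Real.dist_eq, abs_le]
          constructor <;> linarith [hs.1, hs.2]
        · rw [Function.update_of_ne h, Real.dist_eq]
          have := hx l h
          linarith)
      (by constructor <;> linarith [(abs_le.mp htζ).1, (abs_le.mp htζ).2])
      (by constructor <;> linarith [(abs_le.mp htζ).1, (abs_le.mp htζ).2, (abs_le.mp ht').1,
            (abs_le.mp ht').2])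
    simp only [ht0', sub_zero, Real.norm_eq_abs] at hmvt
    exact hmvt

/-- the smallest integer `≥ A` congruent to `v` modulo `W` -/
noncomputable def base (W : ℕ) (v : ℤ) (A : ℝ) : ℤ := v + W * ⌈(A - v) / W⌉

theorem base_ge {W : ℕ} (hW : 1 ≤ W) (v : ℤ) (A : ℝ) : A ≤ (base W v A : ℝ) := by
  have hW' : (0 : ℝ) < W := by exact_mod_cast hW
  unfold base
  push_cast
  have := Int.le_ceil ((A - v) / W)
  rw [div_le_iff₀ hW'] at this
  linarith

theorem base_lt {W : ℕ} (hW : 1 ≤ W) (v : ℤ) (A : ℝ) : (base W v A : ℝ) < A + W := by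
  have hW' : (0 : ℝ) < W := by exact_mod_cast hW
  unfold base
  push_cast
  have h := Int.ceil_lt_add_one ((A - v) / W)
  have h2 : (⌈(A - v) / W⌉ : ℝ) - 1 < (A - v) / W := by linarith
  rw [lt_div_iff₀ hW'] at h2
  linarith

theorem base_dvd (W : ℕ) (v : ℤ) (A : ℝ) (m : ℤ) : (W : ℤ) ∣ base W v A + W * m - v := by
  refine ⟨⌈(A - v) / W⌉ + m, ?_⟩
  unfold base
  ring

/-- points of the progression stay in the interval `[A, A + 2 r]` -/
theorem base_in {W : ℕ} (hW : 1 ≤ W) (v : ℤ) (x r : ℝ) (m : ℕ) (hr : 0 ≤ r)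
    (hm : m < ⌊2 * r / W⌋₊) :
    |((base W v (x - r) + W * m : ℤ) : ℝ) - x| ≤ r := by
  have hW' : (0 : ℝ) < W := by exact_mod_cast hW
  have h1 := base_ge hW v (x - r)
  have h2 := base_lt hW v (x - r)
  have h3 : ((m + 1 : ℕ) : ℝ) ≤ 2 * r / W :=
    (Nat.le_floor_iff (by positivity)).mp hm
  rw [le_div_iff₀ hW'] at h3
  push_cast at h3 ⊢
  have h4 : (0 : ℝ) ≤ W * m := by positivity
  rw [abs_le]
  constructor <;> nlinarith

end REALx

open REALx in
theorem t_REAL : S_REAL := by
  intro ι _ _ G D hD hG a b hS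
  obtain ⟨ζ, hζ, h0, l0, hl0⟩ := hS
  have hopen : IsOpen {x : ι → ℝ | ∀ l, (a l : ℝ) < x l ∧ x l < b l} := by
    have : {x : ι → ℝ | ∀ l, (a l : ℝ) < x l ∧ x l < b l} =
        Set.pi Set.univ fun l => Set.Ioo (a l : ℝ) (b l) := by
      ext x; simp [Set.mem_pi]
    rw [this]
    exact isOpen_set_pi Set.finite_univ fun _ _ => isOpen_Ioo
  obtain ⟨δ, hδ, hball⟩ := Metric.isOpen_iff.mp hopen ζ hζ
  obtain ⟨ρ, τ, L, hρ, hρδ, hτ, hτδ, hL, hLτ, hloc⟩ := local_zero G ζ h0 l0 hl0 δ hδ
  choose! T hT using hloc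
  refine ⟨∏ l, (if l = l0 then 1 / L else ρ), Finset.prod_pos fun l _ => by
    split_ifs <;> positivity, ?_⟩
  intro W ε hW hε hε1
  have hW' : (0 : ℝ) < W := by exact_mod_cast hW
  set η : ℝ := ε / L with hη
  have hη0 : 0 < η := by positivity
  have hητ : η ≤ τ := (div_le_div_of_nonneg_right hε1 hL.le).trans hLτ
  obtain ⟨j0, hj0⟩ := pow_unbounded_of_one_lt ((W : ℝ) / η + W / ρ) (one_lt_two)
  refine ⟨j0, fun j hj v => ?_⟩
  have h2j : (0 : ℝ) < 2 ^ j := by positivity
  have hj1 : (W : ℝ) / η + W / ρ < 2 ^ j :=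
    hj0.trans_le (pow_le_pow_right₀ one_le_two hj)
  set r : ι → ℝ := fun l => if l = l0 then η else ρ with hr
  have hr0 : ∀ l, 0 < r l := fun l => by simp only [hr]; split_ifs <;> assumption
  have hrW : ∀ l, (W : ℝ) ≤ r l * 2 ^ j := by
    intro l
    have hη' : (0 : ℝ) < W / η := by positivity
    have hρ' : (0 : ℝ) < W / ρ := by positivity
    simp only [hr]
    split_ifs
    · have : (W : ℝ) / η ≤ 2 ^ j := by linarith
      rw [div_le_iff₀ hη0] at this
      linarith
    · have : (W : ℝ) / ρ ≤ 2 ^ j := by linarith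
      rw [div_le_iff₀ hρ] at this
      linarith
  set K : ι → ℕ := fun l => ⌊2 * (r l * 2 ^ j) / W⌋₊ with hK
  have hKge : ∀ l, r l * 2 ^ j / W ≤ K l := by
    intro l
    have h1 := Nat.sub_one_lt_floor (2 * (r l * 2 ^ j) / (W : ℝ))
    have h2 : (1 : ℝ) ≤ r l * 2 ^ j / W := by rw [one_le_div hW']; exact hrW l
    have h3 : 2 * (r l * 2 ^ j) / (W : ℝ) = 2 * (r l * 2 ^ j / W) := by ring
    simp only [hK]
    linarith
  set y : (ι → ℕ) → ι → ℤ := fun m l =>
    base W (v l) (ζ l * 2 ^ j - ρ * 2 ^ j) + W * (m l : ℤ) with hy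
  set X : (ι → ℕ) → ι → ℝ := fun m =>
    Function.update (fun l => (y m l : ℝ) / 2 ^ j) l0 (ζ l0) with hX
  set z0 : (ι → ℕ) → ℤ := fun m =>
    base W (v l0) (T (X m) * 2 ^ j - η * 2 ^ j) + W * (m l0 : ℤ) with hz0
  set Z : (ι → ℕ) → ι → ℤ := fun m => Function.update (y m) l0 (z0 m) with hZ
  have hcard : (Fintype.piFinset fun l => Finset.range (K l)).card ≤
      ((box a b j).filter fun z => (∀ l, (W : ℤ) ∣ z l - v l) ∧
        |((MvPolynomial.eval z G : ℤ) : ℝ)| ≤ ε * 2 ^ (D * j)).card := by
    refine Finset.card_le_card_of_injOn Z ?_ ?_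
    · intro m hm
      have hm' : ∀ l, m l < K l := fun l =>
        Finset.mem_range.mp (Fintype.mem_piFinset.mp (Finset.mem_coe.mp hm) l)
      have hy1 : ∀ l, l ≠ l0 → |(y m l : ℝ) - ζ l * 2 ^ j| ≤ ρ * 2 ^ j := by
        intro l hl
        have h1 := hm' l
        simp only [hK, hr, if_neg hl] at h1
        have h2 := base_in hW (v l) (ζ l * 2 ^ j) (ρ * 2 ^ j) (m l) (by positivity) h1
        simpa [hy] using h2
      have hX1 : ∀ l, l ≠ l0 → |X m l - ζ l| ≤ ρ := by
        intro l hl
        simp only [hX, Function.update_of_ne hl]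
        have h1 := hy1 l hl
        have h2 : (y m l : ℝ) / 2 ^ j - ζ l = ((y m l : ℝ) - ζ l * 2 ^ j) / 2 ^ j := by
          field_simp
        rw [h2, abs_div, abs_of_pos h2j, div_le_iff₀ h2j]
        exact h1
      obtain ⟨hT1, hT2⟩ := hT (X m) hX1
      have hz1 : |(z0 m : ℝ) - T (X m) * 2 ^ j| ≤ η * 2 ^ j := by
        have h1 := hm' l0
        simp only [hK, hr, if_true] at h1
        have h2 := base_in hW (v l0) (T (X m) * 2 ^ j) (η * 2 ^ j) (m l0) (by positivity) h1
        simpa [hz0] using h2
      have hz2 : |(z0 m : ℝ) / 2 ^ j - T (X m)| ≤ η := by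
        have h2 : (z0 m : ℝ) / 2 ^ j - T (X m) = ((z0 m : ℝ) - T (X m) * 2 ^ j) / 2 ^ j := by
          field_simp
        rw [h2, abs_div, abs_of_pos h2j, div_le_iff₀ h2j]
        exact hz1
      have hx : (fun l => (Z m l : ℝ) / 2 ^ j) =
          Function.update (X m) l0 ((z0 m : ℝ) / 2 ^ j) := by
        funext l
        by_cases hl : l = l0
        · subst hl
          simp only [hZ, Function.update_self]
        · simp only [hZ, hX, Function.update_of_ne hl]
      have hdist : dist (fun l => (Z m l : ℝ) / 2 ^ j) ζ < δ := by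
        rw [hx, dist_pi_lt_iff hδ]
        intro l
        by_cases hl : l = l0
        · subst hl
          rw [Function.update_self, Real.dist_eq]
          have h3 : (z0 m : ℝ) / 2 ^ j - ζ l = ((z0 m : ℝ) / 2 ^ j - T (X m)) +
              (T (X m) - ζ l) := by ring
          rw [h3]
          have := abs_add_le ((z0 m : ℝ) / 2 ^ j - T (X m)) (T (X m) - ζ l)
          linarith
        · rw [Function.update_of_ne hl, Real.dist_eq]
          exact (hX1 l hl).trans_lt hρδ
      have hin := hball (Metric.mem_ball.mpr hdist)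
      refine Finset.mem_coe.mpr (Finset.mem_filter.mpr ⟨?_, ?_, ?_⟩)
      · refine Fintype.mem_piFinset.mpr fun l => Finset.mem_Ico.mpr ?_
        obtain ⟨h1, h2⟩ := hin l
        rw [lt_div_iff₀ h2j] at h1
        rw [div_lt_iff₀ h2j] at h2
        exact ⟨le_of_lt (by exact_mod_cast h1), by exact_mod_cast h2⟩
      · intro l
        by_cases hl : l = l0
        · subst hl
          simp only [hZ, hz0, Function.update_self]
          exact base_dvd _ _ _ _
        · simp only [hZ, hy, Function.update_of_ne hl]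
          exact base_dvd _ _ _ _
      · rw [cast_eval]
        have h1 : (fun l => (Z m l : ℝ)) = fun l => 2 ^ j * ((fun l => (Z m l : ℝ) / 2 ^ j) l) := by
          funext l
          field_simp
        rw [h1, aeval_smul' G D hG, hx, abs_mul, abs_of_pos (by positivity), ← pow_mul,
          mul_comm j D, mul_comm ε]
        refine mul_le_mul_of_nonneg_left ?_ (by positivity)
        refine (hT2 _ (hz2.trans hητ)).trans ?_
        calc L * |(z0 m : ℝ) / 2 ^ j - T (X m)| ≤ L * η := mul_le_mul_of_nonneg_left hz2 hL.le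
          _ = ε := by rw [hη]; field_simp
    · intro m _ m' _ hmm
      have hWz : (W : ℤ) ≠ 0 := by positivity
      have h1 : ∀ l, l ≠ l0 → m l = m' l := by
        intro l hl
        have h2 := congrFun hmm l
        simp only [hZ, hy, Function.update_of_ne hl] at h2
        have h3 : (W : ℤ) * (m l : ℤ) = W * (m' l : ℤ) := by linarith
        exact_mod_cast mul_left_cancel₀ hWz h3
      have hXX : X m = X m' := by
        funext l
        by_cases hl : l = l0
        · subst hl; simp only [hX, Function.update_self]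
        · simp only [hX, Function.update_of_ne hl, hy, h1 l hl]
      funext l
      by_cases hl : l = l0
      · subst hl
        have h2 := congrFun hmm l
        simp only [hZ, hz0, Function.update_self, hXX] at h2
        have h3 : (W : ℤ) * (m l : ℤ) = W * (m' l : ℤ) := by linarith
        exact_mod_cast mul_left_cancel₀ hWz h3
      · exact h1 l hl
  rw [Fintype.card_piFinset] at hcard
  simp only [Finset.card_range] at hcard
  have hcard' : (∏ l, (K l : ℝ)) ≤
      (((box a b j).filter fun z => (∀ l, (W : ℤ) ∣ z l - v l) ∧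
        |((MvPolynomial.eval z G : ℤ) : ℝ)| ≤ ε * 2 ^ (D * j)).card : ℝ) := by
    exact_mod_cast hcard
  refine le_trans ?_ (mul_le_mul_of_nonneg_left hcard' (by positivity))
  have h1 : ∏ l, (r l * 2 ^ j / W) ≤ ∏ l, (K l : ℝ) :=
    Finset.prod_le_prod (fun l _ => by have := hr0 l; positivity) fun l _ => hKge l
  refine le_trans (le_of_eq ?_) (mul_le_mul_of_nonneg_left h1 (by positivity))
  have h2 : ∏ l, (r l * 2 ^ j / (W : ℝ)) =
      (∏ l, r l) * (2 ^ j) ^ Fintype.card ι / (W : ℝ) ^ Fintype.card ι := by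
    rw [Finset.prod_div_distrib, Finset.prod_mul_distrib, Finset.prod_const, Finset.prod_const,
      Finset.card_univ]
  have h3 : ∏ l, r l = (∏ l, (if l = l0 then 1 / L else ρ)) * ε := by
    have h4 : ∀ l, r l = (if l = l0 then 1 / L else ρ) * (if l = l0 then ε else 1) := by
      intro l
      simp only [hr]
      split_ifs
      · rw [hη]; ring
      · ring
    rw [Finset.prod_congr rfl fun l _ => h4 l, Finset.prod_mul_distrib,
      Finset.prod_ite_eq' Finset.univ l0 (fun _ => ε), if_pos (Finset.mem_univ _)]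
  rw [h2, h3, ← pow_mul, mul_comm j]
  field_simp

end Pool.Agent.helper132_hp
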