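import Pool.Agent.helper132_hp.Stmts

/-! Hasse principle for quadratic forms in k-th powers: Riemann lemma and change of scale. -/

namespace Pool.Agent.helper132_hp

open Finset

namespace RLx

theorem norm_e (x : ℝ) : ‖e x‖ = 1 := by
  unfold e
  exact Complex.norm_exp_ofReal_mul_I _

theorem e_add (x y : ℝ) : e (x + y) = e x * e y := by
  unfold e
  rw [← Complex.exp_add]
  congr 1
  push_cast
  ring

theorem e_int (n : ℤ) : e (n : ℝ) = 1 := by
  unfold e
  rw [← Complex.exp_int_mul_two_pi_mul_I n]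
  congr 1
  push_cast
  ring

theorem norm_e_sub (x y : ℝ) : ‖e x - e y‖ ≤ 2 * Real.pi * |x - y| := by
  have h1 : e x - e y = e y * (e (x - y) - 1) := by
    rw [mul_sub, ← e_add, mul_one]
    congr 2
    ring
  rw [h1, norm_mul, norm_e, one_mul]
  have h2 := @Real.norm_exp_I_mul_ofReal_sub_one_le (2 * Real.pi * (x - y))
  unfold e
  rw [mul_comm] at h2
  refine h2.trans ?_
  rw [Real.norm_eq_abs, abs_mul, abs_of_pos (by positivity : (0 : ℝ) < 2 * Real.pi)]

/-- Lipschitz bound of homogeneous type. -/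
def PP {ι : Type} (d : ℕ) (g : (ι → ℝ) → ℝ) : Prop :=
  ∀ (x y : ι → ℝ) (R δ : ℝ), 0 < R → 0 ≤ δ → (∀ l, |x l| ≤ R) → (∀ l, |y l| ≤ R) →
    (∀ l, |x l - y l| ≤ δ) → |g x| ≤ R ^ d ∧ |g y| ≤ R ^ d ∧ |g x - g y| * R ≤ d * R ^ d * δ

theorem PP_one {ι : Type} : PP (ι := ι) 0 (fun _ => 1) := by
  intro x y R δ hR hδ hx hy hxy
  simp

theorem PP_coord {ι : Type} (l : ι) : PP (ι := ι) 1 (fun x => x l) := by
  intro x y R δ hR hδ hx hy hxy
  refine ⟨by simpa using hx l, by simpa using hy l, ?_⟩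
  have := hxy l
  have h2 := mul_le_mul_of_nonneg_right this hR.le
  simp only [Nat.cast_one, one_mul, pow_one]
  linarith [mul_comm R δ]

theorem PP_mul {ι : Type} {c d : ℕ} {g h : (ι → ℝ) → ℝ} (hg : PP c g) (hh : PP d h) :
    PP (c + d) (fun x => g x * h x) := by
  intro x y R δ hR hδ hx hy hxy
  obtain ⟨g1, g2, g3⟩ := hg x y R δ hR hδ hx hy hxy
  obtain ⟨h1, h2, h3⟩ := hh x y R δ hR hδ hx hy hxy
  have hRc : 0 ≤ R ^ c := by positivity
  have hRd : 0 ≤ R ^ d := by positivity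
  refine ⟨?_, ?_, ?_⟩
  · rw [abs_mul, pow_add]
    exact mul_le_mul g1 h1 (abs_nonneg _) hRc
  · rw [abs_mul, pow_add]
    exact mul_le_mul g2 h2 (abs_nonneg _) hRc
  · have e1 : g x * h x - g y * h y = g x * (h x - h y) + (g x - g y) * h y := by ring
    have e2 : |g x * h x - g y * h y| ≤ |g x| * |h x - h y| + |g x - g y| * |h y| := by
      rw [e1, ← abs_mul, ← abs_mul]
      exact abs_add_le _ _
    have e3 : |g x| * (|h x - h y| * R) ≤ R ^ c * (d * R ^ d * δ) :=
      mul_le_mul g1 h3 (by positivity) hRc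
    have e4 : (|g x - g y| * R) * |h y| ≤ (c * R ^ c * δ) * R ^ d :=
      mul_le_mul g3 h2 (abs_nonneg _) (by positivity)
    have e5 := mul_le_mul_of_nonneg_right e2 hR.le
    push_cast
    rw [pow_add]
    linarith

theorem PP_pow {ι : Type} (l : ι) (n : ℕ) : PP (ι := ι) n (fun x => x l ^ n) := by
  induction n with
  | zero => simpa using (PP_one (ι := ι))
  | succ n ih =>
    have := PP_mul ih (PP_coord l)
    simpa [pow_succ] using this

theorem PP_prod {ι : Type} [DecidableEq ι] (s : Finset ι) (m : ι → ℕ) :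
    PP (ι := ι) (∑ l ∈ s, m l) (fun x => ∏ l ∈ s, x l ^ m l) := by
  induction s using Finset.induction_on with
  | empty => simpa using (PP_one (ι := ι))
  | insert a s ha ih =>
    have := PP_mul (PP_pow a (m a)) ih
    simpa [Finset.sum_insert ha, Finset.prod_insert ha] using this

section
variable {ι : Type} [Fintype ι] [DecidableEq ι]

theorem deg_of_mem {G : MvPolynomial ι ℤ} {D : ℕ} (hG : G.IsHomogeneous D) {m : ι →₀ ℕ}
    (hm : m ∈ G.support) : ∑ l, m l = D := by
  have h1 := hG (MvPolynomial.mem_support_iff.mp hm)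
  rw [← Finsupp.degree_eq_sum, ← h1]
  exact congrFun (congrArg _ Finsupp.degree_eq_weight_one) m

theorem eval_cast (G : MvPolynomial ι ℤ) (z : ι → ℤ) :
    ((MvPolynomial.eval z G : ℤ) : ℝ) =
      ∑ m ∈ G.support, ((MvPolynomial.coeff m G : ℤ) : ℝ) * ∏ l, (z l : ℝ) ^ m l := by
  rw [MvPolynomial.eval_eq']
  push_cast
  rfl

/-- Lipschitz bound for a homogeneous polynomial. -/
theorem lip {G : MvPolynomial ι ℤ} {D : ℕ} (hG : G.IsHomogeneous D) :
    ∃ K : ℝ, 0 ≤ K ∧ ∀ (x y : ι → ℤ) (R δ : ℝ), 0 < R → 0 ≤ δ → (∀ l, |(x l : ℝ)| ≤ R) →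
      (∀ l, |(y l : ℝ)| ≤ R) → (∀ l, |(x l : ℝ) - y l| ≤ δ) →
      |((MvPolynomial.eval x G : ℤ) : ℝ) - ((MvPolynomial.eval y G : ℤ) : ℝ)| * R ≤
        K * R ^ D * δ := by
  refine ⟨∑ m ∈ G.support, |((MvPolynomial.coeff m G : ℤ) : ℝ)| * D, by positivity, ?_⟩
  intro x y R δ hR hδ hx hy hxy
  rw [eval_cast, eval_cast, ← Finset.sum_sub_distrib]
  have h1 : |∑ m ∈ G.support, (((MvPolynomial.coeff m G : ℤ) : ℝ) * ∏ l, (x l : ℝ) ^ m l -
      ((MvPolynomial.coeff m G : ℤ) : ℝ) * ∏ l, (y l : ℝ) ^ m l)| ≤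
      ∑ m ∈ G.support, |((MvPolynomial.coeff m G : ℤ) : ℝ)| *
        |∏ l, (x l : ℝ) ^ m l - ∏ l, (y l : ℝ) ^ m l| := by
    refine (Finset.abs_sum_le_sum_abs _ _).trans (le_of_eq ?_)
    refine Finset.sum_congr rfl fun m _ => ?_
    rw [← abs_mul, mul_sub]
  refine (mul_le_mul_of_nonneg_right h1 hR.le).trans ?_
  rw [Finset.sum_mul, Finset.sum_mul, Finset.sum_mul]
  refine Finset.sum_le_sum fun m hm => ?_
  have h2 := PP_prod (ι := ι) Finset.univ m
  obtain ⟨_, _, h3⟩ := h2 (fun l => (x l : ℝ)) (fun l => (y l : ℝ)) R δ hR hδ hx hy hxy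
  rw [deg_of_mem hG hm] at h3
  simp only at h3
  calc _ = |((MvPolynomial.coeff m G : ℤ) : ℝ)| *
        (|∏ l, (x l : ℝ) ^ m l - ∏ l, (y l : ℝ) ^ m l| * R) := by ring
    _ ≤ |((MvPolynomial.coeff m G : ℤ) : ℝ)| * (D * R ^ D * δ) :=
        mul_le_mul_of_nonneg_left h3 (abs_nonneg _)
    _ = _ := by ring

/-- scaling. -/
theorem eval_scale {G : MvPolynomial ι ℤ} {D : ℕ} (hG : G.IsHomogeneous D) (t : ℕ) (z : ι → ℤ) :
    ((MvPolynomial.eval (fun l => 2 ^ t * z l) G : ℤ) : ℝ) =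
      2 ^ (D * t) * ((MvPolynomial.eval z G : ℤ) : ℝ) := by
  rw [eval_cast, eval_cast, Finset.mul_sum]
  refine Finset.sum_congr rfl fun m hm => ?_
  push_cast
  simp only [mul_pow]
  rw [Finset.prod_mul_distrib, Finset.prod_pow_eq_pow_sum, deg_of_mem hG hm, ← pow_mul,
    mul_comm t D]
  ring

/-! boxes -/

theorem mem_box {a b : ι → ℤ} {j : ℕ} {z : ι → ℤ} :
    z ∈ box a b j ↔ ∀ l, a l * 2 ^ j ≤ z l ∧ z l < b l * 2 ^ j := by
  simp [box, Fintype.mem_piFinset]

theorem mem_res {q : ℕ} {z : ι → ℤ} : z ∈ res ι q ↔ ∀ l, 0 ≤ z l ∧ z l < q := by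
  simp [res, Fintype.mem_piFinset]

/-- the volume of the unit box. -/
noncomputable def V (a b : ι → ℤ) : ℝ := ∏ l, ((b l - a l : ℤ) : ℝ)

theorem V_pos {a b : ι → ℤ} (hab : ∀ l, a l < b l) : 0 < V a b := by
  unfold V
  refine Finset.prod_pos fun l _ => ?_
  have := hab l
  exact_mod_cast (by omega : 0 < b l - a l)

theorem card_box {a b : ι → ℤ} (hab : ∀ l, a l < b l) (j : ℕ) :
    ((box a b j).card : ℝ) = V a b * 2 ^ (Fintype.card ι * j) := by
  unfold box V
  rw [Fintype.card_piFinset]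
  have h1 : ∀ l, ((Ico (a l * 2 ^ j) (b l * 2 ^ j)).card : ℝ) =
      ((b l - a l : ℤ) : ℝ) * 2 ^ j := by
    intro l
    have h2 : a l * 2 ^ j ≤ b l * 2 ^ j :=
      mul_le_mul_of_nonneg_right (hab l).le (by positivity)
    have h3 : (((b l * 2 ^ j - a l * 2 ^ j).toNat : ℕ) : ℤ) = (b l - a l) * 2 ^ j := by
      rw [Int.toNat_of_nonneg (by omega)]
      ring
    rw [Int.card_Ico]
    have h4 : ((((b l * 2 ^ j - a l * 2 ^ j).toNat : ℕ) : ℤ) : ℝ) =
        (((b l - a l) * 2 ^ j : ℤ) : ℝ) := by rw [h3]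
    push_cast at h4 ⊢
    exact h4
  push_cast
  rw [Finset.prod_congr rfl fun l _ => h1 l, Finset.prod_mul_distrib, Finset.prod_const,
    Finset.card_univ, ← pow_mul, mul_comm j]
  push_cast
  rfl

theorem card_res (q : ℕ) : ((res ι q).card : ℝ) = (q : ℝ) ^ Fintype.card ι := by
  unfold res
  rw [Fintype.card_piFinset]
  simp

theorem box_abs (a b : ι → ℤ) : ∃ M : ℝ, 1 ≤ M ∧ ∀ (j : ℕ) (z : ι → ℤ), z ∈ box a b j →
    ∀ l, |(z l : ℝ)| ≤ M * 2 ^ j := by
  refine ⟨1 + ∑ l, (|(a l : ℝ)| + |(b l : ℝ)|), ?_, ?_⟩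
  · have : (0 : ℝ) ≤ ∑ l, (|(a l : ℝ)| + |(b l : ℝ)|) := by positivity
    linarith
  · intro j z hz l
    obtain ⟨h1, h2⟩ := mem_box.mp hz l
    have h1' : (a l : ℝ) * 2 ^ j ≤ z l := by exact_mod_cast h1
    have h2' : (z l : ℝ) < b l * 2 ^ j := by exact_mod_cast h2
    have h3 : |(a l : ℝ)| + |(b l : ℝ)| ≤ ∑ l, (|(a l : ℝ)| + |(b l : ℝ)|) :=
      Finset.single_le_sum (f := fun l => |(a l : ℝ)| + |(b l : ℝ)|)
        (fun i _ => by positivity) (Finset.mem_univ l)
    have h4 : (0 : ℝ) < 2 ^ j := by positivity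
    have h5 := neg_abs_le (a l : ℝ)
    have h6 := le_abs_self (b l : ℝ)
    have h7 := abs_nonneg (a l : ℝ)
    have h8 := abs_nonneg (b l : ℝ)
    rw [abs_le]
    constructor
    · nlinarith
    · nlinarith

theorem norm_sum_box_le {a b : ι → ℤ} (hab : ∀ l, a l < b l) (j : ℕ) (F : (ι → ℤ) → ℂ) (T : ℝ)
    (hF : ∀ z ∈ box a b j, ‖F z‖ ≤ T) :
    ‖∑ z ∈ box a b j, F z‖ ≤ V a b * 2 ^ (Fintype.card ι * j) * T := by
  refine (norm_sum_le _ _).trans ((Finset.sum_le_sum hF).trans ?_)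
  rw [Finset.sum_const, nsmul_eq_mul, card_box hab]

theorem norm_Sj_le (G : MvPolynomial ι ℤ) {a b : ι → ℤ} (hab : ∀ l, a l < b l) (j : ℕ) (α : ℝ) :
    ‖Sj G a b j α‖ ≤ V a b * 2 ^ (Fintype.card ι * j) := by
  have := norm_sum_box_le hab j (fun z => e (α * ((MvPolynomial.eval z G : ℤ) : ℝ))) 1
    (fun z _ => (norm_e _).le)
  rw [mul_one] at this
  exact this

theorem norm_Cq_le (G : MvPolynomial ι ℤ) (q : ℕ) (c : ℤ) :
    ‖Cq G q c‖ ≤ (q : ℝ) ^ Fintype.card ι := by
  unfold Cq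
  refine (norm_sum_le _ _).trans ?_
  rw [Finset.sum_congr rfl fun z _ => norm_e _, Finset.sum_const, nsmul_eq_mul, card_res, mul_one]

/-- the shift estimate. -/
theorem shift {a b : ι → ℤ} (hab : ∀ l, a l < b l) (j q : ℕ) (w : ι → ℤ) (hw : w ∈ res ι q)
    (F : (ι → ℤ) → ℂ) (hF : ∀ z, ‖F z‖ ≤ 1) :
    ‖∑ z ∈ box a b j, F z - ∑ z ∈ box a b j, F (fun l => z l + w l)‖ * 2 ^ j ≤
      2 * Fintype.card ι * q * (V a b * 2 ^ (Fintype.card ι * j)) := by
  set B := box a b j with hB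
  have hinj : Function.Injective (fun z : ι → ℤ => (fun l => z l + w l)) := by
    intro x y hxy
    funext l
    have := congrFun hxy l
    simp only at this
    omega
  set B' := B.map ⟨_, hinj⟩ with hB'
  have hs : ∑ z ∈ B, F (fun l => z l + w l) = ∑ z ∈ B', F z := by
    rw [hB', Finset.sum_map]
    rfl
  have hcard : (B \ B').card = (B' \ B).card := by
    apply Finset.card_sdiff_comm
    rw [hB', Finset.card_map]
  have hmem' : ∀ z, z ∈ B' → ∀ l, a l * 2 ^ j + w l ≤ z l ∧ z l < b l * 2 ^ j + w l := by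
    intro z hz l
    rw [hB', Finset.mem_map] at hz
    obtain ⟨x, hx, rfl⟩ := hz
    have := mem_box.mp hx l
    simp only [Function.Embedding.coeFn_mk]
    omega
  have hw' := mem_res.mp hw
  -- the slabs
  let g : ι → ι → Finset ℤ := fun l l' => if l' = l then Ico (b l * 2 ^ j) (b l * 2 ^ j + q)
    else Ico (a l' * 2 ^ j + w l') (b l' * 2 ^ j + w l')
  have hsub : B' \ B ⊆ Finset.univ.biUnion fun l => Fintype.piFinset (g l) := by
    intro z hz
    rw [Finset.mem_sdiff] at hz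
    obtain ⟨hz1, hz2⟩ := hz
    have h1 := hmem' z hz1
    rw [hB, mem_box] at hz2
    push Not at hz2
    obtain ⟨l, hl⟩ := hz2
    have h2 := h1 l
    have h3 := hw' l
    have h4 := hl (by omega)
    simp only [Finset.mem_biUnion, Finset.mem_univ, true_and]
    refine ⟨l, ?_⟩
    rw [Fintype.mem_piFinset]
    intro l'
    simp only [g]
    split_ifs with hll
    · subst hll
      rw [Finset.mem_Ico]
      omega
    · rw [Finset.mem_Ico]
      exact h1 l'
  have hslab : ∀ l, ((Fintype.piFinset (g l)).card : ℝ) * 2 ^ j ≤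
      q * (V a b * 2 ^ (Fintype.card ι * j)) := by
    intro l
    rw [← card_box hab j, box, Fintype.card_piFinset, Fintype.card_piFinset,
      ← Finset.mul_prod_erase Finset.univ _ (Finset.mem_univ l),
      ← Finset.mul_prod_erase Finset.univ (fun l => (Ico (a l * 2 ^ j) (b l * 2 ^ j)).card)
        (Finset.mem_univ l)]
    have h1 : (g l l).card = q := by simp [g]
    have h2 : ∏ x ∈ Finset.univ.erase l, (g l x).card =
        ∏ x ∈ Finset.univ.erase l, (Ico (a x * 2 ^ j) (b x * 2 ^ j)).card := by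
      refine Finset.prod_congr rfl fun x hx => ?_
      have hx' : x ≠ l := Finset.ne_of_mem_erase hx
      simp only [g, if_neg hx', Int.card_Ico]
      congr 1
      ring
    have h3 : 2 ^ j ≤ (Ico (a l * 2 ^ j) (b l * 2 ^ j)).card := by
      rw [Int.card_Ico]
      have h5 : (2 : ℤ) ^ j ≤ b l * 2 ^ j - a l * 2 ^ j := by
        have h6 : (1 : ℤ) ≤ b l - a l := by have := hab l; omega
        have h7 : (0 : ℤ) < 2 ^ j := by positivity
        nlinarith
      zify
      rw [Int.toNat_of_nonneg (by have h7 : (0 : ℤ) < 2 ^ j := by positivity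
                                  omega)]
      exact h5
    rw [h1, h2]
    have h4 : q * (∏ x ∈ Finset.univ.erase l, (Ico (a x * 2 ^ j) (b x * 2 ^ j)).card) * 2 ^ j ≤
        q * ((Ico (a l * 2 ^ j) (b l * 2 ^ j)).card *
          ∏ x ∈ Finset.univ.erase l, (Ico (a x * 2 ^ j) (b x * 2 ^ j)).card) := by
      rw [mul_assoc]
      refine Nat.mul_le_mul_left _ ?_
      rw [mul_comm]
      exact Nat.mul_le_mul_right _ h3
    exact_mod_cast h4
  have hc : ((B' \ B).card : ℝ) * 2 ^ j ≤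
      Fintype.card ι * q * (V a b * 2 ^ (Fintype.card ι * j)) := by
    have h1 : ((B' \ B).card : ℝ) ≤ ∑ l, ((Fintype.piFinset (g l)).card : ℝ) := by
      have h2 := (Finset.card_le_card hsub).trans Finset.card_biUnion_le
      exact_mod_cast h2
    have h3 := mul_le_mul_of_nonneg_right h1 (by positivity : (0 : ℝ) ≤ 2 ^ j)
    refine h3.trans ?_
    rw [Finset.sum_mul]
    refine (Finset.sum_le_sum fun l _ => hslab l).trans ?_
    rw [Finset.sum_const, Finset.card_univ, nsmul_eq_mul]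
    apply le_of_eq
    ring
  have hn : ‖∑ z ∈ B, F z - ∑ z ∈ B, F (fun l => z l + w l)‖ ≤
      ((B' \ B).card : ℝ) + (B' \ B).card := by
    rw [hs, ← Finset.sum_sdiff_sub_sum_sdiff]
    refine (norm_sub_le _ _).trans ?_
    refine add_le_add ?_ ?_
    · rw [← hcard]
      refine (norm_sum_le _ _).trans ((Finset.sum_le_sum fun z _ => hF z).trans ?_)
      simp
    · refine (norm_sum_le _ _).trans ((Finset.sum_le_sum fun z _ => hF z).trans ?_)
      simp
  have := mul_le_mul_of_nonneg_right hn (by positivity : (0 : ℝ) ≤ 2 ^ j)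
  refine this.trans ?_
  linarith

/-- congruent points have congruent values. -/
theorem eval_congr (G : MvPolynomial ι ℤ) (q : ℤ) (x y : ι → ℤ) (h : ∀ l, x l ≡ y l [ZMOD q]) :
    MvPolynomial.eval x G ≡ MvPolynomial.eval y G [ZMOD q] := by
  induction G using MvPolynomial.induction_on with
  | C a => simp
  | add p r hp hr => simpa using hp.add hr
  | mul_X p l hp => simpa using hp.mul (h l)

theorem e_congr (q : ℕ) (hq : 0 < q) (c : ℤ) (x y : ℤ) (h : x ≡ y [ZMOD q]) :
    e ((c : ℝ) / q * (x : ℝ)) = e ((c : ℝ) / q * (y : ℝ)) := by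
  obtain ⟨t, ht⟩ := h.dvd
  have h1 : (y : ℝ) = x + q * t := by
    have : y = x + q * t := by linarith
    exact_mod_cast this
  have hq' : (q : ℝ) ≠ 0 := by positivity
  have h2 : (c : ℝ) / q * (y : ℝ) = (c : ℝ) / q * (x : ℝ) + ((c * t : ℤ) : ℝ) := by
    rw [h1]
    push_cast
    field_simp
  rw [h2, e_add, e_int, mul_one]

/-- the sum over a complete set of residues. -/
theorem sum_res_shift (G : MvPolynomial ι ℤ) (q : ℕ) (hq : 0 < q) (c : ℤ) (z : ι → ℤ) :
    ∑ w ∈ res ι q, e ((c : ℝ) / q * ((MvPolynomial.eval (fun l => z l + w l) G : ℤ) : ℝ)) =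
      Cq G q c := by
  unfold Cq
  have hq' : (0 : ℤ) < q := by exact_mod_cast hq
  refine Finset.sum_nbij' (fun w l => (z l + w l) % q) (fun v l => (v l - z l) % q) ?_ ?_ ?_ ?_ ?_
  · intro w _
    rw [mem_res]
    exact fun l => ⟨Int.emod_nonneg _ hq'.ne', Int.emod_lt_of_pos _ hq'⟩
  · intro w _
    rw [mem_res]
    exact fun l => ⟨Int.emod_nonneg _ hq'.ne', Int.emod_lt_of_pos _ hq'⟩
  · intro w hw
    funext l
    have := mem_res.mp hw l
    show ((z l + w l) % q - z l) % q = w l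
    rw [Int.emod_sub_emod, add_sub_cancel_left, Int.emod_eq_of_lt this.1 this.2]
  · intro w hw
    funext l
    have := mem_res.mp hw l
    show (z l + (w l - z l) % q) % q = w l
    rw [Int.add_emod_emod, add_sub_cancel, Int.emod_eq_of_lt this.1 this.2]
  · intro w hw
    apply e_congr q hq
    apply eval_congr
    intro l
    exact (Int.mod_modEq _ _).symm

/-- Lipschitz bound in boxes. -/
theorem lip2 {G : MvPolynomial ι ℤ} {D : ℕ} (hG : G.IsHomogeneous D) (M : ℝ) (hM : 1 ≤ M) :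
    ∃ K : ℝ, 0 ≤ K ∧ ∀ (j : ℕ) (x y : ι → ℤ) (δ : ℝ), 0 ≤ δ →
      (∀ l, |(x l : ℝ)| ≤ M * 2 ^ j) → (∀ l, |(y l : ℝ)| ≤ M * 2 ^ j) →
      (∀ l, |(x l : ℝ) - y l| ≤ δ) →
      |((MvPolynomial.eval x G : ℤ) : ℝ) - ((MvPolynomial.eval y G : ℤ) : ℝ)| * 2 ^ j ≤
        K * 2 ^ (D * j) * δ := by
  obtain ⟨K, hK, h⟩ := lip hG
  refine ⟨K * M ^ D, by positivity, ?_⟩
  intro j x y δ hδ hx hy hxy
  have h1 := h x y (M * 2 ^ j) δ (by positivity) hδ hx hy hxy
  have h2 : |((MvPolynomial.eval x G : ℤ) : ℝ) - ((MvPolynomial.eval y G : ℤ) : ℝ)| * 2 ^ j ≤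
      |((MvPolynomial.eval x G : ℤ) : ℝ) - ((MvPolynomial.eval y G : ℤ) : ℝ)| * (M * 2 ^ j) := by
    apply mul_le_mul_of_nonneg_left _ (abs_nonneg _)
    have : (0 : ℝ) < 2 ^ j := by positivity
    nlinarith
  refine h2.trans (h1.trans (le_of_eq ?_))
  rw [mul_pow, ← pow_mul, mul_comm j D]
  ring

end

end RLx

open RLx in
theorem t_RL : S_RL := by
  intro ι _ _ G D hD hG a b hab
  obtain ⟨M, hM, hMb⟩ := box_abs a b
  obtain ⟨K, hK, hL⟩ := lip2 hG (M + 1) (by linarith)
  have hV := V_pos hab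
  have hpi := Real.pi_pos
  refine ⟨V a b * (2 + 2 * Fintype.card ι + 2 * Real.pi * K), ?_⟩
  intro j q c β hq
  set n := Fintype.card ι with hn
  have hq0 : (0 : ℝ) < q := by exact_mod_cast hq
  have h2j : (0 : ℝ) < 2 ^ j := by positivity
  have hY : 0 ≤ |β| * 2 ^ (D * j) := by positivity
  have hCq : ‖Cq G q c / (q : ℂ) ^ n‖ ≤ 1 := by
    rw [norm_div, norm_pow, Complex.norm_natCast]
    exact div_le_one_of_le₀ (norm_Cq_le G q c) (by positivity)
  by_cases hqj : (2 : ℝ) ^ j < q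
  · -- trivial range
    have h1 : ‖Sj G a b j ((c : ℝ) / q + β) - Cq G q c / (q : ℂ) ^ n * Sj G a b j β‖ ≤
        2 * (V a b * 2 ^ (n * j)) := by
      refine (norm_sub_le _ _).trans ?_
      rw [norm_mul]
      have e1 := norm_Sj_le G hab j ((c : ℝ) / q + β)
      have e2 := norm_Sj_le G hab j β
      have e3 : ‖Cq G q c / (q : ℂ) ^ n‖ * ‖Sj G a b j β‖ ≤ 1 * (V a b * 2 ^ (n * j)) :=
        mul_le_mul hCq e2 (norm_nonneg _) zero_le_one
      linarith
    refine h1.trans ?_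
    have h2 : 1 ≤ (q : ℝ) * (1 + |β| * 2 ^ (D * j)) / 2 ^ j := by
      rw [le_div_iff₀ h2j]
      nlinarith
    have h3 : (0 : ℝ) < 2 ^ (n * j) := by positivity
    have h4 : 2 * (V a b * 2 ^ (n * j)) ≤
        V a b * (2 + 2 * (n : ℝ) + 2 * Real.pi * K) * 2 ^ (n * j) := by
      have : 0 ≤ V a b * (2 * (n : ℝ) + 2 * Real.pi * K) * 2 ^ (n * j) := by positivity
      linarith
    have h5 : V a b * (2 + 2 * (n : ℝ) + 2 * Real.pi * K) * 2 ^ (n * j) * 1 ≤
        V a b * (2 + 2 * (n : ℝ) + 2 * Real.pi * K) * 2 ^ (n * j) *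
          ((q : ℝ) * (1 + |β| * 2 ^ (D * j)) / 2 ^ j) :=
      mul_le_mul_of_nonneg_left h2 (by positivity)
    linarith
  · push Not at hqj
    -- the identity
    let F : (ι → ℤ) → ℂ := fun z => e (((c : ℝ) / q + β) * ((MvPolynomial.eval z G : ℤ) : ℝ))
    let E : (ι → ℤ) → ℂ := fun z => e (β * ((MvPolynomial.eval z G : ℤ) : ℝ))
    have hF : ∀ z, F z = e ((c : ℝ) / q * ((MvPolynomial.eval z G : ℤ) : ℝ)) * E z := by
      intro z
      simp only [F, E]
      rw [← e_add, add_mul]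
    have hCS : Cq G q c * Sj G a b j β = ∑ w ∈ res ι q, ∑ z ∈ box a b j,
        e ((c : ℝ) / q * ((MvPolynomial.eval (fun l => z l + w l) G : ℤ) : ℝ)) * E z := by
      rw [Finset.sum_comm]
      unfold Sj
      rw [Finset.mul_sum]
      refine Finset.sum_congr rfl fun z _ => ?_
      rw [← Finset.sum_mul, sum_res_shift G q hq c z]
    have hid : (q : ℂ) ^ n * Sj G a b j ((c : ℝ) / q + β) - Cq G q c * Sj G a b j β =
        ∑ w ∈ res ι q, ((∑ z ∈ box a b j, F z - ∑ z ∈ box a b j, F (fun l => z l + w l)) +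
          ∑ z ∈ box a b j, e ((c : ℝ) / q *
            ((MvPolynomial.eval (fun l => z l + w l) G : ℤ) : ℝ)) *
              (E (fun l => z l + w l) - E z)) := by
      rw [hCS]
      have hcr : ((res ι q).card : ℂ) = (q : ℂ) ^ n := by
        have := card_res (ι := ι) q
        exact_mod_cast this
      have h1 : (q : ℂ) ^ n * Sj G a b j ((c : ℝ) / q + β) =
          ∑ w ∈ res ι q, ∑ z ∈ box a b j, F z := by
        rw [Finset.sum_const, nsmul_eq_mul, hcr]
        rfl
      rw [h1, ← Finset.sum_sub_distrib]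
      refine Finset.sum_congr rfl fun w _ => ?_
      have h2 : ∑ z ∈ box a b j, F (fun l => z l + w l) = ∑ z ∈ box a b j,
          e ((c : ℝ) / q * ((MvPolynomial.eval (fun l => z l + w l) G : ℤ) : ℝ)) *
            E (fun l => z l + w l) := Finset.sum_congr rfl fun z _ => hF _
      simp only [mul_sub]
      rw [h2, Finset.sum_sub_distrib]
      ring
    have hterm : ∀ w ∈ res ι q,
        ‖(∑ z ∈ box a b j, F z - ∑ z ∈ box a b j, F (fun l => z l + w l)) +
          ∑ z ∈ box a b j, e ((c : ℝ) / q *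
            ((MvPolynomial.eval (fun l => z l + w l) G : ℤ) : ℝ)) *
              (E (fun l => z l + w l) - E z)‖ ≤
          V a b * (2 + 2 * (n : ℝ) + 2 * Real.pi * K) * 2 ^ (n * j) *
            (q * (1 + |β| * 2 ^ (D * j)) / 2 ^ j) := by
      intro w hw
      have s1 := shift hab j q w hw F (fun z => (norm_e _).le)
      have s1' : ‖∑ z ∈ box a b j, F z - ∑ z ∈ box a b j, F (fun l => z l + w l)‖ ≤
          2 * n * q * (V a b * 2 ^ (n * j)) / 2 ^ j := by
        rw [le_div_iff₀ h2j]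
        exact s1
      have s2 : ‖∑ z ∈ box a b j, e ((c : ℝ) / q *
            ((MvPolynomial.eval (fun l => z l + w l) G : ℤ) : ℝ)) *
              (E (fun l => z l + w l) - E z)‖ ≤ V a b * 2 ^ (n * j) *
                (2 * Real.pi * (|β| * (K * 2 ^ (D * j) * q / 2 ^ j))) := by
        apply norm_sum_box_le hab
        intro z hz
        rw [norm_mul, norm_e, one_mul]
        refine (norm_e_sub _ _).trans ?_
        refine mul_le_mul_of_nonneg_left ?_ (by positivity)
        rw [← mul_sub, abs_mul]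
        refine mul_le_mul_of_nonneg_left ?_ (abs_nonneg _)
        rw [le_div_iff₀ h2j]
        have hzb := hMb j z hz
        have hwr := mem_res.mp hw
        have hwr' : ∀ l, (0 : ℝ) ≤ w l ∧ (w l : ℝ) ≤ q := by
          intro l
          obtain ⟨u1, u2⟩ := hwr l
          exact ⟨by exact_mod_cast u1, by exact_mod_cast u2.le⟩
        refine hL j _ _ (q : ℝ) hq0.le ?_ ?_ ?_
        · intro l
          push_cast
          refine (abs_add_le _ _).trans ?_
          rw [abs_of_nonneg (hwr' l).1]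
          linarith [hzb l, (hwr' l).2]
        · intro l
          linarith [hzb l]
        · intro l
          push_cast
          rw [add_sub_cancel_left, abs_of_nonneg (hwr' l).1]
          exact (hwr' l).2
      refine (norm_add_le _ _).trans ((add_le_add s1' s2).trans ?_)
      have h3 : 2 * (n : ℝ) * q * (V a b * 2 ^ (n * j)) / 2 ^ j +
          V a b * 2 ^ (n * j) * (2 * Real.pi * (|β| * (K * 2 ^ (D * j) * q / 2 ^ j))) =
          V a b * 2 ^ (n * j) * (q / 2 ^ j) *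
            (2 * (n : ℝ) + 2 * Real.pi * K * (|β| * 2 ^ (D * j))) := by
        field_simp
      have h4 : V a b * (2 + 2 * (n : ℝ) + 2 * Real.pi * K) * 2 ^ (n * j) *
            (q * (1 + |β| * 2 ^ (D * j)) / 2 ^ j) = V a b * 2 ^ (n * j) * (q / 2 ^ j) *
            ((2 + 2 * (n : ℝ) + 2 * Real.pi * K) * (1 + |β| * 2 ^ (D * j))) := by
        field_simp
      rw [h3, h4]
      refine mul_le_mul_of_nonneg_left ?_ (by positivity)
      have h5 : 0 ≤ 2 + (2 * (n : ℝ) + 2) * (|β| * 2 ^ (D * j)) + 2 * Real.pi * K := by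
        positivity
      nlinarith
    have hsum := (norm_sum_le _ _).trans (Finset.sum_le_sum hterm)
    rw [← hid, Finset.sum_const, nsmul_eq_mul, card_res] at hsum
    have hqn : (0 : ℝ) < (q : ℝ) ^ n := by positivity
    have hqc : (q : ℂ) ^ n ≠ 0 := by
      have : (q : ℂ) ≠ 0 := by exact_mod_cast hq.ne'
      positivity
    have hfin : (q : ℂ) ^ n * (Sj G a b j ((c : ℝ) / q + β) -
        Cq G q c / (q : ℂ) ^ n * Sj G a b j β) =
        (q : ℂ) ^ n * Sj G a b j ((c : ℝ) / q + β) - Cq G q c * Sj G a b j β := by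
      field_simp
    rw [← hfin, norm_mul, norm_pow, Complex.norm_natCast] at hsum
    exact le_of_mul_le_mul_left hsum hqn

open RLx in
theorem t_SC : S_SC := by
  intro ι _ _ G D hD hG a b hab
  obtain ⟨M, hM, hMb⟩ := box_abs a b
  obtain ⟨K, hK, hL⟩ := lip2 hG (M + 1) (by linarith)
  have hV := V_pos hab
  have hpi := Real.pi_pos
  refine ⟨V a b * (2 * Real.pi * K), ?_⟩
  intro i t β
  set n := Fintype.card ι with hn
  have hcast : ((2 ^ t : ℕ) : ℤ) = 2 ^ t := by push_cast; rfl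
  have h2t : (0 : ℤ) < 2 ^ t := by positivity
  have hbij : Sj G a b (i + t) β = ∑ z ∈ box a b i, ∑ w ∈ res ι (2 ^ t),
      e (β * ((MvPolynomial.eval (fun l => 2 ^ t * z l + w l) G : ℤ) : ℝ)) := by
    unfold Sj
    rw [← Finset.sum_product']
    symm
    refine Finset.sum_nbij' (fun zw l => 2 ^ t * zw.1 l + zw.2 l)
      (fun z => (fun l => z l / 2 ^ t, fun l => z l % 2 ^ t)) ?_ ?_ ?_ ?_ ?_
    · intro zw hzw
      rw [Finset.mem_product] at hzw
      rw [mem_box]
      intro l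
      obtain ⟨h1, h2⟩ := mem_box.mp hzw.1 l
      obtain ⟨h3, h4⟩ := mem_res.mp hzw.2 l
      rw [hcast] at h4
      show a l * 2 ^ (i + t) ≤ 2 ^ t * zw.1 l + zw.2 l ∧
        2 ^ t * zw.1 l + zw.2 l < b l * 2 ^ (i + t)
      rw [pow_add]
      constructor
      · nlinarith
      · have h5 : zw.1 l + 1 ≤ b l * 2 ^ i := h2
        nlinarith
    · intro z hz
      rw [Finset.mem_product, mem_box, mem_res, hcast]
      constructor
      · intro l
        obtain ⟨h1, h2⟩ := mem_box.mp hz l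
        rw [pow_add, ← mul_assoc] at h1 h2
        exact ⟨(Int.le_ediv_iff_mul_le h2t).mpr h1, Int.ediv_lt_of_lt_mul h2t h2⟩
      · intro l
        exact ⟨Int.emod_nonneg _ h2t.ne', Int.emod_lt_of_pos _ h2t⟩
    · intro zw hzw
      rw [Finset.mem_product] at hzw
      refine Prod.ext ?_ ?_
      · funext l
        obtain ⟨h3, h4⟩ := mem_res.mp hzw.2 l
        rw [hcast] at h4
        show (2 ^ t * zw.1 l + zw.2 l) / 2 ^ t = zw.1 l
        rw [add_comm, Int.add_mul_ediv_left _ _ h2t.ne', Int.ediv_eq_zero_of_lt h3 h4, zero_add]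
      · funext l
        obtain ⟨h3, h4⟩ := mem_res.mp hzw.2 l
        rw [hcast] at h4
        show (2 ^ t * zw.1 l + zw.2 l) % 2 ^ t = zw.2 l
        rw [add_comm, Int.add_mul_emod_self_left, Int.emod_eq_of_lt h3 h4]
    · intro z hz
      funext l
      show 2 ^ t * (z l / 2 ^ t) + z l % 2 ^ t = z l
      exact Int.mul_ediv_add_emod _ _
    · intro zw hzw
      rfl
  have hS2 : (2 : ℂ) ^ (n * t) * Sj G a b i (β * 2 ^ (D * t)) = ∑ z ∈ box a b i,
      ∑ w ∈ res ι (2 ^ t), e (β * ((MvPolynomial.eval (fun l => 2 ^ t * z l) G : ℤ) : ℝ)) := by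
    unfold Sj
    rw [Finset.mul_sum]
    refine Finset.sum_congr rfl fun z _ => ?_
    have hcr : ((res ι (2 ^ t)).card : ℂ) = (2 : ℂ) ^ (n * t) := by
      have := card_res (ι := ι) (2 ^ t)
      rw [mul_comm, pow_mul]
      exact_mod_cast this
    rw [Finset.sum_const, nsmul_eq_mul, hcr, eval_scale hG, mul_assoc]
  rw [hbij, hS2, ← Finset.sum_sub_distrib]
  have hmain : ∀ z ∈ box a b i, ‖∑ w ∈ res ι (2 ^ t),
      e (β * ((MvPolynomial.eval (fun l => 2 ^ t * z l + w l) G : ℤ) : ℝ)) -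
      ∑ w ∈ res ι (2 ^ t), e (β * ((MvPolynomial.eval (fun l => 2 ^ t * z l) G : ℤ) : ℝ))‖ ≤
      2 ^ (n * t) * (2 * Real.pi * (|β| * (K * 2 ^ (D * (i + t)) / 2 ^ i))) := by
    intro z hz
    rw [← Finset.sum_sub_distrib]
    have h1 : ∀ w ∈ res ι (2 ^ t),
        ‖e (β * ((MvPolynomial.eval (fun l => 2 ^ t * z l + w l) G : ℤ) : ℝ)) -
        e (β * ((MvPolynomial.eval (fun l => 2 ^ t * z l) G : ℤ) : ℝ))‖ ≤
        2 * Real.pi * (|β| * (K * 2 ^ (D * (i + t)) / 2 ^ i)) := by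
      intro w hw
      refine (norm_e_sub _ _).trans ?_
      refine mul_le_mul_of_nonneg_left ?_ (by positivity)
      rw [← mul_sub, abs_mul]
      refine mul_le_mul_of_nonneg_left ?_ (abs_nonneg _)
      have hzb := hMb i z hz
      have hwr := mem_res.mp hw
      rw [hcast] at hwr
      have hwr' : ∀ l, (0 : ℝ) ≤ w l ∧ (w l : ℝ) ≤ 2 ^ t := by
        intro l
        obtain ⟨u1, u2⟩ := hwr l
        exact ⟨by exact_mod_cast u1, by exact_mod_cast u2.le⟩
      have h2t' : (0 : ℝ) < 2 ^ t := by positivity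
      have h2i' : (1 : ℝ) ≤ 2 ^ i := one_le_pow₀ (by norm_num)
      have hzb' : ∀ l, 2 ^ t * |(z l : ℝ)| ≤ M * 2 ^ (i + t) := by
        intro l
        rw [pow_add]
        nlinarith [hzb l]
      have hx := hL (i + t) (fun l => 2 ^ t * z l + w l) (fun l => 2 ^ t * z l) (2 ^ t) h2t'.le
        ?_ ?_ ?_
      · rw [le_div_iff₀ (by positivity)]
        rw [pow_add 2 i t, ← mul_assoc] at hx
        exact le_of_mul_le_mul_right hx h2t'
      · intro l
        push_cast
        refine (abs_add_le _ _).trans ?_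
        rw [abs_of_nonneg (hwr' l).1, abs_mul, abs_of_pos h2t']
        have := hzb' l
        have h9 := (hwr' l).2
        have h10 : (2 : ℝ) ^ t ≤ 2 ^ (i + t) := by
          rw [pow_add]
          nlinarith
        nlinarith
      · intro l
        push_cast
        rw [abs_mul, abs_of_pos h2t']
        have := hzb' l
        have h10 : (0 : ℝ) < 2 ^ (i + t) := by positivity
        nlinarith
      · intro l
        push_cast
        rw [add_sub_cancel_left, abs_of_nonneg (hwr' l).1]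
        exact (hwr' l).2
    refine (norm_sum_le _ _).trans ((Finset.sum_le_sum h1).trans ?_)
    rw [Finset.sum_const, nsmul_eq_mul, card_res]
    push_cast
    rw [← pow_mul, mul_comm t]
  refine (norm_sum_box_le hab i _ _ hmain).trans (le_of_eq ?_)
  rw [← hn, mul_add n i t, pow_add 2 (n * i) (n * t)]
  field_simp

end Pool.Agent.helper132_hp
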