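import Pool.Agent.helper132_hp.Stmts
import Pool.Agent.H807R2.Dav1

/-! The reciprocal sum of Weyl's method (paper II VL). -/

set_option autoImplicit false

namespace Pool.Agent.helper132_hp

open Finset Pool.Agent.H807R2.Dav

namespace VLx

lemma e_ee (x : ℝ) : e x = ee x := (ee_eq x).symm

/-- the geometric sum over an integer interval -/
lemma geo (x y : ℤ) (M : ℕ) (hM : 1 ≤ M) (hxy : y - x ≤ M) (θ : ℝ) :
    ‖∑ m ∈ Finset.Ico x y, e (θ * m)‖ ≤ 4 * KK ((M : ℝ) / 10) θ := by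
  have hM0 : (1 : ℝ) ≤ M := by exact_mod_cast hM
  set S : ℂ := ∑ n ∈ range (y - x).toNat, ee (n * θ) with hS
  have hN : (((y - x).toNat : ℕ) : ℝ) ≤ M := by
    have : (y - x).toNat ≤ M := by omega
    exact_mod_cast this
  have h0 : ‖∑ m ∈ Finset.Ico x y, e (θ * m)‖ = ‖S‖ := by
    rw [Int.Ico_eq_finset_map, Finset.sum_map]
    have h1 : ∑ n ∈ range (y - x).toNat,
        e (θ * (((Nat.castEmbedding.trans (addLeftEmbedding x)) n : ℤ) : ℝ)) = ee (θ * x) * S := by
      rw [hS, Finset.mul_sum]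
      refine Finset.sum_congr rfl fun n _ => ?_
      rw [e_ee, ← ee_add]
      congr 1
      simp only [Function.Embedding.trans_apply, Nat.castEmbedding_apply, addLeftEmbedding_apply]
      push_cast
      ring
    rw [h1, norm_mul, norm_ee, one_mul]
  have h1 : ‖S‖ ≤ M := by
    refine le_trans ?_ hN
    refine (norm_sum_le _ _).trans ?_
    simp only [norm_ee, sum_const, card_range, nsmul_eq_mul, mul_one]
    exact le_refl _
  have h2 : dd θ * ‖S‖ ≤ 2 := by
    have h3 : (1 - ee θ) * S = 1 - ee θ ^ (y - x).toNat := by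
      rw [hS]
      simp only [ee_pow]
      have := mul_geom_sum (ee θ) (y - x).toNat
      linear_combination -this
    have h4 : dd θ * ‖S‖ = ‖1 - ee θ ^ (y - x).toNat‖ := by
      rw [← h3, norm_mul]
      rfl
    rw [h4]
    refine (norm_sub_le _ _).trans ?_
    rw [norm_pow, norm_ee]
    norm_num
  rw [h0]
  unfold KK
  have hd := dd_nonneg θ
  have hS0 := norm_nonneg S
  have h5 : 4 * (3 * ((M : ℝ) / 10) / (1 + (M : ℝ) / 10 * dd θ)) =
      (12 / 10 * (M : ℝ)) / (1 + (M : ℝ) / 10 * dd θ) := by ring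
  rw [h5, le_div_iff₀ (by positivity)]
  have h6 : (M : ℝ) * (dd θ * ‖S‖) ≤ M * 2 := mul_le_mul_of_nonneg_left h2 (by positivity)
  nlinarith

end VLx

open VLx in
theorem t_VL : S_VL := by
  intro α c q hq hcop hα H M x y hM hxy
  have hq1 : (1 : ℝ) ≤ q := by exact_mod_cast hq
  have hq0 : (0 : ℝ) < q := by linarith
  have hM0 : (1 : ℝ) ≤ M := by exact_mod_cast hM
  have hlog : 0 ≤ Real.log q := Real.log_nonneg hq1
  have h1 : ∑ h ∈ Finset.Icc (-(H : ℤ)) H, ‖∑ m ∈ Finset.Ico x y, e (α * h * m)‖ ≤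
      ∑ h ∈ Finset.Icc (-(H : ℤ)) H, 4 * KK ((M : ℝ) / 10) (α * h) := by
    refine Finset.sum_le_sum fun h _ => ?_
    exact geo x y M hM hxy (α * h)
  have h2 : ∑ h ∈ Finset.Icc (-(H : ℤ)) H, 4 * KK ((M : ℝ) / 10) (α * h) =
      4 * ∑ j ∈ range (2 * H + 1), KK ((M : ℝ) / 10) (-(H : ℝ) * α + j * α) := by
    have hI : Finset.Icc (-(H : ℤ)) H = Finset.Ico (-(H : ℤ)) (H + 1) := by
      ext z
      simp only [Finset.mem_Icc, Finset.mem_Ico]
      omega
    rw [← Finset.mul_sum, hI, Int.Ico_eq_finset_map, Finset.sum_map]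
    have hn : ((H : ℤ) + 1 - -(H : ℤ)).toNat = 2 * H + 1 := by omega
    rw [hn]
    congr 1
    refine Finset.sum_congr rfl fun n _ => ?_
    congr 1
    simp only [Function.Embedding.trans_apply, Nat.castEmbedding_apply, addLeftEmbedding_apply]
    push_cast
    ring
  have h3 := vino (q := q) hq hcop hα (M := (M : ℝ) / 10) (by positivity) (-(H : ℝ) * α)
    (2 * H + 1)
  refine h1.trans ?_
  rw [h2]
  have h4 : (((2 * H + 1 : ℕ) : ℝ) / q + 1) ≤ 2 * ((H : ℝ) / q + 1) := by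
    push_cast
    have h5 : (1 : ℝ) / q ≤ 1 := by
      rw [div_le_one hq0]
      exact hq1
    have h6 : (2 * (H : ℝ) + 1) / q = 2 * ((H : ℝ) / q) + 1 / q := by ring
    rw [h6]
    linarith
  have h5 : 0 ≤ 39 * ((M : ℝ) / 10) + 3 * q * (1 + Real.log q) := by positivity
  have h6 : ∑ j ∈ range (2 * H + 1), KK ((M : ℝ) / 10) (-(H : ℝ) * α + j * α) ≤
      2 * ((H : ℝ) / q + 1) * (39 * ((M : ℝ) / 10) + 3 * q * (1 + Real.log q)) :=
    h3.trans (mul_le_mul_of_nonneg_right h4 h5)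
  have h7 : 0 ≤ (H : ℝ) / q + 1 := by positivity
  have h8 : 0 ≤ q * (1 + Real.log q) := by positivity
  calc 4 * ∑ j ∈ range (2 * H + 1), KK ((M : ℝ) / 10) (-(H : ℝ) * α + j * α) ≤
      4 * (2 * ((H : ℝ) / q + 1) * (39 * ((M : ℝ) / 10) + 3 * q * (1 + Real.log q))) := by
        linarith
    _ = ((H : ℝ) / q + 1) * (31.2 * M + 24 * (q * (1 + Real.log q))) := by ring
    _ ≤ ((H : ℝ) / q + 1) * (50 * (M + q * (1 + Real.log q))) := by
        refine mul_le_mul_of_nonneg_left ?_ h7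
        linarith
    _ = 50 * ((H : ℝ) / q + 1) * (M + q * (1 + Real.log q)) := by ring

end Pool.Agent.helper132_hp
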