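import Pool.Agent.helper132_hp.Stmts4
import Pool.Agent.TH729.CV.Elim

set_option autoImplicit false

namespace Pool.Agent.helper132_hp

namespace ZARx

open MvPolynomial Filter Topology

section

variable {L : Type} [NontriviallyNormedField L] [CharZero L]

/-- the strict derivative of a polynomial function -/
theorem hasStrict {s : ℕ} (G : MvPolynomial (Fin s) ℚ) (x : Fin s → L) :
    HasStrictFDerivAt (𝕜 := L) (fun y : Fin s → L => (aeval y G : L))
      (∑ l, (aeval x (pderiv l G) : L) • (ContinuousLinearMap.proj l : (Fin s → L) →L[L] L)) x := by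
  induction G using MvPolynomial.induction_on with
  | C a =>
    have h : HasStrictFDerivAt (𝕜 := L) (fun y : Fin s → L => (aeval y (C a : MvPolynomial (Fin s) ℚ) : L))
        (0 : (Fin s → L) →L[L] L) x := by
      simp only [aeval_C]
      exact hasStrictFDerivAt_const _ _
    refine h.congr_fderiv ?_
    ext u
    simp
  | add p q hp hq =>
    have h : HasStrictFDerivAt (𝕜 := L) (fun y : Fin s → L => (aeval y (p + q) : L))
        ((∑ l, (aeval x (pderiv l p) : L) • (ContinuousLinearMap.proj l : (Fin s → L) →L[L] L)) +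
          (∑ l, (aeval x (pderiv l q) : L) • (ContinuousLinearMap.proj l : (Fin s → L) →L[L] L)))
        x := by
      simp only [map_add]
      exact hp.add hq
    refine h.congr_fderiv ?_
    rw [← Finset.sum_add_distrib]
    refine Finset.sum_congr rfl fun l _ => ?_
    rw [map_add, map_add]
    ext u
    simp [add_mul]
  | mul_X p i hp =>
    have h1 : HasStrictFDerivAt (𝕜 := L) (fun y : Fin s → L => y i)
      (ContinuousLinearMap.proj i : (Fin s → L) →L[L] L) x :=
      (ContinuousLinearMap.proj i : (Fin s → L) →L[L] L).hasStrictFDerivAt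
    have h : HasStrictFDerivAt (𝕜 := L) (fun y : Fin s → L => (aeval y (p * X i) : L))
        ((aeval x p : L) • (ContinuousLinearMap.proj i : (Fin s → L) →L[L] L) +
          x i • (∑ l, (aeval x (pderiv l p) : L) •
            (ContinuousLinearMap.proj l : (Fin s → L) →L[L] L))) x := by
      simp only [map_mul, aeval_X]
      exact hp.mul h1
    refine h.congr_fderiv ?_
    ext u
    have e1 : ∀ l, (aeval x (pderiv l (p * X i)) : L) * u l =
        (aeval x p : L) * ((Pi.single l (1 : MvPolynomial (Fin s) ℚ) : Fin s → MvPolynomial (Fin s) ℚ) i |> aeval x) * u l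
          + x i * ((aeval x (pderiv l p) : L) * u l) := by
      intro l
      rw [pderiv_mul, pderiv_X, map_add, map_mul, map_mul, aeval_X]
      ring
    have e2 : ∑ l, (aeval x p : L) * ((Pi.single l (1 : MvPolynomial (Fin s) ℚ) : Fin s → MvPolynomial (Fin s) ℚ) i |> aeval x) * u l
        = (aeval x p : L) * u i := by
      rw [Finset.sum_eq_single i]
      · simp
      · intro b _ hb
        rw [Pi.single_eq_of_ne (Ne.symm hb)]
        simp
      · simp
    simp only [_root_.add_apply, _root_.sum_apply,
      _root_.smul_apply, ContinuousLinearMap.proj_apply, smul_eq_mul]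
    rw [Finset.sum_congr rfl fun l _ => e1 l, Finset.sum_add_distrib, e2, Finset.mul_sum]

variable [CompleteSpace L]

/-- points near the projection of a nonsingular zero lift to zeros -/
theorem lift {n : ℕ} (G : MvPolynomial (Fin (n + 1)) ℚ) (l : Fin (n + 1)) (x : Fin (n + 1) → L)
    (hx : aeval x G = 0) (hl : aeval x (pderiv l G) ≠ 0) (U : Set (Fin (n + 1) → L))
    (hU : U ∈ 𝓝 x) :
    ∀ᶠ v in 𝓝 (fun j => x (l.succAbove j)),
      ∃ y ∈ U, aeval y G = 0 ∧ (fun j => y (l.succAbove j)) = v := by
  let E : (Fin (n + 1) → L) →L[L] (Fin n → L) :=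
    ContinuousLinearMap.pi fun j => ContinuousLinearMap.proj (l.succAbove j)
  let D : (Fin (n + 1) → L) →L[L] L :=
    ∑ l, (aeval x (pderiv l G) : L) • (ContinuousLinearMap.proj l : (Fin (n + 1) → L) →L[L] L)
  let Φ : (Fin (n + 1) → L) → L × (Fin n → L) := fun y => ((aeval y G : L), E y)
  have hΦ : HasStrictFDerivAt Φ (D.prod E) x := (hasStrict G x).prodMk E.hasStrictFDerivAt
  have hsurj : (D.prod E).range = ⊤ := by
    rw [LinearMap.range_eq_top]
    rintro ⟨a, w⟩
    refine ⟨l.insertNth ((a - ∑ j, aeval x (pderiv (l.succAbove j) G) * w j) /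
      aeval x (pderiv l G)) w, ?_⟩
    refine Prod.ext ?_ ?_
    · change D _ = a
      simp only [D, _root_.sum_apply, _root_.smul_apply,
        ContinuousLinearMap.proj_apply, smul_eq_mul]
      rw [Fin.sum_univ_succAbove _ l]
      simp only [Fin.insertNth_apply_same, Fin.insertNth_apply_succAbove]
      field_simp
      ring
    · funext j
      change (l.insertNth _ w : Fin (n + 1) → L) (l.succAbove j) = w j
      rw [Fin.insertNth_apply_succAbove]
  have hmap := hΦ.map_nhds_eq_of_surj hsurj
  have him : Φ '' U ∈ 𝓝 (Φ x) := by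
    rw [← hmap]
    exact image_mem_map hU
  have hc : Tendsto (fun v : Fin n → L => ((0 : L), v)) (𝓝 (fun j => x (l.succAbove j)))
      (𝓝 (Φ x)) := by
    have h0 : Φ x = ((0 : L), fun j => x (l.succAbove j)) := Prod.ext hx rfl
    rw [h0]
    exact (Continuous.prodMk_right (0 : L)).tendsto _
  filter_upwards [hc him] with v hv
  obtain ⟨y, hy, hyv⟩ := hv
  exact ⟨y, hy, congrArg Prod.fst hyv, congrArg Prod.snd hyv⟩

omit [CompleteSpace L] in
/-- a polynomial that vanishes on an open set is zero -/
theorem zero_of_nhds {n : ℕ} (h : MvPolynomial (Fin n) ℚ) (x : Fin n → L)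
    (hx : ∀ᶠ v in 𝓝 x, (aeval v h : L) = 0) : h = 0 := by
  obtain ⟨ε, hε, hb⟩ := Metric.eventually_nhds_iff_ball.1 hx
  apply MvPolynomial.map_injective (algebraMap ℚ L) (algebraMap ℚ L).injective
  rw [map_zero]
  refine MvPolynomial.funext_set (fun i => Metric.ball (x i) ε)
    (fun i => infinite_of_mem_nhds (x i) (Metric.ball_mem_nhds _ hε)) fun v hv => ?_
  rw [map_zero, eval_map, ← aeval_def]
  apply hb
  rw [ball_pi _ hε]
  exact hv

/-- the ideal of the polynomials that vanish on the zeros of `G` near `x` -/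
def germ {s : ℕ} (G : MvPolynomial (Fin s) ℚ) (x : Fin s → L) :
    Ideal (MvPolynomial (Fin s) ℚ) where
  carrier := {f | ∀ᶠ y in 𝓝 x, (aeval y G : L) = 0 → (aeval y f : L) = 0}
  add_mem' := by
    intro a b ha hb
    filter_upwards [ha, hb] with y h1 h2 h
    rw [map_add, h1 h, h2 h, add_zero]
  zero_mem' := by
    refine Eventually.of_forall fun y _ => ?_
    rw [map_zero]
  smul_mem' := by
    intro c f hf
    filter_upwards [hf] with y h1 h
    rw [smul_eq_mul, map_mul, h1 h, mul_zero]

end

end ZARx

open ZARx in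
theorem t_ZAR : S_ZAR := by
  intro L _ _ _ s G hG x hx ⟨l, hl⟩ f hf
  cases s with
  | zero => exact l.elim0
  | succ n =>
    refine Pool.Agent.TH729.CV.elim l hG (I := germ G x) ?_ ?_ f hf
    · exact Filter.Eventually.of_forall fun y h => h
    · intro h hh
      refine zero_of_nhds h (fun j => x (l.succAbove j)) ?_
      filter_upwards [lift G l x hx hl _ hh] with v hv
      obtain ⟨y, hy, h0, rfl⟩ := hv
      have h1 := hy h0
      rw [MvPolynomial.aeval_rename] at h1
      exact h1

end Pool.Agent.helper132_hp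

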