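import Pool.Agent.helper132_hp.Stmts4

/-! Finitely many local ideals. -/

namespace Pool.Agent.helper132_hp

open MvPolynomial Filter Topology

namespace FINIx

variable {L : Type} [NontriviallyNormedField L] [CompleteSpace L] [CharZero L] {s : ℕ}

omit [CompleteSpace L] in
lemma cont (f : MvPolynomial (Fin s) ℚ) : Continuous (fun y : Fin s → L => aeval y f) := by
  have : (fun y : Fin s → L => aeval y f) = fun y => eval y (map (algebraMap ℚ L) f) := by
    funext y
    rw [eval_map]; rfl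
  rw [this]
  exact MvPolynomial.continuous_eval _

/-- the restriction to the line through `w` -/
noncomputable def line (f : MvPolynomial (Fin s) ℚ) (w : Fin s → L) : Polynomial L :=
  aeval (fun i => Polynomial.C (w i) * Polynomial.X) f

omit [CompleteSpace L] in
lemma line_eval (f : MvPolynomial (Fin s) ℚ) (w : Fin s → L) (t : L) :
    (line f w).eval t = aeval (fun i => w i * t) f := by
  unfold line
  have h := MvPolynomial.comp_aeval_apply
    (φ := ((Polynomial.aeval t : Polynomial L →ₐ[L] L).restrictScalars ℚ))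
    (f := fun i => Polynomial.C (w i) * Polynomial.X) f
  simp only [AlgHom.restrictScalars_apply] at h
  rw [← Polynomial.coe_aeval_eq_eval, h]
  congr 1
  congr 1
  funext i
  simp

omit [CompleteSpace L] in
lemma line_zero (f : MvPolynomial (Fin s) ℚ) (w : Fin s → L)
    (h : {t : L | aeval (fun i => w i * t) f = 0}.Infinite) (t : L) :
    aeval (fun i => w i * t) f = 0 := by
  have h0 : line f w = 0 := by
    apply Polynomial.eq_zero_of_infinite_isRoot
    refine h.mono ?_
    intro t ht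
    change (line f w).eval t = 0
    rw [line_eval]; exact ht
  rw [← line_eval, h0]; simp

omit [CompleteSpace L] in
lemma cast_eval (f : MvPolynomial (Fin s) ℚ) (z : Fin s → ℚ) :
    aeval (fun i => ((z i : ℚ) : L)) f = ((eval z f : ℚ) : L) := by
  have h := MvPolynomial.aeval_algebraMap_apply (A := ℚ) L z f
  have e1 : (algebraMap ℚ L ∘ z) = fun i => ((z i : ℚ) : L) := by
    funext i; simp
  have e2 : aeval z f = eval z f := by
    rw [← MvPolynomial.coe_aeval_eq_eval]; rfl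
  rw [e1, e2, eq_ratCast] at h
  exact h

omit [CompleteSpace L] in
/-- homogeneity -/
lemma hom_zero (F : MvPolynomial (Fin s) ℚ) (D : ℕ) (hF : F.IsHomogeneous D) (w : Fin s → L)
    (h : aeval w F = 0) (t : L) : aeval (fun i => w i * t) F = 0 := by
  have e : aeval (fun i => w i * t) F = t ^ D * aeval w F := by
    rw [aeval_def, aeval_def, eval₂_eq', eval₂_eq', Finset.mul_sum]
    refine Finset.sum_congr rfl ?_
    intro m hm
    have hd : ∑ i, m i = D := by
      have := hF (mem_support_iff.1 hm)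
      rw [← this, Finsupp.weight_apply, Finsupp.sum_fintype _ _ (by simp)]
      simp
    simp only [mul_pow, Finset.prod_mul_distrib, Finset.prod_pow_eq_pow_sum, hd]
    ring
  rw [e, h, mul_zero]

open UniqueFactorizationMonoid in
omit [CompleteSpace L] in
/-- a zero of `F` is a zero of a factor -/
lemma fac_zero (F : MvPolynomial (Fin s) ℚ) (hF : F ≠ 0) (w : Fin s → L) (h : aeval w F = 0) :
    ∃ G ∈ factors F, aeval w G = 0 := by
  obtain ⟨u, hu⟩ := factors_prod hF
  have h1 : aeval w (factors F).prod = 0 := by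
    have h2 : aeval w (factors F).prod * aeval w (u : MvPolynomial (Fin s) ℚ) = 0 := by
      rw [← map_mul, hu, h]
    rcases mul_eq_zero.1 h2 with h3 | h3
    · exact h3
    · exfalso
      have h4 : aeval w (u : MvPolynomial (Fin s) ℚ) *
          aeval w ((u⁻¹ : (MvPolynomial (Fin s) ℚ)ˣ) : MvPolynomial (Fin s) ℚ) = 1 := by
        rw [← map_mul, Units.mul_inv, map_one]
      rw [h3, zero_mul] at h4
      exact zero_ne_one h4
  rw [map_multiset_prod, Multiset.prod_eq_zero_iff, Multiset.mem_map] at h1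
  exact h1

omit [CompleteSpace L] in
/-- at a nonsingular zero the factor is nonsingular -/
lemma fac_smooth (F G : MvPolynomial (Fin s) ℚ) (hG : G ∣ F) (w : Fin s → L) (h : aeval w G = 0)
    (l : Fin s) (hl : aeval w (pderiv l F) ≠ 0) : aeval w (pderiv l G) ≠ 0 := by
  obtain ⟨H, rfl⟩ := hG
  intro h0
  apply hl
  rw [pderiv_mul, map_add, map_mul, map_mul, h, h0, zero_mul, zero_mul, add_zero]

/-- nonsingular zero -/
def Ns (F : MvPolynomial (Fin s) ℚ) (w : Fin s → L) : Prop :=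
  aeval w F = 0 ∧ ∃ l, aeval w (pderiv l F) ≠ 0

/-- the factors that are approached -/
def Ix (F : MvPolynomial (Fin s) ℚ) (x : Fin s → L) : Set (MvPolynomial (Fin s) ℚ) :=
  {G | G ∈ UniqueFactorizationMonoid.factors F ∧ ∀ U ∈ 𝓝 x, ∃ w ∈ U, Ns F w ∧ aeval w G = 0}

omit [CompleteSpace L] in
/-- `f` vanishes at all zeros near `x`. -/
lemma van (F : MvPolynomial (Fin s) ℚ)
    (h2 : ∀ x : Fin s → L, x ≠ 0 → aeval x F = 0 → ∀ U ∈ 𝓝 x,
      ∃ y : Fin s → ℚ, y ≠ 0 ∧ eval y F = 0 ∧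
        ∃ c : L, c ≠ 0 ∧ (fun i => c * (y i : L)) ∈ U)
    (x : Fin s → L) (hx : x ≠ 0) (f : MvPolynomial (Fin s) ℚ) (hf : f ∈ LocId L F x) :
    ∃ U : Set (Fin s → L), IsOpen U ∧ x ∈ U ∧ ∀ w ∈ U, aeval w F = 0 → aeval w f = 0 := by
  obtain ⟨U0, hU0, hU⟩ := hf
  obtain ⟨U1, hU1, hU1o, hxU1⟩ := mem_nhds_iff.1 hU0
  refine ⟨U1 ∩ {w | w ≠ 0}, hU1o.inter isOpen_ne, ⟨hxU1, hx⟩, ?_⟩
  rintro w ⟨hw1, hw2⟩ hFw
  by_contra hne
  have hV : {v : Fin s → L | aeval v f ≠ 0} ∈ 𝓝 w :=
    (isOpen_ne_fun (cont f) continuous_const).mem_nhds hne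
  obtain ⟨y, hy0, hyF, c, hc, hcy⟩ := h2 w hw2 hFw _ (inter_mem hV (hU1o.mem_nhds hw1))
  apply hcy.1
  have h3 : ∀ t : ℚ, eval (t • y) f = 0 := hU y hy0 hyF ⟨c, hc, hU1 hcy.2⟩
  have h4 := line_zero (L := L) f (fun i => (y i : L)) (by
    refine Set.infinite_of_injective_forall_mem (f := fun q : ℚ => (q : L)) Rat.cast_injective ?_
    intro q
    change aeval (fun i => (y i : L) * (q : L)) f = 0
    have := cast_eval (L := L) f (q • y)
    rw [h3 q] at this
    simpa [mul_comm] using this) c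
  simpa [mul_comm] using h4

/-- one inclusion -/
lemma incl1 (h : S_ZAR) (F : MvPolynomial (Fin s) ℚ)
    (h2 : ∀ x : Fin s → L, x ≠ 0 → aeval x F = 0 → ∀ U ∈ 𝓝 x,
      ∃ y : Fin s → ℚ, y ≠ 0 ∧ eval y F = 0 ∧
        ∃ c : L, c ≠ 0 ∧ (fun i => c * (y i : L)) ∈ U)
    (x : Fin s → L) (hx : x ≠ 0) (f : MvPolynomial (Fin s) ℚ) (hf : f ∈ LocId L F x)
    (G : MvPolynomial (Fin s) ℚ) (hG : G ∈ Ix F x) : G ∣ f := by
  obtain ⟨U, hUo, hxU, hU⟩ := van F h2 x hx f hf
  obtain ⟨w, hwU, ⟨hw1, l, hl⟩, hGw⟩ := hG.2 U (hUo.mem_nhds hxU)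
  have hGF : G ∣ F := UniqueFactorizationMonoid.dvd_of_mem_factors hG.1
  refine h L s G (UniqueFactorizationMonoid.irreducible_of_factor _ hG.1) w hGw
    ⟨l, fac_smooth F G hGF w hGw l hl⟩ f ?_
  filter_upwards [hUo.mem_nhds hwU] with y hy hGy
  apply hU y hy
  obtain ⟨H, rfl⟩ := hGF
  rw [map_mul, hGy, zero_mul]

omit [CompleteSpace L] in
/-- the other inclusion -/
lemma incl2 (F : MvPolynomial (Fin s) ℚ) (hF0 : F ≠ 0) (D : ℕ) (hF : F.IsHomogeneous D)
    (h1 : ∀ x : Fin s → L, x ≠ 0 → aeval x F = 0 → ∀ U ∈ 𝓝 x,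
      ∃ w ∈ U, aeval w F = 0 ∧ ∃ l, aeval w (pderiv l F) ≠ 0)
    (x : Fin s → L) (hx : x ≠ 0) (f : MvPolynomial (Fin s) ℚ)
    (hf : ∀ G ∈ Ix F x, G ∣ f) : f ∈ LocId L F x := by
  classical
  -- a neighbourhood
  have hU : ∃ U : Set (Fin s → L), IsOpen U ∧ x ∈ U ∧
      ∀ w ∈ U, Ns F w → aeval w f = 0 := by
    have hG : ∀ G ∈ UniqueFactorizationMonoid.factors F, ∃ U : Set (Fin s → L), IsOpen U ∧ x ∈ U ∧
        ∀ w ∈ U, Ns F w → aeval w G = 0 → aeval w f = 0 := by
      intro G hG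
      by_cases hI : G ∈ Ix F x
      · refine ⟨Set.univ, isOpen_univ, trivial, ?_⟩
        intro w _ _ h0
        obtain ⟨H, rfl⟩ := hf G hI
        rw [map_mul, h0, zero_mul]
      · have : ∃ U ∈ 𝓝 x, ∀ w ∈ U, ¬ (Ns F w ∧ aeval w G = 0) := by
          by_contra hcon
          apply hI
          refine ⟨hG, ?_⟩
          intro U hU
          by_contra h3
          apply hcon
          refine ⟨U, hU, ?_⟩
          intro w hw h4
          exact h3 ⟨w, hw, h4⟩
        obtain ⟨U, hU, hw⟩ := this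
        obtain ⟨U1, hU1, hU1o, hxU1⟩ := mem_nhds_iff.1 hU
        exact ⟨U1, hU1o, hxU1, fun w h5 h6 h7 => absurd ⟨h6, h7⟩ (hw w (hU1 h5))⟩
    choose! V hV1 hV2 hV3 using hG
    refine ⟨⋂ G ∈ (UniqueFactorizationMonoid.factors F).toFinset, V G, ?_, ?_, ?_⟩
    · exact isOpen_biInter_finset fun G hG => hV1 G (Multiset.mem_toFinset.1 hG)
    · simp only [Set.mem_iInter]
      exact fun G hG => hV2 G (Multiset.mem_toFinset.1 hG)
    · intro w hw hns
      obtain ⟨G, hG, hGw⟩ := fac_zero F hF0 w hns.1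
      simp only [Set.mem_iInter] at hw
      exact hV3 G hG w (hw G (Multiset.mem_toFinset.2 hG)) hns hGw
  obtain ⟨U, hUo, hxU, hU⟩ := hU
  refine ⟨U, hUo.mem_nhds hxU, ?_⟩
  rintro y hy0 hyF ⟨c, hc, hcy⟩ t
  set w0 : Fin s → L := fun i => c * (y i : L) with hw0
  have hFy : aeval (fun i => (y i : L)) F = 0 := by
    rw [cast_eval, hyF, Rat.cast_zero]
  have hFw0 : aeval w0 F = 0 := by
    have := hom_zero F D hF (fun i => (y i : L)) hFy c
    simpa [hw0, mul_comm] using this
  have hw0ne : w0 ≠ 0 := by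
    intro h0
    apply hy0
    funext i
    have h3 := congrFun h0 i
    simp only [hw0, Pi.zero_apply, mul_eq_zero, hc, false_or, Rat.cast_eq_zero] at h3
    exact h3
  -- near `t = 1`
  have hct : Continuous (fun t : L => (fun i => w0 i * t : Fin s → L)) := by
    fun_prop
  have hnear : ∀ᶠ t : L in 𝓝 (1 : L), aeval (fun i => w0 i * t) f = 0 := by
    have h4 : ∀ᶠ t : L in 𝓝 (1 : L), (fun i => w0 i * t) ∈ U := by
      have : (fun i => w0 i * (1 : L)) ∈ U := by simpa using hcy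
      exact hct.continuousAt.eventually (hUo.mem_nhds this)
    have h5 : ∀ᶠ t : L in 𝓝 (1 : L), t ≠ 0 := isOpen_ne.mem_nhds one_ne_zero
    filter_upwards [h4, h5] with t ht ht0
    by_contra hne
    have hV : {v : Fin s → L | aeval v f ≠ 0} ∈ 𝓝 (fun i => w0 i * t) :=
      (isOpen_ne_fun (cont f) continuous_const).mem_nhds hne
    have hne0 : (fun i => w0 i * t) ≠ 0 := by
      intro h0
      apply hw0ne
      funext i
      have h3 := congrFun h0 i
      simp only [Pi.zero_apply, mul_eq_zero, ht0, or_false] at h3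
      exact h3
    obtain ⟨w, hw, hw1, hw2⟩ := h1 _ hne0 (hom_zero F D hF w0 hFw0 t) _
      (inter_mem hV (hUo.mem_nhds ht))
    exact hw.1 (hU w hw.2 ⟨hw1, hw2⟩)
  have hinf : {t : L | aeval (fun i => w0 i * t) f = 0}.Infinite :=
    infinite_of_mem_nhds (1 : L) hnear
  have h6 := line_zero f w0 hinf (c⁻¹ * (t : L))
  have h7 : (fun i => w0 i * (c⁻¹ * (t : L))) = fun i => (((t • y) i : ℚ) : L) := by
    funext i
    simp only [hw0, Pi.smul_apply, smul_eq_mul, Rat.cast_mul]
    field_simp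
  rw [h7, cast_eval, Rat.cast_eq_zero] at h6
  exact h6

end FINIx

open FINIx in
theorem t_FINI (h : S_ZAR) : S_FINI := by
  classical
  intro L _ _ _ s F D hF h1 h2
  by_cases hF0 : F = 0
  · -- empty
    have : {J | ∃ x : Fin s → L, x ≠ 0 ∧ MvPolynomial.aeval x F = 0 ∧ J = LocId L F x} = ∅ := by
      ext J
      simp only [Set.mem_setOf_eq, Set.mem_empty_iff_false, iff_false]
      rintro ⟨x, hx, hFx, -⟩
      obtain ⟨w, -, -, l, hl⟩ := h1 x hx hFx Set.univ univ_mem
      apply hl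
      rw [hF0, map_zero, map_zero]
    rw [this]
    exact Set.finite_empty
  · have hfin : (Set.range fun P : {S : Set (MvPolynomial (Fin s) ℚ) //
        S ⊆ ((UniqueFactorizationMonoid.factors F).toFinset : Set (MvPolynomial (Fin s) ℚ))} =>
        {f : MvPolynomial (Fin s) ℚ | ∀ G ∈ P.1, G ∣ f}).Finite := by
      have : Finite {S : Set (MvPolynomial (Fin s) ℚ) //
        S ⊆ ((UniqueFactorizationMonoid.factors F).toFinset : Set (MvPolynomial (Fin s) ℚ))} :=
        (Finset.finite_toSet _).finite_subsets.to_subtype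
      exact Set.finite_range _
    refine hfin.subset ?_
    rintro J ⟨x, hx, hFx, rfl⟩
    refine ⟨⟨Ix F x, ?_⟩, ?_⟩
    · intro G hG
      exact Finset.mem_coe.2 (Multiset.mem_toFinset.2 hG.1)
    · ext f
      constructor
      · intro hf
        exact incl2 F hF0 D hF h1 x hx f hf
      · intro hf G hG
        exact incl1 h F h2 x hx f hf G hG

end Pool.Agent.helper132_hp
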