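import Pool.Agent.helper132_hp.T_LOC

/-! Mazur's question for `Q(y^k) = 0`: finitely many local ideals. -/

namespace Pool.Agent.helper132_hp

open Finset Matrix

/-- The local ideals of the rational points of `F = 0` at all its `L`-valued points. -/
def LocalIdeals (L : Type) [NontriviallyNormedField L] [CharZero L] {s : ℕ}
    (F : MvPolynomial (Fin s) ℚ) : Set (Set (MvPolynomial (Fin s) ℚ)) :=
  {J | ∃ x : Fin s → L, x ≠ 0 ∧ MvPolynomial.aeval x F = 0 ∧ J = LocId L F x}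

namespace LOCx

lemma fin_of_dense (hF : S_FINI) (L : Type) [NontriviallyNormedField L] [CompleteSpace L]
    [CharZero L] {s : ℕ} (A : Matrix (Fin s) (Fin s) ℚ) (hA : A.IsSymm) (k : ℕ) (hk : 1 ≤ k)
    (h1 : ∀ x : Fin s → L, x ≠ 0 → FF L A k x = 0 → ∀ ε : ℝ, 0 < ε →
      ∃ w : Fin s → L, FF L A k w = 0 ∧ SmoothAt L A k w ∧ ∀ l, ‖w l - x l‖ < ε)
    (h2 : ∀ x : Fin s → L, x ≠ 0 → FF L A k x = 0 → ∀ ε : ℝ, 0 < ε →
      ∃ z : Fin s → ℚ, FF ℚ A k z = 0 ∧ ∀ l, ‖(z l : L) - x l‖ < ε) :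
    (LocalIdeals L (form A k)).Finite := by
  refine hF L s (form A k) (2 * k) (homog_form A k) ?_ ?_
  · intro x hx hx0 U hU
    rw [aeval_form] at hx0
    obtain ⟨ε, hε, hεU⟩ := Metric.mem_nhds_iff.1 hU
    obtain ⟨w, hw0, hws, hwd⟩ := h1 x hx hx0 ε hε
    refine ⟨w, hεU ?_, by rw [aeval_form]; exact hw0, (smoothAt_iff A hA k hk w).1 hws⟩
    rw [Metric.mem_ball, dist_pi_lt_iff hε]
    intro l
    rw [dist_eq_norm]
    exact hwd l
  · intro x hx hx0 U hU
    rw [aeval_form] at hx0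
    obtain ⟨ε, hε, hεU⟩ := Metric.mem_nhds_iff.1 hU
    obtain ⟨l0, hl0⟩ := Function.ne_iff.1 hx
    have hl0' : 0 < ‖x l0‖ := norm_pos_iff.2 hl0
    obtain ⟨z, hz0, hzd⟩ := h2 x hx hx0 (min ε ‖x l0‖) (lt_min hε hl0')
    refine ⟨z, ?_, by rw [eval_form]; exact hz0, 1, one_ne_zero, hεU ?_⟩
    · intro h
      have := hzd l0
      rw [h] at this
      simp only [Pi.zero_apply, Rat.cast_zero, zero_sub, norm_neg] at this
      exact absurd (lt_of_lt_of_le this (min_le_right _ _)) (lt_irrefl _)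
    · rw [Metric.mem_ball, dist_pi_lt_iff hε]
      intro l
      rw [dist_eq_norm, one_mul]
      exact lt_of_lt_of_le (hzd l) (min_le_left _ _)

lemma fin_of_none (L : Type) [NontriviallyNormedField L] [CharZero L] {s : ℕ}
    (A : Matrix (Fin s) (Fin s) ℚ) (k : ℕ) (h : ¬ HasZero ℚ A k) :
    (LocalIdeals L (form A k)).Finite := by
  refine (Set.finite_singleton Set.univ).subset ?_
  rintro J ⟨x, -, -, rfl⟩
  rw [Set.mem_singleton_iff, Set.eq_univ_iff_forall]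
  intro f
  refine ⟨Set.univ, Filter.univ_mem, fun y hy hy0 => ?_⟩
  rw [eval_form] at hy0
  exact absurd ⟨y, hy, hy0⟩ h

lemma FF_cast {K : Type} [Field K] [CharZero K] {s : ℕ} (A : Matrix (Fin s) (Fin s) ℚ) (k : ℕ)
    (y : Fin s → ℚ) (h : FF ℚ A k y = 0) : FF K A k (fun l => (y l : K)) = 0 := by
  have h1 : FF K A k (fun l => (y l : K)) = ((FF ℚ A k y : ℚ) : K) := by
    unfold FF
    push_cast
    rfl
  rw [h1, h, Rat.cast_zero]

lemma hasZero_cast {K : Type} [Field K] [CharZero K] {s : ℕ} (A : Matrix (Fin s) (Fin s) ℚ) (k : ℕ)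
    (h : HasZero ℚ A k) : HasZero K A k := by
  obtain ⟨y, hy, hy0⟩ := h
  refine ⟨fun l => (y l : K), ?_, FF_cast A k y hy0⟩
  obtain ⟨l, hl⟩ := Function.ne_iff.1 hy
  exact Function.ne_iff.2 ⟨l, by simpa using hl⟩

end LOCx

open LOCx WAsx in
theorem t_LOC (hW : S_WAs) (hSL : S_SLIM) (hOD : S_ODDL) (hF : S_FINI) : ∃ C : ℕ, ∀ k ≥ 1,
    ∀ s ≥ C * k ^ 65, ∀ A : Matrix (Fin s) (Fin s) ℚ, A.IsSymm → A.det ≠ 0 →
    ((Odd k ∨ SmoothHyp (form A k)) → (LocalIdeals ℝ (form A k)).Finite) ∧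
    ((Odd k ∨ SmoothHyp (form A k) ∨ SmoothReal A k) →
      ∀ (p : ℕ) [Fact p.Prime], (LocalIdeals ℚ_[p] (form A k)).Finite) := by
  obtain ⟨C, hC⟩ := hW
  obtain ⟨C', hC3, hC'⟩ := TOPx.poly_bound
  refine ⟨C + 3 * C', fun k hk s hs A hA hdet => ?_⟩
  have hs1 : s ≥ C * k ^ 65 := by
    refine le_trans ?_ hs
    exact Nat.mul_le_mul_right _ (by omega)
  have hk65 : 1 ≤ k ^ 65 := Nat.one_le_pow _ _ hk
  have hs2 : 3 * sp k ≤ s := by
    have := (hC' k hk).1
    have h2 : 3 * (C' * k ^ 65) ≤ (C + 3 * C') * k ^ 65 := by nlinarith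
    omega
  have hs3 : 3 ≤ s := by
    have h2 : 3 * 1 ≤ (C + 3 * C') * k ^ 65 := by
      calc 3 * 1 ≤ (C + 3 * C') * 1 := by omega
        _ ≤ _ := Nat.mul_le_mul_left _ hk65
    omega
  have hWA := hC k hk s hs1 A hA hdet
  -- nonsingular real zeros of a smooth hypersurface
  have hsm : ∀ (K : Type) [Field K] [CharZero K], SmoothHyp (form A k) → ∀ x : Fin s → K, x ≠ 0 →
      FF K A k x = 0 → SmoothAt K A k x := by
    intro K _ _ h x hx hx0
    rw [smoothAt_iff A hA k hk]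
    exact h K x hx (by rw [aeval_form]; exact hx0)
  have hreal : ∀ ε : ℝ, 0 < ε → (Odd k ∨ SmoothHyp (form A k)) → HasZero ℚ A k →
      ∀ x : Fin s → ℝ, x ≠ 0 → FF ℝ A k x = 0 →
      (SmoothAt ℝ A k x ∨ (Odd k ∧ HasZero ℝ A k)) := by
    intro ε hε hcase hQ x hx hx0
    rcases hcase with h | h
    · exact Or.inr ⟨h, hasZero_cast A k hQ⟩
    · exact Or.inl (hsm ℝ h x hx hx0)
  refine ⟨fun hcase => ?_, fun hcase p _ => ?_⟩
  · by_cases hQ : HasZero ℚ A k
    · refine fin_of_dense hF ℝ A hA k hk ?_ ?_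
      · intro x hx hx0 ε hε
        rcases hcase with h | h
        · obtain ⟨w, hw0, hw⟩ := hasZero_cast (K := ℝ) A k hQ
          obtain ⟨y', h1, h2, h3⟩ := hOD k h s hs3 (A.map (fun q : ℚ => (q : ℝ))) (sym_map A hA)
            (det_map A hdet) ⟨w, hw0, by rw [FF_dot]; exact hw⟩ x (by rw [FF_dot]; exact hx0) ε hε
          exact ⟨y', by rw [FF_dot] at h1; exact h1, smooth_of A k y' h2, fun l => h3 l⟩
        · exact ⟨x, hx0, hsm ℝ h x hx hx0, fun l => by rw [sub_self, norm_zero]; exact hε⟩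
      · intro x hx hx0 ε hε
        obtain ⟨z, hz0, hz1, -⟩ := hWA x hx0 (hreal ε hε hcase hQ x hx hx0) ∅
          (fun p _ => 0) (fun p hp => absurd hp (Finset.notMem_empty p)) ε hε
        exact ⟨z, hz0, fun l => hz1 l⟩
    · exact fin_of_none ℝ A k hQ
  · -- the p-adic places
    by_cases hQ : HasZero ℚ A k
    · have hy : ∃ y : Fin s → ℝ, FF ℝ A k y = 0 ∧ (SmoothAt ℝ A k y ∨ (Odd k ∧ HasZero ℝ A k)) := by
        rcases hcase with h | h | h
        · obtain ⟨w, hw0, hw⟩ := hasZero_cast (K := ℝ) A k hQ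
          exact ⟨w, hw, Or.inr ⟨h, w, hw0, hw⟩⟩
        · obtain ⟨w, hw0, hw⟩ := hasZero_cast (K := ℝ) A k hQ
          exact ⟨w, hw, Or.inl (hsm ℝ h w hw0 hw)⟩
        · obtain ⟨w, hw0, hw⟩ := h
          exact ⟨w, hw0, Or.inl hw⟩
      obtain ⟨y, hy0, hys⟩ := hy
      refine fin_of_dense hF ℚ_[p] A hA k hk ?_ ?_
      · intro x hx hx0 ε hε
        obtain ⟨Y', h1, h2, h3⟩ := hSL p k hk s hs2 (A.map (fun q : ℚ => (q : ℚ_[p])))
          (sym_map A hA) (det_map A hdet) x (by rw [FF_dot]; exact hx0) ε hε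
        exact ⟨Y', by rw [FF_dot] at h1; exact h1, smooth_of A k Y' h2, h3⟩
      · intro x hx hx0 ε hε
        have hYex : ∀ (p' : ℕ) [Fact p'.Prime], ∃ Y : Fin s → ℚ_[p'], FF ℚ_[p'] A k Y = 0 ∧
            (∀ h : p' = p, ∀ l, ‖Y l - h ▸ x l‖ = 0) := by
          intro p' _
          by_cases h : p' = p
          · subst h
            exact ⟨x, hx0, fun h l => by simp⟩
          · exact ⟨0, by unfold FF; simp [Nat.one_le_iff_ne_zero.mp hk], fun h' => absurd h' h⟩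
        choose Y hY using hYex
        obtain ⟨z, hz0, -, hz2⟩ := hWA y hy0 hys {p} Y (fun p' _ _ => (hY p').1) ε hε
        refine ⟨z, hz0, fun l => ?_⟩
        have h3 := hz2 p (Finset.mem_singleton_self p) l
        have h4 := (hY p).2 rfl l
        have h5 : Y p l = x l := by
          have := norm_eq_zero.1 h4
          exact sub_eq_zero.1 this
        rw [h5] at h3
        exact h3
    · exact fin_of_none ℚ_[p] A k hQ

end Pool.Agent.helper132_hp
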