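import Mathlib

/-! Hasse principle for quadratic forms in k-th powers: definitions. -/

namespace Pool.Agent.helper132_hp

open Finset

/-- `e(x) = exp(2πix)`. -/
noncomputable def e (x : ℝ) : ℂ := Complex.exp (((2 * Real.pi * x : ℝ) : ℂ) * Complex.I)

section
variable {ι : Type} [Fintype ι] [DecidableEq ι]

/-- the integer points of the box `∏ [a_l 2^j, b_l 2^j)`. -/
noncomputable def box (a b : ι → ℤ) (j : ℕ) : Finset (ι → ℤ) :=
  Fintype.piFinset fun l => Finset.Ico (a l * 2 ^ j) (b l * 2 ^ j)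

/-- the exponential sum `∑ e(α G(z))` over the box of level `j`. -/
noncomputable def Sj (G : MvPolynomial ι ℤ) (a b : ι → ℤ) (j : ℕ) (α : ℝ) : ℂ :=
  ∑ z ∈ box a b j, e (α * ((MvPolynomial.eval z G : ℤ) : ℝ))

/-- representatives of the residues modulo `q`. -/
noncomputable def res (ι : Type) [Fintype ι] [DecidableEq ι] (q : ℕ) : Finset (ι → ℤ) :=
  Fintype.piFinset fun _ => Finset.Ico (0 : ℤ) q

/-- the complete sum `∑_{w mod q} e(c G(w) / q)`. -/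
noncomputable def Cq (G : MvPolynomial ι ℤ) (q : ℕ) (c : ℤ) : ℂ :=
  ∑ w ∈ res ι q, e ((c : ℝ) / q * ((MvPolynomial.eval w G : ℤ) : ℝ))

/-- the number of zeros of `G` modulo `W`. -/
noncomputable def Mq (G : MvPolynomial ι ℤ) (W : ℕ) : ℕ :=
  ((res ι W).filter fun w => (W : ℤ) ∣ MvPolynomial.eval w G).card

/-- power saving on the minor arcs (`δ = 1/10`): `2^{j/10} ≤ q ≤ 2^{(D-1/10)j}` implies
`|S_j(α)| ≤ 2^{(n-D-1)j}` for large `j`. -/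
def Crude (G : MvPolynomial ι ℤ) (D : ℕ) (a b : ι → ℤ) : Prop :=
  ∃ j0 : ℕ, ∀ j ≥ j0, ∀ (α : ℝ) (c : ℤ) (q : ℕ), 0 < q → IsCoprime c (q : ℤ) →
    |α - (c : ℝ) / q| ≤ 1 / (q : ℝ) ^ 2 → 2 ^ j ≤ q ^ 10 → q ^ 10 * 2 ^ j ≤ 2 ^ (10 * D * j) →
    ‖Sj G a b j α‖ * 2 ^ ((D + 1) * j) ≤ 2 ^ (Fintype.card ι * j)

/-- a nonsingular real zero in the interior of the box. -/
def RealSm (G : MvPolynomial ι ℤ) (a b : ι → ℤ) : Prop :=
  ∃ ζ : ι → ℝ, (∀ l, (a l : ℝ) < ζ l ∧ ζ l < b l) ∧ MvPolynomial.aeval ζ G = 0 ∧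
    ∃ l, MvPolynomial.aeval ζ (MvPolynomial.pderiv l G) ≠ 0

/-- positive `p`-adic densities. -/
def PDens (G : MvPolynomial ι ℤ) : Prop :=
  ∀ p : ℕ, p.Prime → ∃ c : ℝ, 0 < c ∧
    ∀ m : ℕ, c * ((p : ℝ) ^ m) ^ Fintype.card ι ≤ Mq G (p ^ m) * (p : ℝ) ^ m

/-- decay of the complete sums. -/
def CDec (G : MvPolynomial ι ℤ) : Prop :=
  ∃ C : ℝ, ∀ (q : ℕ) (c : ℤ), 0 < q → IsCoprime c (q : ℤ) →
    ‖Cq G q c‖ * (q : ℝ) ^ 9 ≤ C * (q : ℝ) ^ Fintype.card ι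

/-- the major arc bound, `Y = 2^{Dj}|β|`. -/
def Maj (G : MvPolynomial ι ℤ) (D : ℕ) (a b : ι → ℤ) : Prop :=
  ∃ C : ℝ, ∀ (j q : ℕ) (c : ℤ) (β : ℝ), 0 < q → IsCoprime c (q : ℤ) → q ^ 10 ≤ 2 ^ j →
    (|β| * 2 ^ (D * j)) ^ 10 ≤ 2 ^ j →
    ‖Sj G a b j ((c : ℝ) / q + β)‖ ≤ C * 2 ^ (Fintype.card ι * j) *
      (1 / ((q : ℝ) ^ 9 * (1 + |β| * 2 ^ (D * j)) ^ 9) + q * (1 + |β| * 2 ^ (D * j)) / 2 ^ j)

/-- the number of zeros in the box of level `j`. -/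
noncomputable def N0 (G : MvPolynomial ι ℤ) (a b : ι → ℤ) (j : ℕ) : ℕ :=
  ((box a b j).filter fun z => MvPolynomial.eval z G = 0).card

/-- the number of `z` in the box with `W ∣ G(z)`, `|G(z)| ≤ W H`. -/
noncomputable def N1 (G : MvPolynomial ι ℤ) (a b : ι → ℤ) (j W H : ℕ) : ℕ :=
  ((box a b j).filter fun z => (W : ℤ) ∣ MvPolynomial.eval z G ∧
    |MvPolynomial.eval z G| ≤ (W : ℤ) * H).card

end

/-- `Q(y^k) = ∑ A_ij y_i^k y_j^k` as an integer polynomial. -/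
noncomputable def G1 {s : ℕ} (A : Matrix (Fin s) (Fin s) ℤ) (k : ℕ) : MvPolynomial (Fin s) ℤ :=
  ∑ i, ∑ j, MvPolynomial.C (A i j) * MvPolynomial.X i ^ k * MvPolynomial.X j ^ k

/-- the same with `y_i = u_i v_i`. -/
noncomputable def G2 {s : ℕ} (A : Matrix (Fin s) (Fin s) ℤ) (k : ℕ) :
    MvPolynomial (Fin s ⊕ Fin s) ℤ :=
  ∑ i, ∑ j, MvPolynomial.C (A i j) *
    (MvPolynomial.X (Sum.inl i) * MvPolynomial.X (Sum.inr i)) ^ k *
    (MvPolynomial.X (Sum.inl j) * MvPolynomial.X (Sum.inr j)) ^ k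

/-- number of variables of the off-diagonal minor. -/
def r1 (k : ℕ) : ℕ := 3000 * k ^ 5

/-- number of diagonal variables. -/
def t1 (k : ℕ) : ℕ := 10 ^ 7 * k ^ 10

/-- half the number of variables of the mean value. -/
def bb (k : ℕ) : ℕ := k * (2 * k + 1)

/-- number of variables for `R` additive equations of degree `k` over `ℚ_p`. -/
def Nas (R k : ℕ) : ℕ := 5000 * R ^ 3 * k ^ 13

/-- number of disjoint bases needed. -/
def nb (R k : ℕ) : ℕ := 5000 * R * k ^ 12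

/-- number of variables for a nonsingular `p`-adic zero. -/
def sp (k : ℕ) : ℕ := (Nas 1 (2 * k) + Nas 1 k + 2) * Nas (Nas 1 (2 * k) + Nas 1 k + 2) k

/-- the form `Q(y^k)` of a rational (or other) matrix. -/
def Fm {R : Type} [CommRing R] {s : ℕ} (A : Matrix (Fin s) (Fin s) R) (k : ℕ) (y : Fin s → R) : R :=
  ∑ i, ∑ j, A i j * y i ^ k * y j ^ k

end Pool.Agent.helper132_hp
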