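import Pool.Agent.helper132_hp.Stmts2
import Pool.Agent.helper132_hp.T_ACM

/-! The abstract circle method theorem with a congruence condition. -/

namespace Pool.Agent.helper132_hp

open Finset

namespace ACMrx

variable {ι : Type} [Fintype ι] [DecidableEq ι]

lemma N1r_lower (G : MvPolynomial ι ℤ) (a b : ι → ℤ) (M : ℕ) (u : ι → ℤ) (j W H : ℕ)
    (hMW : M ∣ W) (hW : 1 ≤ W) (B L : ℝ)
    (hB : B ≤ (W : ℝ) * H)
    (h : ∀ v : ι → ℤ, L ≤ (W : ℝ) ^ Fintype.card ι *
      ((box a b j).filter fun z => (∀ l, (W : ℤ) ∣ z l - v l) ∧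
        |((MvPolynomial.eval z G : ℤ) : ℝ)| ≤ B).card) :
    (Mqr G M u W : ℝ) * L ≤ (W : ℝ) ^ Fintype.card ι * N1r G a b M u j W H := by
  classical
  have h1 : ∑ v ∈ (res ι W).filter (fun w => (∀ l, (M : ℤ) ∣ w l - u l) ∧
        (W : ℤ) ∣ MvPolynomial.eval w G),
      ((box a b j).filter fun z => (∀ l, (W : ℤ) ∣ z l - v l) ∧
        |((MvPolynomial.eval z G : ℤ) : ℝ)| ≤ B).card ≤ N1r G a b M u j W H := by
    unfold N1r
    rw [← Finset.card_biUnion]
    · refine Finset.card_le_card ?_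
      intro z hz
      rw [Finset.mem_biUnion] at hz
      obtain ⟨v, hv, hz⟩ := hz
      rw [Finset.mem_filter] at hv hz ⊢
      obtain ⟨hz1, hz2, hz3⟩ := hz
      refine ⟨?_, ?_, ?_⟩
      · rw [boxr, Finset.mem_filter]
        refine ⟨hz1, fun l => ?_⟩
        have h2 : (M : ℤ) ∣ (W : ℤ) := Int.natCast_dvd_natCast.2 hMW
        have h3 := dvd_add (h2.trans (hz2 l)) (hv.2.1 l)
        rwa [sub_add_sub_cancel] at h3
      · have := ACMx.eval_congr_mod G W z v hz2
        have h2 := dvd_add this hv.2.2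
        rwa [sub_add_cancel] at h2
      · have h2 := hz3.trans hB
        have h3 : ((|MvPolynomial.eval z G| : ℤ) : ℝ) ≤ (((W : ℤ) * H : ℤ) : ℝ) := by
          push_cast
          exact h2
        exact_mod_cast h3
    · intro v hv v' hv' hvv
      rw [Finset.mem_coe, Finset.mem_filter] at hv hv'
      show Disjoint _ _
      rw [Finset.disjoint_left]
      intro z hz hz'
      rw [Finset.mem_filter] at hz hz'
      apply hvv
      unfold res at hv hv'
      rw [Fintype.mem_piFinset] at hv hv'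
      funext l
      have h2 := Finset.mem_Ico.1 (hv.1 l)
      have h3 := Finset.mem_Ico.1 (hv'.1 l)
      have h4 : (W : ℤ) ∣ v l - v' l := by
        have := dvd_sub (hz'.2.1 l) (hz.2.1 l)
        have e : z l - v' l - (z l - v l) = v l - v' l := by ring
        rwa [e] at this
      have h5 : v l - v' l = 0 := by
        refine Int.eq_zero_of_abs_lt_dvd h4 ?_
        rw [abs_lt]
        constructor <;> omega
      omega
  have h2 : ((Mqr G M u W : ℕ) : ℝ) * L ≤ ∑ v ∈ (res ι W).filter (fun w => (∀ l, (M : ℤ) ∣ w l - u l) ∧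
        (W : ℤ) ∣ MvPolynomial.eval w G),
      (W : ℝ) ^ Fintype.card ι * (((box a b j).filter fun z => (∀ l, (W : ℤ) ∣ z l - v l) ∧
        |((MvPolynomial.eval z G : ℤ) : ℝ)| ≤ B).card : ℝ) := by
    unfold Mqr
    rw [← nsmul_eq_mul, ← Finset.sum_const]
    exact Finset.sum_le_sum fun v _ => h v
  refine h2.trans ?_
  rw [← Finset.mul_sum]
  refine mul_le_mul_of_nonneg_left ?_ (by positivity)
  exact_mod_cast h1

end ACMrx

open ACMx ACMrx in
/-- The abstract circle method theorem with a congruence condition. -/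
theorem t_ACMr (hDEC : S_DEC) (hDECr : S_DECr) (hINTr : S_INTr) (hREAL : S_REAL)
    (hDENSr : S_DENSr) : S_ACMr := by
  intro ι _ _ G D hD hG a b hab M u hM hcr hcrr hrs hpd
  obtain ⟨hcd, -⟩ := hDEC ι G D hD hG a b hab hcr
  obtain ⟨-, hmaj⟩ := hDECr ι G D hD hG a b hab M u hM hcr hcrr
  obtain ⟨C, hC, j1, hint⟩ := hINTr ι G D hD hG a b hab M u hM hcrr hmaj
  obtain ⟨cf, hcf, hdens⟩ := hDENSr ι G M u hM hcd hpd
  obtain ⟨cr, hcr0, hreal⟩ := hREAL ι G D (by omega) hG a b hrs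
  obtain ⟨κ, hκ⟩ : ∃ κ, κ = cf * cr / 3 := ⟨_, rfl⟩
  have hκ0 : 0 < κ := by rw [hκ]; positivity
  obtain ⟨N', hN'⟩ : ∃ N : ℕ, 4 * C / κ < N := exists_nat_gt _
  obtain ⟨N, hNN⟩ : ∃ N : ℕ, N = N' + M := ⟨_, rfl⟩
  have hN : 4 * C / κ < N := by
    rw [hNN]
    push_cast
    have : (0 : ℝ) ≤ M := Nat.cast_nonneg M
    linarith
  have hN0 : (0 : ℝ) < N := lt_trans (by positivity) hN
  have hN1 : 1 ≤ N := by exact_mod_cast hN0
  obtain ⟨W, hW⟩ : ∃ W, W = N.factorial := ⟨_, rfl⟩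
  have hW1 : 1 ≤ W := by rw [hW]; exact Nat.factorial_pos N
  have hMW : M ∣ W := by rw [hW]; exact Nat.dvd_factorial hM (by omega)
  have hWR : (0 : ℝ) < W := by exact_mod_cast hW1
  obtain ⟨ε, hε⟩ : ∃ ε, ε = min 1 (κ / (8 * C)) := ⟨_, rfl⟩
  have hε0 : 0 < ε := by rw [hε]; positivity
  have hε1 : ε ≤ 1 := by rw [hε]; exact min_le_left _ _
  have hε2 : ε ≤ κ / (8 * C) := by rw [hε]; exact min_le_right _ _
  obtain ⟨j0, hj0⟩ := hreal W ε hW1 hε0 hε1
  obtain ⟨j2, hj2⟩ : ∃ j2 : ℕ, 4 * C / κ < j2 := exists_nat_gt _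
  obtain ⟨j3, hj3⟩ : ∃ j3 : ℕ, 3 * W / ε < j3 := exists_nat_gt _
  refine ⟨max (max j0 j1) (max j2 j3), fun j hj => ?_⟩
  have hjj0 : j0 ≤ j := le_trans (le_trans (le_max_left _ _) (le_max_left _ _)) hj
  have hjj1 : j1 ≤ j := le_trans (le_trans (le_max_right _ _) (le_max_left _ _)) hj
  have hjj2 : j2 ≤ j := le_trans (le_trans (le_max_left _ _) (le_max_right _ _)) hj
  have hjj3 : j3 ≤ j := le_trans (le_trans (le_max_right _ _) (le_max_right _ _)) hj
  obtain ⟨T, hT⟩ : ∃ T : ℝ, T = 2 ^ (D * j) := ⟨_, rfl⟩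
  obtain ⟨V, hV⟩ : ∃ V : ℝ, V = 2 ^ (Fintype.card ι * j) := ⟨_, rfl⟩
  have hT0 : 0 < T := by rw [hT]; positivity
  have hV0 : 0 < V := by rw [hV]; positivity
  have hTj : (j : ℝ) ≤ T := by
    rw [hT]
    have h1 : j < 2 ^ (D * j) := lt_of_lt_of_le Nat.lt_two_pow_self (Nat.pow_le_pow_right (by norm_num) (by nlinarith))
    exact_mod_cast h1.le
  have hTW : 3 * W / ε ≤ T := by
    have : (j3 : ℝ) ≤ j := by exact_mod_cast hjj3
    linarith
  have hTW' : 3 * (W : ℝ) ≤ ε * T := by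
    rw [div_le_iff₀ hε0] at hTW
    linarith
  obtain ⟨H, hH⟩ : ∃ H : ℕ, H = ⌈ε * T / W⌉₊ := ⟨_, rfl⟩
  have hH1 : ε * T / W ≤ H := by rw [hH]; exact Nat.le_ceil _
  have hH2 : (H : ℝ) < ε * T / W + 1 := by rw [hH]; exact Nat.ceil_lt_add_one (by positivity)
  have hWH1 : ε * T ≤ W * H := by
    rw [div_le_iff₀ hWR] at hH1; linarith
  have hWH2 : W * (H : ℝ) ≤ 2 * (ε * T) := by
    have : W * (H : ℝ) ≤ W * (ε * T / W + 1) := mul_le_mul_of_nonneg_left hH2.le hWR.le
    have e : W * (ε * T / W + 1) = ε * T + W := by field_simp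
    linarith
  have hN1l := N1r_lower G a b M u j W H hMW hW1 (ε * 2 ^ (D * j)) (cr * ε * 2 ^ (Fintype.card ι * j))
    (by rw [← hT]; exact hWH1) (fun v => hj0 j hjj0 v)
  rw [← hV] at hN1l
  have hd := hdens W hW1 hMW
  obtain ⟨U, hU⟩ : ∃ U : ℝ, U = (W : ℝ) ^ Fintype.card ι := ⟨_, rfl⟩
  have hU0 : 0 < U := by rw [hU]; positivity
  rw [← hU] at hN1l hd
  have hN1b : cf * cr * ε * V ≤ N1r G a b M u j W H * W := by
    have h1 : cf * U * (cr * ε * V) ≤ (Mqr G M u W * W) * (cr * ε * V) := mul_le_mul_of_nonneg_right hd (by positivity)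
    have h2 : (Mqr G M u W * (cr * ε * V)) * W ≤ (U * N1r G a b M u j W H) * W := mul_le_mul_of_nonneg_right hN1l hWR.le
    have h3 : U * (cf * cr * ε * V) ≤ U * (N1r G a b M u j W H * W) := by nlinarith
    exact le_of_mul_le_mul_left h3 hU0
  have hmain : κ * (V / T) ≤ N1r G a b M u j W H / (2 * H + 1) := by
    have hH3 : (0 : ℝ) < 2 * H + 1 := by positivity
    rw [le_div_iff₀ hH3, mul_div_assoc', div_mul_eq_mul_div, div_le_iff₀ hT0]
    have h4 : (2 * (H : ℝ) + 1) * W ≤ 3 * (ε * T) := by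
      have e : (2 * (H : ℝ) + 1) * W = 2 * (W * H) + W := by ring
      have : W * (H : ℝ) ≤ ε * T + W := by
        have h5 : W * (H : ℝ) ≤ W * (ε * T / W + 1) := mul_le_mul_of_nonneg_left hH2.le hWR.le
        have e2 : W * (ε * T / W + 1) = ε * T + W := by field_simp
        linarith
      rw [e]; linarith
    have h5 : κ * V * (2 * H + 1) * W ≤ N1r G a b M u j W H * T * W := by
      calc κ * V * (2 * H + 1) * W = κ * V * ((2 * H + 1) * W) := by ring
        _ ≤ κ * V * (3 * (ε * T)) := mul_le_mul_of_nonneg_left h4 (by positivity)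
        _ = (cf * cr * ε * V) * T := by rw [hκ]; ring
        _ ≤ (N1r G a b M u j W H * W) * T := mul_le_mul_of_nonneg_right hN1b hT0.le
        _ = _ := by ring
    exact le_of_mul_le_mul_right h5 hWR
  have hi := hint j hjj1 N H hN1
  rw [← hW, ← hT, ← hV] at hi
  have herr : C * ((W * H : ℝ) / T + 1 / N + 1 / (j + 1)) ≤ 3 / 4 * κ := by
    have h1 : C * ((W * H : ℝ) / T) ≤ κ / 4 := by
      have : (W * H : ℝ) / T ≤ 2 * ε := by rw [div_le_iff₀ hT0]; linarith
      have h2 : C * ((W * H : ℝ) / T) ≤ C * (2 * (κ / (8 * C))) := by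
        refine mul_le_mul_of_nonneg_left ?_ hC.le
        linarith
      have e : C * (2 * (κ / (8 * C))) = κ / 4 := by field_simp; ring
      linarith
    have h2 : C * (1 / N) ≤ κ / 4 := by
      rw [mul_one_div, div_le_iff₀ hN0]
      rw [div_lt_iff₀ hκ0] at hN
      linarith
    have h3 : C * (1 / ((j : ℝ) + 1)) ≤ κ / 4 := by
      have hj1 : (0 : ℝ) < (j : ℝ) + 1 := by positivity
      rw [mul_one_div, div_le_iff₀ hj1]
      rw [div_lt_iff₀ hκ0] at hj2
      have : (j2 : ℝ) ≤ j := by exact_mod_cast hjj2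
      nlinarith
    calc C * ((W * H : ℝ) / T + 1 / N + 1 / (j + 1)) = C * ((W * H : ℝ) / T) + C * (1 / N) + C * (1 / ((j : ℝ) + 1)) := by ring
      _ ≤ _ := by linarith
  have hpos : (0 : ℝ) < N0r G a b M u j := by
    have h1 := (abs_le.1 hi).1
    have hVT : 0 < V / T := by positivity
    have h2 : C * ((W * H : ℝ) / T + 1 / N + 1 / (j + 1)) * (V / T) ≤ 3 / 4 * κ * (V / T) :=
      mul_le_mul_of_nonneg_right herr hVT.le
    have h3 : 0 < κ * (V / T) := by positivity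
    have h4 : 3 / 4 * κ * (V / T) = 3 / 4 * (κ * (V / T)) := by ring
    rw [h4] at h2
    linarith
  have hpos' : 0 < N0r G a b M u j := by exact_mod_cast hpos
  unfold N0r at hpos'
  obtain ⟨z, hz⟩ := Finset.card_pos.1 hpos'
  rw [Finset.mem_filter] at hz
  exact ⟨z, hz.1, hz.2⟩

end Pool.Agent.helper132_hp
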