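import Pool.Agent.helper132_hp.Stmts

/-! Additive systems over the p-adic numbers. -/

namespace Pool.Agent.helper132_hp

open Finset

theorem t_AS (h1 : S_NORM) (h2 : S_GREEDY) (h3 : S_CNT) (h4 : S_PERT) : S_AS := by
  intro p hp k R hk hR ι _ _ hcard c
  have hNas : R ≤ Nas R k := by
    unfold Nas
    have hR3 : R ≤ R ^ 3 := Nat.le_self_pow (by norm_num) R
    have hk13 : 1 ≤ k ^ 13 := Nat.one_le_pow _ _ hk
    calc R ≤ 5000 * R ^ 3 := by omega
      _ = 5000 * R ^ 3 * 1 := by ring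
      _ ≤ 5000 * R ^ 3 * k ^ 13 := Nat.mul_le_mul_left _ hk13
  refine h4 p k R hk hR ι (hNas.trans hcard) ?_ c
  clear c
  intro c hc
  obtain ⟨g, ex, c', hg, hc', hlam⟩ := h1 p k R hk hR ι c (hNas.trans hcard) hc
  have hn : R * R * k * nb R k ≤ Fintype.card ι := by
    refine le_trans (le_of_eq ?_) hcard
    unfold nb Nas
    ring
  obtain ⟨T, hT, hTdet⟩ := h2 p k R (nb R k) hk hR ι c' hn hlam
  obtain ⟨y', ⟨i0, hi0⟩, hy'⟩ := h3 p k R hk hR ι c' T hT hTdet
  have hp0 : (p : ℚ_[p]) ≠ 0 := by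
    exact_mod_cast hp.out.ne_zero
  refine ⟨fun i => (p : ℚ_[p]) ^ ex i * (y' i : ℚ_[p]), ?_, ?_⟩
  · intro h0
    have h := congrFun h0 i0
    simp only [Pi.zero_apply, mul_eq_zero] at h
    rcases h with h | h
    · exact (zpow_ne_zero _ hp0) h
    · have : y' i0 = 0 := PadicInt.coe_eq_zero.1 h
      rw [this] at hi0
      exact not_isUnit_zero hi0
  · -- the vector of values is killed by `g`
    set w : Fin R → ℚ_[p] := fun l => ∑ i, c l i * ((p : ℚ_[p]) ^ ex i * (y' i : ℚ_[p])) ^ k with hw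
    have hgw : g.mulVec w = 0 := by
      funext m
      have h5 : ∑ i, ((c' m i : ℤ_[p]) : ℚ_[p]) * (y' i : ℚ_[p]) ^ k = 0 := by
        have h6 := congrArg (fun x : ℤ_[p] => (x : ℚ_[p])) (hy' m)
        simpa only [PadicInt.coe_sum, PadicInt.coe_mul, PadicInt.coe_pow, PadicInt.coe_zero] using h6
      simp only [Matrix.mulVec, dotProduct, Pi.zero_apply, hw]
      rw [← h5]
      calc ∑ l, g m l * ∑ i, c l i * ((p : ℚ_[p]) ^ ex i * (y' i : ℚ_[p])) ^ k
          = ∑ l, ∑ i, g m l * (c l i * ((p : ℚ_[p]) ^ ex i * (y' i : ℚ_[p])) ^ k) := by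
            exact Finset.sum_congr rfl fun l _ => Finset.mul_sum _ _ _
        _ = ∑ i, ∑ l, g m l * (c l i * ((p : ℚ_[p]) ^ ex i * (y' i : ℚ_[p])) ^ k) :=
            Finset.sum_comm
        _ = ∑ i, ((c' m i : ℤ_[p]) : ℚ_[p]) * (y' i : ℚ_[p]) ^ k := by
            refine Finset.sum_congr rfl fun i _ => ?_
            rw [hc' m i, Finset.sum_mul]
            refine Finset.sum_congr rfl fun l _ => ?_
            rw [mul_pow]
            ring
    have hw0 : w = 0 := by
      have hinj := Matrix.mulVec_injective_iff_isUnit.2 ((Matrix.isUnit_iff_isUnit_det g).2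
        (isUnit_iff_ne_zero.2 hg))
      apply hinj
      rw [hgw, Matrix.mulVec_zero]
    intro m
    exact congrFun hw0 m

end Pool.Agent.helper132_hp
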