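import Pool.Agent.helper132_hp.Stmts2
import Pool.Agent.helper132_hp.T_BS

/-! The bilinear sum in two variables, restricted to residue classes (HPK2, task BSr). -/

set_option autoImplicit false

namespace Pool.Agent.helper132_hp

open Finset BSx

namespace BSrx

/-- restricting the variables does not increase the number of solutions. -/
lemma card_le (b k : ℕ) {V' V : Finset ℤ} (h : V' ⊆ V) (m : ℤ × ℤ) :
    (((WW b V').filter fun w => (nn k w, nn (2 * k) w) = m).card : ℝ) ≤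
      ((((Fintype.piFinset fun _ : Fin b => V) ×ˢ (Fintype.piFinset fun _ : Fin b => V)).filter
        fun w => (∑ i, w.1 i ^ k - ∑ i, w.2 i ^ k = m.1) ∧
          (∑ i, w.1 i ^ (2 * k) - ∑ i, w.2 i ^ (2 * k) = m.2)).card : ℝ) := by
  have hs : (WW b V').filter (fun w => (nn k w, nn (2 * k) w) = m) ⊆
      ((Fintype.piFinset fun _ : Fin b => V) ×ˢ (Fintype.piFinset fun _ : Fin b => V)).filter
        (fun w => (∑ i, w.1 i ^ k - ∑ i, w.2 i ^ k = m.1) ∧
          (∑ i, w.1 i ^ (2 * k) - ∑ i, w.2 i ^ (2 * k) = m.2)) := by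
    intro w hw
    rw [mem_filter] at hw ⊢
    obtain ⟨hw1, hw2⟩ := hw
    unfold WW at hw1
    rw [mem_product, Fintype.mem_piFinset, Fintype.mem_piFinset] at hw1 ⊢
    refine ⟨⟨fun i => h (hw1.1 i), fun i => h (hw1.2 i)⟩, ?_⟩
    unfold nn at hw2
    exact Prod.ext_iff.1 hw2
  exact_mod_cast card_le_card hs

end BSrx

/-- the bilinear sum, restricted to residue classes. -/
theorem t_BSr (h1 : S_MV) (h2 : S_VL) : S_BSr := by
  classical
  intro k hk d hd a b a' b' hab hab' M u0 v0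
  have hbb : 1 ≤ bb k := by
    unfold bb
    exact Nat.mul_pos hk (by omega)
  obtain ⟨n, hn⟩ : ∃ n, 2 * bb k = n + 1 := ⟨2 * bb k - 1, by omega⟩
  obtain ⟨CU, CU0, hCU⟩ := h1 k hk a b hab (1 / 80) (by norm_num)
  obtain ⟨CV, CV0, hCV⟩ := h1 k hk a' b' hab' (1 / 80) (by norm_num)
  set A0 : ℕ := a.natAbs + b.natAbs + a'.natAbs + b'.natAbs with hA0
  set B : ℕ := 2 * bb k * (A0 + 1) ^ (2 * k) with hB
  have B1 : 1 ≤ B := by
    rw [hB]
    have : 1 ≤ (A0 + 1) ^ (2 * k) := Nat.one_le_pow _ _ (by omega)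
    nlinarith
  set cU : ℝ := ((b - a : ℤ) : ℝ) with hcU
  set cV : ℝ := ((b' - a' : ℤ) : ℝ) with hcV
  have cU0 : 0 < cU := by
    rw [hcU]
    exact_mod_cast sub_pos.2 hab
  have cV0 : 0 < cV := by
    rw [hcV]
    exact_mod_cast sub_pos.2 hab'
  set CL : ℝ := 50 * (3 * d.natAbs * B ^ 2 + d.natAbs * B + 3 * B + 1) * (4 * k) with hCL
  have CL0 : 0 < CL := by
    rw [hCL]
    have : (1 : ℝ) ≤ k := by exact_mod_cast hk
    positivity
  have B1r : (1 : ℝ) ≤ B := by exact_mod_cast B1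
  set K : ℝ := (cU ^ n) ^ (2 * bb k) * (cV ^ (2 * bb k)) ^ n * (CV * ((3 * B) ^ 2 * CU * (CL * 60)))
    with hK
  have K0 : 0 < K := by
    rw [hK]
    positivity
  clear_value K
  refine ⟨K ^ 20, by positivity, ?_⟩
  intro j α c q hq hc hα hq1 hq2 θ
  set t := tt j with ht
  have t0 : 0 < t := tt_pos j
  have t1 : 1 ≤ t := tt_one j
  have t80 : t ^ 80 = (2 : ℝ) ^ j := tt_pow j
  set U := (Finset.Ico (a * 2 ^ j) (b * 2 ^ j)).filter (fun u => (M : ℤ) ∣ u - u0) with hU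
  set V := (Finset.Ico (a' * 2 ^ j) (b' * 2 ^ j)).filter (fun v => (M : ℤ) ∣ v - v0) with hV
  have hUs : U ⊆ Finset.Ico (a * 2 ^ j) (b * 2 ^ j) := Finset.filter_subset _ _
  have hVs : V ⊆ Finset.Ico (a' * 2 ^ j) (b' * 2 ^ j) := Finset.filter_subset _ _
  set E : ℝ := (((2 * bb k : ℝ) - 3 * k + 1 / 80) * j) with hE
  set L : ℝ := 50 * (((d.natAbs * (B * 2 ^ (2 * k * j)) : ℕ) : ℝ) / q + 1) *
        (((2 * (B * 2 ^ (2 * k * j)) + 1 : ℕ) : ℝ) + q * (1 + Real.log q)) with hLdef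
  have hL := recip h2 α c q hq hc hα d hd (B * 2 ^ (2 * k * j))
  have L0 : 0 ≤ L := le_trans (Finset.sum_nonneg fun _ _ => norm_nonneg _) hL
  have hLb : L * t ^ 8 ≤ CL * (1 + j) * t ^ (320 * k) :=
    L_bound k j q B d.natAbs hk B1 hq hq1 hq2
  have hmain := main_ineq k (bb k) n hn U V (α * d) θ (B * 2 ^ (k * j)) (B * 2 ^ (2 * k * j))
    (CU * (2 : ℝ) ^ E) (CV * (2 : ℝ) ^ E) L (by positivity) (by positivity)
    (fun w hw => mem_BX_of U (fun v hv => abs_ico (by omega) (by omega) j v (hUs hv)) w hw)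
    (fun w hw => mem_BX_of V (fun v hv => abs_ico (by omega) (by omega) j v (hVs hv)) w hw)
    (fun m => by
      have h := hCU j m.1 m.2
      refine le_trans ?_ h
      exact BSrx.card_le (bb k) k hUs m)
    (fun m => by
      have h := hCV j m.1 m.2
      refine le_trans ?_ h
      exact BSrx.card_le (bb k) k hVs m)
    hL
  have hUc : (U.card : ℝ) ≤ cU * t ^ 80 := by
    rw [hcU, ht, ← card_ico a b hab j]
    exact_mod_cast Finset.card_le_card hUs
  have hVc : (V.card : ℝ) ≤ cV * t ^ 80 := by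
    rw [hcV, ht, ← card_ico a' b' hab' j]
    exact_mod_cast Finset.card_le_card hVs
  set τ := ‖∑ u ∈ U, ∑ v ∈ V, e (α * d * ((u : ℝ) * v) ^ (2 * k) + θ * ((u : ℝ) * v) ^ k)‖ with hτ
  have τ0 : 0 ≤ τ := norm_nonneg _
  have hX1 : 2 * (((B * 2 ^ (k * j) : ℕ)) : ℝ) + 1 ≤ 3 * B * t ^ (80 * k) := by
    have e1 : (2 : ℝ) ^ (k * j) = t ^ (80 * k) := by
      rw [pow_mul t, t80, ← pow_mul]
      congr 1
      ring
    push_cast
    rw [e1]
    have : (1 : ℝ) ≤ t ^ (80 * k) := one_le_pow₀ t1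
    nlinarith
  have hJ : (2 : ℝ) ^ E * t ^ (240 * k) = t ^ (160 * bb k + 1) := tt_J j k (bb k)
  have E0 : (0 : ℝ) < (2 : ℝ) ^ E := Real.rpow_pos_of_pos (by norm_num) _
  have hlog := tt_log j
  have j0 : (0 : ℝ) ≤ j := Nat.cast_nonneg j
  -- the estimate with all powers of t
  have key : (τ ^ (2 * bb k)) ^ (2 * bb k) * t ^ 4 ≤ K * t ^ (640 * bb k ^ 2) := by
    have hpos : 0 < t ^ (480 * k + 4) := by positivity
    refine le_of_mul_le_mul_right ?_ hpos
    calc (τ ^ (2 * bb k)) ^ (2 * bb k) * t ^ 4 * t ^ (480 * k + 4)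
        = (τ ^ (2 * bb k)) ^ (2 * bb k) * t ^ (480 * k + 8) := by
          rw [mul_assoc, ← pow_add]
          congr 2
          ring
      _ ≤ (((cU * t ^ 80) ^ n) ^ (2 * bb k) * ((cV * t ^ 80) ^ (2 * bb k)) ^ n *
            (CV * (2 : ℝ) ^ E * ((2 * (((B * 2 ^ (k * j) : ℕ)) : ℝ) + 1) ^ 2 * (CU * (2 : ℝ) ^ E) * L))) *
            t ^ (480 * k + 8) := by
          refine mul_le_mul_of_nonneg_right (hmain.trans ?_) (by positivity)
          refine mul_le_mul_of_nonneg_right ?_ (by positivity)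
          gcongr
      _ ≤ (((cU * t ^ 80) ^ n) ^ (2 * bb k) * ((cV * t ^ 80) ^ (2 * bb k)) ^ n *
            (CV * (2 : ℝ) ^ E * ((3 * B * t ^ (80 * k)) ^ 2 * (CU * (2 : ℝ) ^ E) * L))) *
            t ^ (480 * k + 8) := by
          gcongr
      _ = ((cU ^ n) ^ (2 * bb k) * (cV ^ (2 * bb k)) ^ n * (CV * ((3 * B) ^ 2 * CU))) *
            (t ^ (80 * n * (2 * bb k) + 80 * (2 * bb k) * n + 160 * k)) *
            ((2 : ℝ) ^ E * t ^ (240 * k)) * ((2 : ℝ) ^ E * t ^ (240 * k)) * (L * t ^ 8) := by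
          ring
      _ ≤ ((cU ^ n) ^ (2 * bb k) * (cV ^ (2 * bb k)) ^ n * (CV * ((3 * B) ^ 2 * CU))) *
            (t ^ (80 * n * (2 * bb k) + 80 * (2 * bb k) * n + 160 * k)) *
            (t ^ (160 * bb k + 1)) * (t ^ (160 * bb k + 1)) *
            (CL * (60 * t ^ 2) * t ^ (320 * k)) := by
          rw [hJ]
          refine mul_le_mul_of_nonneg_left (hLb.trans ?_) (by positivity)
          gcongr
      _ = K * t ^ (80 * n * (2 * bb k) + 80 * (2 * bb k) * n + 160 * k + (160 * bb k + 1) +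
            (160 * bb k + 1) + 2 + 320 * k) := by
          rw [hK]
          ring
      _ = K * t ^ (640 * bb k ^ 2) * t ^ (480 * k + 4) := by
          rw [mul_assoc K, ← pow_add]
          congr 2
          have : 80 * n * (2 * bb k) + 80 * (2 * bb k) * n + 320 * bb k = 640 * bb k ^ 2 := by
            have h5 : 80 * n * (2 * bb k) + 80 * (2 * bb k) * n + 320 * bb k =
              160 * (n + 1) * (2 * bb k) := by ring
            rw [h5, ← hn]
            ring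
          omega
  have e1 : τ ^ (80 * bb k ^ 2) = ((τ ^ (2 * bb k)) ^ (2 * bb k)) ^ 20 := by
    rw [← pow_mul, ← pow_mul]
    congr 1
    ring
  have e2 : (2 : ℝ) ^ (160 * bb k ^ 2 * j) = (t ^ (640 * bb k ^ 2)) ^ 20 := by
    rw [← pow_mul, show 640 * bb k ^ 2 * 20 = 80 * (160 * bb k ^ 2) by ring, pow_mul t, t80,
      ← pow_mul]
    congr 1
    ring
  have e3 : (2 : ℝ) ^ j = (t ^ 4) ^ 20 := by
    rw [← t80, ← pow_mul]
  rw [e1, e2, e3, ← mul_pow, ← mul_pow]
  exact pow_le_pow_left₀ (by positivity) key 20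

end Pool.Agent.helper132_hp
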