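import Mathlib

/-! The Hasse principle for quadratic forms in `k`-th powers: the definitions of the final statement. -/

namespace Pool.Agent.helper132_hp

/-- The value of `F(y) = Q(y_1^k, …, y_s^k)` at `y ∈ K^s`, where `Q(x) = ∑ A_ij x_i x_j`. -/
def FF (K : Type) [Field K] {s : ℕ} (A : Matrix (Fin s) (Fin s) ℚ) (k : ℕ) (y : Fin s → K) : K :=
  ∑ i, ∑ j, (A i j : K) * y i ^ k * y j ^ k

/-- `F` has a nontrivial zero over `K`. -/
def HasZero (K : Type) [Field K] {s : ℕ} (A : Matrix (Fin s) (Fin s) ℚ) (k : ℕ) : Prop :=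
  ∃ y : Fin s → K, y ≠ 0 ∧ FF K A k y = 0

/-- `F` satisfies the Hasse principle. -/
def Hasse {s : ℕ} (A : Matrix (Fin s) (Fin s) ℚ) (k : ℕ) : Prop :=
  HasZero ℝ A k → (∀ (p : ℕ) [Fact p.Prime], HasZero ℚ_[p] A k) → HasZero ℚ A k

/-- Every `F` in `Q_k^(s)` with `s ≥ s0` satisfies the Hasse principle. -/
def Threshold (k s0 : ℕ) : Prop :=
  ∀ s ≥ s0, ∀ A : Matrix (Fin s) (Fin s) ℚ, A.IsSymm → A.det ≠ 0 → Hasse A k

/-- `h(k)`, the least threshold. -/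
noncomputable def hh (k : ℕ) : ℕ := sInf {s0 | Threshold k s0}

/-- `F` has a nonsingular real zero: `∂F/∂y_l = 2k y_l^(k-1) ∑_j A_lj y_j^k`. -/
def SmoothReal {s : ℕ} (A : Matrix (Fin s) (Fin s) ℚ) (k : ℕ) : Prop :=
  ∃ y : Fin s → ℝ, FF ℝ A k y = 0 ∧ ∃ l, y l ^ (k - 1) * ∑ j, (A l j : ℝ) * y j ^ k ≠ 0

end Pool.Agent.helper132_hp
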