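import Pool.Agent.helper132_hp.Stmts
import Pool.Agent.helper132_hp.HDefs

/-! Weak approximation for quadratic forms in k-th powers: definitions and the statements of the
parts (sums restricted to a residue class `z ≡ v mod M`). -/

namespace Pool.Agent.helper132_hp

open Finset

section
variable {ι : Type} [Fintype ι] [DecidableEq ι]

/-- the points of the box of level `j` that are congruent to `v` modulo `M`. -/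
noncomputable def boxr (a b : ι → ℤ) (M : ℕ) (v : ι → ℤ) (j : ℕ) : Finset (ι → ℤ) :=
  (box a b j).filter fun z => ∀ l, (M : ℤ) ∣ z l - v l

/-- the restricted exponential sum. -/
noncomputable def Sjr (G : MvPolynomial ι ℤ) (a b : ι → ℤ) (M : ℕ) (v : ι → ℤ) (j : ℕ) (α : ℝ) : ℂ :=
  ∑ z ∈ boxr a b M v j, e (α * ((MvPolynomial.eval z G : ℤ) : ℝ))

/-- the complete sum over `w mod q M` with `w ≡ v mod M`. -/
noncomputable def Cqr (G : MvPolynomial ι ℤ) (M : ℕ) (v : ι → ℤ) (q : ℕ) (c : ℤ) : ℂ :=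
  ∑ w ∈ (res ι (q * M)).filter (fun w => ∀ l, (M : ℤ) ∣ w l - v l),
    e ((c : ℝ) / q * ((MvPolynomial.eval w G : ℤ) : ℝ))

/-- the number of zeros modulo `W` in the residue class `v mod M`. -/
noncomputable def Mqr (G : MvPolynomial ι ℤ) (M : ℕ) (v : ι → ℤ) (W : ℕ) : ℕ :=
  ((res ι W).filter fun w => (∀ l, (M : ℤ) ∣ w l - v l) ∧ (W : ℤ) ∣ MvPolynomial.eval w G).card

/-- power saving on the minor arcs for the restricted sums. -/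
def Cruder (G : MvPolynomial ι ℤ) (D : ℕ) (a b : ι → ℤ) (M : ℕ) (v : ι → ℤ) : Prop :=
  ∃ j0 : ℕ, ∀ j ≥ j0, ∀ (α : ℝ) (c : ℤ) (q : ℕ), 0 < q → IsCoprime c (q : ℤ) →
    |α - (c : ℝ) / q| ≤ 1 / (q : ℝ) ^ 2 → 2 ^ j ≤ q ^ 10 → q ^ 10 * 2 ^ j ≤ 2 ^ (10 * D * j) →
    ‖Sjr G a b M v j α‖ * 2 ^ ((D + 1) * j) ≤ 2 ^ (Fintype.card ι * j)

/-- decay of the restricted complete sums. -/
def CDecr (G : MvPolynomial ι ℤ) (M : ℕ) (v : ι → ℤ) : Prop :=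
  ∃ C : ℝ, ∀ (q : ℕ) (c : ℤ), 0 < q → IsCoprime c (q : ℤ) →
    ‖Cqr G M v q c‖ * (q : ℝ) ^ 9 ≤ C * (q : ℝ) ^ Fintype.card ι

/-- the major arc bound for the restricted sums. -/
def Majr (G : MvPolynomial ι ℤ) (D : ℕ) (a b : ι → ℤ) (M : ℕ) (v : ι → ℤ) : Prop :=
  ∃ C : ℝ, ∀ (j q : ℕ) (c : ℤ) (β : ℝ), 0 < q → IsCoprime c (q : ℤ) → q ^ 10 ≤ 2 ^ j →
    (|β| * 2 ^ (D * j)) ^ 10 ≤ 2 ^ j →
    ‖Sjr G a b M v j ((c : ℝ) / q + β)‖ ≤ C * 2 ^ (Fintype.card ι * j) *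
      (1 / ((q : ℝ) ^ 9 * (1 + |β| * 2 ^ (D * j)) ^ 9) + q * (1 + |β| * 2 ^ (D * j)) / 2 ^ j)

/-- the number of restricted zeros in the box of level `j`. -/
noncomputable def N0r (G : MvPolynomial ι ℤ) (a b : ι → ℤ) (M : ℕ) (v : ι → ℤ) (j : ℕ) : ℕ :=
  ((boxr a b M v j).filter fun z => MvPolynomial.eval z G = 0).card

/-- the number of restricted `z` in the box with `W ∣ G(z)`, `|G(z)| ≤ W H`. -/
noncomputable def N1r (G : MvPolynomial ι ℤ) (a b : ι → ℤ) (M : ℕ) (v : ι → ℤ) (j W H : ℕ) : ℕ :=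
  ((boxr a b M v j).filter fun z => (W : ℤ) ∣ MvPolynomial.eval z G ∧
    |MvPolynomial.eval z G| ≤ (W : ℤ) * H).card

/-- positive restricted `p`-adic densities. -/
def PDensr (G : MvPolynomial ι ℤ) (M : ℕ) (v : ι → ℤ) : Prop :=
  ∀ p : ℕ, p.Prime → ∃ c : ℝ, 0 < c ∧ ∀ m : ℕ, M.factorization p ≤ m →
    c * ((p : ℝ) ^ m) ^ Fintype.card ι ≤ Mqr G (p ^ M.factorization p) v (p ^ m) * (p : ℝ) ^ m

end

/-- Riemann lemma for the restricted sums. -/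
def S_RLr : Prop := ∀ (ι : Type) [Fintype ι] [DecidableEq ι] (G : MvPolynomial ι ℤ) (D : ℕ),
  1 ≤ D → G.IsHomogeneous D → ∀ a b : ι → ℤ, (∀ l, a l < b l) →
  ∀ (M : ℕ) (v : ι → ℤ), 1 ≤ M →
  ∃ C : ℝ, ∀ (j q : ℕ) (c : ℤ) (β : ℝ), 0 < q →
    ‖Sjr G a b M v j ((c : ℝ) / q + β) -
        Cqr G M v q c / ((q * M : ℕ) : ℂ) ^ Fintype.card ι * Sj G a b j β‖ ≤
      C * 2 ^ (Fintype.card ι * j) * (q * (1 + |β| * 2 ^ (D * j)) / 2 ^ j)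

/-- Decay and the major arc bound for the restricted sums. -/
def S_DECr : Prop := ∀ (ι : Type) [Fintype ι] [DecidableEq ι] (G : MvPolynomial ι ℤ) (D : ℕ),
  2 ≤ D → G.IsHomogeneous D → ∀ a b : ι → ℤ, (∀ l, a l < b l) →
  ∀ (M : ℕ) (v : ι → ℤ), 1 ≤ M → Crude G D a b → Cruder G D a b M v →
  CDecr G M v ∧ Majr G D a b M v

/-- Comparison with the smoothed count, restricted. -/
def S_INTr : Prop := ∀ (ι : Type) [Fintype ι] [DecidableEq ι] (G : MvPolynomial ι ℤ) (D : ℕ),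
  2 ≤ D → G.IsHomogeneous D → ∀ a b : ι → ℤ, (∀ l, a l < b l) →
  ∀ (M : ℕ) (v : ι → ℤ), 1 ≤ M → Cruder G D a b M v → Majr G D a b M v →
  ∃ C : ℝ, 0 < C ∧ ∃ j1 : ℕ, ∀ j ≥ j1, ∀ N H : ℕ, 1 ≤ N →
    |(N0r G a b M v j : ℝ) - N1r G a b M v j (N.factorial) H / (2 * H + 1)| ≤
      C * ((N.factorial * H : ℝ) / 2 ^ (D * j) + 1 / N + 1 / (j + 1)) *
        (2 ^ (Fintype.card ι * j) / 2 ^ (D * j))

/-- Product of the restricted `p`-adic densities. -/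
def S_DENSr : Prop := ∀ (ι : Type) [Fintype ι] [DecidableEq ι] (G : MvPolynomial ι ℤ),
  ∀ (M : ℕ) (v : ι → ℤ), 1 ≤ M → CDec G → PDensr G M v → ∃ c : ℝ, 0 < c ∧ ∀ W : ℕ, 1 ≤ W → M ∣ W →
    c * (W : ℝ) ^ Fintype.card ι ≤ Mqr G M v W * W

/-- Hensel lifting in a residue class. -/
def S_HENr : Prop := ∀ (ι : Type) [Fintype ι] [DecidableEq ι] (G : MvPolynomial ι ℤ) (p : ℕ)
  [Fact p.Prime] (z : ι → ℤ_[p]), MvPolynomial.aeval z G = 0 →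
  (∃ l, MvPolynomial.aeval z (MvPolynomial.pderiv l G) ≠ 0) →
  ∀ (E : ℕ) (v : ι → ℤ), (∀ l, (p : ℤ_[p]) ^ E ∣ z l - (v l : ℤ_[p])) →
  ∃ c : ℝ, 0 < c ∧ ∀ m : ℕ, E ≤ m →
    c * ((p : ℝ) ^ m) ^ Fintype.card ι ≤ Mqr G (p ^ E) v (p ^ m) * (p : ℝ) ^ m

/-- The abstract circle method theorem with a congruence condition. -/
def S_ACMr : Prop := ∀ (ι : Type) [Fintype ι] [DecidableEq ι] (G : MvPolynomial ι ℤ) (D : ℕ),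
  2 ≤ D → G.IsHomogeneous D → ∀ a b : ι → ℤ, (∀ l, a l < b l) →
  ∀ (M : ℕ) (v : ι → ℤ), 1 ≤ M → Crude G D a b → Cruder G D a b M v →
  RealSm G a b → PDensr G M v → ∃ j0 : ℕ, ∀ j ≥ j0, ∃ z ∈ boxr a b M v j, MvPolynomial.eval z G = 0

/-- Minor arcs when there is a large off-diagonal minor, restricted. -/
def S_C1r : Prop := ∀ k : ℕ, 1 ≤ k → ∀ (s : ℕ) (A : Matrix (Fin s) (Fin s) ℤ), A.IsSymm →
  ∀ I J : Fin (r1 k) → Fin s, Function.Injective I → Function.Injective J →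
  (∀ i j, I i ≠ J j) → (A.submatrix I J).det ≠ 0 →
  ∀ a b : Fin s → ℤ, (∀ l, a l < b l) → ∀ (M : ℕ) (v : Fin s → ℤ),
    Cruder (G1 A k) (2 * k) a b M v

/-- The bilinear sum in two variables, restricted. -/
def S_BSr : Prop := ∀ k : ℕ, 1 ≤ k → ∀ d : ℤ, d ≠ 0 → ∀ (a b a' b' : ℤ), a < b → a' < b' →
  ∀ (M : ℕ) (u0 v0 : ℤ),
  ∃ C : ℝ, 0 < C ∧ ∀ (j : ℕ) (α : ℝ) (c : ℤ) (q : ℕ), 0 < q → IsCoprime c (q : ℤ) →
    |α - (c : ℝ) / q| ≤ 1 / (q : ℝ) ^ 2 → 2 ^ j ≤ q ^ 10 →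
    q ^ 10 * 2 ^ j ≤ 2 ^ (10 * (4 * k) * j) → ∀ θ : ℝ,
    ‖∑ u ∈ (Finset.Ico (a * 2 ^ j) (b * 2 ^ j)).filter (fun u => (M : ℤ) ∣ u - u0),
      ∑ v ∈ (Finset.Ico (a' * 2 ^ j) (b' * 2 ^ j)).filter (fun v => (M : ℤ) ∣ v - v0),
      e (α * d * ((u : ℝ) * v) ^ (2 * k) + θ * ((u : ℝ) * v) ^ k)‖ ^ (80 * bb k ^ 2) * 2 ^ j ≤
      C * 2 ^ (160 * bb k ^ 2 * j)

/-- Minor arcs when the form is diagonal plus low rank on many variables, restricted. -/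
def S_C2r : Prop := ∀ k : ℕ, 1 ≤ k → ∀ (s : ℕ) (A : Matrix (Fin s) (Fin s) ℤ)
  (P Q : Fin s → Fin (r1 k) → ℤ) (K : Finset (Fin s)), t1 k ≤ K.card →
  (∀ i ∈ K, ∀ j ∈ K, i ≠ j → A i j = ∑ m, P i m * Q j m) →
  (∀ i ∈ K, A i i ≠ ∑ m, P i m * Q i m) →
  ∀ a b : Fin s ⊕ Fin s → ℤ, (∀ l, a l < b l) → ∀ (M : ℕ) (v : Fin s ⊕ Fin s → ℤ),
    Cruder (G2 A k) (4 * k) a b M v

/-- Weak approximation for integer matrices: one real place and one residue class. -/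
def S_FINr : Prop := ∀ (k : ℕ), 1 ≤ k → ∀ (s : ℕ), sp k ≤ s → t1 k + 4 * r1 k ≤ s →
    ∀ A : Matrix (Fin s) (Fin s) ℤ, A.IsSymm → A.det ≠ 0 →
    ∀ y : Fin s → ℝ, MvPolynomial.aeval y (G1 A k) = 0 →
    (∃ l, MvPolynomial.aeval y (MvPolynomial.pderiv l (G1 A k)) ≠ 0) →
    ∀ (M : ℕ) (v : Fin s → ℤ), 1 ≤ M →
    (∀ (p : ℕ) [Fact p.Prime], p ∣ M → ∃ z : Fin s → ℤ_[p], MvPolynomial.aeval z (G1 A k) = 0 ∧
      (∃ l, MvPolynomial.aeval z (MvPolynomial.pderiv l (G1 A k)) ≠ 0) ∧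
      ∀ l, (p : ℤ_[p]) ^ M.factorization p ∣ z l - (v l : ℤ_[p])) →
    ∀ ε : ℝ, 0 < ε → ∃ (n : ℕ) (z : Fin s → ℤ), MvPolynomial.eval z (G1 A k) = 0 ∧
      (∀ l, (M : ℤ) ∣ z l - v l) ∧ ∀ l, |(z l : ℝ) / 2 ^ n - y l| < ε

/-- `y` is a nonsingular point of `F = 0`: `∂F/∂y_l = 2k y_l^(k-1) ∑_j A_lj y_j^k`. -/
def SmoothAt (K : Type) [Field K] {s : ℕ} (A : Matrix (Fin s) (Fin s) ℚ) (k : ℕ) (y : Fin s → K) :
    Prop :=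
  ∃ l, y l ^ (k - 1) * ∑ j, (A l j : K) * y j ^ k ≠ 0

/-- Weak approximation: the rational zeros are dense in the product of the nonsingular real zeros
and the nonsingular `p`-adic zeros, `p ∈ S`. -/
def WeakApp {s : ℕ} (A : Matrix (Fin s) (Fin s) ℚ) (k : ℕ) : Prop :=
  ∀ (y : Fin s → ℝ), FF ℝ A k y = 0 → SmoothAt ℝ A k y →
  ∀ (S : Finset ℕ) (Y : ∀ (p : ℕ) [Fact p.Prime], Fin s → ℚ_[p]),
    (∀ p ∈ S, ∀ [Fact p.Prime], FF ℚ_[p] A k (Y p) = 0 ∧ SmoothAt ℚ_[p] A k (Y p)) →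
  ∀ ε : ℝ, 0 < ε → ∃ z : Fin s → ℚ, FF ℚ A k z = 0 ∧ (∀ l, |(z l : ℝ) - y l| < ε) ∧
    ∀ p ∈ S, ∀ [Fact p.Prime], ∀ l, ‖((z l : ℚ) : ℚ_[p]) - Y p l‖ < ε

/-- The final statement. -/
def S_WA : Prop := ∃ C : ℕ, ∀ k ≥ 1, ∀ s ≥ C * k ^ 65, ∀ A : Matrix (Fin s) (Fin s) ℚ,
  A.IsSymm → A.det ≠ 0 → WeakApp A k

end Pool.Agent.helper132_hp
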