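import Pool.Agent.helper132_hp.T_C1a
import Pool.Agent.helper132_hp.Stmts2

/-! The one-variable estimate for arbitrary subsets of the interval (part C1ar). -/

namespace Pool.Agent.helper132_hp

open Finset

/-- the one-variable estimate, for sums over arbitrary subsets of the interval -/
def S_C1ar : Prop := ∀ k : ℕ, 1 ≤ k → ∀ (a b : ℤ), a < b → ∀ K0 : ℕ, 1 ≤ K0 → ∃ C : ℝ, 0 < C ∧
  ∀ (j : ℕ) (V : Finset ℤ), V ⊆ Finset.Ico (a * 2 ^ j) (b * 2 ^ j) →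
  ∀ (α : ℝ) (c : ℤ) (q : ℕ), 0 < q → IsCoprime c (q : ℤ) →
    |α - (c : ℝ) / q| ≤ 1 / (q : ℝ) ^ 2 → 2 ^ j ≤ q ^ 10 → q ^ 10 * 2 ^ j ≤ 2 ^ (10 * (2 * k) * j) →
    (∑ m ∈ Finset.Icc (-((K0 : ℤ) * 2 ^ (k * j))) ((K0 : ℤ) * 2 ^ (k * j)),
      ‖∑ y ∈ V, e (2 * α * m * (y : ℝ) ^ k)‖) ^ (40 * bb k) * 2 ^ j ≤
      C * 2 ^ ((k + 1) * (40 * bb k) * j)

namespace C1arx

open C1ax

/-- the one-variable sum -/
noncomputable def fv (k : ℕ) (α : ℝ) (V : Finset ℤ) (m : ℤ) : ℂ :=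
  ∑ u ∈ V, e (2 * α * m * (u : ℝ) ^ k)

lemma fv_pow (k : ℕ) (α : ℝ) (V : Finset ℤ) (m : ℤ) (s : ℕ) :
    (fv k α V m) ^ s = ∑ u ∈ Fintype.piFinset (fun _ : Fin s => V),
      e (2 * α * m * ((∑ i, u i ^ k : ℤ) : ℝ)) := by
  have h1 : (fv k α V m) ^ s = ∏ _i : Fin s, ∑ u ∈ V, e (2 * α * m * (u : ℝ) ^ k) := by
    rw [Finset.prod_const, Finset.card_univ, Fintype.card_fin]
    rfl
  rw [h1, Finset.prod_univ_sum]
  refine Finset.sum_congr rfl fun u _ => ?_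
  rw [← e_sum, ← Finset.mul_sum]
  push_cast
  rfl

lemma fv_conj_pow (k : ℕ) (α : ℝ) (V : Finset ℤ) (m : ℤ) (s : ℕ) :
    ((starRingEnd ℂ) (fv k α V m)) ^ s = ∑ u ∈ Fintype.piFinset (fun _ : Fin s => V),
      e (-(2 * α * m * ((∑ i, u i ^ k : ℤ) : ℝ))) := by
  rw [← map_pow, fv_pow, map_sum]
  exact Finset.sum_congr rfl fun u _ => e_conj _

lemma fv_moment (k : ℕ) (α : ℝ) (V : Finset ℤ) (m : ℤ) (s : ℕ) :
    ((‖fv k α V m‖ ^ (2 * s) : ℝ) : ℂ) =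
      ∑ w ∈ (Fintype.piFinset (fun _ : Fin s => V)) ×ˢ
        (Fintype.piFinset (fun _ : Fin s => V)),
      e (2 * α * m * ((∑ i, w.1 i ^ k - ∑ i, w.2 i ^ k : ℤ) : ℝ)) := by
  have h1 : ((‖fv k α V m‖ ^ (2 * s) : ℝ) : ℂ) =
      (fv k α V m) ^ s * ((starRingEnd ℂ) (fv k α V m)) ^ s := by
    rw [← mul_pow, Complex.mul_conj, Complex.normSq_eq_norm_sq, pow_mul]
    push_cast
    rfl
  rw [h1, fv_pow, fv_conj_pow, Finset.sum_mul_sum, ← Finset.sum_product']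
  refine Finset.sum_congr rfl fun w _ => ?_
  rw [← e_add]
  congr 1
  push_cast
  ring

/-- the moment in terms of the mean value -/
lemma moment_le (k : ℕ) (α : ℝ) (V : Finset ℤ) (s M H : ℕ) (B : ℝ)
    (hH : ∀ w ∈ (Fintype.piFinset (fun _ : Fin s => V)) ×ˢ
        (Fintype.piFinset (fun _ : Fin s => V)),
        ∑ i, w.1 i ^ k - ∑ i, w.2 i ^ k ∈ Finset.Icc (-(H : ℤ)) H)
    (hB : ∀ h : ℤ, ((((Fintype.piFinset (fun _ : Fin s => V)) ×ˢ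
        (Fintype.piFinset (fun _ : Fin s => V))).filter
        fun w => ∑ i, w.1 i ^ k - ∑ i, w.2 i ^ k = h).card : ℝ) ≤ B) :
    ∑ m ∈ Finset.Icc (-(M : ℤ)) M, ‖fv k α V m‖ ^ (2 * s) ≤
      B * ∑ h ∈ Finset.Icc (-(H : ℤ)) H, ‖∑ m ∈ Finset.Icc (-(M : ℤ)) M, e (2 * α * m * h)‖ := by
  obtain ⟨W, hW⟩ : ∃ W, W = (Fintype.piFinset (fun _ : Fin s => V)) ×ˢ
        (Fintype.piFinset (fun _ : Fin s => V)) := ⟨_, rfl⟩
  rw [← hW] at hH hB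
  have h1 : ((∑ m ∈ Finset.Icc (-(M : ℤ)) M, ‖fv k α V m‖ ^ (2 * s) : ℝ) : ℂ) =
      ∑ h ∈ Finset.Icc (-(H : ℤ)) H, ((W.filter fun w => ∑ i, w.1 i ^ k - ∑ i, w.2 i ^ k = h).card : ℂ) *
        ∑ m ∈ Finset.Icc (-(M : ℤ)) M, e (2 * α * m * h) := by
    rw [Complex.ofReal_sum]
    simp_rw [fv_moment]
    rw [← hW, Finset.sum_comm, ← Finset.sum_fiberwise_of_maps_to hH]
    refine Finset.sum_congr rfl fun h _ => ?_
    rw [← nsmul_eq_mul, ← Finset.sum_const]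
    refine Finset.sum_congr rfl fun w hw => ?_
    rw [(Finset.mem_filter.1 hw).2]
  have h2 : ∑ m ∈ Finset.Icc (-(M : ℤ)) M, ‖fv k α V m‖ ^ (2 * s) =
      ‖((∑ m ∈ Finset.Icc (-(M : ℤ)) M, ‖fv k α V m‖ ^ (2 * s) : ℝ) : ℂ)‖ := by
    rw [Complex.norm_real, Real.norm_eq_abs, abs_of_nonneg]
    positivity
  rw [h2, h1, Finset.mul_sum]
  refine (norm_sum_le _ _).trans (Finset.sum_le_sum fun h _ => ?_)
  rw [norm_mul, Complex.norm_natCast]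
  exact mul_le_mul_of_nonneg_right (hB h) (norm_nonneg _)

end C1arx

open C1ax C1arx in
theorem t_C1ar (h1 : S_MV) (h2 : S_VL) : S_C1ar := by
  intro k hk a b hab K0 hK0
  obtain ⟨C, hC, hmv⟩ := t_C1mv h1 k hk a b hab (1 / 80) (by norm_num)
  obtain ⟨C1, hC1⟩ : ∃ C1 : ℕ, C1 = a.natAbs + b.natAbs := ⟨_, rfl⟩
  obtain ⟨H0, hH0⟩ : ∃ H0 : ℕ, H0 = 2 * bb k * C1 ^ k := ⟨_, rfl⟩
  obtain ⟨C2, hC2⟩ : ∃ C2 : ℝ, C2 = (6 * H0 * K0 + 3 * K0 + 2 * H0 + 1) * (320 * k) := ⟨_, rfl⟩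
  have hk1 : (1 : ℝ) ≤ k := by exact_mod_cast hk
  have hC20 : 0 < C2 := by rw [hC2]; positivity
  obtain ⟨C3, hC3⟩ : ∃ C3 : ℝ, C3 = (3 * K0 : ℝ) ^ (2 * bb k - 1) * (C * (50 * C2)) := ⟨_, rfl⟩
  have hK0R : (1 : ℝ) ≤ K0 := by exact_mod_cast hK0
  have hC30 : 0 < C3 := by rw [hC3]; positivity
  have hbb : 1 ≤ bb k := by unfold bb; nlinarith
  refine ⟨C3 ^ 20, by positivity, ?_⟩
  intro j V hV α c q hq hc hα hl hu
  obtain ⟨M, hM⟩ : ∃ M : ℕ, M = K0 * 2 ^ (k * j) := ⟨_, rfl⟩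
  obtain ⟨H, hH⟩ : ∃ H : ℕ, H = H0 * 2 ^ (k * j) := ⟨_, rfl⟩
  have hMz : (K0 : ℤ) * 2 ^ (k * j) = (M : ℤ) := by rw [hM]; push_cast; rfl
  rw [hMz]
  have hfold : ∀ m : ℤ, ∑ y ∈ V, e (2 * α * m * (y : ℝ) ^ k) = fv k α V m := fun m => rfl
  have hsub : (Fintype.piFinset fun _ : Fin (bb k) => V) ⊆
      (Fintype.piFinset fun _ : Fin (bb k) => Finset.Ico (a * 2 ^ j) (b * 2 ^ j)) :=
    Fintype.piFinset_subset _ _ fun _ => hV
  simp_rw [hfold]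
  have hmom := C1arx.moment_le k α V (bb k) M H
    (C * (2 : ℝ) ^ (((2 * bb k : ℝ) - k + 1 / 80) * j)) (by
      intro w hw
      have := diff_abs hC1 j k (Finset.product_subset_product hsub hsub hw)
      rw [hH, hH0]
      push_cast at this ⊢
      exact this) (fun h => le_trans (by
        exact_mod_cast Finset.card_le_card
          (Finset.filter_subset_filter _ (Finset.product_subset_product hsub hsub))) (hmv j h))
  have hrec := recip h2 α c q hq hc hα H M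
  have hsz := size_bound k hk H0 K0 hK0 j q hq hl hu
  rw [← hM, ← hH, ← hC2] at hsz
  -- the 2b-th moment
  have hb1 : ∑ m ∈ Finset.Icc (-(M : ℤ)) M, ‖fv k α V m‖ ^ (2 * bb k) ≤
      (C * (50 * C2)) * (2 : ℝ) ^ (((2 * bb k : ℝ) + k - 3 / 40) * j) := by
    have hp : (0 : ℝ) < C * (2 : ℝ) ^ (((2 * bb k : ℝ) - k + 1 / 80) * j) := by positivity
    calc _ ≤ C * (2 : ℝ) ^ (((2 * bb k : ℝ) - k + 1 / 80) * j) *
          ∑ h ∈ Finset.Icc (-(H : ℤ)) H, ‖∑ m ∈ Finset.Icc (-(M : ℤ)) M, e (2 * α * m * h)‖ := hmom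
      _ ≤ C * (2 : ℝ) ^ (((2 * bb k : ℝ) - k + 1 / 80) * j) *
          (50 * ((2 * H : ℝ) / q + 1) * (2 * M + 1 + q * (1 + Real.log q))) :=
          mul_le_mul_of_nonneg_left hrec hp.le
      _ ≤ C * (2 : ℝ) ^ (((2 * bb k : ℝ) - k + 1 / 80) * j) *
          (50 * (C2 * (2 : ℝ) ^ ((2 * k - 7 / 80 : ℝ) * j))) := by
          refine mul_le_mul_of_nonneg_left ?_ hp.le
          rw [mul_assoc]
          exact mul_le_mul_of_nonneg_left hsz (by norm_num)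
      _ = (C * (50 * C2)) * ((2 : ℝ) ^ (((2 * bb k : ℝ) - k + 1 / 80) * j) *
          (2 : ℝ) ^ ((2 * k - 7 / 80 : ℝ) * j)) := by ring
      _ = _ := by
          rw [← Real.rpow_add (by norm_num)]
          congr 2
          ring
  -- Hoelder
  obtain ⟨T, hT⟩ : ∃ T : ℝ, T = ∑ m ∈ Finset.Icc (-(M : ℤ)) M, ‖fv k α V m‖ := ⟨_, rfl⟩
  rw [← hT]
  have hT0 : 0 ≤ T := by rw [hT]; exact Finset.sum_nonneg fun _ _ => norm_nonneg _
  have hcard : (((Finset.Icc (-(M : ℤ)) M).card : ℕ) : ℝ) = 2 * M + 1 := by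
    rw [Int.card_Icc]
    have : (M : ℤ) + 1 - -(M : ℤ) = ((2 * M + 1 : ℕ) : ℤ) := by push_cast; ring
    rw [this, Int.toNat_natCast]
    push_cast
    ring
  have hho := pow_sum_div_card_le_sum_pow (s := Finset.Icc (-(M : ℤ)) M)
    (f := fun m : ℤ => ‖fv k α V m‖) (fun _ _ => norm_nonneg _) (2 * bb k - 1)
  rw [show 2 * bb k - 1 + 1 = 2 * bb k by omega, ← hT, hcard, div_le_iff₀ (by positivity)] at hho
  have hMR : (2 * M + 1 : ℝ) ≤ 3 * K0 * (2 : ℝ) ^ (k * j) := by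
    have h2k : (1 : ℝ) ≤ 2 ^ (k * j) := one_le_pow₀ (by norm_num)
    rw [hM]; push_cast
    nlinarith
  have hb2 : T ^ (2 * bb k) ≤ C3 * (2 : ℝ) ^ (((2 * bb k : ℝ) * k + 2 * bb k - 3 / 40) * j) := by
    calc T ^ (2 * bb k) ≤ _ := hho
      _ ≤ ((C * (50 * C2)) * (2 : ℝ) ^ (((2 * bb k : ℝ) + k - 3 / 40) * j)) *
          (3 * K0 * (2 : ℝ) ^ (k * j)) ^ (2 * bb k - 1) := by
          refine mul_le_mul hb1 ?_ (by positivity) (by positivity)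
          exact pow_le_pow_left₀ (by positivity) hMR _
      _ = C3 * ((2 : ℝ) ^ (((2 * bb k : ℝ) + k - 3 / 40) * j) * ((2 : ℝ) ^ (k * j)) ^ (2 * bb k - 1)) := by
          rw [hC3, mul_pow]; ring
      _ = _ := by
          congr 1
          rw [← pow_mul, ← Real.rpow_natCast (2 : ℝ) (k * j * (2 * bb k - 1)), ← Real.rpow_add (by norm_num)]
          congr 1
          have : ((2 * bb k - 1 : ℕ) : ℝ) = 2 * bb k - 1 := by
            rw [Nat.cast_sub (by omega)]; push_cast; ring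
          push_cast [this]
          ring
  have hb3 : T ^ (40 * bb k) ≤ C3 ^ 20 * (2 : ℝ) ^ ((20 * ((2 * bb k : ℝ) * k + 2 * bb k - 3 / 40)) * j) := by
    calc T ^ (40 * bb k) = (T ^ (2 * bb k)) ^ 20 := by rw [← pow_mul]; congr 1; ring
      _ ≤ (C3 * (2 : ℝ) ^ (((2 * bb k : ℝ) * k + 2 * bb k - 3 / 40) * j)) ^ 20 :=
          pow_le_pow_left₀ (by positivity) hb2 20
      _ = _ := by
          rw [mul_pow, ← Real.rpow_natCast ((2 : ℝ) ^ (((2 * bb k : ℝ) * k + 2 * bb k - 3 / 40) * j)) 20,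
            ← Real.rpow_mul (by norm_num)]
          congr 2
          push_cast
          ring
  calc T ^ (40 * bb k) * 2 ^ j
      ≤ C3 ^ 20 * (2 : ℝ) ^ ((20 * ((2 * bb k : ℝ) * k + 2 * bb k - 3 / 40)) * j) * 2 ^ j := by
        gcongr
    _ = C3 ^ 20 * (2 : ℝ) ^ ((20 * ((2 * bb k : ℝ) * k + 2 * bb k - 3 / 40)) * j + j) := by
        rw [mul_assoc, ← Real.rpow_natCast (2 : ℝ) j, ← Real.rpow_add (by norm_num)]
    _ ≤ C3 ^ 20 * (2 : ℝ) ^ (((k + 1) * (40 * bb k) * j : ℕ) : ℝ) := by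
        refine mul_le_mul_of_nonneg_left ?_ (by positivity)
        refine Real.rpow_le_rpow_of_exponent_le (by norm_num) ?_
        push_cast
        have : (0 : ℝ) ≤ j := Nat.cast_nonneg j
        nlinarith
    _ = _ := by rw [Real.rpow_natCast]

end Pool.Agent.helper132_hp
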