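import Pool.Agent.helper132_hp.T_C1b
import Pool.Agent.helper132_hp.T_C1ar
import Pool.Agent.helper132_hp.Stmts2

/-! Minor arcs when there is a large off-diagonal minor, restricted sums. -/

namespace Pool.Agent.helper132_hp

open Finset

namespace C1rx

open C1ax C1x

theorem corer (h1 : S_MV1) (h2 : S_C1ar) (k : ℕ) (hk : 1 ≤ k)
    (M : Matrix (Fin (r1 k)) (Fin (r1 k)) ℤ) (hM : M.det ≠ 0) (a b a' b' : Fin (r1 k) → ℤ)
    (hab : ∀ l, a l < b l) (hab' : ∀ l, a' l < b' l) :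
    ∃ C : ℝ, 0 < C ∧ ∀ (j : ℕ) (U V : Fin (r1 k) → Finset ℤ),
      (∀ l, U l ⊆ Finset.Ico (a l * 2 ^ j) (b l * 2 ^ j)) →
      (∀ l, V l ⊆ Finset.Ico (a' l * 2 ^ j) (b' l * 2 ^ j)) →
      ∀ (α : ℝ) (c : ℤ) (q : ℕ), 0 < q → IsCoprime c (q : ℤ) →
      |α - (c : ℝ) / q| ≤ 1 / (q : ℝ) ^ 2 → 2 ^ j ≤ q ^ 10 →
      q ^ 10 * 2 ^ j ≤ 2 ^ (10 * (2 * k) * j) → ∀ g h : (Fin (r1 k) → ℤ) → ℝ,
      ‖∑ u ∈ Fintype.piFinset U, ∑ v ∈ Fintype.piFinset V,
        e (g u + h v + 2 * α * ((∑ i, ∑ l, M i l * u i ^ k * v l ^ k : ℤ) : ℝ))‖ ^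
          (80 * bb k ^ 2) * (2 ^ j) ^ (2700 * k ^ 5) ≤
        C * (2 ^ j) ^ (2 * r1 k * (80 * bb k ^ 2)) := by
  classical
  have hbb : 0 < bb k := by unfold bb; positivity
  have hη : (0 : ℝ) < 1 / (400 * bb k) := by positivity
  have hex1 : ∀ l, ∃ C : ℝ, 0 < C ∧ _ := fun l => h1 k hk (a' l) (b' l) (hab' l) _ hη
  choose Cn hCn0 hCn using hex1
  obtain ⟨K0, hK0⟩ : ∃ K0 : ℕ, K0 = 1 + ∑ i, ∑ l, (M i l).natAbs *
      (2 * bb k * ((a' l).natAbs + (b' l).natAbs) ^ k) := ⟨_, rfl⟩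
  have hex2 : ∀ i, ∃ C : ℝ, 0 < C ∧ _ := fun i => h2 k hk (a i) (b i) (hab i) K0 (by omega)
  choose Ce hCe0 hCe using hex2
  obtain ⟨CU, hCU⟩ : ∃ CU : ℝ, CU = ∏ l, ((b l - a l : ℤ) : ℝ) := ⟨_, rfl⟩
  obtain ⟨CN, hCN⟩ : ∃ CN : ℝ, CN = ∏ l, Cn l := ⟨_, rfl⟩
  obtain ⟨CE, hCE⟩ : ∃ CE : ℝ, CE = ∏ i, Ce i := ⟨_, rfl⟩
  obtain ⟨n, hn⟩ : ∃ n, 2 * bb k = n + 1 := ⟨2 * bb k - 1, by omega⟩
  have hCU0 : 0 < CU := by
    rw [hCU]
    refine Finset.prod_pos fun l _ => ?_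
    have := hab l
    exact_mod_cast (by omega : 0 < b l - a l)
  have hCN0 : 0 < CN := by rw [hCN]; exact Finset.prod_pos fun l _ => hCn0 l
  have hCE0 : 0 < CE := by rw [hCE]; exact Finset.prod_pos fun l _ => hCe0 l
  refine ⟨CU ^ (n * (40 * bb k)) * CN ^ (40 * bb k) * CE, by positivity, ?_⟩
  intro j U V hU hV α c q hq hc hα hq1 hq2 g h
  obtain ⟨ρ, hρ⟩ : ∃ ρ : ℝ, ρ = (2 : ℝ) ^ (((2 * bb k : ℝ) - k + 1 / (400 * bb k)) * j) := ⟨_, rfl⟩
  have hρ0 : 0 < ρ := by rw [hρ]; positivity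
  have hH : ∀ w ∈ (Fintype.piFinset (fun _ : Fin (bb k) => Fintype.piFinset V)) ×ˢ
        (Fintype.piFinset (fun _ : Fin (bb k) => Fintype.piFinset V)), ∀ i,
        ∑ l, M i l * (∑ t, w.1 t l ^ k - ∑ t, w.2 t l ^ k) ∈
          Finset.Icc (-((K0 : ℤ) * 2 ^ (k * j))) ((K0 : ℤ) * 2 ^ (k * j)) := by
    intro w hw i
    rw [Finset.mem_product, Fintype.mem_piFinset, Fintype.mem_piFinset] at hw
    have h5 : ∀ l, |M i l * (∑ t, w.1 t l ^ k - ∑ t, w.2 t l ^ k)| ≤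
        (((M i l).natAbs * (2 * bb k * ((a' l).natAbs + (b' l).natAbs) ^ k) : ℕ) : ℤ) *
          2 ^ (k * j) := by
      intro l
      have h6 := diff_abs (a := a' l) (b := b' l) (C1 := (a' l).natAbs + (b' l).natAbs) rfl j k
        (s := bb k) (w := (fun t => w.1 t l, fun t => w.2 t l)) (by
          rw [Finset.mem_product, Fintype.mem_piFinset, Fintype.mem_piFinset]
          exact ⟨fun t => hV l (Fintype.mem_piFinset.1 (hw.1 t) l),
            fun t => hV l (Fintype.mem_piFinset.1 (hw.2 t) l)⟩)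
      rw [Finset.mem_Icc] at h6
      have h7 := abs_le.2 h6
      rw [abs_mul]
      push_cast at h7 ⊢
      rw [mul_assoc]
      exact mul_le_mul_of_nonneg_left h7 (abs_nonneg _)
    have h8 : |∑ l, M i l * (∑ t, w.1 t l ^ k - ∑ t, w.2 t l ^ k)| ≤ (K0 : ℤ) * 2 ^ (k * j) := by
      refine (Finset.abs_sum_le_sum_abs _ _).trans ((Finset.sum_le_sum fun l _ => h5 l).trans ?_)
      rw [← Finset.sum_mul, ← Nat.cast_sum]
      refine mul_le_mul_of_nonneg_right ?_ (by positivity)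
      have h9 : ∑ l, (M i l).natAbs * (2 * bb k * ((a' l).natAbs + (b' l).natAbs) ^ k) ≤
          ∑ i, ∑ l, (M i l).natAbs * (2 * bb k * ((a' l).natAbs + (b' l).natAbs) ^ k) :=
        Finset.single_le_sum (f := fun i => ∑ l, (M i l).natAbs *
          (2 * bb k * ((a' l).natAbs + (b' l).natAbs) ^ k)) (fun _ _ => Nat.zero_le _)
          (Finset.mem_univ i)
      exact_mod_cast (by omega)
    rw [Finset.mem_Icc]
    exact abs_le.1 h8
  have hA := holder hbb k α U V M g h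
  have hNN : ∀ l m, ((((Fintype.piFinset fun _ : Fin (bb k) => V l) ×ˢ
      (Fintype.piFinset fun _ : Fin (bb k) => V l)).filter
        fun w => ∑ t, w.1 t ^ k - ∑ t, w.2 t ^ k = m).card : ℝ) ≤ Cn l * ρ := by
    intro l m
    rw [hρ]
    refine le_trans ?_ (hCn l j m)
    have h5 : (Fintype.piFinset fun _ : Fin (bb k) => V l) ⊆
        Fintype.piFinset fun _ : Fin (bb k) => Finset.Ico (a' l * 2 ^ j) (b' l * 2 ^ j) :=
      Fintype.piFinset_subset _ _ fun _ => hV l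
    exact_mod_cast Finset.card_le_card (Finset.filter_subset_filter _
      (Finset.product_subset_product h5 h5))
  have hB := count (b := bb k) k V M hM
    (fun i n => ‖∑ u ∈ U i, e (2 * α * (n : ℝ) * (u : ℝ) ^ k)‖)
    (fun _ _ => norm_nonneg _) (fun l => Cn l * ρ) hNN _ hH
  have hcU : ((Fintype.piFinset U).card : ℝ) ≤ CU * (2 ^ j) ^ r1 k := by
    have h5 := card_pi a b hab j
    rw [← hCU, Fintype.card_fin] at h5
    rw [← h5]
    exact_mod_cast Finset.card_le_card (Fintype.piFinset_subset _ _ hU)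
  rw [(by omega : 2 * bb k - 1 = n)] at hA
  have hsum0 : 0 ≤ ∑ w ∈ (Fintype.piFinset (fun _ : Fin (bb k) => Fintype.piFinset V)) ×ˢ
        (Fintype.piFinset (fun _ : Fin (bb k) => Fintype.piFinset V)),
        ∏ i, ‖∑ u ∈ U i, e (2 * α *
          ((∑ l, M i l * (∑ t, w.1 t l ^ k - ∑ t, w.2 t l ^ k) : ℤ) : ℝ) * (u : ℝ) ^ k)‖ :=
    Finset.sum_nonneg fun _ _ => Finset.prod_nonneg fun _ _ => norm_nonneg _
  have hA2 := hA.trans (mul_le_mul_of_nonneg_right (pow_le_pow_left₀ (Nat.cast_nonneg _) hcU n) hsum0)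
  refine numer _ CU CN CE (2 ^ j) ρ _ (∏ l, Cn l * ρ) k (bb k) n (r1 k) rfl hn rfl
    (norm_nonneg _) (by positivity) hCU0.le hCN0.le
    (hA2.trans (mul_le_mul_of_nonneg_left hB (by positivity))) ?_ ?_ ?_
  · rw [Finset.prod_mul_distrib, Finset.prod_const, Finset.card_univ, Fintype.card_fin, ← hCN]
  · have h5 : ∀ i, (∑ m ∈ Finset.Icc (-((K0 : ℤ) * 2 ^ (k * j))) ((K0 : ℤ) * 2 ^ (k * j)),
        ‖∑ y ∈ U i, e (2 * α * m * (y : ℝ) ^ k)‖) ^ (40 * bb k) *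
        2 ^ j ≤ Ce i * (2 ^ j) ^ ((k + 1) * (40 * bb k)) := by
      intro i
      have := hCe i j (U i) (hU i) α c q hq hc hα hq1 hq2
      refine this.trans_eq ?_
      rw [← pow_mul]
      congr 2
      ring
    have h6 := Finset.prod_le_prod (s := Finset.univ) (fun i _ => mul_nonneg (pow_nonneg
      (Finset.sum_nonneg fun _ _ => norm_nonneg _) _) (by positivity)) fun i _ => h5 i
    rw [Finset.prod_mul_distrib, Finset.prod_mul_distrib, Finset.prod_const, Finset.prod_const,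
      Finset.card_univ, Fintype.card_fin, ← hCE, Finset.prod_pow] at h6
    exact h6
  · rw [hρ]
    exact pow_eta k j hk

end C1rx

open C1x C1ax C1rx in
/-- Minor arcs when there is a large off-diagonal minor, restricted. -/
theorem t_C1r (h1 : S_MV1) (h2 : S_C1ar) : S_C1r := by
  classical
  intro k hk s A hA I J hI hJ hIJ hdet a b hab M v
  have hb0 : 0 < bb k := by unfold bb; positivity
  obtain ⟨N, hN⟩ : ∃ N, N = 80 * bb k ^ 2 := ⟨_, rfl⟩
  have hN0 : 0 < N := by rw [hN]; positivity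
  -- the equivalence
  have hinj : Function.Injective (Sum.elim I J) := hI.sumElim hJ fun i j => hIJ i j
  obtain ⟨E, hE1, hE2⟩ : ∃ E : (Fin (r1 k) ⊕ Fin (r1 k)) ⊕
      ((Set.range (Sum.elim I J))ᶜ : Set (Fin s)) ≃ Fin s,
      (∀ i, E (Sum.inl (Sum.inl i)) = I i) ∧ (∀ i, E (Sum.inl (Sum.inr i)) = J i) :=
    ⟨(Equiv.sumCongr (Equiv.ofInjective _ hinj) (Equiv.refl _)).trans
      (Equiv.Set.sumCompl (Set.range (Sum.elim I J))), fun i => rfl, fun i => rfl⟩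
  obtain ⟨C, hC0, hC⟩ := corer h1 h2 k hk (A.submatrix I J) hdet (fun i => a (I i))
    (fun i => b (I i)) (fun i => a (J i)) (fun i => b (J i)) (fun i => hab _) (fun i => hab _)
  rw [← hN] at hC
  obtain ⟨CW, hCW⟩ : ∃ CW : ℝ, CW = ∏ c : ((Set.range (Sum.elim I J))ᶜ : Set (Fin s)),
    ((b (E (Sum.inr c)) - a (E (Sum.inr c)) : ℤ) : ℝ) := ⟨_, rfl⟩
  have hCW0 : 0 < CW := by
    rw [hCW]
    refine Finset.prod_pos fun l _ => ?_
    have := hab (E (Sum.inr l))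
    exact_mod_cast (by omega : 0 < b (E (Sum.inr l)) - a (E (Sum.inr l)))
  obtain ⟨j0, hj0⟩ := pow_unbounded_of_one_lt (CW ^ N * C) (by norm_num : (1 : ℝ) < 2)
  refine ⟨j0, fun j hj α c q hq hc hα hq1 hq2 => ?_⟩
  obtain ⟨T, hT⟩ : ∃ T : ℝ, T = 2 ^ j := ⟨_, rfl⟩
  have hT1 : 1 ≤ T := by rw [hT]; exact one_le_pow₀ (by norm_num)
  have hT0 : 0 < T := by linarith
  have hcard : r1 k + r1 k + Fintype.card ((Set.range (Sum.elim I J))ᶜ : Set (Fin s)) = s := by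
    have := Fintype.card_congr E
    simpa only [Fintype.card_sum, Fintype.card_fin] using this
  rw [Fintype.card_fin, mul_comm _ j, mul_comm s j, pow_mul, pow_mul, ← hT]
  obtain ⟨B, hB⟩ : ∃ B : ℝ, B = (C * T ^ (2 * r1 k * N) / T ^ (2700 * k ^ 5)) ^ ((N : ℝ)⁻¹) :=
    ⟨_, rfl⟩
  have hB0 : 0 ≤ B := by rw [hB]; positivity
  have hBN : B ^ N = C * T ^ (2 * r1 k * N) / T ^ (2700 * k ^ 5) := by
    rw [hB, Real.rpow_inv_natCast_pow (by positivity) hN0.ne']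
  obtain ⟨TT, hTTd⟩ : ∃ TT : Fin s → Finset ℤ, TT = fun l =>
      (Finset.Ico (a l * 2 ^ j) (b l * 2 ^ j)).filter fun x => (M : ℤ) ∣ x - v l := ⟨_, rfl⟩
  have hTT : ∀ l, TT l ⊆ Finset.Ico (a l * 2 ^ j) (b l * 2 ^ j) := by
    intro l
    rw [hTTd]
    exact Finset.filter_subset _ _
  have hbox : boxr a b M v j = Fintype.piFinset TT := by
    ext z
    have hz : z ∈ boxr a b M v j ↔ z ∈ box a b j ∧ ∀ l, (M : ℤ) ∣ z l - v l := by
      simp [boxr]
    rw [hz, box, Fintype.mem_piFinset, Fintype.mem_piFinset, hTTd]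
    simp only [Finset.mem_filter]
    exact ⟨fun h l => ⟨h.1 l, h.2 l⟩, fun h => ⟨fun l => (h l).1, fun l => (h l).2⟩⟩
  have hin : ∀ t : ((Set.range (Sum.elim I J))ᶜ : Set (Fin s)) → ℤ,
      ‖∑ u ∈ Fintype.piFinset (fun x => TT (E (Sum.inl (Sum.inl x)))),
        ∑ v ∈ Fintype.piFinset (fun x => TT (E (Sum.inl (Sum.inr x)))),
        e (α * ((MvPolynomial.eval (fun l => Sum.elim (Sum.elim u v) t (E.symm l))
          (G1 A k) : ℤ) : ℝ))‖ ≤ B := by
    intro t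
    obtain ⟨g, h, hgh⟩ := form A hA E k t
    have h5 := hC j (fun x => TT (I x)) (fun x => TT (J x)) (fun x => hTT (I x)) (fun x => hTT (J x))
      α c q hq hc hα hq1 hq2 (fun u => α * g u) (fun v => α * h v)
    rw [← hT] at h5
    have h6 : ∀ u v, α * ((MvPolynomial.eval (fun l => Sum.elim (Sum.elim u v) t (E.symm l))
          (G1 A k) : ℤ) : ℝ) = α * g u + α * h v + 2 * α *
          ((∑ i, ∑ l, (A.submatrix I J) i l * u i ^ k * v l ^ k : ℤ) : ℝ) := by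
      intro u v
      rw [hgh]
      simp only [hE1, hE2, Matrix.submatrix_apply]
      push_cast
      ring
    simp_rw [h6, hE1, hE2]
    refine (pow_le_pow_iff_left₀ (norm_nonneg _) hB0 hN0.ne').1 ?_
    rw [hBN, le_div_iff₀ (by positivity)]
    exact h5
  have hS : ‖Sjr (G1 A k) a b M v j α‖ ≤
      (CW * T ^ Fintype.card ((Set.range (Sum.elim I J))ᶜ : Set (Fin s))) * B := by
    rw [Sjr, hbox, decomp E]
    refine (norm_sum_le _ _).trans ((Finset.sum_le_sum fun t _ => hin t).trans ?_)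
    rw [Finset.sum_const, nsmul_eq_mul]
    refine mul_le_mul_of_nonneg_right ?_ hB0
    have h5 := card_pi (fun c : ((Set.range (Sum.elim I J))ᶜ : Set (Fin s)) => a (E (Sum.inr c)))
      (fun c => b (E (Sum.inr c))) (fun c => hab _) j
    rw [← hCW, ← hT] at h5
    rw [← h5]
    exact_mod_cast Finset.card_le_card (Fintype.piFinset_subset _ _ fun c => hTT _)
  refine final CW C T _ s _ k (r1 k) N hN0 hT1 hcard ?_ (norm_nonneg _) ?_ ?_
  · rw [hN]
    exact numerics k hk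
  · rw [hT]
    exact hj0.le.trans (pow_le_pow_right₀ (by norm_num) hj)
  · have h5 := pow_le_pow_left₀ (norm_nonneg _) hS N
    rw [mul_pow _ B, hBN] at h5
    calc _ ≤ ((CW * T ^ Fintype.card ((Set.range (Sum.elim I J))ᶜ : Set (Fin s))) ^ N *
          (C * T ^ (2 * r1 k * N) / T ^ (2700 * k ^ 5))) * T ^ (2700 * k ^ 5) := by gcongr
      _ = _ := by
        rw [mul_assoc, div_mul_cancel₀ _ (by positivity)]

end Pool.Agent.helper132_hp
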