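import Pool.Agent.helper132_hp.Stmts2
import Pool.Agent.helper132_hp.T_C2

/-! Minor arcs, diagonal plus low rank, restricted to a residue class. -/

namespace Pool.Agent.helper132_hp

open Finset

namespace C2rx

/-- the boxes of the pairs, restricted to a residue class -/
noncomputable def Tr {s : ℕ} (a b : Fin s ⊕ Fin s → ℤ) (M : ℕ) (v : Fin s ⊕ Fin s → ℤ) (j : ℕ)
    (i : Fin s) : Finset (ℤ × ℤ) :=
  (Finset.Ico (a (Sum.inl i) * 2 ^ j) (b (Sum.inl i) * 2 ^ j)).filter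
      (fun u => (M : ℤ) ∣ u - v (Sum.inl i)) ×ˢ
    (Finset.Ico (a (Sum.inr i) * 2 ^ j) (b (Sum.inr i) * 2 ^ j)).filter
      (fun w => (M : ℤ) ∣ w - v (Sum.inr i))

theorem Tr_sub {s : ℕ} (a b : Fin s ⊕ Fin s → ℤ) (M : ℕ) (v : Fin s ⊕ Fin s → ℤ) (j : ℕ)
    (i : Fin s) : Tr a b M v j i ⊆ C2x.T a b j i :=
  Finset.product_subset_product (Finset.filter_subset _ _) (Finset.filter_subset _ _)

theorem sum_boxr {s : ℕ} (a b : Fin s ⊕ Fin s → ℤ) (M : ℕ) (v : Fin s ⊕ Fin s → ℤ) (j : ℕ)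
    (f : (Fin s ⊕ Fin s → ℤ) → ℂ) :
    ∑ z ∈ boxr a b M v j, f z = ∑ p ∈ Fintype.piFinset (Tr a b M v j),
      f (Sum.elim (fun i => (p i).1) (fun i => (p i).2)) := by
  refine Finset.sum_nbij' (fun z i => (z (Sum.inl i), z (Sum.inr i)))
    (fun p => Sum.elim (fun i => (p i).1) (fun i => (p i).2)) ?_ ?_ ?_ ?_ ?_
  · intro z hz
    rw [boxr, Finset.mem_filter, box, Fintype.mem_piFinset] at hz
    rw [Fintype.mem_piFinset]
    intro i
    rw [Tr, Finset.mem_product, Finset.mem_filter, Finset.mem_filter]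
    exact ⟨⟨hz.1 _, hz.2 _⟩, ⟨hz.1 _, hz.2 _⟩⟩
  · intro p hp
    rw [Fintype.mem_piFinset] at hp
    rw [boxr, Finset.mem_filter, box, Fintype.mem_piFinset]
    have h := fun i => by
      have := hp i
      rw [Tr, Finset.mem_product, Finset.mem_filter, Finset.mem_filter] at this
      exact this
    constructor
    · rintro (i | i)
      · exact (h i).1.1
      · exact (h i).2.1
    · rintro (i | i)
      · exact (h i).1.2
      · exact (h i).2.2
  · intro z _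
    funext l
    rcases l with i | i <;> rfl
  · intro p _
    rfl
  · intro z _
    congr 1
    funext l
    rcases l with i | i <;> rfl

end C2rx

open C2x C2rx in
/-- Minor arcs when the form is diagonal plus low rank on many variables, restricted. -/
theorem t_C2r (h1 : S_BSr) (h2 : S_FL) : S_C2r := by
  classical
  intro k hk s A P Q K hK hA hd a b hab M v
  have hb0 : 0 < bb k := by unfold bb; positivity
  set N := 80 * bb k ^ 2 with hN
  have hN0 : 0 < N := by positivity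
  -- the constants of the two-variable sums
  have hex : ∀ i : Fin s, ∃ C : ℝ, 0 < C ∧ (i ∈ K → ∀ (j : ℕ) (α : ℝ) (c : ℤ) (q : ℕ), 0 < q →
      IsCoprime c (q : ℤ) → |α - (c : ℝ) / q| ≤ 1 / (q : ℝ) ^ 2 → 2 ^ j ≤ q ^ 10 →
      q ^ 10 * 2 ^ j ≤ 2 ^ (10 * (4 * k) * j) → ∀ θ : ℝ,
      ‖∑ x ∈ C2rx.Tr a b M v j i, e (α * ((A i i - ∑ m, P i m * Q i m : ℤ) : ℝ) *
        ((x.1 : ℝ) * x.2) ^ (2 * k) + θ * ((x.1 : ℝ) * x.2) ^ k)‖ ^ N * 2 ^ j ≤
        C * 2 ^ (160 * bb k ^ 2 * j)) := by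
    intro i
    by_cases hi : i ∈ K
    · obtain ⟨C, hC, hC2⟩ := h1 k hk (A i i - ∑ m, P i m * Q i m) (sub_ne_zero.2 (hd i hi))
        (a (Sum.inl i)) (b (Sum.inl i)) (a (Sum.inr i)) (b (Sum.inr i)) (hab _) (hab _)
        M (v (Sum.inl i)) (v (Sum.inr i))
      refine ⟨C, hC, fun _ j α c q hq hc hα h3 h4 θ => ?_⟩
      have h5 := hC2 j α c q hq hc hα h3 h4 θ
      rw [C2rx.Tr, Finset.sum_product]
      exact h5
    · exact ⟨1, one_pos, fun h => absurd h hi⟩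
  choose Cf hCf0 hCf using hex
  -- bounds for the coordinates
  set c0 : ℕ := ∑ l, ((a l).natAbs + (b l).natAbs) with hc0
  have ha0 : ∀ l, |a l| ≤ (c0 : ℤ) := by
    intro l
    have h3 : (a l).natAbs + (b l).natAbs ≤ c0 :=
      Finset.single_le_sum (f := fun l => (a l).natAbs + (b l).natAbs) (fun _ _ => Nat.zero_le _)
        (Finset.mem_univ l)
    rw [Int.abs_eq_natAbs]
    exact_mod_cast (by omega)
  have hb1 : ∀ l, |b l| ≤ (c0 : ℤ) := by
    intro l
    have h3 : (a l).natAbs + (b l).natAbs ≤ c0 :=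
      Finset.single_le_sum (f := fun l => (a l).natAbs + (b l).natAbs) (fun _ _ => Nat.zero_le _)
        (Finset.mem_univ l)
    rw [Int.abs_eq_natAbs]
    exact_mod_cast (by omega)
  set c2 : ℕ := ∑ i, ∑ m, ((P i m).natAbs + (Q i m).natAbs) with hc2
  set c1 : ℕ := c2 * c0 ^ (2 * k) with hc1
  set CP : ℝ := ∏ i ∈ K, Cf i with hCP
  have hCP0 : 0 ≤ CP := Finset.prod_nonneg fun i _ => (hCf0 i).le
  obtain ⟨j0, hj0⟩ := pow_unbounded_of_one_lt
    (((4 * (c0 : ℝ) ^ 2) ^ (Kᶜ.card) * (2 * (c1 : ℝ) + 1) ^ r1 k) ^ N * CP)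
    (one_lt_two (α := ℝ))
  refine ⟨j0, fun j hj α c q hq hc hα hq1 hq2 => ?_⟩
  set t : ℝ := 2 ^ j with ht
  have ht1 : 1 ≤ t := one_le_pow₀ one_le_two
  have ht0 : 0 < t := by linarith
  have htj : ((4 * (c0 : ℝ) ^ 2) ^ (Kᶜ.card) * (2 * (c1 : ℝ) + 1) ^ r1 k) ^ N * CP ≤ t :=
    hj0.le.trans (pow_le_pow_right₀ one_le_two hj)
  -- the bound for the sum over one pair
  set Bd : Fin s → ℝ := fun i => (Cf i * (t ^ (2 * N) / t)) ^ ((N : ℝ)⁻¹) with hBd
  have hpos : ∀ i, 0 ≤ Cf i * (t ^ (2 * N) / t) := fun i =>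
    mul_nonneg (hCf0 i).le (by positivity)
  have hBd0 : ∀ i, 0 ≤ Bd i := fun i => Real.rpow_nonneg (hpos i) _
  have hBdN : ∀ i, Bd i ^ N = Cf i * (t ^ (2 * N) / t) := fun i =>
    Real.rpow_inv_natCast_pow (hpos i) hN0.ne'
  have hone : ∀ i ∈ K, ∀ θ : ℝ, ‖∑ x ∈ C2rx.Tr a b M v j i,
      e (α * ((A i i - ∑ m, P i m * Q i m : ℤ) : ℝ) *
      ((x.1 : ℝ) * x.2) ^ (2 * k) + θ * ((x.1 : ℝ) * x.2) ^ k)‖ ≤ Bd i := by
    intro i hi θ
    have h3 := hCf i hi j α c q hq hc hα hq1 hq2 θ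
    refine (pow_le_pow_iff_left₀ (norm_nonneg _) (hBd0 i) hN0.ne').1 ?_
    rw [hBdN]
    have h4 : (2 : ℝ) ^ (160 * bb k ^ 2 * j) = t ^ (2 * N) := by
      rw [ht, ← pow_mul, hN]
      congr 1
      ring
    rw [h4, ← ht] at h3
    rw [← mul_div_assoc, le_div_iff₀ ht0]
    exact h3
  -- the bound for the forms
  have hX : ∀ y : Fin s → ℤ × ℤ, ∀ p ∈ Fintype.piFinset
      (fun i => if i ∈ K then C2rx.Tr a b M v j i else {y i}), ∀ i ∈ K,
      |X k p i| ≤ ((c0 ^ (2 * k) * 2 ^ (2 * k * j) : ℕ) : ℤ) := by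
    intro y p hp i hi
    rw [Fintype.mem_piFinset] at hp
    have h3 := hp i
    rw [if_pos hi] at h3
    replace h3 := Tr_sub a b M v j i h3
    rw [C2x.T, Finset.mem_product] at h3
    have h4 : |(p i).1| ≤ (c0 : ℤ) * 2 ^ j := coord (ha0 _) (hb1 _) (by positivity) h3.1
    have h5 : |(p i).2| ≤ (c0 : ℤ) * 2 ^ j := coord (ha0 _) (hb1 _) (by positivity) h3.2
    have h6 : |(p i).1 * (p i).2| ≤ ((c0 : ℤ) * 2 ^ j) * ((c0 : ℤ) * 2 ^ j) := by
      rw [abs_mul]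
      exact mul_le_mul h4 h5 (abs_nonneg _) (by positivity)
    unfold X
    rw [abs_pow]
    refine (pow_le_pow_left₀ (abs_nonneg _) h6 k).trans (le_of_eq ?_)
    push_cast
    ring
  have hform : ∀ (R : Fin s → Fin (r1 k) → ℤ),
      (∀ m, ∑ i ∈ K, |R i m| ≤ (c2 : ℤ)) → ∀ y : Fin s → ℤ × ℤ,
      ∀ p ∈ Fintype.piFinset (fun i => if i ∈ K then C2rx.Tr a b M v j i else {y i}), ∀ m,
      |∑ i ∈ K, R i m * X k p i| ≤ ((c1 * 2 ^ (2 * k * j) : ℕ) : ℤ) := by
    intro R hR y p hp m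
    calc |∑ i ∈ K, R i m * X k p i| ≤ ∑ i ∈ K, |R i m * X k p i| := Finset.abs_sum_le_sum_abs _ _
      _ ≤ ∑ i ∈ K, |R i m| * ((c0 ^ (2 * k) * 2 ^ (2 * k * j) : ℕ) : ℤ) := by
          refine Finset.sum_le_sum fun i hi => ?_
          rw [abs_mul]
          exact mul_le_mul_of_nonneg_left (hX y p hp i hi) (abs_nonneg _)
      _ = (∑ i ∈ K, |R i m|) * ((c0 ^ (2 * k) * 2 ^ (2 * k * j) : ℕ) : ℤ) := by
          rw [Finset.sum_mul]
      _ ≤ (c2 : ℤ) * ((c0 ^ (2 * k) * 2 ^ (2 * k * j) : ℕ) : ℤ) :=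
          mul_le_mul_of_nonneg_right (hR m) (Int.natCast_nonneg _)
      _ = ((c1 * 2 ^ (2 * k * j) : ℕ) : ℤ) := by
          rw [hc1]; push_cast; ring
  have hPm : ∀ m, ∑ i ∈ K, |P i m| ≤ (c2 : ℤ) := by
    intro m
    rw [hc2]
    push_cast
    calc ∑ i ∈ K, |P i m| ≤ ∑ i, |P i m| :=
          Finset.sum_le_sum_of_subset_of_nonneg (Finset.subset_univ _) fun _ _ _ => abs_nonneg _
      _ ≤ ∑ i, ∑ m, (|P i m| + |Q i m|) := by
          refine Finset.sum_le_sum fun i _ => ?_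
          refine le_trans ?_ (Finset.single_le_sum (f := fun m => |P i m| + |Q i m|)
            (fun _ _ => by positivity) (Finset.mem_univ m))
          have := abs_nonneg (Q i m)
          linarith
  have hQm : ∀ m, ∑ i ∈ K, |Q i m| ≤ (c2 : ℤ) := by
    intro m
    rw [hc2]
    push_cast
    calc ∑ i ∈ K, |Q i m| ≤ ∑ i, |Q i m| :=
          Finset.sum_le_sum_of_subset_of_nonneg (Finset.subset_univ _) fun _ _ _ => abs_nonneg _
      _ ≤ ∑ i, ∑ m, (|P i m| + |Q i m|) := by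
          refine Finset.sum_le_sum fun i _ => ?_
          refine le_trans ?_ (Finset.single_le_sum (f := fun m => |P i m| + |Q i m|)
            (fun _ _ => by positivity) (Finset.mem_univ m))
          have := abs_nonneg (P i m)
          linarith
  -- the whole sum
  have hsum : ‖Sjr (G2 A k) a b M v j α‖ ≤ ((4 * (c0 : ℝ) ^ 2) * t ^ 2) ^ Kᶜ.card *
      (((2 * (c1 : ℝ) + 1) * t ^ (2 * k)) ^ r1 k * ∏ i ∈ K, Bd i) := by
    have h3 : Sjr (G2 A k) a b M v j α = ∑ p ∈ Fintype.piFinset (C2rx.Tr a b M v j),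
        e (α * ((∑ i, ∑ l, A i l * X k p i * X k p l : ℤ) : ℝ)) := by
      rw [Sjr, sum_boxr]
      refine Finset.sum_congr rfl fun p _ => ?_
      rw [eval_G2]
    rw [h3, sum_fib (C2rx.Tr a b M v j)
      (fun i => (a (Sum.inl i) * 2 ^ j, a (Sum.inr i) * 2 ^ j)) K]
    refine (norm_sum_le _ _).trans ?_
    have h4 : ∀ y ∈ Fintype.piFinset (fun i => if i ∈ K then
        {((a (Sum.inl i) * 2 ^ j, a (Sum.inr i) * 2 ^ j) : ℤ × ℤ)} else C2rx.Tr a b M v j i),
        ‖∑ p ∈ Fintype.piFinset (fun i => if i ∈ K then C2rx.Tr a b M v j i else {y i}),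
          e (α * ((∑ i, ∑ l, A i l * X k p i * X k p l : ℤ) : ℝ))‖ ≤
        ((2 * (c1 : ℝ) + 1) * t ^ (2 * k)) ^ r1 k * ∏ i ∈ K, Bd i := by
      intro y _
      have h5 := inner h2 k A P Q K hA (C2rx.Tr a b M v j) y α (c1 * 2 ^ (2 * k * j)) Bd hone
        (fun i _ => hBd0 i) (hform P hPm y) (hform Q hQm y)
      refine h5.trans ?_
      have h6 : (2 * ((c1 * 2 ^ (2 * k * j) : ℕ) : ℝ) + 1) ≤ (2 * (c1 : ℝ) + 1) * t ^ (2 * k) := by
        have h7 : (1 : ℝ) ≤ t ^ (2 * k) := one_le_pow₀ ht1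
        have h8 : ((c1 * 2 ^ (2 * k * j) : ℕ) : ℝ) = c1 * t ^ (2 * k) := by
          push_cast
          rw [ht, ← pow_mul]
          congr 2
          ring
        rw [h8]
        nlinarith [Nat.cast_nonneg (α := ℝ) c1]
      have h9 : 0 ≤ ∏ i ∈ K, Bd i := Finset.prod_nonneg fun i _ => hBd0 i
      gcongr
    refine (Finset.sum_le_card_nsmul _ _ _ h4).trans ?_
    rw [nsmul_eq_mul]
    have h9 : 0 ≤ ∏ i ∈ K, Bd i := Finset.prod_nonneg fun i _ => hBd0 i
    refine mul_le_mul_of_nonneg_right ?_ (by positivity)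
    rw [Fintype.card_piFinset]
    have h10 : ∀ i, ((if i ∈ K then
        {((a (Sum.inl i) * 2 ^ j, a (Sum.inr i) * 2 ^ j) : ℤ × ℤ)} else C2rx.Tr a b M v j i).card : ℝ) ≤
        if i ∈ K then 1 else (4 * (c0 : ℝ) ^ 2) * t ^ 2 := by
      intro i
      by_cases hi : i ∈ K
      · rw [if_pos hi, if_pos hi, Finset.card_singleton]
        norm_num
      · rw [if_neg hi, if_neg hi]
        refine (Nat.cast_le.2 (Finset.card_le_card (Tr_sub a b M v j i))).trans ?_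
        rw [C2x.T, Finset.card_product, Int.card_Ico, Int.card_Ico]
        have h11 : ∀ l : Fin s ⊕ Fin s, ((b l * 2 ^ j - a l * 2 ^ j).toNat : ℝ) ≤ 2 * c0 * t := by
          intro l
          have h12 : ((b l * 2 ^ j - a l * 2 ^ j).toNat : ℤ) ≤ 2 * c0 * 2 ^ j := by
            have h13 := abs_le.1 (ha0 l)
            have h14 := abs_le.1 (hb1 l)
            have h15 : (0 : ℤ) < 2 ^ j := by positivity
            have h16 := hab l
            rw [Int.toNat_of_nonneg (by nlinarith)]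
            nlinarith
          have h17 : (((b l * 2 ^ j - a l * 2 ^ j).toNat : ℤ) : ℝ) ≤
              ((2 * c0 * 2 ^ j : ℤ) : ℝ) := Int.cast_le.2 h12
          push_cast at h17
          exact h17
        push_cast
        have h18 := h11 (Sum.inl i)
        have h19 := h11 (Sum.inr i)
        calc ((b (Sum.inl i) * 2 ^ j - a (Sum.inl i) * 2 ^ j).toNat : ℝ) *
            ((b (Sum.inr i) * 2 ^ j - a (Sum.inr i) * 2 ^ j).toNat : ℝ)
            ≤ (2 * c0 * t) * (2 * c0 * t) := mul_le_mul h18 h19 (Nat.cast_nonneg _) (by positivity)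
          _ = (4 * (c0 : ℝ) ^ 2) * t ^ 2 := by ring
    push_cast
    refine (Finset.prod_le_prod (fun i _ => Nat.cast_nonneg _) fun i _ => h10 i).trans
      (le_of_eq ?_)
    rw [Finset.prod_ite, Finset.prod_const_one, one_mul, Finset.prod_const]
    congr 2
    ext i
    simp
  have hfin := final (4 * (c0 : ℝ) ^ 2) (2 * (c1 : ℝ) + 1) CP t ‖Sjr (G2 A k) a b M v j α‖ s K.card
    Kᶜ.card k (r1 k) N (4 * k + 1) hN0 (by positivity) (by positivity) hCP0 ht1
    (by rw [Finset.card_add_card_compl, Fintype.card_fin]) ((numerics k hk).trans hK)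
    (norm_nonneg _) htj ?_
  · rw [Fintype.card_sum, Fintype.card_fin, mul_comm (4 * k + 1) j, mul_comm (s + s) j, pow_mul,
      pow_mul, ← ht]
    exact hfin
  · have h20 := pow_le_pow_left₀ (norm_nonneg _) hsum N
    refine h20.trans (le_of_eq ?_)
    have h21 : (∏ i ∈ K, Bd i) ^ N = CP * (t ^ (2 * N) / t) ^ K.card := by
      rw [← Finset.prod_pow, Finset.prod_congr rfl fun i _ => hBdN i, Finset.prod_mul_distrib,
        Finset.prod_const]
    rw [← h21]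
    ring

end Pool.Agent.helper132_hp
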