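import Pool.Agent.helper132_hp.Stmts2
import Pool.Agent.helper132_hp.T_DEC

/-! Decay of the restricted complete sums and the major arc bound for the restricted sums. -/

namespace Pool.Agent.helper132_hp

open Finset

namespace DECrx

open DECx

variable {ι : Type} [Fintype ι] [DecidableEq ι]

lemma norm_Cqr_le (G : MvPolynomial ι ℤ) (M : ℕ) (v : ι → ℤ) (q : ℕ) (c : ℤ) :
    ‖Cqr G M v q c‖ ≤ ((q : ℝ) * M) ^ Fintype.card ι := by
  unfold Cqr
  refine (norm_sum_le _ _).trans ?_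
  simp only [norm_e, Finset.sum_const, nsmul_eq_mul, mul_one]
  have h1 := Finset.card_filter_le (res ι (q * M)) (fun w => ∀ l, (M : ℤ) ∣ w l - v l)
  have h2 : (res ι (q * M)).card = (q * M) ^ Fintype.card ι := by
    unfold res
    rw [Fintype.card_piFinset]
    simp only [Int.card_Ico, sub_zero, Int.toNat_natCast, Finset.prod_const, Finset.card_univ]
  rw [h2] at h1
  exact_mod_cast h1

/-- first part. -/
lemma cdecr (h1 : S_RLr) (G : MvPolynomial ι ℤ) (D : ℕ) (hD : 2 ≤ D) (hG : G.IsHomogeneous D)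
    (a b : ι → ℤ) (hab : ∀ l, a l < b l) (M : ℕ) (v : ι → ℤ) (hM : 1 ≤ M)
    (hcr : Cruder G D a b M v) : CDecr G M v := by
  obtain ⟨j0, hj0⟩ := hcr
  obtain ⟨C0, hC0⟩ := h1 ι G D (by omega) hG a b hab M v hM
  set C : ℝ := max C0 0 with hC
  have hCnn : 0 ≤ C := le_max_right _ _
  have hCle : C0 ≤ C := le_max_left _ _
  set J : ℕ := max j0 1 with hJ
  refine ⟨(2 ^ J + (2 + 2 * C)) * (M : ℝ) ^ Fintype.card ι, ?_⟩
  intro q c hq hcop
  have hq1 : (1 : ℝ) ≤ q := by exact_mod_cast hq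
  have hM1 : (1 : ℝ) ≤ M := by exact_mod_cast hM
  have hqn : (0 : ℝ) ≤ ((q : ℝ) * M) ^ Fintype.card ι := by positivity
  have hsplit : (2 ^ J + (2 + 2 * C)) * (M : ℝ) ^ Fintype.card ι * (q : ℝ) ^ Fintype.card ι =
      (2 ^ J + (2 + 2 * C)) * ((q : ℝ) * M) ^ Fintype.card ι := by
    rw [mul_pow]; ring
  rw [hsplit]
  by_cases hcase : q ^ 10 < 2 ^ J
  · have hq9 : (q : ℝ) ^ 9 ≤ 2 ^ J := by
      have h2 : (q : ℝ) ^ 10 ≤ 2 ^ J := by exact_mod_cast hcase.le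
      have h3 : (q : ℝ) ^ 9 ≤ (q : ℝ) ^ 10 := pow_le_pow_right₀ hq1 (by norm_num)
      linarith
    have h4 : ‖Cqr G M v q c‖ * (q : ℝ) ^ 9 ≤ ((q : ℝ) * M) ^ Fintype.card ι * 2 ^ J :=
      mul_le_mul (norm_Cqr_le G M v q c) hq9 (by positivity) hqn
    have h5 : 0 ≤ (2 + 2 * C) * ((q : ℝ) * M) ^ Fintype.card ι := by positivity
    nlinarith
  · push Not at hcase
    set j : ℕ := Nat.log 2 (q ^ 10) with hj
    have hq10 : q ^ 10 ≠ 0 := by positivity
    have hj1 : 2 ^ j ≤ q ^ 10 := Nat.pow_log_le_self 2 hq10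
    have hj2 : q ^ 10 < 2 ^ (j + 1) := Nat.lt_pow_succ_log_self (by norm_num) _
    have hJj : J ≤ j := by
      have : 2 ^ J < 2 ^ (j + 1) := lt_of_le_of_lt hcase hj2
      have := (Nat.pow_lt_pow_iff_right (by norm_num : 1 < 2)).1 this
      omega
    have hjj0 : j0 ≤ j := le_trans (le_max_left _ _) hJj
    have hj1' : 1 ≤ j := le_trans (le_max_right _ _) hJj
    have hup : q ^ 10 * 2 ^ j ≤ 2 ^ (10 * D * j) := by
      calc q ^ 10 * 2 ^ j ≤ 2 ^ (j + 1) * 2 ^ j := Nat.mul_le_mul_right _ hj2.le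
        _ = 2 ^ (2 * j + 1) := by rw [← pow_add]; congr 1; ring
        _ ≤ 2 ^ (10 * D * j) := Nat.pow_le_pow_right (by norm_num) (by nlinarith)
    have hcrj := hj0 j hjj0 ((c : ℝ) / q) c q hq hcop (by simp) hj1 hup
    have hrl := hC0 j q c 0 hq
    simp only [add_zero, abs_zero, zero_mul, mul_one] at hrl
    -- lower bound for the main term
    have hQ : (0 : ℝ) < ((q : ℝ) * M) ^ Fintype.card ι := by positivity
    have hN : (0 : ℝ) < (2 : ℝ) ^ (Fintype.card ι * j) := by positivity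
    have hcast : ‖((q * M : ℕ) : ℂ)‖ = (q : ℝ) * M := by
      rw [Complex.norm_natCast]
      push_cast
      ring
    have hmain : ‖Cqr G M v q c / ((q * M : ℕ) : ℂ) ^ Fintype.card ι * Sj G a b j 0‖ =
        ‖Cqr G M v q c‖ / ((q : ℝ) * M) ^ Fintype.card ι *
          (vol a b * 2 ^ (Fintype.card ι * j)) := by
      rw [norm_mul, norm_div, norm_pow, Sj_zero G a b hab j, hcast]
    have htri : ‖Cqr G M v q c / ((q * M : ℕ) : ℂ) ^ Fintype.card ι * Sj G a b j 0‖ ≤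
        ‖Sjr G a b M v j ((c : ℝ) / q)‖ + C * 2 ^ (Fintype.card ι * j) * (q / 2 ^ j) := by
      have h2 : ‖Cqr G M v q c / ((q * M : ℕ) : ℂ) ^ Fintype.card ι * Sj G a b j 0‖ ≤
          ‖Sjr G a b M v j ((c : ℝ) / q)‖ + ‖Sjr G a b M v j ((c : ℝ) / q) -
            Cqr G M v q c / ((q * M : ℕ) : ℂ) ^ Fintype.card ι * Sj G a b j 0‖ := by
        have := norm_sub_le (Sjr G a b M v j ((c : ℝ) / q)) (Sjr G a b M v j ((c : ℝ) / q) -
            Cqr G M v q c / ((q * M : ℕ) : ℂ) ^ Fintype.card ι * Sj G a b j 0)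
        rwa [sub_sub_cancel] at this
      have h3 : C0 * 2 ^ (Fintype.card ι * j) * ((q : ℝ) / 2 ^ j) ≤
          C * 2 ^ (Fintype.card ι * j) * (q / 2 ^ j) := by
        apply mul_le_mul_of_nonneg_right _ (by positivity)
        exact mul_le_mul_of_nonneg_right hCle hN.le
      linarith
    -- sizes
    have hpow2 : (q : ℝ) ^ 10 ≤ 2 * 2 ^ j := by
      have h3 : (q : ℝ) ^ 10 ≤ 2 ^ (j + 1) := by exact_mod_cast hj2.le
      have h4 : (2 : ℝ) ^ (j + 1) = 2 ^ j * 2 := pow_succ 2 j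
      linarith
    have h2j : (0 : ℝ) < 2 ^ j := by positivity
    have hS : ‖Sjr G a b M v j ((c : ℝ) / q)‖ * 2 ^ j ≤ 2 ^ (Fintype.card ι * j) := by
      have h3 : (2 : ℝ) ^ j ≤ 2 ^ ((D + 1) * j) := by
        apply pow_le_pow_right₀ (by norm_num)
        nlinarith
      calc ‖Sjr G a b M v j ((c : ℝ) / q)‖ * 2 ^ j ≤
          ‖Sjr G a b M v j ((c : ℝ) / q)‖ * 2 ^ ((D + 1) * j) :=
            mul_le_mul_of_nonneg_left h3 (norm_nonneg _)
        _ ≤ _ := hcrj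
    set X : ℝ := ‖Cqr G M v q c‖ / ((q : ℝ) * M) ^ Fintype.card ι with hX
    have hXnn : 0 ≤ X := by positivity
    have hkey : X * 2 ^ j ≤ 1 + C * q := by
      have h4 : X * 2 ^ (Fintype.card ι * j) ≤
          X * (vol a b * 2 ^ (Fintype.card ι * j)) := by
        apply mul_le_mul_of_nonneg_left _ hXnn
        have := one_le_vol a b hab
        nlinarith
      have h5 : X * 2 ^ (Fintype.card ι * j) ≤
          ‖Sjr G a b M v j ((c : ℝ) / q)‖ + C * 2 ^ (Fintype.card ι * j) * (q / 2 ^ j) := by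
        rw [hmain] at htri
        linarith
      have h6 : X * 2 ^ (Fintype.card ι * j) * 2 ^ j ≤
          2 ^ (Fintype.card ι * j) + C * 2 ^ (Fintype.card ι * j) * q := by
        have h7 : C * 2 ^ (Fintype.card ι * j) * ((q : ℝ) / 2 ^ j) * 2 ^ j =
            C * 2 ^ (Fintype.card ι * j) * q := by
          field_simp
        have h8 := mul_le_mul_of_nonneg_right h5 h2j.le
        rw [add_mul, h7] at h8
        linarith
      have h9 : (X * 2 ^ j) * 2 ^ (Fintype.card ι * j) ≤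
          (1 + C * q) * 2 ^ (Fintype.card ι * j) := by
        nlinarith
      exact le_of_mul_le_mul_right h9 hN
    have hfin : X * (q : ℝ) ^ 9 ≤ 2 + 2 * C := by
      have h10 : X * (q : ℝ) ^ 10 ≤ 2 * (1 + C * q) := by
        calc X * (q : ℝ) ^ 10 ≤ X * (2 * 2 ^ j) := mul_le_mul_of_nonneg_left hpow2 hXnn
          _ = 2 * (X * 2 ^ j) := by ring
          _ ≤ _ := by linarith
      have h11 : (X * (q : ℝ) ^ 9) * q ≤ (2 + 2 * C) * q := by
        have : X * (q : ℝ) ^ 10 = (X * (q : ℝ) ^ 9) * q := by ring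
        nlinarith
      exact le_of_mul_le_mul_right h11 (by linarith)
    have hXQ : ‖Cqr G M v q c‖ = X * ((q : ℝ) * M) ^ Fintype.card ι := by
      rw [hX]; field_simp
    rw [hXQ]
    have h12 : X * ((q : ℝ) * M) ^ Fintype.card ι * (q : ℝ) ^ 9 =
        (X * (q : ℝ) ^ 9) * ((q : ℝ) * M) ^ Fintype.card ι := by ring
    rw [h12]
    apply mul_le_mul_of_nonneg_right _ hqn
    have : (0 : ℝ) ≤ 2 ^ J := by positivity
    linarith

end DECrx

theorem t_DECr (h1 : S_RLr) (h2 : S_DEC) : S_DECr := by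
  intro ι _ _ G D hD hG a b hab M v hM hcr hcrr
  have hcd : CDecr G M v := DECrx.cdecr h1 G D hD hG a b hab M v hM hcrr
  refine ⟨hcd, ?_⟩
  obtain ⟨C1, hC1⟩ := hcd
  obtain ⟨-, C2', hC2'⟩ := h2 ι G D hD hG a b hab hcr
  obtain ⟨C0, hC0⟩ := h1 ι G D (by omega) hG a b hab M v hM
  set K1 : ℝ := max C1 0 with hK1
  have hK1nn : 0 ≤ K1 := le_max_right _ _
  have hK1le : C1 ≤ K1 := le_max_left _ _
  set K0 : ℝ := max C0 0 with hK0
  have hK0nn : 0 ≤ K0 := le_max_right _ _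
  have hK0le : C0 ≤ K0 := le_max_left _ _
  set C2 : ℝ := max C2' 0 with hC2
  have hC2nn : 0 ≤ C2 := le_max_right _ _
  have hC2le : C2' ≤ C2 := le_max_left _ _
  refine ⟨K1 * C2 + K0, ?_⟩
  intro j q c β hq hcop hqj hYj
  set Y : ℝ := |β| * 2 ^ (D * j) with hY
  have hYnn : 0 ≤ Y := by positivity
  set N : ℝ := (2 : ℝ) ^ (Fintype.card ι * j) with hN
  have hNpos : 0 < N := by positivity
  have hqr : (0 : ℝ) < q := by exact_mod_cast hq
  have hq1 : (1 : ℝ) ≤ q := by exact_mod_cast hq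
  have hM1 : (1 : ℝ) ≤ M := by exact_mod_cast hM
  have h2j : (0 : ℝ) < 2 ^ j := by positivity
  have hrl := hC0 j q c β hq
  rw [← hY, ← hN] at hrl
  have hcast : ‖((q * M : ℕ) : ℂ)‖ = (q : ℝ) * M := by
    rw [Complex.norm_natCast]
    push_cast
    ring
  have hCq : ‖Cqr G M v q c‖ / ((q : ℝ) * M) ^ Fintype.card ι ≤ K1 / (q : ℝ) ^ 9 := by
    rw [div_le_div_iff₀ (by positivity) (by positivity)]
    have h3 := hC1 q c hq hcop
    have h4 : C1 * (q : ℝ) ^ Fintype.card ι ≤ K1 * (q : ℝ) ^ Fintype.card ι :=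
      mul_le_mul_of_nonneg_right hK1le (by positivity)
    have h5 : (q : ℝ) ^ Fintype.card ι ≤ ((q : ℝ) * M) ^ Fintype.card ι := by
      apply pow_le_pow_left₀ hqr.le
      nlinarith
    have h6 : K1 * (q : ℝ) ^ Fintype.card ι ≤ K1 * ((q : ℝ) * M) ^ Fintype.card ι :=
      mul_le_mul_of_nonneg_left h5 hK1nn
    linarith
  set A0 : ℝ := 1 / (1 + Y) ^ 9 with hA0
  have hA0nn : 0 ≤ A0 := by positivity
  set E0 : ℝ := (1 + Y) / 2 ^ j with hE0
  have hE0nn : 0 ≤ E0 := by positivity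
  have hS : ‖Sj G a b j β‖ ≤ C2 * N * (A0 + E0) := by
    have hcop1 : IsCoprime (0 : ℤ) ((1 : ℕ) : ℤ) := by
      rw [Nat.cast_one]
      exact isCoprime_one_right
    have h3 := hC2' j 1 0 β (by norm_num) hcop1 (by simpa using Nat.one_le_two_pow) hYj
    have e1 : ((0 : ℤ) : ℝ) / ((1 : ℕ) : ℝ) + β = β := by simp
    rw [e1, ← hY, ← hN] at h3
    have e2 : (1 / ((((1 : ℕ) : ℝ)) ^ 9 * (1 + Y) ^ 9) + ((1 : ℕ) : ℝ) * (1 + Y) / 2 ^ j) =
        A0 + E0 := by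
      rw [hA0, hE0, Nat.cast_one, one_pow, one_mul, one_mul]
    rw [e2] at h3
    refine h3.trans ?_
    apply mul_le_mul_of_nonneg_right _ (by positivity)
    exact mul_le_mul_of_nonneg_right hC2le hNpos.le
  have hmain : ‖Cqr G M v q c / ((q * M : ℕ) : ℂ) ^ Fintype.card ι * Sj G a b j β‖ ≤
      K1 * C2 * N * (1 / ((q : ℝ) ^ 9 * (1 + Y) ^ 9) + (q : ℝ) * (1 + Y) / 2 ^ j) := by
    rw [norm_mul, norm_div, norm_pow, hcast]
    have h3 : ‖Cqr G M v q c‖ / ((q : ℝ) * M) ^ Fintype.card ι * ‖Sj G a b j β‖ ≤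
        K1 / (q : ℝ) ^ 9 * (C2 * N * (A0 + E0)) :=
      mul_le_mul hCq hS (norm_nonneg _) (by positivity)
    refine h3.trans ?_
    have h4 : K1 / (q : ℝ) ^ 9 * (C2 * N * (A0 + E0)) =
        K1 * C2 * N * (1 / (q : ℝ) ^ 9 * A0 + 1 / (q : ℝ) ^ 9 * E0) := by
      field_simp
    rw [h4]
    apply mul_le_mul_of_nonneg_left _ (by positivity)
    have h5 : 1 / (q : ℝ) ^ 9 * A0 = 1 / ((q : ℝ) ^ 9 * (1 + Y) ^ 9) := by
      rw [hA0]; field_simp
    have h6 : 1 / (q : ℝ) ^ 9 * E0 ≤ (q : ℝ) * (1 + Y) / 2 ^ j := by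
      have h7 : 1 / (q : ℝ) ^ 9 ≤ 1 := by
        rw [div_le_one (by positivity)]
        exact one_le_pow₀ hq1
      calc 1 / (q : ℝ) ^ 9 * E0 ≤ 1 * E0 := mul_le_mul_of_nonneg_right h7 hE0nn
        _ ≤ q * E0 := mul_le_mul_of_nonneg_right hq1 hE0nn
        _ = (q : ℝ) * (1 + Y) / 2 ^ j := by rw [hE0]; ring
    linarith
  have htri : ‖Sjr G a b M v j ((c : ℝ) / q + β)‖ ≤
      ‖Cqr G M v q c / ((q * M : ℕ) : ℂ) ^ Fintype.card ι * Sj G a b j β‖ +
      ‖Sjr G a b M v j ((c : ℝ) / q + β) -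
        Cqr G M v q c / ((q * M : ℕ) : ℂ) ^ Fintype.card ι * Sj G a b j β‖ := by
    have := norm_add_le (Cqr G M v q c / ((q * M : ℕ) : ℂ) ^ Fintype.card ι * Sj G a b j β)
      (Sjr G a b M v j ((c : ℝ) / q + β) -
        Cqr G M v q c / ((q * M : ℕ) : ℂ) ^ Fintype.card ι * Sj G a b j β)
    rwa [add_sub_cancel] at this
  have hE : 0 ≤ (q : ℝ) * (1 + Y) / 2 ^ j := by positivity
  have hE2 : C0 * N * ((q : ℝ) * (1 + Y) / 2 ^ j) ≤ K0 * N * ((q : ℝ) * (1 + Y) / 2 ^ j) := by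
    apply mul_le_mul_of_nonneg_right _ hE
    exact mul_le_mul_of_nonneg_right hK0le hNpos.le
  have hx2 : 0 ≤ K0 * N * (1 / ((q : ℝ) ^ 9 * (1 + Y) ^ 9)) := by positivity
  calc ‖Sjr G a b M v j ((c : ℝ) / q + β)‖ ≤
      K1 * C2 * N * (1 / ((q : ℝ) ^ 9 * (1 + Y) ^ 9) + (q : ℝ) * (1 + Y) / 2 ^ j) +
        K0 * N * ((q : ℝ) * (1 + Y) / 2 ^ j) := by linarith
    _ ≤ (K1 * C2 + K0) * N * (1 / ((q : ℝ) ^ 9 * (1 + Y) ^ 9) + (q : ℝ) * (1 + Y) / 2 ^ j) := by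
        nlinarith

end Pool.Agent.helper132_hp
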