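import Pool.Agent.helper132_hp.Stmts2
import Pool.Agent.helper132_hp.T_DENS

/-! Project HPK2, task DENSr: product of the p-adic densities in a residue class. -/

set_option autoImplicit false

namespace Pool.Agent.helper132_hp

open Finset

namespace DENSrx

variable {ι : Type} [Fintype ι] [DecidableEq ι]

/-- Lower bound by the Chinese remainder theorem. -/
theorem mul_le (G : MvPolynomial ι ℤ) (M1 M2 W1 W2 : ℕ) (v : ι → ℤ) (hW1 : 0 < W1) (hW2 : 0 < W2)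
    (hco : Nat.Coprime W1 W2) (h1 : M1 ∣ W1) (h2 : M2 ∣ W2) :
    Mqr G M1 v W1 * Mqr G M2 v W2 ≤ Mqr G (M1 * M2) v (W1 * W2) := by
  classical
  unfold Mqr
  rw [← card_product]
  obtain ⟨a, b, hab⟩ : IsCoprime (W1 : ℤ) (W2 : ℤ) := Nat.isCoprime_iff_coprime.2 hco
  have hM1 : (M1 : ℤ) ∣ (W1 : ℤ) := by exact_mod_cast h1
  have hM2 : (M2 : ℤ) ∣ (W2 : ℤ) := by exact_mod_cast h2
  have hcoM : IsCoprime (M1 : ℤ) (M2 : ℤ) :=
    Nat.isCoprime_iff_coprime.2 (Nat.Coprime.of_dvd h1 h2 hco)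
  have hcoW : IsCoprime (W1 : ℤ) (W2 : ℤ) := Nat.isCoprime_iff_coprime.2 hco
  have hWpos : (0 : ℤ) < (W1 : ℤ) * W2 := by positivity
  -- the map
  let f : (ι → ℤ) × (ι → ℤ) → (ι → ℤ) := fun w l =>
    (b * W2 * w.1 l + a * W1 * w.2 l) % ((W1 : ℤ) * W2)
  have hf1 : ∀ w l, (W1 : ℤ) ∣ f w l - w.1 l := by
    intro w l
    have e1 : ((W1 : ℤ) * W2) ∣ (b * W2 * w.1 l + a * W1 * w.2 l) - f w l :=
      Int.dvd_self_sub_emod
    obtain ⟨t, ht⟩ := e1
    refine ⟨a * w.2 l - a * w.1 l - W2 * t, ?_⟩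
    have : f w l = (b * W2 * w.1 l + a * W1 * w.2 l) - (W1 : ℤ) * W2 * t := by linarith
    rw [this]
    have hb : b * (W2 : ℤ) = 1 - a * W1 := by linarith
    rw [hb]
    ring
  have hf2 : ∀ w l, (W2 : ℤ) ∣ f w l - w.2 l := by
    intro w l
    have e1 : ((W1 : ℤ) * W2) ∣ (b * W2 * w.1 l + a * W1 * w.2 l) - f w l :=
      Int.dvd_self_sub_emod
    obtain ⟨t, ht⟩ := e1
    refine ⟨b * w.1 l - b * w.2 l - W1 * t, ?_⟩
    have : f w l = (b * W2 * w.1 l + a * W1 * w.2 l) - (W1 : ℤ) * W2 * t := by linarith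
    rw [this]
    have hb : a * (W1 : ℤ) = 1 - b * W2 := by linarith
    rw [hb]
    ring
  apply card_le_card_of_injOn f
  · intro w hw
    rw [mem_coe, mem_product, mem_filter, mem_filter] at hw
    obtain ⟨⟨hw1, hw1v, hw1G⟩, ⟨hw2, hw2v, hw2G⟩⟩ := hw
    rw [mem_coe, mem_filter]
    refine ⟨?_, ?_, ?_⟩
    · rw [DENSx.mem_res]
      intro l
      refine ⟨Int.emod_nonneg _ hWpos.ne', ?_⟩
      push_cast
      exact Int.emod_lt_of_pos _ hWpos
    · intro l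
      push_cast
      apply hcoM.mul_dvd
      · have := dvd_add (hM1.trans (hf1 w l)) (hw1v l)
        rwa [sub_add_sub_cancel] at this
      · have := dvd_add (hM2.trans (hf2 w l)) (hw2v l)
        rwa [sub_add_sub_cancel] at this
    · push_cast
      apply hcoW.mul_dvd
      · exact (dvd_iff_dvd_of_dvd_sub (DENSx.eval_congr G W1 (f w) w.1 (hf1 w))).2 hw1G
      · exact (dvd_iff_dvd_of_dvd_sub (DENSx.eval_congr G W2 (f w) w.2 (hf2 w))).2 hw2G
  · intro w hw w' hw' hww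
    rw [mem_coe, mem_product, mem_filter, mem_filter] at hw hw'
    obtain ⟨⟨hw1, -, -⟩, ⟨hw2, -, -⟩⟩ := hw
    obtain ⟨⟨hw1', -, -⟩, ⟨hw2', -, -⟩⟩ := hw'
    rw [DENSx.mem_res] at hw1 hw2 hw1' hw2'
    have aux : ∀ (W : ℕ) (x y : ℤ), 0 ≤ x → x < W → 0 ≤ y → y < W → (W : ℤ) ∣ x - y → x = y := by
      intro W x y h1 h2 h3 h4 h5
      have h6 : |x - y| < (W : ℤ) := by rw [abs_lt]; constructor <;> linarith
      have h7 := Int.eq_zero_of_abs_lt_dvd h5 h6
      linarith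
    apply Prod.ext
    · funext l
      refine aux W1 _ _ (hw1 l).1 (hw1 l).2 (hw1' l).1 (hw1' l).2 ?_
      have := dvd_sub (hf1 w' l) (hf1 w l)
      rw [hww] at this
      have h : f w' l - w'.1 l - (f w' l - w.1 l) = w.1 l - w'.1 l := by ring
      rwa [h] at this
    · funext l
      refine aux W2 _ _ (hw2 l).1 (hw2 l).2 (hw2' l).1 (hw2' l).2 ?_
      have := dvd_sub (hf2 w' l) (hf2 w l)
      rw [hww] at this
      have h : f w' l - w'.2 l - (f w' l - w.2 l) = w.2 l - w'.2 l := by ring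
      rwa [h] at this

theorem mqr_one (G : MvPolynomial ι ℤ) (v : ι → ℤ) (W : ℕ) : Mqr G 1 v W = Mq G W := by
  unfold Mqr Mq
  congr 1
  apply filter_congr
  intro w _
  simp

theorem mqr_le (G : MvPolynomial ι ℤ) (M : ℕ) (v : ι → ℤ) (W : ℕ) : Mqr G M v W ≤ Mq G W := by
  unfold Mqr Mq
  apply card_le_card
  intro w hw
  rw [mem_filter] at hw ⊢
  exact ⟨hw.1, hw.2.2⟩

theorem pdens_of (G : MvPolynomial ι ℤ) (M : ℕ) (v : ι → ℤ) (h : PDensr G M v) : PDens G := by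
  intro p hp
  obtain ⟨c, hc, hb⟩ := h p hp
  set e := M.factorization p with he
  have hp0 : 0 < p := hp.pos
  have hpr : (0 : ℝ) < p := by exact_mod_cast hp0
  have hp1 : (1 : ℝ) ≤ p := by exact_mod_cast hp0
  have hpos : 0 < Mqr G (p ^ e) v (p ^ e) := by
    rcases Nat.eq_zero_or_pos (Mqr G (p ^ e) v (p ^ e)) with h0 | h0
    · have h1 := hb e le_rfl
      rw [h0] at h1
      have h2 : 0 < c * ((p : ℝ) ^ e) ^ Fintype.card ι := by positivity
      simp at h1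
      linarith
    · exact h0
  obtain ⟨w, hw⟩ := card_pos.1 hpos
  rw [mem_filter] at hw
  refine ⟨min c (1 / ((p : ℝ) ^ e) ^ Fintype.card ι), lt_min hc (by positivity), fun m => ?_⟩
  rcases le_or_gt e m with hm | hm
  · calc min c (1 / ((p : ℝ) ^ e) ^ Fintype.card ι) * ((p : ℝ) ^ m) ^ Fintype.card ι
        ≤ c * ((p : ℝ) ^ m) ^ Fintype.card ι := by gcongr; exact min_le_left _ _
      _ ≤ Mqr G (p ^ e) v (p ^ m) * (p : ℝ) ^ m := hb m hm
      _ ≤ Mq G (p ^ m) * (p : ℝ) ^ m := by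
          gcongr
          exact mqr_le G _ v _
  · have hpm : (0 : ℤ) < ((p ^ m : ℕ) : ℤ) := by positivity
    have hMq : 1 ≤ Mq G (p ^ m) := by
      apply card_pos.2
      refine ⟨fun l => w l % ((p ^ m : ℕ) : ℤ), ?_⟩
      rw [mem_filter, DENSx.mem_res]
      refine ⟨fun l => ⟨Int.emod_nonneg _ hpm.ne', Int.emod_lt_of_pos _ hpm⟩, ?_⟩
      have hc1 : ∀ l, ((p ^ m : ℕ) : ℤ) ∣ w l - w l % ((p ^ m : ℕ) : ℤ) := fun l =>
        Int.dvd_self_sub_emod
      have hdv : ((p ^ m : ℕ) : ℤ) ∣ MvPolynomial.eval w G := by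
        refine dvd_trans ?_ hw.2.2
        exact_mod_cast pow_dvd_pow p hm.le
      exact (dvd_iff_dvd_of_dvd_sub (DENSx.eval_congr G (p ^ m) w _ hc1)).1 hdv
    have hMq' : (1 : ℝ) ≤ Mq G (p ^ m) := by exact_mod_cast hMq
    calc min c (1 / ((p : ℝ) ^ e) ^ Fintype.card ι) * ((p : ℝ) ^ m) ^ Fintype.card ι
        ≤ 1 / ((p : ℝ) ^ e) ^ Fintype.card ι * ((p : ℝ) ^ m) ^ Fintype.card ι := by
          gcongr; exact min_le_right _ _
      _ ≤ 1 / ((p : ℝ) ^ e) ^ Fintype.card ι * ((p : ℝ) ^ e) ^ Fintype.card ι := by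
          gcongr
      _ = 1 := by
          rw [one_div, inv_mul_cancel₀]
          positivity
      _ = 1 * 1 := by ring
      _ ≤ Mq G (p ^ m) * (p : ℝ) ^ m := by
          apply mul_le_mul hMq' (one_le_pow₀ hp1) zero_le_one (by positivity)

theorem main (G : MvPolynomial ι ℤ) (v : ι → ℤ)
    (hD : ∃ c : ℝ, 0 < c ∧ ∀ W : ℕ, 1 ≤ W → c * (W : ℝ) ^ Fintype.card ι ≤ Mq G W * W) :
    ∀ M : ℕ, 1 ≤ M → (∀ p : ℕ, p.Prime → p ∣ M → ∃ c : ℝ, 0 < c ∧ ∀ m : ℕ,
      M.factorization p ≤ m → c * ((p : ℝ) ^ m) ^ Fintype.card ι ≤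
        Mqr G (p ^ M.factorization p) v (p ^ m) * (p : ℝ) ^ m) →
    ∃ c : ℝ, 0 < c ∧ ∀ W : ℕ, 1 ≤ W → M ∣ W →
      c * (W : ℝ) ^ Fintype.card ι ≤ Mqr G M v W * W := by
  intro M
  induction M using Nat.strong_induction_on with
  | _ M ih =>
  intro hM hp
  rcases eq_or_lt_of_le hM with h1 | h1
  · obtain ⟨c, hc, hb⟩ := hD
    refine ⟨c, hc, fun W hW _ => ?_⟩
    rw [← h1, mqr_one]
    exact hb W hW
  · obtain ⟨p, hpp, hpM⟩ := Nat.exists_prime_and_dvd (n := M) (by omega)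
    have hM0 : M ≠ 0 := by omega
    obtain ⟨e, he⟩ : ∃ e, e = M.factorization p := ⟨_, rfl⟩
    obtain ⟨M', hM'⟩ : ∃ M', M' = M / p ^ M.factorization p := ⟨_, rfl⟩
    have hMeq : p ^ e * M' = M := by rw [he, hM']; exact Nat.ordProj_mul_ordCompl_eq_self M p
    have he1 : 1 ≤ e := by
      rw [he]
      exact (Nat.Prime.dvd_iff_one_le_factorization hpp hM0).1 hpM
    have hM'0 : M' ≠ 0 := by
      rintro rfl
      rw [mul_zero] at hMeq
      exact hM0 hMeq.symm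
    have hpe : 2 ≤ p ^ e := by
      calc 2 ≤ p := hpp.two_le
        _ = p ^ 1 := (pow_one p).symm
        _ ≤ p ^ e := Nat.pow_le_pow_right hpp.pos he1
    have hlt : M' < M := by
      rw [← hMeq]
      have : 1 ≤ M' := Nat.one_le_iff_ne_zero.2 hM'0
      nlinarith
    have hfac : ∀ p' : ℕ, p'.Prime → p' ∣ M' → M'.factorization p' = M.factorization p' := by
      intro p' hp' hd
      have hne : p' ≠ p := by
        rintro rfl
        rw [hM'] at hd
        exact Nat.not_dvd_ordCompl hp' hM0 hd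
      rw [hM', Nat.factorization_ordCompl]
      rw [Finsupp.erase_ne hne]
    obtain ⟨c1, hc1, hb1⟩ := ih M' hlt (Nat.one_le_iff_ne_zero.2 hM'0) (fun p' hp' hd => by
      rw [hfac p' hp' hd]
      exact hp p' hp' (hd.trans ⟨p ^ e, by rw [← hMeq]; ring⟩))
    obtain ⟨c2, hc2, hb2⟩ := hp p hpp hpM
    rw [← he] at hb2
    refine ⟨c2 * c1, mul_pos hc2 hc1, fun W hW hMW => ?_⟩
    have hW0 : W ≠ 0 := by omega
    obtain ⟨m, hm⟩ : ∃ m, m = W.factorization p := ⟨_, rfl⟩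
    obtain ⟨W', hW'⟩ : ∃ W', W' = W / p ^ W.factorization p := ⟨_, rfl⟩
    have hWeq : p ^ m * W' = W := by rw [hm, hW']; exact Nat.ordProj_mul_ordCompl_eq_self W p
    have hW'0 : W' ≠ 0 := by
      rintro rfl
      rw [mul_zero] at hWeq
      exact hW0 hWeq.symm
    have hem : e ≤ m := by
      rw [he, hm]
      exact (Nat.factorization_le_iff_dvd hM0 hW0).2 hMW p
    have hdd : M' ∣ W' := by
      rw [hM', hW']
      exact Nat.ordCompl_dvd_ordCompl_of_dvd hMW p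
    have hco : Nat.Coprime (p ^ m) W' := by
      rw [hW']
      exact (Nat.coprime_ordCompl hpp hW0).pow_left m
    have key := mul_le G (p ^ e) M' (p ^ m) W' v (pow_pos hpp.pos m) (Nat.pos_of_ne_zero hW'0)
      hco (pow_dvd_pow p hem) hdd
    rw [hMeq, hWeq] at key
    have key' : (Mqr G (p ^ e) v (p ^ m) : ℝ) * (Mqr G M' v W' : ℝ) ≤ (Mqr G M v W : ℝ) := by
      exact_mod_cast key
    have hWr : (W : ℝ) = (p : ℝ) ^ m * (W' : ℝ) := by
      rw [← hWeq]; push_cast; ring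
    have hpr : (0 : ℝ) ≤ p := by positivity
    calc c2 * c1 * (W : ℝ) ^ Fintype.card ι
        = (c2 * ((p : ℝ) ^ m) ^ Fintype.card ι) * (c1 * (W' : ℝ) ^ Fintype.card ι) := by
          rw [hWr, mul_pow]; ring
      _ ≤ (Mqr G (p ^ e) v (p ^ m) * (p : ℝ) ^ m) * (Mqr G M' v W' * W') :=
          mul_le_mul (hb2 m hem) (hb1 W' (Nat.one_le_iff_ne_zero.2 hW'0) hdd) (by positivity)
            (by positivity)
      _ = ((Mqr G (p ^ e) v (p ^ m) : ℝ) * (Mqr G M' v W' : ℝ)) * W := by rw [hWr]; ring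
      _ ≤ Mqr G M v W * W := by gcongr

end DENSrx

theorem t_DENSr (h : S_DENS) : S_DENSr := by
  intro ι _ _ G M v hM hC hP
  exact DENSrx.main G v (h ι G hC (DENSrx.pdens_of G M v hP)) M hM (fun p hp _ => hP p hp)

end Pool.Agent.helper132_hp
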