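import Pool.Agent.helper132_hp.T_FIN
import Pool.Agent.helper132_hp.Stmts2

/-! Weak approximation for integer matrices: one real place and one residue class. -/

namespace Pool.Agent.helper132_hp

open Finset MvPolynomial

namespace FINrx

open FINx

lemma mem_boxr {ι : Type} [Fintype ι] [DecidableEq ι] {a b : ι → ℤ} {M : ℕ} {v : ι → ℤ} {j : ℕ}
    {z : ι → ℤ} : z ∈ boxr a b M v j ↔
      (∀ l, a l * 2 ^ j ≤ z l ∧ z l < b l * 2 ^ j) ∧ ∀ l, (M : ℤ) ∣ z l - v l := by
  unfold boxr box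
  rw [Finset.mem_filter, Fintype.mem_piFinset]
  simp only [Finset.mem_Ico]

lemma lo_ge (x : ℝ) : x - 1 ≤ (lo x : ℝ) := by
  unfold lo
  push_cast
  linarith [Int.le_ceil x]

lemma hi_le (x : ℝ) : (hi x : ℝ) ≤ x + 1 := by
  unfold hi
  push_cast
  linarith [Int.floor_le x]

lemma close (x : ℝ) (j : ℕ) (z : ℤ) (h1 : lo x * 2 ^ j ≤ z) (h2 : z < hi x * 2 ^ j) :
    |(z : ℝ) / 2 ^ j - x| ≤ 1 := by
  have h2j : (0 : ℝ) < 2 ^ j := by positivity
  have h1' : (lo x : ℝ) * 2 ^ j ≤ z := by exact_mod_cast h1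
  have h2' : (z : ℝ) < hi x * 2 ^ j := by exact_mod_cast h2
  have h3 : (lo x : ℝ) ≤ z / 2 ^ j := by rw [le_div_iff₀ h2j]; exact h1'
  have h4 : (z : ℝ) / 2 ^ j < hi x := by rw [div_lt_iff₀ h2j]; exact h2'
  rw [abs_le]
  constructor
  · linarith [lo_ge x]
  · linarith [hi_le x]

/-- the densities from the local zeros -/
lemma dens (hHEN : S_HENr) {ι : Type} [Fintype ι] [DecidableEq ι] (G : MvPolynomial ι ℤ)
    (M : ℕ) (v : ι → ℤ)
    (h : ∀ (p : ℕ) [Fact p.Prime], ∃ z : ι → ℤ_[p], aeval z G = 0 ∧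
      (∃ l, aeval z (pderiv l G) ≠ 0) ∧ ∀ l, (p : ℤ_[p]) ^ M.factorization p ∣ z l - (v l : ℤ_[p])) :
    PDensr G M v := by
  intro p hp
  haveI : Fact p.Prime := ⟨hp⟩
  obtain ⟨z, hz0, hz1, hz2⟩ := h p
  exact hHEN ι G p z hz0 hz1 (M.factorization p) v hz2

lemma exists_pow (B ε : ℝ) (hε : 0 < ε) : ∃ m : ℕ, B / 2 ^ m < ε := by
  obtain ⟨m, hm⟩ := pow_unbounded_of_one_lt (B / ε) (by norm_num : (1 : ℝ) < 2)
  refine ⟨m, ?_⟩
  rw [div_lt_iff₀ hε] at hm
  rw [div_lt_iff₀ (by positivity)]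
  linarith

end FINrx

open FINx FINrx in
/-- weak approximation for integer matrices. -/
theorem t_FINr (hDICH : S_DICH) (hC1 : S_C1) (hC1r : S_C1r) (hC2 : S_C2) (hC2r : S_C2r)
    (hPAD : S_PAD) (hHEN : S_HENr) (hACM : S_ACMr) : S_FINr := by
  intro k hk s hs1 hs2 A hA hdet y hy0 hyl M v hM hloc ε hε
  obtain ⟨l, hyl⟩ := hyl
  have hlocal : ∀ (p : ℕ) [Fact p.Prime], ∃ z : Fin s → ℤ_[p], aeval z (G1 A k) = 0 ∧
      (∃ l, aeval z (pderiv l (G1 A k)) ≠ 0) ∧
      ∀ l, (p : ℤ_[p]) ^ M.factorization p ∣ z l - (v l : ℤ_[p]) := by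
    intro p _
    by_cases hpM : p ∣ M
    · exact hloc p hpM
    · obtain ⟨z, hz0, hz1⟩ := hPAD p k hk s hs1 A hA hdet
      refine ⟨z, hz0, hz1, fun l => ?_⟩
      rw [Nat.factorization_eq_zero_of_not_dvd hpM, pow_zero]
      exact one_dvd _
  obtain ⟨B, hB⟩ : ∃ B : ℝ, B = ∑ l, |y l| + 2 := ⟨_, rfl⟩
  have hyB : ∀ l, |y l| + 2 ≤ B := by
    intro l
    rw [hB]
    have := Finset.single_le_sum (f := fun l => |y l|) (fun _ _ => abs_nonneg _) (Finset.mem_univ l)
    linarith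
  have hB2 : 2 ≤ B := by
    have := hyB l
    linarith [abs_nonneg (y l)]
  obtain ⟨m, hm⟩ := exists_pow B ε hε
  obtain ⟨t, ht⟩ : ∃ t : ℝ, t = 2 ^ m := ⟨_, rfl⟩
  have ht1 : 1 ≤ t := by rw [ht]; exact one_le_pow₀ (by norm_num)
  have ht0 : 0 < t := by linarith
  rw [← ht] at hm
  rcases hDICH s (r1 k) A hdet with ⟨I, J, hI, hJ, hIJ, hd⟩ | ⟨Λ, P, Q, K, hΛ, hK, hP, hQ⟩
  · -- first case
    obtain ⟨a, ha⟩ : ∃ a : Fin s → ℤ, a = fun i => lo (t * y i) := ⟨_, rfl⟩
    obtain ⟨b, hb⟩ : ∃ b : Fin s → ℤ, b = fun i => hi (t * y i) := ⟨_, rfl⟩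
    have hab : ∀ i, a i < b i := by intro i; rw [ha, hb]; exact lo_lt_hi _
    have hcr := hC1 k hk s A hA I J hI hJ hIJ hd a b hab
    have hcrr := hC1r k hk s A hA I J hI hJ hIJ hd a b hab M v
    have hrs : RealSm (G1 A k) a b := by
      refine ⟨fun i => t * y i, fun i => ?_, ?_, l, ?_⟩
      · rw [ha, hb]; exact ⟨lo_lt _, lt_hi _⟩
      · rw [scale_eval, hy0, mul_zero]
      · rw [scale_pderiv]
        exact mul_ne_zero (by positivity) hyl
    have hpd : PDensr (G1 A k) M v := dens hHEN _ M v hlocal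
    obtain ⟨j0, hj0⟩ := hACM (Fin s) (G1 A k) (2 * k) (by omega) (homog_G1 A k) a b hab M v hM
      hcr hcrr hrs hpd
    obtain ⟨z, hz, hz0⟩ := hj0 j0 le_rfl
    rw [mem_boxr] at hz
    refine ⟨j0 + m, z, hz0, hz.2, fun i => ?_⟩
    have h1 := hz.1 i
    rw [ha, hb] at h1
    have h2 := close (t * y i) j0 (z i) h1.1 h1.2
    have h3 : (z i : ℝ) / 2 ^ (j0 + m) - y i = ((z i : ℝ) / 2 ^ j0 - t * y i) / t := by
      rw [pow_add, ← ht]
      field_simp
    rw [h3, abs_div, abs_of_pos ht0]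
    calc |(z i : ℝ) / 2 ^ j0 - t * y i| / t ≤ 1 / t := by gcongr
      _ ≤ B / t := by gcongr; linarith
      _ < ε := hm
  · -- second case
    obtain ⟨A', hA'⟩ : ∃ A' : Matrix (Fin s) (Fin s) ℤ, A' = Λ • A := ⟨_, rfl⟩
    have hA'a : ∀ i j, A' i j = Λ * A i j := by intro i j; rw [hA']; rfl
    obtain ⟨a, ha⟩ : ∃ a : Fin s ⊕ Fin s → ℤ, a = Sum.elim (fun _ => 2 ^ m - 1) (fun i => lo (t * y i)) :=
      ⟨_, rfl⟩
    obtain ⟨b, hb⟩ : ∃ b : Fin s ⊕ Fin s → ℤ, b = Sum.elim (fun _ => 2 ^ m + 1) (fun i => hi (t * y i)) :=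
      ⟨_, rfl⟩
    obtain ⟨w, hw⟩ : ∃ w : Fin s ⊕ Fin s → ℤ, w = Sum.elim (fun _ => 1) v := ⟨_, rfl⟩
    have hab : ∀ i, a i < b i := by
      intro i
      rw [ha, hb]
      rcases i with i | i
      · simp only [Sum.elim_inl]; linarith
      · exact lo_lt_hi _
    have hK' : t1 k ≤ K.card := by omega
    have hP' : ∀ i ∈ K, ∀ j ∈ K, i ≠ j → A' i j = ∑ m, P i m * Q j m := by
      intro i hi j hj hij; rw [hA'a]; exact hP i hi j hj hij
    have hQ' : ∀ i ∈ K, A' i i ≠ ∑ m, P i m * Q i m := by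
      intro i hi; rw [hA'a]; exact hQ i hi
    have hcr : Crude (G2 A' k) (4 * k) a b := hC2 k hk s A' P Q K hK' hP' hQ' a b hab
    have hcrr : Cruder (G2 A' k) (4 * k) a b M w := hC2r k hk s A' P Q K hK' hP' hQ' a b hab M w
    have hval : ∀ {R : Type} [CommRing R] (u : Fin s → R),
        aeval u (G1 A' k) = (Λ : R) * aeval u (G1 A k) := by
      intro R _ u
      rw [aeval_G1, aeval_G1, Finset.mul_sum]
      refine Finset.sum_congr rfl fun i _ => ?_
      rw [Finset.mul_sum]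
      refine Finset.sum_congr rfl fun j _ => ?_
      rw [hA'a]; push_cast; ring
    have hder : ∀ {R : Type} [CommRing R] (u : Fin s → R) (l : Fin s),
        aeval u (pderiv l (G1 A' k)) = (Λ : R) * aeval u (pderiv l (G1 A k)) := by
      intro R _ u l
      rw [aeval_pderiv_G1, aeval_pderiv_G1]
      have h1 : ∑ j, (A' l j : R) * u j ^ k = Λ * ∑ j, (A l j : R) * u j ^ k := by
        rw [Finset.mul_sum]
        refine Finset.sum_congr rfl fun j _ => by rw [hA'a]; push_cast; ring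
      have h2 : ∑ j, (A' j l : R) * u j ^ k = Λ * ∑ j, (A j l : R) * u j ^ k := by
        rw [Finset.mul_sum]
        refine Finset.sum_congr rfl fun j _ => by rw [hA'a]; push_cast; ring
      rw [h1, h2]
      ring
    have hΛR : (Λ : ℝ) ≠ 0 := by exact_mod_cast hΛ
    have hrs : RealSm (G2 A' k) a b := by
      refine ⟨Sum.elim (fun _ => t) (fun i => t * y i), fun i => ?_, ?_, Sum.inr l, ?_⟩
      · rw [ha, hb]
        rcases i with i | i
        · simp only [Sum.elim_inl]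
          push_cast
          rw [← ht]
          constructor <;> linarith
        · exact ⟨lo_lt _, lt_hi _⟩
      · rw [aeval_G2]
        simp only [Sum.elim_inl, Sum.elim_inr]
        rw [scale_eval, scale_eval, hval, hy0]
        ring
      · rw [aeval_pderiv_G2 A' k hk]
        simp only [Sum.elim_inl, Sum.elim_inr]
        rw [scale_pderiv, scale_pderiv, hder]
        have h2 : (0 : ℝ) < t ^ (k - 1) * t ^ k := by positivity
        exact mul_ne_zero ht0.ne' (mul_ne_zero h2.ne' (mul_ne_zero h2.ne' (mul_ne_zero hΛR hyl)))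
    have hpd : PDensr (G2 A' k) M w := by
      refine dens hHEN _ M w fun p _ => ?_
      obtain ⟨z, hz0, ⟨l', hz1⟩, hz2⟩ := hlocal p
      refine ⟨Sum.elim (fun _ => 1) z, ?_, ⟨Sum.inr l', ?_⟩, ?_⟩
      · rw [aeval_G2]
        simp only [Sum.elim_inl, Sum.elim_inr, one_mul]
        rw [hval, hz0, mul_zero]
      · rw [aeval_pderiv_G2 A' k hk]
        simp only [Sum.elim_inl, Sum.elim_inr, one_mul]
        rw [hder]
        have : ((Λ : ℤ) : ℤ_[p]) ≠ 0 := by exact_mod_cast hΛ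
        exact mul_ne_zero this hz1
      · rw [hw]
        rintro (i | i)
        · simp
        · exact hz2 i
    obtain ⟨j0, hj0⟩ := hACM (Fin s ⊕ Fin s) (G2 A' k) (4 * k) (by omega) (homog_G2 A' k) a b hab
      M w hM hcr hcrr hrs hpd
    obtain ⟨z, hz, hz0⟩ := hj0 j0 le_rfl
    rw [mem_boxr] at hz
    refine ⟨(j0 + m) + (j0 + m), fun i => z (Sum.inl i) * z (Sum.inr i), ?_, ?_, ?_⟩
    · have h1 : aeval z (G2 A' k) = (0 : ℤ) := by
        rw [← hz0]; rfl
      rw [aeval_G2, hval] at h1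
      rcases mul_eq_zero.1 h1 with h4 | h4
      · exact absurd (by exact_mod_cast h4) hΛ
      · exact h4
    · intro i
      have h1 := hz.2 (Sum.inl i)
      have h2 := hz.2 (Sum.inr i)
      rw [hw] at h1 h2
      simp only [Sum.elim_inl, Sum.elim_inr] at h1 h2
      have h3 : z (Sum.inl i) * z (Sum.inr i) - v i =
          (z (Sum.inl i) - 1) * z (Sum.inr i) + (z (Sum.inr i) - v i) := by ring
      rw [h3]
      exact dvd_add (h1.mul_right _) h2
    · intro i
      have h1 := hz.1 (Sum.inl i)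
      have h2 := hz.1 (Sum.inr i)
      rw [ha, hb] at h1 h2
      simp only [Sum.elim_inl, Sum.elim_inr] at h1 h2
      have h3 := close (t * y i) j0 _ h2.1 h2.2
      have h2j : (0 : ℝ) < 2 ^ j0 := by positivity
      obtain ⟨u', hu'⟩ : ∃ u' : ℝ, u' = (z (Sum.inl i) : ℝ) / 2 ^ (j0 + m) := ⟨_, rfl⟩
      obtain ⟨v', hv'⟩ : ∃ v' : ℝ, v' = (z (Sum.inr i) : ℝ) / 2 ^ (j0 + m) := ⟨_, rfl⟩
      have h4 : |v' - y i| ≤ 1 / t := by
        have h5 : v' - y i = ((z (Sum.inr i) : ℝ) / 2 ^ j0 - t * y i) / t := by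
          rw [hv', pow_add, ← ht]
          field_simp
        rw [h5, abs_div, abs_of_pos ht0]
        gcongr
      have h6 : |u' - 1| ≤ 1 / t := by
        have h7 : ((2 ^ m - 1 : ℤ) : ℝ) * 2 ^ j0 ≤ z (Sum.inl i) := by exact_mod_cast h1.1
        have h8 : (z (Sum.inl i) : ℝ) < ((2 ^ m + 1 : ℤ) : ℝ) * 2 ^ j0 := by exact_mod_cast h1.2
        push_cast at h7 h8
        rw [← ht] at h7 h8
        have h9 : u' - 1 = ((z (Sum.inl i) : ℝ) / 2 ^ j0 - t) / t := by
          rw [hu', pow_add, ← ht]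
          field_simp
        rw [h9, abs_div, abs_of_pos ht0]
        gcongr
        rw [abs_le]
        constructor
        · have : t - 1 ≤ (z (Sum.inl i) : ℝ) / 2 ^ j0 := by rw [le_div_iff₀ h2j]; exact h7
          linarith
        · have : (z (Sum.inl i) : ℝ) / 2 ^ j0 < t + 1 := by rw [div_lt_iff₀ h2j]; exact h8
          linarith
      have h10 : ((((fun i => z (Sum.inl i) * z (Sum.inr i)) i : ℤ) : ℝ)) / 2 ^ (j0 + m + (j0 + m)) = u' * v' := by
        rw [hu', hv', pow_add 2 (j0 + m) (j0 + m)]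
        push_cast
        field_simp
      rw [h10]
      have h11 : u' * v' - y i = (u' - 1) * v' + (v' - y i) := by ring
      have h12 : |v'| ≤ |y i| + 1 := by
        have h13 : |v'| ≤ |y i| + |v' - y i| := by
          have : v' = y i + (v' - y i) := by ring
          calc |v'| = |y i + (v' - y i)| := by rw [← this]
            _ ≤ _ := abs_add_le _ _
        have : 1 / t ≤ 1 := by rw [div_le_one ht0]; exact ht1
        linarith
      rw [h11]
      calc |(u' - 1) * v' + (v' - y i)| ≤ |(u' - 1) * v'| + |v' - y i| := abs_add_le _ _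
        _ ≤ (1 / t) * (|y i| + 1) + 1 / t := by
            rw [abs_mul]
            gcongr
        _ = (|y i| + 2) / t := by ring
        _ ≤ B / t := by gcongr; exact hyB i
        _ < ε := hm

end Pool.Agent.helper132_hp
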