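import Pool.Agent.helper132_hp.Stmts2
import Pool.Agent.helper132_hp.T_INT

/-! Comparison of the number of zeros in a residue class with the smoothed count. -/

namespace Pool.Agent.helper132_hp
namespace INTrx

open Finset INTx

section
variable {ι : Type} [Fintype ι] [DecidableEq ι]

/-- the identity. -/
lemma identity_r (G : MvPolynomial ι ℤ) (a b : ι → ℤ) (mm : ℕ) (vv : ι → ℤ) (j W H : ℕ) (hW : 0 < W) :
    (((N0r G a b mm vv j : ℝ) - N1r G a b mm vv j W H / (2 * H + 1) : ℝ) : ℂ) =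
      ∫ α in (0:ℝ)..1, Sjr G a b mm vv j α * (1 - Phi W H α) := by
  have h1 : ∀ α : ℝ, Sjr G a b mm vv j α * (1 - Phi W H α) =
      ∑ z ∈ boxr a b mm vv j, e (α * ((MvPolynomial.eval z G : ℤ) : ℝ)) * (1 - Phi W H α) := by
    intro α
    unfold Sjr
    rw [Finset.sum_mul]
  simp_rw [h1]
  rw [intervalIntegral.integral_finsetSum]
  · simp_rw [integral_term W H hW]
    rw [Finset.sum_sub_distrib, ← Finset.sum_div]
    have h2 : (((N0r G a b mm vv j : ℝ) - N1r G a b mm vv j W H / (2 * H + 1) : ℝ) : ℂ) =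
        (N0r G a b mm vv j : ℂ) - (N1r G a b mm vv j W H : ℂ) / (2 * H + 1) := by
      push_cast
      ring
    rw [h2]
    unfold N0r N1r
    rw [Finset.card_filter, Finset.card_filter]
    simp only [Nat.cast_sum, Nat.cast_ite, Nat.cast_one, Nat.cast_zero]
  · intro z _
    refine Continuous.intervalIntegrable ?_ _ _
    exact (continuous_e_mul _).mul (continuous_const.sub (continuous_Phi W H))


/-- the pointwise bound. -/
lemma pointwise_r (G : MvPolynomial ι ℤ) (D : ℕ) (hD : 1 ≤ D) (a b : ι → ℤ) (mm : ℕ) (vv : ι → ℤ) (CM : ℝ) (hCM : 0 ≤ CM)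
    (hMaj : ∀ (j q : ℕ) (c : ℤ) (β : ℝ), 0 < q → IsCoprime c (q : ℤ) → q ^ 10 ≤ 2 ^ j →
      (|β| * 2 ^ (D * j)) ^ 10 ≤ 2 ^ j →
      ‖Sjr G a b mm vv j ((c : ℝ) / q + β)‖ ≤ CM * 2 ^ (Fintype.card ι * j) *
        (1 / ((q : ℝ) ^ 9 * (1 + |β| * 2 ^ (D * j)) ^ 9) + q * (1 + |β| * 2 ^ (D * j)) / 2 ^ j))
    (j : ℕ)
    (hCr : ∀ (α : ℝ) (c : ℤ) (q : ℕ), 0 < q → IsCoprime c (q : ℤ) →
      |α - (c : ℝ) / q| ≤ 1 / (q : ℝ) ^ 2 → 2 ^ j ≤ q ^ 10 → q ^ 10 * 2 ^ j ≤ 2 ^ (10 * D * j) →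
      ‖Sjr G a b mm vv j α‖ * 2 ^ ((D + 1) * j) ≤ 2 ^ (Fintype.card ι * j))
    (T : ℝ) (hT : 1 ≤ T) (hT10 : T ^ 10 = 2 ^ j) (N H : ℕ) (hN : 1 ≤ N)
    (α : ℝ) (hα0 : 0 ≤ α) (hα1 : α ≤ 1) :
    ‖Sjr G a b mm vv j α * (1 - Phi N.factorial H α)‖ ≤
      2 * (2 ^ (Fintype.card ι * j) / 2 ^ ((D + 1) * j)) +
      ∑ q ∈ Qs j, ∑ c ∈ Finset.range (q + 1), CM * 2 ^ (Fintype.card ι * j) *
        (2 / (q : ℝ) ^ 9 * (Real.pi * (N.factorial * H) / 2 ^ (D * j) + q / N) + 8 / T ^ 6) *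
        (1 + ((α - (c : ℝ) / q) * 2 ^ (D * j)) ^ 2)⁻¹ := by
  set W : ℕ := N.factorial with hW
  have hterm : ∀ q c : ℕ, 0 ≤ CM * 2 ^ (Fintype.card ι * j) *
        (2 / (q : ℝ) ^ 9 * (Real.pi * (W * H) / 2 ^ (D * j) + q / N) + 8 / T ^ 6) *
        (1 + ((α - (c : ℝ) / q) * 2 ^ (D * j)) ^ 2)⁻¹ := by
    intro q c
    have := Real.pi_pos
    positivity
  have hsum : 0 ≤ ∑ q ∈ Qs j, ∑ c ∈ Finset.range (q + 1), CM * 2 ^ (Fintype.card ι * j) *
        (2 / (q : ℝ) ^ 9 * (Real.pi * (W * H) / 2 ^ (D * j) + q / N) + 8 / T ^ 6) *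
        (1 + ((α - (c : ℝ) / q) * 2 ^ (D * j)) ^ 2)⁻¹ :=
    Finset.sum_nonneg fun q _ => Finset.sum_nonneg fun c _ => hterm q c
  have hPhi2 := norm_one_sub_Phi_le_two W H α
  -- Dirichlet
  have hT1 : 1 ≤ T ^ (10 * D - 1) := one_le_pow₀ hT
  set n0 : ℕ := ⌊T ^ (10 * D - 1)⌋₊ with hn0
  have hn0pos : 0 < n0 := Nat.floor_pos.mpr hT1
  have hn0le : (n0 : ℝ) ≤ T ^ (10 * D - 1) := Nat.floor_le (by positivity)
  have hn0lt : T ^ (10 * D - 1) < n0 + 1 := Nat.lt_floor_add_one _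
  have hTD : T ^ (10 * D - 1) * T = 2 ^ (D * j) := by
    rw [← pow_succ, show 10 * D - 1 + 1 = 10 * D by omega, pow_mul, hT10, ← pow_mul, mul_comm j D]
  obtain ⟨r, hr, hrd⟩ := Real.exists_rat_abs_sub_le_and_den_le α hn0pos
  set q : ℕ := r.den with hq
  have hqpos : 0 < q := r.den_pos
  have hq1 : (1 : ℝ) ≤ q := by exact_mod_cast hqpos
  have hqn : (q : ℝ) ≤ n0 := by exact_mod_cast hrd
  have hrc : (r : ℝ) = (r.num : ℝ) / q := Rat.cast_def r
  rw [hrc] at hr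
  have hcop : IsCoprime r.num (q : ℤ) := Rat.isCoprime_num_den r
  by_cases hcase : 2 ^ j ≤ q ^ 10
  · -- minor arcs
    have h1 : |α - (r.num : ℝ) / q| ≤ 1 / (q : ℝ) ^ 2 := by
      refine hr.trans ?_
      apply one_div_le_one_div_of_le (by positivity)
      rw [pow_two]
      gcongr
      linarith
    have h2 : q ^ 10 * 2 ^ j ≤ 2 ^ (10 * D * j) := by
      have h3 : (q : ℝ) ^ 10 * 2 ^ j ≤ 2 ^ (10 * D * j) := by
        calc (q : ℝ) ^ 10 * 2 ^ j ≤ (T ^ (10 * D - 1)) ^ 10 * T ^ 10 := by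
              rw [hT10]; gcongr; exact hqn.trans hn0le
          _ = (2 ^ (D * j)) ^ 10 := by rw [← mul_pow, hTD]
          _ = 2 ^ (10 * D * j) := by rw [← pow_mul]; congr 1; ring
      exact_mod_cast h3
    have h3 := hCr α r.num q hqpos hcop h1 hcase h2
    rw [← le_div_iff₀ (by positivity)] at h3
    rw [norm_mul]
    have h4 : ‖Sjr G a b mm vv j α‖ * ‖1 - Phi W H α‖ ≤
        (2 ^ (Fintype.card ι * j) / 2 ^ ((D + 1) * j)) * 2 := by gcongr
    linarith
  · push Not at hcase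
    have hqT : (q : ℝ) ≤ T := by
      have h1 : (q : ℝ) ^ 10 ≤ T ^ 10 := by
        rw [hT10]; exact_mod_cast hcase.le
      exact le_of_pow_le_pow_left₀ (by norm_num) (by positivity) h1
    have hqQ : q ∈ Qs j := by
      unfold Qs
      rw [Finset.mem_filter, Finset.mem_Icc]
      refine ⟨⟨hqpos, ?_⟩, hcase.le⟩
      calc q = q ^ 1 := (pow_one q).symm
        _ ≤ q ^ 10 := Nat.pow_le_pow_right hqpos (by norm_num)
        _ ≤ 2 ^ j := hcase.le
    set β : ℝ := α - (r.num : ℝ) / q with hβ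
    have hαβ : α = (r.num : ℝ) / q + β := by rw [hβ]; ring
    -- the range of the numerator
    have hn0' : (1 : ℝ) ≤ n0 := by exact_mod_cast hn0pos
    have hβq : |β| * q ≤ 1 / (n0 + 1) := by
      have : |β| * q ≤ 1 / ((n0 + 1) * q) * q := by gcongr
      refine this.trans (le_of_eq ?_)
      field_simp
    have hn01 : (1 : ℝ) / (n0 + 1) < 1 := by
      rw [div_lt_one (by positivity)]; linarith
    have hcq : (r.num : ℝ) = α * q - β * q := by
      rw [hβ]; field_simp; ring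
    have hβq' := abs_le.mp (show |β * q| ≤ 1 / ((n0 : ℝ) + 1) by
      rw [abs_mul, Nat.abs_cast]; exact hβq)
    have hc0 : 0 ≤ r.num := by
      have h1 : (-1 : ℝ) < r.num := by
        rw [hcq]
        have : 0 ≤ α * q := by positivity
        linarith [hβq'.2]
      have h2 : (-1 : ℤ) < r.num := by exact_mod_cast h1
      omega
    have hcq1 : r.num ≤ q := by
      have h1 : (r.num : ℝ) < q + 1 := by
        rw [hcq]
        have : α * q ≤ 1 * q := by gcongr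
        linarith [hβq'.1]
      have h2 : r.num < q + 1 := by exact_mod_cast h1
      omega
    obtain ⟨c, hc⟩ := Int.eq_ofNat_of_zero_le hc0
    have hcr : c ∈ Finset.range (q + 1) := by
      rw [Finset.mem_range]
      omega
    have hβT : |β| * 2 ^ (D * j) ≤ T := by
      have h1 : |β| ≤ 1 / (n0 + 1) := by
        have : |β| * 1 ≤ |β| * q := by gcongr
        linarith
      calc |β| * 2 ^ (D * j) ≤ 1 / (n0 + 1) * 2 ^ (D * j) := by gcongr
        _ ≤ 1 / T ^ (10 * D - 1) * 2 ^ (D * j) := by gcongr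
        _ = T := by rw [← hTD]; field_simp
    have hβ10 : (|β| * 2 ^ (D * j)) ^ 10 ≤ 2 ^ j := by
      rw [← hT10]; gcongr
    have hS := hMaj j q r.num β hqpos hcop hcase.le hβ10
    rw [← hαβ] at hS
    -- the single term
    set Y : ℝ := |β| * 2 ^ (D * j) with hY
    have hY0 : 0 ≤ Y := by positivity
    have hPi := Real.pi_pos
    have hw : (q : ℝ) ≤ N → ‖1 - Phi W H α‖ ≤ 2 * ((Real.pi * (W * H) / 2 ^ (D * j)) * Y) := by
      intro hqN
      have hqW : q ∣ W := Nat.dvd_factorial hqpos (by exact_mod_cast hqN)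
      have h1 := norm_one_sub_Phi_le W H q r.num β hqpos hqW
      rw [← hαβ] at h1
      refine h1.trans (le_of_eq ?_)
      rw [hY]
      field_simp
    have hc1 := claim1 ‖1 - Phi W H α‖ Y (Real.pi * (W * H) / 2 ^ (D * j)) q N hPhi2 hY0
      (by positivity) hq1 (by exact_mod_cast hN) hw
    have hc2 := claim2 ‖1 - Phi W H α‖ Y T q hPhi2 hY0 hT hβT hq1 hqT
    rw [hT10] at hc2
    have hsingle : ‖Sjr G a b mm vv j α * (1 - Phi W H α)‖ ≤ CM * 2 ^ (Fintype.card ι * j) *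
        (2 / (q : ℝ) ^ 9 * (Real.pi * (W * H) / 2 ^ (D * j) + q / N) + 8 / T ^ 6) *
        (1 + ((α - (c : ℝ) / q) * 2 ^ (D * j)) ^ 2)⁻¹ := by
      have h1 : ((α - (c : ℝ) / q) * 2 ^ (D * j)) ^ 2 = Y ^ 2 := by
        rw [hY, mul_pow, mul_pow, sq_abs, hβ, hc]
        simp
      rw [h1, norm_mul]
      calc ‖Sjr G a b mm vv j α‖ * ‖1 - Phi W H α‖ ≤
          (CM * 2 ^ (Fintype.card ι * j) * (1 / ((q : ℝ) ^ 9 * (1 + Y) ^ 9) +
            q * (1 + Y) / 2 ^ j)) * ‖1 - Phi W H α‖ := by gcongr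
        _ = CM * 2 ^ (Fintype.card ι * j) * (‖1 - Phi W H α‖ * (1 / ((q : ℝ) ^ 9 * (1 + Y) ^ 9)) +
            ‖1 - Phi W H α‖ * (q * (1 + Y) / 2 ^ j)) := by ring
        _ ≤ CM * 2 ^ (Fintype.card ι * j) * (2 / (q : ℝ) ^ 9 * (Real.pi * (W * H) / 2 ^ (D * j) +
            q / N) * (1 + Y ^ 2)⁻¹ + 8 / T ^ 6 * (1 + Y ^ 2)⁻¹) := by gcongr
        _ = _ := by ring
    refine hsingle.trans ?_
    have h2 : CM * 2 ^ (Fintype.card ι * j) *
        (2 / (q : ℝ) ^ 9 * (Real.pi * (W * H) / 2 ^ (D * j) + q / N) + 8 / T ^ 6) *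
        (1 + ((α - (c : ℝ) / q) * 2 ^ (D * j)) ^ 2)⁻¹ ≤
        ∑ c ∈ Finset.range (q + 1), CM * 2 ^ (Fintype.card ι * j) *
        (2 / (q : ℝ) ^ 9 * (Real.pi * (W * H) / 2 ^ (D * j) + q / N) + 8 / T ^ 6) *
        (1 + ((α - (c : ℝ) / q) * 2 ^ (D * j)) ^ 2)⁻¹ :=
      Finset.single_le_sum (f := fun c : ℕ => CM * 2 ^ (Fintype.card ι * j) *
        (2 / (q : ℝ) ^ 9 * (Real.pi * (W * H) / 2 ^ (D * j) + q / N) + 8 / T ^ 6) *
        (1 + ((α - (c : ℝ) / q) * 2 ^ (D * j)) ^ 2)⁻¹) (fun c _ => hterm q c) hcr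
    have h3 := Finset.single_le_sum (f := fun q : ℕ => ∑ c ∈ Finset.range (q + 1),
        CM * 2 ^ (Fintype.card ι * j) *
        (2 / (q : ℝ) ^ 9 * (Real.pi * (W * H) / 2 ^ (D * j) + q / N) + 8 / T ^ 6) *
        (1 + ((α - (c : ℝ) / q) * 2 ^ (D * j)) ^ 2)⁻¹)
        (fun q _ => Finset.sum_nonneg fun c _ => hterm q c) hqQ
    have h4 : (0:ℝ) ≤ 2 * (2 ^ (Fintype.card ι * j) / 2 ^ ((D + 1) * j)) := by positivity
    linarith



end

end INTrx

open INTx INTrx in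
/-- Comparison with the smoothed count. -/
theorem t_INTr : S_INTr := by
  intro ι _ _ G D hD _ a b _ mm vv _ hCr hMaj
  obtain ⟨j0, hj0⟩ := hCr
  obtain ⟨CM', hCM'⟩ := hMaj
  set CM : ℝ := max CM' 0 with hCMdef
  have hCM0 : 0 ≤ CM := le_max_right _ _
  have hCM : ∀ (j q : ℕ) (c : ℤ) (β : ℝ), 0 < q → IsCoprime c (q : ℤ) → q ^ 10 ≤ 2 ^ j →
      (|β| * 2 ^ (D * j)) ^ 10 ≤ 2 ^ j →
      ‖Sjr G a b mm vv j ((c : ℝ) / q + β)‖ ≤ CM * 2 ^ (Fintype.card ι * j) *
        (1 / ((q : ℝ) ^ 9 * (1 + |β| * 2 ^ (D * j)) ^ 9) +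
          q * (1 + |β| * 2 ^ (D * j)) / 2 ^ j) := by
    intro j q c β h1 h2 h3 h4
    refine (hCM' j q c β h1 h2 h3 h4).trans ?_
    gcongr
    exact le_max_left _ _
  have hPi := Real.pi_pos
  refine ⟨2 + CM * Real.pi * (8 * Real.pi + 8 + 320), by positivity, j0, ?_⟩
  intro j hj N H hN
  obtain ⟨T, hT1, hT10, hTj⟩ := exists_T j
  set X : ℝ := 2 ^ (D * j) with hX
  have hXpos : 0 < X := by positivity
  set n : ℕ := Fintype.card ι with hn
  have hW : 0 < N.factorial := Nat.factorial_pos N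
  -- the identity
  have hid := identity_r G a b mm vv j N.factorial H hW
  have habs : |(N0r G a b mm vv j : ℝ) - N1r G a b mm vv j (N.factorial) H / (2 * H + 1)| =
      ‖∫ α in (0:ℝ)..1, Sjr G a b mm vv j α * (1 - Phi N.factorial H α)‖ := by
    rw [← hid, Complex.norm_real, Real.norm_eq_abs]
  rw [habs]
  -- the majorant
  set M : ℝ → ℝ := fun α => 2 * (2 ^ (n * j) / 2 ^ ((D + 1) * j)) +
      ∑ q ∈ Qs j, ∑ c ∈ Finset.range (q + 1), CM * 2 ^ (n * j) *
        (2 / (q : ℝ) ^ 9 * (Real.pi * (N.factorial * H) / X + q / N) + 8 / T ^ 6) *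
        (1 + ((α - (c : ℝ) / q) * X) ^ 2)⁻¹ with hM
  have hcont1 : ∀ x : ℝ, Continuous fun α : ℝ => (1 + ((α - x) * X) ^ 2)⁻¹ := by
    intro x
    refine Continuous.inv₀ (by fun_prop) ?_
    intro α
    positivity
  have hMcont : Continuous M := by
    rw [hM]
    refine continuous_const.add ?_
    refine continuous_finsetSum _ fun q _ => continuous_finsetSum _ fun c _ => ?_
    exact continuous_const.mul (hcont1 _)
  have hint : ‖∫ α in (0:ℝ)..1, Sjr G a b mm vv j α * (1 - Phi N.factorial H α)‖ ≤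
      ∫ α in (0:ℝ)..1, M α := by
    refine intervalIntegral.norm_integral_le_of_norm_le (by norm_num) ?_
      (hMcont.intervalIntegrable _ _)
    refine Filter.Eventually.of_forall fun α hα => ?_
    exact pointwise_r G D (by omega) a b mm vv CM hCM0 hCM j (hj0 j hj) T hT1 hT10 N H hN α hα.1.le hα.2
  refine hint.trans ?_
  -- the integral of the majorant
  have hIM : ∫ α in (0:ℝ)..1, M α ≤ 2 * (2 ^ (n * j) / 2 ^ ((D + 1) * j)) +
      ∑ q ∈ Qs j, ∑ c ∈ Finset.range (q + 1), CM * 2 ^ (n * j) *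
        (2 / (q : ℝ) ^ 9 * (Real.pi * (N.factorial * H) / X + q / N) + 8 / T ^ 6) *
        (Real.pi / X) := by
    rw [hM, intervalIntegral.integral_add]
    · refine add_le_add (by simp) ?_
      rw [intervalIntegral.integral_finsetSum]
      · refine Finset.sum_le_sum fun q _ => ?_
        rw [intervalIntegral.integral_finsetSum]
        · refine Finset.sum_le_sum fun c _ => ?_
          rw [intervalIntegral.integral_const_mul]
          refine mul_le_mul_of_nonneg_left (integral_majorant _ _ hXpos) (by positivity)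
        · intro c _
          exact (continuous_const.mul (hcont1 _)).intervalIntegrable _ _
      · intro q _
        refine Continuous.intervalIntegrable ?_ _ _
        exact continuous_finsetSum _ fun c _ => continuous_const.mul (hcont1 _)
    · exact continuous_const.intervalIntegrable _ _
    · refine Continuous.intervalIntegrable ?_ _ _
      exact continuous_finsetSum _ fun q _ => continuous_finsetSum _ fun c _ =>
        continuous_const.mul (hcont1 _)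
  refine hIM.trans ?_
  have hsum : ∑ q ∈ Qs j, ∑ c ∈ Finset.range (q + 1), CM * 2 ^ (n * j) *
        (2 / (q : ℝ) ^ 9 * (Real.pi * (N.factorial * H) / X + q / N) + 8 / T ^ 6) *
        (Real.pi / X) =
      CM * 2 ^ (n * j) * (Real.pi / X) * ∑ q ∈ Qs j, ((q : ℝ) + 1) *
        (2 / (q : ℝ) ^ 9 * (Real.pi * (N.factorial * H) / X + q / N) + 8 / T ^ 6) := by
    rw [Finset.mul_sum]
    refine Finset.sum_congr rfl fun q _ => ?_
    rw [Finset.sum_const, Finset.card_range, nsmul_eq_mul]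
    push_cast
    ring
  rw [hsum]
  have hsb := sum_bound j (Real.pi * (N.factorial * H) / X) T (by positivity) hT1 hT10 N hN
  have hj1 : (0 : ℝ) < (j : ℝ) + 1 := by positivity
  have hN' : (1 : ℝ) ≤ N := by exact_mod_cast hN
  have h16 : 16 / T ≤ 320 / ((j : ℝ) + 1) := by
    rw [div_le_div_iff₀ (by positivity) hj1]
    linarith
  have hP : (1 : ℝ) / 2 ^ j ≤ 1 / ((j : ℝ) + 1) := by
    apply one_div_le_one_div_of_le hj1
    have h1 : j + 1 ≤ 2 ^ j := Nat.lt_two_pow_self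
    exact_mod_cast h1
  have hfirst : (2 : ℝ) * (2 ^ (n * j) / 2 ^ ((D + 1) * j)) ≤
      2 * (1 / ((j : ℝ) + 1)) * (2 ^ (n * j) / X) := by
    have h1 : (2 : ℝ) ^ ((D + 1) * j) = X * 2 ^ j := by
      rw [hX, ← pow_add]; congr 1; ring
    calc (2 : ℝ) * (2 ^ (n * j) / 2 ^ ((D + 1) * j)) = 2 * (1 / 2 ^ j) * (2 ^ (n * j) / X) := by
          rw [h1]; field_simp
      _ ≤ 2 * (1 / ((j : ℝ) + 1)) * (2 ^ (n * j) / X) := by gcongr
  set E : ℝ := (N.factorial * H : ℝ) / X + 1 / N + 1 / (j + 1) with hE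
  have hE1 : (N.factorial * H : ℝ) / X ≤ E := by
    have : (0:ℝ) ≤ 1 / N := by positivity
    have : (0:ℝ) ≤ 1 / (j + 1) := by positivity
    rw [hE]; linarith
  have hE2 : (1 : ℝ) / N ≤ E := by
    have : (0:ℝ) ≤ (N.factorial * H : ℝ) / X := by positivity
    have : (0:ℝ) ≤ 1 / (j + 1) := by positivity
    rw [hE]; linarith
  have hE3 : (1 : ℝ) / ((j : ℝ) + 1) ≤ E := by
    have : (0:ℝ) ≤ (N.factorial * H : ℝ) / X := by positivity
    have : (0:ℝ) ≤ 1 / N := by positivity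
    rw [hE]; linarith
  have hR : (0 : ℝ) ≤ 2 ^ (n * j) / X := by positivity
  have hsecond : CM * 2 ^ (n * j) * (Real.pi / X) * ∑ q ∈ Qs j, ((q : ℝ) + 1) *
        (2 / (q : ℝ) ^ 9 * (Real.pi * (N.factorial * H) / X + q / N) + 8 / T ^ 6) ≤
      CM * Real.pi * ((8 * Real.pi + 8 + 320) * E) * (2 ^ (n * j) / X) := by
    have h1 : 8 * (Real.pi * (N.factorial * H) / X + 1 / N) + 16 / T ≤
        (8 * Real.pi + 8 + 320) * E := by
      have h2 : Real.pi * (N.factorial * H) / X ≤ Real.pi * E := by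
        rw [mul_div_assoc]; gcongr
      have h3 : 320 / ((j : ℝ) + 1) ≤ 320 * E := by
        calc 320 / ((j : ℝ) + 1) = 320 * (1 / ((j : ℝ) + 1)) := by ring
          _ ≤ 320 * E := by gcongr
      linarith
    calc CM * 2 ^ (n * j) * (Real.pi / X) * ∑ q ∈ Qs j, ((q : ℝ) + 1) *
        (2 / (q : ℝ) ^ 9 * (Real.pi * (N.factorial * H) / X + q / N) + 8 / T ^ 6) ≤
        CM * 2 ^ (n * j) * (Real.pi / X) * ((8 * Real.pi + 8 + 320) * E) := by
          refine mul_le_mul_of_nonneg_left (hsb.trans h1) (by positivity)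
      _ = _ := by ring
  have hfirst' : (2 : ℝ) * (1 / ((j : ℝ) + 1)) * (2 ^ (n * j) / X) ≤ 2 * E * (2 ^ (n * j) / X) := by
    gcongr
  calc _ ≤ 2 * E * (2 ^ (n * j) / X) +
        CM * Real.pi * ((8 * Real.pi + 8 + 320) * E) * (2 ^ (n * j) / X) :=
        add_le_add (hfirst.trans hfirst') hsecond
    _ = (2 + CM * Real.pi * (8 * Real.pi + 8 + 320)) * E * (2 ^ (n * j) / X) := by ring

end Pool.Agent.helper132_hp
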