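import Pool.Agent.helper132_hp.Stmts2
import Pool.Agent.helper132_hp.T_RL

/-! Weak approximation for quadratic forms in k-th powers: Riemann lemma for the restricted sums. -/

namespace Pool.Agent.helper132_hp

open Finset

namespace RLrx

open RLx

section
variable {ι : Type} [Fintype ι] [DecidableEq ι]

theorem dvd_emod_iff {M Q : ℤ} (h : M ∣ Q) (x v : ℤ) : M ∣ x % Q - v ↔ M ∣ x - v := by
  have e1 : x % Q - v = (x - v) - Q * (x / Q) := by
    have := Int.emod_add_mul_ediv x Q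
    linarith
  rw [e1]
  exact (Int.dvd_iff_dvd_of_dvd_sub (by
    rw [sub_sub_cancel_left]
    exact (h.mul_right _).neg_right)).trans Iff.rfl

/-- the sum over a complete set of residues, restricted. -/
theorem sum_res_shift_r (G : MvPolynomial ι ℤ) (M : ℕ) (v : ι → ℤ) (q : ℕ) (hq : 0 < q)
    (hM : 1 ≤ M) (c : ℤ) (z : ι → ℤ) :
    ∑ w ∈ res ι (q * M), (if ∀ l, (M : ℤ) ∣ z l + w l - v l then
      e ((c : ℝ) / q * ((MvPolynomial.eval (fun l => z l + w l) G : ℤ) : ℝ)) else 0) =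
      Cqr G M v q c := by
  unfold Cqr
  rw [Finset.sum_filter]
  have hQ : (0 : ℤ) < (q * M : ℕ) := by exact_mod_cast Nat.mul_pos hq hM
  have hMQ : (M : ℤ) ∣ ((q * M : ℕ) : ℤ) := by
    push_cast
    exact Dvd.intro_left _ rfl
  have hqQ : (q : ℤ) ∣ ((q * M : ℕ) : ℤ) := by
    push_cast
    exact Dvd.intro _ rfl
  refine Finset.sum_nbij' (fun w l => (z l + w l) % ((q * M : ℕ) : ℤ))
    (fun u l => (u l - z l) % ((q * M : ℕ) : ℤ)) ?_ ?_ ?_ ?_ ?_
  · intro w _
    rw [mem_res]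
    exact fun l => ⟨Int.emod_nonneg _ hQ.ne', Int.emod_lt_of_pos _ hQ⟩
  · intro w _
    rw [mem_res]
    exact fun l => ⟨Int.emod_nonneg _ hQ.ne', Int.emod_lt_of_pos _ hQ⟩
  · intro w hw
    funext l
    have := mem_res.mp hw l
    show ((z l + w l) % ((q * M : ℕ) : ℤ) - z l) % ((q * M : ℕ) : ℤ) = w l
    rw [Int.emod_sub_emod, add_sub_cancel_left, Int.emod_eq_of_lt this.1 this.2]
  · intro w hw
    funext l
    have := mem_res.mp hw l
    show (z l + (w l - z l) % ((q * M : ℕ) : ℤ)) % ((q * M : ℕ) : ℤ) = w l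
    rw [Int.add_emod_emod, add_sub_cancel, Int.emod_eq_of_lt this.1 this.2]
  · intro w hw
    have hiff : (∀ l, (M : ℤ) ∣ z l + w l - v l) ↔
        ∀ l, (M : ℤ) ∣ (z l + w l) % ((q * M : ℕ) : ℤ) - v l :=
      forall_congr' fun l => (dvd_emod_iff hMQ _ _).symm
    have he : e ((c : ℝ) / q * ((MvPolynomial.eval (fun l => z l + w l) G : ℤ) : ℝ)) =
        e ((c : ℝ) / q * ((MvPolynomial.eval (fun l => (z l + w l) % ((q * M : ℕ) : ℤ)) G : ℤ) :
          ℝ)) := by
      apply e_congr q hq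
      apply eval_congr
      intro l
      exact ((Int.mod_modEq _ _).symm).of_dvd hqQ
    show (if _ then _ else _) = (if _ then _ else _)
    rw [he]
    simp only [hiff]

theorem norm_Cqr_le (G : MvPolynomial ι ℤ) (M : ℕ) (v : ι → ℤ) (q : ℕ) (c : ℤ) :
    ‖Cqr G M v q c‖ ≤ ((q * M : ℕ) : ℝ) ^ Fintype.card ι := by
  unfold Cqr
  refine (norm_sum_le _ _).trans ?_
  rw [Finset.sum_congr rfl fun z _ => norm_e _, Finset.sum_const, nsmul_eq_mul, mul_one,
    ← card_res]
  exact_mod_cast Finset.card_filter_le _ _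

theorem Sjr_eq (G : MvPolynomial ι ℤ) (a b : ι → ℤ) (M : ℕ) (v : ι → ℤ) (j : ℕ) (α : ℝ) :
    Sjr G a b M v j α = ∑ z ∈ box a b j, (if ∀ l, (M : ℤ) ∣ z l - v l then
      e (α * ((MvPolynomial.eval z G : ℤ) : ℝ)) else 0) := by
  unfold Sjr boxr
  rw [Finset.sum_filter]

theorem norm_ite_e (p : Prop) [Decidable p] (x : ℝ) : ‖(if p then e x else 0 : ℂ)‖ ≤ 1 := by
  split_ifs
  · exact (norm_e _).le
  · simp

theorem norm_Sjr_le (G : MvPolynomial ι ℤ) {a b : ι → ℤ} (hab : ∀ l, a l < b l) (M : ℕ)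
    (v : ι → ℤ) (j : ℕ) (α : ℝ) :
    ‖Sjr G a b M v j α‖ ≤ V a b * 2 ^ (Fintype.card ι * j) := by
  rw [Sjr_eq]
  have := norm_sum_box_le hab j (fun z => (if ∀ l, (M : ℤ) ∣ z l - v l then
      e (α * ((MvPolynomial.eval z G : ℤ) : ℝ)) else 0)) 1 (fun z _ => norm_ite_e _ _)
  rw [mul_one] at this
  exact this

end

end RLrx

open RLx RLrx in
theorem t_RLr : S_RLr := by
  intro ι _ _ G D hD hG a b hab m v hm
  obtain ⟨M, hM, hMb⟩ := box_abs a b
  obtain ⟨K, hK, hL⟩ := lip2 hG (M + 1) (by linarith)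
  have hV := V_pos hab
  have hpi := Real.pi_pos
  refine ⟨V a b * (2 + 2 * Fintype.card ι + 2 * Real.pi * K) * m, ?_⟩
  intro j q c β hq0
  set n := Fintype.card ι with hn
  obtain ⟨Q, hQ⟩ : ∃ Q : ℕ, Q = q * m := ⟨_, rfl⟩
  have hQ0 : 0 < Q := by rw [hQ]; exact Nat.mul_pos hq0 hm
  have hQr : (0 : ℝ) < Q := by exact_mod_cast hQ0
  have h2j : (0 : ℝ) < 2 ^ j := by positivity
  have hY : 0 ≤ |β| * 2 ^ (D * j) := by positivity
  rw [← hQ]
  have hgoal : V a b * (2 + 2 * (n : ℝ) + 2 * Real.pi * K) * m * 2 ^ (n * j) *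
      (q * (1 + |β| * 2 ^ (D * j)) / 2 ^ j) =
      V a b * (2 + 2 * (n : ℝ) + 2 * Real.pi * K) * 2 ^ (n * j) *
      (Q * (1 + |β| * 2 ^ (D * j)) / 2 ^ j) := by
    rw [hQ]
    push_cast
    ring
  rw [hgoal]
  have hCn : ‖Cqr G m v q c‖ ≤ (Q : ℝ) ^ n := by
    rw [hQ]
    exact norm_Cqr_le G m v q c
  have hCq : ‖Cqr G m v q c / (Q : ℂ) ^ n‖ ≤ 1 := by
    rw [norm_div, norm_pow, Complex.norm_natCast]
    exact div_le_one_of_le₀ hCn (by positivity)
  by_cases hqj : (2 : ℝ) ^ j < Q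
  · -- trivial range
    have h1 : ‖Sjr G a b m v j ((c : ℝ) / q + β) - Cqr G m v q c / (Q : ℂ) ^ n * Sj G a b j β‖ ≤
        2 * (V a b * 2 ^ (n * j)) := by
      refine (norm_sub_le _ _).trans ?_
      rw [norm_mul]
      have e1 := norm_Sjr_le G hab m v j ((c : ℝ) / q + β)
      have e2 := norm_Sj_le G hab j β
      have e3 : ‖Cqr G m v q c / (Q : ℂ) ^ n‖ * ‖Sj G a b j β‖ ≤ 1 * (V a b * 2 ^ (n * j)) :=
        mul_le_mul hCq e2 (norm_nonneg _) zero_le_one
      linarith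
    refine h1.trans ?_
    have h2 : 1 ≤ (Q : ℝ) * (1 + |β| * 2 ^ (D * j)) / 2 ^ j := by
      rw [le_div_iff₀ h2j]
      nlinarith
    have h3 : (0 : ℝ) < 2 ^ (n * j) := by positivity
    have h4 : 2 * (V a b * 2 ^ (n * j)) ≤
        V a b * (2 + 2 * (n : ℝ) + 2 * Real.pi * K) * 2 ^ (n * j) := by
      have : 0 ≤ V a b * (2 * (n : ℝ) + 2 * Real.pi * K) * 2 ^ (n * j) := by positivity
      linarith
    have h5 : V a b * (2 + 2 * (n : ℝ) + 2 * Real.pi * K) * 2 ^ (n * j) * 1 ≤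
        V a b * (2 + 2 * (n : ℝ) + 2 * Real.pi * K) * 2 ^ (n * j) *
          ((Q : ℝ) * (1 + |β| * 2 ^ (D * j)) / 2 ^ j) :=
      mul_le_mul_of_nonneg_left h2 (by positivity)
    linarith
  · push Not at hqj
    -- the identity
    let F : (ι → ℤ) → ℂ := fun z => if ∀ l, (m : ℤ) ∣ z l - v l then
      e (((c : ℝ) / q + β) * ((MvPolynomial.eval z G : ℤ) : ℝ)) else 0
    let A : (ι → ℤ) → ℂ := fun z => if ∀ l, (m : ℤ) ∣ z l - v l then
      e ((c : ℝ) / q * ((MvPolynomial.eval z G : ℤ) : ℝ)) else 0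
    let E : (ι → ℤ) → ℂ := fun z => e (β * ((MvPolynomial.eval z G : ℤ) : ℝ))
    have hF : ∀ z, F z = A z * E z := by
      intro z
      simp only [F, A, E]
      split_ifs
      · rw [← e_add, add_mul]
      · rw [zero_mul]
    have hCS : Cqr G m v q c * Sj G a b j β = ∑ w ∈ res ι Q, ∑ z ∈ box a b j,
        A (fun l => z l + w l) * E z := by
      rw [Finset.sum_comm]
      unfold Sj
      rw [Finset.mul_sum]
      refine Finset.sum_congr rfl fun z _ => ?_
      rw [← Finset.sum_mul, ← sum_res_shift_r G m v q hq0 hm c z, ← hQ]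
    have hid : (Q : ℂ) ^ n * Sjr G a b m v j ((c : ℝ) / q + β) - Cqr G m v q c * Sj G a b j β =
        ∑ w ∈ res ι Q, ((∑ z ∈ box a b j, F z - ∑ z ∈ box a b j, F (fun l => z l + w l)) +
          ∑ z ∈ box a b j, A (fun l => z l + w l) *
              (E (fun l => z l + w l) - E z)) := by
      rw [hCS]
      have hcr : ((res ι Q).card : ℂ) = (Q : ℂ) ^ n := by
        have := card_res (ι := ι) Q
        exact_mod_cast this
      have h1 : (Q : ℂ) ^ n * Sjr G a b m v j ((c : ℝ) / q + β) =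
          ∑ w ∈ res ι Q, ∑ z ∈ box a b j, F z := by
        rw [Finset.sum_const, nsmul_eq_mul, hcr, Sjr_eq]
      rw [h1, ← Finset.sum_sub_distrib]
      refine Finset.sum_congr rfl fun w _ => ?_
      have h2 : ∑ z ∈ box a b j, F (fun l => z l + w l) = ∑ z ∈ box a b j,
          A (fun l => z l + w l) * E (fun l => z l + w l) := Finset.sum_congr rfl fun z _ => hF _
      simp only [mul_sub]
      rw [h2, Finset.sum_sub_distrib]
      ring
    have hterm : ∀ w ∈ res ι Q,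
        ‖(∑ z ∈ box a b j, F z - ∑ z ∈ box a b j, F (fun l => z l + w l)) +
          ∑ z ∈ box a b j, A (fun l => z l + w l) * (E (fun l => z l + w l) - E z)‖ ≤
          V a b * (2 + 2 * (n : ℝ) + 2 * Real.pi * K) * 2 ^ (n * j) *
            (Q * (1 + |β| * 2 ^ (D * j)) / 2 ^ j) := by
      intro w hw
      have s1 := shift hab j Q w hw F (fun z => norm_ite_e _ _)
      have s1' : ‖∑ z ∈ box a b j, F z - ∑ z ∈ box a b j, F (fun l => z l + w l)‖ ≤
          2 * n * Q * (V a b * 2 ^ (n * j)) / 2 ^ j := by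
        rw [le_div_iff₀ h2j]
        exact s1
      have s2 : ‖∑ z ∈ box a b j, A (fun l => z l + w l) * (E (fun l => z l + w l) - E z)‖ ≤
          V a b * 2 ^ (n * j) * (2 * Real.pi * (|β| * (K * 2 ^ (D * j) * Q / 2 ^ j))) := by
        apply norm_sum_box_le hab
        intro z hz
        rw [norm_mul]
        refine (mul_le_of_le_one_left (norm_nonneg _) (norm_ite_e _ _)).trans ?_
        refine (norm_e_sub _ _).trans ?_
        refine mul_le_mul_of_nonneg_left ?_ (by positivity)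
        rw [← mul_sub, abs_mul]
        refine mul_le_mul_of_nonneg_left ?_ (abs_nonneg _)
        rw [le_div_iff₀ h2j]
        have hzb := hMb j z hz
        have hwr := mem_res.mp hw
        have hwr' : ∀ l, (0 : ℝ) ≤ w l ∧ (w l : ℝ) ≤ Q := by
          intro l
          obtain ⟨u1, u2⟩ := hwr l
          exact ⟨by exact_mod_cast u1, by exact_mod_cast u2.le⟩
        refine hL j _ _ (Q : ℝ) hQr.le ?_ ?_ ?_
        · intro l
          push_cast
          refine (abs_add_le _ _).trans ?_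
          rw [abs_of_nonneg (hwr' l).1]
          linarith [hzb l, (hwr' l).2]
        · intro l
          linarith [hzb l]
        · intro l
          push_cast
          rw [add_sub_cancel_left, abs_of_nonneg (hwr' l).1]
          exact (hwr' l).2
      refine (norm_add_le _ _).trans ((add_le_add s1' s2).trans ?_)
      have h3 : 2 * (n : ℝ) * Q * (V a b * 2 ^ (n * j)) / 2 ^ j +
          V a b * 2 ^ (n * j) * (2 * Real.pi * (|β| * (K * 2 ^ (D * j) * Q / 2 ^ j))) =
          V a b * 2 ^ (n * j) * (Q / 2 ^ j) *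
            (2 * (n : ℝ) + 2 * Real.pi * K * (|β| * 2 ^ (D * j))) := by
        field_simp
      have h4 : V a b * (2 + 2 * (n : ℝ) + 2 * Real.pi * K) * 2 ^ (n * j) *
            (Q * (1 + |β| * 2 ^ (D * j)) / 2 ^ j) = V a b * 2 ^ (n * j) * (Q / 2 ^ j) *
            ((2 + 2 * (n : ℝ) + 2 * Real.pi * K) * (1 + |β| * 2 ^ (D * j))) := by
        field_simp
      rw [h3, h4]
      refine mul_le_mul_of_nonneg_left ?_ (by positivity)
      have h5 : 0 ≤ 2 + (2 * (n : ℝ) + 2) * (|β| * 2 ^ (D * j)) + 2 * Real.pi * K := by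
        positivity
      nlinarith
    have hsum := (norm_sum_le _ _).trans (Finset.sum_le_sum hterm)
    rw [← hid, Finset.sum_const, nsmul_eq_mul, card_res] at hsum
    have hqn : (0 : ℝ) < (Q : ℝ) ^ n := by positivity
    have hqc : (Q : ℂ) ^ n ≠ 0 := by
      have : (Q : ℂ) ≠ 0 := by exact_mod_cast hQ0.ne'
      positivity
    have hfin : (Q : ℂ) ^ n * (Sjr G a b m v j ((c : ℝ) / q + β) -
        Cqr G m v q c / (Q : ℂ) ^ n * Sj G a b j β) =
        (Q : ℂ) ^ n * Sjr G a b m v j ((c : ℝ) / q + β) - Cqr G m v q c * Sj G a b j β := by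
      field_simp
    rw [← hfin, norm_mul, norm_pow, Complex.norm_natCast] at hsum
    exact le_of_mul_le_mul_left hsum hqn

end Pool.Agent.helper132_hp
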