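import Pool.Agent.helper132_hp.T_DICH
import Pool.Agent.helper132_hp.T_MV
import Pool.Agent.helper132_hp.T_VL
import Pool.Agent.helper132_hp.T_C1b
import Pool.Agent.helper132_hp.T_CNT
import Pool.Agent.helper132_hp.T_BS
import Pool.Agent.helper132_hp.T_FL
import Pool.Agent.helper132_hp.T_C2
import Pool.Agent.helper132_hp.T_NORM
import Pool.Agent.helper132_hp.T_GREEDY
import Pool.Agent.helper132_hp.T_PERT
import Pool.Agent.helper132_hp.T_AS
import Pool.Agent.helper132_hp.T_PAD
import Pool.Agent.helper132_hp.T_HEN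
import Pool.Agent.helper132_hp.T_RL
import Pool.Agent.helper132_hp.T_DEC
import Pool.Agent.helper132_hp.T_INT
import Pool.Agent.helper132_hp.T_REAL
import Pool.Agent.helper132_hp.T_DENS
import Pool.Agent.helper132_hp.T_C1ar
import Pool.Agent.helper132_hp.T_C1r
import Pool.Agent.helper132_hp.T_BSr
import Pool.Agent.helper132_hp.T_C2r
import Pool.Agent.helper132_hp.T_RLr
import Pool.Agent.helper132_hp.T_DECr
import Pool.Agent.helper132_hp.T_INTr
import Pool.Agent.helper132_hp.T_DENSr
import Pool.Agent.helper132_hp.T_HENr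
import Pool.Agent.helper132_hp.T_ACMr
import Pool.Agent.helper132_hp.T_FINr

/-! The restricted final theorem, all parts put together. -/

namespace Pool.Agent.helper132_hp

theorem finr : S_FINr := by
  have hPAD : S_PAD := t_PAD (t_AS t_NORM t_GREEDY t_CNT t_PERT)
  have hDEC : S_DEC := t_DEC t_RL t_SC
  have hACMr : S_ACMr := t_ACMr hDEC (t_DECr t_RLr hDEC) t_INTr t_REAL (t_DENSr t_DENS)
  have hC2 : S_C2 := t_C2 (t_BS t_MV t_VL) t_FL
  have hC1 : S_C1 := t_C1 t_MV t_VL
  have hC1r : S_C1r := t_C1r (t_C1mv t_MV) (t_C1ar t_MV t_VL)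
  have hC2r : S_C2r := t_C2r (t_BSr t_MV t_VL) t_FL
  exact t_FINr t_DICH hC1 hC1r hC2 hC2r hPAD t_HENr hACMr

end Pool.Agent.helper132_hp
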