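import Pool.Agent.helper132_hp.Defs

/-! Hasse principle for quadratic forms in k-th powers: the statements of the parts. -/

namespace Pool.Agent.helper132_hp

open Finset

/-! ### Part I: the abstract circle method -/

/-- Riemann lemma. -/
def S_RL : Prop := ∀ (ι : Type) [Fintype ι] [DecidableEq ι] (G : MvPolynomial ι ℤ) (D : ℕ),
  1 ≤ D → G.IsHomogeneous D → ∀ a b : ι → ℤ, (∀ l, a l < b l) →
  ∃ C : ℝ, ∀ (j q : ℕ) (c : ℤ) (β : ℝ), 0 < q →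
    ‖Sj G a b j ((c : ℝ) / q + β) - Cq G q c / (q : ℂ) ^ Fintype.card ι * Sj G a b j β‖ ≤
      C * 2 ^ (Fintype.card ι * j) * (q * (1 + |β| * 2 ^ (D * j)) / 2 ^ j)

/-- Change of scale. -/
def S_SC : Prop := ∀ (ι : Type) [Fintype ι] [DecidableEq ι] (G : MvPolynomial ι ℤ) (D : ℕ),
  1 ≤ D → G.IsHomogeneous D → ∀ a b : ι → ℤ, (∀ l, a l < b l) →
  ∃ C : ℝ, ∀ (i t : ℕ) (β : ℝ),
    ‖Sj G a b (i + t) β - (2 : ℂ) ^ (Fintype.card ι * t) * Sj G a b i (β * 2 ^ (D * t))‖ ≤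
      C * 2 ^ (Fintype.card ι * (i + t)) * (|β| * 2 ^ (D * (i + t)) / 2 ^ i)

/-- Decay of complete sums and the major arc bound. -/
def S_DEC : Prop := ∀ (ι : Type) [Fintype ι] [DecidableEq ι] (G : MvPolynomial ι ℤ) (D : ℕ),
  2 ≤ D → G.IsHomogeneous D → ∀ a b : ι → ℤ, (∀ l, a l < b l) → Crude G D a b →
  CDec G ∧ Maj G D a b

/-- Comparison with the smoothed count. -/
def S_INT : Prop := ∀ (ι : Type) [Fintype ι] [DecidableEq ι] (G : MvPolynomial ι ℤ) (D : ℕ),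
  2 ≤ D → G.IsHomogeneous D → ∀ a b : ι → ℤ, (∀ l, a l < b l) → Crude G D a b → Maj G D a b →
  ∃ C : ℝ, 0 < C ∧ ∃ j1 : ℕ, ∀ j ≥ j1, ∀ N H : ℕ, 1 ≤ N →
    |(N0 G a b j : ℝ) - N1 G a b j (N.factorial) H / (2 * H + 1)| ≤
      C * ((N.factorial * H : ℝ) / 2 ^ (D * j) + 1 / N + 1 / (j + 1)) *
        (2 ^ (Fintype.card ι * j) / 2 ^ (D * j))

/-- Real density. -/
def S_REAL : Prop := ∀ (ι : Type) [Fintype ι] [DecidableEq ι] (G : MvPolynomial ι ℤ) (D : ℕ),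
  1 ≤ D → G.IsHomogeneous D → ∀ a b : ι → ℤ, RealSm G a b →
  ∃ c : ℝ, 0 < c ∧ ∀ (W : ℕ) (ε : ℝ), 1 ≤ W → 0 < ε → ε ≤ 1 → ∃ j0 : ℕ, ∀ j ≥ j0, ∀ v : ι → ℤ,
    c * ε * 2 ^ (Fintype.card ι * j) ≤ (W : ℝ) ^ Fintype.card ι *
      ((box a b j).filter fun z => (∀ l, (W : ℤ) ∣ z l - v l) ∧
        |((MvPolynomial.eval z G : ℤ) : ℝ)| ≤ ε * 2 ^ (D * j)).card

/-- Product of the `p`-adic densities. -/
def S_DENS : Prop := ∀ (ι : Type) [Fintype ι] [DecidableEq ι] (G : MvPolynomial ι ℤ),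
  CDec G → PDens G → ∃ c : ℝ, 0 < c ∧ ∀ W : ℕ, 1 ≤ W →
    c * (W : ℝ) ^ Fintype.card ι ≤ Mq G W * W

/-- The abstract circle method theorem. -/
def S_ACM : Prop := ∀ (ι : Type) [Fintype ι] [DecidableEq ι] (G : MvPolynomial ι ℤ) (D : ℕ),
  2 ≤ D → G.IsHomogeneous D → ∀ a b : ι → ℤ, (∀ l, a l < b l) → Crude G D a b →
  RealSm G a b → PDens G → ∃ j0 : ℕ, ∀ j ≥ j0, ∃ z ∈ box a b j, MvPolynomial.eval z G = 0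

/-- Hensel lifting: a nonsingular `p`-adic zero gives a positive `p`-adic density. -/
def S_HEN : Prop := ∀ (ι : Type) [Fintype ι] [DecidableEq ι] (G : MvPolynomial ι ℤ) (p : ℕ)
  [Fact p.Prime] (z : ι → ℤ_[p]), MvPolynomial.aeval z G = 0 →
  (∃ l, MvPolynomial.aeval z (MvPolynomial.pderiv l G) ≠ 0) →
  ∃ c : ℝ, 0 < c ∧ ∀ m : ℕ, c * ((p : ℝ) ^ m) ^ Fintype.card ι ≤ Mq G (p ^ m) * (p : ℝ) ^ m

/-! ### Part II: the minor arcs -/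

/-- Mean value for the pair of exponents `k, 2k`, with `2b = 2k(2k+1)` variables. -/
def S_MV : Prop := ∀ k : ℕ, 1 ≤ k → ∀ (a b : ℤ), a < b → ∀ η : ℝ, 0 < η → ∃ C : ℝ, 0 < C ∧
  ∀ (j : ℕ) (m1 m2 : ℤ),
    ((((Fintype.piFinset fun _ : Fin (bb k) => Finset.Ico (a * 2 ^ j) (b * 2 ^ j)) ×ˢ
      (Fintype.piFinset fun _ : Fin (bb k) => Finset.Ico (a * 2 ^ j) (b * 2 ^ j))).filter
        fun w => (∑ i, w.1 i ^ k - ∑ i, w.2 i ^ k = m1) ∧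
          (∑ i, w.1 i ^ (2 * k) - ∑ i, w.2 i ^ (2 * k) = m2)).card : ℝ) ≤
      C * (2 : ℝ) ^ (((2 * bb k : ℝ) - 3 * k + η) * j)

/-- The reciprocal sum of Weyl's method. -/
def S_VL : Prop := ∀ (α : ℝ) (c : ℤ) (q : ℕ), 0 < q → IsCoprime c (q : ℤ) →
  |α - (c : ℝ) / q| ≤ 1 / (q : ℝ) ^ 2 → ∀ (H M : ℕ) (x y : ℤ), 1 ≤ M → y - x ≤ M →
  ∑ h ∈ Finset.Icc (-(H : ℤ)) H, ‖∑ m ∈ Finset.Ico x y, e (α * h * m)‖ ≤
    50 * ((H : ℝ) / q + 1) * (M + q * (1 + Real.log q))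

/-- Minor arcs when there is a large off-diagonal minor. -/
def S_C1 : Prop := ∀ k : ℕ, 1 ≤ k → ∀ (s : ℕ) (A : Matrix (Fin s) (Fin s) ℤ), A.IsSymm →
  ∀ I J : Fin (r1 k) → Fin s, Function.Injective I → Function.Injective J →
  (∀ i j, I i ≠ J j) → (A.submatrix I J).det ≠ 0 →
  ∀ a b : Fin s → ℤ, (∀ l, a l < b l) → Crude (G1 A k) (2 * k) a b

/-- The bilinear sum in two variables, `80 b^2` -th power, `D = 4k`. -/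
def S_BS : Prop := ∀ k : ℕ, 1 ≤ k → ∀ d : ℤ, d ≠ 0 → ∀ (a b a' b' : ℤ), a < b → a' < b' →
  ∃ C : ℝ, 0 < C ∧ ∀ (j : ℕ) (α : ℝ) (c : ℤ) (q : ℕ), 0 < q → IsCoprime c (q : ℤ) →
    |α - (c : ℝ) / q| ≤ 1 / (q : ℝ) ^ 2 → 2 ^ j ≤ q ^ 10 →
    q ^ 10 * 2 ^ j ≤ 2 ^ (10 * (4 * k) * j) → ∀ θ : ℝ,
    ‖∑ u ∈ Finset.Ico (a * 2 ^ j) (b * 2 ^ j), ∑ v ∈ Finset.Ico (a' * 2 ^ j) (b' * 2 ^ j),
      e (α * d * ((u : ℝ) * v) ^ (2 * k) + θ * ((u : ℝ) * v) ^ k)‖ ^ (80 * bb k ^ 2) * 2 ^ j ≤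
      C * 2 ^ (160 * bb k ^ 2 * j)

/-- Removing a function of `m` bounded integer forms costs a square root. -/
def S_FL : Prop := ∀ (m H : ℕ) (Z : Type) (F : Finset Z) (w : Z → ℂ) (L : Z → Fin m → ℤ)
  (Γ : (Fin m → ℤ) → ℂ) (B : ℝ), (∀ z ∈ F, ∀ i, |L z i| ≤ (H : ℤ)) → (∀ h, ‖Γ h‖ ≤ 1) →
  (∀ θ : Fin m → ℝ, ‖∑ z ∈ F, w z * e (∑ i, θ i * (L z i : ℝ))‖ ≤ B) →
  ‖∑ z ∈ F, w z * Γ (L z)‖ ^ 2 ≤ (2 * (H : ℝ) + 1) ^ m * B ^ 2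

/-- Minor arcs when the form is diagonal plus low rank on many variables. -/
def S_C2 : Prop := ∀ k : ℕ, 1 ≤ k → ∀ (s : ℕ) (A : Matrix (Fin s) (Fin s) ℤ) 
  (P Q : Fin s → Fin (r1 k) → ℤ) (K : Finset (Fin s)), t1 k ≤ K.card →
  (∀ i ∈ K, ∀ j ∈ K, i ≠ j → A i j = ∑ m, P i m * Q j m) →
  (∀ i ∈ K, A i i ≠ ∑ m, P i m * Q i m) →
  ∀ a b : Fin s ⊕ Fin s → ℤ, (∀ l, a l < b l) → Crude (G2 A k) (4 * k) a b

/-! ### Part III: linear algebra -/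

/-- The rank dichotomy. -/
def S_DICH : Prop := ∀ (s r : ℕ) (A : Matrix (Fin s) (Fin s) ℤ), A.det ≠ 0 →
  (∃ I J : Fin r → Fin s, Function.Injective I ∧ Function.Injective J ∧ (∀ i j, I i ≠ J j) ∧
    (A.submatrix I J).det ≠ 0) ∨
  (∃ (Λ : ℤ) (P Q : Fin s → Fin r → ℤ) (K : Finset (Fin s)), Λ ≠ 0 ∧ s ≤ K.card + 4 * r ∧
    (∀ i ∈ K, ∀ j ∈ K, i ≠ j → Λ * A i j = ∑ m, P i m * Q j m) ∧
    (∀ i ∈ K, Λ * A i i ≠ ∑ m, P i m * Q i m))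

/-! ### Part IV: p-adic zeros -/

/-- Normalisation of a system of `R` additive forms. -/
def S_NORM : Prop := ∀ (p : ℕ) [Fact p.Prime] (k R : ℕ), 1 ≤ k → 1 ≤ R →
  ∀ (ι : Type) [Fintype ι] [DecidableEq ι] (c : Fin R → ι → ℚ_[p]), R ≤ Fintype.card ι →
  (∀ T : Fin R → ι, Function.Injective T → (Matrix.of fun m i => c m (T i)).det ≠ 0) →
  ∃ (g : Matrix (Fin R) (Fin R) ℚ_[p]) (ex : ι → ℤ) (c' : Fin R → ι → ℤ_[p]), g.det ≠ 0 ∧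
    (∀ m i, ((c' m i : ℤ_[p]) : ℚ_[p]) = ∑ l, g m l * c l i * ((p : ℚ_[p]) ^ ex i) ^ k) ∧
    (∀ lam : Fin R → ℤ_[p], (∃ m, IsUnit (lam m)) →
      Fintype.card ι ≤ R * k * (Finset.univ.filter fun i => ¬ ‖∑ m, lam m * c' m i‖ < 1).card)

/-- Greedy choice of disjoint bases. -/
def S_GREEDY : Prop := ∀ (p : ℕ) [Fact p.Prime] (k R n : ℕ), 1 ≤ k → 1 ≤ R →
  ∀ (ι : Type) [Fintype ι] [DecidableEq ι] (c : Fin R → ι → ℤ_[p]), R * R * k * n ≤ Fintype.card ι →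
  (∀ lam : Fin R → ℤ_[p], (∃ m, IsUnit (lam m)) →
    Fintype.card ι ≤ R * k * (Finset.univ.filter fun i => ¬ ‖∑ m, lam m * c m i‖ < 1).card) →
  ∃ T : Fin n × Fin R → ι, Function.Injective T ∧
    ∀ t, IsUnit (Matrix.of fun m i => c m (T (t, i))).det

/-- Solving the system once there are many disjoint bases. -/
def S_CNT : Prop := ∀ (p : ℕ) [Fact p.Prime] (k R : ℕ), 1 ≤ k → 1 ≤ R →
  ∀ (ι : Type) [Fintype ι] [DecidableEq ι] (c : Fin R → ι → ℤ_[p])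
  (T : Fin (nb R k) × Fin R → ι), Function.Injective T →
  (∀ t, IsUnit (Matrix.of fun m i => c m (T (t, i))).det) →
  ∃ y : ι → ℤ_[p], (∃ i, IsUnit (y i)) ∧ ∀ m, ∑ i, c m i * y i ^ k = 0

/-- Perturbation and compactness: from nonzero minors to all systems. -/
def S_PERT : Prop := ∀ (p : ℕ) [Fact p.Prime] (k R : ℕ), 1 ≤ k → 1 ≤ R →
  ∀ (ι : Type) [Fintype ι] [DecidableEq ι], R ≤ Fintype.card ι →
  (∀ c : Fin R → ι → ℚ_[p],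
    (∀ T : Fin R → ι, Function.Injective T → (Matrix.of fun m i => c m (T i)).det ≠ 0) →
    ∃ y : ι → ℚ_[p], y ≠ 0 ∧ ∀ m, ∑ i, c m i * y i ^ k = 0) →
  ∀ c : Fin R → ι → ℚ_[p], ∃ y : ι → ℚ_[p], y ≠ 0 ∧ ∀ m, ∑ i, c m i * y i ^ k = 0

/-- Additive systems over `ℚ_p`. -/
def S_AS : Prop := ∀ (p : ℕ) [Fact p.Prime] (k R : ℕ), 1 ≤ k → 1 ≤ R →
  ∀ (ι : Type) [Fintype ι] [DecidableEq ι], Nas R k ≤ Fintype.card ι →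
  ∀ c : Fin R → ι → ℚ_[p], ∃ y : ι → ℚ_[p], y ≠ 0 ∧ ∀ m, ∑ i, c m i * y i ^ k = 0

/-- Nonsingular `p`-adic zeros of `Q(y^k)`. -/
def S_PAD : Prop := ∀ (p : ℕ) [Fact p.Prime] (k : ℕ), 1 ≤ k → ∀ (s : ℕ), sp k ≤ s →
  ∀ A : Matrix (Fin s) (Fin s) ℤ, A.IsSymm → A.det ≠ 0 →
  ∃ y : Fin s → ℤ_[p], MvPolynomial.aeval y (G1 A k) = 0 ∧
    ∃ l, MvPolynomial.aeval y (MvPolynomial.pderiv l (G1 A k)) ≠ 0

/-! ### Part V: real zeros, odd and even `k` -/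

/-- For odd `k` a nontrivial real zero gives a nonsingular one. -/
def S_ODD : Prop := ∀ k : ℕ, Odd k → ∀ s : ℕ, 3 ≤ s → ∀ A : Matrix (Fin s) (Fin s) ℤ, A.IsSymm →
  A.det ≠ 0 → (∃ y : Fin s → ℝ, y ≠ 0 ∧ MvPolynomial.aeval y (G1 A k) = 0) →
  ∃ y : Fin s → ℝ, MvPolynomial.aeval y (G1 A k) = 0 ∧
    ∃ l, MvPolynomial.aeval y (MvPolynomial.pderiv l (G1 A k)) ≠ 0

/-- For even `k` the Hasse principle (with possibly singular zeros) fails in every large number of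
variables. -/
def S_EVEN : Prop := ∀ k : ℕ, Even k → 2 ≤ k → ∀ s : ℕ, 8 * k ^ 3 + 3 ≤ s →
  ∃ A : Matrix (Fin s) (Fin s) ℚ, A.IsSymm ∧ A.det ≠ 0 ∧
    (∃ y : Fin s → ℝ, y ≠ 0 ∧ Fm (A.map ((↑) : ℚ → ℝ)) k y = 0) ∧
    (∀ (p : ℕ) [Fact p.Prime], ∃ y : Fin s → ℚ_[p], y ≠ 0 ∧ Fm (A.map ((↑) : ℚ → ℚ_[p])) k y = 0) ∧
    ¬ ∃ y : Fin s → ℚ, y ≠ 0 ∧ Fm A k y = 0

end Pool.Agent.helper132_hp
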