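import Pool.Agent.helper132_hp.T_PAD
import Pool.Agent.helper132_hp.Stmts2

/-! Approximation of singular zeros: statements of the parts. -/

namespace Pool.Agent.helper132_hp

open Finset Matrix

/-- `k`-th roots near `1`. -/
def S_ROOT : Prop := ∀ (p : ℕ) [Fact p.Prime] (k : ℕ), 1 ≤ k → ∀ ε : ℝ, 0 < ε →
  ∃ η : ℝ, 0 < η ∧ ∀ δ : ℚ_[p], ‖δ‖ < η → ∃ r : ℚ_[p], r ^ k = 1 + δ ∧ ‖r - 1‖ < ε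

/-- A large nonsingular principal submatrix off a small set. -/
def S_PRIN : Prop := ∀ (K : Type) [Field K] (n : ℕ) (A : Matrix (Fin n) (Fin n) K), A.IsSymm →
  A.det ≠ 0 → ∀ J : Finset (Fin n), ∃ (m : ℕ) (f : Fin m → Fin n), Function.Injective f ∧
    (∀ i, f i ∉ J) ∧ n ≤ m + 2 * J.card ∧ (A.submatrix f f).det ≠ 0

/-- A common zero of a quadratic form and a linear form in `k`-th powers. -/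
def S_COM : Prop := ∀ (p : ℕ) [Fact p.Prime] (k : ℕ), 1 ≤ k → ∀ (s : ℕ)
  (A : Matrix (Fin s) (Fin s) ℚ_[p]), A.IsSymm → ∀ (c : Fin s → ℚ_[p]) (J : Finset (Fin s)),
  Nas 1 (2 * k) * Nas (Nas 1 (2 * k) + 1) k ≤ J.card →
  ∃ t : Fin s → ℚ_[p], t ≠ 0 ∧ (∀ l, t l ≠ 0 → l ∈ J) ∧ ∑ l, c l * t l ^ k = 0 ∧
    PADx.pw k t ⬝ᵥ A *ᵥ PADx.pw k t = 0

/-- Every `p`-adic zero is a limit of nonsingular ones. -/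
def S_SLIM : Prop := ∀ (p : ℕ) [Fact p.Prime] (k : ℕ), 1 ≤ k → ∀ (s : ℕ), 3 * sp k ≤ s →
  ∀ A : Matrix (Fin s) (Fin s) ℚ_[p], A.IsSymm → A.det ≠ 0 →
  ∀ z : Fin s → ℚ_[p], PADx.pw k z ⬝ᵥ A *ᵥ PADx.pw k z = 0 → ∀ ε : ℝ, 0 < ε →
  ∃ y : Fin s → ℚ_[p], PADx.pw k y ⬝ᵥ A *ᵥ PADx.pw k y = 0 ∧
    (∃ l, y l ≠ 0 ∧ (A *ᵥ PADx.pw k y) l ≠ 0) ∧ ∀ l, ‖y l - z l‖ < ε

/-- For odd `k` every real zero is a limit of nonsingular ones, if there is a nonzero one. -/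
def S_ODDL : Prop := ∀ (k : ℕ), Odd k → ∀ (s : ℕ), 3 ≤ s →
  ∀ A : Matrix (Fin s) (Fin s) ℝ, A.IsSymm → A.det ≠ 0 →
  (∃ y : Fin s → ℝ, y ≠ 0 ∧ PADx.pw k y ⬝ᵥ A *ᵥ PADx.pw k y = 0) →
  ∀ z : Fin s → ℝ, PADx.pw k z ⬝ᵥ A *ᵥ PADx.pw k z = 0 → ∀ ε : ℝ, 0 < ε →
  ∃ y : Fin s → ℝ, PADx.pw k y ⬝ᵥ A *ᵥ PADx.pw k y = 0 ∧
    (∃ l, y l ≠ 0 ∧ (A *ᵥ PADx.pw k y) l ≠ 0) ∧ ∀ l, |y l - z l| < ε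

/-- The strong final statement: all `p`-adic zeros; for odd `k` all real zeros. -/
def S_WAs : Prop := ∃ C : ℕ, ∀ k ≥ 1, ∀ s ≥ C * k ^ 65, ∀ A : Matrix (Fin s) (Fin s) ℚ,
  A.IsSymm → A.det ≠ 0 →
  ∀ (y : Fin s → ℝ), FF ℝ A k y = 0 → (SmoothAt ℝ A k y ∨ (Odd k ∧ HasZero ℝ A k)) →
  ∀ (S : Finset ℕ) (Y : ∀ (p : ℕ) [Fact p.Prime], Fin s → ℚ_[p]),
    (∀ p ∈ S, ∀ [Fact p.Prime], FF ℚ_[p] A k (Y p) = 0) →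
  ∀ ε : ℝ, 0 < ε → ∃ z : Fin s → ℚ, FF ℚ A k z = 0 ∧ (∀ l, |(z l : ℝ) - y l| < ε) ∧
    ∀ p ∈ S, ∀ [Fact p.Prime], ∀ l, ‖((z l : ℚ) : ℚ_[p]) - Y p l‖ < ε

end Pool.Agent.helper132_hp
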