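import Mathlib

/-! Local ideals (Mazur's question): statements of the parts. -/

namespace Pool.Agent.helper132_hp

/-- A polynomial that vanishes at all zeros of an irreducible polynomial `G` near a nonsingular zero
of `G` is divisible by `G`. -/
def S_ZAR : Prop := ∀ (L : Type) [NontriviallyNormedField L] [CompleteSpace L] [CharZero L]
  (s : ℕ) (G : MvPolynomial (Fin s) ℚ), Irreducible G → ∀ x : Fin s → L,
  MvPolynomial.aeval x G = 0 → (∃ l, MvPolynomial.aeval x (MvPolynomial.pderiv l G) ≠ 0) →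
  ∀ f : MvPolynomial (Fin s) ℚ,
    (∀ᶠ y in nhds x, MvPolynomial.aeval y G = 0 → MvPolynomial.aeval y f = 0) → G ∣ f

/-- The ideal of the polynomials that vanish on the cone over the rational points of `F = 0` in a
neighbourhood of the point `x`. -/
def LocId (L : Type) [NontriviallyNormedField L] {s : ℕ} (F : MvPolynomial (Fin s) ℚ)
    (x : Fin s → L) : Set (MvPolynomial (Fin s) ℚ) :=
  {f | ∃ U ∈ nhds x, ∀ y : Fin s → ℚ, y ≠ 0 → MvPolynomial.eval y F = 0 →
    (∃ c : L, c ≠ 0 ∧ (fun i => c * (y i : L)) ∈ U) → ∀ t : ℚ, MvPolynomial.eval (t • y) f = 0}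

/-- Finitely many local ideals, if the nonsingular zeros and the rational zeros are dense. -/
def S_FINI : Prop := ∀ (L : Type) [NontriviallyNormedField L] [CompleteSpace L] [CharZero L]
  (s : ℕ) (F : MvPolynomial (Fin s) ℚ) (D : ℕ), F.IsHomogeneous D →
  (∀ x : Fin s → L, x ≠ 0 → MvPolynomial.aeval x F = 0 → ∀ U ∈ nhds x,
    ∃ w ∈ U, MvPolynomial.aeval w F = 0 ∧ ∃ l, MvPolynomial.aeval w (MvPolynomial.pderiv l F) ≠ 0) →
  (∀ x : Fin s → L, x ≠ 0 → MvPolynomial.aeval x F = 0 → ∀ U ∈ nhds x,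
    ∃ y : Fin s → ℚ, y ≠ 0 ∧ MvPolynomial.eval y F = 0 ∧
      ∃ c : L, c ≠ 0 ∧ (fun i => c * (y i : L)) ∈ U) →
  {J | ∃ x : Fin s → L, x ≠ 0 ∧ MvPolynomial.aeval x F = 0 ∧ J = LocId L F x}.Finite

end Pool.Agent.helper132_hp
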