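import Pool.Agent.helper132_hp.T_C1x5

/-! Minor arcs, part C1: the theorem. -/

namespace Pool.Agent.helper132_hp

open Finset

namespace C1x

theorem rho_pow (b0 j : ℕ) :
    ((2 : ℝ) ^ (1 / (40 * (2 * b0 + 1) : ℝ) * j)) ^ (40 * (2 * b0 + 1)) = 2 ^ j := by
  rw [← Real.rpow_natCast, ← Real.rpow_mul (by norm_num), ← Real.rpow_natCast 2 j]
  congr 1
  push_cast
  field_simp

/-- the last step: cancelling powers. -/
theorem last_step (S P C Z : ℝ) (n N r s D Dr : ℕ) (hn : n ≠ 0) (hS : 0 ≤ S) (hP : 1 ≤ P)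
    (_hC : 0 ≤ C) (hN : N + 2 = 2 * n)
    (h : (S * (P ^ r * P ^ r)) ^ n ≤ ((C * P) ^ s) ^ n * (Z * P ^ N) ^ r)
    (hD : D * n + 1 ≤ 2 * r) (hDr : D = Dr) (hPC : (C ^ s) ^ n * Z ^ r ≤ P) :
    S * P ^ Dr ≤ P ^ s := by
  subst hDr
  have hP0 : 0 < P := by linarith
  rw [← pow_le_pow_iff_left₀ (by positivity) (by positivity) hn]
  have e1 : (S * (P ^ r * P ^ r)) ^ n = S ^ n * P ^ (2 * n * r) := by
    rw [mul_pow, ← pow_add, ← pow_mul]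
    congr 2
    ring
  have e2 : ((C * P) ^ s) ^ n * (Z * P ^ N) ^ r = ((C ^ s) ^ n * Z ^ r) * (P ^ (s * n) * P ^ (N * r)) := by
    rw [mul_pow C P, mul_pow, mul_pow Z, ← pow_mul P, ← pow_mul P]
    ring
  rw [e1, e2] at h
  have e3 : P ^ (2 * n * r) = P ^ (N * r) * P ^ (2 * r) := by
    rw [← hN, ← pow_add]
    congr 1
    ring
  rw [e3] at h
  have h2 : S ^ n * P ^ (2 * r) ≤ ((C ^ s) ^ n * Z ^ r) * P ^ (s * n) := by
    have hpos : 0 < P ^ (N * r) := by positivity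
    refine le_of_mul_le_mul_right ?_ hpos
    calc S ^ n * P ^ (2 * r) * P ^ (N * r) = S ^ n * (P ^ (N * r) * P ^ (2 * r)) := by ring
      _ ≤ _ := h
      _ = _ := by ring
  have h3 : S ^ n * P ^ (D * n + 1) ≤ P * P ^ (s * n) := by
    calc S ^ n * P ^ (D * n + 1) ≤ S ^ n * P ^ (2 * r) :=
          mul_le_mul_of_nonneg_left (pow_le_pow_right₀ hP hD) (by positivity)
      _ ≤ ((C ^ s) ^ n * Z ^ r) * P ^ (s * n) := h2
      _ ≤ P * P ^ (s * n) := mul_le_mul_of_nonneg_right hPC (by positivity)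
  have h4 : S ^ n * P ^ (D * n) ≤ P ^ (s * n) := by
    refine le_of_mul_le_mul_right ?_ hP0
    calc S ^ n * P ^ (D * n) * P = S ^ n * P ^ (D * n + 1) := by rw [pow_succ]; ring
      _ ≤ P * P ^ (s * n) := h3
      _ = P ^ (s * n) * P := by ring
  calc (S * P ^ D) ^ n = S ^ n * P ^ (D * n) := by rw [mul_pow, ← pow_mul]
    _ ≤ P ^ (s * n) := h4
    _ = (P ^ s) ^ n := by rw [← pow_mul]

theorem K_bound' (h1 : S_MV) (k : ℕ) (hk : 1 ≤ k) (b0 : ℕ) (hb0 : b0 = bb k) (a b : ℤ)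
    (hab : a < b) :
    ∃ C : ℝ, 0 < C ∧ ∀ (j : ℕ) (m : ℤ),
    ((((Fintype.piFinset fun _ : Fin b0 => Finset.Ico (a * 2 ^ j) (b * 2 ^ j)) ×ˢ
      (Fintype.piFinset fun _ : Fin b0 => Finset.Ico (a * 2 ^ j) (b * 2 ^ j))).filter
        fun w => ∑ i, w.1 i ^ k - ∑ i, w.2 i ^ k = m).card : ℝ) ≤
      C * (((2 : ℝ) ^ j) ^ (k * (4 * k + 1)) *
        (2 : ℝ) ^ (1 / (40 * (2 * b0 + 1) : ℝ) * j)) := by
  subst hb0
  exact K_bound h1 k hk a b hab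

theorem C1_main (h1 : S_MV) (h2 : S_VL) (k : ℕ) (hk : 1 ≤ k) (b0 : ℕ) (hb0 : b0 = bb k) (r : ℕ)
    (hr : (2 * k + 1) * (160 * b0 ^ 2) + 1 ≤ 2 * r) (s : ℕ) (A : Matrix (Fin s) (Fin s) ℤ)
    (hA : A.IsSymm) (I J : Fin r → Fin s) (hI : Function.Injective I) (hJ : Function.Injective J)
    (hIJ : ∀ i j, I i ≠ J j) (hdet : (A.submatrix I J).det ≠ 0) (a b : Fin s → ℤ)
    (hab : ∀ l, a l < b l) : Crude (G1 A k) (2 * k) a b := by
  have hbb : 1 ≤ b0 := by rw [hb0]; unfold bb; nlinarith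
  obtain ⟨c, hc1, hca, hcb⟩ : ∃ c : ℕ, 1 ≤ c ∧ (∀ l, |a l| ≤ (c : ℤ)) ∧ ∀ l, |b l| ≤ (c : ℤ) := by
    refine ⟨1 + ∑ l, ((a l).natAbs + (b l).natAbs), by omega, fun l => ?_, fun l => ?_⟩
    · have h := Finset.single_le_sum (f := fun l => (a l).natAbs + (b l).natAbs)
        (fun _ _ => Nat.zero_le _) (Finset.mem_univ l)
      have h' : (a l).natAbs ≤ 1 + ∑ l, ((a l).natAbs + (b l).natAbs) := by
        have h'' : (a l).natAbs + (b l).natAbs ≤ ∑ l, ((a l).natAbs + (b l).natAbs) := h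
        omega
      rw [← Int.natCast_natAbs]
      exact_mod_cast h'
    · have h := Finset.single_le_sum (f := fun l => (a l).natAbs + (b l).natAbs)
        (fun _ _ => Nat.zero_le _) (Finset.mem_univ l)
      have h' : (b l).natAbs ≤ 1 + ∑ l, ((a l).natAbs + (b l).natAbs) := by
        have h'' : (a l).natAbs + (b l).natAbs ≤ ∑ l, ((a l).natAbs + (b l).natAbs) := h
        omega
      rw [← Int.natCast_natAbs]
      exact_mod_cast h'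
  obtain ⟨β, hβ1, hβ⟩ : ∃ β : ℕ, 1 ≤ β ∧ ∀ i, ∑ l, |(A.submatrix I J) i l| ≤ (β : ℤ) := by
    refine ⟨1 + ∑ i, ∑ l, ((A.submatrix I J) i l).natAbs, by omega, fun i => ?_⟩
    have h := Finset.single_le_sum (f := fun i => ∑ l, ((A.submatrix I J) i l).natAbs)
        (fun _ _ => Nat.zero_le _) (Finset.mem_univ i)
    have h' : ∑ l, ((A.submatrix I J) i l).natAbs ≤
        1 + ∑ i, ∑ l, ((A.submatrix I J) i l).natAbs := le_trans h (Nat.le_add_left _ _)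
    have h3 : ∑ l, |(A.submatrix I J) i l| = ((∑ l, ((A.submatrix I J) i l).natAbs : ℕ) : ℤ) := by
      push_cast
      rfl
    rw [h3]
    exact_mod_cast h'
  choose C hC hCb using fun l => K_bound' h1 k hk b0 hb0 (a l) (b l) (hab l)
  obtain ⟨CL, hCL0, hCL⟩ := L_bound k hk
  have hC0le : ∀ l, C l ≤ 1 + ∑ l, C l := by
    intro l
    have h := Finset.single_le_sum (f := C) (fun i _ => (hC i).le) (Finset.mem_univ l)
    linarith
  have hC00 : 0 ≤ 1 + ∑ l, C l := by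
    have : 0 ≤ ∑ l, C l := Finset.sum_nonneg fun i _ => (hC i).le
    linarith
  obtain ⟨C0, hC0def⟩ : ∃ C0 : ℝ, C0 = 1 + ∑ l, C l := ⟨_, rfl⟩
  rw [← hC0def] at hC0le hC00
  obtain ⟨Cst, hCst⟩ : ∃ Cst : ℝ, Cst = ((2 * c : ℝ) ^ ((2 * b0 - 1) * (2 * b0) * 40) *
      C0 ^ (40 * (2 * b0 + 1)) * (3 * β * (2 * b0 * c ^ k)) ^ (40 * (2 * b0 - 1)) *
        ((300 * β * (2 * b0 * c ^ k) ^ 2) ^ 40 * 4 ^ 40 * CL)) := ⟨_, rfl⟩
  have hCst0 : 0 ≤ Cst := by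
    rw [hCst]
    refine mul_nonneg (mul_nonneg (mul_nonneg (by positivity) (pow_nonneg hC00 _))
      (by positivity)) (mul_nonneg (mul_nonneg (pow_nonneg (by positivity) _)
      (pow_nonneg (by norm_num) _)) hCL0.le)
  obtain ⟨j0, hj0⟩ := pow_unbounded_of_one_lt (((2 * c : ℝ) ^ s) ^ (2 * b0 * (2 * b0) * 40) * Cst ^ r)
    (show (1 : ℝ) < 2 by norm_num)
  refine ⟨j0, fun j hj α c' q hq hcq hα hq1 hq2 => ?_⟩
  have hL := hCL j q hq hq2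
  have hP : (1 : ℝ) ≤ 2 ^ j := one_le_pow₀ (by norm_num)
  obtain ⟨ρ, hρdef⟩ : ∃ ρ : ℝ, ρ = (2 : ℝ) ^ (1 / (40 * (2 * b0 + 1) : ℝ) * j) := ⟨_, rfl⟩
  have hρ0 : 0 ≤ ρ := by rw [hρdef]; positivity
  have hρ : ρ ^ (40 * (2 * b0 + 1)) = 2 ^ j := by rw [hρdef]; exact rho_pow b0 j
  have hKK : ∀ l, ∀ m : ℤ, ((((Fintype.piFinset fun _ : Fin b0 => Finset.Ico (a l * 2 ^ j) (b l * 2 ^ j)) ×ˢ
      (Fintype.piFinset fun _ : Fin b0 => Finset.Ico (a l * 2 ^ j) (b l * 2 ^ j))).filter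
        fun w => ∑ i, w.1 i ^ k - ∑ i, w.2 i ^ k = m).card : ℝ) ≤
          C0 * (((2 : ℝ) ^ j) ^ (k * (4 * k + 1)) * ρ) := by
    intro l m
    refine (hCb l j m).trans ?_
    rw [← hρdef]
    exact mul_le_mul_of_nonneg_right (hC0le l) (mul_nonneg (by positivity) hρ0)
  have hlev := T_level h2 k hk b0 hb0 r (A.submatrix I J) hdet (fun i => a (I i)) (fun i => b (I i))
    (fun i => a (J i)) (fun i => b (J i)) c β hc1 hβ1 (fun i => hca _) (fun i => hcb _)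
    (fun i => hca _) (fun i => hcb _) hβ C0 CL ρ hC00 hρ0 j hρ (fun i => hKK (I i))
    (fun i => hKK (J i)) α c' q hq hcq hα hq1 hq2 hL
  rw [← hCst] at hlev
  obtain ⟨n, hn⟩ : ∃ n : ℕ, n = 2 * b0 * (2 * b0) * 40 := ⟨_, rfl⟩
  obtain ⟨N, hN⟩ : ∃ N : ℕ, N = 2 * (160 * b0 ^ 2) - 2 := ⟨_, rfl⟩
  have hn0 : n ≠ 0 := by
    rw [hn]
    positivity
  have hn160 : n = 160 * b0 ^ 2 := by rw [hn]; ring
  have hNn : N + 2 = 2 * n := by
    rw [hN, hn160]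
    have : 1 ≤ b0 ^ 2 := Nat.one_le_pow _ _ hbb
    omega
  rw [← hn] at hj0 
  rw [← hn, ← hN] at hlev
  have hZ0 : 0 ≤ (Cst * ((2 : ℝ) ^ j) ^ N) ^ r := by positivity
  obtain ⟨T, hT⟩ : ∃ T : ℝ, T = ((Cst * ((2 : ℝ) ^ j) ^ N) ^ r) ^ ((n : ℝ)⁻¹) := ⟨_, rfl⟩
  have hT0 : 0 ≤ T := by rw [hT]; positivity
  have hTn : T ^ n = (Cst * ((2 : ℝ) ^ j) ^ N) ^ r := by
    rw [hT]
    exact Real.rpow_inv_natCast_pow hZ0 hn0
  have hSle := S_le A hA k I J hI hJ hIJ (fun l => Finset.Ico (a l * 2 ^ j) (b l * 2 ^ j)) α T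
    (fun g h => by
      rw [← pow_le_pow_iff_left₀ (norm_nonneg _) hT0 hn0, hTn]
      exact hlev g h)
  have hS : ‖Sj (G1 A k) a b j α‖ * (((2 : ℝ) ^ j) ^ r * ((2 : ℝ) ^ j) ^ r) ≤
      ((2 * c : ℝ) * 2 ^ j) ^ s * T := by
    have hU : ∀ I' : Fin r → Fin s, ((2 : ℝ) ^ j) ^ r ≤ ((Fintype.piFinset (fun i =>
        Finset.Ico (a (I' i) * 2 ^ j) (b (I' i) * 2 ^ j))).card : ℝ) := by
      intro I'
      rw [Fintype.card_piFinset]
      push_cast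
      calc ((2 : ℝ) ^ j) ^ r = ∏ _i : Fin r, (2 : ℝ) ^ j := by simp
        _ ≤ _ := Finset.prod_le_prod (fun _ _ => by positivity)
            fun i _ => le_card_Ico _ _ j (hab _)
    have hW : ((Fintype.piFinset (fun l => Finset.Ico (a l * 2 ^ j) (b l * 2 ^ j))).card : ℝ) ≤
        ((2 * c : ℝ) * 2 ^ j) ^ s := by
      rw [Fintype.card_piFinset]
      push_cast
      calc _ ≤ ∏ _l : Fin s, ((2 * c : ℝ) * 2 ^ j) :=
            Finset.prod_le_prod (fun _ _ => by positivity)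
              fun l _ => card_Ico_le _ _ c j (hca l) (hcb l)
        _ = _ := by simp
    calc ‖Sj (G1 A k) a b j α‖ * (((2 : ℝ) ^ j) ^ r * ((2 : ℝ) ^ j) ^ r) ≤
        ‖Sj (G1 A k) a b j α‖ * (((Fintype.piFinset (fun i =>
        Finset.Ico (a (I i) * 2 ^ j) (b (I i) * 2 ^ j))).card : ℝ) *
        ((Fintype.piFinset (fun i =>
        Finset.Ico (a (J i) * 2 ^ j) (b (J i) * 2 ^ j))).card : ℝ)) := by
          refine mul_le_mul_of_nonneg_left ?_ (norm_nonneg _)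
          exact mul_le_mul (hU I) (hU J) (by positivity) (by positivity)
      _ ≤ _ := hSle
      _ ≤ _ := mul_le_mul_of_nonneg_right hW hT0
  have hSn : (‖Sj (G1 A k) a b j α‖ * (((2 : ℝ) ^ j) ^ r * ((2 : ℝ) ^ j) ^ r)) ^ n ≤
      (((2 * c : ℝ) * 2 ^ j) ^ s) ^ n * (Cst * ((2 : ℝ) ^ j) ^ N) ^ r := by
    rw [← hTn]
    exact (pow_le_pow_left₀ (by positivity) hS n).trans (le_of_eq (mul_pow _ _ _))
  have hfin := last_step _ (2 ^ j) (2 * c) Cst n N r s (2 * k + 1) (2 * k + 1) hn0 (norm_nonneg _) hP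
    (by positivity) hNn hSn (by rw [hn160]; exact hr) rfl
    (hj0.le.trans (pow_le_pow_right₀ (by norm_num) hj))
  rw [Fintype.card_fin]
  rw [show (2 : ℝ) ^ ((2 * k + 1) * j) = ((2 : ℝ) ^ j) ^ (2 * k + 1) by
    rw [← pow_mul, mul_comm j], show (2 : ℝ) ^ (s * j) = ((2 : ℝ) ^ j) ^ s by
    rw [← pow_mul, mul_comm j]]
  exact hfin

end C1x

theorem t_C1 (h1 : S_MV) (h2 : S_VL) : S_C1 := by
  intro k hk s A hA I J hI hJ hIJ hdet a b hab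
  exact C1x.C1_main h1 h2 k hk (bb k) rfl (r1 k) (C1x.r_large k hk) s A hA I J hI hJ hIJ hdet a b
    hab

end Pool.Agent.helper132_hp

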