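import Pool.Agent.helper132_hp.Stmts

/-! The one-exponent mean value and the one-variable estimate used in the minor arcs (part C1). -/

namespace Pool.Agent.helper132_hp

open Finset

/-- one-exponent mean value -/
def S_MV1 : Prop := ∀ k : ℕ, 1 ≤ k → ∀ (a b : ℤ), a < b → ∀ η : ℝ, 0 < η → ∃ C : ℝ, 0 < C ∧
  ∀ (j : ℕ) (m : ℤ),
    ((((Fintype.piFinset fun _ : Fin (bb k) => Finset.Ico (a * 2 ^ j) (b * 2 ^ j)) ×ˢ
      (Fintype.piFinset fun _ : Fin (bb k) => Finset.Ico (a * 2 ^ j) (b * 2 ^ j))).filter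
        fun w => ∑ i, w.1 i ^ k - ∑ i, w.2 i ^ k = m).card : ℝ) ≤
      C * (2 : ℝ) ^ (((2 * bb k : ℝ) - k + η) * j)

/-- the one-variable estimate -/
def S_C1a : Prop := ∀ k : ℕ, 1 ≤ k → ∀ (a b : ℤ), a < b → ∀ K0 : ℕ, 1 ≤ K0 → ∃ C : ℝ, 0 < C ∧
  ∀ (j : ℕ) (α : ℝ) (c : ℤ) (q : ℕ), 0 < q → IsCoprime c (q : ℤ) →
    |α - (c : ℝ) / q| ≤ 1 / (q : ℝ) ^ 2 → 2 ^ j ≤ q ^ 10 → q ^ 10 * 2 ^ j ≤ 2 ^ (10 * (2 * k) * j) →
    (∑ m ∈ Finset.Icc (-((K0 : ℤ) * 2 ^ (k * j))) ((K0 : ℤ) * 2 ^ (k * j)),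
      ‖∑ y ∈ Finset.Ico (a * 2 ^ j) (b * 2 ^ j), e (2 * α * m * (y : ℝ) ^ k)‖) ^ (40 * bb k) * 2 ^ j ≤
      C * 2 ^ ((k + 1) * (40 * bb k) * j)

namespace C1ax

lemma e_add (x y : ℝ) : e (x + y) = e x * e y := by
  unfold e
  rw [← Complex.exp_add]
  congr 1
  push_cast
  ring

lemma e_zero : e 0 = 1 := by
  unfold e
  simp

lemma e_sum {κ : Type} (s : Finset κ) (f : κ → ℝ) : e (∑ i ∈ s, f i) = ∏ i ∈ s, e (f i) := by
  classical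
  induction s using Finset.induction_on with
  | empty => simp [e_zero]
  | insert a s ha ih => rw [Finset.sum_insert ha, Finset.prod_insert ha, e_add, ih]

lemma e_conj (x : ℝ) : (starRingEnd ℂ) (e x) = e (-x) := by
  unfold e
  rw [← Complex.exp_conj, map_mul, Complex.conj_ofReal, Complex.conj_I]
  congr 1
  push_cast
  ring

lemma e_norm (x : ℝ) : ‖e x‖ = 1 := by
  unfold e
  exact Complex.norm_exp_ofReal_mul_I _

lemma pow_abs_le (x M : ℤ) (n : ℕ) (h : |x| ≤ M) : |x ^ n| ≤ M ^ n := by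
  rw [abs_pow]
  exact pow_le_pow_left₀ (abs_nonneg x) h n

lemma box_abs {a b : ℤ} {C1 : ℕ} (hC1 : C1 = a.natAbs + b.natAbs) (j : ℕ) {s : ℕ}
    {u : Fin s → ℤ} (hu : u ∈ Fintype.piFinset fun _ : Fin s => Finset.Ico (a * 2 ^ j) (b * 2 ^ j))
    (i : Fin s) : |u i| ≤ (C1 : ℤ) * 2 ^ j := by
  rw [Fintype.mem_piFinset] at hu
  have h1 := hu i
  rw [Finset.mem_Ico] at h1
  have h2 : (0 : ℤ) < 2 ^ j := by positivity
  have h3 : -(C1 : ℤ) ≤ a := by omega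
  have h4 : b ≤ (C1 : ℤ) := by omega
  rw [abs_le]
  constructor <;> nlinarith [h1.1, h1.2]

lemma psum_abs {a b : ℤ} {C1 : ℕ} (hC1 : C1 = a.natAbs + b.natAbs) (j n : ℕ) {s : ℕ}
    {u : Fin s → ℤ} (hu : u ∈ Fintype.piFinset fun _ : Fin s => Finset.Ico (a * 2 ^ j) (b * 2 ^ j)) :
    |∑ i, u i ^ n| ≤ (s : ℤ) * ((C1 : ℤ) * 2 ^ j) ^ n := by
  refine (Finset.abs_sum_le_sum_abs _ _).trans ?_
  refine (Finset.sum_le_sum fun l _ => pow_abs_le (u l) _ n (box_abs hC1 j hu l)).trans ?_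
  simp

lemma diff_abs {a b : ℤ} {C1 : ℕ} (hC1 : C1 = a.natAbs + b.natAbs) (j n : ℕ) {s : ℕ}
    {w : (Fin s → ℤ) × (Fin s → ℤ)}
    (hw : w ∈ (Fintype.piFinset fun _ : Fin s => Finset.Ico (a * 2 ^ j) (b * 2 ^ j)) ×ˢ
      (Fintype.piFinset fun _ : Fin s => Finset.Ico (a * 2 ^ j) (b * 2 ^ j))) :
    ∑ i, w.1 i ^ n - ∑ i, w.2 i ^ n ∈
      Finset.Icc (-(((2 * s * C1 ^ n : ℕ) : ℤ) * 2 ^ (n * j))) (((2 * s * C1 ^ n : ℕ) : ℤ) * 2 ^ (n * j)) := by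
  rw [Finset.mem_product] at hw
  have h1 := abs_le.1 (psum_abs hC1 j n hw.1)
  have h2 := abs_le.1 (psum_abs hC1 j n hw.2)
  have h3 : ((2 * s * C1 ^ n : ℕ) : ℤ) * 2 ^ (n * j) = 2 * ((s : ℤ) * ((C1 : ℤ) * 2 ^ j) ^ n) := by
    push_cast
    rw [mul_pow, ← pow_mul, mul_comm j n]
    ring
  rw [h3, Finset.mem_Icc]
  constructor <;> linarith [h1.1, h1.2, h2.1, h2.2]

end C1ax

open C1ax in
theorem t_C1mv (h1 : S_MV) : S_MV1 := by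
  intro k hk a b hab η hη
  obtain ⟨C, hC, hmv⟩ := h1 k hk a b hab η hη
  obtain ⟨C1, hC1⟩ : ∃ C1 : ℕ, C1 = a.natAbs + b.natAbs := ⟨_, rfl⟩
  obtain ⟨D, hD⟩ : ∃ D : ℕ, D = 2 * bb k * C1 ^ (2 * k) := ⟨_, rfl⟩
  refine ⟨(2 * D + 1 : ℝ) * C, by positivity, ?_⟩
  intro j m
  obtain ⟨S, hS⟩ : ∃ S, S = (((Fintype.piFinset fun _ : Fin (bb k) => Finset.Ico (a * 2 ^ j) (b * 2 ^ j)) ×ˢ
      (Fintype.piFinset fun _ : Fin (bb k) => Finset.Ico (a * 2 ^ j) (b * 2 ^ j))).filter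
        fun w => ∑ i, w.1 i ^ k - ∑ i, w.2 i ^ k = m) := ⟨_, rfl⟩
  rw [← hS]
  have hfib := Finset.card_eq_sum_card_fiberwise (s := S)
    (f := fun w : (Fin (bb k) → ℤ) × (Fin (bb k) → ℤ) => ∑ i, w.1 i ^ (2 * k) - ∑ i, w.2 i ^ (2 * k))
    (t := Finset.Icc (-((D : ℤ) * 2 ^ (2 * k * j))) ((D : ℤ) * 2 ^ (2 * k * j))) (by
      intro w hw
      rw [Finset.mem_coe, hS, Finset.mem_filter] at hw
      rw [hD]
      exact diff_abs hC1 j (2 * k) hw.1)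
  have hle : ∀ m2 ∈ Finset.Icc (-((D : ℤ) * 2 ^ (2 * k * j))) ((D : ℤ) * 2 ^ (2 * k * j)),
      ((S.filter fun w => ∑ i, w.1 i ^ (2 * k) - ∑ i, w.2 i ^ (2 * k) = m2).card : ℝ) ≤
      C * (2 : ℝ) ^ (((2 * bb k : ℝ) - 3 * k + η) * j) := by
    intro m2 _
    refine le_trans ?_ (hmv j m m2)
    rw [hS, Finset.filter_filter]
  rw [hfib]
  push_cast
  refine (Finset.sum_le_sum hle).trans ?_
  rw [Finset.sum_const, Int.card_Icc, nsmul_eq_mul]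
  have e1 : ((D : ℤ) * 2 ^ (2 * k * j) + 1 - -((D : ℤ) * 2 ^ (2 * k * j))).toNat = 2 * D * 2 ^ (2 * k * j) + 1 := by
    have : (D : ℤ) * 2 ^ (2 * k * j) + 1 - -((D : ℤ) * 2 ^ (2 * k * j)) = ((2 * D * 2 ^ (2 * k * j) + 1 : ℕ) : ℤ) := by
      push_cast; ring
    rw [this, Int.toNat_natCast]
  rw [e1]
  have e2 : (2 : ℝ) ^ (((2 * bb k : ℝ) - k + η) * j) =
      2 ^ (2 * k * j) * (2 : ℝ) ^ (((2 * bb k : ℝ) - 3 * k + η) * j) := by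
    rw [← Real.rpow_natCast, ← Real.rpow_add (by norm_num)]
    congr 1
    push_cast
    ring
  rw [e2]
  have e3 : (1 : ℝ) ≤ 2 ^ (2 * k * j) := one_le_pow₀ (by norm_num)
  have e4 : (0 : ℝ) < (2 : ℝ) ^ (((2 * bb k : ℝ) - 3 * k + η) * j) := by positivity
  have e5 : ((2 * D * 2 ^ (2 * k * j) + 1 : ℕ) : ℝ) ≤ (2 * D + 1) * 2 ^ (2 * k * j) := by
    push_cast
    nlinarith
  calc ((2 * D * 2 ^ (2 * k * j) + 1 : ℕ) : ℝ) * (C * (2 : ℝ) ^ (((2 * bb k : ℝ) - 3 * k + η) * j))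
      ≤ ((2 * D + 1) * 2 ^ (2 * k * j)) * (C * (2 : ℝ) ^ (((2 * bb k : ℝ) - 3 * k + η) * j)) := by
        gcongr
    _ = _ := by ring

namespace C1ax

/-- the one-variable sum -/
noncomputable def fm (k : ℕ) (α : ℝ) (x y : ℤ) (m : ℤ) : ℂ :=
  ∑ u ∈ Finset.Ico x y, e (2 * α * m * (u : ℝ) ^ k)

lemma fm_pow (k : ℕ) (α : ℝ) (x y : ℤ) (m : ℤ) (s : ℕ) :
    (fm k α x y m) ^ s = ∑ u ∈ Fintype.piFinset (fun _ : Fin s => Finset.Ico x y),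
      e (2 * α * m * ((∑ i, u i ^ k : ℤ) : ℝ)) := by
  have h1 : (fm k α x y m) ^ s = ∏ _i : Fin s, ∑ u ∈ Finset.Ico x y, e (2 * α * m * (u : ℝ) ^ k) := by
    rw [Finset.prod_const, Finset.card_univ, Fintype.card_fin]
    rfl
  rw [h1, Finset.prod_univ_sum]
  refine Finset.sum_congr rfl fun u _ => ?_
  rw [← e_sum, ← Finset.mul_sum]
  push_cast
  rfl

lemma fm_conj_pow (k : ℕ) (α : ℝ) (x y : ℤ) (m : ℤ) (s : ℕ) :
    ((starRingEnd ℂ) (fm k α x y m)) ^ s = ∑ u ∈ Fintype.piFinset (fun _ : Fin s => Finset.Ico x y),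
      e (-(2 * α * m * ((∑ i, u i ^ k : ℤ) : ℝ))) := by
  rw [← map_pow, fm_pow, map_sum]
  exact Finset.sum_congr rfl fun u _ => e_conj _

lemma fm_moment (k : ℕ) (α : ℝ) (x y : ℤ) (m : ℤ) (s : ℕ) :
    ((‖fm k α x y m‖ ^ (2 * s) : ℝ) : ℂ) =
      ∑ w ∈ (Fintype.piFinset (fun _ : Fin s => Finset.Ico x y)) ×ˢ
        (Fintype.piFinset (fun _ : Fin s => Finset.Ico x y)),
      e (2 * α * m * ((∑ i, w.1 i ^ k - ∑ i, w.2 i ^ k : ℤ) : ℝ)) := by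
  have h1 : ((‖fm k α x y m‖ ^ (2 * s) : ℝ) : ℂ) =
      (fm k α x y m) ^ s * ((starRingEnd ℂ) (fm k α x y m)) ^ s := by
    rw [← mul_pow, Complex.mul_conj, Complex.normSq_eq_norm_sq, pow_mul]
    push_cast
    rfl
  rw [h1, fm_pow, fm_conj_pow, Finset.sum_mul_sum, ← Finset.sum_product']
  refine Finset.sum_congr rfl fun w _ => ?_
  rw [← e_add]
  congr 1
  push_cast
  ring

/-- the moment in terms of the mean value -/
lemma moment_le (k : ℕ) (α : ℝ) (x y : ℤ) (s M H : ℕ) (B : ℝ)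
    (hH : ∀ w ∈ (Fintype.piFinset (fun _ : Fin s => Finset.Ico x y)) ×ˢ
        (Fintype.piFinset (fun _ : Fin s => Finset.Ico x y)),
        ∑ i, w.1 i ^ k - ∑ i, w.2 i ^ k ∈ Finset.Icc (-(H : ℤ)) H)
    (hB : ∀ h : ℤ, ((((Fintype.piFinset (fun _ : Fin s => Finset.Ico x y)) ×ˢ
        (Fintype.piFinset (fun _ : Fin s => Finset.Ico x y))).filter
        fun w => ∑ i, w.1 i ^ k - ∑ i, w.2 i ^ k = h).card : ℝ) ≤ B) :
    ∑ m ∈ Finset.Icc (-(M : ℤ)) M, ‖fm k α x y m‖ ^ (2 * s) ≤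
      B * ∑ h ∈ Finset.Icc (-(H : ℤ)) H, ‖∑ m ∈ Finset.Icc (-(M : ℤ)) M, e (2 * α * m * h)‖ := by
  obtain ⟨W, hW⟩ : ∃ W, W = (Fintype.piFinset (fun _ : Fin s => Finset.Ico x y)) ×ˢ
        (Fintype.piFinset (fun _ : Fin s => Finset.Ico x y)) := ⟨_, rfl⟩
  rw [← hW] at hH hB
  have h1 : ((∑ m ∈ Finset.Icc (-(M : ℤ)) M, ‖fm k α x y m‖ ^ (2 * s) : ℝ) : ℂ) =
      ∑ h ∈ Finset.Icc (-(H : ℤ)) H, ((W.filter fun w => ∑ i, w.1 i ^ k - ∑ i, w.2 i ^ k = h).card : ℂ) *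
        ∑ m ∈ Finset.Icc (-(M : ℤ)) M, e (2 * α * m * h) := by
    rw [Complex.ofReal_sum]
    simp_rw [fm_moment]
    rw [← hW, Finset.sum_comm, ← Finset.sum_fiberwise_of_maps_to hH]
    refine Finset.sum_congr rfl fun h _ => ?_
    rw [← nsmul_eq_mul, ← Finset.sum_const]
    refine Finset.sum_congr rfl fun w hw => ?_
    rw [(Finset.mem_filter.1 hw).2]
  have h2 : ∑ m ∈ Finset.Icc (-(M : ℤ)) M, ‖fm k α x y m‖ ^ (2 * s) =
      ‖((∑ m ∈ Finset.Icc (-(M : ℤ)) M, ‖fm k α x y m‖ ^ (2 * s) : ℝ) : ℂ)‖ := by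
    rw [Complex.norm_real, Real.norm_eq_abs, abs_of_nonneg]
    positivity
  rw [h2, h1, Finset.mul_sum]
  refine (norm_sum_le _ _).trans (Finset.sum_le_sum fun h _ => ?_)
  rw [norm_mul, Complex.norm_natCast]
  exact mul_le_mul_of_nonneg_right (hB h) (norm_nonneg _)

/-- the reciprocal sum in the form needed here -/
lemma recip (h2 : S_VL) (α : ℝ) (c : ℤ) (q : ℕ) (hq : 0 < q) (hc : IsCoprime c (q : ℤ))
    (hα : |α - (c : ℝ) / q| ≤ 1 / (q : ℝ) ^ 2) (H M : ℕ) :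
    ∑ h ∈ Finset.Icc (-(H : ℤ)) H, ‖∑ m ∈ Finset.Icc (-(M : ℤ)) M, e (2 * α * m * h)‖ ≤
      50 * ((2 * H : ℝ) / q + 1) * (2 * M + 1 + q * (1 + Real.log q)) := by
  have h3 := h2 α c q hq hc hα (2 * H) (2 * M + 1) (-(M : ℤ)) (M + 1) (by omega) (by push_cast; omega)
  push_cast at h3
  refine le_trans ?_ h3
  have h4 : ∑ h ∈ Finset.Icc (-(H : ℤ)) H, ‖∑ m ∈ Finset.Icc (-(M : ℤ)) M, e (2 * α * m * h)‖ =
      ∑ h ∈ (Finset.Icc (-(H : ℤ)) H).image (fun h : ℤ => 2 * h),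
        ‖∑ m ∈ Finset.Ico (-(M : ℤ)) (M + 1), e (α * (h : ℝ) * m)‖ := by
    rw [Finset.sum_image (fun u _ v _ h => by have h9 : 2 * u = 2 * v := h; omega)]
    refine Finset.sum_congr rfl fun h _ => ?_
    congr 1
    have : Finset.Ico (-(M : ℤ)) (M + 1) = Finset.Icc (-(M : ℤ)) M := by
      ext z
      rw [Finset.mem_Ico, Finset.mem_Icc]
      omega
    rw [this]
    refine Finset.sum_congr rfl fun m _ => ?_
    congr 1
    push_cast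
    ring
  rw [h4]
  refine Finset.sum_le_sum_of_subset_of_nonneg ?_ fun _ _ _ => norm_nonneg _
  intro z hz
  rw [Finset.mem_image] at hz
  obtain ⟨u, hu, rfl⟩ := hz
  rw [Finset.mem_Icc] at hu ⊢
  omega

lemma q_low (j q : ℕ) (hq : 0 < q) (h1R : (2 : ℝ) ^ j ≤ (q : ℝ) ^ 10) :
    (2 : ℝ) ^ ((1 / 10 : ℝ) * j) ≤ q := by
  have hq0 : (0 : ℝ) < q := by exact_mod_cast hq
  have e1 : ((2 : ℝ) ^ ((1 / 10 : ℝ) * j)) ^ 10 = 2 ^ j := by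
    rw [← Real.rpow_natCast, ← Real.rpow_mul (by norm_num), ← Real.rpow_natCast]
    congr 1
    push_cast
    ring
  refine le_of_pow_le_pow_left₀ (n := 10) (by norm_num) hq0.le ?_
  rw [e1]
  exact h1R

lemma q_up (k j q : ℕ) (h2R : (q : ℝ) ^ 10 * 2 ^ j ≤ (2 : ℝ) ^ (10 * (2 * k) * j)) :
    (q : ℝ) ≤ (2 : ℝ) ^ ((2 * k - 1 / 10 : ℝ) * j) := by
  refine le_of_pow_le_pow_left₀ (n := 10) (by norm_num) (by positivity) ?_
  have e1 : ((2 : ℝ) ^ ((2 * k - 1 / 10 : ℝ) * j)) ^ 10 * 2 ^ j = (2 : ℝ) ^ (10 * (2 * k) * j) := by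
    rw [← Real.rpow_natCast ((2 : ℝ) ^ ((2 * k - 1 / 10 : ℝ) * j)) 10, ← Real.rpow_mul (by norm_num),
      ← Real.rpow_natCast (2 : ℝ) j, ← Real.rpow_add (by norm_num), ← Real.rpow_natCast]
    congr 1
    push_cast
    ring
  have h2j : (0 : ℝ) < 2 ^ j := by positivity
  refine le_of_mul_le_mul_right ?_ h2j
  rw [e1]
  exact h2R

lemma log_bd (k : ℕ) (hk : 1 ≤ k) (j q : ℕ) (hq : 0 < q)
    (hqu : (q : ℝ) ≤ (2 : ℝ) ^ ((2 * k - 1 / 10 : ℝ) * j)) :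
    1 + Real.log q ≤ 320 * k * (2 : ℝ) ^ ((1 / 80 : ℝ) * j) := by
  have hk1 : (1 : ℝ) ≤ k := by exact_mod_cast hk
  have hj0 : (0 : ℝ) ≤ j := Nat.cast_nonneg j
  have hq0 : (0 : ℝ) < q := by exact_mod_cast hq
  have l2 : (1 / 2 : ℝ) ≤ Real.log 2 := by linarith [Real.log_two_gt_d9]
  have l2' : Real.log 2 ≤ 1 := by linarith [Real.log_two_lt_d9]
  have e1 : Real.log q ≤ (2 * k - 1 / 10 : ℝ) * j * Real.log 2 := by
    have := Real.log_le_log hq0 hqu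
    rwa [Real.log_rpow (by norm_num)] at this
  have e2 : Real.log q ≤ 2 * k * j := by
    refine e1.trans ?_
    have h1 : (2 * k - 1 / 10 : ℝ) * j ≤ 2 * k * j := by
      refine mul_le_mul_of_nonneg_right ?_ hj0
      linarith
    have h0 : (0 : ℝ) ≤ (2 * k - 1 / 10 : ℝ) * j := by
      apply mul_nonneg _ hj0
      linarith
    calc (2 * k - 1 / 10 : ℝ) * j * Real.log 2 ≤ (2 * k - 1 / 10 : ℝ) * j * 1 :=
          mul_le_mul_of_nonneg_left l2' h0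
      _ ≤ _ := by linarith
  have e3 : 1 + (j : ℝ) / 160 ≤ (2 : ℝ) ^ ((1 / 80 : ℝ) * j) := by
    have : (2 : ℝ) ^ ((1 / 80 : ℝ) * j) = Real.exp (Real.log 2 * ((1 / 80 : ℝ) * j)) := by
      rw [Real.rpow_def_of_pos (by norm_num)]
    rw [this]
    have h3 := Real.add_one_le_exp (Real.log 2 * ((1 / 80 : ℝ) * j))
    have h4 : (1 / 2 : ℝ) * ((1 / 80 : ℝ) * j) ≤ Real.log 2 * ((1 / 80 : ℝ) * j) :=
      mul_le_mul_of_nonneg_right l2 (by positivity)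
    linarith
  calc 1 + Real.log q ≤ 1 + 2 * k * j := by linarith
    _ ≤ 320 * k * (1 + (j : ℝ) / 160) := by
        have : 320 * (k : ℝ) * (1 + (j : ℝ) / 160) = 320 * k + 2 * k * j := by ring
        rw [this]
        linarith
    _ ≤ _ := by
      refine mul_le_mul_of_nonneg_left e3 ?_
      linarith

/-- the size of the right side -/
lemma size_bound (k : ℕ) (hk : 1 ≤ k) (H0 K0 : ℕ) (hK0 : 1 ≤ K0) (j q : ℕ) (hq : 0 < q)
    (h1 : 2 ^ j ≤ q ^ 10) (h2 : q ^ 10 * 2 ^ j ≤ 2 ^ (10 * (2 * k) * j)) :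
    ((2 * ((H0 * 2 ^ (k * j) : ℕ) : ℝ)) / q + 1) * (2 * ((K0 * 2 ^ (k * j) : ℕ) : ℝ) + 1 +
      q * (1 + Real.log q)) ≤ ((6 * H0 * K0 + 3 * K0 + 2 * H0 + 1) * (320 * k)) *
      (2 : ℝ) ^ ((2 * k - 7 / 80 : ℝ) * j) := by
  have hk1 : (1 : ℝ) ≤ k := by exact_mod_cast hk
  have hj0 : (0 : ℝ) ≤ j := Nat.cast_nonneg j
  have hqR : (1 : ℝ) ≤ q := by exact_mod_cast hq
  have hq0 : (0 : ℝ) < q := by linarith
  have hK1 : (1 : ℝ) ≤ K0 := by exact_mod_cast hK0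
  have hH1 : (0 : ℝ) ≤ H0 := Nat.cast_nonneg H0
  have h1R : (2 : ℝ) ^ j ≤ (q : ℝ) ^ 10 := by exact_mod_cast h1
  have h2R : (q : ℝ) ^ 10 * 2 ^ j ≤ (2 : ℝ) ^ (10 * (2 * k) * j) := by exact_mod_cast h2
  have hql := q_low j q hq h1R
  have hqu := q_up k j q h2R
  have hlog := log_bd k hk j q hq hqu
  have hlog0 : 0 ≤ Real.log q := Real.log_nonneg hqR
  obtain ⟨L, hL⟩ : ∃ L : ℝ, L = 320 * k * (2 : ℝ) ^ ((1 / 80 : ℝ) * j) := ⟨_, rfl⟩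
  obtain ⟨E, hE⟩ : ∃ E : ℝ, E = (2 : ℝ) ^ ((2 * k - 1 / 10 : ℝ) * j) := ⟨_, rfl⟩
  obtain ⟨U, hU⟩ : ∃ U : ℝ, U = (2 : ℝ) ^ (k * j) := ⟨_, rfl⟩
  have hU1 : 1 ≤ U := by rw [hU]; exact one_le_pow₀ (by norm_num)
  have hL1 : 1 ≤ L := by rw [hL]; linarith
  rw [← hL] at hlog
  rw [← hE] at hqu
  have hUr : U = (2 : ℝ) ^ ((k : ℝ) * j) := by
    rw [hU, ← Real.rpow_natCast]; push_cast; rfl
  have hUE : U ≤ E := by
    rw [hUr, hE]
    refine Real.rpow_le_rpow_of_exponent_le (by norm_num) ?_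
    refine mul_le_mul_of_nonneg_right ?_ hj0
    linarith
  have hUq : U / q * U ≤ E := by
    rw [div_mul_eq_mul_div, div_le_iff₀ hq0]
    calc U * U = E * (2 : ℝ) ^ ((1 / 10 : ℝ) * j) := by
          rw [hUr, hE, ← Real.rpow_add (by norm_num), ← Real.rpow_add (by norm_num)]
          congr 1; ring
      _ ≤ E * q := by
          refine mul_le_mul_of_nonneg_left hql ?_
          rw [hE]; positivity
  have hE0 : 0 < E := by rw [hE]; positivity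
  have hfin : (2 : ℝ) ^ ((2 * k - 7 / 80 : ℝ) * j) * (320 * k) = E * L := by
    rw [hE, hL]
    have : (2 : ℝ) ^ ((2 * k - 7 / 80 : ℝ) * j) =
        (2 : ℝ) ^ ((2 * k - 1 / 10 : ℝ) * j) * (2 : ℝ) ^ ((1 / 80 : ℝ) * j) := by
      rw [← Real.rpow_add (by norm_num)]
      congr 1; ring
    rw [this]; ring
  have hgoal : ((6 * H0 * K0 + 3 * K0 + 2 * H0 + 1) * (320 * k)) * (2 : ℝ) ^ ((2 * k - 7 / 80 : ℝ) * j) =
      (6 * H0 * K0 + 3 * K0 + 2 * H0 + 1) * (E * L) := by rw [← hfin]; ring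
  rw [hgoal]
  push_cast
  rw [← hU]
  have s1 : 2 * (K0 * U) + 1 ≤ 3 * K0 * U := by
    have : 1 ≤ K0 * U := one_le_mul_of_one_le_of_one_le hK1 hU1
    linarith
  have hEL : E ≤ E * L := le_mul_of_one_le_right hE0.le hL1
  have hUEL : U ≤ E * L := hUE.trans hEL
  have t1 : 2 * (H0 * U) / q * (2 * (K0 * U) + 1) ≤ 6 * H0 * K0 * (E * L) := by
    have s2 : 0 ≤ 2 * (H0 * U) / q := by positivity
    calc 2 * (H0 * U) / q * (2 * (K0 * U) + 1) ≤ 2 * (H0 * U) / q * (3 * K0 * U) :=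
          mul_le_mul_of_nonneg_left s1 s2
      _ = 6 * H0 * K0 * (U / q * U) := by ring
      _ ≤ 6 * H0 * K0 * E := mul_le_mul_of_nonneg_left hUq (by positivity)
      _ ≤ 6 * H0 * K0 * (E * L) := mul_le_mul_of_nonneg_left hEL (by positivity)
  have t2 : 2 * (K0 * U) + 1 ≤ 3 * K0 * (E * L) := by
    calc 2 * (K0 * U) + 1 ≤ 3 * K0 * U := s1
      _ ≤ 3 * K0 * (E * L) := mul_le_mul_of_nonneg_left hUEL (by positivity)
  have t3 : 2 * (H0 * U) / q * (q * (1 + Real.log q)) ≤ 2 * H0 * (E * L) := by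
    have : 2 * (H0 * U) / q * (q * (1 + Real.log q)) = 2 * H0 * (U * (1 + Real.log q)) := by
      field_simp
    rw [this]
    refine mul_le_mul_of_nonneg_left ?_ (by positivity)
    exact mul_le_mul hUE hlog (by linarith) hE0.le
  have t4 : q * (1 + Real.log q) ≤ E * L := mul_le_mul hqu hlog (by linarith) hE0.le
  have hexp : (2 * (H0 * U) / q + 1) * (2 * (K0 * U) + 1 + q * (1 + Real.log q)) =
      2 * (H0 * U) / q * (2 * (K0 * U) + 1) + (2 * (K0 * U) + 1) +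
      2 * (H0 * U) / q * (q * (1 + Real.log q)) + q * (1 + Real.log q) := by ring
  rw [hexp]
  have hexp2 : (6 * (H0 : ℝ) * K0 + 3 * K0 + 2 * H0 + 1) * (E * L) = 6 * H0 * K0 * (E * L) +
      3 * K0 * (E * L) + 2 * H0 * (E * L) + E * L := by ring
  rw [hexp2]
  linarith

end C1ax

open C1ax in
theorem t_C1a (h1 : S_MV) (h2 : S_VL) : S_C1a := by
  intro k hk a b hab K0 hK0
  obtain ⟨C, hC, hmv⟩ := t_C1mv h1 k hk a b hab (1 / 80) (by norm_num)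
  obtain ⟨C1, hC1⟩ : ∃ C1 : ℕ, C1 = a.natAbs + b.natAbs := ⟨_, rfl⟩
  obtain ⟨H0, hH0⟩ : ∃ H0 : ℕ, H0 = 2 * bb k * C1 ^ k := ⟨_, rfl⟩
  obtain ⟨C2, hC2⟩ : ∃ C2 : ℝ, C2 = (6 * H0 * K0 + 3 * K0 + 2 * H0 + 1) * (320 * k) := ⟨_, rfl⟩
  have hk1 : (1 : ℝ) ≤ k := by exact_mod_cast hk
  have hC20 : 0 < C2 := by rw [hC2]; positivity
  obtain ⟨C3, hC3⟩ : ∃ C3 : ℝ, C3 = (3 * K0 : ℝ) ^ (2 * bb k - 1) * (C * (50 * C2)) := ⟨_, rfl⟩
  have hK0R : (1 : ℝ) ≤ K0 := by exact_mod_cast hK0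
  have hC30 : 0 < C3 := by rw [hC3]; positivity
  have hbb : 1 ≤ bb k := by unfold bb; nlinarith
  refine ⟨C3 ^ 20, by positivity, ?_⟩
  intro j α c q hq hc hα hl hu
  obtain ⟨M, hM⟩ : ∃ M : ℕ, M = K0 * 2 ^ (k * j) := ⟨_, rfl⟩
  obtain ⟨H, hH⟩ : ∃ H : ℕ, H = H0 * 2 ^ (k * j) := ⟨_, rfl⟩
  have hMz : (K0 : ℤ) * 2 ^ (k * j) = (M : ℤ) := by rw [hM]; push_cast; rfl
  rw [hMz]
  have hfold : ∀ m : ℤ, ∑ y ∈ Finset.Ico (a * 2 ^ j) (b * 2 ^ j), e (2 * α * m * (y : ℝ) ^ k) =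
      fm k α (a * 2 ^ j) (b * 2 ^ j) m := fun m => rfl
  simp_rw [hfold]
  have hmom := moment_le k α (a * 2 ^ j) (b * 2 ^ j) (bb k) M H
    (C * (2 : ℝ) ^ (((2 * bb k : ℝ) - k + 1 / 80) * j)) (by
      intro w hw
      have := diff_abs hC1 j k hw
      rw [hH, hH0]
      push_cast at this ⊢
      exact this) (fun h => hmv j h)
  have hrec := recip h2 α c q hq hc hα H M
  have hsz := size_bound k hk H0 K0 hK0 j q hq hl hu
  rw [← hM, ← hH, ← hC2] at hsz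
  -- the 2b-th moment
  have hb1 : ∑ m ∈ Finset.Icc (-(M : ℤ)) M, ‖fm k α (a * 2 ^ j) (b * 2 ^ j) m‖ ^ (2 * bb k) ≤
      (C * (50 * C2)) * (2 : ℝ) ^ (((2 * bb k : ℝ) + k - 3 / 40) * j) := by
    have hp : (0 : ℝ) < C * (2 : ℝ) ^ (((2 * bb k : ℝ) - k + 1 / 80) * j) := by positivity
    calc _ ≤ C * (2 : ℝ) ^ (((2 * bb k : ℝ) - k + 1 / 80) * j) *
          ∑ h ∈ Finset.Icc (-(H : ℤ)) H, ‖∑ m ∈ Finset.Icc (-(M : ℤ)) M, e (2 * α * m * h)‖ := hmom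
      _ ≤ C * (2 : ℝ) ^ (((2 * bb k : ℝ) - k + 1 / 80) * j) *
          (50 * ((2 * H : ℝ) / q + 1) * (2 * M + 1 + q * (1 + Real.log q))) :=
          mul_le_mul_of_nonneg_left hrec hp.le
      _ ≤ C * (2 : ℝ) ^ (((2 * bb k : ℝ) - k + 1 / 80) * j) *
          (50 * (C2 * (2 : ℝ) ^ ((2 * k - 7 / 80 : ℝ) * j))) := by
          refine mul_le_mul_of_nonneg_left ?_ hp.le
          rw [mul_assoc]
          exact mul_le_mul_of_nonneg_left hsz (by norm_num)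
      _ = (C * (50 * C2)) * ((2 : ℝ) ^ (((2 * bb k : ℝ) - k + 1 / 80) * j) *
          (2 : ℝ) ^ ((2 * k - 7 / 80 : ℝ) * j)) := by ring
      _ = _ := by
          rw [← Real.rpow_add (by norm_num)]
          congr 2
          ring
  -- Hoelder
  obtain ⟨T, hT⟩ : ∃ T : ℝ, T = ∑ m ∈ Finset.Icc (-(M : ℤ)) M, ‖fm k α (a * 2 ^ j) (b * 2 ^ j) m‖ := ⟨_, rfl⟩
  rw [← hT]
  have hT0 : 0 ≤ T := by rw [hT]; exact Finset.sum_nonneg fun _ _ => norm_nonneg _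
  have hcard : (((Finset.Icc (-(M : ℤ)) M).card : ℕ) : ℝ) = 2 * M + 1 := by
    rw [Int.card_Icc]
    have : (M : ℤ) + 1 - -(M : ℤ) = ((2 * M + 1 : ℕ) : ℤ) := by push_cast; ring
    rw [this, Int.toNat_natCast]
    push_cast
    ring
  have hho := pow_sum_div_card_le_sum_pow (s := Finset.Icc (-(M : ℤ)) M)
    (f := fun m : ℤ => ‖fm k α (a * 2 ^ j) (b * 2 ^ j) m‖) (fun _ _ => norm_nonneg _) (2 * bb k - 1)
  rw [show 2 * bb k - 1 + 1 = 2 * bb k by omega, ← hT, hcard, div_le_iff₀ (by positivity)] at hho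
  have hMR : (2 * M + 1 : ℝ) ≤ 3 * K0 * (2 : ℝ) ^ (k * j) := by
    have h2k : (1 : ℝ) ≤ 2 ^ (k * j) := one_le_pow₀ (by norm_num)
    rw [hM]; push_cast
    nlinarith
  have hb2 : T ^ (2 * bb k) ≤ C3 * (2 : ℝ) ^ (((2 * bb k : ℝ) * k + 2 * bb k - 3 / 40) * j) := by
    calc T ^ (2 * bb k) ≤ _ := hho
      _ ≤ ((C * (50 * C2)) * (2 : ℝ) ^ (((2 * bb k : ℝ) + k - 3 / 40) * j)) *
          (3 * K0 * (2 : ℝ) ^ (k * j)) ^ (2 * bb k - 1) := by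
          refine mul_le_mul hb1 ?_ (by positivity) (by positivity)
          exact pow_le_pow_left₀ (by positivity) hMR _
      _ = C3 * ((2 : ℝ) ^ (((2 * bb k : ℝ) + k - 3 / 40) * j) * ((2 : ℝ) ^ (k * j)) ^ (2 * bb k - 1)) := by
          rw [hC3, mul_pow]; ring
      _ = _ := by
          congr 1
          rw [← pow_mul, ← Real.rpow_natCast (2 : ℝ) (k * j * (2 * bb k - 1)), ← Real.rpow_add (by norm_num)]
          congr 1
          have : ((2 * bb k - 1 : ℕ) : ℝ) = 2 * bb k - 1 := by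
            rw [Nat.cast_sub (by omega)]; push_cast; ring
          push_cast [this]
          ring
  have hb3 : T ^ (40 * bb k) ≤ C3 ^ 20 * (2 : ℝ) ^ ((20 * ((2 * bb k : ℝ) * k + 2 * bb k - 3 / 40)) * j) := by
    calc T ^ (40 * bb k) = (T ^ (2 * bb k)) ^ 20 := by rw [← pow_mul]; congr 1; ring
      _ ≤ (C3 * (2 : ℝ) ^ (((2 * bb k : ℝ) * k + 2 * bb k - 3 / 40) * j)) ^ 20 :=
          pow_le_pow_left₀ (by positivity) hb2 20
      _ = _ := by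
          rw [mul_pow, ← Real.rpow_natCast ((2 : ℝ) ^ (((2 * bb k : ℝ) * k + 2 * bb k - 3 / 40) * j)) 20,
            ← Real.rpow_mul (by norm_num)]
          congr 2
          push_cast
          ring
  calc T ^ (40 * bb k) * 2 ^ j
      ≤ C3 ^ 20 * (2 : ℝ) ^ ((20 * ((2 * bb k : ℝ) * k + 2 * bb k - 3 / 40)) * j) * 2 ^ j := by
        gcongr
    _ = C3 ^ 20 * (2 : ℝ) ^ ((20 * ((2 * bb k : ℝ) * k + 2 * bb k - 3 / 40)) * j + j) := by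
        rw [mul_assoc, ← Real.rpow_natCast (2 : ℝ) j, ← Real.rpow_add (by norm_num)]
    _ ≤ C3 ^ 20 * (2 : ℝ) ^ (((k + 1) * (40 * bb k) * j : ℕ) : ℝ) := by
        refine mul_le_mul_of_nonneg_left ?_ (by positivity)
        refine Real.rpow_le_rpow_of_exponent_le (by norm_num) ?_
        push_cast
        have : (0 : ℝ) ≤ j := Nat.cast_nonneg j
        nlinarith
    _ = _ := by rw [Real.rpow_natCast]

end Pool.Agent.helper132_hp
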