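import Pool.Agent.helper132_hp.Stmts

/-! Minor arcs, part C1: preliminary lemmas. -/

namespace Pool.Agent.helper132_hp.C1x

open Finset Pool.Agent.helper132_hp

theorem e_add (x y : ℝ) : e (x + y) = e x * e y := by
  unfold e
  rw [← Complex.exp_add]
  congr 1
  push_cast
  ring

theorem e_zero : e 0 = 1 := by
  unfold e
  simp

theorem norm_e (x : ℝ) : ‖e x‖ = 1 := by
  unfold e
  exact Complex.norm_exp_ofReal_mul_I _

theorem conj_e (x : ℝ) : (starRingEnd ℂ) (e x) = e (-x) := by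
  unfold e
  rw [← Complex.exp_conj]
  congr 1
  rw [map_mul, Complex.conj_I, Complex.conj_ofReal]
  push_cast
  ring

theorem e_sum {β : Type*} (s : Finset β) (f : β → ℝ) : e (∑ i ∈ s, f i) = ∏ i ∈ s, e (f i) := by
  classical
  induction s using Finset.induction_on with
  | empty => simp [e_zero]
  | insert a s ha ih => rw [Finset.sum_insert ha, Finset.prod_insert ha, e_add, ih]

/-- the even power of the norm of an exponential sum. -/
theorem pow_norm {X : Type*} (S : Finset X) (θ : X → ℝ) (b : ℕ) :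
    ((‖∑ v ∈ S, e (θ v)‖ ^ (2 * b) : ℝ) : ℂ) =
      ∑ Y ∈ (Fintype.piFinset fun _ : Fin b => S) ×ˢ (Fintype.piFinset fun _ : Fin b => S),
        e (∑ l, θ (Y.1 l) - ∑ l, θ (Y.2 l)) := by
  have h1 : ((‖∑ v ∈ S, e (θ v)‖ ^ (2 * b) : ℝ) : ℂ) =
      (∑ v ∈ S, e (θ v)) ^ b * (∑ v ∈ S, e (-θ v)) ^ b := by
    have h2 : (∑ v ∈ S, e (-θ v)) = (starRingEnd ℂ) (∑ v ∈ S, e (θ v)) := by
      rw [map_sum]
      exact Finset.sum_congr rfl fun v _ => (conj_e _).symm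
    rw [h2, ← mul_pow, Complex.mul_conj, Complex.normSq_eq_norm_sq, pow_mul]
    push_cast
    rfl
  have h3 : (∑ v ∈ S, e (θ v)) ^ b =
      ∑ Y ∈ (Fintype.piFinset fun _ : Fin b => S), e (∑ l, θ (Y l)) := by
    have := Finset.prod_univ_sum (fun _ : Fin b => S) (fun _ v => e (θ v))
    rw [Finset.prod_const, Finset.card_univ, Fintype.card_fin] at this
    rw [this]
    exact Finset.sum_congr rfl fun Y _ => (e_sum _ _).symm
  have h4 : (∑ v ∈ S, e (-θ v)) ^ b =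
      ∑ Y ∈ (Fintype.piFinset fun _ : Fin b => S), e (-∑ l, θ (Y l)) := by
    have := Finset.prod_univ_sum (fun _ : Fin b => S) (fun _ v => e (-θ v))
    rw [Finset.prod_const, Finset.card_univ, Fintype.card_fin] at this
    rw [this]
    exact Finset.sum_congr rfl fun Y _ => by rw [← Finset.sum_neg_distrib, e_sum]
  rw [h1, h3, h4, Finset.sum_product, Finset.sum_mul_sum]
  exact Finset.sum_congr rfl fun Y _ => Finset.sum_congr rfl fun Y' _ => by
    rw [← e_add]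
    congr 1

/-- Hoelder for a finite sum. -/
theorem holder {X : Type*} (S : Finset X) (f : X → ℝ) (hf : ∀ x ∈ S, 0 ≤ f x) (b : ℕ) (hb : 1 ≤ b) :
    (∑ x ∈ S, f x) ^ (2 * b) ≤ (S.card : ℝ) ^ (2 * b - 1) * ∑ x ∈ S, f x ^ (2 * b) := by
  rcases S.eq_empty_or_nonempty with h | h
  · subst h
    simp [show 2 * b ≠ 0 by omega]
  · have h1 := pow_sum_div_card_le_sum_pow (s := S) (f := f) hf (2 * b - 1)
    rw [show 2 * b - 1 + 1 = 2 * b by omega] at h1
    have h2 : (0 : ℝ) < (S.card : ℝ) ^ (2 * b - 1) := by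
      have : (0 : ℝ) < S.card := by exact_mod_cast h.card_pos
      positivity
    rw [div_le_iff₀ h2] at h1
    linarith

/-- the differences of sums of `k`-th powers -/
def mY {r b : ℕ} (k : ℕ) (Y : (Fin b → Fin r → ℤ) × (Fin b → Fin r → ℤ)) (i : Fin r) : ℤ :=
  ∑ l, Y.1 l i ^ k - ∑ l, Y.2 l i ^ k

theorem T_bound (r b k : ℕ) (hb : 1 ≤ b) (U V : Fin r → Finset ℤ) (B : Matrix (Fin r) (Fin r) ℤ)
    (g h : (Fin r → ℤ) → ℝ) (γ : ℝ) :
    ‖∑ u ∈ Fintype.piFinset U, ∑ v ∈ Fintype.piFinset V,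
      e (γ * ((∑ i, ∑ j, u i ^ k * B i j * v j ^ k : ℤ) : ℝ) + g u + h v)‖ ^ (2 * b) ≤
    ((Fintype.piFinset U).card : ℝ) ^ (2 * b - 1) *
      ∑ Y ∈ (Fintype.piFinset fun _ : Fin b => Fintype.piFinset V) ×ˢ
        (Fintype.piFinset fun _ : Fin b => Fintype.piFinset V),
        ∏ i, ‖∑ y ∈ U i, e (γ * ((B.mulVec (mY k Y) i * y ^ k : ℤ) : ℝ))‖ := by
  have h1 : ‖∑ u ∈ Fintype.piFinset U, ∑ v ∈ Fintype.piFinset V,
      e (γ * ((∑ i, ∑ j, u i ^ k * B i j * v j ^ k : ℤ) : ℝ) + g u + h v)‖ ≤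
      ∑ u ∈ Fintype.piFinset U, ‖∑ v ∈ Fintype.piFinset V,
      e (γ * ((∑ i, ∑ j, u i ^ k * B i j * v j ^ k : ℤ) : ℝ) + h v)‖ := by
    refine (norm_sum_le _ _).trans (Finset.sum_le_sum fun u _ => le_of_eq ?_)
    rw [show (∑ v ∈ Fintype.piFinset V,
        e (γ * ((∑ i, ∑ j, u i ^ k * B i j * v j ^ k : ℤ) : ℝ) + g u + h v)) =
        e (g u) * ∑ v ∈ Fintype.piFinset V,
        e (γ * ((∑ i, ∑ j, u i ^ k * B i j * v j ^ k : ℤ) : ℝ) + h v) from ?_, norm_mul, norm_e,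
        one_mul]
    rw [Finset.mul_sum]
    refine Finset.sum_congr rfl fun v _ => ?_
    rw [← e_add]
    congr 1
    ring
  refine (pow_le_pow_left₀ (norm_nonneg _) h1 _).trans ?_
  refine (holder _ _ (fun _ _ => norm_nonneg _) b hb).trans ?_
  refine mul_le_mul_of_nonneg_left ?_ (by positivity)
  have h2 : ((∑ u ∈ Fintype.piFinset U, ‖∑ v ∈ Fintype.piFinset V,
      e (γ * ((∑ i, ∑ j, u i ^ k * B i j * v j ^ k : ℤ) : ℝ) + h v)‖ ^ (2 * b) : ℝ) : ℂ) =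
      ∑ Y ∈ (Fintype.piFinset fun _ : Fin b => Fintype.piFinset V) ×ˢ
        (Fintype.piFinset fun _ : Fin b => Fintype.piFinset V),
        e (∑ l, h (Y.1 l) - ∑ l, h (Y.2 l)) *
          ∏ i, ∑ y ∈ U i, e (γ * ((B.mulVec (mY k Y) i * y ^ k : ℤ) : ℝ)) := by
    push_cast
    simp_rw [← Complex.ofReal_pow, pow_norm]
    rw [Finset.sum_comm]
    refine Finset.sum_congr rfl fun Y _ => ?_
    rw [Finset.prod_univ_sum, Finset.mul_sum]
    refine Finset.sum_congr rfl fun u _ => ?_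
    rw [← e_sum, ← e_add]
    congr 1
    have h3 : ∀ v : Fin r → ℤ, (∑ i, ∑ j, u i ^ k * B i j * v j ^ k : ℤ) =
        ∑ i, u i ^ k * ∑ j, B i j * v j ^ k := by
      intro v
      refine Finset.sum_congr rfl fun i _ => ?_
      rw [Finset.mul_sum]
      exact Finset.sum_congr rfl fun j _ => by ring
    have h4 : (∑ l, (∑ i, ∑ j, u i ^ k * B i j * (Y.1 l) j ^ k) -
        ∑ l, (∑ i, ∑ j, u i ^ k * B i j * (Y.2 l) j ^ k) : ℤ) =
        ∑ i, B.mulVec (mY k Y) i * u i ^ k := by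
      rw [Finset.sum_congr rfl fun l _ => h3 (Y.1 l), Finset.sum_congr rfl fun l _ => h3 (Y.2 l)]
      rw [Finset.sum_comm (f := fun l i => u i ^ k * ∑ j, B i j * (Y.1 l) j ^ k),
        Finset.sum_comm (f := fun l i => u i ^ k * ∑ j, B i j * (Y.2 l) j ^ k),
        ← Finset.sum_sub_distrib]
      refine Finset.sum_congr rfl fun i _ => ?_
      rw [← Finset.mul_sum, ← Finset.mul_sum, ← mul_sub, mul_comm]
      congr 1
      rw [Finset.sum_comm (f := fun l j => B i j * (Y.1 l) j ^ k),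
        Finset.sum_comm (f := fun l j => B i j * (Y.2 l) j ^ k), ← Finset.sum_sub_distrib]
      unfold Matrix.mulVec dotProduct mY
      refine Finset.sum_congr rfl fun j _ => ?_
      rw [mul_sub, Finset.mul_sum, Finset.mul_sum]
    have h5 := congrArg (fun x : ℤ => (x : ℝ)) h4
    beta_reduce at h5
    push_cast at h5
    rw [← Finset.mul_sum, ← h5]
    rw [Finset.sum_add_distrib, Finset.sum_add_distrib, ← Finset.mul_sum, ← Finset.mul_sum]
    ring
  have h6 : (∑ u ∈ Fintype.piFinset U, ‖∑ v ∈ Fintype.piFinset V,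
      e (γ * ((∑ i, ∑ j, u i ^ k * B i j * v j ^ k : ℤ) : ℝ) + h v)‖ ^ (2 * b)) =
      ‖((∑ u ∈ Fintype.piFinset U, ‖∑ v ∈ Fintype.piFinset V,
      e (γ * ((∑ i, ∑ j, u i ^ k * B i j * v j ^ k : ℤ) : ℝ) + h v)‖ ^ (2 * b) : ℝ) : ℂ)‖ := by
    rw [Complex.norm_real, Real.norm_of_nonneg]
    exact Finset.sum_nonneg fun _ _ => by positivity
  rw [h6, h2]
  refine (norm_sum_le _ _).trans (Finset.sum_le_sum fun Y _ => ?_)
  rw [norm_mul, norm_e, one_mul, norm_prod]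

/-- fibres of `mY`. -/
theorem fibre_bound (r b k : ℕ) (V : Fin r → Finset ℤ) (K : ℝ)
    (hK : ∀ i, ∀ m : ℤ, ((((Fintype.piFinset fun _ : Fin b => V i) ×ˢ
      (Fintype.piFinset fun _ : Fin b => V i)).filter
        fun w => ∑ l, w.1 l ^ k - ∑ l, w.2 l ^ k = m).card : ℝ) ≤ K) (m : Fin r → ℤ) :
    ((((Fintype.piFinset fun _ : Fin b => Fintype.piFinset V) ×ˢ
        (Fintype.piFinset fun _ : Fin b => Fintype.piFinset V)).filter
          fun Y => mY k Y = m).card : ℝ) ≤ K ^ r := by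
  have h1 : (((Fintype.piFinset fun _ : Fin b => Fintype.piFinset V) ×ˢ
        (Fintype.piFinset fun _ : Fin b => Fintype.piFinset V)).filter
          fun Y => mY k Y = m).card ≤
      (Fintype.piFinset fun i => (((Fintype.piFinset fun _ : Fin b => V i) ×ˢ
      (Fintype.piFinset fun _ : Fin b => V i)).filter
        fun w => ∑ l, w.1 l ^ k - ∑ l, w.2 l ^ k = m i)).card := by
    refine Finset.card_le_card_of_injOn
      (fun Y i => ((fun l => Y.1 l i), (fun l => Y.2 l i))) ?_ ?_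
    · intro Y hY
      have hY' := (Finset.mem_coe.1 hY)
      rw [Finset.mem_filter, Finset.mem_product, Fintype.mem_piFinset, Fintype.mem_piFinset] at hY'
      refine Finset.mem_coe.2 (Fintype.mem_piFinset.2 fun i => ?_)
      rw [Finset.mem_filter, Finset.mem_product, Fintype.mem_piFinset, Fintype.mem_piFinset]
      refine ⟨⟨fun l => Fintype.mem_piFinset.1 (hY'.1.1 l) i,
        fun l => Fintype.mem_piFinset.1 (hY'.1.2 l) i⟩, ?_⟩
      exact congrFun hY'.2 i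
    · intro Y _ Y' _ hYY
      refine Prod.ext ?_ ?_
      · funext l i
        exact congrFun (congrArg Prod.fst (congrFun hYY i)) l
      · funext l i
        exact congrFun (congrArg Prod.snd (congrFun hYY i)) l
  rw [Fintype.card_piFinset] at h1
  have h2 : ((∏ i, (((Fintype.piFinset fun _ : Fin b => V i) ×ˢ
      (Fintype.piFinset fun _ : Fin b => V i)).filter
        fun w => ∑ l, w.1 l ^ k - ∑ l, w.2 l ^ k = m i).card : ℕ) : ℝ) ≤ K ^ r := by
    push_cast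
    calc _ ≤ ∏ _i : Fin r, K := Finset.prod_le_prod (fun _ _ => by positivity) fun i _ => hK i (m i)
      _ = K ^ r := by simp
  exact le_trans (by exact_mod_cast h1) h2

/-- summation over the fibres. -/
theorem sum_fibres (r b k M0 : ℕ) (V : Fin r → Finset ℤ) (K : ℝ)
    (hK : ∀ i, ∀ m : ℤ, ((((Fintype.piFinset fun _ : Fin b => V i) ×ˢ
      (Fintype.piFinset fun _ : Fin b => V i)).filter
        fun w => ∑ l, w.1 l ^ k - ∑ l, w.2 l ^ k = m).card : ℝ) ≤ K)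
    (hM : ∀ Y ∈ ((Fintype.piFinset fun _ : Fin b => Fintype.piFinset V) ×ˢ
        (Fintype.piFinset fun _ : Fin b => Fintype.piFinset V)), ∀ i, |mY k Y i| ≤ (M0 : ℤ))
    (Ψ : (Fin r → ℤ) → ℝ) (hΨ : ∀ m, 0 ≤ Ψ m) :
    ∑ Y ∈ (Fintype.piFinset fun _ : Fin b => Fintype.piFinset V) ×ˢ
        (Fintype.piFinset fun _ : Fin b => Fintype.piFinset V), Ψ (mY k Y) ≤
      K ^ r * ∑ m ∈ Fintype.piFinset (fun _ : Fin r => Finset.Icc (-(M0 : ℤ)) M0), Ψ m := by
  have hmaps : ∀ Y ∈ ((Fintype.piFinset fun _ : Fin b => Fintype.piFinset V) ×ˢ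
        (Fintype.piFinset fun _ : Fin b => Fintype.piFinset V)),
        mY k Y ∈ Fintype.piFinset (fun _ : Fin r => Finset.Icc (-(M0 : ℤ)) M0) := by
    intro Y hY
    rw [Fintype.mem_piFinset]
    intro i
    rw [Finset.mem_Icc]
    exact abs_le.1 (hM Y hY i)
  rw [← Finset.sum_fiberwise_of_maps_to hmaps, Finset.mul_sum]
  refine Finset.sum_le_sum fun m _ => ?_
  rw [Finset.sum_congr rfl (g := fun _ => Ψ m) (fun Y hY => by rw [(Finset.mem_filter.1 hY).2]),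
    Finset.sum_const, nsmul_eq_mul]
  exact mul_le_mul_of_nonneg_right (fibre_bound r b k V K hK m) (hΨ m)

/-- injectivity of a nonsingular matrix. -/
theorem sum_inj (r M0 M1 : ℕ) (B : Matrix (Fin r) (Fin r) ℤ) (hB : B.det ≠ 0)
    (hM : ∀ m ∈ Fintype.piFinset (fun _ : Fin r => Finset.Icc (-(M0 : ℤ)) M0), ∀ i,
      |B.mulVec m i| ≤ (M1 : ℤ)) (F : Fin r → ℤ → ℝ) (hF : ∀ i n, 0 ≤ F i n) :
    ∑ m ∈ Fintype.piFinset (fun _ : Fin r => Finset.Icc (-(M0 : ℤ)) M0),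
      ∏ i, F i (B.mulVec m i) ≤ ∏ i, ∑ n ∈ Finset.Ico (-(M1 : ℤ)) (M1 + 1), F i n := by
  have hinj : Function.Injective (fun m : Fin r → ℤ => B.mulVec m) := by
    intro m m' hmm
    have h0 : B.mulVec (m - m') = 0 := by
      rw [Matrix.mulVec_sub]
      simpa [sub_eq_zero] using hmm
    have := Matrix.eq_zero_of_mulVec_eq_zero hB h0
    exact sub_eq_zero.1 this
  rw [Finset.prod_univ_sum, ← Finset.sum_image
    (f := fun n : Fin r → ℤ => ∏ i, F i (n i)) (g := fun m : Fin r → ℤ => B.mulVec m)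
    (fun a _ b _ h => hinj h)]
  refine Finset.sum_le_sum_of_subset_of_nonneg ?_ fun _ _ _ => Finset.prod_nonneg fun i _ => hF i _
  intro n hn
  rw [Finset.mem_image] at hn
  obtain ⟨m, hm, rfl⟩ := hn
  rw [Fintype.mem_piFinset]
  intro i
  have := abs_le.1 (hM m hm i)
  rw [Finset.mem_Ico]
  constructor <;> linarith [this.1, this.2]

/-- the one-dimensional sum -/
theorem one_dim (b k M0 M1 : ℕ) (hb : 1 ≤ b) (U : Finset ℤ) (K : ℝ)
    (hK : ∀ m : ℤ, ((((Fintype.piFinset fun _ : Fin b => U) ×ˢ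
      (Fintype.piFinset fun _ : Fin b => U)).filter
        fun w => ∑ l, w.1 l ^ k - ∑ l, w.2 l ^ k = m).card : ℝ) ≤ K)
    (hM : ∀ w ∈ ((Fintype.piFinset fun _ : Fin b => U) ×ˢ
      (Fintype.piFinset fun _ : Fin b => U)), |∑ l, w.1 l ^ k - ∑ l, w.2 l ^ k| ≤ (M0 : ℤ))
    (γ : ℝ) :
    (∑ n ∈ Finset.Ico (-(M1 : ℤ)) (M1 + 1), ‖∑ y ∈ U, e (γ * ((n * y ^ k : ℤ) : ℝ))‖) ^ (2 * b) ≤
      (2 * (M1 : ℝ) + 1) ^ (2 * b - 1) * (K *
        ∑ h ∈ Finset.Icc (-(M0 : ℤ)) M0, ‖∑ n ∈ Finset.Ico (-(M1 : ℤ)) (M1 + 1),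
          e (γ * h * n)‖) := by
  refine (holder _ _ (fun _ _ => norm_nonneg _) b hb).trans ?_
  have hcard : ((Finset.Ico (-(M1 : ℤ)) (M1 + 1)).card : ℝ) = 2 * (M1 : ℝ) + 1 := by
    rw [Int.card_Ico]
    have : ((M1 : ℤ) + 1 - -(M1 : ℤ)).toNat = 2 * M1 + 1 := by omega
    rw [this]
    push_cast
    ring
  rw [hcard]
  refine mul_le_mul_of_nonneg_left ?_ (by positivity)
  have h2 : ((∑ n ∈ Finset.Ico (-(M1 : ℤ)) (M1 + 1),
      ‖∑ y ∈ U, e (γ * ((n * y ^ k : ℤ) : ℝ))‖ ^ (2 * b) : ℝ) : ℂ) =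
      ∑ w ∈ (Fintype.piFinset fun _ : Fin b => U) ×ˢ (Fintype.piFinset fun _ : Fin b => U),
        ∑ n ∈ Finset.Ico (-(M1 : ℤ)) (M1 + 1),
          e (γ * ((∑ l, w.1 l ^ k - ∑ l, w.2 l ^ k : ℤ) : ℝ) * n) := by
    push_cast
    simp_rw [← Complex.ofReal_pow, pow_norm]
    rw [Finset.sum_comm]
    refine Finset.sum_congr rfl fun w _ => Finset.sum_congr rfl fun n _ => ?_
    congr 1
    rw [← Finset.mul_sum, ← Finset.mul_sum]
    simp_rw [← Finset.mul_sum]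
    ring
  have h6 : (∑ n ∈ Finset.Ico (-(M1 : ℤ)) (M1 + 1),
      ‖∑ y ∈ U, e (γ * ((n * y ^ k : ℤ) : ℝ))‖ ^ (2 * b)) =
      ‖((∑ n ∈ Finset.Ico (-(M1 : ℤ)) (M1 + 1),
      ‖∑ y ∈ U, e (γ * ((n * y ^ k : ℤ) : ℝ))‖ ^ (2 * b) : ℝ) : ℂ)‖ := by
    rw [Complex.norm_real, Real.norm_of_nonneg]
    exact Finset.sum_nonneg fun _ _ => by positivity
  rw [h6, h2]
  refine (norm_sum_le _ _).trans ?_
  have hmaps : ∀ w ∈ ((Fintype.piFinset fun _ : Fin b => U) ×ˢ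
      (Fintype.piFinset fun _ : Fin b => U)), ∑ l, w.1 l ^ k - ∑ l, w.2 l ^ k ∈
        Finset.Icc (-(M0 : ℤ)) M0 := by
    intro w hw
    rw [Finset.mem_Icc]
    exact abs_le.1 (hM w hw)
  rw [← Finset.sum_fiberwise_of_maps_to hmaps, Finset.mul_sum]
  refine Finset.sum_le_sum fun m _ => ?_
  rw [Finset.sum_congr rfl (g := fun _ => ‖∑ n ∈ Finset.Ico (-(M1 : ℤ)) (M1 + 1),
          e (γ * m * n)‖) (fun w hw => by rw [(Finset.mem_filter.1 hw).2]),
    Finset.sum_const, nsmul_eq_mul]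
  exact mul_le_mul_of_nonneg_right (hK m) (norm_nonneg _)

end Pool.Agent.helper132_hp.C1x
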