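import Pool.Agent.helper132_hp.T_C1x1

/-! Minor arcs, part C1: splitting off the variables of the minor. -/

namespace Pool.Agent.helper132_hp.C1x

open Finset Pool.Agent.helper132_hp

variable {s r : ℕ}

/-- replace the coordinates of `I` by `u` and those of `J` by `v`. -/
noncomputable def upd (I J : Fin r → Fin s) (z : Fin s → ℤ) (u v : Fin r → ℤ) : Fin s → ℤ :=
  Function.extend I u (Function.extend J v z)

theorem upd_I (I J : Fin r → Fin s) (hI : Function.Injective I) (z : Fin s → ℤ) (u v : Fin r → ℤ)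
    (i : Fin r) : upd I J z u v (I i) = u i := by
  unfold upd
  exact hI.extend_apply _ _ _

theorem upd_J (I J : Fin r → Fin s) (hJ : Function.Injective J) (hIJ : ∀ i j, I i ≠ J j)
    (z : Fin s → ℤ) (u v : Fin r → ℤ) (i : Fin r) : upd I J z u v (J i) = v i := by
  unfold upd
  rw [Function.extend_apply' _ _ _ (by rintro ⟨j, hj⟩; exact hIJ _ _ hj)]
  exact hJ.extend_apply _ _ _

theorem upd_not (I J : Fin r → Fin s) (z : Fin s → ℤ) (u v : Fin r → ℤ) (l : Fin s)
    (h1 : ¬ ∃ i, I i = l) (h2 : ¬ ∃ i, J i = l) : upd I J z u v l = z l := by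
  unfold upd
  rw [Function.extend_apply' _ _ _ h1, Function.extend_apply' _ _ _ h2]

theorem upd_upd (I J : Fin r → Fin s) (hI : Function.Injective I) (hJ : Function.Injective J)
    (hIJ : ∀ i j, I i ≠ J j) (z : Fin s → ℤ) (u v : Fin r → ℤ) :
    upd I J (upd I J z u v) (fun i => z (I i)) (fun i => z (J i)) = z := by
  funext l
  by_cases h1 : ∃ i, I i = l
  · obtain ⟨i, rfl⟩ := h1
    rw [upd_I I J hI]
  · by_cases h2 : ∃ i, J i = l
    · obtain ⟨i, rfl⟩ := h2
      rw [upd_J I J hJ hIJ]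
    · rw [upd_not I J _ _ _ l h1 h2, upd_not I J _ _ _ l h1 h2]

theorem upd_mem (I J : Fin r → Fin s) (hI : Function.Injective I) (hJ : Function.Injective J)
    (hIJ : ∀ i j, I i ≠ J j) (W : Fin s → Finset ℤ) (z : Fin s → ℤ) (u v : Fin r → ℤ)
    (hz : z ∈ Fintype.piFinset W) (hu : u ∈ Fintype.piFinset fun i => W (I i))
    (hv : v ∈ Fintype.piFinset fun i => W (J i)) : upd I J z u v ∈ Fintype.piFinset W := by
  rw [Fintype.mem_piFinset] at hz hu hv ⊢
  intro l
  by_cases h1 : ∃ i, I i = l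
  · obtain ⟨i, rfl⟩ := h1
    rw [upd_I I J hI]
    exact hu i
  · by_cases h2 : ∃ i, J i = l
    · obtain ⟨i, rfl⟩ := h2
      rw [upd_J I J hJ hIJ]
      exact hv i
    · rw [upd_not I J _ _ _ l h1 h2]
      exact hz l

theorem sum_split (I J : Fin r → Fin s) (hI : Function.Injective I) (hJ : Function.Injective J)
    (hIJ : ∀ i j, I i ≠ J j) (W : Fin s → Finset ℤ) (F : (Fin s → ℤ) → ℂ) :
    ∑ z ∈ Fintype.piFinset W, ∑ u ∈ Fintype.piFinset (fun i => W (I i)),
      ∑ v ∈ Fintype.piFinset (fun i => W (J i)), F (upd I J z u v) =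
    (((Fintype.piFinset (fun i => W (I i))).card : ℂ) *
      ((Fintype.piFinset (fun i => W (J i))).card : ℂ)) * ∑ z ∈ Fintype.piFinset W, F z := by
  have h1 : ∑ z ∈ Fintype.piFinset W, ∑ u ∈ Fintype.piFinset (fun i => W (I i)),
      ∑ v ∈ Fintype.piFinset (fun i => W (J i)), F (upd I J z u v) =
      ∑ t ∈ Fintype.piFinset W ×ˢ (Fintype.piFinset (fun i => W (I i)) ×ˢ
        Fintype.piFinset (fun i => W (J i))), F (upd I J t.1 t.2.1 t.2.2) := by
    rw [Finset.sum_product]
    refine Finset.sum_congr rfl fun z _ => ?_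
    rw [Finset.sum_product]
  have h2 : ∑ t ∈ Fintype.piFinset W ×ˢ (Fintype.piFinset (fun i => W (I i)) ×ˢ
        Fintype.piFinset (fun i => W (J i))), F (upd I J t.1 t.2.1 t.2.2) =
      ∑ t ∈ Fintype.piFinset W ×ˢ (Fintype.piFinset (fun i => W (I i)) ×ˢ
        Fintype.piFinset (fun i => W (J i))), F t.1 := by
    have hmem : ∀ t ∈ Fintype.piFinset W ×ˢ (Fintype.piFinset (fun i => W (I i)) ×ˢ
        Fintype.piFinset (fun i => W (J i))),
        ((upd I J t.1 t.2.1 t.2.2, ((fun i => t.1 (I i)), (fun i => t.1 (J i)))) :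
          (Fin s → ℤ) × ((Fin r → ℤ) × (Fin r → ℤ))) ∈
        Fintype.piFinset W ×ˢ (Fintype.piFinset (fun i => W (I i)) ×ˢ
        Fintype.piFinset (fun i => W (J i))) := by
      intro t ht
      rw [Finset.mem_product, Finset.mem_product] at ht ⊢
      refine ⟨upd_mem I J hI hJ hIJ W _ _ _ ht.1 ht.2.1 ht.2.2, ?_, ?_⟩
      · exact Fintype.mem_piFinset.2 fun i => Fintype.mem_piFinset.1 ht.1 (I i)
      · exact Fintype.mem_piFinset.2 fun i => Fintype.mem_piFinset.1 ht.1 (J i)
    have hinv : ∀ t : (Fin s → ℤ) × ((Fin r → ℤ) × (Fin r → ℤ)),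
        ((upd I J (upd I J t.1 t.2.1 t.2.2) (fun i => t.1 (I i)) (fun i => t.1 (J i)),
          ((fun i => upd I J t.1 t.2.1 t.2.2 (I i)), (fun i => upd I J t.1 t.2.1 t.2.2 (J i)))) :
          (Fin s → ℤ) × ((Fin r → ℤ) × (Fin r → ℤ))) = t := by
      intro t
      refine Prod.ext (upd_upd I J hI hJ hIJ _ _ _) (Prod.ext ?_ ?_)
      · funext i
        exact upd_I I J hI _ _ _ i
      · funext i
        exact upd_J I J hJ hIJ _ _ _ i
    exact Finset.sum_nbij' (fun t => (upd I J t.1 t.2.1 t.2.2,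
      ((fun i => t.1 (I i)), (fun i => t.1 (J i))))) (fun t => (upd I J t.1 t.2.1 t.2.2,
      ((fun i => t.1 (I i)), (fun i => t.1 (J i))))) hmem hmem (fun t _ => hinv t)
      (fun t _ => hinv t) (fun t _ => rfl)
  rw [h1, h2, Finset.sum_product]
  simp only [Finset.sum_const, Finset.card_product, nsmul_eq_mul]
  rw [Finset.mul_sum]
  push_cast
  rfl

/-- the bilinear form -/
def Bf (A : Matrix (Fin s) (Fin s) ℤ) (x y : Fin s → ℤ) : ℤ := ∑ l, ∑ m, A l m * x l * y m

theorem Bf_add_left (A : Matrix (Fin s) (Fin s) ℤ) (x x' y : Fin s → ℤ) :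
    Bf A (fun l => x l + x' l) y = Bf A x y + Bf A x' y := by
  unfold Bf
  rw [← Finset.sum_add_distrib]
  refine Finset.sum_congr rfl fun l _ => ?_
  rw [← Finset.sum_add_distrib]
  exact Finset.sum_congr rfl fun m _ => by ring

theorem Bf_comm (A : Matrix (Fin s) (Fin s) ℤ) (hA : A.IsSymm) (x y : Fin s → ℤ) :
    Bf A x y = Bf A y x := by
  unfold Bf
  rw [Finset.sum_comm]
  refine Finset.sum_congr rfl fun l _ => Finset.sum_congr rfl fun m _ => ?_
  rw [hA.apply l m]
  ring

theorem eval_G1 (A : Matrix (Fin s) (Fin s) ℤ) (k : ℕ) (z : Fin s → ℤ) :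
    MvPolynomial.eval z (G1 A k) = Bf A (fun l => z l ^ k) (fun l => z l ^ k) := by
  unfold G1 Bf
  simp only [map_sum, map_mul, map_pow, MvPolynomial.eval_C, MvPolynomial.eval_X]

theorem form_split (A : Matrix (Fin s) (Fin s) ℤ) (hA : A.IsSymm) (k : ℕ) (I J : Fin r → Fin s)
    (hI : Function.Injective I) (hJ : Function.Injective J) (hIJ : ∀ i j, I i ≠ J j)
    (z : Fin s → ℤ) : ∃ g h : (Fin r → ℤ) → ℤ, ∀ u v,
      MvPolynomial.eval (upd I J z u v) (G1 A k) =
        2 * (∑ i, ∑ j, u i ^ k * (A.submatrix I J) i j * v j ^ k) + g u + h v := by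
  classical
  set ξ : (Fin r → ℤ) → Fin s → ℤ := fun u => Function.extend I (fun i => u i ^ k) 0 with hξ
  set η : (Fin r → ℤ) → Fin s → ℤ := fun v => Function.extend J (fun i => v i ^ k) 0 with hη
  set ζ : Fin s → ℤ := fun l => if (∃ i, I i = l) ∨ (∃ i, J i = l) then 0 else z l ^ k with hζ
  have hx : ∀ u v l, upd I J z u v l ^ k = ξ u l + (η v l + ζ l) := by
    intro u v l
    by_cases h1 : ∃ i, I i = l
    · obtain ⟨i, rfl⟩ := h1
      rw [upd_I I J hI, hξ, hη, hζ]
      simp only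
      rw [hI.extend_apply, Function.extend_apply' _ _ _ (by rintro ⟨j, hj⟩; exact hIJ _ _ hj.symm),
        if_pos (Or.inl ⟨i, rfl⟩)]
      simp
    · by_cases h2 : ∃ i, J i = l
      · obtain ⟨i, rfl⟩ := h2
        rw [upd_J I J hJ hIJ, hξ, hη, hζ]
        simp only
        rw [hJ.extend_apply, Function.extend_apply' _ _ _ h1, if_pos (Or.inr ⟨i, rfl⟩)]
        simp
      · rw [upd_not I J _ _ _ l h1 h2, hξ, hη, hζ]
        simp only
        rw [Function.extend_apply' _ _ _ h1, Function.extend_apply' _ _ _ h2,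
          if_neg (not_or.2 ⟨h1, h2⟩)]
        simp
  have hB : ∀ u v, Bf A (ξ u) (η v) =
      ∑ i, ∑ j, u i ^ k * (A.submatrix I J) i j * v j ^ k := by
    intro u v
    unfold Bf
    symm
    refine Fintype.sum_of_injective I hI _ _ ?_ ?_
    · intro l hl
      refine Finset.sum_eq_zero fun m _ => ?_
      rw [hξ]
      simp only
      rw [Function.extend_apply' _ _ _ (by simpa using hl)]
      simp
    · intro i
      refine Fintype.sum_of_injective J hJ _ _ ?_ ?_
      · intro m hm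
        rw [hη]
        simp only
        rw [Function.extend_apply' _ _ _ (by simpa using hm)]
        simp
      · intro j
        rw [hξ, hη]
        simp only
        rw [hI.extend_apply, hJ.extend_apply, Matrix.submatrix_apply]
        ring
  refine ⟨fun u => Bf A (ξ u) (ξ u) + 2 * Bf A (ξ u) ζ + Bf A ζ ζ,
    fun v => Bf A (η v) (η v) + 2 * Bf A (η v) ζ, fun u v => ?_⟩
  rw [eval_G1, ← hB]
  have h1 : (fun l => upd I J z u v l ^ k) = fun l => ξ u l + (η v l + ζ l) := by
    funext l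
    exact hx u v l
  have hadd : ∀ x y : Fin s → ℤ, Bf A (fun l => x l + y l) (fun l => x l + y l) =
      Bf A x x + 2 * Bf A x y + Bf A y y := by
    intro x y
    rw [Bf_add_left, Bf_comm A hA x (fun l => x l + y l), Bf_comm A hA y (fun l => x l + y l),
      Bf_add_left, Bf_add_left, Bf_comm A hA y x]
    ring
  rw [h1, hadd (ξ u) (fun l => η v l + ζ l), hadd (η v) ζ, Bf_comm A hA (ξ u) (fun l => η v l + ζ l),
    Bf_add_left, Bf_comm A hA (η v) (ξ u), Bf_comm A hA ζ (ξ u)]
  ring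

/-- the norm of the sum is controlled by the sums over the `I` and `J` variables. -/
theorem S_le (A : Matrix (Fin s) (Fin s) ℤ) (hA : A.IsSymm) (k : ℕ) (I J : Fin r → Fin s)
    (hI : Function.Injective I) (hJ : Function.Injective J) (hIJ : ∀ i j, I i ≠ J j)
    (W : Fin s → Finset ℤ) (α T : ℝ)
    (hT : ∀ g h : (Fin r → ℤ) → ℝ, ‖∑ u ∈ Fintype.piFinset (fun i => W (I i)),
      ∑ v ∈ Fintype.piFinset (fun i => W (J i)),
      e ((2 * α) * ((∑ i, ∑ j, u i ^ k * (A.submatrix I J) i j * v j ^ k : ℤ) : ℝ) + g u + h v)‖ ≤ T) :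
    ‖∑ z ∈ Fintype.piFinset W, e (α * ((MvPolynomial.eval z (G1 A k) : ℤ) : ℝ))‖ *
      (((Fintype.piFinset (fun i => W (I i))).card : ℝ) *
      ((Fintype.piFinset (fun i => W (J i))).card : ℝ)) ≤ (Fintype.piFinset W).card * T := by
  have h1 := sum_split I J hI hJ hIJ W
    (fun z => e (α * ((MvPolynomial.eval z (G1 A k) : ℤ) : ℝ)))
  have h2 := congrArg norm h1
  rw [norm_mul, norm_mul, Complex.norm_natCast, Complex.norm_natCast, mul_comm] at h2
  rw [← h2]
  refine (norm_sum_le _ _).trans ?_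
  rw [← nsmul_eq_mul, ← Finset.sum_const]
  refine Finset.sum_le_sum fun z _ => ?_
  obtain ⟨g, h, hgh⟩ := form_split A hA k I J hI hJ hIJ z
  refine le_trans (le_of_eq ?_) (hT (fun u => α * (g u : ℝ)) (fun v => α * (h v : ℝ)))
  congr 1
  refine Finset.sum_congr rfl fun u _ => Finset.sum_congr rfl fun v _ => ?_
  rw [hgh u v]
  congr 1
  push_cast
  ring

end Pool.Agent.helper132_hp.C1x
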