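import Pool.Agent.helper132_hp.T_C1x2

/-! Minor arcs, part C1: the constants. -/

namespace Pool.Agent.helper132_hp.C1x

open Finset Pool.Agent.helper132_hp

/-- the combination of the three steps. -/
theorem T_final (r b k M0 M1 : ℕ) (hb : 1 ≤ b) (U V : Fin r → Finset ℤ)
    (B : Matrix (Fin r) (Fin r) ℤ) (hB : B.det ≠ 0) (K Q γ : ℝ) (hK0 : 0 ≤ K)
    (hKU : ∀ i, ∀ m : ℤ, ((((Fintype.piFinset fun _ : Fin b => U i) ×ˢ
      (Fintype.piFinset fun _ : Fin b => U i)).filter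
        fun w => ∑ l, w.1 l ^ k - ∑ l, w.2 l ^ k = m).card : ℝ) ≤ K)
    (hKV : ∀ i, ∀ m : ℤ, ((((Fintype.piFinset fun _ : Fin b => V i) ×ˢ
      (Fintype.piFinset fun _ : Fin b => V i)).filter
        fun w => ∑ l, w.1 l ^ k - ∑ l, w.2 l ^ k = m).card : ℝ) ≤ K)
    (hMU : ∀ i, ∀ w ∈ ((Fintype.piFinset fun _ : Fin b => U i) ×ˢ
      (Fintype.piFinset fun _ : Fin b => U i)), |∑ l, w.1 l ^ k - ∑ l, w.2 l ^ k| ≤ (M0 : ℤ))
    (hMV : ∀ i, ∀ w ∈ ((Fintype.piFinset fun _ : Fin b => V i) ×ˢ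
      (Fintype.piFinset fun _ : Fin b => V i)), |∑ l, w.1 l ^ k - ∑ l, w.2 l ^ k| ≤ (M0 : ℤ))
    (hM1 : ∀ m ∈ Fintype.piFinset (fun _ : Fin r => Finset.Icc (-(M0 : ℤ)) M0), ∀ i,
      |B.mulVec m i| ≤ (M1 : ℤ))
    (hQ : ∑ h ∈ Finset.Icc (-(M0 : ℤ)) M0, ‖∑ n ∈ Finset.Ico (-(M1 : ℤ)) (M1 + 1),
          e (γ * h * n)‖ ≤ Q)
    (g h : (Fin r → ℤ) → ℝ) :
    ‖∑ u ∈ Fintype.piFinset U, ∑ v ∈ Fintype.piFinset V,
      e (γ * ((∑ i, ∑ j, u i ^ k * B i j * v j ^ k : ℤ) : ℝ) + g u + h v)‖ ^ ((2 * b) * (2 * b)) ≤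
    ((Fintype.piFinset U).card : ℝ) ^ ((2 * b - 1) * (2 * b)) *
      (K ^ (2 * b) * ((2 * (M1 : ℝ) + 1) ^ (2 * b - 1) * (K * Q))) ^ r := by
  have h1 := T_bound r b k hb U V B g h γ
  have h2 : ∑ Y ∈ (Fintype.piFinset fun _ : Fin b => Fintype.piFinset V) ×ˢ
        (Fintype.piFinset fun _ : Fin b => Fintype.piFinset V),
        ∏ i, ‖∑ y ∈ U i, e (γ * ((B.mulVec (mY k Y) i * y ^ k : ℤ) : ℝ))‖ ≤
      K ^ r * ∑ m ∈ Fintype.piFinset (fun _ : Fin r => Finset.Icc (-(M0 : ℤ)) M0),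
        ∏ i, ‖∑ y ∈ U i, e (γ * ((B.mulVec m i * y ^ k : ℤ) : ℝ))‖ := by
    refine sum_fibres r b k M0 V K hKV ?_
      (fun m => ∏ i, ‖∑ y ∈ U i, e (γ * ((B.mulVec m i * y ^ k : ℤ) : ℝ))‖)
      (fun m => Finset.prod_nonneg fun i _ => norm_nonneg _)
    intro Y hY i
    rw [Finset.mem_product, Fintype.mem_piFinset, Fintype.mem_piFinset] at hY
    refine hMV i ((fun l => Y.1 l i), (fun l => Y.2 l i)) ?_
    rw [Finset.mem_product, Fintype.mem_piFinset, Fintype.mem_piFinset]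
    exact ⟨fun l => Fintype.mem_piFinset.1 (hY.1 l) i, fun l => Fintype.mem_piFinset.1 (hY.2 l) i⟩
  have h3 := sum_inj r M0 M1 B hB hM1
    (fun i n => ‖∑ y ∈ U i, e (γ * ((n * y ^ k : ℤ) : ℝ))‖) (fun i n => norm_nonneg _)
  set X : Fin r → ℝ := fun i => ∑ n ∈ Finset.Ico (-(M1 : ℤ)) (M1 + 1),
    ‖∑ y ∈ U i, e (γ * ((n * y ^ k : ℤ) : ℝ))‖ with hX
  have h4 : ∀ i, X i ^ (2 * b) ≤ (2 * (M1 : ℝ) + 1) ^ (2 * b - 1) * (K * Q) := by
    intro i
    refine (one_dim b k M0 M1 hb (U i) K (hKU i) (hMU i) γ).trans ?_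
    exact mul_le_mul_of_nonneg_left (mul_le_mul_of_nonneg_left hQ hK0) (by positivity)
  have h5 : ∀ i, 0 ≤ X i := fun i => Finset.sum_nonneg fun _ _ => norm_nonneg _
  have h6 : ‖∑ u ∈ Fintype.piFinset U, ∑ v ∈ Fintype.piFinset V,
      e (γ * ((∑ i, ∑ j, u i ^ k * B i j * v j ^ k : ℤ) : ℝ) + g u + h v)‖ ^ (2 * b) ≤
      ((Fintype.piFinset U).card : ℝ) ^ (2 * b - 1) * (K ^ r * ∏ i, X i) := by
    refine h1.trans (mul_le_mul_of_nonneg_left (h2.trans ?_) (by positivity))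
    exact mul_le_mul_of_nonneg_left h3 (by positivity)
  rw [pow_mul]
  refine (pow_le_pow_left₀ (by positivity) h6 (2 * b)).trans ?_
  rw [mul_pow, ← pow_mul, mul_pow, ← pow_mul, ← Finset.prod_pow]
  refine mul_le_mul_of_nonneg_left ?_ (by positivity)
  rw [mul_pow (K ^ (2 * b)) _ r, ← pow_mul, mul_comm r (2 * b)]
  refine mul_le_mul_of_nonneg_left ?_ (by positivity)
  calc ∏ i, X i ^ (2 * b) ≤ ∏ _i : Fin r, ((2 * (M1 : ℝ) + 1) ^ (2 * b - 1) * (K * Q)) :=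
        Finset.prod_le_prod (fun i _ => pow_nonneg (h5 i) _) fun i _ => h4 i
    _ = ((2 * (M1 : ℝ) + 1) ^ (2 * b - 1) * (K * Q)) ^ r := by simp

/-- bound for the differences of power sums in a box. -/
theorem diff_le (b k c j : ℕ) (x y : ℤ) (hx : |x| ≤ (c : ℤ)) (hy : |y| ≤ (c : ℤ))
    (w : (Fin b → ℤ) × (Fin b → ℤ))
    (hw : w ∈ (Fintype.piFinset fun _ : Fin b => Finset.Ico (x * 2 ^ j) (y * 2 ^ j)) ×ˢ
      (Fintype.piFinset fun _ : Fin b => Finset.Ico (x * 2 ^ j) (y * 2 ^ j))) :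
    |∑ l, w.1 l ^ k - ∑ l, w.2 l ^ k| ≤ ((2 * b * (c * 2 ^ j) ^ k : ℕ) : ℤ) := by
  have h1 : ∀ z ∈ Finset.Ico (x * 2 ^ j) (y * 2 ^ j), |z ^ k| ≤ ((c : ℤ) * 2 ^ j) ^ k := by
    intro z hz
    rw [Finset.mem_Ico] at hz
    rw [abs_pow]
    refine pow_le_pow_left₀ (abs_nonneg _) ?_ _
    have hP : (0 : ℤ) < 2 ^ j := by positivity
    rw [abs_le]
    constructor
    · have := (abs_le.1 hx).1
      nlinarith [hz.1]
    · have := (abs_le.1 hy).2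
      nlinarith [hz.2]
  rw [Finset.mem_product, Fintype.mem_piFinset, Fintype.mem_piFinset] at hw
  have h2 : ∀ v : Fin b → ℤ, (∀ l, v l ∈ Finset.Ico (x * 2 ^ j) (y * 2 ^ j)) →
      |∑ l, v l ^ k| ≤ b * ((c : ℤ) * 2 ^ j) ^ k := by
    intro v hv
    refine (Finset.abs_sum_le_sum_abs _ _).trans ?_
    calc ∑ l, |v l ^ k| ≤ ∑ _l : Fin b, ((c : ℤ) * 2 ^ j) ^ k :=
          Finset.sum_le_sum fun l _ => h1 _ (hv l)
      _ = b * ((c : ℤ) * 2 ^ j) ^ k := by simp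
  have h3 := h2 w.1 hw.1
  have h4 := h2 w.2 hw.2
  have h5 := abs_sub (∑ l, w.1 l ^ k) (∑ l, w.2 l ^ k)
  push_cast
  linarith

/-- the number of solutions of one equation. -/
theorem K_bound (h1 : S_MV) (k : ℕ) (hk : 1 ≤ k) (a b : ℤ) (hab : a < b) :
    ∃ C : ℝ, 0 < C ∧ ∀ (j : ℕ) (m : ℤ),
    ((((Fintype.piFinset fun _ : Fin (bb k) => Finset.Ico (a * 2 ^ j) (b * 2 ^ j)) ×ˢ
      (Fintype.piFinset fun _ : Fin (bb k) => Finset.Ico (a * 2 ^ j) (b * 2 ^ j))).filter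
        fun w => ∑ i, w.1 i ^ k - ∑ i, w.2 i ^ k = m).card : ℝ) ≤
      C * (((2 : ℝ) ^ j) ^ (k * (4 * k + 1)) *
        (2 : ℝ) ^ (1 / (40 * (2 * bb k + 1) : ℝ) * j)) := by
  obtain ⟨C, hC, hCb⟩ := h1 k hk a b hab (1 / (40 * (2 * bb k + 1) : ℝ)) (by positivity)
  set c : ℕ := a.natAbs + b.natAbs + 1 with hc
  have hac : |a| ≤ (c : ℤ) := by rw [hc]; push_cast; linarith [abs_nonneg b]
  have hbc : |b| ≤ (c : ℤ) := by rw [hc]; push_cast; linarith [abs_nonneg a]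
  have hc1 : 1 ≤ c := by omega
  have hbb : 1 ≤ bb k := by unfold bb; nlinarith
  refine ⟨C * (6 * bb k * c ^ (2 * k)), by positivity, fun j m => ?_⟩
  set S := ((Fintype.piFinset fun _ : Fin (bb k) => Finset.Ico (a * 2 ^ j) (b * 2 ^ j)) ×ˢ
      (Fintype.piFinset fun _ : Fin (bb k) => Finset.Ico (a * 2 ^ j) (b * 2 ^ j))) with hS
  set M2 : ℕ := 2 * bb k * (c * 2 ^ j) ^ (2 * k) with hM2
  have hmaps : ∀ w ∈ S.filter (fun w => ∑ i, w.1 i ^ k - ∑ i, w.2 i ^ k = m),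
      (∑ i, w.1 i ^ (2 * k) - ∑ i, w.2 i ^ (2 * k)) ∈ Finset.Icc (-(M2 : ℤ)) M2 := by
    intro w hw
    rw [Finset.mem_Icc]
    exact abs_le.1 (diff_le (bb k) (2 * k) c j a b hac hbc w (Finset.mem_filter.1 hw).1)
  rw [Finset.card_eq_sum_card_fiberwise hmaps]
  push_cast
  have h2 : ∀ m2 ∈ Finset.Icc (-(M2 : ℤ)) M2,
      ((((S.filter (fun w => ∑ i, w.1 i ^ k - ∑ i, w.2 i ^ k = m)).filter
        fun w => ∑ i, w.1 i ^ (2 * k) - ∑ i, w.2 i ^ (2 * k) = m2).card : ℕ) : ℝ) ≤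
      C * (2 : ℝ) ^ (((2 * bb k : ℝ) - 3 * k + 1 / (40 * (2 * bb k + 1) : ℝ)) * j) := by
    intro m2 _
    rw [Finset.filter_filter]
    exact hCb j m m2
  refine (Finset.sum_le_sum h2).trans ?_
  rw [Finset.sum_const, nsmul_eq_mul, Int.card_Icc]
  have h3 : ((((M2 : ℤ) + 1 - -(M2 : ℤ)).toNat : ℕ) : ℝ) ≤
      6 * bb k * c ^ (2 * k) * ((2 : ℝ) ^ j) ^ (2 * k) := by
    have h4 : ((M2 : ℤ) + 1 - -(M2 : ℤ)).toNat = 2 * M2 + 1 := by omega
    have h5 : 1 ≤ M2 := by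
      rw [hM2]
      have : 0 < 2 * bb k * (c * 2 ^ j) ^ (2 * k) := by positivity
      omega
    have h6 : ((M2 : ℕ) : ℝ) = 2 * bb k * c ^ (2 * k) * ((2 : ℝ) ^ j) ^ (2 * k) := by
      rw [hM2]
      push_cast
      rw [mul_pow]
      ring
    rw [h4]
    push_cast
    have h7 : (1 : ℝ) ≤ M2 := by exact_mod_cast h5
    rw [show 6 * (bb k : ℝ) * (c : ℝ) ^ (2 * k) * ((2 : ℝ) ^ j) ^ (2 * k) = 3 * (M2 : ℝ) by
      rw [h6]; ring]
    linarith
  have h8 : (2 : ℝ) ^ (((2 * bb k : ℝ) - 3 * k + 1 / (40 * (2 * bb k + 1) : ℝ)) * j) =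
      ((2 : ℝ) ^ j) ^ (k * (4 * k - 1)) * (2 : ℝ) ^ (1 / (40 * (2 * bb k + 1) : ℝ) * j) := by
    rw [add_mul, Real.rpow_add (by norm_num)]
    congr 1
    rw [← pow_mul, ← Real.rpow_natCast]
    congr 1
    have h9 : ((k * (4 * k - 1) : ℕ) : ℝ) = 2 * bb k - 3 * k := by
      unfold bb
      push_cast [Nat.cast_sub (show 1 ≤ 4 * k by omega)]
      ring
    push_cast [Nat.cast_sub (show 1 ≤ 4 * k by omega)] at h9 ⊢
    rw [← h9]
    ring
  rw [h8]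
  have h10 : k * (4 * k + 1) = 2 * k + k * (4 * k - 1) := by
    have : 4 * k - 1 + 1 = 4 * k := by omega
    nlinarith [this]
  rw [h10, pow_add]
  calc _ ≤ (6 * bb k * c ^ (2 * k) * ((2 : ℝ) ^ j) ^ (2 * k)) *
        (C * (((2 : ℝ) ^ j) ^ (k * (4 * k - 1)) *
          (2 : ℝ) ^ (1 / (40 * (2 * bb k + 1) : ℝ) * j))) :=
        mul_le_mul_of_nonneg_right h3 (by positivity)
    _ = _ := by ring

/-- the logarithm -/
theorem L_bound (k : ℕ) (hk : 1 ≤ k) : ∃ C : ℝ, 0 < C ∧ ∀ j q : ℕ, 0 < q →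
    q ^ 10 * 2 ^ j ≤ 2 ^ (10 * (2 * k) * j) → (1 + Real.log q) ^ 40 ≤ C * 2 ^ j := by
  obtain ⟨C, hC⟩ := (tendsto_pow_const_div_const_pow_of_one_lt 40
    (show (1 : ℝ) < 2 by norm_num)).bddAbove_range
  have hC' : ∀ n : ℕ, (n : ℝ) ^ 40 ≤ C * 2 ^ n := by
    intro n
    have := hC (Set.mem_range_self n)
    rwa [div_le_iff₀ (by positivity)] at this
  refine ⟨(20 * k) ^ 40 * (2 * (|C| + 1)), by positivity, fun j q hq h => ?_⟩
  have hq1 : (1 : ℝ) ≤ q := by exact_mod_cast hq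
  have h1 : (q : ℝ) ≤ 2 ^ (20 * k * j) := by
    have h2 : q ≤ 2 ^ (20 * k * j) := by
      calc q ≤ q ^ 10 := Nat.le_self_pow (by norm_num) q
        _ ≤ q ^ 10 * 2 ^ j := Nat.le_mul_of_pos_right _ (by positivity)
        _ ≤ 2 ^ (10 * (2 * k) * j) := h
        _ = 2 ^ (20 * k * j) := by ring_nf
    exact_mod_cast h2
  have h3 : Real.log q ≤ 20 * k * j := by
    calc Real.log q ≤ Real.log (2 ^ (20 * k * j)) := Real.log_le_log (by linarith) h1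
      _ = (20 * k * j : ℕ) * Real.log 2 := by rw [Real.log_pow]
      _ ≤ (20 * k * j : ℕ) * 1 := by
          refine mul_le_mul_of_nonneg_left ?_ (by positivity)
          linarith [Real.log_two_lt_d9]
      _ = 20 * k * j := by push_cast; ring
  have hk1 : (1 : ℝ) ≤ k := by exact_mod_cast hk
  have h4 : 1 + Real.log q ≤ 20 * k * ((j + 1 : ℕ) : ℝ) := by
    push_cast
    nlinarith
  have h5 : 0 ≤ 1 + Real.log q := by
    have := Real.log_nonneg hq1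
    linarith
  calc (1 + Real.log q) ^ 40 ≤ (20 * k * ((j + 1 : ℕ) : ℝ)) ^ 40 := pow_le_pow_left₀ h5 h4 _
    _ = (20 * k) ^ 40 * ((j + 1 : ℕ) : ℝ) ^ 40 := by rw [mul_pow]
    _ ≤ (20 * k) ^ 40 * (C * 2 ^ (j + 1)) := mul_le_mul_of_nonneg_left (hC' _) (by positivity)
    _ ≤ (20 * k) ^ 40 * ((|C| + 1) * 2 ^ (j + 1)) := by
        refine mul_le_mul_of_nonneg_left (mul_le_mul_of_nonneg_right ?_ (by positivity))
          (by positivity)
        linarith [le_abs_self C]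
    _ = _ := by rw [pow_succ]; ring

/-- the reciprocal sum -/
theorem Q_bound (h2 : S_VL) (α : ℝ) (c : ℤ) (q : ℕ) (hq : 0 < q) (hc : IsCoprime c (q : ℤ))
    (hα : |α - (c : ℝ) / q| ≤ 1 / (q : ℝ) ^ 2) (M0 M1 : ℕ) :
    ∑ h ∈ Finset.Icc (-(M0 : ℤ)) M0, ‖∑ n ∈ Finset.Ico (-(M1 : ℤ)) (M1 + 1),
          e ((2 * α) * h * n)‖ ≤
      50 * ((2 * M0 : ℝ) / q + 1) * (2 * M1 + 1 + q * (1 + Real.log q)) := by
  have h3 := h2 α c q hq hc hα (2 * M0) (2 * M1 + 1) (-(M1 : ℤ)) (M1 + 1) (by omega)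
    (by push_cast; linarith)
  refine le_trans ?_ (h3.trans (le_of_eq (by push_cast; ring)))
  have h4 : ∑ h ∈ Finset.Icc (-(M0 : ℤ)) M0, ‖∑ n ∈ Finset.Ico (-(M1 : ℤ)) (M1 + 1),
          e ((2 * α) * h * n)‖ =
      ∑ h ∈ (Finset.Icc (-(M0 : ℤ)) M0).image (fun h : ℤ => 2 * h),
        ‖∑ n ∈ Finset.Ico (-(M1 : ℤ)) (M1 + 1), e (α * h * n)‖ := by
    rw [Finset.sum_image (fun x _ y _ hxy => by
      have hxy' : 2 * x = 2 * y := hxy
      omega)]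
    refine Finset.sum_congr rfl fun h _ => ?_
    congr 1
    refine Finset.sum_congr rfl fun n _ => ?_
    congr 1
    push_cast
    ring
  rw [h4]
  refine Finset.sum_le_sum_of_subset_of_nonneg ?_ fun _ _ _ => norm_nonneg _
  intro h hh
  rw [Finset.mem_image] at hh
  obtain ⟨x, hx, rfl⟩ := hh
  rw [Finset.mem_Icc] at hx ⊢
  push_cast
  constructor <;> linarith [hx.1, hx.2]

/-- the size of the reciprocal sum on the minor arcs. -/
theorem Q_size (k : ℕ) (hk : 1 ≤ k) (P x q L A B : ℝ) (hP : 1 ≤ P) (hx : x = P ^ k) (hq : 1 ≤ q)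
    (hL : 1 ≤ L) (hA : 1 ≤ A) (hB : 1 ≤ B) (h1 : P ≤ q ^ 10) (h2 : q ^ 10 * P ≤ P ^ (20 * k)) :
    (50 * ((2 * (A * x)) / q + 1) * (2 * (B * (A * x)) + 1 + q * L)) ^ 40 ≤
      (300 * B * A ^ 2) ^ 40 * 4 ^ 40 * P ^ (80 * k - 4) * L ^ 40 := by
  have hq0 : 0 < q := by linarith
  have hP0 : 0 < P := by linarith
  have hx1 : 1 ≤ x := by rw [hx]; exact one_le_pow₀ hP
  have hAx : 1 ≤ A * x := by nlinarith
  have hBAx : 1 ≤ B * (A * x) := by nlinarith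
  have h3 : (2 * (A * x)) / q + 1 ≤ 2 * A * (x / q + 1) := by
    have : (2 * (A * x)) / q = 2 * A * (x / q) := by ring
    rw [this]
    nlinarith
  have h4 : 2 * (B * (A * x)) + 1 + q * L ≤ 3 * B * A * ((x + q) * L) := by
    have e1 : B * (A * x) ≤ B * (A * x) * L := by nlinarith
    have e2 : q * L ≤ B * A * (q * L) := by
      have : 1 ≤ B * A := by nlinarith
      have : 0 ≤ q * L := by positivity
      nlinarith
    nlinarith [show 0 ≤ B * A * (q * L) by positivity]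
  set R := P ^ (20 * k - 1) with hR
  have hRP : R * P = P ^ (20 * k) := by
    rw [hR, ← pow_succ]
    congr 1
    omega
  set t := max (x ^ 2 / q) (max x q) with ht
  have hx0 : 0 < x := by linarith
  have ht0 : 0 ≤ t := le_trans (by positivity) (le_max_left _ _)
  have h5 : t ^ 10 ≤ R := by
    have f1 : (x ^ 2 / q) ^ 10 ≤ R := by
      rw [div_pow, div_le_iff₀ (by positivity), ← pow_mul, hx, ← pow_mul]
      calc P ^ (k * (2 * 10)) = P ^ (20 * k) := by ring_nf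
        _ = R * P := hRP.symm
        _ ≤ R * q ^ 10 := mul_le_mul_of_nonneg_left h1 (by positivity)
    have f2 : x ^ 10 ≤ R := by
      rw [hx, ← pow_mul, hR]
      exact pow_le_pow_right₀ hP (by omega)
    have f3 : q ^ 10 ≤ R := by
      have : q ^ 10 * P ≤ R * P := by rw [hRP]; exact h2
      exact le_of_mul_le_mul_right this hP0
    rcases max_choice (x ^ 2 / q) (max x q) with h | h
    · rw [ht, h]; exact f1
    · rw [ht, h]
      rcases max_choice x q with h' | h'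
      · rw [h']; exact f2
      · rw [h']; exact f3
  have h6 : (x / q + 1) * (x + q) ≤ 4 * t := by
    have g1 : x ^ 2 / q ≤ t := le_max_left _ _
    have g2 : x ≤ t := le_trans (le_max_left _ _) (le_max_right _ _)
    have g3 : q ≤ t := le_trans (le_max_right _ _) (le_max_right _ _)
    have g4 : (x / q + 1) * (x + q) = x ^ 2 / q + 2 * x + q := by
      field_simp
      ring
    rw [g4]
    linarith
  have h7 : 50 * ((2 * (A * x)) / q + 1) * (2 * (B * (A * x)) + 1 + q * L) ≤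
      300 * B * A ^ 2 * (4 * t) * L := by
    calc 50 * ((2 * (A * x)) / q + 1) * (2 * (B * (A * x)) + 1 + q * L)
        ≤ 50 * (2 * A * (x / q + 1)) * (3 * B * A * ((x + q) * L)) := by
          refine mul_le_mul (mul_le_mul_of_nonneg_left h3 (by norm_num)) h4 (by positivity)
            (by positivity)
      _ = 300 * B * A ^ 2 * ((x / q + 1) * (x + q)) * L := by ring
      _ ≤ 300 * B * A ^ 2 * (4 * t) * L := by
          refine mul_le_mul_of_nonneg_right (mul_le_mul_of_nonneg_left h6 (by positivity))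
            (by positivity)
  refine (pow_le_pow_left₀ (by positivity) h7 40).trans ?_
  have h8 : R ^ 4 = P ^ (80 * k - 4) := by
    rw [hR, ← pow_mul]
    congr 1
    omega
  calc (300 * B * A ^ 2 * (4 * t) * L) ^ 40 =
        (300 * B * A ^ 2) ^ 40 * 4 ^ 40 * (t ^ 10) ^ 4 * L ^ 40 := by ring
    _ ≤ (300 * B * A ^ 2) ^ 40 * 4 ^ 40 * R ^ 4 * L ^ 40 := by
        gcongr
    _ = _ := by rw [h8]

end Pool.Agent.helper132_hp.C1x
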