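import Pool.Agent.helper132_hp.T_C1x3

/-! Minor arcs, part C1. -/

namespace Pool.Agent.helper132_hp

open Finset

namespace C1x

/-- bookkeeping of the exponents. -/
theorem expo (k : ℕ) (hk : 1 ≤ k) :
    (2 * bb k - 1) * (2 * bb k) * 40 + (k * (4 * k + 1)) * (40 * (2 * bb k + 1)) + 1 +
      k * (40 * (2 * bb k - 1)) + (80 * k - 4) + 1 = 2 * (160 * bb k ^ 2) - 2 := by
  have hb : 1 ≤ bb k := by unfold bb; nlinarith
  have h1 : (1 : ℕ) ≤ 2 * bb k := by omega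
  have h2 : 4 ≤ 80 * k := by omega
  have h3 : 2 ≤ 2 * (160 * bb k ^ 2) := by nlinarith
  zify [h1, h2, h3]
  unfold bb
  push_cast
  ring

theorem r_large (k : ℕ) (hk : 1 ≤ k) : (2 * k + 1) * (160 * bb k ^ 2) + 1 ≤ 2 * r1 k := by
  unfold bb r1
  have h1 : 2 * k + 1 ≤ 3 * k := by omega
  have h2 : (2 * k + 1) ^ 3 ≤ (3 * k) ^ 3 := Nat.pow_le_pow_left h1 3
  have h3 : 1 ≤ k ^ 5 := Nat.one_le_pow _ _ hk
  have h4 : (2 * k + 1) * (160 * (k * (2 * k + 1)) ^ 2) = 160 * k ^ 2 * (2 * k + 1) ^ 3 := by ring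
  rw [h4]
  calc 160 * k ^ 2 * (2 * k + 1) ^ 3 + 1 ≤ 160 * k ^ 2 * (3 * k) ^ 3 + k ^ 5 := by
        gcongr
    _ = 4321 * k ^ 5 := by ring
    _ ≤ 2 * (3000 * k ^ 5) := by nlinarith

theorem e1_aux (c P C ρ X Q : ℝ) (n m l w : ℕ) :
    ((c * P) ^ n * ((C * (P ^ w * ρ)) ^ m * (X ^ l * ((C * (P ^ w * ρ)) * Q)))) ^ 40 =
      (c ^ (n * 40) * P ^ (n * 40)) * (C ^ (40 * (m + 1)) * (P ^ (w * (40 * (m + 1))) *
        ρ ^ (40 * (m + 1)))) * (X ^ (40 * l) * Q ^ 40) := by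
  have h1 : (C * (P ^ w * ρ)) ^ m * (X ^ l * ((C * (P ^ w * ρ)) * Q)) =
      (C * (P ^ w * ρ)) ^ (m + 1) * (X ^ l * Q) := by
    rw [pow_succ]
    ring
  have h2 : ((c * P) ^ n) ^ 40 = c ^ (n * 40) * P ^ (n * 40) := by
    rw [← pow_mul, mul_pow]
  have h3 : ((C * (P ^ w * ρ)) ^ (m + 1)) ^ 40 = C ^ (40 * (m + 1)) * (P ^ (w * (40 * (m + 1))) *
        ρ ^ (40 * (m + 1))) := by
    rw [← pow_mul, mul_pow, mul_pow, ← pow_mul, mul_comm (m + 1) 40]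
  have h4 : (X ^ l * Q) ^ 40 = X ^ (40 * l) * Q ^ 40 := by
    rw [mul_pow, ← pow_mul, mul_comm l 40]
  rw [h1, mul_pow, mul_pow _ (X ^ l * Q), h2, h3, h4]
  simp only [mul_assoc]

theorem E_alg (c P C ρ X Q Y R : ℝ) (n m l w y z N : ℕ) (hc : 0 ≤ c) (hP : 0 ≤ P) (hC : 0 ≤ C)
    (hX0 : 0 ≤ X)
    (hρ : ρ ^ (40 * (m + 1)) = P) (hX : X ≤ Y * P ^ y) (hQ : Q ^ 40 ≤ R * P ^ z * P)
    (hN : n * 40 + w * (40 * (m + 1)) + 1 + y * (40 * l) + z + 1 = N) :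
    ((c * P) ^ n * ((C * (P ^ w * ρ)) ^ m * (X ^ l * ((C * (P ^ w * ρ)) * Q)))) ^ 40 ≤
      (c ^ (n * 40) * C ^ (40 * (m + 1)) * Y ^ (40 * l) * R) * P ^ N := by
  rw [← hN, e1_aux, hρ]
  have h1 : X ^ (40 * l) ≤ Y ^ (40 * l) * P ^ (y * (40 * l)) := by
    rw [pow_mul P, ← mul_pow]
    exact pow_le_pow_left₀ hX0 hX _
  have h2 : X ^ (40 * l) * Q ^ 40 ≤ (Y ^ (40 * l) * P ^ (y * (40 * l))) * (R * P ^ z * P) :=
    mul_le_mul h1 hQ (by positivity) (le_trans (by positivity) h1)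
  have h3 : 0 ≤ c ^ (n * 40) * P ^ (n * 40) * (C ^ (40 * (m + 1)) *
      (P ^ (w * (40 * (m + 1))) * P)) := by positivity
  refine (mul_le_mul_of_nonneg_left h2 h3).trans (le_of_eq ?_)
  rw [pow_succ P (n * 40 + w * (40 * (m + 1)) + 1 + y * (40 * l) + z),
    pow_add P (n * 40 + w * (40 * (m + 1)) + 1 + y * (40 * l)) z,
    pow_add P (n * 40 + w * (40 * (m + 1)) + 1) (y * (40 * l)),
    pow_succ P (n * 40 + w * (40 * (m + 1))),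
    pow_add P (n * 40) (w * (40 * (m + 1)))]
  generalize P ^ (n * 40) = p1
  generalize P ^ (w * (40 * (m + 1))) = p2
  generalize P ^ (y * (40 * l)) = p3
  generalize P ^ z = p4
  generalize c ^ (n * 40) = p5
  generalize C ^ (40 * (m + 1)) = p6
  generalize Y ^ (40 * l) = p7
  ring

theorem R_aux (R p CL P Q L : ℝ) (hR : 0 ≤ R) (hp : 0 ≤ p) (h : Q ≤ R * p * L)
    (hL : L ≤ CL * P) : Q ≤ (R * CL) * p * P := by
  have h1 : R * p * L ≤ R * p * (CL * P) := mul_le_mul_of_nonneg_left hL (mul_nonneg hR hp)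
  have h2 : R * p * (CL * P) = (R * CL) * p * P := by ring
  linarith

theorem M_aux (A B x : ℝ) (hA : 1 ≤ A) (hB : 1 ≤ B) (hx : 1 ≤ x) :
    0 ≤ 2 * (B * (A * x)) + 1 ∧ 2 * (B * (A * x)) + 1 ≤ 3 * B * A * x := by
  have h1 : 1 ≤ A * x := by nlinarith
  have h2 : 1 ≤ B * (A * x) := by nlinarith
  constructor
  · linarith
  · linarith

/-- the fortieth power of the factor of one variable. -/
theorem E_size (k : ℕ) (hk : 1 ≤ k) (b0 : ℕ) (hb0 : b0 = bb k) (P ρ c C0 A B q L CL : ℝ)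
    (hP : 1 ≤ P)
    (hρ : ρ ^ (40 * (2 * b0 + 1)) = P) (hc : 0 ≤ c) (hC0 : 0 ≤ C0) (hA : 1 ≤ A) (hB : 1 ≤ B)
    (hq : 1 ≤ q) (hL : 1 ≤ L) (h1 : P ≤ q ^ 10) (h2 : q ^ 10 * P ≤ P ^ (20 * k))
    (h3 : L ^ 40 ≤ CL * P) :
    ((c * P) ^ ((2 * b0 - 1) * (2 * b0)) *
      ((C0 * (P ^ (k * (4 * k + 1)) * ρ)) ^ (2 * b0) *
        ((2 * (B * (A * P ^ k)) + 1) ^ (2 * b0 - 1) * ((C0 * (P ^ (k * (4 * k + 1)) * ρ)) *
          (50 * ((2 * (A * P ^ k)) / q + 1) * (2 * (B * (A * P ^ k)) + 1 + q * L)))))) ^ 40 ≤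
    (c ^ ((2 * b0 - 1) * (2 * b0) * 40) * C0 ^ (40 * (2 * b0 + 1)) *
      (3 * B * A) ^ (40 * (2 * b0 - 1)) * ((300 * B * A ^ 2) ^ 40 * 4 ^ 40 * CL)) *
      P ^ (2 * (160 * b0 ^ 2) - 2) := by
  have hQ := Q_size k hk P (P ^ k) q L A B hP rfl hq hL hA hB h1 h2
  have hP0 : 0 ≤ P := le_trans zero_le_one hP
  have hx1 : 1 ≤ P ^ k := one_le_pow₀ hP
  have hM := M_aux A B (P ^ k) hA hB hx1
  have hB0 : 0 ≤ B := le_trans zero_le_one hB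
  have hR0 : 0 ≤ (300 * B * A ^ 2) ^ 40 * 4 ^ 40 :=
    mul_nonneg (pow_nonneg (mul_nonneg (mul_nonneg (by norm_num) hB0) (sq_nonneg A)) _)
      (pow_nonneg (by norm_num) _)
  have hQ2 := R_aux _ _ CL P _ _ hR0 (pow_nonneg hP0 (80 * k - 4)) hQ h3
  have hN : (2 * b0 - 1) * (2 * b0) * 40 + (k * (4 * k + 1)) * (40 * (2 * b0 + 1)) + 1 +
      k * (40 * (2 * b0 - 1)) + (80 * k - 4) + 1 = 2 * (160 * b0 ^ 2) - 2 := by
    subst hb0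
    exact expo k hk
  exact E_alg c P C0 ρ _ _ (3 * B * A) _ ((2 * b0 - 1) * (2 * b0))
    (2 * b0) (2 * b0 - 1) (k * (4 * k + 1)) k (80 * k - 4) (2 * (160 * b0 ^ 2) - 2) hc hP0 hC0
    hM.1 hρ hM.2 hQ2 hN

end C1x

end Pool.Agent.helper132_hp
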