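import Pool.Agent.helper132_hp.T_C1x4

/-! Minor arcs, part C1: the bound for the sums over the variables of the minor. -/

namespace Pool.Agent.helper132_hp

open Finset

namespace C1x

theorem card_Ico_le (x y : ℤ) (c j : ℕ) (hx : |x| ≤ (c : ℤ)) (hy : |y| ≤ (c : ℤ)) :
    ((Finset.Ico (x * 2 ^ j) (y * 2 ^ j)).card : ℝ) ≤ 2 * c * 2 ^ j := by
  rw [Int.card_Ico]
  have h1 : (y * 2 ^ j - x * 2 ^ j).toNat ≤ 2 * c * 2 ^ j := by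
    have h2 : y * 2 ^ j - x * 2 ^ j ≤ ((2 * c * 2 ^ j : ℕ) : ℤ) := by
      push_cast
      have h3 : y - x ≤ 2 * c := by linarith [(abs_le.1 hx).1, (abs_le.1 hy).2]
      have h4 : (0 : ℤ) < 2 ^ j := by positivity
      nlinarith
    exact Int.toNat_le.2 h2
  calc (((y * 2 ^ j - x * 2 ^ j).toNat : ℕ) : ℝ) ≤ ((2 * c * 2 ^ j : ℕ) : ℝ) := by exact_mod_cast h1
    _ = 2 * c * 2 ^ j := by push_cast; ring

theorem le_card_Ico (x y : ℤ) (j : ℕ) (hxy : x < y) :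
    (2 : ℝ) ^ j ≤ ((Finset.Ico (x * 2 ^ j) (y * 2 ^ j)).card : ℝ) := by
  rw [Int.card_Ico]
  have h1 : 2 ^ j ≤ (y * 2 ^ j - x * 2 ^ j).toNat := by
    have h2 : ((2 ^ j : ℕ) : ℤ) ≤ y * 2 ^ j - x * 2 ^ j := by
      push_cast
      have h4 : (0 : ℤ) < 2 ^ j := by positivity
      nlinarith
    exact (Int.le_toNat (le_trans (by positivity) h2)).2 h2
  exact_mod_cast h1

theorem pow_chain (T a b N : ℝ) (m n r : ℕ) (hT : 0 ≤ T) (hb : 0 ≤ b) (ha : 0 ≤ a)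
    (h1 : T ^ m ≤ a ^ n * b ^ r) (c : ℝ) (h2 : a ≤ c ^ r) (_hc : 0 ≤ c)
    (h3 : (c ^ n * b) ^ 40 ≤ N) : T ^ (m * 40) ≤ N ^ r := by
  have h4 : a ^ n * b ^ r ≤ (c ^ n * b) ^ r := by
    rw [mul_pow, ← pow_mul, mul_comm n r, pow_mul]
    exact mul_le_mul_of_nonneg_right (pow_le_pow_left₀ ha h2 n) (by positivity)
  calc T ^ (m * 40) = (T ^ m) ^ 40 := pow_mul T m 40
    _ ≤ ((c ^ n * b) ^ r) ^ 40 := pow_le_pow_left₀ (by positivity) (h1.trans h4) 40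
    _ = ((c ^ n * b) ^ 40) ^ r := by rw [← pow_mul, ← pow_mul, mul_comm r 40]
    _ ≤ N ^ r := pow_le_pow_left₀ (by positivity) h3 r

theorem T_level (h2 : S_VL) (k : ℕ) (hk : 1 ≤ k) (b0 : ℕ) (hb0 : b0 = bb k) (r : ℕ)
    (B : Matrix (Fin r) (Fin r) ℤ) (hB : B.det ≠ 0) (x y x' y' : Fin r → ℤ) (c β : ℕ) (hc : 1 ≤ c)
    (hβ : 1 ≤ β) (hx : ∀ i, |x i| ≤ (c : ℤ)) (hy : ∀ i, |y i| ≤ (c : ℤ))
    (hx' : ∀ i, |x' i| ≤ (c : ℤ)) (hy' : ∀ i, |y' i| ≤ (c : ℤ))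
    (hBβ : ∀ i, ∑ l, |B i l| ≤ (β : ℤ)) (C0 CL ρ : ℝ) (hC0 : 0 ≤ C0) (hρ0 : 0 ≤ ρ) (j : ℕ)
    (hρ : ρ ^ (40 * (2 * b0 + 1)) = 2 ^ j)
    (hKU : ∀ i, ∀ m : ℤ, ((((Fintype.piFinset fun _ : Fin b0 => Finset.Ico (x i * 2 ^ j) (y i * 2 ^ j)) ×ˢ
      (Fintype.piFinset fun _ : Fin b0 => Finset.Ico (x i * 2 ^ j) (y i * 2 ^ j))).filter
        fun w => ∑ l, w.1 l ^ k - ∑ l, w.2 l ^ k = m).card : ℝ) ≤
          C0 * (((2 : ℝ) ^ j) ^ (k * (4 * k + 1)) * ρ))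
    (hKV : ∀ i, ∀ m : ℤ, ((((Fintype.piFinset fun _ : Fin b0 => Finset.Ico (x' i * 2 ^ j) (y' i * 2 ^ j)) ×ˢ
      (Fintype.piFinset fun _ : Fin b0 => Finset.Ico (x' i * 2 ^ j) (y' i * 2 ^ j))).filter
        fun w => ∑ l, w.1 l ^ k - ∑ l, w.2 l ^ k = m).card : ℝ) ≤
          C0 * (((2 : ℝ) ^ j) ^ (k * (4 * k + 1)) * ρ))
    (α : ℝ) (c' : ℤ) (q : ℕ) (hq : 0 < q) (hcq : IsCoprime c' (q : ℤ))
    (hα : |α - (c' : ℝ) / q| ≤ 1 / (q : ℝ) ^ 2) (hq1 : 2 ^ j ≤ q ^ 10)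
    (hq2 : q ^ 10 * 2 ^ j ≤ 2 ^ (10 * (2 * k) * j))
    (hL : (1 + Real.log q) ^ 40 ≤ CL * 2 ^ j) (g h : (Fin r → ℤ) → ℝ) :
    ‖∑ u ∈ Fintype.piFinset (fun i => Finset.Ico (x i * 2 ^ j) (y i * 2 ^ j)),
      ∑ v ∈ Fintype.piFinset (fun i => Finset.Ico (x' i * 2 ^ j) (y' i * 2 ^ j)),
      e ((2 * α) * ((∑ i, ∑ j, u i ^ k * B i j * v j ^ k : ℤ) : ℝ) + g u + h v)‖ ^
        ((2 * b0) * (2 * b0) * 40) ≤
    (((2 * c : ℝ) ^ ((2 * b0 - 1) * (2 * b0) * 40) * C0 ^ (40 * (2 * b0 + 1)) *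
      (3 * β * (2 * b0 * c ^ k)) ^ (40 * (2 * b0 - 1)) *
        ((300 * β * (2 * b0 * c ^ k) ^ 2) ^ 40 * 4 ^ 40 * CL)) *
      ((2 : ℝ) ^ j) ^ (2 * (160 * b0 ^ 2) - 2)) ^ r := by
  have hbb : 1 ≤ b0 := by rw [hb0]; unfold bb; nlinarith
  set M0 : ℕ := 2 * b0 * (c * 2 ^ j) ^ k with hM0
  set M1 : ℕ := β * M0 with hM1
  have hM0r : ((M0 : ℕ) : ℝ) = (2 * b0 * c ^ k) * ((2 : ℝ) ^ j) ^ k := by
    rw [hM0]
    push_cast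
    rw [mul_pow]
    ring
  have hM1r : ((M1 : ℕ) : ℝ) = β * ((2 * b0 * c ^ k) * ((2 : ℝ) ^ j) ^ k) := by
    rw [hM1, ← hM0r]
    push_cast
    rfl
  have hmul : ∀ m ∈ Fintype.piFinset (fun _ : Fin r => Finset.Icc (-(M0 : ℤ)) M0), ∀ i,
      |B.mulVec m i| ≤ (M1 : ℤ) := by
    intro m hm i
    rw [Fintype.mem_piFinset] at hm
    unfold Matrix.mulVec dotProduct
    refine (Finset.abs_sum_le_sum_abs _ _).trans ?_
    calc ∑ l, |B i l * m l| ≤ ∑ l, |B i l| * (M0 : ℤ) := by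
          refine Finset.sum_le_sum fun l _ => ?_
          rw [abs_mul]
          refine mul_le_mul_of_nonneg_left ?_ (abs_nonneg _)
          rw [abs_le]
          exact Finset.mem_Icc.1 (hm l)
      _ = (∑ l, |B i l|) * (M0 : ℤ) := by rw [Finset.sum_mul]
      _ ≤ (β : ℤ) * (M0 : ℤ) := mul_le_mul_of_nonneg_right (hBβ i) (by positivity)
      _ = (M1 : ℤ) := by rw [hM1]; push_cast; rfl
  have hQ := Q_bound h2 α c' q hq hcq hα M0 M1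
  have hqr : (1 : ℝ) ≤ q := by exact_mod_cast hq
  have hLog : 1 ≤ 1 + Real.log q := by
    have := Real.log_nonneg hqr
    linarith
  have hP : (1 : ℝ) ≤ 2 ^ j := one_le_pow₀ (by norm_num)
  have hK0 : 0 ≤ C0 * (((2 : ℝ) ^ j) ^ (k * (4 * k + 1)) * ρ) :=
    mul_nonneg hC0 (mul_nonneg (by positivity) hρ0)
  have hT := T_final r b0 k M0 M1 hbb (fun i => Finset.Ico (x i * 2 ^ j) (y i * 2 ^ j))
    (fun i => Finset.Ico (x' i * 2 ^ j) (y' i * 2 ^ j)) B hB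
    (C0 * (((2 : ℝ) ^ j) ^ (k * (4 * k + 1)) * ρ)) _ (2 * α) hK0 hKU hKV
    (fun i w hw => diff_le b0 k c j (x i) (y i) (hx i) (hy i) w hw)
    (fun i w hw => diff_le b0 k c j (x' i) (y' i) (hx' i) (hy' i) w hw) hmul hQ g h
  rw [hM0r, hM1r] at hT
  have hcard : ((Fintype.piFinset (fun i => Finset.Ico (x i * 2 ^ j) (y i * 2 ^ j))).card : ℝ) ≤
      (2 * c * 2 ^ j) ^ r := by
    rw [Fintype.card_piFinset]
    push_cast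
    calc _ ≤ ∏ _i : Fin r, (2 * c * 2 ^ j : ℝ) :=
          Finset.prod_le_prod (fun _ _ => by positivity)
            fun i _ => card_Ico_le (x i) (y i) c j (hx i) (hy i)
      _ = _ := by simp
  have hc1 : (1 : ℝ) ≤ c := by exact_mod_cast hc
  have hb1 : (1 : ℝ) ≤ b0 := by exact_mod_cast hbb
  have hck : (1 : ℝ) ≤ (c : ℝ) ^ k := one_le_pow₀ hc1
  have hA0 : (1 : ℝ) ≤ 2 * b0 * c ^ k := by nlinarith
  have hq1r : (2 : ℝ) ^ j ≤ (q : ℝ) ^ 10 := by exact_mod_cast hq1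
  have hq2r : (q : ℝ) ^ 10 * 2 ^ j ≤ ((2 : ℝ) ^ j) ^ (20 * k) := by
    rw [← pow_mul, show j * (20 * k) = 10 * (2 * k) * j by ring]
    exact_mod_cast hq2
  have hE := E_size k hk b0 hb0 (2 ^ j) ρ (2 * c) C0 (2 * b0 * c ^ k) β q (1 + Real.log q) CL hP hρ
    (by positivity) hC0 hA0 (by exact_mod_cast hβ) hqr hLog hq1r hq2r hL
  refine pow_chain _ _ _ _ _ _ _ (norm_nonneg _) ?_ (by positivity) hT _ hcard (by positivity) hE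
  have hlog0 : 0 ≤ Real.log q := Real.log_nonneg hqr
  positivity

end C1x

end Pool.Agent.helper132_hp
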