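import Pool.Agent.helper132_hp.Stmts3

/-! A common zero of a quadratic form and a linear form in `k`-th powers (S_COM). -/

namespace Pool.Agent.helper132_hp

open Finset

namespace COMx

open PADx Matrix

lemma blocks {ι : Type} [DecidableEq ι] (n0 N : ℕ) : ∀ J : Finset ι, n0 * N ≤ J.card →
    ∃ g : ι → ℕ, ∀ n < n0, N ≤ (J.filter fun l => g l = n).card := by
  induction n0 with
  | zero => exact fun J _ => ⟨fun _ => 0, fun n hn => absurd hn (Nat.not_lt_zero n)⟩
  | succ n0 ih =>
    intro J hJ
    have h1 : N ≤ J.card := by nlinarith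
    obtain ⟨B, hB, hBc⟩ := Finset.exists_subset_card_eq h1
    have h2 : n0 * N ≤ (J \ B).card := by
      rw [Finset.card_sdiff_of_subset hB, hBc]
      have : (n0 + 1) * N = n0 * N + N := by ring
      omega
    obtain ⟨g, hg⟩ := ih (J \ B) h2
    refine ⟨fun l => if l ∈ B then n0 else g l, fun n hn => ?_⟩
    rcases Nat.lt_or_ge n n0 with h3 | h3
    · refine (hg n h3).trans (Finset.card_le_card fun l hl => ?_)
      rw [Finset.mem_filter, Finset.mem_sdiff] at hl
      rw [Finset.mem_filter]
      exact ⟨hl.1.1, by simp only [if_neg hl.1.2]; exact hl.2⟩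
    · have h4 : n = n0 := by omega
      rw [← hBc]
      refine Finset.card_le_card fun l hl => ?_
      rw [Finset.mem_filter]
      exact ⟨hB hl, by simp only [if_pos hl]; exact h4.symm⟩

/-- the family of vectors with disjoint supports in `J`, orthogonal powers, on the kernel of `c`. -/
lemma family (h : S_AS) (p : ℕ) [Fact p.Prime] (k : ℕ) (hk : 1 ≤ k) (n0 : ℕ)
    (s : ℕ) (A : Matrix (Fin s) (Fin s) ℚ_[p]) (hA : A.IsSymm) (c : Fin s → ℚ_[p])
    (J : Finset (Fin s)) (hJ : n0 * Nas (n0 + 1) k ≤ J.card) :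
    ∃ z : Fin n0 → Fin s → ℚ_[p], (∀ j, z j ≠ 0) ∧ (∀ i j l, z i l ≠ 0 → z j l ≠ 0 → i = j) ∧
      (∀ j l, z j l ≠ 0 → l ∈ J) ∧ (∀ j, ∑ l, c l * z j l ^ k = 0) ∧
      (∀ i j, i ≠ j → pw k (z i) ⬝ᵥ A *ᵥ pw k (z j) = 0) := by
  obtain ⟨g, hg⟩ := blocks n0 (Nas (n0 + 1) k) J hJ
  have key : ∀ n ≤ n0, ∃ z : ℕ → Fin s → ℚ_[p], (∀ j < n, z j ≠ 0) ∧
      (∀ j l, z j l ≠ 0 → g l = j ∧ l ∈ J) ∧ (∀ j, ∑ l, c l * z j l ^ k = 0) ∧
      (∀ i < n, ∀ j < i, pw k (z i) ⬝ᵥ A *ᵥ pw k (z j) = 0) := by
    intro n
    induction n with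
    | zero =>
      intro _
      exact ⟨fun _ _ => 0, by simp, by simp, by simp [Nat.one_le_iff_ne_zero.mp hk], by simp⟩
    | succ n ih =>
      intro hn
      obtain ⟨z, hz1, hz2, hz4, hz3⟩ := ih (by omega)
      obtain ⟨y, hy, hyB, hyc⟩ := AS_finset h p k (n0 + 1) hk (by omega)
        (J.filter fun l : Fin s => g l = n) (hg n (by omega))
        (fun m l => if m.val < n then (A *ᵥ pw k (z m.val)) l else c l)
      refine ⟨Function.update z n y, ?_, ?_, ?_, ?_⟩
      · intro j hj
        by_cases hjn : j = n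
        · subst hjn; simpa using hy
        · rw [Function.update_of_ne hjn]
          exact hz1 j (by omega)
      · intro j l hl
        by_cases hjn : j = n
        · subst hjn
          rw [Function.update_self] at hl
          have := Finset.mem_filter.mp (hyB l hl)
          exact ⟨this.2, this.1⟩
        · rw [Function.update_of_ne hjn] at hl
          exact hz2 j l hl
      · intro j
        by_cases hjn : j = n
        · subst hjn
          rw [Function.update_self]
          have := hyc ⟨n0, by omega⟩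
          have hnn : ¬ (n0 < j) := by omega
          simp only [hnn, if_false] at this
          exact this
        · rw [Function.update_of_ne hjn]
          exact hz4 j
      · intro i hi j hj
        have hjn : j ≠ n := by omega
        rw [Function.update_of_ne hjn]
        by_cases hin : i = n
        · subst hin
          rw [Function.update_self]
          have := hyc ⟨j, by omega⟩
          simp only [hj, if_true] at this
          rw [← this]
          unfold dotProduct
          refine Finset.sum_congr rfl fun l _ => ?_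
          rw [mul_comm]
          rfl
        · rw [Function.update_of_ne hin]
          exact hz3 i (by omega) j hj
  obtain ⟨z, hz1, hz2, hz4, hz3⟩ := key n0 le_rfl
  refine ⟨fun j => z j.val, fun j => hz1 j.val j.isLt, ?_, fun j l hl => (hz2 j.val l hl).2,
    fun j => hz4 j.val, ?_⟩
  · intro i j l hi hj
    exact Fin.ext ((hz2 i.val l hi).1.symm.trans (hz2 j.val l hj).1)
  · intro i j hij
    rcases Nat.lt_or_ge j.val i.val with hlt | hge
    · exact hz3 i.val i.isLt j.val hlt
    · have hlt : i.val < j.val := lt_of_le_of_ne hge (fun hh => hij (Fin.ext hh))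
      rw [dot_symm A hA]
      exact hz3 j.val j.isLt i.val hlt

end COMx

open PADx Matrix in
theorem t_COM (h : S_AS) : S_COM := by
  classical
  intro p _ k hk s A hA c J hJ
  set n0 := Nas 1 (2 * k) with hn0
  obtain ⟨z, hz, hd, hzJ, hzc, ho⟩ := COMx.family h p k hk n0 s A hA c J hJ
  obtain ⟨t, ht, -, htc⟩ := AS_finset h p (2 * k) 1 (by omega) le_rfl
    (Finset.univ : Finset (Fin n0)) (by simp [hn0])
    (fun _ j => pw k (z j) ⬝ᵥ A *ᵥ pw k (z j))
  obtain ⟨j, hj⟩ := Function.ne_iff.mp ht
  have hj' : t j ≠ 0 := hj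
  have hw : ∀ (j : Fin n0) (l : Fin s), t j ≠ 0 → z j l ≠ 0 → (0 : Fin s → ℚ_[p]) l = 0 :=
    fun _ _ _ _ => rfl
  have hpw0 : pw k (0 : Fin s → ℚ_[p]) = 0 := by
    funext l
    simp [pw, Nat.one_le_iff_ne_zero.mp hk]
  have hcomb := comb k hk z hd t 0 hw
  refine ⟨fun l => ∑ j, t j * z j l + (0 : Fin s → ℚ_[p]) l, ?_, ?_, ?_, ?_⟩
  · obtain ⟨l, hl⟩ := Function.ne_iff.mp (hz j)
    intro h0
    exact val_supp z hd t 0 hw j hj' l hl (congrFun h0 l)
  · intro l hl
    by_contra hn
    apply hl
    show ∑ j, t j * z j l + (0 : Fin s → ℚ_[p]) l = 0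
    rw [Pi.zero_apply, add_zero]
    refine Finset.sum_eq_zero fun i _ => ?_
    by_contra hi
    exact hn (hzJ i l (right_ne_zero_of_mul hi))
  · have h1 : ∀ l, (∑ j, t j * z j l + (0 : Fin s → ℚ_[p]) l) ^ k =
        ∑ j, t j ^ k * z j l ^ k := by
      intro l
      have h2 := congrFun hcomb l
      rw [hpw0, add_zero] at h2
      simp only [pw, Finset.sum_apply, Pi.smul_apply, smul_eq_mul] at h2
      exact h2
    calc ∑ l, c l * (∑ j, t j * z j l + (0 : Fin s → ℚ_[p]) l) ^ k
        = ∑ l, ∑ j, t j ^ k * (c l * z j l ^ k) := by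
          refine Finset.sum_congr rfl fun l _ => ?_
          rw [h1 l, Finset.mul_sum]
          exact Finset.sum_congr rfl fun j _ => by ring
      _ = ∑ j, t j ^ k * ∑ l, c l * z j l ^ k := by
          rw [Finset.sum_comm]
          exact Finset.sum_congr rfl fun j _ => by rw [Finset.mul_sum]
      _ = 0 := Finset.sum_eq_zero fun j _ => by rw [hzc j, mul_zero]
  · rw [hcomb, expand A hA (fun j => pw k (z j)) ho, hpw0]
    have := htc 0
    simp only [zero_dotProduct, mul_zero, Finset.sum_const_zero, add_zero]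
    rw [← this]
    refine Finset.sum_congr rfl fun i _ => ?_
    rw [← pow_mul, mul_comm k 2]
    ring

end Pool.Agent.helper132_hp
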