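import Pool.Agent.helper132_hp.T_POL

/-! Final assembly for integer matrices. -/

namespace Pool.Agent.helper132_hp

open Finset MvPolynomial

namespace FINx

variable {s : ℕ}

/-- the integer interval around a real number. -/
noncomputable def lo (x : ℝ) : ℤ := ⌈x⌉ - 1

noncomputable def hi (x : ℝ) : ℤ := ⌊x⌋ + 1

lemma lo_lt (x : ℝ) : (lo x : ℝ) < x := by
  unfold lo
  push_cast
  linarith [Int.ceil_lt_add_one x]

lemma lt_hi (x : ℝ) : x < (hi x : ℝ) := by
  unfold hi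
  push_cast
  exact Int.lt_floor_add_one x

lemma lo_lt_hi (x : ℝ) : lo x < hi x := by
  have := (lo_lt x).trans (lt_hi x)
  exact_mod_cast this

lemma ne_zero_of_mem (x : ℝ) (hx : 1 < |x|) (j : ℕ) (z : ℤ) (h1 : lo x * 2 ^ j ≤ z) (h2 : z < hi x * 2 ^ j) :
    z ≠ 0 := by
  have h2j : (0 : ℤ) < 2 ^ j := by positivity
  rcases lt_abs.1 hx with h | h
  · have h3 : 1 ≤ lo x := by
      have : (1 : ℤ) < ⌈x⌉ := by
        have := Int.le_ceil x
        have h4 : (1 : ℝ) < ⌈x⌉ := lt_of_lt_of_le h this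
        exact_mod_cast h4
      unfold lo
      omega
    nlinarith
  · have h3 : hi x ≤ -1 := by
      have : ⌊x⌋ < (-1 : ℤ) := by
        have := Int.floor_le x
        have h4 : (⌊x⌋ : ℝ) < -1 := by linarith
        exact_mod_cast h4
      unfold hi
      omega
    nlinarith

lemma scale_eval (A : Matrix (Fin s) (Fin s) ℤ) (k : ℕ) (t : ℝ) (y : Fin s → ℝ) :
    aeval (fun i => t * y i) (G1 A k) = t ^ (2 * k) * aeval y (G1 A k) := by
  rw [aeval_G1, aeval_G1, Finset.mul_sum]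
  refine Finset.sum_congr rfl fun i _ => ?_
  rw [Finset.mul_sum]
  refine Finset.sum_congr rfl fun j _ => ?_
  rw [mul_pow, mul_pow, two_mul, pow_add]
  ring

lemma scale_pderiv (A : Matrix (Fin s) (Fin s) ℤ) (k : ℕ) (t : ℝ) (y : Fin s → ℝ) (l : Fin s) :
    aeval (fun i => t * y i) (pderiv l (G1 A k)) = t ^ (k - 1) * t ^ k * aeval y (pderiv l (G1 A k)) := by
  rw [aeval_pderiv_G1, aeval_pderiv_G1]
  simp only [mul_pow]
  have h1 : ∑ j, (A l j : ℝ) * (t ^ k * y j ^ k) = t ^ k * ∑ j, (A l j : ℝ) * y j ^ k := by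
    rw [Finset.mul_sum]
    refine Finset.sum_congr rfl fun j _ => by ring
  have h2 : ∑ j, (A j l : ℝ) * (t ^ k * y j ^ k) = t ^ k * ∑ j, (A j l : ℝ) * y j ^ k := by
    rw [Finset.mul_sum]
    refine Finset.sum_congr rfl fun j _ => by ring
  rw [h1, h2]
  ring

lemma y_ne_zero (A : Matrix (Fin s) (Fin s) ℤ) (k : ℕ) (hk : 1 ≤ k) (y : Fin s → ℝ) (l : Fin s)
    (h : aeval y (pderiv l (G1 A k)) ≠ 0) : ∃ i, y i ≠ 0 := by
  by_contra hcon
  push_neg at hcon
  apply h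
  rw [aeval_pderiv_G1]
  have h1 : ∀ j, (A l j : ℝ) * y j ^ k = 0 := by intro j; rw [hcon j, zero_pow (by omega), mul_zero]
  have h2 : ∀ j, (A j l : ℝ) * y j ^ k = 0 := by intro j; rw [hcon j, zero_pow (by omega), mul_zero]
  simp [h1, h2]

end FINx

open FINx in
/-- the main theorem for integer matrices. -/
theorem t_FIN (hDICH : S_DICH) (hC1 : S_C1) (hC2 : S_C2) (hPAD : S_PAD) (hHEN : S_HEN) (hACM : S_ACM)
    (k : ℕ) (hk : 1 ≤ k) (s : ℕ) (hs1 : sp k ≤ s) (hs2 : t1 k + 4 * r1 k ≤ s)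
    (A : Matrix (Fin s) (Fin s) ℤ) (hA : A.IsSymm) (hdet : A.det ≠ 0)
    (hy : ∃ y : Fin s → ℝ, aeval y (G1 A k) = 0 ∧ ∃ l, aeval y (pderiv l (G1 A k)) ≠ 0) :
    ∃ y : Fin s → ℤ, y ≠ 0 ∧ eval y (G1 A k) = 0 := by
  obtain ⟨y, hy0, l, hyl⟩ := hy
  obtain ⟨i0, hi0⟩ := y_ne_zero A k hk y l hyl
  obtain ⟨t, ht⟩ : ∃ t : ℝ, t = 2 / |y i0| := ⟨_, rfl⟩
  have hyabs : 0 < |y i0| := abs_pos.2 hi0
  have ht0 : 0 < t := by rw [ht]; positivity
  have hbig : 1 < |t * y i0| := by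
    rw [abs_mul, abs_of_pos ht0, ht, div_mul_cancel₀ _ hyabs.ne']
    norm_num
  rcases hDICH s (r1 k) A hdet with ⟨I, J, hI, hJ, hIJ, hd⟩ | ⟨Λ, P, Q, K, hΛ, hK, hP, hQ⟩
  · -- first case
    obtain ⟨a, ha⟩ : ∃ a : Fin s → ℤ, a = fun i => lo (t * y i) := ⟨_, rfl⟩
    obtain ⟨b, hb⟩ : ∃ b : Fin s → ℤ, b = fun i => hi (t * y i) := ⟨_, rfl⟩
    have hab : ∀ i, a i < b i := by intro i; rw [ha, hb]; exact lo_lt_hi _
    have hcr := hC1 k hk s A hA I J hI hJ hIJ hd a b hab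
    have hrs : RealSm (G1 A k) a b := by
      refine ⟨fun i => t * y i, fun i => ?_, ?_, l, ?_⟩
      · rw [ha, hb]; exact ⟨lo_lt _, lt_hi _⟩
      · rw [scale_eval, hy0, mul_zero]
      · rw [scale_pderiv]
        exact mul_ne_zero (by positivity) hyl
    have hpd : PDens (G1 A k) := by
      intro p hp
      haveI : Fact p.Prime := ⟨hp⟩
      obtain ⟨z, hz0, hz1⟩ := hPAD p k hk s hs1 A hA hdet
      exact hHEN (Fin s) (G1 A k) p z hz0 hz1
    obtain ⟨j0, hj0⟩ := hACM (Fin s) (G1 A k) (2 * k) (by omega) (homog_G1 A k) a b hab hcr hrs hpd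
    obtain ⟨z, hz, hz0⟩ := hj0 j0 le_rfl
    refine ⟨z, ?_, hz0⟩
    intro h
    unfold box at hz
    rw [Fintype.mem_piFinset] at hz
    have h1 := Finset.mem_Ico.1 (hz i0)
    rw [ha, hb] at h1
    exact ne_zero_of_mem (t * y i0) hbig j0 (z i0) h1.1 h1.2 (by rw [h]; rfl)
  · -- second case
    obtain ⟨A', hA'⟩ : ∃ A' : Matrix (Fin s) (Fin s) ℤ, A' = Λ • A := ⟨_, rfl⟩
    have hA'a : ∀ i j, A' i j = Λ * A i j := by intro i j; rw [hA']; rfl
    have hA's : A'.IsSymm := by rw [hA']; exact hA.smul Λ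
    have hA'd : A'.det ≠ 0 := by
      rw [hA', Matrix.det_smul]
      exact mul_ne_zero (pow_ne_zero _ hΛ) hdet
    obtain ⟨a, ha⟩ : ∃ a : Fin s ⊕ Fin s → ℤ, a = Sum.elim (fun _ => 1) (fun i => lo (t * y i)) := ⟨_, rfl⟩
    obtain ⟨b, hb⟩ : ∃ b : Fin s ⊕ Fin s → ℤ, b = Sum.elim (fun _ => 3) (fun i => hi (t * y i)) := ⟨_, rfl⟩
    have hab : ∀ i, a i < b i := by
      intro i
      rw [ha, hb]
      rcases i with i | i
      · simp
      · exact lo_lt_hi _
    have hcr : Crude (G2 A' k) (4 * k) a b := by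
      refine hC2 k hk s A' P Q K (by omega) ?_ ?_ a b hab
      · intro i hi j hj hij; rw [hA'a]; exact hP i hi j hj hij
      · intro i hi; rw [hA'a]; exact hQ i hi
    have hval : ∀ w : Fin s → ℝ, aeval w (G1 A' k) = Λ * aeval w (G1 A k) := by
      intro w
      rw [aeval_G1, aeval_G1, Finset.mul_sum]
      refine Finset.sum_congr rfl fun i _ => ?_
      rw [Finset.mul_sum]
      refine Finset.sum_congr rfl fun j _ => ?_
      rw [hA'a]; push_cast; ring
    have hder : ∀ w : Fin s → ℝ, aeval w (pderiv l (G1 A' k)) = Λ * aeval w (pderiv l (G1 A k)) := by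
      intro w
      rw [aeval_pderiv_G1, aeval_pderiv_G1]
      have h1 : ∑ j, (A' l j : ℝ) * w j ^ k = Λ * ∑ j, (A l j : ℝ) * w j ^ k := by
        rw [Finset.mul_sum]
        refine Finset.sum_congr rfl fun j _ => by rw [hA'a]; push_cast; ring
      have h2 : ∑ j, (A' j l : ℝ) * w j ^ k = Λ * ∑ j, (A j l : ℝ) * w j ^ k := by
        rw [Finset.mul_sum]
        refine Finset.sum_congr rfl fun j _ => by rw [hA'a]; push_cast; ring
      rw [h1, h2]
      ring
    have hΛR : (Λ : ℝ) ≠ 0 := by exact_mod_cast hΛ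
    have hrs : RealSm (G2 A' k) a b := by
      refine ⟨Sum.elim (fun _ => 2) (fun i => t * y i), fun i => ?_, ?_, Sum.inr l, ?_⟩
      · rw [ha, hb]
        rcases i with i | i
        · simp only [Sum.elim_inl]; norm_num
        · exact ⟨lo_lt _, lt_hi _⟩
      · rw [aeval_G2]
        simp only [Sum.elim_inl, Sum.elim_inr]
        rw [scale_eval, scale_eval, hval, hy0]
        ring
      · rw [aeval_pderiv_G2 A' k hk]
        simp only [Sum.elim_inl, Sum.elim_inr]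
        rw [scale_pderiv, scale_pderiv, hder]
        have : (0 : ℝ) < 2 ^ (k - 1) * 2 ^ k := by positivity
        have h2 : (0 : ℝ) < t ^ (k - 1) * t ^ k := by positivity
        exact mul_ne_zero (by norm_num) (mul_ne_zero this.ne' (mul_ne_zero h2.ne' (mul_ne_zero hΛR hyl)))
    have hpd : PDens (G2 A' k) := by
      intro p hp
      haveI : Fact p.Prime := ⟨hp⟩
      obtain ⟨z, hz0, l', hz1⟩ := hPAD p k hk s hs1 A' hA's hA'd
      refine hHEN (Fin s ⊕ Fin s) (G2 A' k) p (Sum.elim (fun _ => 1) z) ?_ ⟨Sum.inr l', ?_⟩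
      · rw [aeval_G2]
        simp only [Sum.elim_inl, Sum.elim_inr, one_mul]
        exact hz0
      · rw [aeval_pderiv_G2 A' k hk]
        simp only [Sum.elim_inl, Sum.elim_inr, one_mul]
        exact hz1
    obtain ⟨j0, hj0⟩ := hACM (Fin s ⊕ Fin s) (G2 A' k) (4 * k) (by omega) (homog_G2 A' k) a b hab hcr hrs hpd
    obtain ⟨z, hz, hz0⟩ := hj0 j0 le_rfl
    unfold box at hz
    rw [Fintype.mem_piFinset] at hz
    refine ⟨fun i => z (Sum.inl i) * z (Sum.inr i), ?_, ?_⟩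
    · intro h
      have h1 := Finset.mem_Ico.1 (hz (Sum.inr i0))
      have h2 := Finset.mem_Ico.1 (hz (Sum.inl i0))
      rw [ha, hb] at h1 h2
      simp only [Sum.elim_inl, Sum.elim_inr] at h1 h2
      have h3 := ne_zero_of_mem (t * y i0) hbig j0 _ h1.1 h1.2
      have h4 : z (Sum.inl i0) ≠ 0 := by
        have : (0 : ℤ) < 2 ^ j0 := by positivity
        omega
      have h5 := congrFun h i0
      simp only [Pi.zero_apply] at h5
      exact mul_ne_zero h4 h3 h5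
    · have h1 : aeval z (G2 A' k) = (0 : ℤ) := by
        rw [← hz0]; rfl
      rw [aeval_G2] at h1
      have h2 : eval (fun i => z (Sum.inl i) * z (Sum.inr i)) (G1 A k) = aeval (fun i => z (Sum.inl i) * z (Sum.inr i)) (G1 A k) := rfl
      rw [h2]
      rw [aeval_G1] at h1 ⊢
      have h3 : Λ * (∑ i, ∑ j, ((A i j : ℤ) : ℤ) * (z (Sum.inl i) * z (Sum.inr i)) ^ k * (z (Sum.inl j) * z (Sum.inr j)) ^ k) = 0 := by
        rw [← h1, Finset.mul_sum]
        refine Finset.sum_congr rfl fun i _ => ?_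
        rw [Finset.mul_sum]
        refine Finset.sum_congr rfl fun j _ => ?_
        rw [hA'a]; push_cast; ring
      rcases mul_eq_zero.1 h3 with h4 | h4
      · exact absurd h4 hΛ
      · exact h4

end Pool.Agent.helper132_hp
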