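import Pool.Agent.helper132_hp.Stmts2
import Pool.Agent.helper132_hp.T_HEN

/-! Hensel lifting in a residue class: a nonsingular `p`-adic zero congruent to `v` modulo `p ^ E`
gives a positive `p`-adic density of the zeros congruent to `v`. -/

namespace Pool.Agent.helper132_hp

open Finset

namespace HENrx

variable {ι : Type} [DecidableEq ι]
variable {p : ℕ} [Fact p.Prime]

/-- lifting along the coordinate `l`, with the congruence. -/
theorem lift (G : MvPolynomial ι ℤ) (z : ι → ℤ_[p]) (h0 : MvPolynomial.aeval z G = 0) (l : ι)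
    (hl : MvPolynomial.aeval z (MvPolynomial.pderiv l G) ≠ 0) (E : ℕ) :
    ∃ n : ℕ, E ≤ n ∧ ∀ w : ι → ℤ_[p], (∀ i, (p : ℤ_[p]) ^ n ∣ w i - z i) →
      ∃ t : ℤ_[p], MvPolynomial.aeval (Function.update w l t) G = 0 ∧
        (p : ℤ_[p]) ^ E ∣ t - z l := by
  set D := MvPolynomial.aeval z (MvPolynomial.pderiv l G) with hD
  set v := D.valuation with hv
  have hDn : ‖D‖ = (p : ℝ) ^ (-(v : ℤ)) := PadicInt.norm_eq_zpow_neg_valuation hl
  have hp1 : (1 : ℝ) < p := by exact_mod_cast (Fact.out : p.Prime).one_lt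
  have hp0 : (0 : ℝ) < p := by linarith
  refine ⟨2 * v + 1 + E, by omega, fun w hw => ?_⟩
  have hw' : ∀ i, (p : ℤ_[p]) ^ (2 * v + 1 + E) ∣ Function.update w l (z l) i - z i := by
    intro i
    by_cases h : i = l
    · subst h; simp
    · simp [h, hw i]
  have e1 : (p : ℤ_[p]) ^ (2 * v + 1 + E) ∣ (HENx.onev G l w).eval (z l) := by
    have := HENx.aeval_dvd G ((p : ℤ_[p]) ^ (2 * v + 1 + E)) _ _ hw'
    rwa [h0, sub_zero, ← HENx.eval_onev] at this
  have e2 : (p : ℤ_[p]) ^ (2 * v + 1 + E) ∣ (HENx.onev G l w).derivative.eval (z l) - D := by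
    have := HENx.aeval_dvd (MvPolynomial.pderiv l G) ((p : ℤ_[p]) ^ (2 * v + 1 + E)) _ _ hw'
    rwa [← hD, ← HENx.eval_onev, ← HENx.derivative_onev] at this
  have n1 : ‖(HENx.onev G l w).eval (z l)‖ ≤ (p : ℝ) ^ (-((2 * v + 1 + E : ℕ) : ℤ)) :=
    (PadicInt.norm_le_pow_iff_mem_span_pow _ _).2 (Ideal.mem_span_singleton.2 e1)
  have n2 : ‖(HENx.onev G l w).derivative.eval (z l) - D‖ ≤
      (p : ℝ) ^ (-((2 * v + 1 + E : ℕ) : ℤ)) :=
    (PadicInt.norm_le_pow_iff_mem_span_pow _ _).2 (Ideal.mem_span_singleton.2 e2)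
  have lt1 : (p : ℝ) ^ (-((2 * v + 1 + E : ℕ) : ℤ)) < ‖D‖ := by
    rw [hDn]
    apply zpow_lt_zpow_right₀ hp1
    push_cast
    omega
  have n3 : ‖(HENx.onev G l w).derivative.eval (z l)‖ = ‖D‖ := by
    have hx : (HENx.onev G l w).derivative.eval (z l) =
        ((HENx.onev G l w).derivative.eval (z l) - D) + D := by ring
    rw [hx, PadicInt.norm_add_eq_max_of_ne]
    · exact max_eq_right (le_trans n2 lt1.le)
    · exact ne_of_lt (lt_of_le_of_lt n2 lt1)
  have lt2 : (p : ℝ) ^ (-((2 * v + 1 + E : ℕ) : ℤ)) < ‖D‖ ^ 2 := by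
    rw [hDn, ← zpow_natCast, ← zpow_mul]
    apply zpow_lt_zpow_right₀ hp1
    push_cast
    omega
  have hh : ‖(Polynomial.aeval (z l)) (HENx.onev G l w)‖ <
      ‖(Polynomial.aeval (z l)) (Polynomial.derivative (HENx.onev G l w))‖ ^ 2 := by
    rw [Polynomial.coe_aeval_eq_eval, n3]
    exact lt_of_le_of_lt n1 lt2
  obtain ⟨t, ht, ht2, -⟩ := hensels_lemma hh
  rw [Polynomial.coe_aeval_eq_eval] at ht
  rw [Polynomial.coe_aeval_eq_eval, n3] at ht2
  refine ⟨t, ?_, ?_⟩
  · rw [← HENx.eval_onev]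
    exact ht
  · -- the root is close to `z l`
    rw [← Ideal.mem_span_singleton, ← PadicInt.norm_le_pow_iff_mem_span_pow]
    by_cases hne : t - z l = 0
    · rw [hne, norm_zero]
      positivity
    have hpos : 0 < ‖t - z l‖ := norm_pos_iff.2 hne
    obtain ⟨k, hk⟩ := Polynomial.binomExpansion (HENx.onev G l w) (z l) (t - z l)
    rw [add_sub_cancel, ht] at hk
    have h1 : (HENx.onev G l w).eval (z l) =
        -((HENx.onev G l w).derivative.eval (z l) * (t - z l) + k * (t - z l) ^ 2) := by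
      linear_combination -hk
    have h2 : ‖k * (t - z l) ^ 2‖ < ‖(HENx.onev G l w).derivative.eval (z l) * (t - z l)‖ := by
      rw [norm_mul, norm_mul, n3, norm_pow]
      calc ‖k‖ * ‖t - z l‖ ^ 2 ≤ 1 * ‖t - z l‖ ^ 2 := by
            gcongr
            exact PadicInt.norm_le_one k
        _ = ‖t - z l‖ * ‖t - z l‖ := by ring
        _ < ‖D‖ * ‖t - z l‖ := mul_lt_mul_of_pos_right ht2 hpos
    have h3 : ‖(HENx.onev G l w).eval (z l)‖ = ‖D‖ * ‖t - z l‖ := by
      rw [h1, norm_neg, PadicInt.norm_add_eq_max_of_ne (ne_of_gt h2), max_eq_left h2.le,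
        norm_mul, n3]
    rw [h3, hDn] at n1
    have h4 : (p : ℝ) ^ (-((2 * v + 1 + E : ℕ) : ℤ)) ≤
        (p : ℝ) ^ (-(v : ℤ)) * (p : ℝ) ^ (-(E : ℤ)) := by
      rw [← zpow_add₀ hp0.ne']
      apply zpow_le_zpow_right₀ hp1.le
      push_cast
      omega
    exact le_of_mul_le_mul_left (n1.trans h4) (by positivity)

/-- a congruence in `ℤ_p` between integers. -/
theorem int_dvd {E : ℕ} {a b : ℤ} (h : (p : ℤ_[p]) ^ E ∣ (a : ℤ_[p]) - (b : ℤ_[p])) :
    ((p ^ E : ℕ) : ℤ) ∣ a - b := by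
  rw [← Int.cast_sub, PadicInt.pow_p_dvd_int_iff] at h
  exact_mod_cast h

end HENrx

open HENx in
theorem t_HENr : S_HENr := by
  intro ι _ _ G p _ z h0 ⟨l, hl⟩ E v hv
  obtain ⟨n, hEn, hn⟩ := HENrx.lift G z h0 l hl E
  have hp : 0 < p := (Fact.out : p.Prime).pos
  have hpR : (0 : ℝ) < p := by exact_mod_cast hp
  have hcard : 0 < Fintype.card ι := Fintype.card_pos_iff.2 ⟨l⟩
  refine ⟨1 / ((p : ℝ) ^ n) ^ Fintype.card ι, by positivity, fun m hEm => ?_⟩
  rw [div_mul_eq_mul_div, div_le_iff₀ (by positivity), one_mul]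
  have happr : ∀ (x : ℤ_[p]) (m : ℕ), (p : ℤ_[p]) ^ m ∣ ((x.appr m : ℤ) : ℤ_[p]) - x := by
    intro x m
    have := Ideal.mem_span_singleton.1 (PadicInt.appr_spec m x)
    rw [← dvd_neg]
    simpa using this
  -- integers close to the zero are in the residue class
  have hcl : ∀ (i : ι) (x : ℤ_[p]) (N : ℕ), E ≤ N → (p : ℤ_[p]) ^ E ∣ x - z i → ∀ a : ℤ,
      (p : ℤ_[p]) ^ N ∣ (a : ℤ_[p]) - x → ((p ^ E : ℕ) : ℤ) ∣ a - v i := by
    intro i x N hN hx a ha
    apply HENrx.int_dvd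
    have h1 : (p : ℤ_[p]) ^ E ∣ (a : ℤ_[p]) - x := (pow_dvd_pow _ hN).trans ha
    have h2 : (a : ℤ_[p]) - (v i : ℤ_[p]) = ((a : ℤ_[p]) - x) + (x - z i) + (z i - v i) := by ring
    rw [h2]
    exact dvd_add (dvd_add h1 hx) (hv i)
  rcases le_or_gt n m with hnm | hnm
  · -- many lifts
    obtain ⟨d, rfl⟩ := Nat.exists_eq_add_of_le hnm
    -- the base points
    let w : ({i // i ≠ l} → Fin (p ^ d)) → ι → ℤ := fun u i =>
      if h : i ≠ l then ((z i).appr n : ℤ) + p ^ n * ((u ⟨i, h⟩ : ℕ) : ℤ) else 0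
    let w' : ({i // i ≠ l} → Fin (p ^ d)) → ι → ℤ_[p] := fun u i =>
      if i ≠ l then ((w u i : ℤ) : ℤ_[p]) else z i
    have hw' : ∀ u i, (p : ℤ_[p]) ^ n ∣ w' u i - z i := by
      intro u i
      by_cases h : i ≠ l
      · simp only [w', w, h, if_true, ne_eq, not_false_eq_true, dif_pos]
        have := happr (z i) n
        push_cast at this ⊢
        have h2 : ((z i).appr n : ℤ_[p]) + (p : ℤ_[p]) ^ n * ((u ⟨i, h⟩ : ℕ) : ℤ_[p]) - z i =
            (((z i).appr n : ℤ_[p]) - z i) + (p : ℤ_[p]) ^ n * ((u ⟨i, h⟩ : ℕ) : ℤ_[p]) := by ring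
        rw [h2]
        exact dvd_add this (dvd_mul_right _ _)
      · have h' : i = l := not_not.1 h
        simp [w', h']
    choose t ht ht2 using fun u => hn (w' u) (hw' u)
    let f : ({i // i ≠ l} → Fin (p ^ d)) → ι → ℤ := fun u i =>
      if i ≠ l then w u i else ((t u).appr (n + d) : ℤ)
    have hfmem : ∀ u, f u ∈ (res ι (p ^ (n + d))).filter
        fun w => (∀ l, ((p ^ E : ℕ) : ℤ) ∣ w l - v l) ∧
          ((p ^ (n + d) : ℕ) : ℤ) ∣ MvPolynomial.eval w G := by
      intro u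
      rw [Finset.mem_filter]
      refine ⟨?_, ?_, ?_⟩
      · unfold res
        rw [Fintype.mem_piFinset]
        intro i
        rw [Finset.mem_Ico]
        by_cases h : i ≠ l
        · simp only [f, w, h, if_true, ne_eq, not_false_eq_true, dif_pos]
          constructor
          · positivity
          · have h1 : (z i).appr n < p ^ n := PadicInt.appr_lt _ _
            have h2 : ((u ⟨i, h⟩ : Fin (p ^ d)) : ℕ) < p ^ d := (u ⟨i, h⟩).2
            have h3 : (z i).appr n + p ^ n * ((u ⟨i, h⟩ : Fin (p ^ d)) : ℕ) < p ^ (n + d) := by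
              calc (z i).appr n + p ^ n * ((u ⟨i, h⟩ : Fin (p ^ d)) : ℕ)
                  < p ^ n + p ^ n * ((u ⟨i, h⟩ : Fin (p ^ d)) : ℕ) := by omega
                _ = p ^ n * (((u ⟨i, h⟩ : Fin (p ^ d)) : ℕ) + 1) := by ring
                _ ≤ p ^ n * p ^ d := Nat.mul_le_mul_left _ h2
                _ = p ^ (n + d) := by rw [pow_add]
            exact_mod_cast h3
        · simp only [f, h, if_false]
          constructor
          · positivity
          · exact_mod_cast PadicInt.appr_lt (t u) (n + d)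
      · intro i
        by_cases h : i = l
        · subst h
          simp only [f, ne_eq, not_true_eq_false, if_false]
          exact hcl i (t u) (n + d) (by omega) (ht2 u) _ (happr _ _)
        · have h1 := hw' u i
          have h2 : w' u i = ((w u i : ℤ) : ℤ_[p]) := by simp [w', h]
          rw [h2] at h1
          have h3 : f u i = w u i := by simp [f, h]
          rw [h3]
          exact hcl i (z i) n hEn (by simp) _ h1
      · apply red G (n + d) _ (ht u) (f u)
        intro i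
        by_cases h : i = l
        · subst h
          simp only [f, ne_eq, not_true_eq_false, if_false, Function.update_self]
          exact happr _ _
        · simp [f, w', h]
    have hfinj : Set.InjOn f (↑(Finset.univ : Finset ({i // i ≠ l} → Fin (p ^ d)))) := by
      intro u _ u' _ huu
      funext ⟨i, hi⟩
      have h1 := congrFun huu i
      simp only [f, w, hi, if_true, ne_eq, not_false_eq_true, dif_pos] at h1
      have h2 : (p : ℤ) ^ n * ((u ⟨i, hi⟩ : ℕ) : ℤ) = (p : ℤ) ^ n * ((u' ⟨i, hi⟩ : ℕ) : ℤ) :=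
        add_left_cancel h1
      have h3 : ((u ⟨i, hi⟩ : ℕ) : ℤ) = ((u' ⟨i, hi⟩ : ℕ) : ℤ) :=
        mul_left_cancel₀ (by positivity) h2
      apply Fin.ext
      exact_mod_cast h3
    have hcount : (p ^ d) ^ (Fintype.card ι - 1) ≤ Mqr G (p ^ E) v (p ^ (n + d)) := by
      have := Finset.card_le_card_of_injOn f (fun u _ => hfmem u) hfinj
      have hc : (Finset.univ : Finset ({i // i ≠ l} → Fin (p ^ d))).card =
          (p ^ d) ^ (Fintype.card ι - 1) := by
        rw [Finset.card_univ, Fintype.card_fun, Fintype.card_fin, Fintype.card_subtype_compl,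
          Fintype.card_subtype_eq]
      rw [hc] at this
      exact this
    have hcR : ((p : ℝ) ^ d) ^ (Fintype.card ι - 1) ≤ Mqr G (p ^ E) v (p ^ (n + d)) := by
      exact_mod_cast hcount
    have hsplit : ((p : ℝ) ^ d) ^ Fintype.card ι =
        ((p : ℝ) ^ d) ^ (Fintype.card ι - 1) * (p : ℝ) ^ d := by
      rw [← pow_succ, Nat.sub_add_cancel hcard]
    have hone : (1 : ℝ) ≤ (p : ℝ) ^ n := one_le_pow₀ (by exact_mod_cast hp)
    calc ((p : ℝ) ^ (n + d)) ^ Fintype.card ι
        = (((p : ℝ) ^ d) ^ (Fintype.card ι - 1) * (p : ℝ) ^ d) *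
          ((p : ℝ) ^ n) ^ Fintype.card ι := by
          rw [← hsplit, pow_add, mul_pow, mul_comm]
      _ ≤ (Mqr G (p ^ E) v (p ^ (n + d)) * (p : ℝ) ^ d) * ((p : ℝ) ^ n) ^ Fintype.card ι := by
          gcongr
      _ ≤ (Mqr G (p ^ E) v (p ^ (n + d)) * (p : ℝ) ^ (n + d)) *
          ((p : ℝ) ^ n) ^ Fintype.card ι := by
          have : (p : ℝ) ^ d ≤ (p : ℝ) ^ (n + d) := by
            rw [pow_add]
            exact le_mul_of_one_le_left (by positivity) hone
          exact mul_le_mul_of_nonneg_right (mul_le_mul_of_nonneg_left this (by positivity))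
            (by positivity)
  · -- at least one zero
    have h1 : 1 ≤ Mqr G (p ^ E) v (p ^ m) := by
      unfold Mqr
      apply Finset.card_pos.2
      refine ⟨fun i => ((z i).appr m : ℤ), ?_⟩
      rw [Finset.mem_filter]
      refine ⟨?_, ?_, ?_⟩
      · unfold res
        rw [Fintype.mem_piFinset]
        intro i
        rw [Finset.mem_Ico]
        exact ⟨by positivity, by exact_mod_cast PadicInt.appr_lt (z i) m⟩
      · intro i
        exact hcl i (z i) m hEm (by simp) _ (happr _ _)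
      · exact red G m z h0 _ (fun i => happr _ _)
    have h2 : (1 : ℝ) ≤ Mqr G (p ^ E) v (p ^ m) := by exact_mod_cast h1
    have h3 : (1 : ℝ) ≤ (p : ℝ) ^ m := one_le_pow₀ (by exact_mod_cast hp)
    have h4 : ((p : ℝ) ^ m) ^ Fintype.card ι ≤ ((p : ℝ) ^ n) ^ Fintype.card ι := by
      gcongr
      · exact_mod_cast hp
    calc ((p : ℝ) ^ m) ^ Fintype.card ι ≤ ((p : ℝ) ^ n) ^ Fintype.card ι := h4
      _ = 1 * 1 * ((p : ℝ) ^ n) ^ Fintype.card ι := by ring
      _ ≤ Mqr G (p ^ E) v (p ^ m) * (p : ℝ) ^ m * ((p : ℝ) ^ n) ^ Fintype.card ι := by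
          gcongr

end Pool.Agent.helper132_hp
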