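import Pool.Agent.helper132_hp.T_WAs
import Pool.Agent.helper132_hp.Stmts4

/-! Mazur's question for `Q(y^k) = 0`. -/

namespace Pool.Agent.helper132_hp

open Finset Matrix

/-- The form `Q(y_1^k, …, y_s^k) = ∑ A_ij y_i^k y_j^k`. -/
noncomputable def form {s : ℕ} (A : Matrix (Fin s) (Fin s) ℚ) (k : ℕ) : MvPolynomial (Fin s) ℚ :=
  ∑ i, ∑ j, MvPolynomial.C (A i j) * MvPolynomial.X i ^ k * MvPolynomial.X j ^ k

/-- The hypersurface `F = 0` in the projective space is smooth. -/
def SmoothHyp {s : ℕ} (F : MvPolynomial (Fin s) ℚ) : Prop :=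
  ∀ (K : Type) [Field K] [CharZero K] (x : Fin s → K), x ≠ 0 → MvPolynomial.aeval x F = 0 →
    ∃ l, MvPolynomial.aeval x (MvPolynomial.pderiv l F) ≠ 0

namespace LOCx

lemma aeval_form {K : Type} [Field K] [CharZero K] {s : ℕ} (A : Matrix (Fin s) (Fin s) ℚ) (k : ℕ)
    (y : Fin s → K) : MvPolynomial.aeval y (form A k) = FF K A k y := by
  simp [form, FF, map_sum]

lemma eval_form {s : ℕ} (A : Matrix (Fin s) (Fin s) ℚ) (k : ℕ)
    (y : Fin s → ℚ) : MvPolynomial.eval y (form A k) = FF ℚ A k y := by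
  simp [form, FF, map_sum]

lemma aeval_pderiv_form {R : Type} [Field R] [CharZero R] {s : ℕ} (A : Matrix (Fin s) (Fin s) ℚ)
    (hA : A.IsSymm) (k : ℕ) (y : Fin s → R) (l : Fin s) :
    MvPolynomial.aeval y (MvPolynomial.pderiv l (form A k)) =
      2 * k * (y l ^ (k - 1) * ∑ j, (A l j : R) * y j ^ k) := by
  have h1 : MvPolynomial.pderiv l (form A k) = ∑ i, ∑ j,
      MvPolynomial.C (A i j) * (MvPolynomial.pderiv l (MvPolynomial.X i ^ k) * MvPolynomial.X j ^ k
        + MvPolynomial.X i ^ k * MvPolynomial.pderiv l (MvPolynomial.X j ^ k)) := by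
    rw [form, map_sum]
    refine Finset.sum_congr rfl fun i _ => ?_
    rw [map_sum]
    refine Finset.sum_congr rfl fun j _ => ?_
    rw [mul_assoc, MvPolynomial.pderiv_C_mul, MvPolynomial.pderiv_mul]
  have h2 : ∀ i, MvPolynomial.aeval y (MvPolynomial.pderiv l
      ((MvPolynomial.X i : MvPolynomial (Fin s) ℚ) ^ k)) =
      if i = l then (k : R) * y l ^ (k - 1) else 0 := by
    intro i
    rw [MvPolynomial.pderiv_pow]
    by_cases h : i = l
    · subst h
      simp
    · simp [MvPolynomial.pderiv_X_of_ne h, h]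
  rw [h1, map_sum]
  have h3 : ∀ i, MvPolynomial.aeval y (∑ j,
      MvPolynomial.C (A i j) * (MvPolynomial.pderiv l (MvPolynomial.X i ^ k) * MvPolynomial.X j ^ k
        + MvPolynomial.X i ^ k * MvPolynomial.pderiv l (MvPolynomial.X j ^ k))) =
      (if i = l then (k : R) * y l ^ (k - 1) * ∑ j, (A l j : R) * y j ^ k else 0) +
        (A i l : R) * y i ^ k * ((k : R) * y l ^ (k - 1)) := by
    intro i
    rw [map_sum]
    have : ∀ j, MvPolynomial.aeval y (MvPolynomial.C (A i j) *
        (MvPolynomial.pderiv l (MvPolynomial.X i ^ k) * MvPolynomial.X j ^ k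
        + MvPolynomial.X i ^ k * MvPolynomial.pderiv l (MvPolynomial.X j ^ k))) =
        (if i = l then (k : R) * y l ^ (k - 1) else 0) * ((A i j : R) * y j ^ k) +
        (if j = l then (A i j : R) * y i ^ k * ((k : R) * y l ^ (k - 1)) else 0) := by
      intro j
      rw [map_mul, map_add, map_mul, map_mul, h2, h2]
      simp only [map_pow, MvPolynomial.aeval_X, MvPolynomial.aeval_C, eq_ratCast]
      split_ifs <;> ring
    rw [Finset.sum_congr rfl fun j _ => this j, Finset.sum_add_distrib, ← Finset.mul_sum]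
    have h5 : ∑ j, (if j = l then (A i j : R) * y i ^ k * ((k : R) * y l ^ (k - 1)) else 0) =
        (A i l : R) * y i ^ k * ((k : R) * y l ^ (k - 1)) := by
      rw [Finset.sum_ite_eq' Finset.univ l, if_pos (Finset.mem_univ l)]
    rw [h5]
    by_cases h : i = l
    · subst h
      rw [if_pos rfl, if_pos rfl]
    · rw [if_neg h, if_neg h, zero_mul]
  rw [Finset.sum_congr rfl fun i _ => h3 i, Finset.sum_add_distrib]
  have h4 : ∑ i, (A i l : R) * y i ^ k * ((k : R) * y l ^ (k - 1)) =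
      (k : R) * y l ^ (k - 1) * ∑ j, (A l j : R) * y j ^ k := by
    rw [Finset.mul_sum]
    refine Finset.sum_congr rfl fun i _ => ?_
    rw [hA.apply l i]
    ring
  rw [h4, Finset.sum_ite_eq' Finset.univ l, if_pos (Finset.mem_univ l)]
  ring

lemma smoothAt_iff {R : Type} [Field R] [CharZero R] {s : ℕ} (A : Matrix (Fin s) (Fin s) ℚ)
    (hA : A.IsSymm) (k : ℕ) (hk : 1 ≤ k) (y : Fin s → R) :
    SmoothAt R A k y ↔ ∃ l, MvPolynomial.aeval y (MvPolynomial.pderiv l (form A k)) ≠ 0 := by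
  unfold SmoothAt
  refine exists_congr fun l => ?_
  rw [aeval_pderiv_form A hA]
  have h2 : (2 * k : R) ≠ 0 := mul_ne_zero two_ne_zero (Nat.cast_ne_zero.2 (by omega))
  constructor
  · exact fun h => mul_ne_zero h2 h
  · exact fun h => right_ne_zero_of_mul h

lemma homog_form {s : ℕ} (A : Matrix (Fin s) (Fin s) ℚ) (k : ℕ) :
    (form A k).IsHomogeneous (2 * k) := by
  unfold form
  refine MvPolynomial.IsHomogeneous.sum _ _ _ fun i _ => ?_
  refine MvPolynomial.IsHomogeneous.sum _ _ _ fun j _ => ?_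
  have h1 := (MvPolynomial.isHomogeneous_C (Fin s) (A i j)).mul
    ((MvPolynomial.isHomogeneous_X_pow (R := ℚ) i k))
  have h2 := h1.mul (MvPolynomial.isHomogeneous_X_pow (R := ℚ) j k)
  have h3 : 0 + k + k = 2 * k := by ring
  rw [h3] at h2
  exact h2

end LOCx

end Pool.Agent.helper132_hp
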