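import Pool.Agent.helper132_hp.Stmts3
import Pool.Agent.helper132_hp.T_ODD

/-! Approximation of singular real zeros for odd `k`. -/

set_option autoImplicit false

namespace Pool.Agent.helper132_hp

namespace ODDLx

open Finset Matrix Filter Topology

/-- odd `k`-th roots are continuous. -/
theorem near {k : ℕ} (hk : Odd k) (z : ℝ) {ε : ℝ} (hε : 0 < ε) :
    ∃ η : ℝ, 0 < η ∧ ∀ X : ℝ, |X - z ^ k| < η → ∃ y : ℝ, y ^ k = X ∧ |y - z| < ε := by
  have hm : StrictMono fun y : ℝ => y ^ k := hk.strictMono_pow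
  have h1 : z ^ k < (z + ε) ^ k := hm (by linarith)
  have h2 : (z - ε) ^ k < z ^ k := hm (by linarith)
  refine ⟨min ((z + ε) ^ k - z ^ k) (z ^ k - (z - ε) ^ k), lt_min (by linarith) (by linarith), ?_⟩
  intro X hX
  obtain ⟨y, hy⟩ := ODDx.root hk X
  refine ⟨y, hy, ?_⟩
  have h3 := abs_lt.1 (lt_of_lt_of_le hX (min_le_left _ _))
  have h4 := abs_lt.1 (lt_of_lt_of_le hX (min_le_right _ _))
  rw [abs_lt]
  constructor
  · have : z - ε < y := by
      by_contra hc
      push Not at hc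
      have h5 : y ^ k ≤ (z - ε) ^ k := hm.monotone hc
      rw [hy] at h5
      linarith [h4.1]
    linarith
  · have : y < z + ε := by
      by_contra hc
      push Not at hc
      have h5 : (z + ε) ^ k ≤ y ^ k := hm.monotone hc
      rw [hy] at h5
      linarith [h3.2]
    linarith

theorem symm' {s : ℕ} {a : Matrix (Fin s) (Fin s) ℝ} (hsym : a.IsSymm) (u v : Fin s → ℝ) :
    Matrix.toBilin' a u v = Matrix.toBilin' a v u := by
  rw [Matrix.toBilin'_apply', Matrix.toBilin'_apply', Matrix.dotProduct_mulVec,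
    ← Matrix.mulVec_transpose]
  rw [hsym.eq, dotProduct_comm]

theorem single' {s : ℕ} {a : Matrix (Fin s) (Fin s) ℝ} (hsym : a.IsSymm) (x : Fin s → ℝ)
    (l : Fin s) : Matrix.toBilin' a x (Pi.single l 1) = (a *ᵥ x) l := by
  rw [symm' hsym, Matrix.toBilin'_apply']
  simp

/-- the form does not vanish on the hyperplane orthogonal to an isotropic vector. -/
theorem hyper {s : ℕ} (hs : 3 ≤ s) (a : Matrix (Fin s) (Fin s) ℝ) (hsym : a.IsSymm)
    (hdet : a.det ≠ 0) (x : Fin s → ℝ) (hx : x ≠ 0) (hQ : Matrix.toBilin' a x x = 0) :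
    ∃ w : Fin s → ℝ, Matrix.toBilin' a x w = 0 ∧ Matrix.toBilin' a w w ≠ 0 := by
  by_contra hcon
  push Not at hcon
  have hax : a *ᵥ x ≠ 0 := fun h => hx (Matrix.eq_zero_of_mulVec_eq_zero hdet h)
  obtain ⟨l, hl⟩ : ∃ l, (a *ᵥ x) l ≠ 0 := by
    by_contra hc
    push Not at hc
    exact hax (funext hc)
  obtain ⟨v, hv⟩ : ∃ v : Fin s → ℝ, Matrix.toBilin' a x v = 1 := by
    refine ⟨((a *ᵥ x) l)⁻¹ • Pi.single l 1, ?_⟩
    rw [map_smul, single' hsym, smul_eq_mul, inv_mul_cancel₀ hl]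
  let L1 : (Fin s → ℝ) →ₗ[ℝ] ℝ := Matrix.toBilin' a x
  let L2 : (Fin s → ℝ) →ₗ[ℝ] ℝ :=
    (2 : ℝ) • Matrix.toBilin' a v - (Matrix.toBilin' a v v) • Matrix.toBilin' a x
  refine ODDx.no_prod hs a hsym hdet 1 L1 L2 ?_ ?_ ?_
  · intro h
    have : L1 v = 0 := by rw [h]; rfl
    change Matrix.toBilin' a x v = 0 at this
    rw [hv] at this
    exact one_ne_zero this
  · intro h
    have : L2 x = 0 := by rw [h]; rfl
    simp only [L2, LinearMap.sub_apply, LinearMap.smul_apply, hQ, smul_eq_mul, mul_zero,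
      sub_zero, symm' hsym v x, hv] at this
    norm_num at this
  · intro w
    have h1 : Matrix.toBilin' a x (w - Matrix.toBilin' a x w • v) = 0 := by
      rw [map_sub, map_smul, hv, smul_eq_mul, mul_one, sub_self]
    have h2 := hcon _ h1
    simp only [map_sub, map_smul, LinearMap.sub_apply, LinearMap.smul_apply, smul_eq_mul] at h2
    simp only [L1, L2, LinearMap.sub_apply, LinearMap.smul_apply, smul_eq_mul]
    rw [symm' hsym w v] at h2
    linear_combination h2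

theorem cont {s : ℕ} (a : Matrix (Fin s) (Fin s) ℝ) {f g : ℝ → Fin s → ℝ} (hf : Continuous f)
    (hg : Continuous g) : Continuous fun t => Matrix.toBilin' a (f t) (g t) := by
  simp only [Matrix.toBilin'_apply]
  fun_prop

/-- nonsingular zeros near a nonzero zero. -/
theorem lim1 {s : ℕ} (hs : 3 ≤ s) (a : Matrix (Fin s) (Fin s) ℝ) (hsym : a.IsSymm)
    (hdet : a.det ≠ 0) (x : Fin s → ℝ) (hx : x ≠ 0) (hQ : Matrix.toBilin' a x x = 0)
    {U : Set (Fin s → ℝ)} (hU : U ∈ 𝓝 x) :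
    ∃ z ∈ U, Matrix.toBilin' a z z = 0 ∧ ∃ l, z l ≠ 0 ∧ (a *ᵥ z) l ≠ 0 := by
  obtain ⟨w0, hw0, hw1⟩ := hyper hs a hsym hdet x hx hQ
  have hax : a *ᵥ x ≠ 0 := fun h => hx (Matrix.eq_zero_of_mulVec_eq_zero hdet h)
  obtain ⟨l, hl⟩ : ∃ l, (a *ᵥ x) l ≠ 0 := by
    by_contra hc
    push Not at hc
    exact hax (funext hc)
  let W : ℝ → Fin s → ℝ := fun τ => w0 + τ • Pi.single l 1
  let θ : ℝ → ℝ := fun τ => -(2 * Matrix.toBilin' a x (W τ)) / Matrix.toBilin' a (W τ) (W τ)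
  let X : ℝ → Fin s → ℝ := fun τ => x + θ τ • W τ
  have hWc : Continuous W := by
    simp only [W]
    fun_prop
  have hW0 : W 0 = w0 := by simp [W]
  have hθc : ContinuousAt θ 0 := by
    refine ContinuousAt.div ?_ ?_ ?_
    · exact ((continuous_const.mul (cont a continuous_const hWc)).neg).continuousAt
    · exact (cont a hWc hWc).continuousAt
    · rw [hW0]; exact hw1
  have hθ0 : θ 0 = 0 := by
    simp only [θ, hW0, hw0]
    simp
  have hXc : ContinuousAt X 0 := continuousAt_const.add (hθc.smul hWc.continuousAt)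
  have hX0 : X 0 = x := by simp [X, hθ0]
  have hxW : ∀ τ, Matrix.toBilin' a x (W τ) = τ * (a *ᵥ x) l := by
    intro τ
    simp only [W]
    rw [map_add, map_smul, single' hsym, hw0, zero_add, smul_eq_mul]
  have hθne : ∀ τ, τ ≠ 0 → Matrix.toBilin' a (W τ) (W τ) ≠ 0 → θ τ ≠ 0 := by
    intro τ hτ hW
    simp only [θ, hxW]
    exact div_ne_zero (neg_ne_zero.2 (mul_ne_zero two_ne_zero (mul_ne_zero hτ hl))) hW
  have e1 : ∀ᶠ τ in 𝓝[≠] (0 : ℝ), X τ ∈ U := by
    have : ∀ᶠ τ in 𝓝 (0 : ℝ), X τ ∈ U := hXc.eventually (by rw [hX0]; exact hU)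
    exact this.filter_mono nhdsWithin_le_nhds
  have e2 : ∀ᶠ τ in 𝓝[≠] (0 : ℝ), Matrix.toBilin' a (W τ) (W τ) ≠ 0 := by
    have : ∀ᶠ τ in 𝓝 (0 : ℝ), Matrix.toBilin' a (W τ) (W τ) ≠ 0 :=
      (cont a hWc hWc).continuousAt.eventually_ne (by rw [hW0]; exact hw1)
    exact this.filter_mono nhdsWithin_le_nhds
  have e3 : ∀ᶠ τ in 𝓝[≠] (0 : ℝ), (a *ᵥ X τ) l ≠ 0 := by
    have hc : ContinuousAt (fun τ => (a *ᵥ X τ) l) 0 := by
      have hh : Continuous fun u : Fin s → ℝ => (a *ᵥ u) l := by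
        simp only [Matrix.mulVec, dotProduct]
        fun_prop
      exact hh.continuousAt.comp hXc
    have : ∀ᶠ τ in 𝓝 (0 : ℝ), (a *ᵥ X τ) l ≠ 0 := hc.eventually_ne (by rw [hX0]; exact hl)
    exact this.filter_mono nhdsWithin_le_nhds
  have e4 : ∀ᶠ τ in 𝓝[≠] (0 : ℝ), X τ l ≠ 0 := by
    by_cases hxl : x l = 0
    · have e5 : ∀ᶠ τ in 𝓝[≠] (0 : ℝ), W τ l ≠ 0 := by
        by_cases hwl : w0 l = 0
        · filter_upwards [self_mem_nhdsWithin] with τ hτ
          simp only [W, Pi.add_apply, Pi.smul_apply, Pi.single_eq_same, smul_eq_mul, mul_one, hwl,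
            zero_add]
          exact hτ
        · have hc : ContinuousAt (fun τ => W τ l) 0 :=
            ((continuous_apply l).comp hWc).continuousAt
          have : ∀ᶠ τ in 𝓝 (0 : ℝ), W τ l ≠ 0 := hc.eventually_ne (by rw [hW0]; exact hwl)
          exact this.filter_mono nhdsWithin_le_nhds
      filter_upwards [e2, e5, self_mem_nhdsWithin] with τ h2 h5 hτ
      simp only [X, Pi.add_apply, Pi.smul_apply, smul_eq_mul, hxl, zero_add]
      exact mul_ne_zero (hθne τ hτ h2) h5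
    · have hc : ContinuousAt (fun τ => X τ l) 0 :=
        (continuous_apply l).continuousAt.comp hXc
      have : ∀ᶠ τ in 𝓝 (0 : ℝ), X τ l ≠ 0 := hc.eventually_ne (by rw [hX0]; exact hxl)
      exact this.filter_mono nhdsWithin_le_nhds
  obtain ⟨τ, h1, h2, h3, h4⟩ := (e1.and (e2.and (e3.and e4))).exists
  refine ⟨X τ, h1, ?_, l, h4, h3⟩
  have h5 : θ τ * Matrix.toBilin' a (W τ) (W τ) = -(2 * Matrix.toBilin' a x (W τ)) :=
    div_mul_cancel₀ _ h2
  simp only [X, map_add, map_smul, LinearMap.add_apply, LinearMap.smul_apply, smul_eq_mul, hQ]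
  rw [symm' hsym (W τ) x]
  linear_combination θ τ * h5

/-- nonsingular zeros near every zero. -/
theorem lim {s : ℕ} (hs : 3 ≤ s) (a : Matrix (Fin s) (Fin s) ℝ) (hsym : a.IsSymm)
    (hdet : a.det ≠ 0) (x' : Fin s → ℝ) (hx' : x' ≠ 0) (hQ' : Matrix.toBilin' a x' x' = 0)
    (x : Fin s → ℝ) (hQ : Matrix.toBilin' a x x = 0)
    {U : Set (Fin s → ℝ)} (hU : U ∈ 𝓝 x) :
    ∃ z ∈ U, Matrix.toBilin' a z z = 0 ∧ ∃ l, z l ≠ 0 ∧ (a *ᵥ z) l ≠ 0 := by
  by_cases hx : x = 0
  · obtain ⟨z, hz, hzl⟩ := ODDx.main hs a hsym hdet x' hx' hQ' ⟨0, by omega⟩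
    have hc : Continuous fun t : ℝ => t • z := by fun_prop
    have e1 : ∀ᶠ t in 𝓝[≠] (0 : ℝ), t • z ∈ U := by
      have : ∀ᶠ t in 𝓝 (0 : ℝ), t • z ∈ U :=
        hc.continuousAt.eventually (by beta_reduce; rw [zero_smul, ← hx]; exact hU)
      exact this.filter_mono nhdsWithin_le_nhds
    obtain ⟨t, h1, ht⟩ := (e1.and self_mem_nhdsWithin).exists
    have ht0 : t ≠ 0 := ht
    refine ⟨t • z, h1, ?_, ⟨0, by omega⟩, ?_, ?_⟩
    · simp only [map_smul, LinearMap.smul_apply, hz, smul_zero]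
    · exact mul_ne_zero ht0 (left_ne_zero_of_mul hzl)
    · rw [Matrix.mulVec_smul]
      exact mul_ne_zero ht0 (right_ne_zero_of_mul hzl)
  · exact lim1 hs a hsym hdet x hx hQ hU

end ODDLx

open ODDLx Matrix Topology in
/-- Odd `k`: every real zero is a limit of nonsingular ones. -/
theorem t_ODDL : S_ODDL := by
  intro k hk s hs A hA hdet ⟨y, hy0, hy⟩ z hz ε hε
  have hk0 : k ≠ 0 := by rintro rfl; exact absurd hk (by decide)
  have hx0 : PADx.pw k y ≠ 0 := by
    intro h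
    apply hy0
    funext i
    exact pow_eq_zero_iff hk0 |>.1 (congrFun h i)
  choose η hη0 hη using fun l => near hk (z l) hε
  have hU : {X : Fin s → ℝ | ∀ l, |X l - z l ^ k| < η l} ∈ 𝓝 (PADx.pw k z) := by
    have h1 : ∀ l, ∀ᶠ X : Fin s → ℝ in 𝓝 (PADx.pw k z), |X l - z l ^ k| < η l := by
      intro l
      have hc : Continuous fun X : Fin s → ℝ => |X l - z l ^ k| := by fun_prop
      refine hc.continuousAt.eventually_lt continuousAt_const ?_
      change |z l ^ k - z l ^ k| < η l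
      rw [sub_self, abs_zero]
      exact hη0 l
    exact Filter.eventually_all.2 h1
  obtain ⟨X, hXU, hX, l, hl, hl'⟩ := lim hs A hA hdet (PADx.pw k y) hx0
    (by rw [Matrix.toBilin'_apply']; exact hy) (PADx.pw k z)
    (by rw [Matrix.toBilin'_apply']; exact hz) hU
  choose v hv hv' using fun l => hη l (X l) (hXU l)
  have hvX : PADx.pw k v = X := funext hv
  refine ⟨v, ?_, ⟨l, ?_, ?_⟩, hv'⟩
  · rw [hvX, ← Matrix.toBilin'_apply']; exact hX
  · intro h
    apply hl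
    rw [← hv, h, zero_pow hk0]
  · rw [hvX]; exact hl'

end Pool.Agent.helper132_hp
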