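import Pool.Agent.helper132_hp.Stmts

/-! Values, derivatives and homogeneity of `G1`, `G2`. -/

namespace Pool.Agent.helper132_hp

open Finset MvPolynomial

section
variable {R : Type*} [CommRing R] {s : ℕ}

lemma aeval_G1 (A : Matrix (Fin s) (Fin s) ℤ) (k : ℕ) (y : Fin s → R) :
    aeval y (G1 A k) = ∑ i, ∑ j, (A i j : R) * y i ^ k * y j ^ k := by
  unfold G1
  simp [map_sum]

lemma aeval_G2 (A : Matrix (Fin s) (Fin s) ℤ) (k : ℕ) (z : Fin s ⊕ Fin s → R) :
    aeval z (G2 A k) = aeval (fun i => z (Sum.inl i) * z (Sum.inr i)) (G1 A k) := by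
  rw [aeval_G1]
  unfold G2
  simp [map_sum]

lemma aeval_pderiv_G1 (A : Matrix (Fin s) (Fin s) ℤ) (k : ℕ) (y : Fin s → R) (l : Fin s) :
    aeval y (pderiv l (G1 A k)) =
      k * y l ^ (k - 1) * (∑ j, (A l j : R) * y j ^ k) + k * y l ^ (k - 1) * (∑ i, (A i l : R) * y i ^ k) := by
  unfold G1
  have h1 : ∀ i j : Fin s, aeval y (pderiv l (C (A i j) * X i ^ k * X j ^ k : MvPolynomial (Fin s) ℤ)) =
      (if i = l then k * y l ^ (k - 1) * ((A l j : R) * y j ^ k) else 0) +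
      (if j = l then k * y l ^ (k - 1) * ((A i l : R) * y i ^ k) else 0) := by
    intro i j
    rw [Derivation.leibniz, Derivation.leibniz, Derivation.leibniz_pow, Derivation.leibniz_pow, pderiv_C,
      pderiv_X, pderiv_X]
    simp only [Pi.single_apply, smul_eq_mul, nsmul_eq_mul, mul_zero, add_zero, map_add, map_mul, map_pow,
      aeval_X, map_natCast, aeval_C, algebraMap_int_eq, eq_intCast]
    by_cases h1 : i = l <;> by_cases h2 : j = l
    · subst h1; subst h2; simp; ring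
    · subst h1; simp [h2, Ne.symm h2]; ring
    · subst h2; simp [h1, Ne.symm h1]; ring
    · simp [h1, h2, Ne.symm h1, Ne.symm h2]
  rw [map_sum, map_sum]
  have h2 : ∀ i : Fin s, aeval y (pderiv l (∑ j, C (A i j) * X i ^ k * X j ^ k : MvPolynomial (Fin s) ℤ)) =
      ∑ j, ((if i = l then k * y l ^ (k - 1) * ((A l j : R) * y j ^ k) else 0) +
      (if j = l then k * y l ^ (k - 1) * ((A i l : R) * y i ^ k) else 0)) := by
    intro i
    rw [map_sum, map_sum]
    exact Finset.sum_congr rfl fun j _ => h1 i j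
  rw [Finset.sum_congr rfl fun i _ => h2 i]
  simp only [Finset.sum_add_distrib]
  rw [Finset.mul_sum, Finset.mul_sum]
  congr 1
  · rw [Finset.sum_comm]
    refine Finset.sum_congr rfl fun j _ => ?_
    rw [Finset.sum_ite_eq']
    simp
  · refine Finset.sum_congr rfl fun j _ => ?_
    rw [Finset.sum_ite_eq']
    simp

lemma aeval_pderiv_G2 (A : Matrix (Fin s) (Fin s) ℤ) (k : ℕ) (hk : 1 ≤ k) (z : Fin s ⊕ Fin s → R) (l : Fin s) :
    aeval z (pderiv (Sum.inr l) (G2 A k)) =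
      z (Sum.inl l) * aeval (fun i => z (Sum.inl i) * z (Sum.inr i)) (pderiv l (G1 A k)) := by
  rw [aeval_pderiv_G1]
  unfold G2
  obtain ⟨m, rfl⟩ : ∃ m, k = m + 1 := ⟨k - 1, by omega⟩
  have h1 : ∀ i j : Fin s, aeval z (pderiv (Sum.inr l) (C (A i j) * (X (Sum.inl i) * X (Sum.inr i)) ^ (m + 1) *
      (X (Sum.inl j) * X (Sum.inr j)) ^ (m + 1) : MvPolynomial (Fin s ⊕ Fin s) ℤ)) =
      (if i = l then z (Sum.inl l) * ((m + 1 : ℕ) * (z (Sum.inl l) * z (Sum.inr l)) ^ m *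
        ((A l j : R) * (z (Sum.inl j) * z (Sum.inr j)) ^ (m + 1))) else 0) +
      (if j = l then z (Sum.inl l) * ((m + 1 : ℕ) * (z (Sum.inl l) * z (Sum.inr l)) ^ m *
        ((A i l : R) * (z (Sum.inl i) * z (Sum.inr i)) ^ (m + 1))) else 0) := by
    intro i j
    rw [Derivation.leibniz, Derivation.leibniz, Derivation.leibniz_pow, Derivation.leibniz_pow, Derivation.leibniz,
      Derivation.leibniz, pderiv_C, pderiv_X, pderiv_X, pderiv_X, pderiv_X]
    simp only [Pi.single_apply, smul_eq_mul, nsmul_eq_mul, mul_zero, add_zero, map_add, map_mul, map_pow,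
      aeval_X, map_natCast, aeval_C, algebraMap_int_eq, eq_intCast, Sum.inr.injEq, reduceCtorEq, if_false,
      add_tsub_cancel_right]
    by_cases h1 : i = l <;> by_cases h2 : j = l
    · subst h1; subst h2; simp; ring
    · subst h1; simp [h2, Ne.symm h2]; ring
    · subst h2; simp [h1, Ne.symm h1]; ring
    · simp [h1, h2, Ne.symm h1, Ne.symm h2]
  rw [map_sum, map_sum]
  have h2 : ∀ i : Fin s, aeval z (pderiv (Sum.inr l) (∑ j, C (A i j) * (X (Sum.inl i) * X (Sum.inr i)) ^ (m + 1) *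
      (X (Sum.inl j) * X (Sum.inr j)) ^ (m + 1) : MvPolynomial (Fin s ⊕ Fin s) ℤ)) =
      ∑ j, ((if i = l then z (Sum.inl l) * ((m + 1 : ℕ) * (z (Sum.inl l) * z (Sum.inr l)) ^ m *
        ((A l j : R) * (z (Sum.inl j) * z (Sum.inr j)) ^ (m + 1))) else 0) +
      (if j = l then z (Sum.inl l) * ((m + 1 : ℕ) * (z (Sum.inl l) * z (Sum.inr l)) ^ m *
        ((A i l : R) * (z (Sum.inl i) * z (Sum.inr i)) ^ (m + 1))) else 0)) := by
    intro i
    rw [map_sum, map_sum]
    exact Finset.sum_congr rfl fun j _ => h1 i j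
  rw [Finset.sum_congr rfl fun i _ => h2 i]
  simp only [Finset.sum_add_distrib]
  rw [mul_add, Finset.mul_sum, Finset.mul_sum, Finset.mul_sum, Finset.mul_sum]
  simp only [add_tsub_cancel_right]
  congr 1
  · rw [Finset.sum_comm]
    refine Finset.sum_congr rfl fun j _ => ?_
    rw [Finset.sum_ite_eq']
    simp
  · refine Finset.sum_congr rfl fun j _ => ?_
    rw [Finset.sum_ite_eq']
    simp

end

lemma homog_G1 {s : ℕ} (A : Matrix (Fin s) (Fin s) ℤ) (k : ℕ) : (G1 A k).IsHomogeneous (2 * k) := by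
  unfold G1
  refine IsHomogeneous.sum _ _ _ fun i _ => IsHomogeneous.sum _ _ _ fun j _ => ?_
  have h1 := ((isHomogeneous_C (Fin s) (A i j)).mul ((isHomogeneous_X ℤ i).pow k)).mul ((isHomogeneous_X ℤ j).pow k)
  have e : 0 + 1 * k + 1 * k = 2 * k := by ring
  rwa [e] at h1

lemma homog_G2 {s : ℕ} (A : Matrix (Fin s) (Fin s) ℤ) (k : ℕ) : (G2 A k).IsHomogeneous (4 * k) := by
  unfold G2
  refine IsHomogeneous.sum _ _ _ fun i _ => IsHomogeneous.sum _ _ _ fun j _ => ?_
  have h1 := ((isHomogeneous_C (Fin s ⊕ Fin s) (A i j)).mul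
    (((isHomogeneous_X ℤ (Sum.inl i : Fin s ⊕ Fin s)).mul (isHomogeneous_X ℤ (Sum.inr i : Fin s ⊕ Fin s))).pow k)).mul
    (((isHomogeneous_X ℤ (Sum.inl j : Fin s ⊕ Fin s)).mul (isHomogeneous_X ℤ (Sum.inr j : Fin s ⊕ Fin s))).pow k)
  have e : 0 + (1 + 1) * k + (1 + 1) * k = 4 * k := by ring
  rwa [e] at h1

end Pool.Agent.helper132_hp
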