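import Pool.Agent.helper132_hp.Stmts3

set_option autoImplicit false

namespace Pool.Agent.helper132_hp

open Finset Matrix

namespace PRINx

theorem main (K : Type) [Field K] (n : ℕ) (A : Matrix (Fin n) (Fin n) K) (hA : A.IsSymm)
    (hdet : A.det ≠ 0) (J : Finset (Fin n)) : ∃ (m : ℕ) (f : Fin m → Fin n), Function.Injective f ∧
    (∀ i, f i ∉ J) ∧ n ≤ m + 2 * J.card ∧ (A.submatrix f f).det ≠ 0 := by
  classical
  -- rows of the principal block off `J`
  let U := {i : Fin n // i ∉ J}
  let row : U → (U → K) := fun i j => A i.1 j.1
  obtain ⟨κ, a, ha, hspan, hli⟩ := exists_linearIndependent' K row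
  haveI : Finite κ := Finite.of_injective a ha
  haveI : Fintype κ := Fintype.ofFinite κ
  -- a functional that kills the chosen rows kills all rows
  have key : ∀ L : (U → K) →ₗ[K] K, (∀ r, L (row (a r)) = 0) → ∀ i, L (row i) = 0 := by
    intro L hL i
    have h1 : row i ∈ Submodule.span K (Set.range (row ∘ a)) := by
      rw [hspan]; exact Submodule.subset_span ⟨i, rfl⟩
    have h2 : Submodule.span K (Set.range (row ∘ a)) ≤ LinearMap.ker L := by
      rw [Submodule.span_le]
      rintro _ ⟨r, rfl⟩
      exact hL r
    exact h2 h1
  have hsymm : ∀ i j, A i j = A j i := fun i j => (hA.apply j i)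
  refine ⟨Fintype.card κ, fun t => (a ((Fintype.equivFin κ).symm t)).1, ?_, ?_, ?_, ?_⟩
  · intro s t hst
    have := ha (Subtype.ext hst)
    exact (Fintype.equivFin κ).symm.injective this
  · intro t
    exact (a ((Fintype.equivFin κ).symm t)).2
  · -- dimension count
    let Φ : (U → K) →ₗ[K] (κ → K) × (J → K) :=
      LinearMap.prod
        (LinearMap.pi fun r => ∑ j : U, A (a r).1 j.1 • LinearMap.proj j)
        (LinearMap.pi fun i => ∑ j : U, A i.1 j.1 • LinearMap.proj j)
    have hinj : Function.Injective Φ := by
      rw [← LinearMap.ker_eq_bot, LinearMap.ker_eq_bot']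
      intro w hw
      have h1 : ∀ r, ∑ j : U, A (a r).1 j.1 * w j = 0 := by
        intro r
        have := congrFun (congrArg Prod.fst hw) r
        simpa [Φ] using this
      have h2 : ∀ i : J, ∑ j : U, A i.1 j.1 * w j = 0 := by
        intro i
        have := congrFun (congrArg Prod.snd hw) i
        simpa [Φ] using this
      let L : (U → K) →ₗ[K] K := ∑ j : U, w j • LinearMap.proj j
      have hL : ∀ x : U → K, L x = ∑ j : U, x j * w j := by
        intro x
        simp [L, mul_comm]
      have h3 : ∀ i : U, ∑ j : U, A i.1 j.1 * w j = 0 := by
        intro i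
        have := key L (fun r => by rw [hL]; exact h1 r) i
        rwa [hL] at this
      -- extend by zero
      let W : Fin n → K := fun j => if h : j ∉ J then w ⟨j, h⟩ else 0
      have hW : A *ᵥ W = 0 := by
        funext i
        have h4 : (A *ᵥ W) i = ∑ j : U, A i j.1 * w j := by
          simp only [Matrix.mulVec, dotProduct]
          rw [← Finset.sum_filter_add_sum_filter_not univ (fun j => j ∉ J)]
          have h5 : ∑ j ∈ univ.filter (fun j => ¬ (j ∉ J)), A i j * W j = 0 := by
            apply Finset.sum_eq_zero
            intro j hj
            have : ¬ (j ∉ J) := (Finset.mem_filter.1 hj).2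
            simp [W, this]
          rw [h5, add_zero]
          rw [Finset.sum_subtype (univ.filter (fun j => j ∉ J)) (p := fun j => j ∉ J) (by simp)]
          apply Finset.sum_congr rfl
          intro j _
          simp [W, j.2]
        rw [h4]
        by_cases hi : i ∈ J
        · exact h2 ⟨i, hi⟩
        · exact h3 ⟨i, hi⟩
      have hW0 : W = 0 := by
        by_contra hne
        exact hdet (Matrix.exists_mulVec_eq_zero_iff.1 ⟨W, hne, hW⟩)
      funext j
      have := congrFun hW0 j.1
      simpa [W, j.2] using this
    have hle := LinearMap.finrank_le_finrank_of_injective hinj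
    rw [Module.finrank_prod, Module.finrank_fintype_fun_eq_card, Module.finrank_fintype_fun_eq_card,
      Module.finrank_fintype_fun_eq_card] at hle
    have hU : Fintype.card U + J.card = n := by
      have := Fintype.card_subtype_compl (fun i : Fin n => i ∈ J)
      simp only [Fintype.card_fin, Fintype.card_coe] at this
      have h6 : J.card ≤ n := by simpa using J.card_le_univ
      have h7 : Fintype.card U = n - J.card := by
        convert this using 1
      omega
    simp only [Fintype.card_coe] at hle
    omega
  · -- nonsingularity
    intro h0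
    obtain ⟨w, hw0, hw⟩ := Matrix.exists_mulVec_eq_zero_iff.2 h0
    let e := Fintype.equivFin κ
    let L : (U → K) →ₗ[K] K := ∑ s : Fin (Fintype.card κ), w s • LinearMap.proj (a (e.symm s))
    have hL : ∀ x : U → K, L x = ∑ s, x (a (e.symm s)) * w s := by
      intro x
      simp [L, mul_comm]
    have h1 : ∀ r, L (row (a r)) = 0 := by
      intro r
      rw [hL]
      have := congrFun hw (e r)
      simp only [Matrix.mulVec, dotProduct, Matrix.submatrix_apply, Pi.zero_apply] at this
      simpa [row, e] using this
    have h2 := key L h1
    have h3 : ∑ s : Fin (Fintype.card κ), w s • (row ∘ a) (e.symm s) = 0 := by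
      funext i
      have := h2 i
      rw [hL] at this
      simp only [Finset.sum_apply, Pi.smul_apply, smul_eq_mul, Pi.zero_apply, Function.comp]
      rw [← this]
      apply Finset.sum_congr rfl
      intro s _
      simp only [row]
      rw [hsymm, mul_comm]
    have hli2 : LinearIndependent K (fun s : Fin (Fintype.card κ) => (row ∘ a) (e.symm s)) :=
      hli.comp _ e.symm.injective
    have h4 := Fintype.linearIndependent_iff.1 hli2 w h3
    exact hw0 (funext h4)

end PRINx

theorem t_PRIN : S_PRIN := fun K _ n A hA hd J => PRINx.main K n A hA hd J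

end Pool.Agent.helper132_hp
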