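import Pool.Agent.helper132_hp.Stmts3

namespace Pool.Agent.helper132_hp

theorem t_ROOT : S_ROOT := by
  intro p _ k hk ε hε
  have h1 : HasStrictDerivAt (fun x : ℚ_[p] => x ^ k) ((k : ℚ_[p]) * 1 ^ (k - 1)) 1 := hasStrictDerivAt_pow k 1
  have h2 : ((k : ℚ_[p]) * 1 ^ (k - 1)) ≠ 0 := by
    rw [one_pow, mul_one]
    exact_mod_cast (by omega : k ≠ 0)
  have h3 := h1.map_nhds_eq h2
  have h5 : (fun x : ℚ_[p] => x ^ k) '' Metric.ball 1 ε ∈ nhds ((1 : ℚ_[p]) ^ k) := by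
    rw [← h3]
    exact Filter.image_mem_map (Metric.ball_mem_nhds _ hε)
  rw [one_pow] at h5
  obtain ⟨η, hη, h6⟩ := Metric.mem_nhds_iff.1 h5
  refine ⟨η, hη, fun δ hδ => ?_⟩
  have h7 : 1 + δ ∈ Metric.ball (1 : ℚ_[p]) η := by
    rw [Metric.mem_ball, dist_eq_norm, add_sub_cancel_left]
    exact hδ
  obtain ⟨r, hr, hr'⟩ := h6 h7
  refine ⟨r, hr', ?_⟩
  rw [Metric.mem_ball, dist_eq_norm] at hr
  exact hr

end Pool.Agent.helper132_hp
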