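import Pool.Agent.helper132_hp.Stmts3

/-! Every `p`-adic zero is a limit of nonsingular ones. -/

namespace Pool.Agent.helper132_hp

open Finset Matrix

namespace SLIMx

open PADx

lemma tend (p : ℕ) [Fact p.Prime] (k : ℕ) (hk : 1 ≤ k) (g : ℚ_[p]) :
    Filter.Tendsto (fun M : ℕ => g * ((p : ℚ_[p]) ^ M) ^ k) Filter.atTop (nhds 0) := by
  have h1 : Filter.Tendsto (fun M : ℕ => (p : ℚ_[p]) ^ M) Filter.atTop (nhds 0) :=
    tendsto_pow_atTop_nhds_zero_of_norm_lt_one Padic.norm_p_lt_one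
  have h2 := (h1.pow k).const_mul g
  rwa [zero_pow (by omega), mul_zero] at h2

lemma ev (p : ℕ) [Fact p.Prime] (k : ℕ) (hk : 1 ≤ k) (g : ℚ_[p]) (ε : ℝ) (hε : 0 < ε) :
    ∀ᶠ M : ℕ in Filter.atTop, ‖g * ((p : ℚ_[p]) ^ M) ^ k‖ < ε := by
  have h := (tend p k hk g).norm
  rw [norm_zero] at h
  exact h.eventually_lt_const hε

lemma perturb (hR : S_ROOT) (p : ℕ) [Fact p.Prime] (k : ℕ) (hk : 1 ≤ k) (s : ℕ)
    (A : Matrix (Fin s) (Fin s) ℚ_[p]) (hA : A.IsSymm) (z : Fin s → ℚ_[p])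
    (hz : pw k z ⬝ᵥ A *ᵥ pw k z = 0) (t : Fin s → ℚ_[p])
    (ht1 : ∑ l, (A *ᵥ pw k z) l * pw k t l = 0) (ht2 : pw k t ⬝ᵥ A *ᵥ pw k t = 0)
    (l0 : Fin s) (hl0 : t l0 ≠ 0) (h0 : (A *ᵥ pw k z) l0 ≠ 0 ∨ (A *ᵥ pw k t) l0 ≠ 0)
    (ε : ℝ) (hε : 0 < ε) :
    ∃ y : Fin s → ℚ_[p], pw k y ⬝ᵥ A *ᵥ pw k y = 0 ∧
      (∃ l, y l ≠ 0 ∧ (A *ᵥ pw k y) l ≠ 0) ∧ ∀ l, ‖y l - z l‖ < ε := by
  classical
  have hη : ∀ l, ∃ η : ℝ, 0 < η ∧ ∀ δ : ℚ_[p], ‖δ‖ < η → ∃ r : ℚ_[p], r ^ k = 1 + δ ∧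
      ‖r - 1‖ < min (ε / (‖z l‖ + 1)) 1 := fun l =>
    hR p k hk _ (lt_min (by positivity) one_pos)
  choose η hη1 hη2 using hη
  have e1 : ∀ᶠ M : ℕ in Filter.atTop, ∀ l,
      ‖t l ^ k / z l ^ k * ((p : ℚ_[p]) ^ M) ^ k‖ < η l :=
    Filter.eventually_all.mpr fun l => ev p k hk _ _ (hη1 l)
  have e2 : ∀ᶠ M : ℕ in Filter.atTop, ∀ l, ‖t l * ((p : ℚ_[p]) ^ M) ^ 1‖ < ε :=
    Filter.eventually_all.mpr fun l => ev p 1 le_rfl _ _ hε
  have e3 : ∀ᶠ M : ℕ in Filter.atTop,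
      (A *ᵥ pw k z) l0 + (A *ᵥ pw k t) l0 * ((p : ℚ_[p]) ^ M) ^ k ≠ 0 := by
    by_cases ha : (A *ᵥ pw k z) l0 = 0
    · refine Filter.Eventually.of_forall fun M => ?_
      have hb : (A *ᵥ pw k t) l0 ≠ 0 := by
        rcases h0 with h | h
        · exact absurd ha h
        · exact h
      rw [ha, zero_add]
      exact mul_ne_zero hb (pow_ne_zero _ (pow_ne_zero _
        (Nat.cast_ne_zero.mpr (Fact.out : p.Prime).ne_zero)))
    · refine (ev p k hk ((A *ᵥ pw k t) l0) _ (norm_pos_iff.mpr ha)).mono fun M hM h => ?_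
      have h1 : (A *ᵥ pw k z) l0 = -((A *ᵥ pw k t) l0 * ((p : ℚ_[p]) ^ M) ^ k) := by
        linear_combination h
      rw [h1, norm_neg] at hM
      exact lt_irrefl _ hM
  obtain ⟨M, h1, h2, h3⟩ := (e1.and (e2.and e3)).exists
  set π : ℚ_[p] := (p : ℚ_[p]) ^ M with hπ
  have hπ0 : π ≠ 0 := pow_ne_zero _ (Nat.cast_ne_zero.mpr (Fact.out : p.Prime).ne_zero)
  choose r hr1 hr2 using fun l => hη2 l _ (h1 l)
  set y : Fin s → ℚ_[p] := fun l => if z l = 0 then t l * π else z l * r l with hy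
  have hpw : pw k y = pw k z + π ^ k • pw k t := by
    funext l
    simp only [Pi.add_apply, Pi.smul_apply, smul_eq_mul, pw, hy]
    by_cases hl : z l = 0
    · rw [if_pos hl, hl, zero_pow (by omega), mul_pow]
      ring
    · rw [if_neg hl, mul_pow, hr1]
      have : z l ^ k ≠ 0 := pow_ne_zero _ hl
      field_simp
  have hAy : A *ᵥ pw k y = A *ᵥ pw k z + π ^ k • A *ᵥ pw k t := by
    rw [hpw, Matrix.mulVec_add, Matrix.mulVec_smul]
  refine ⟨y, ?_, ⟨l0, ?_, ?_⟩, fun l => ?_⟩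
  · have h4 : pw k z ⬝ᵥ A *ᵥ pw k t = 0 := by
      rw [dot_symm A hA, ← ht1]
      unfold dotProduct
      exact Finset.sum_congr rfl fun l _ => mul_comm _ _
    have h5 : pw k t ⬝ᵥ A *ᵥ pw k z = 0 := by
      rw [dot_symm A hA, h4]
    rw [hAy, hpw, dotProduct_add, add_dotProduct, add_dotProduct, dotProduct_smul,
      dotProduct_smul, smul_dotProduct, smul_dotProduct, hz, h4, h5, ht2]
    simp
  · simp only [hy]
    by_cases hl : z l0 = 0
    · rw [if_pos hl]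
      exact mul_ne_zero hl0 hπ0
    · rw [if_neg hl]
      refine mul_ne_zero hl ?_
      intro hr
      have := (hr2 l0).trans_le (min_le_right _ _)
      rw [hr, zero_sub, norm_neg, norm_one] at this
      exact lt_irrefl _ this
  · rw [hAy, Pi.add_apply, Pi.smul_apply, smul_eq_mul, mul_comm (π ^ k)]
    exact h3
  · simp only [hy]
    by_cases hl : z l = 0
    · rw [if_pos hl, hl, sub_zero]
      have := h2 l
      rwa [pow_one] at this
    · rw [if_neg hl]
      have h4 : z l * r l - z l = z l * (r l - 1) := by ring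
      rw [h4, norm_mul]
      have h5 := (hr2 l).trans_le (min_le_left _ _)
      have h6 : 0 ≤ ‖z l‖ := norm_nonneg _
      have h7 : 0 ≤ ‖r l - 1‖ := norm_nonneg _
      rw [lt_div_iff₀ (by positivity)] at h5
      nlinarith

lemma sum_extend {K : Type} [Field K] {s m : ℕ} (f : Fin m → Fin s) (hf : Function.Injective f)
    (g : Fin s → K) (u : Fin m → K) :
    ∑ l, g l * Function.extend f u 0 l = ∑ i, g (f i) * u i := by
  classical
  rw [← Finset.sum_subset (Finset.subset_univ (Finset.univ.image f)), Finset.sum_image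
    (fun a _ b _ h => hf h)]
  · refine Finset.sum_congr rfl fun i _ => ?_
    rw [hf.extend_apply]
  · intro l _ hl
    rw [Function.extend_apply']
    · simp
    · rintro ⟨i, rfl⟩
      exact hl (Finset.mem_image_of_mem f (Finset.mem_univ i))

lemma pw_extend {K : Type} [Field K] {s m : ℕ} (k : ℕ) (hk : 1 ≤ k) (f : Fin m → Fin s)
    (hf : Function.Injective f) (u : Fin m → K) :
    pw k (Function.extend f u 0) = Function.extend f (pw k u) 0 := by
  classical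
  funext l
  unfold pw
  by_cases h : ∃ i, f i = l
  · obtain ⟨i, rfl⟩ := h
    rw [hf.extend_apply, hf.extend_apply]
  · rw [Function.extend_apply' _ _ _ h, Function.extend_apply' _ _ _ h]
    simp
    omega

lemma Nas_mono {R R' k : ℕ} (h : R ≤ R') : Nas R k ≤ Nas R' k := by
  unfold Nas
  gcongr

lemma le_sp (k : ℕ) : Nas 1 (2 * k) * Nas (Nas 1 (2 * k) + 1) k ≤ sp k := by
  unfold sp
  refine Nat.mul_le_mul (by omega) (Nas_mono (by omega))

end SLIMx

open PADx SLIMx in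
/-- Every `p`-adic zero is a limit of nonsingular ones. -/
theorem t_SLIM (hAS : S_AS) (hR : S_ROOT) (hP : S_PRIN) (hC : S_COM) : S_SLIM := by
  classical
  intro p _ k hk s hs A hA hdet z hz ε hε
  by_cases hcase : ∃ l, z l ≠ 0 ∧ (A *ᵥ pw k z) l ≠ 0
  · exact ⟨z, hz, hcase, fun l => by rw [sub_self, norm_zero]; exact hε⟩
  push Not at hcase
  set J : Finset (Fin s) := Finset.univ.filter fun l => (A *ᵥ pw k z) l ≠ 0 with hJ
  have hmem : ∀ l, l ∈ J ↔ (A *ᵥ pw k z) l ≠ 0 := fun l => by simp [hJ]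
  by_cases hbig : Nas 1 (2 * k) * Nas (Nas 1 (2 * k) + 1) k ≤ J.card
  · obtain ⟨t, ht, htJ, ht1, ht2⟩ := hC p k hk s A hA (A *ᵥ pw k z) J hbig
    obtain ⟨l0, hl0⟩ := Function.ne_iff.mp ht
    exact perturb hR p k hk s A hA z hz t ht1 ht2 l0 hl0
      (Or.inl ((hmem l0).mp (htJ l0 hl0))) ε hε
  · push Not at hbig
    obtain ⟨m, f, hf, hfJ, hm, hdet'⟩ := hP ℚ_[p] s A hA hdet J
    have h1 := le_sp k
    obtain ⟨u, hu, i0, hi1, hi2⟩ := core hAS p k hk m (by omega) (A.submatrix f f)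
      (hA.submatrix f) hdet'
    have hAt : ∀ i, (A *ᵥ pw k (Function.extend f u 0)) (f i) =
        (A.submatrix f f *ᵥ pw k u) i := by
      intro i
      rw [pw_extend k hk f hf]
      simp only [Matrix.mulVec, dotProduct]
      rw [sum_extend f hf]
      rfl
    refine perturb hR p k hk s A hA z hz (Function.extend f u 0) ?_ ?_ (f i0) ?_
      (Or.inr ?_) ε hε
    · rw [pw_extend k hk f hf, sum_extend f hf]
      refine Finset.sum_eq_zero fun i _ => ?_
      have h2 : (A *ᵥ pw k z) (f i) = 0 := by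
        by_contra h
        exact hfJ i ((hmem _).mpr h)
      rw [h2, zero_mul]
    · have h2 : pw k (Function.extend f u 0) ⬝ᵥ A *ᵥ pw k (Function.extend f u 0) =
          ∑ l, (A *ᵥ pw k (Function.extend f u 0)) l * Function.extend f (pw k u) 0 l := by
        rw [dotProduct, pw_extend k hk f hf]
        exact Finset.sum_congr rfl fun l _ => mul_comm _ _
      rw [h2, sum_extend f hf, ← hu]
      unfold dotProduct
      refine Finset.sum_congr rfl fun i _ => ?_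
      rw [hAt i, mul_comm]
    · rw [hf.extend_apply]
      exact hi1
    · rw [hAt i0]
      exact hi2

end Pool.Agent.helper132_hp
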