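import Pool.Agent.helper132_hp.T_FIN
import Pool.Agent.helper132_hp.HDefs

/-! From integer matrices to rational matrices; thresholds; the final statement. -/

namespace Pool.Agent.helper132_hp

open Finset MvPolynomial Filter Topology

namespace TOPx

variable {s : ℕ}

lemma exists_int (A : Matrix (Fin s) (Fin s) ℚ) :
    ∃ (d : ℕ) (A' : Matrix (Fin s) (Fin s) ℤ), 1 ≤ d ∧ ∀ i j, ((A' i j : ℤ) : ℚ) = d * A i j := by
  obtain ⟨d, hd⟩ : ∃ d : ℕ, d = ∏ i, ∏ j, (A i j).den := ⟨_, rfl⟩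
  have hd1 : 1 ≤ d := by
    rw [hd]
    exact Nat.one_le_iff_ne_zero.2 (Finset.prod_ne_zero_iff.2 fun i _ =>
      Finset.prod_ne_zero_iff.2 fun j _ => (A i j).den_nz)
  have hdvd : ∀ i j, (A i j).den ∣ d := by
    intro i j
    rw [hd]
    exact (Finset.dvd_prod_of_mem (fun j => (A i j).den) (Finset.mem_univ j)).trans
      (Finset.dvd_prod_of_mem (fun i => ∏ j, (A i j).den) (Finset.mem_univ i))
  refine ⟨d, Matrix.of fun i j => ((d / (A i j).den : ℕ) : ℤ) * (A i j).num, hd1, fun i j => ?_⟩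
  obtain ⟨c, hc⟩ := hdvd i j
  have hden : ((A i j).den : ℚ) ≠ 0 := by exact_mod_cast (A i j).den_nz
  rw [Matrix.of_apply, hc, Nat.mul_div_cancel_left _ (Nat.pos_of_ne_zero (A i j).den_nz)]
  push_cast
  have h1 : (A i j) = (A i j).num / (A i j).den := (Rat.num_div_den (A i j)).symm
  rw [show ((A i j).den : ℚ) * c * A i j = c * (A i j * (A i j).den) by ring]
  rw [Rat.mul_den_eq_num]

lemma cast_K {K : Type} [Field K] [CharZero K] {A : Matrix (Fin s) (Fin s) ℚ} {d : ℕ}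
    {A' : Matrix (Fin s) (Fin s) ℤ} (h : ∀ i j, ((A' i j : ℤ) : ℚ) = d * A i j) (i j : Fin s) :
    ((A' i j : ℤ) : K) = d * (A i j : K) := by
  have := congrArg (fun x : ℚ => (x : K)) (h i j)
  simpa using this

lemma aeval_FF {K : Type} [Field K] [CharZero K] {A : Matrix (Fin s) (Fin s) ℚ} {d : ℕ}
    {A' : Matrix (Fin s) (Fin s) ℤ} (h : ∀ i j, ((A' i j : ℤ) : ℚ) = d * A i j) (k : ℕ) (y : Fin s → K) :
    aeval y (G1 A' k) = d * FF K A k y := by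
  rw [aeval_G1]
  unfold FF
  rw [Finset.mul_sum]
  refine Finset.sum_congr rfl fun i _ => ?_
  rw [Finset.mul_sum]
  refine Finset.sum_congr rfl fun j _ => ?_
  rw [cast_K h]; ring

lemma symm' {A : Matrix (Fin s) (Fin s) ℚ} {d : ℕ} {A' : Matrix (Fin s) (Fin s) ℤ}
    (h : ∀ i j, ((A' i j : ℤ) : ℚ) = d * A i j) (hA : A.IsSymm) : A'.IsSymm := by
  ext i j
  have h1 := h i j
  have h2 := h j i
  have h3 : A j i = A i j := hA.apply i j
  rw [h3, ← h1] at h2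
  rw [Matrix.transpose_apply]
  exact_mod_cast h2

lemma det' {A : Matrix (Fin s) (Fin s) ℚ} {d : ℕ} (hd : 1 ≤ d) {A' : Matrix (Fin s) (Fin s) ℤ}
    (h : ∀ i j, ((A' i j : ℤ) : ℚ) = d * A i j) (hA : A.det ≠ 0) : A'.det ≠ 0 := by
  have h1 : A'.map (Int.castRingHom ℚ) = (d : ℚ) • A := by
    ext i j
    simp [h i j]
  intro h0
  have h2 : ((A'.map (Int.castRingHom ℚ)).det) = 0 := by
    rw [← RingHom.mapMatrix_apply, ← RingHom.map_det, h0]; simp
  rw [h1, Matrix.det_smul] at h2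
  rcases mul_eq_zero.1 h2 with h3 | h3
  · have : (d : ℚ) ≠ 0 := by exact_mod_cast (by omega : d ≠ 0)
    exact pow_ne_zero _ this h3
  · exact hA h3

/-- the conclusion of `t_FIN`. -/
def S_FIN : Prop := ∀ (k : ℕ), 1 ≤ k → ∀ (s : ℕ), sp k ≤ s → t1 k + 4 * r1 k ≤ s →
    ∀ A : Matrix (Fin s) (Fin s) ℤ, A.IsSymm → A.det ≠ 0 →
    (∃ y : Fin s → ℝ, aeval y (G1 A k) = 0 ∧ ∃ l, aeval y (pderiv l (G1 A k)) ≠ 0) →
    ∃ y : Fin s → ℤ, y ≠ 0 ∧ eval y (G1 A k) = 0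

lemma zero_of_int {A : Matrix (Fin s) (Fin s) ℚ} {d : ℕ} (hd : 1 ≤ d) {A' : Matrix (Fin s) (Fin s) ℤ}
    (h : ∀ i j, ((A' i j : ℤ) : ℚ) = d * A i j) (k : ℕ)
    (hz : ∃ y : Fin s → ℤ, y ≠ 0 ∧ eval y (G1 A' k) = 0) : HasZero ℚ A k := by
  obtain ⟨y, hy, hy0⟩ := hz
  refine ⟨fun i => (y i : ℚ), ?_, ?_⟩
  · intro hc
    apply hy
    funext i
    have := congrFun hc i
    simp only [Pi.zero_apply] at this
    exact_mod_cast this
  · have h1 := aeval_FF (K := ℚ) h k (fun i => (y i : ℚ))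
    have h2 : aeval (fun i => (y i : ℚ)) (G1 A' k) = ((eval y (G1 A' k) : ℤ) : ℚ) := by
      have h3 : eval y (G1 A' k) = aeval y (G1 A' k) := rfl
      rw [h3, aeval_G1, aeval_G1]
      push_cast
      rfl
    rw [h2, hy0] at h1
    have h4 : (d : ℚ) ≠ 0 := by exact_mod_cast (by omega : d ≠ 0)
    simp only [Int.cast_zero] at h1
    rcases mul_eq_zero.1 h1.symm with h5 | h5
    · exact absurd h5 h4
    · exact h5

lemma smooth_main (hF : S_FIN) (k : ℕ) (hk : 1 ≤ k) (hs1 : sp k ≤ s) (hs2 : t1 k + 4 * r1 k ≤ s)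
    (A : Matrix (Fin s) (Fin s) ℚ) (hA : A.IsSymm) (hdet : A.det ≠ 0) (hy : SmoothReal A k) :
    HasZero ℚ A k := by
  obtain ⟨d, A', hd, hA'⟩ := exists_int A
  refine zero_of_int hd hA' k (hF k hk s hs1 hs2 A' (symm' hA' hA) (det' hd hA' hdet) ?_)
  obtain ⟨y, hy0, l, hl⟩ := hy
  refine ⟨y, ?_, l, ?_⟩
  · rw [aeval_FF hA', hy0, mul_zero]
  · rw [aeval_pderiv_G1]
    have h1 : ∑ j, ((A' l j : ℤ) : ℝ) * y j ^ k = d * ∑ j, (A l j : ℝ) * y j ^ k := by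
      rw [Finset.mul_sum]
      refine Finset.sum_congr rfl fun j _ => by rw [cast_K hA']; ring
    have h2 : ∑ j, ((A' j l : ℤ) : ℝ) * y j ^ k = d * ∑ j, (A l j : ℝ) * y j ^ k := by
      rw [Finset.mul_sum]
      refine Finset.sum_congr rfl fun j _ => by rw [cast_K hA', hA.apply l j]; ring
    rw [h1, h2]
    have e : (k : ℝ) * y l ^ (k - 1) * (d * ∑ j, (A l j : ℝ) * y j ^ k) +
        k * y l ^ (k - 1) * (d * ∑ j, (A l j : ℝ) * y j ^ k) =
        (2 * k * d) * (y l ^ (k - 1) * ∑ j, (A l j : ℝ) * y j ^ k) := by ring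
    rw [e]
    have hkR : (0 : ℝ) < k := by exact_mod_cast hk
    have hdR : (0 : ℝ) < d := by exact_mod_cast hd
    exact mul_ne_zero (by positivity) hl

lemma odd_main (hF : S_FIN) (hO : S_ODD) (k : ℕ) (hk : Odd k) (hs1 : sp k ≤ s)
    (hs2 : t1 k + 4 * r1 k ≤ s) (hs3 : 3 ≤ s)
    (A : Matrix (Fin s) (Fin s) ℚ) (hA : A.IsSymm) (hdet : A.det ≠ 0) : Hasse A k := by
  intro hR _
  obtain ⟨d, A', hd, hA'⟩ := exists_int A
  have hk1 : 1 ≤ k := hk.pos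
  refine zero_of_int hd hA' k (hF k hk1 s hs1 hs2 A' (symm' hA' hA) (det' hd hA' hdet) ?_)
  refine hO k hk s hs3 A' (symm' hA' hA) (det' hd hA' hdet) ?_
  obtain ⟨y, hy, hy0⟩ := hR
  exact ⟨y, hy, by rw [aeval_FF hA', hy0, mul_zero]⟩

lemma even_main (hE : S_EVEN) (k : ℕ) (hk : Even k) (hk2 : 2 ≤ k) (s0 : ℕ) : ¬ Threshold k s0 := by
  intro hT
  obtain ⟨A, hA, hdet, hR, hp, hQ⟩ := hE k hk hk2 (max s0 (8 * k ^ 3 + 3)) (le_max_right _ _)
  apply hQ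
  have h1 := hT (max s0 (8 * k ^ 3 + 3)) (le_max_left _ _) A hA hdet
  have h2 : HasZero ℝ A k := by
    obtain ⟨y, hy, hy0⟩ := hR
    refine ⟨y, hy, ?_⟩
    unfold Fm at hy0
    unfold FF
    simpa using hy0
  have h3 : ∀ (p : ℕ) [Fact p.Prime], HasZero ℚ_[p] A k := by
    intro p _
    obtain ⟨y, hy, hy0⟩ := hp p
    refine ⟨y, hy, ?_⟩
    unfold Fm at hy0
    unfold FF
    simpa using hy0
  obtain ⟨y, hy, hy0⟩ := h1 h2 h3
  refine ⟨y, hy, ?_⟩
  unfold FF at hy0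
  unfold Fm
  simpa using hy0

lemma poly_bound : ∃ C : ℕ, 3 ≤ C ∧ ∀ k : ℕ, 1 ≤ k → sp k ≤ C * k ^ 65 ∧ t1 k + 4 * r1 k ≤ C * k ^ 65 := by
  obtain ⟨K0, hK0⟩ : ∃ K0 : ℕ, K0 = 5000 * 2 ^ 13 + 5000 + 2 := ⟨_, rfl⟩
  refine ⟨5000 * K0 ^ 4 + 10 ^ 7 + 12000, by omega, fun k hk => ⟨?_, ?_⟩⟩
  · obtain ⟨n0, hn0⟩ : ∃ n0, n0 = Nas 1 (2 * k) + Nas 1 k + 2 := ⟨_, rfl⟩
    have h1 : n0 ≤ K0 * k ^ 13 := by
      have hk13 : 1 ≤ k ^ 13 := Nat.one_le_pow _ _ hk
      rw [hn0, hK0]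
      unfold Nas
      rw [mul_pow]
      nlinarith
    have h2 : sp k = 5000 * (n0 ^ 4 * k ^ 13) := by
      unfold sp
      rw [← hn0]
      unfold Nas
      ring
    rw [h2]
    calc 5000 * (n0 ^ 4 * k ^ 13) ≤ 5000 * ((K0 * k ^ 13) ^ 4 * k ^ 13) := by gcongr
      _ = 5000 * K0 ^ 4 * k ^ 65 := by ring
      _ ≤ _ := Nat.mul_le_mul_right _ (by omega)
  · unfold t1 r1
    have hk10 : k ^ 10 ≤ k ^ 65 := Nat.pow_le_pow_right hk (by norm_num)
    have hk5 : k ^ 5 ≤ k ^ 65 := Nat.pow_le_pow_right hk (by norm_num)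
    have : 0 ≤ 5000 * K0 ^ 4 * k ^ 65 := Nat.zero_le _
    nlinarith

end TOPx

open TOPx in
theorem t_TOP (hF : S_FIN) (hO : S_ODD) (hE : S_EVEN) : ∃ C : ℕ,
    (∀ k, Odd k → Threshold k (C * k ^ 65)) ∧
    (∀ k, Even k → 2 ≤ k → ∀ s0, ¬ Threshold k s0) ∧
    (∀ k ≥ 1, ∀ s ≥ C * k ^ 65, ∀ A : Matrix (Fin s) (Fin s) ℚ, A.IsSymm → A.det ≠ 0 →
      SmoothReal A k → HasZero ℚ A k) ∧
    Tendsto (fun m : ℕ => Real.log (hh (2 * m + 1)) / ((2 * m + 1 : ℕ) : ℝ)) atTop (𝓝 0) := by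
  obtain ⟨C, hC3, hC⟩ := poly_bound
  have hthr : ∀ k, Odd k → Threshold k (C * k ^ 65) := by
    intro k hk s hs A hA hdet
    have hk1 : 1 ≤ k := hk.pos
    have h1 := hC k hk1
    have h3 : 3 ≤ C * k ^ 65 := by
      have : 1 ≤ k ^ 65 := Nat.one_le_pow _ _ hk1
      nlinarith
    exact odd_main hF hO k hk (h1.1.trans hs) (h1.2.trans hs) (h3.trans hs) A hA hdet
  refine ⟨C, hthr, fun k hk hk2 s0 => even_main hE k hk hk2 s0, ?_, ?_⟩
  · intro k hk s hs A hA hdet hy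
    have h1 := hC k hk
    exact smooth_main hF k hk (h1.1.trans hs) (h1.2.trans hs) A hA hdet hy
  · have hle : ∀ m : ℕ, hh (2 * m + 1) ≤ C * (2 * m + 1) ^ 65 := by
      intro m
      unfold hh
      exact Nat.sInf_le (hthr (2 * m + 1) ⟨m, rfl⟩)
    have hCR : (1 : ℝ) ≤ C := by exact_mod_cast (by omega : 1 ≤ C)
    have hbound : ∀ m : ℕ, Real.log (hh (2 * m + 1)) ≤ Real.log C + 65 * Real.log ((2 * m + 1 : ℕ) : ℝ) := by
      intro m
      have hm : (0 : ℝ) < ((2 * m + 1 : ℕ) : ℝ) := by exact_mod_cast Nat.succ_pos _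
      have hm1 : (1 : ℝ) ≤ ((2 * m + 1 : ℕ) : ℝ) := by exact_mod_cast (by omega : 1 ≤ 2 * m + 1)
      rcases Nat.eq_zero_or_pos (hh (2 * m + 1)) with h0 | h0
      · rw [h0]
        simp only [Nat.cast_zero, Real.log_zero]
        have := Real.log_nonneg hCR
        have := Real.log_nonneg hm1
        positivity
      · have h1 : (0 : ℝ) < hh (2 * m + 1) := by exact_mod_cast h0
        have h2 : (hh (2 * m + 1) : ℝ) ≤ C * ((2 * m + 1 : ℕ) : ℝ) ^ 65 := by exact_mod_cast hle m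
        calc Real.log (hh (2 * m + 1)) ≤ Real.log (C * ((2 * m + 1 : ℕ) : ℝ) ^ 65) := Real.log_le_log h1 h2
          _ = Real.log C + 65 * Real.log ((2 * m + 1 : ℕ) : ℝ) := by
              rw [Real.log_mul (by positivity) (by positivity), Real.log_pow]
              push_cast
              ring
    have hlim : Tendsto (fun x : ℝ => (Real.log C + 65 * Real.log x) / x) atTop (𝓝 0) := by
      have h1 : Tendsto (fun x : ℝ => Real.log C / x) atTop (𝓝 0) := tendsto_const_nhds.div_atTop tendsto_id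
      have h2 : Tendsto (fun x : ℝ => Real.log x / x) atTop (𝓝 0) := by
        have := Real.isLittleO_log_id_atTop
        simpa using this.tendsto_div_nhds_zero
      have h3 := h1.add (h2.const_mul 65)
      simp only [mul_zero, add_zero] at h3
      refine h3.congr fun x => ?_
      ring
    have hseq : Tendsto (fun m : ℕ => ((2 * m + 1 : ℕ) : ℝ)) atTop atTop := by
      refine tendsto_natCast_atTop_atTop.comp ?_
      refine tendsto_atTop_mono (fun m => ?_) tendsto_id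
      simp only [id]; omega
    have hlim2 := hlim.comp hseq
    refine squeeze_zero (fun m => ?_) (fun m => ?_) hlim2
    · exact div_nonneg (Real.log_natCast_nonneg _) (Nat.cast_nonneg _)
    · exact div_le_div_of_nonneg_right (hbound m) (Nat.cast_nonneg _)

end Pool.Agent.helper132_hp
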