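import Pool.Agent.helper132_hp.T_PAD
import Pool.Agent.helper132_hp.Stmts2

/-! Weak approximation: from integer matrices, one real place and one residue class to rational
matrices and finitely many places. -/

namespace Pool.Agent.helper132_hp

open Finset MvPolynomial

namespace WAx

variable {s : ℕ}

lemma exists_int (A : Matrix (Fin s) (Fin s) ℚ) :
    ∃ (d : ℕ) (A' : Matrix (Fin s) (Fin s) ℤ), 1 ≤ d ∧ ∀ i j, ((A' i j : ℤ) : ℚ) = d * A i j := by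
  obtain ⟨d, hd⟩ : ∃ d : ℕ, d = ∏ i, ∏ j, (A i j).den := ⟨_, rfl⟩
  have hd1 : 1 ≤ d := by
    rw [hd]
    exact Nat.one_le_iff_ne_zero.2 (Finset.prod_ne_zero_iff.2 fun i _ =>
      Finset.prod_ne_zero_iff.2 fun j _ => (A i j).den_nz)
  have hdvd : ∀ i j, (A i j).den ∣ d := by
    intro i j
    rw [hd]
    exact (Finset.dvd_prod_of_mem (fun j => (A i j).den) (Finset.mem_univ j)).trans
      (Finset.dvd_prod_of_mem (fun i => ∏ j, (A i j).den) (Finset.mem_univ i))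
  refine ⟨d, Matrix.of fun i j => ((d / (A i j).den : ℕ) : ℤ) * (A i j).num, hd1, fun i j => ?_⟩
  obtain ⟨c, hc⟩ := hdvd i j
  rw [Matrix.of_apply, hc, Nat.mul_div_cancel_left _ (Nat.pos_of_ne_zero (A i j).den_nz)]
  push_cast
  rw [show ((A i j).den : ℚ) * c * A i j = c * (A i j * (A i j).den) by ring]
  rw [Rat.mul_den_eq_num]

lemma cast_K {K : Type} [Field K] [CharZero K] {A : Matrix (Fin s) (Fin s) ℚ} {d : ℕ}
    {A' : Matrix (Fin s) (Fin s) ℤ} (h : ∀ i j, ((A' i j : ℤ) : ℚ) = d * A i j) (i j : Fin s) :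
    ((A' i j : ℤ) : K) = d * (A i j : K) := by
  have := congrArg (fun x : ℚ => (x : K)) (h i j)
  simpa using this

lemma sum_FF {K : Type} [Field K] [CharZero K] {A : Matrix (Fin s) (Fin s) ℚ} {d : ℕ}
    {A' : Matrix (Fin s) (Fin s) ℤ} (h : ∀ i j, ((A' i j : ℤ) : ℚ) = d * A i j) (k : ℕ) (y : Fin s → K) :
    ∑ i, ∑ j, ((A' i j : ℤ) : K) * y i ^ k * y j ^ k = d * FF K A k y := by
  unfold FF
  rw [Finset.mul_sum]
  refine Finset.sum_congr rfl fun i _ => ?_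
  rw [Finset.mul_sum]
  refine Finset.sum_congr rfl fun j _ => ?_
  rw [cast_K h]; ring

lemma symm' {A : Matrix (Fin s) (Fin s) ℚ} {d : ℕ} {A' : Matrix (Fin s) (Fin s) ℤ}
    (h : ∀ i j, ((A' i j : ℤ) : ℚ) = d * A i j) (hA : A.IsSymm) : A'.IsSymm := by
  ext i j
  have h1 := h i j
  have h2 := h j i
  have h3 : A j i = A i j := hA.apply i j
  rw [h3, ← h1] at h2
  rw [Matrix.transpose_apply]
  exact_mod_cast h2

lemma det' {A : Matrix (Fin s) (Fin s) ℚ} {d : ℕ} (hd : 1 ≤ d) {A' : Matrix (Fin s) (Fin s) ℤ}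
    (h : ∀ i j, ((A' i j : ℤ) : ℚ) = d * A i j) (hA : A.det ≠ 0) : A'.det ≠ 0 := by
  have h1 : A'.map (Int.castRingHom ℚ) = (d : ℚ) • A := by
    ext i j
    simp [h i j]
  intro h0
  have h2 : ((A'.map (Int.castRingHom ℚ)).det) = 0 := by
    rw [← RingHom.mapMatrix_apply, ← RingHom.map_det, h0]; simp
  rw [h1, Matrix.det_smul] at h2
  rcases mul_eq_zero.1 h2 with h3 | h3
  · have : (d : ℚ) ≠ 0 := by exact_mod_cast (by omega : d ≠ 0)
    exact pow_ne_zero _ this h3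
  · exact hA h3

lemma poly_bound : ∃ C : ℕ, 3 ≤ C ∧ ∀ k : ℕ, 1 ≤ k → sp k ≤ C * k ^ 65 ∧ t1 k + 4 * r1 k ≤ C * k ^ 65 := by
  obtain ⟨K0, hK0⟩ : ∃ K0 : ℕ, K0 = 5000 * 2 ^ 13 + 5000 + 2 := ⟨_, rfl⟩
  refine ⟨5000 * K0 ^ 4 + 10 ^ 7 + 12000, by omega, fun k hk => ⟨?_, ?_⟩⟩
  · obtain ⟨n0, hn0⟩ : ∃ n0, n0 = Nas 1 (2 * k) + Nas 1 k + 2 := ⟨_, rfl⟩
    have h1 : n0 ≤ K0 * k ^ 13 := by
      have hk13 : 1 ≤ k ^ 13 := Nat.one_le_pow _ _ hk
      rw [hn0, hK0]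
      unfold Nas
      rw [mul_pow]
      nlinarith
    have h2 : sp k = 5000 * (n0 ^ 4 * k ^ 13) := by
      unfold sp
      rw [← hn0]
      unfold Nas
      ring
    rw [h2]
    calc 5000 * (n0 ^ 4 * k ^ 13) ≤ 5000 * ((K0 * k ^ 13) ^ 4 * k ^ 13) := by gcongr
      _ = 5000 * K0 ^ 4 * k ^ 65 := by ring
      _ ≤ _ := Nat.mul_le_mul_right _ (by omega)
  · unfold t1 r1
    have hk10 : k ^ 10 ≤ k ^ 65 := Nat.pow_le_pow_right hk (by norm_num)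
    have hk5 : k ^ 5 ≤ k ^ 65 := Nat.pow_le_pow_right hk (by norm_num)
    have : 0 ≤ 5000 * K0 ^ 4 * k ^ 65 := Nat.zero_le _
    nlinarith

/-- homogeneity. -/
lemma FF_smul {K : Type} [Field K] (A : Matrix (Fin s) (Fin s) ℚ) (k : ℕ) (t : K) (y : Fin s → K) :
    FF K A k (fun i => t * y i) = (t ^ k * t ^ k) * FF K A k y := by
  unfold FF
  rw [Finset.mul_sum]
  refine Finset.sum_congr rfl fun i _ => ?_
  rw [Finset.mul_sum]
  refine Finset.sum_congr rfl fun j _ => ?_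
  rw [mul_pow, mul_pow]; ring

lemma cast_FF {K L : Type} [Field K] [Field L] (f : K →+* L) (A : Matrix (Fin s) (Fin s) ℚ) (k : ℕ)
    (y : Fin s → K) : f (FF K A k y) = FF L A k (fun i => f (y i)) := by
  unfold FF
  simp [map_sum]

/-- a common denominator. -/
lemma exists_T (S : Finset ℕ) (Y : ∀ (p : ℕ) [Fact p.Prime], Fin s → ℚ_[p]) :
    ∃ T : ℕ, 1 ≤ T ∧ ∀ p ∈ S, ∀ [Fact p.Prime], ∀ l, ‖(T : ℚ_[p]) * Y p l‖ ≤ 1 := by
  have h1 : ∀ p : ℕ, ∃ t : ℕ, 1 ≤ t ∧ ∀ [Fact p.Prime], ∀ l, ‖(t : ℚ_[p]) * Y p l‖ ≤ 1 := by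
    intro p
    by_cases hp : p.Prime
    · haveI : Fact p.Prime := ⟨hp⟩
      have h2 : ∀ l, ∃ n : ℕ, ∀ m ≥ n, ‖((p : ℚ_[p]) ^ m) * Y p l‖ ≤ 1 := by
        intro l
        have h3 : Filter.Tendsto (fun m : ℕ => ‖((p : ℚ_[p]) ^ m) * Y p l‖) Filter.atTop (nhds 0) := by
          have h4 : Filter.Tendsto (fun m : ℕ => ((p : ℝ)⁻¹) ^ m * ‖Y p l‖) Filter.atTop (nhds 0) := by
            have h5 : Filter.Tendsto (fun m : ℕ => ((p : ℝ)⁻¹) ^ m) Filter.atTop (nhds 0) := by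
              refine tendsto_pow_atTop_nhds_zero_of_lt_one (by positivity) ?_
              exact inv_lt_one_of_one_lt₀ (by exact_mod_cast hp.one_lt)
            simpa using h5.mul_const ‖Y p l‖
          refine h4.congr fun m => ?_
          rw [norm_mul, norm_pow, Padic.norm_p]
        have h6 := h3.eventually (gt_mem_nhds (show (0 : ℝ) < 1 by norm_num))
        obtain ⟨n, hn⟩ := Filter.eventually_atTop.1 h6
        exact ⟨n, fun m hm => (hn m hm).le⟩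
      choose n hn using h2
      refine ⟨p ^ (∑ l, n l), Nat.one_le_pow _ _ hp.pos, ?_⟩
      intro _ l
      have := hn l (∑ l, n l) (Finset.single_le_sum (f := n) (fun _ _ => Nat.zero_le _) (Finset.mem_univ l))
      push_cast
      exact this
    · exact ⟨1, le_rfl, fun {h} => absurd h.out hp⟩
  choose t ht1 ht using h1
  refine ⟨∏ p ∈ S, t p, Finset.one_le_prod' fun p _ => ht1 p, ?_⟩
  intro p hp _ l
  rw [← Finset.mul_prod_erase S t hp]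
  have h2 : ((t p * ∏ x ∈ S.erase p, t x : ℕ) : ℚ_[p]) * Y p l =
      ((∏ x ∈ S.erase p, t x : ℕ) : ℚ_[p]) * ((t p : ℚ_[p]) * Y p l) := by push_cast; ring
  rw [h2, norm_mul]
  have h3 : ‖((∏ x ∈ S.erase p, t x : ℕ) : ℚ_[p])‖ ≤ 1 := by
    have := Padic.norm_int_le_one (p := p) ((∏ x ∈ S.erase p, t x : ℕ) : ℤ)
    simpa using this
  exact mul_le_one₀ h3 (norm_nonneg _) (ht p l)

/-- a common residue class. -/
lemma exists_v (S : Finset ℕ) (hS : ∀ p ∈ S, p.Prime) (e : ℕ) (w : ∀ (p : ℕ) [Fact p.Prime], Fin s → ℤ_[p]) :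
    ∃ v : Fin s → ℤ, ∀ p ∈ S, ∀ [Fact p.Prime], ∀ l, (p : ℤ_[p]) ^ e ∣ w p l - (v l : ℤ_[p]) := by
  have h1 : ∀ l : Fin s, ∃ v : ℤ, ∀ p ∈ S, ∀ [Fact p.Prime], (p : ℤ_[p]) ^ e ∣ w p l - (v : ℤ_[p]) := by
    intro l
    have h2 : ∀ p : ℕ, ∃ u : ℕ, ∀ [Fact p.Prime], (p : ℤ_[p]) ^ e ∣ w p l - (u : ℤ_[p]) := by
      intro p
      by_cases hp : p.Prime
      · haveI : Fact p.Prime := ⟨hp⟩
        refine ⟨(w p l).appr e, ?_⟩
        intro _
        exact Ideal.mem_span_singleton.1 (PadicInt.appr_spec e (w p l))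
      · exact ⟨0, fun {h} => absurd h.out hp⟩
    choose u hu using h2
    obtain ⟨v, hv⟩ := Nat.chineseRemainderOfFinset u (fun p => p ^ e) S
      (fun p hp => pow_ne_zero _ (hS p hp).ne_zero)
      (fun p hp q hq hpq => Nat.Coprime.pow _ _ ((Nat.coprime_primes (hS p hp) (hS q hq)).2 hpq))
    refine ⟨(v : ℤ), fun p hp => ?_⟩
    intro _
    have h3 := hv p hp
    have h4 : ((p ^ e : ℕ) : ℤ) ∣ (v : ℤ) - u p := (Nat.modEq_iff_dvd.1 h3.symm)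
    have h5 : (p : ℤ_[p]) ^ e ∣ (u p : ℤ_[p]) - (v : ℤ_[p]) := by
      obtain ⟨c, hc⟩ := h4
      refine ⟨-(c : ℤ_[p]), ?_⟩
      have h6 := congrArg (fun x : ℤ => (x : ℤ_[p])) hc
      push_cast at h6
      linear_combination -h6
    have h7 := dvd_add (hu p) h5
    simpa using h7
  choose v hv using h1
  exact ⟨v, fun p hp _ l => hv l p hp⟩

/-- rows. -/
lemma sum_row {K : Type} [Field K] [CharZero K] {A : Matrix (Fin s) (Fin s) ℚ} {d : ℕ}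
    {A' : Matrix (Fin s) (Fin s) ℤ} (h : ∀ i j, ((A' i j : ℤ) : ℚ) = d * A i j) (k : ℕ) (y : Fin s → K)
    (l : Fin s) :
    ∑ j, ((A' l j : ℤ) : K) * y j ^ k = d * ∑ j, (A l j : K) * y j ^ k := by
  rw [Finset.mul_sum]
  refine Finset.sum_congr rfl fun j _ => ?_
  rw [cast_K h]; ring

lemma pderiv_ne {K : Type} [Field K] [CharZero K] {A : Matrix (Fin s) (Fin s) ℚ} {d : ℕ} (hd : 1 ≤ d)
    {A' : Matrix (Fin s) (Fin s) ℤ} (h : ∀ i j, ((A' i j : ℤ) : ℚ) = d * A i j) {k : ℕ} (hk : 1 ≤ k)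
    {y : Fin s → K} (hs : SmoothAt K A k y) :
    ∃ l, (2 * (k : K) * y l ^ (k - 1) * ∑ j, ((A' l j : ℤ) : K) * y j ^ k) ≠ 0 := by
  obtain ⟨l, hl⟩ := hs
  refine ⟨l, ?_⟩
  rw [sum_row h]
  have h1 : (2 : K) * k * y l ^ (k - 1) * (d * ∑ j, (A l j : K) * y j ^ k) =
      (2 * k * d) * (y l ^ (k - 1) * ∑ j, (A l j : K) * y j ^ k) := by ring
  rw [h1]
  refine mul_ne_zero (mul_ne_zero (mul_ne_zero two_ne_zero ?_) ?_) hl
  · exact_mod_cast (by omega : k ≠ 0)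
  · exact_mod_cast (by omega : d ≠ 0)

lemma smooth_smul {K : Type} [Field K] {A : Matrix (Fin s) (Fin s) ℚ} {k : ℕ} {t : K} (ht : t ≠ 0)
    {y : Fin s → K} (hs : SmoothAt K A k y) : SmoothAt K A k (fun l => t * y l) := by
  obtain ⟨l, hl⟩ := hs
  refine ⟨l, ?_⟩
  have h1 : (t * y l) ^ (k - 1) * ∑ j, (A l j : K) * (t * y j) ^ k =
      (t ^ (k - 1) * t ^ k) * (y l ^ (k - 1) * ∑ j, (A l j : K) * y j ^ k) := by
    have h2 : ∑ j, (A l j : K) * (t * y j) ^ k = t ^ k * ∑ j, (A l j : K) * y j ^ k := by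
      rw [Finset.mul_sum]
      refine Finset.sum_congr rfl fun j _ => ?_
      rw [mul_pow]; ring
    rw [h2, mul_pow]; ring
  show (t * y l) ^ (k - 1) * ∑ j, (A l j : K) * (t * y j) ^ k ≠ 0
  rw [h1]
  exact mul_ne_zero (mul_ne_zero (pow_ne_zero _ ht) (pow_ne_zero _ ht)) hl

lemma norm_unit {p : ℕ} [Fact p.Prime] {M : ℕ} (hM : p ∣ M) (b : ℕ) :
    ‖(1 + (M : ℚ_[p]) * b)‖ = 1 := by
  have h1 : ¬ ((p : ℤ) ∣ (1 + M * b : ℤ)) := by
    intro h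
    have h2 : (p : ℤ) ∣ ((M : ℤ) * b) := (Int.natCast_dvd_natCast.2 hM).mul_right _
    have h3 : (p : ℤ) ∣ 1 := (dvd_add_left h2).1 h
    have h4 : p ∣ 1 := by exact_mod_cast h3
    exact (Fact.out : p.Prime).one_lt.ne' (Nat.dvd_one.1 h4)
  have h2 := Padic.norm_int_le_one (p := p) (1 + M * b : ℤ)
  have h3 : ¬ ‖(((1 + M * b : ℤ)) : ℚ_[p])‖ < 1 := fun h => h1 (Padic.norm_intCast_lt_one_iff.1 h)
  have h4 : ‖(((1 + M * b : ℤ)) : ℚ_[p])‖ = 1 := le_antisymm h2 (not_lt.1 h3)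
  push_cast at h4
  exact h4

lemma exists_mu (M : ℕ) (hM : 1 ≤ M) (ρ δ : ℝ) (hρ : 0 < ρ) (hδ : 0 < δ) :
    ∃ μ : ℚ, |(μ : ℝ) - ρ| < δ ∧
      ∀ (p : ℕ) [Fact p.Prime], p ∣ M → ‖((μ : ℚ) : ℚ_[p]) - 1‖ ≤ ‖(M : ℚ_[p])‖ := by
  obtain ⟨b, hb⟩ := exists_nat_gt ((|1 - ρ| + M) / δ)
  have hMr : (1 : ℝ) ≤ M := by exact_mod_cast hM
  have hb0 : (0 : ℝ) < b := lt_of_le_of_lt (by positivity) hb
  obtain ⟨a, ha⟩ : ∃ a : ℕ, a = ⌊ρ * b⌋₊ := ⟨_, rfl⟩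
  have ha1 : (a : ℝ) ≤ ρ * b := by rw [ha]; exact Nat.floor_le (by positivity)
  have ha2 : ρ * b < a + 1 := by rw [ha]; exact Nat.lt_floor_add_one _
  have hden : (0 : ℝ) < 1 + M * b := by positivity
  refine ⟨(1 + M * a) / (1 + M * b), ?_, ?_⟩
  · push_cast
    have h1 : (1 + (M : ℝ) * a) / (1 + M * b) - ρ =
        ((1 - ρ) + M * (a - ρ * b)) / (1 + (M : ℝ) * b) := by
      field_simp; ring
    rw [h1, abs_div, abs_of_pos hden, div_lt_iff₀ hden]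
    have h2 : |(1 - ρ) + M * ((a : ℝ) - ρ * b)| ≤ |1 - ρ| + M := by
      refine (abs_add_le _ _).trans ?_
      rw [abs_mul, abs_of_nonneg (by positivity : (0 : ℝ) ≤ M)]
      have h3 : |(a : ℝ) - ρ * b| ≤ 1 := by rw [abs_le]; constructor <;> linarith
      nlinarith
    have h4 : |1 - ρ| + M < δ * b := by
      rw [div_lt_iff₀ hδ] at hb; linarith
    have h5 : δ * b ≤ δ * (1 + M * b) := by
      apply mul_le_mul_of_nonneg_left _ hδ.le
      nlinarith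
    linarith
  · intro p _ hp
    have hu := norm_unit hp b
    have hne : (1 + (M : ℚ_[p]) * b) ≠ 0 := by
      intro h0; rw [h0, norm_zero] at hu; exact zero_ne_one hu
    push_cast
    have h1 : (1 + (M : ℚ_[p]) * a) / (1 + M * b) - 1 = M * ((a : ℚ_[p]) - b) / (1 + M * b) := by
      field_simp; ring
    rw [h1, norm_div, hu, div_one, norm_mul]
    have h2 : ‖((a : ℚ_[p]) - b)‖ ≤ 1 := by
      have := Padic.norm_int_le_one (p := p) ((a : ℤ) - b)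
      push_cast at this
      exact this
    exact mul_le_of_le_one_right (norm_nonneg _) h2

lemma norm_ge {p : ℕ} [Fact p.Prime] {T : ℕ} (hT : 1 ≤ T) : 1 ≤ ‖(T : ℚ_[p])‖ * T := by
  have hp : p.Prime := Fact.out
  obtain ⟨a, T', hT', hTe⟩ := Nat.exists_eq_pow_mul_and_not_dvd (n := T) (by omega) p hp.ne_one
  have h1 : ‖(T' : ℚ_[p])‖ = 1 := by
    have h2 := Padic.norm_int_le_one (p := p) (T' : ℤ)
    have h3 : ¬ ‖((T' : ℤ) : ℚ_[p])‖ < 1 := fun h =>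
      hT' (by exact_mod_cast (Padic.norm_intCast_lt_one_iff.1 h))
    have h4 := le_antisymm h2 (not_lt.1 h3)
    simpa using h4
  have h5 : ‖(T : ℚ_[p])‖ = ((p : ℝ)⁻¹) ^ a := by
    rw [hTe]; push_cast
    rw [norm_mul, h1, norm_pow, Padic.norm_p, mul_one]
  have h6 : ((p : ℝ)) ^ a ≤ T := by
    have : p ^ a ≤ T := by
      rw [hTe]
      exact Nat.le_mul_of_pos_right _ (Nat.pos_of_ne_zero (by rintro rfl; simp at hT'))
    exact_mod_cast this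
  have hp0 : (0 : ℝ) < p := by exact_mod_cast hp.pos
  rw [h5]
  calc (1 : ℝ) = ((p : ℝ)⁻¹) ^ a * (p : ℝ) ^ a := by rw [← mul_pow, inv_mul_cancel₀ hp0.ne', one_pow]
    _ ≤ _ := by gcongr

lemma norm_pow_le {p : ℕ} [Fact p.Prime] (e : ℕ) : ‖(p : ℚ_[p]) ^ e‖ ≤ 1 / 2 ^ e := by
  have hp : p.Prime := Fact.out
  have h2 : (2 : ℝ) ≤ p := by exact_mod_cast hp.two_le
  rw [norm_pow, Padic.norm_p, one_div, ← inv_pow]
  gcongr

lemma modulus (S : Finset ℕ) (hS : ∀ p ∈ S, p.Prime) (e : ℕ) :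
    ∃ M : ℕ, 1 ≤ M ∧ (∀ p ∈ S, M.factorization p = e) ∧ (∀ p ∈ S, p ^ e ∣ M) ∧
      ∀ p : ℕ, p.Prime → p ∣ M → p ∈ S := by
  have hnd : ∀ (U : Finset ℕ), (∀ p ∈ U, p.Prime) → ∀ p : ℕ, p.Prime → p ∣ ∏ q ∈ U, q ^ e → p ∈ U := by
    intro U hU p hp hdvd
    obtain ⟨q, hq, hpq⟩ := (Prime.dvd_finsetProd_iff hp.prime _).1 hdvd
    have h1 := hp.dvd_of_dvd_pow hpq
    have h2 := (Nat.prime_dvd_prime_iff_eq hp (hU q hq)).1 h1
    rw [h2]; exact hq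
  have hne : ∀ (U : Finset ℕ), (∀ p ∈ U, p.Prime) → ∏ q ∈ U, q ^ e ≠ 0 := by
    intro U hU
    exact Finset.prod_ne_zero_iff.2 fun q hq => pow_ne_zero _ (hU q hq).ne_zero
  refine ⟨∏ q ∈ S, q ^ e, Nat.one_le_iff_ne_zero.2 (hne S hS), ?_, ?_, hnd S hS⟩
  · intro p hp
    have hpp := hS p hp
    have hE : ∀ q ∈ S.erase p, q.Prime := fun q hq => hS q (Finset.mem_of_mem_erase hq)
    rw [← Finset.mul_prod_erase S _ hp]
    rw [Nat.factorization_mul (pow_ne_zero _ hpp.ne_zero) (hne _ hE)]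
    rw [Finsupp.add_apply, hpp.factorization_pow, Finsupp.single_eq_same]
    rw [Nat.factorization_eq_zero_of_not_dvd, add_zero]
    intro hdvd
    exact absurd (hnd _ hE p hpp hdvd) (Finset.notMem_erase p S)
  · intro p hp
    exact Finset.dvd_prod_of_mem (fun q => q ^ e) hp

lemma coe_sum {p : ℕ} [Fact p.Prime] (A' : Matrix (Fin s) (Fin s) ℤ) (k : ℕ) (w : Fin s → ℤ_[p])
    (u : Fin s → ℚ_[p]) (hw : ∀ l, PadicInt.Coe.ringHom (w l) = u l) :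
    PadicInt.Coe.ringHom (∑ i, ∑ j, ((A' i j : ℤ) : ℤ_[p]) * w i ^ k * w j ^ k) =
      ∑ i, ∑ j, ((A' i j : ℤ) : ℚ_[p]) * u i ^ k * u j ^ k := by
  rw [map_sum]
  refine Finset.sum_congr rfl fun i _ => ?_
  rw [map_sum]
  refine Finset.sum_congr rfl fun j _ => ?_
  rw [map_mul, map_mul, map_pow, map_pow, map_intCast, hw, hw]

lemma coe_row {p : ℕ} [Fact p.Prime] (A' : Matrix (Fin s) (Fin s) ℤ) (k : ℕ) (w : Fin s → ℤ_[p])
    (u : Fin s → ℚ_[p]) (hw : ∀ l, PadicInt.Coe.ringHom (w l) = u l) (l : Fin s) :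
    PadicInt.Coe.ringHom (2 * (k : ℤ_[p]) * w l ^ (k - 1) * ∑ j, ((A' l j : ℤ) : ℤ_[p]) * w j ^ k) =
      2 * (k : ℚ_[p]) * u l ^ (k - 1) * ∑ j, ((A' l j : ℤ) : ℚ_[p]) * u j ^ k := by
  rw [map_mul, map_mul, map_mul, map_pow, map_sum, map_natCast, map_ofNat, hw]
  congr 1
  refine Finset.sum_congr rfl fun j _ => ?_
  rw [map_mul, map_pow, map_intCast, hw]

lemma exists_w {p : ℕ} [Fact p.Prime] (x : ℚ_[p]) : ∃ w : ℤ_[p], ‖x‖ ≤ 1 → (w : ℚ_[p]) = x := by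
  by_cases h : ‖x‖ ≤ 1
  · exact ⟨⟨x, h⟩, fun _ => rfl⟩
  · exact ⟨0, fun h' => absurd h' h⟩

end WAx

open WAx in
theorem t_WA (h : S_FINr) : S_WA := by
  obtain ⟨C, -, hC⟩ := poly_bound
  refine ⟨C, fun k hk s hs A hA hdet => ?_⟩
  intro y hy hsy S Y hY ε hε
  obtain ⟨d, A', hd, hA'⟩ := exists_int A
  have hsymm := symm' hA' hA
  have hdet' := det' hd hA' hdet
  obtain ⟨hs1, hs2⟩ := hC k hk
  obtain ⟨S', hS'⟩ : ∃ S' : Finset ℕ, S' = S.filter Nat.Prime := ⟨_, rfl⟩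
  have hS'p : ∀ p ∈ S', p.Prime := by
    intro p hp; rw [hS'] at hp; exact (Finset.mem_filter.1 hp).2
  have hS'm : ∀ p ∈ S', p ∈ S := by
    intro p hp; rw [hS'] at hp; exact (Finset.mem_filter.1 hp).1
  obtain ⟨T, hT1, hT⟩ := exists_T S Y
  have hTr : (1 : ℝ) ≤ T := by exact_mod_cast hT1
  obtain ⟨e, he1, he⟩ : ∃ e : ℕ, 1 ≤ e ∧ (T : ℝ) * (1 / 2 ^ e) < ε := by
    have h3 : Filter.Tendsto (fun m : ℕ => (T : ℝ) * ((1 / 2 : ℝ) ^ m)) Filter.atTop (nhds 0) := by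
      simpa using (tendsto_pow_atTop_nhds_zero_of_lt_one (by norm_num : (0 : ℝ) ≤ 1 / 2)
        (by norm_num : (1 / 2 : ℝ) < 1)).const_mul (T : ℝ)
    obtain ⟨n, hn⟩ := Filter.eventually_atTop.1 (h3.eventually (gt_mem_nhds hε))
    refine ⟨n + 1, by omega, ?_⟩
    have := hn (n + 1) (by omega)
    rwa [one_div_pow] at this
  obtain ⟨M, hM1, hMf, hMp, hMd⟩ := modulus S' hS'p e
  -- the integral points
  obtain ⟨w, hw⟩ : ∃ w : ∀ (p : ℕ) [Fact p.Prime], Fin s → ℤ_[p], ∀ p ∈ S, ∀ [Fact p.Prime],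
      ∀ l, ((w p l : ℤ_[p]) : ℚ_[p]) = (T : ℚ_[p]) * Y p l := by
    exact ⟨fun p _ l => (exists_w ((T : ℚ_[p]) * Y p l)).choose, fun p hp _ l =>
      (exists_w ((T : ℚ_[p]) * Y p l)).choose_spec (hT p hp l)⟩
  obtain ⟨v, hv⟩ := exists_v S' hS'p e w
  -- local data
  have hloc : ∀ (p : ℕ) [Fact p.Prime], p ∣ M → ∃ z : Fin s → ℤ_[p],
      MvPolynomial.aeval z (G1 A' k) = 0 ∧
      (∃ l, MvPolynomial.aeval z (MvPolynomial.pderiv l (G1 A' k)) ≠ 0) ∧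
      ∀ l, (p : ℤ_[p]) ^ M.factorization p ∣ z l - (v l : ℤ_[p]) := by
    intro p _ hpM
    have hpS' := hMd p Fact.out hpM
    have hpS := hS'm p hpS'
    obtain ⟨hY0, hY1⟩ := hY p hpS
    have hTne : (T : ℚ_[p]) ≠ 0 := by exact_mod_cast (by omega : T ≠ 0)
    refine ⟨w p, ?_, ?_, ?_⟩
    · rw [PADx.aeval_G1]
      have hinj : ∀ x : ℤ_[p], PadicInt.Coe.ringHom x = 0 → x = 0 := fun x hx => PadicInt.ext hx
      apply hinj
      rw [coe_sum A' k (w p) (fun l => (T : ℚ_[p]) * Y p l) (fun l => hw p hpS l),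
        sum_FF hA' k (fun l => (T : ℚ_[p]) * Y p l), FF_smul, hY0]
      simp
    · obtain ⟨l, hl⟩ := pderiv_ne hd hA' hk (smooth_smul hTne hY1)
      refine ⟨l, ?_⟩
      rw [PADx.aeval_pderiv_G1 A' hsymm]
      intro h0
      apply hl
      rw [← coe_row A' k (w p) (fun l => (T : ℚ_[p]) * Y p l) (fun l => hw p hpS l), h0, map_zero]
    · intro l
      rw [hMf p hpS']
      exact hv p hpS' l
  have hy0 : MvPolynomial.aeval y (G1 A' k) = 0 := by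
    rw [PADx.aeval_G1, sum_FF hA', hy, mul_zero]
  have hy1 : ∃ l, MvPolynomial.aeval y (MvPolynomial.pderiv l (G1 A' k)) ≠ 0 := by
    obtain ⟨l, hl⟩ := pderiv_ne hd hA' hk hsy
    exact ⟨l, by rw [PADx.aeval_pderiv_G1 A' hsymm]; exact hl⟩
  obtain ⟨n, z, hz0, hzM, hzy⟩ := h k hk s (hs1.trans hs) (hs2.trans hs) A' hsymm hdet' y hy0 hy1
    M v hM1 hloc (ε / 2) (half_pos hε)
  -- the multiplier
  obtain ⟨Z, hZ⟩ : ∃ Z : ℝ, Z = 1 + ∑ l, |(z l : ℝ)| := ⟨_, rfl⟩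
  have hZ1 : 0 < Z := by rw [hZ]; positivity
  have hZl : ∀ l, |(z l : ℝ)| ≤ Z := by
    intro l
    rw [hZ]
    have := Finset.single_le_sum (f := fun l => |(z l : ℝ)|) (fun _ _ => abs_nonneg _)
      (Finset.mem_univ l)
    linarith
  obtain ⟨μ, hμ, hμp⟩ := exists_mu M hM1 (T / 2 ^ n) (ε / (2 * Z)) (by positivity) (by positivity)
  refine ⟨fun l => (μ / T) * (z l : ℚ), ?_, ?_, ?_⟩
  · rw [FF_smul A k (μ / T) (fun l => (z l : ℚ))]
    have h1 : ∑ i, ∑ j, ((A' i j : ℤ) : ℤ) * z i ^ k * z j ^ k = 0 := by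
      rw [← MvPolynomial.coe_aeval_eq_eval, RingHom.coe_coe, PADx.aeval_G1] at hz0
      exact hz0
    have h2 : ∑ i, ∑ j, ((A' i j : ℤ) : ℚ) * (z i : ℚ) ^ k * (z j : ℚ) ^ k = 0 := by
      exact_mod_cast h1
    rw [sum_FF hA' k (fun l => (z l : ℚ))] at h2
    rcases mul_eq_zero.1 h2 with h3 | h3
    · exact absurd h3 (by exact_mod_cast (by omega : d ≠ 0))
    · rw [h3, mul_zero]
  · intro l
    push_cast
    have h1 : (μ : ℝ) / T * z l - y l = ((μ : ℝ) - T / 2 ^ n) / T * z l + ((z l : ℝ) / 2 ^ n - y l) := by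
      have : (T : ℝ) ≠ 0 := by positivity
      field_simp
      ring
    rw [h1]
    have h2 : |((μ : ℝ) - T / 2 ^ n) / T * z l| ≤ ε / 2 := by
      rw [abs_mul, abs_div, abs_of_pos (by positivity : (0 : ℝ) < T)]
      have h3 : |(μ : ℝ) - T / 2 ^ n| / T ≤ ε / (2 * Z) :=
        (div_le_self (abs_nonneg _) hTr).trans hμ.le
      calc |(μ : ℝ) - T / 2 ^ n| / T * |(z l : ℝ)| ≤ ε / (2 * Z) * Z := by
            gcongr
            exact hZl l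
        _ = ε / 2 := by field_simp
    calc _ ≤ |((μ : ℝ) - T / 2 ^ n) / T * z l| + |(z l : ℝ) / 2 ^ n - y l| := abs_add_le _ _
      _ < ε / 2 + ε / 2 := add_lt_add_of_le_of_lt h2 (hzy l)
      _ = ε := by ring
  · intro p hp _ l
    have hpp : p.Prime := Fact.out
    have hpS' : p ∈ S' := by rw [hS']; exact Finset.mem_filter.2 ⟨hp, hpp⟩
    have hpM : p ∣ M := (dvd_pow_self p (by omega)).trans (hMp p hpS')
    have hTne : (T : ℚ_[p]) ≠ 0 := by exact_mod_cast (by omega : T ≠ 0)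
    have hT0 : 0 < ‖(T : ℚ_[p])‖ := norm_pos_iff.2 hTne
    have hTinv : ‖(T : ℚ_[p])‖⁻¹ ≤ T := by
      rw [inv_le_iff_one_le_mul₀ hT0]
      exact (norm_ge hT1).trans (le_of_eq (mul_comm _ _))
    -- the first term
    have hMn : ‖(M : ℚ_[p])‖ ≤ 1 / 2 ^ e := by
      obtain ⟨c, hc⟩ := hMp p hpS'
      rw [hc]; push_cast
      rw [norm_mul]
      have h1 : ‖(c : ℚ_[p])‖ ≤ 1 := by
        have := Padic.norm_int_le_one (p := p) (c : ℤ)
        simpa using this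
      exact (mul_le_of_le_one_right (norm_nonneg _) h1).trans (norm_pow_le e)
    have hzn : ‖((z l : ℤ) : ℚ_[p])‖ ≤ 1 := Padic.norm_int_le_one _
    have h1 : ‖(((μ : ℚ) : ℚ_[p]) - 1) / T * (z l : ℚ_[p])‖ ≤ T * (1 / 2 ^ e) := by
      rw [norm_mul, norm_div, div_eq_mul_inv]
      calc ‖((μ : ℚ) : ℚ_[p]) - 1‖ * ‖(T : ℚ_[p])‖⁻¹ * ‖((z l : ℤ) : ℚ_[p])‖
          ≤ (1 / 2 ^ e) * T * 1 := by
            gcongr
            exact (hμp p hpM).trans hMn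
        _ = T * (1 / 2 ^ e) := by ring
    -- the second term
    have h2 : ‖((z l : ℚ_[p]) - T * Y p l) / T‖ ≤ T * (1 / 2 ^ e) := by
      have h3 : (p : ℤ_[p]) ^ e ∣ ((z l : ℤ_[p]) - w p l) := by
        have h4 : (p : ℤ_[p]) ^ e ∣ ((z l : ℤ_[p]) - (v l : ℤ_[p])) := by
          obtain ⟨c, hc⟩ := hzM l
          obtain ⟨m, hm⟩ := hMp p hpS'
          refine ⟨(m : ℤ_[p]) * (c : ℤ_[p]), ?_⟩
          have h6 := congrArg (fun x : ℤ => (x : ℤ_[p])) hc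
          push_cast at h6
          rw [h6, hm]; push_cast; ring
        have h5 := dvd_sub h4 (hv p hpS' l)
        have h6 : (z l : ℤ_[p]) - (v l : ℤ_[p]) - (w p l - (v l : ℤ_[p])) = (z l : ℤ_[p]) - w p l := by ring
        rwa [h6] at h5
      obtain ⟨c, hc⟩ := h3
      have h7 : (z l : ℚ_[p]) - T * Y p l = (p : ℚ_[p]) ^ e * (c : ℚ_[p]) := by
        have h8 := congrArg (fun x : ℤ_[p] => (x : ℚ_[p])) hc
        push_cast at h8
        rw [hw p hp l] at h8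
        exact h8
      rw [h7, norm_div, norm_mul, div_eq_mul_inv]
      have h9 : ‖(c : ℚ_[p])‖ ≤ 1 := c.2
      calc ‖(p : ℚ_[p]) ^ e‖ * ‖(c : ℚ_[p])‖ * ‖(T : ℚ_[p])‖⁻¹ ≤ (1 / 2 ^ e) * 1 * T := by
            gcongr
            exact norm_pow_le e
        _ = T * (1 / 2 ^ e) := by ring
    have h10 : (((μ / T) * (z l : ℚ) : ℚ) : ℚ_[p]) - Y p l =
        (((μ : ℚ) : ℚ_[p]) - 1) / T * (z l : ℚ_[p]) + ((z l : ℚ_[p]) - T * Y p l) / T := by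
      push_cast
      field_simp
      ring
    rw [h10]
    exact lt_of_le_of_lt ((Padic.nonarchimedean _ _).trans (max_le h1 h2)) he

end Pool.Agent.helper132_hp
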