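import Pool.Agent.helper132_hp.Stmts3
import Pool.Agent.helper132_hp.T_TOP

/-! Weak approximation for all `p`-adic zeros and, for odd `k`, all real zeros. -/

namespace Pool.Agent.helper132_hp

open Finset Matrix

namespace WAsx

lemma FF_dot {K : Type} [Field K] {s : ℕ} (A : Matrix (Fin s) (Fin s) ℚ) (k : ℕ) (y : Fin s → K) :
    PADx.pw k y ⬝ᵥ (A.map (fun q : ℚ => (q : K))) *ᵥ PADx.pw k y = FF K A k y := by
  unfold FF
  simp only [dotProduct, Matrix.mulVec, Finset.mul_sum, Matrix.map_apply, PADx.pw]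
  refine Finset.sum_congr rfl fun i _ => Finset.sum_congr rfl fun j _ => ?_
  ring

lemma smooth_of {K : Type} [Field K] {s : ℕ} (A : Matrix (Fin s) (Fin s) ℚ) (k : ℕ) (y : Fin s → K)
    (h : ∃ l, y l ≠ 0 ∧ ((A.map (fun q : ℚ => (q : K))) *ᵥ PADx.pw k y) l ≠ 0) : SmoothAt K A k y := by
  obtain ⟨l, h1, h2⟩ := h
  refine ⟨l, mul_ne_zero (pow_ne_zero _ h1) ?_⟩
  have h3 : ((A.map (fun q : ℚ => (q : K))) *ᵥ PADx.pw k y) l = ∑ j, (A l j : K) * y j ^ k := by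
    simp only [dotProduct, Matrix.mulVec, Matrix.map_apply, PADx.pw]
  rwa [h3] at h2

lemma sym_map {K : Type} [Field K] {s : ℕ} (A : Matrix (Fin s) (Fin s) ℚ) (hA : A.IsSymm) :
    (A.map (fun q : ℚ => (q : K))).IsSymm := by
  ext i j
  simp only [Matrix.transpose_apply, Matrix.map_apply]
  rw [hA.apply]

lemma det_map {K : Type} [Field K] [CharZero K] {s : ℕ} (A : Matrix (Fin s) (Fin s) ℚ)
    (hA : A.det ≠ 0) : (A.map (fun q : ℚ => (q : K))).det ≠ 0 := by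
  have h1 : (A.map (fun q : ℚ => (q : K))).det = ((A.det : ℚ) : K) := by
    have := (RingHom.map_det (Rat.castHom K) A)
    rw [show ((A.det : ℚ) : K) = (Rat.castHom K) A.det from rfl, this]
    rfl
  rw [h1]
  exact_mod_cast hA

end WAsx

open WAsx in
theorem t_WAs (hWA : S_WA) (hSL : S_SLIM) (hOD : S_ODDL) : S_WAs := by
  obtain ⟨C, hC⟩ := hWA
  obtain ⟨C', hC3, hC'⟩ := TOPx.poly_bound
  refine ⟨C + 3 * C', fun k hk s hs A hA hdet y hy hcase S Y hY ε hε => ?_⟩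
  have hs1 : s ≥ C * k ^ 65 := by
    refine le_trans ?_ hs
    exact Nat.mul_le_mul_right _ (by omega)
  have hk65 : 1 ≤ k ^ 65 := Nat.one_le_pow _ _ hk
  have hs2 : 3 * sp k ≤ s := by
    have := (hC' k hk).1
    have h2 : 3 * (C' * k ^ 65) ≤ (C + 3 * C') * k ^ 65 := by nlinarith
    omega
  have hs3 : 3 ≤ s := by
    have h2 : 3 * 1 ≤ (C + 3 * C') * k ^ 65 := by
      calc 3 * 1 ≤ (C + 3 * C') * 1 := by omega
        _ ≤ _ := Nat.mul_le_mul_left _ hk65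
    omega
  -- the real point
  obtain ⟨y', hy'0, hy's, hy'd⟩ : ∃ y' : Fin s → ℝ, FF ℝ A k y' = 0 ∧ SmoothAt ℝ A k y' ∧
      ∀ l, |y' l - y l| < ε / 2 := by
    rcases hcase with h | ⟨hodd, w, hw0, hw⟩
    · exact ⟨y, hy, h, fun l => by simp only [sub_self, abs_zero]; positivity⟩
    · obtain ⟨y', h1, h2, h3⟩ := hOD k hodd s hs3 (A.map (fun q : ℚ => (q : ℝ))) (sym_map A hA)
        (det_map A hdet) ⟨w, hw0, by rw [FF_dot]; exact hw⟩ y (by rw [FF_dot]; exact hy) (ε / 2)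
        (by positivity)
      exact ⟨y', by rw [FF_dot] at h1; exact h1, smooth_of A k y' h2, h3⟩
  -- the p-adic points
  have hp : ∀ (p : ℕ) [Fact p.Prime], ∃ Y' : Fin s → ℚ_[p], FF ℚ_[p] A k (Y p) = 0 →
      FF ℚ_[p] A k Y' = 0 ∧ SmoothAt ℚ_[p] A k Y' ∧ ∀ l, ‖Y' l - Y p l‖ < ε / 2 := by
    intro p _
    by_cases h0 : FF ℚ_[p] A k (Y p) = 0
    · obtain ⟨Y', h1, h2, h3⟩ := hSL p k hk s hs2 (A.map (fun q : ℚ => (q : ℚ_[p]))) (sym_map A hA)
        (det_map A hdet) (Y p) (by rw [FF_dot]; exact h0) (ε / 2) (by positivity)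
      exact ⟨Y', fun _ => ⟨by rw [FF_dot] at h1; exact h1, smooth_of A k Y' h2, h3⟩⟩
    · exact ⟨Y p, fun h => absurd h h0⟩
  choose Y' hY' using hp
  obtain ⟨z, hz0, hz1, hz2⟩ := hC k hk s hs1 A hA hdet y' hy'0 hy's S Y'
    (fun p hpS _ => ⟨(hY' p (hY p hpS)).1, (hY' p (hY p hpS)).2.1⟩) (ε / 2) (by positivity)
  refine ⟨z, hz0, fun l => ?_, fun p hpS _ l => ?_⟩
  · have h1 := hz1 l
    have h2 := hy'd l
    calc |(z l : ℝ) - y l| = |((z l : ℝ) - y' l) + (y' l - y l)| := by ring_nf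
      _ ≤ |(z l : ℝ) - y' l| + |y' l - y l| := abs_add_le _ _
      _ < ε := by linarith
  · have h1 := hz2 p hpS l
    have h2 := (hY' p (hY p hpS)).2.2 l
    calc ‖((z l : ℚ) : ℚ_[p]) - Y p l‖ = ‖(((z l : ℚ) : ℚ_[p]) - Y' p l) + (Y' p l - Y p l)‖ := by
          ring_nf
      _ ≤ ‖((z l : ℚ) : ℚ_[p]) - Y' p l‖ + ‖Y' p l - Y p l‖ := norm_add_le _ _
      _ < ε := by linarith

end Pool.Agent.helper132_hp
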