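import Pool.Agent.helper132_hp.FinrAll
import Pool.Agent.helper132_hp.T_WA

namespace Pool.Agent.helper132_hp

/-- weak approximation for nonsingular points. -/
theorem wa : S_WA := t_WA finr

end Pool.Agent.helper132_hp
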