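import Pool.Agent.helper132_hp.WAall
import Pool.Agent.helper132_hp.T_WAs
import Pool.Agent.helper132_hp.T_ROOT
import Pool.Agent.helper132_hp.T_PRIN
import Pool.Agent.helper132_hp.T_COM
import Pool.Agent.helper132_hp.T_SLIM
import Pool.Agent.helper132_hp.T_ODDL

namespace Pool.Agent.helper132_hp

theorem slim : S_SLIM :=
  have hAS : S_AS := t_AS t_NORM t_GREEDY t_CNT t_PERT
  t_SLIM hAS t_ROOT t_PRIN (t_COM hAS)

/-- weak approximation for all `p`-adic points and, for odd `k`, all real points. -/
theorem was : S_WAs := t_WAs wa slim t_ODDL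

end Pool.Agent.helper132_hp
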